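import Pool.Agent.Lib.MP_879916_ag.SS.HR
import Pool.Agent.Lib.MP_751085_ag.ZF.T.Main

/-! Weak approximation for the Brauer group of a global function field. -/

namespace Pool.Agent.ZCy.F

open Pool.Agent.ZFN
open scoped Classical WithZero
open groupCohomology

attribute [local instance] Place.field Place.alg

theorem gb_ix {E : Type} [Field E] {p M : ℕ} [Fact p.Prime] [CharP E p] (hM : 0 < M) {ζ : E}
    (hζ : ζ ^ p ^ M = ζ) (g : E →+* E) : ∃ i : ℕ, g ζ = ζ ^ p ^ i := by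
  obtain ⟨m, rfl⟩ : ∃ m, M = m + 1 := ⟨M - 1, by omega⟩
  let P : Polynomial E := ∏ i ∈ Finset.range (m + 1), (Polynomial.X - Polynomial.C (ζ ^ p ^ i))
  have h1 : P.map (frobenius E p) = P := by
    simp only [P, Polynomial.map_prod, Polynomial.map_sub, Polynomial.map_X, Polynomial.map_C,
      frobenius_def, ← pow_mul, ← pow_succ]
    rw [Finset.prod_range_succ, Finset.prod_range_succ', hζ, pow_zero, pow_one]
  have h2 : P.map g = P := Polynomial.ext fun i => by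
    have h3 := congrArg (Polynomial.coeff · i) h1
    simp only [Polynomial.coeff_map, frobenius_def] at h3
    rw [Polynomial.coeff_map]
    exact (bot_le : ⊥ ≤ g.eqLocusField (RingHom.id E))
      ((Subfield.mem_bot_iff_pow_eq_self E p).2 h3)
  have h3 : P.eval ζ = 0 := by
    rw [Polynomial.eval_prod]
    exact Finset.prod_eq_zero (Finset.mem_range.2 hM) (by simp)
  have h4 : P.eval (g ζ) = 0 := by
    rw [← h2, Polynomial.eval_map, Polynomial.eval₂_hom, h3, map_zero]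
  rw [Polynomial.eval_prod, Finset.prod_eq_zero_iff] at h4
  obtain ⟨i, -, hi⟩ := h4
  exact ⟨i, sub_eq_zero.1 (by simpa using hi)⟩

theorem gb_mod {E : Type} [Field E] {p M : ℕ} {ζ : E} (hζ : ζ ^ p ^ M = ζ) (i : ℕ) :
    ζ ^ p ^ i = ζ ^ p ^ (i % M) := by
  have h : ∀ a, ζ ^ p ^ (M * a) = ζ := fun a => by
    induction a with
    | zero => simp
    | succ a ih => rw [Nat.mul_succ, pow_add, pow_mul, ih, hζ]
  conv_lhs => rw [← Nat.div_add_mod i M, pow_add, pow_mul, h]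

theorem gb_uniq {E : Type} [Field E] {p M n : ℕ} (hp : 2 ≤ p) (hM : 0 < M) (hn : p ^ M = n + 1)
    {ζ : E} (hζ : IsPrimitiveRoot ζ n) {i j : ℕ} (h : ζ ^ p ^ i = ζ ^ p ^ j) :
    (M : ℤ) ∣ (j : ℤ) - i := by
  have h0 : n ≠ 0 := by have := Nat.one_lt_pow hM.ne' hp; omega
  have h1 : ζ ^ p ^ M = ζ := by rw [hn, pow_succ, hζ.pow_eq_one, one_mul]
  rw [gb_mod h1 i, gb_mod h1 j] at h
  have h2 := Nat.pow_lt_pow_right hp (Nat.mod_lt i hM)
  have h3 := Nat.pow_lt_pow_right hp (Nat.mod_lt j hM)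
  obtain ⟨a, ha⟩ : ∃ a, p ^ (i % M) = a + 1 :=
    ⟨p ^ (i % M) - 1, by have := Nat.pow_pos (n := i % M) (show 0 < p by omega); omega⟩
  obtain ⟨b, hb⟩ : ∃ b, p ^ (j % M) = b + 1 :=
    ⟨p ^ (j % M) - 1, by have := Nat.pow_pos (n := j % M) (show 0 < p by omega); omega⟩
  rw [ha, hb, pow_succ, pow_succ, mul_left_inj' (hζ.ne_zero h0)] at h
  have h4 := hζ.pow_inj (by omega) (by omega) h
  exact Nat.modEq_iff_dvd.1 (Nat.pow_right_injective hp (show p ^ (i % M) = p ^ (j % M) by omega))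

theorem gb_circ {x y : ℚ} {z : ℤ} (h : x = y + z) :
    (x : AddCircle (1 : ℚ)) = (y : AddCircle (1 : ℚ)) := by
  rw [h, AddCircle.coe_add, add_eq_left, AddCircle.coe_eq_zero_iff]
  exact ⟨z, by simp⟩

/-- the class of the constant character of order `M` and the element `u` -/
theorem gb_glob {k : Type} [Field k] {p M : ℕ} [Fact p.Prime] [CharP k p] (hM : 0 < M) {u : k}
    (hu : u ≠ 0) : ∃ β : BR k, M • β = 0 ∧ ∀ (Ω : Type) [Field Ω] [IsAlgClosed Ω] (v : Vl k)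
      (ρ : v.integer →+* Ω) (γ : Ω ≃+* Ω) (d : ℕ), Nrm v → IsRed v ρ → (∀ x, γ x = x ^ p ^ d) →
      (∀ x, γ (ρ x) = ρ x) → ResAt v ρ β γ ((ord v u * d / M : ℚ) : AddCircle (1 : ℚ)) := by
  have h2 : 2 ≤ p := (Fact.out : p.Prime).two_le
  obtain ⟨n, hn⟩ : ∃ n, p ^ M = n + 1 :=
    ⟨p ^ M - 1, by have := Nat.pow_pos (n := M) (show 0 < p by omega); omega⟩
  have hn0 : n ≠ 0 := by have := Nat.one_lt_pow hM.ne' h2; omega
  have : NeZero n := ⟨hn0⟩
  have hk : (n : k) = -1 := by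
    have h := congrArg (Nat.cast : ℕ → k) hn
    rw [Nat.cast_pow, CharP.cast_eq_zero, zero_pow hM.ne', Nat.cast_succ] at h
    exact eq_neg_of_add_eq_zero_left h.symm
  have : NeZero (n : k) := ⟨by rw [hk]; exact neg_ne_zero.2 one_ne_zero⟩
  let E := CyclotomicField n k
  have := IsCyclotomicExtension.finiteDimensional {n} k E
  have := IsCyclotomicExtension.isGalois {n} k E
  have : CharP E p := charP_of_injective_algebraMap (algebraMap k E).injective p
  obtain ⟨ζ, hζ⟩ : ∃ ζ : E, IsPrimitiveRoot ζ n := ⟨_, IsCyclotomicExtension.zeta_spec n k E⟩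
  have h1 : ζ ^ p ^ M = ζ := by rw [hn, pow_succ, hζ.pow_eq_one, one_mul]
  choose ix hix using fun g : E ≃ₐ[k] E => gb_ix hM h1 (g : E →+* E)
  replace hix : ∀ g : E ≃ₐ[k] E, g ζ = ζ ^ p ^ ix g := hix
  choose z hz using fun q : (E ≃ₐ[k] E) × (E ≃ₐ[k] E) => gb_uniq h2 hM hn hζ
    (i := ix (q.1 * q.2)) (j := ix q.1 + ix q.2) (by
      rw [← hix, AlgEquiv.mul_apply, hix q.2, map_pow, hix q.1, ← pow_mul, ← pow_add])
  have hM' : (M : ℤ) ≠ 0 := Nat.cast_ne_zero.2 hM.ne'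
  let f : Eˣ := Units.mk0 (algebraMap k E u) ((map_ne_zero _).2 hu)
  have hf : ∀ (g : E ≃ₐ[k] E) (a : ℤ), g • f ^ a = f ^ a := fun g a => by
    rw [smul_zpow', show g • f = f from Units.ext (g.commutes _)]
  have hco : IsMulCocycle₂ fun q => f ^ z q := fun g h j => by
    rw [hf, ← zpow_add, ← zpow_add]
    congr 1
    have e1 := hz (g * h, j)
    have e2 := hz (g, h)
    have e3 := hz (h, j)
    have e4 := hz (g, h * j)
    simp only [mul_assoc] at e1 e2 e3 e4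
    push_cast at e1 e2 e3 e4
    exact mul_left_cancel₀ hM' (by linear_combination e3 + e4 - e1 - e2)
  refine ⟨cls k fun q => f ^ z q, ?_, fun Ω _ _ v ρ γ d hv hρ hγ hγ' => ?_⟩
  · rw [← cls_pow hco, ← cls_dd (K := k) fun g => f ^ (ix g : ℤ)]
    congr 1
    funext q
    refine Eq.trans ?_ (congrArg (fun t => t / f ^ (ix (q.1 * q.2) : ℤ) * f ^ (ix q.1 : ℤ))
      (hf q.1 (ix q.2))).symm
    rw [Pi.pow_apply, div_eq_mul_inv, ← zpow_sub, ← zpow_add, ← zpow_natCast, ← zpow_mul]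
    congr 1
    have e1 := hz q
    push_cast at e1
    linear_combination -e1
  obtain ⟨w, ho⟩ := vn_exists (E := E) v
  obtain ⟨ρ', hρ', hc⟩ := vn_redext ho hρ
  obtain ⟨e, he0, he⟩ := ho.idq_nat hv
  have hwn : w (n : E) = 1 := by
    rw [← map_natCast (algebraMap k E), hk, map_neg, map_one, Valuation.map_neg, map_one]
  have hwζ : w ζ = 1 := (pow_eq_one_iff_of_nonneg zero_le hn0).1 (by
    rw [← map_pow, hζ.pow_eq_one, map_one])
  have hi : Ine k w = ⊥ := eq_bot_iff.2 fun g hg => by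
    have h3 := ine_kum hg hwζ hwn (by rw [hζ.pow_eq_one, map_one])
    exact AlgEquiv.coe_toAlgHom_injective (AlgHom.ext_of_adjoin_eq_top
      (IsCyclotomicExtension.adjoin_primitive_root_eq_top (A := k) hζ) (by rintro _ rfl; exact h3))
  obtain ⟨σ, hσ, hσ'⟩ := exists_dec (K := k) hρ' (γ : Ω →+* Ω) fun a y e => by
    rw [hc ⟨a, (ho a).1 (e ▸ y.2)⟩ y e]
    exact hγ' _
  have hs : σ ζ = ζ ^ p ^ d := by
    have h0 : ζ ^ p ^ d ≠ 0 := pow_ne_zero _ (hζ.ne_zero hn0)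
    rw [← div_eq_one_iff_eq h0]
    refine mu_eq_one hwn ?_ ?_
    · rw [div_pow, ← map_pow, ← pow_mul, mul_comm, pow_mul, hζ.pow_eq_one, map_one, one_pow,
        div_one]
    · have h3 := (hσ' ⟨ζ, hwζ.le⟩ ⟨σ ζ, (hσ ζ).trans_le hwζ.le⟩ rfl).trans (hγ _)
      rw [← map_pow, ← sub_eq_zero, ← map_sub, hρ'] at h3
      rw [div_sub_one h0, map_div₀, map_pow, hwζ, one_pow, div_one]
      exact h3
  have hQ : (M : ℚ) ≠ 0 := Nat.cast_ne_zero.2 hM.ne'
  have hR : IsRD v (cls k fun q => f ^ z q) w e (fun q => f ^ z q)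
      fun g => ord v u * ix g / M := by
    refine ⟨Nat.cast_pos.2 he0, he, hco, rfl, hi ▸ infl_bot _ _, fun g _ h _ => ?_⟩
    have e1 := congrArg (Int.cast : ℤ → ℚ) (hz (g, h))
    rw [Units.val_zpow_eq_zpow_val, ord_zpow, Int.cast_mul, Units.val_mk0, he u hu]
    push_cast at e1
    field_simp
    linear_combination (-(ord v u : ℚ)) * e1
  obtain ⟨t, ht⟩ := gb_uniq h2 hM hn hζ ((hix σ).symm.trans hs)
  have e1 := congrArg (Int.cast : ℤ → ℚ) ht
  push_cast at e1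
  rw [gb_circ (y := ord v u * ix σ / M) (z := ord v u * t) (by
    push_cast
    field_simp
    linear_combination (ord v u : ℚ) * e1)]
  exact hR.resAt hρ' hc hσ hσ'

theorem gb_loc {k : Type} [Field k] (F₀ : Type) [Field F₀] [Finite F₀] [Algebra (RatFunc F₀) k]
    [FiniteDimensional (RatFunc F₀) k] {p : ℕ} (hp : p.Prime) [CharP k p] (v : Place k) {l : ℕ}
    (hl : l.Prime) (hk : (l : k) ≠ 0) {b : BR v.K} (hb : Prim l b) :
    ∃ R₀ : ℕ, ∀ R, R₀ ≤ R → ∃ a : ℤ, ∀ β : BR k, l ^ R • β = 0 →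
      (∀ (Ω : Type) [Field Ω] [IsAlgClosed Ω] (ρ : (plv v).integer →+* Ω) (γ : Ω ≃+* Ω) (d : ℕ),
        IsRed (plv v) ρ → (∀ x, γ x = x ^ p ^ d) → (∀ x, γ (ρ x) = ρ x) →
        ResAt (plv v) ρ β γ ((a * d / (l ^ R : ℕ) : ℚ) : AddCircle (1 : ℚ))) →
      rs (algebraMap k v.K) β = b := by
  obtain ⟨π, hπ⟩ := plv_nrm v
  have hw : Nrm (plw v) := ⟨_, (plw_map v π).trans hπ⟩
  have := hw.isVR.cdvr (plw_cpl v)
  have := tfma_fin hw (plw_finR F₀ v)
  obtain ⟨κ, _, _, s, ρ₀, hs, hρ₀⟩ := exists_finB (plw v).integer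
  obtain ⟨w, ρ, γ, h1, -, hγ, hL⟩ := exists_linv_dataF (K := v.K) hs hρ₀
  obtain rfl : w = plw v := nv_eq hw h1.1 fun y => (h1.2.2 y).trans (hw.isVR.2.2 y).symm
  obtain ⟨p', d, hp', _, hd, rfl⟩ := hs.ex
  obtain rfl : p' = p := by
    have h2 : (p : (plw v).integer) = 0 := Subtype.ext
      (((map_natCast (plw v).integer.subtype p).trans (map_natCast (algebraMap k v.K) p).symm).trans
        (by rw [CharP.cast_eq_zero]; exact map_zero _))
    have h3 := congrArg ρ h2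
    rw [map_natCast, map_zero, CharP.cast_eq_zero_iff κ p'] at h3
    exact (Nat.prime_dvd_prime_iff_eq hp' hp).1 h3
  have hN : ∀ R : ℕ, plw v ((l ^ R : ℕ) : v.K) = 1 := fun R => by
    have h2 := vl_const (plw v) ((algebraMap k v.K).comp
      ((algebraMap (RatFunc F₀) k).comp RatFunc.C)) (a := (l : F₀)) fun e => hk (by
        rw [← map_natCast ((algebraMap (RatFunc F₀) k).comp RatFunc.C), e, map_zero])
    rw [map_natCast] at h2
    rw [Nat.cast_pow, map_pow, h2, one_pow]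
  have hfx : ∀ x, γ (ρ x) = ρ x := fun x => (hγ _).trans (hL.pow_eq x)
  obtain ⟨r, hr⟩ := hb
  obtain ⟨q, hq⟩ := (hasRes_of_unit (hN r) hr).resAt hL.red hfx
  obtain ⟨m, -, rfl⟩ := (AddCircle.nsmul_eq_zero_iff (pow_pos hl.pos r)).1
    (resAt_tors hw hL.red hfx hq hr)
  obtain ⟨t, d', hd', rfl⟩ := Nat.exists_eq_pow_mul_and_not_dvd hd.ne' l hl.ne_one
  obtain ⟨x, y, hxy⟩ := Nat.isCoprime_iff_coprime.2
    (((Nat.Prime.coprime_iff_not_dvd hl).2 hd').pow_left r)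
  refine ⟨r + t, fun R hR => ?_⟩
  obtain ⟨j, rfl⟩ := Nat.exists_eq_add_of_le hR
  refine ⟨m * y * l ^ j, fun β hβ H => ?_⟩
  let ι : (plv v).integer →+* (plw v).integer :=
    ((algebraMap k v.K).comp (plv v).integer.subtype).codRestrict _ fun a =>
      (plw_map v a).trans_le a.2
  have h2 := (H κ (ρ.comp ι) γ _ (fun a => (hL.red (ι a)).trans (by
    rw [← plw_map]; rfl)) hγ fun a => hfx _).map (algebraMap k v.K) one_pos
    (fun a _ => by rw [ord, plw_map, Nat.cast_one, one_mul]; rfl) hL.red (ι := RingHom.id κ)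
    (fun a c e => congrArg ρ (Subtype.ext e)) (fun _ => rfl) hfx
  have hQ : (l : ℚ) ≠ 0 := Nat.cast_ne_zero.2 hl.ne_zero
  have e1 := congrArg (Int.cast : ℤ → ℚ) hxy
  rw [one_smul, gb_circ (y := (m : ℚ) / (l ^ r : ℕ) * 1) (z := -(m * x)) (by
    push_cast at e1 ⊢
    field_simp
    linear_combination (m * l ^ j * l ^ t * l ^ r : ℚ) * e1)] at h2
  have h3 := h2.sub hq
  rw [sub_self] at h3
  refine sub_eq_zero.1 (hL.eq_zero_of_frobF hγ (hN (r + t + j)) ?_ h3)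
  have e2 : l ^ (r + t + j) • b = 0 := by
    rw [add_assoc, add_comm r, pow_add, mul_nsmul', hr]
    exact nsmul_zero (M := BR v.K) _
  have e3 : l ^ (r + t + j) • rs (algebraMap k v.K) β = 0 := by
    rw [← map_nsmul, hβ, map_zero]
  have e4 : l ^ (r + t + j) • (rs (algebraMap k v.K) β - b) =
      l ^ (r + t + j) • rs (algebraMap k v.K) β - l ^ (r + t + j) • b :=
    nsmul_sub (rs (algebraMap k v.K) β) b (l ^ (r + t + j))
  rw [e4, e2, e3]
  exact sub_self (0 : BR v.K)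

theorem gb_ord {k : Type} [Field k] (T : Finset (Place k)) (a : Place k → ℤ) :
    ∃ u : k, u ≠ 0 ∧ ∀ v ∈ T, ord (plv v) u = a v := by
  choose c hc using fun v : Place k => (plv_nrm v).surj (WithZero.exp (-a v))
  obtain ⟨N, hN⟩ := (T.finite_toSet.image fun v => (a v).toNat).bddAbove
  obtain ⟨x, hx⟩ := wap (fun v : T => plv v.1) (fun v => plv_nrm _) (fun v => c v.1)
    (fun v v' e => congrArg c (plv_inj e)) (N + 1)
  have h : ∀ v ∈ T, plv v x = WithZero.exp (-a v) := fun v hv =>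
    ((plv v).map_eq_of_sub_lt ((hx ⟨v, hv⟩).trans_lt (by
      have h1 : (a v).toNat ≤ N := hN ⟨v, hv, rfl⟩
      rw [hc, WithZero.exp_lt_exp]
      omega))).trans (hc v)
  by_cases h0 : x = 0
  · exact ⟨1, one_ne_zero, fun v hv => absurd (h v hv) (by
      rw [h0, map_zero]; exact WithZero.exp_ne_zero.symm)⟩
  · exact ⟨x, h0, fun v hv => by rw [ord, h v hv, WithZero.log_exp, neg_neg]⟩

theorem gb_ex {k : Type} [Field k] (F₀ : Type) [Field F₀] [Finite F₀] [Algebra (RatFunc F₀) k]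
    [FiniteDimensional (RatFunc F₀) k] (T : Finset (Place k)) {l : ℕ} (hl : l.Prime)
    (hk : (l : k) ≠ 0) (b : ∀ v : Place k, BR v.K) (hb : ∀ v ∈ T, Prim l (b v)) :
    ∃ β : BR k, Prim l β ∧ ∀ v ∈ T, rs (algebraMap k v.K) β = b v := by
  obtain ⟨p, hp⟩ := CharP.exists F₀
  have hp' := CharP.char_is_prime F₀ p
  have : Fact p.Prime := ⟨hp'⟩
  have : CharP k p :=
    charP_of_injective_ringHom ((algebraMap (RatFunc F₀) k).comp RatFunc.C).injective p
  choose! R₀ hR using fun v (hv : v ∈ T) => gb_loc F₀ hp' v hl hk (hb v hv)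
  choose! a ha using fun v (hv : v ∈ T) => hR v hv (T.sup R₀) (Finset.le_sup hv)
  obtain ⟨u, hu, h1⟩ := gb_ord T a
  obtain ⟨β, h2, h3⟩ := gb_glob (p := p) (pow_pos hl.pos (T.sup R₀)) hu
  exact ⟨β, ⟨_, h2⟩, fun v hv => ha v hv β h2 fun Ω _ _ ρ γ d e1 e2 e3 =>
    h1 v hv ▸ h3 Ω _ ρ γ d (plv_nrm v) e1 e2 e3⟩

end Pool.Agent.ZCy.F
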