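import Pool.Agent.Lib.MP_72c364_ag.ZQ.Main
import Pool.Agent.Lib.MP_751085_ag.ZF.H.Dual

/-! A change of the local cycles at finitely many places by cycles on a curve. -/

namespace Pool.Agent.ZCy.F

open Pool.Agent.ZFN Pool.Agent.ZFy.U Uw Module Filter
open scoped Classical

theorem glue_abs {A V : Type} [AddCommGroup A] {Z : V → Type} [∀ v, AddCommGroup (Z v)]
    (d : ∀ v, Z v →+ ℤ) (π : ∀ v, Z v →+ A →+ AddCircle (1 : ℚ))
    (p : V → A →+ AddCircle (1 : ℚ)) (hA : ∀ a : A, ∃ N : ℕ, 0 < N ∧ N • a = 0) (T : Finset V)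
    (hR : ∀ v ∈ T, ∀ (ι : Type) (U : Ultrafilter ι) (z : ι → Z v), (∀ i, d v (z i) = 0) →
      ∃ z₀, d v z₀ = 0 ∧ ∀ a, ∀ᶠ i in U, π v (z i) a = π v z₀ a)
    (h : ∀ a, (∀ v ∈ T, ∀ z, d v z = 0 → π v z a = 0) → ∑ᶠ v, p v a = 0) :
    ∃ z : ∀ v, Z v, (∀ v, d v (z v) = 0) ∧ ∀ a, ∑ᶠ v, (p v a - π v (z v) a) = 0 := by
  let B : AddSubgroup A :=
    { carrier := {a | (Function.support fun v => p v a).Finite}
      zero_mem' := by simp
      add_mem' := fun {a b} ha hb => (Set.Finite.union ha hb).subset fun v hv => by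
        by_contra e
        simp only [Set.mem_union, Function.mem_support, not_or, not_not] at e
        exact hv (by simp [e.1, e.2])
      neg_mem' := fun {a} ha => Set.Finite.subset ha fun v hv e => hv (by simp [e]) }
  let φ : B →+ AddCircle (1 : ℚ) := AddMonoidHom.mk' (fun a => ∑ᶠ v, p v a.1) fun a b =>
    (finsum_congr fun v => map_add _ _ _).trans (finsum_add_distrib a.2 b.2)
  let ψ : (∀ v, Z v) →+ B →+ AddCircle (1 : ℚ) :=
    AddMonoidHom.mk' (fun w => ∑ v ∈ T, (π v (w v)).comp B.subtype) fun w w' => by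
      rw [← Finset.sum_add_distrib]
      exact Finset.sum_congr rfl fun v _ => by rw [Pi.add_apply, map_add, AddMonoidHom.add_comp]
  have hψ : ∀ w a, ψ w a = ∑ v ∈ T, π v (w v) a.1 := fun w a =>
    AddMonoidHom.finsetSum_apply _ _ _
  choose χ h1 h2 using h_dual (A := B) (fun a => (hA a.1).imp fun N hN => ⟨hN.1, Subtype.ext hN.2⟩)
    ((AddSubgroup.pi Set.univ fun v => (d v).ker).map ψ) φ
    fun a ha => h a.1 fun v hv z hz => by
      have e := ha _ ⟨Pi.single v z, fun u _ => by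
        by_cases e : u = v
        · subst e
          simpa using hz
        · simp [Pi.single_eq_of_ne e], rfl⟩
      rwa [hψ, Finset.sum_eq_single_of_mem v hv fun u _ e => by simp [Pi.single_eq_of_ne e],
        Pi.single_eq_same] at e
  choose w h3 h4 using h1
  choose z₀ h5 h6 using fun v hv => hR v hv _ (Ultrafilter.of atTop) (fun s => w s v)
    fun s => h3 s v trivial
  let z : ∀ v, Z v := fun v => if hv : v ∈ T then z₀ v hv else 0
  have h7 : ∀ v ∉ T, ∀ a, π v (z v) a = 0 := fun v hv a => by simp [z, hv]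
  refine ⟨z, fun v => ?_, fun a => ?_⟩
  · by_cases hv : v ∈ T <;> simp [z, hv, h5]
  have h8 : (Function.support fun v => π v (z v) a) ⊆ T := fun v hv =>
    by_contra fun e => hv (h7 v e a)
  by_cases ha : a ∈ B
  · obtain ⟨s, e1, e2⟩ := (((eventually_ge_atTop ({⟨a, ha⟩} : Finset B)).filter_mono
      (Ultrafilter.of_le atTop)).and (eventually_all.2 fun v : T => h6 v.1 v.2 a)).exists
    rw [finsum_sub_distrib ha (T.finite_toSet.subset h8), finsum_eq_sum_of_support_subset _ h8,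
      sub_eq_zero]
    refine (h2 s _ (e1 (Finset.mem_singleton_self _))).symm.trans ?_
    rw [← h4, hψ]
    exact Finset.sum_congr rfl fun v hv => (e2 ⟨v, hv⟩).trans (by simp [z, hv])
  · refine finsum_of_infinite_support fun e => ha ((e.union T.finite_toSet).subset fun v hv => ?_)
    by_cases hv' : v ∈ T
    · exact Or.inr hv'
    · exact Or.inl (by simpa [h7 v hv'] using hv)

theorem glue_add {A : Type} [AddCommGroup A] {l : ℕ} {a b : A} : Prim l a → Prim l b →
    Prim l (a + b) := fun ⟨r, hr⟩ ⟨s, hs⟩ =>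
  ⟨r + s, by rw [nsmul_add, prim_up hs r, add_comm r s, prim_up hr s, add_zero]⟩

theorem glue_neg {A : Type} [AddCommGroup A] {l : ℕ} {a : A} : Prim l a → Prim l (-a) :=
  fun ⟨r, hr⟩ => ⟨r, by rw [neg_nsmul, hr, neg_zero]⟩

attribute [local instance] Place.field Place.alg

theorem hs_glue (h1 : EV) (h2 : WR) (h3 : LCA) {k : Type} [Field k] (F₀ : Type) [Field F₀]
    [Finite F₀] [Algebra (RatFunc F₀) k] [FiniteDimensional (RatFunc F₀) k] {Y : Var k} {n : ℕ}
    (hY : Y.Nice n) (hn : 1 ≤ n) {l : ℕ} (hl : 0 < l)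
    {j : ∀ v : Place k, BR v.K →+ AddCircle (1 : ℚ)} (hj : ∀ v, Function.Injective (j v))
    {C : Gen k Y.N} (hC : C.var.Nice 1) (hs : Y.Sub C) (T : Finset (Place k))
    (hp : ∀ v ∈ T, ∃ y : C.var.Cyc v.K, Var.deg y = 1) (y : ∀ v : Place k, Y.Cyc v.K)
    (h : ∀ a ∈ Y.Bw, Prim l a → (∀ v ∈ T, Kills Y v.K a fun x => C.var.On x) →
      ∑ᶠ v, j v (Var.pr (y v) a) = 0) :
    ∃ y' : ∀ v : Place k, Y.Cyc v.K, (∀ v, Var.deg (y' v) = Var.deg (y v)) ∧ OrthW Y l j y' := by
  have : Infinite k :=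
    .of_injective _ ((algebraMap (RatFunc F₀) k).injective.comp (RatFunc.algebraMap_injective F₀))
  have E := h1 k Y n hY hn
  let P : AddSubgroup (BR Y.F) :=
    { carrier := {a | a ∈ Y.Bw ∧ Prim l a}
      zero_mem' := ⟨zero_mem _, 0, nsmul_zero _⟩
      add_mem' := fun ha hb => ⟨add_mem ha.1 hb.1, glue_add ha.2 hb.2⟩
      neg_mem' := fun ha => ⟨neg_mem ha.1, glue_neg ha.2⟩ }
  let q : ∀ {C : Gen k Y.N}, Y.Sub C → ∀ v : Place k, C.var.Cyc v.K →+ P →+ AddCircle (1 : ℚ) :=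
    fun hs v => AddMonoidHom.mk' (fun z => AddMonoidHom.mk' (fun a => j v (Y.prG z a.1)) fun a b =>
      (congrArg (j v) (prG_add' E hs a.2.1 b.2.1 z)).trans ((j v).map_add _ _))
      fun z z' => AddMonoidHom.ext fun a =>
        (congrArg (j v) (prG_add z z' a.1)).trans ((j v).map_add _ _)
  obtain ⟨z, z1, z2⟩ := glue_abs (A := P) (Z := fun v : Place k => C.var.Cyc v.K)
    (fun v => degH _ _) (q hs) (fun v => q sub_slf v (y v))
    (fun a => (exists_torsion a.1).imp fun N hN => ⟨hN.1, Subtype.ext hN.2⟩) T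
    (fun v hv ι U z hz => by
      obtain ⟨ν, hν⟩ := nu_thm k F₀ v
      exact (real_of h1 h2 h3 k Y n hY hn C hC hs v.K ν hν.1 (hp v hv) ι U z hz).imp
        fun z₀ h0 => ⟨h0.1, fun a => (h0.2 a a.2.1).mono fun i hi => congrArg (j v) hi⟩)
    fun a ha => h a a.2.1 a.2.2 fun v hv => (kills_iff E hs a.2.1).2 fun z hz =>
      hj v ((ha v hv z hz).trans (j v).map_zero.symm)
  choose z' z3 z4 using fun v => push hs (z v)
  refine ⟨fun v => y v - z' v, fun v => ?_, fun a ha hp =>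
    (finsum_congr fun v => ?_).trans (z2 ⟨a, ha, hp⟩)⟩
  · rw [← degH_apply, map_sub, degH_apply, degH_apply, z3]
    exact sub_eq_self.2 (z1 v)
  · refine eq_sub_of_add_eq (((j v).map_add _ _).symm.trans (congrArg (j v) ?_))
    rw [← z4]
    exact (prG_add (C := slf Y) (y v - z' v) (z' v) a).symm.trans (by rw [sub_add_cancel])

end Pool.Agent.ZCy.F
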