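import Pool.Agent.Lib.MP_879916_ag.SS.HR
import Pool.Agent.Lib.MP_751085_ag.ZF.R3
import Pool.Agent.Lib.MP_751085_ag.ZF.T.Chg

/-! Descent from the completion. -/

namespace Pool.Agent.ZCy.F

open scoped Classical WithZero Polynomial

/-- the elements of the valuation ring that are congruent to an element of the subfield -/
def descRing {F₁ F : Type} [Field F₁] [Field F] (j : F₁ →+* F) (v : Vl F) : Subring F where
  carrier := {y | ∃ x, v (j x) ≤ 1 ∧ v (y - j x) < 1}
  zero_mem' := ⟨0, by simp, by simp⟩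
  one_mem' := ⟨1, by simp, by simp⟩
  add_mem' := by
    rintro y z ⟨a, a1, a2⟩ ⟨b, b1, b2⟩
    refine ⟨a + b, by rw [map_add]; exact v.map_add_le a1 b1, ?_⟩
    rw [map_add, add_sub_add_comm]
    exact v.map_add_lt a2 b2
  neg_mem' := by
    rintro y ⟨a, a1, a2⟩
    exact ⟨-a, by rwa [map_neg, v.map_neg], by rwa [map_neg, neg_sub_neg, v.map_sub_swap]⟩
  mul_mem' := by
    rintro y z ⟨a, a1, a2⟩ ⟨b, b1, b2⟩
    refine ⟨a * b, by rw [map_mul, map_mul]; exact mul_le_one' a1 b1, ?_⟩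
    have hz : v z ≤ 1 := by
      rw [← sub_add_cancel z (j b)]
      exact v.map_add_le b2.le b1
    rw [map_mul, show y * z - j a * j b = (y - j a) * z + j a * (z - j b) by ring]
    refine v.map_add_lt ?_ ?_ <;> rw [map_mul]
    · exact (mul_le_of_le_one_right' hz).trans_lt a2
    · exact (mul_le_of_le_one_left' a1).trans_lt b2

theorem desc_inv {F₁ F : Type} [Field F₁] [Field F] {j : F₁ →+* F} {v : Vl F} {y : F}
    (h : y ∈ descRing j v) (hy : v y = 1) : y⁻¹ ∈ descRing j v := by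
  obtain ⟨a, -, a2⟩ := h
  have h1 : v (j a) = 1 := by
    rw [← sub_sub_cancel y (j a), v.map_sub_eq_of_lt_left (hy ▸ a2), hy]
  have h2 : y ≠ 0 := by
    rintro rfl
    simp at hy
  have h3 : j a ≠ 0 := fun e => by simp [e] at h1
  refine ⟨a⁻¹, by rw [map_inv₀, map_inv₀, h1, inv_one], ?_⟩
  rwa [map_inv₀, inv_sub_inv h2 h3, map_div₀, map_mul, hy, h1, mul_one, div_one, v.map_sub_swap]

theorem desc {O₁ k O K κ σ F₁ F : Type} [CommRing O₁] [IsDomain O₁] [IsDiscreteValuationRing O₁]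
    [Field k] [Algebra O₁ k] [IsFractionRing O₁ k] [CommRing O] [IsDomain O]
    [IsDiscreteValuationRing O] [Field K] [Algebra O K] [IsFractionRing O K] [Field κ] [Fintype σ]
    [Field F₁] [Field F] [Algebra (RF (Option σ) k) F₁] [Algebra (RF (Option σ) K) F]
    (i : O₁ →+* O) {π : O₁} {ρ : O →+* κ} {q₁ : PChart O₁ σ} {c₁ : PChart k σ} {θ₁ : F₁}
    (h₁ : XH π (ρ.comp i) q₁ c₁ θ₁) {q : PChart O σ} {c : PChart K σ} {θ : F}
    (h : XH (i π) ρ q c θ) (hd : ∀ a : O, ∃ b, i π ∣ a - i b) (j : F₁ →+* F)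
    (hj : ∀ p, j (gO O₁ k (Option σ) F₁ p) = gO O K (Option σ) F (MvPolynomial.map i p))
    (hθ : j θ₁ = θ) {v : Vl F} (hv : Cen1 (gO O K (Option σ) F) v (MvPolynomial.C (i π)))
    {W : Vl F₁} (hW : Cen (gO O₁ k (Option σ) F₁) W (MvPolynomial.C π)) {a : BR F₁} {N : ℕ}
    (hN : IsUnit (N : O₁)) (ha : N • a = 0) (hu : Unram v (rs j a)) : Unram W a := by
  have hc : Cen1 (gO O₁ k (Option σ) F₁) (v.comap j) (MvPolynomial.C π) := by
    refine ⟨⟨fun p => ?_, fun p => ?_⟩, ?_⟩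
    · rw [Valuation.comap_apply, hj]
      exact hv.1.1 _
    · rw [Valuation.comap_apply, hj, hv.1.2, ← mp_ker h.ker h.irr, ← mp_ker h₁.ker h₁.irr,
        MvPolynomial.map_map]
    · rw [Valuation.comap_apply, hj, MvPolynomial.map_C]
      exact hv.2
  obtain ⟨φ₁, f1, -, -, p1, c1, n1, -⟩ := h₁.adj
  obtain ⟨φ, f, e, r, p, fc, n, -⟩ := h.adj
  have hφ := (n v).1 hv.1
  have hM : ∀ Q, gO O K (Option σ) F Q ∈ descRing j v := fun Q => by
    induction Q using MvPolynomial.induction_on with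
    | C a =>
      obtain ⟨b, hb⟩ := hd a
      refine ⟨_, hc.1.1 (MvPolynomial.C b), ?_⟩
      rw [hj, MvPolynomial.map_C, ← map_sub, ← map_sub, hv.1.2]
      exact map_dvd _ hb
    | add p q hp hq => exact map_add (gO O K (Option σ) F) p q ▸ add_mem hp hq
    | mul_X p s hp =>
      rw [map_mul]
      exact mul_mem hp ⟨_, hc.1.1 (MvPolynomial.X s), by
        rw [hj, MvPolynomial.map_X, sub_self, map_zero]; exact zero_lt_one⟩
  have hA : ∀ b, φ b ∈ descRing j v := fun b => by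
    obtain ⟨g, rfl⟩ := AdjoinRoot.mk_surjective b
    induction g using Polynomial.induction_on with
    | C a => exact (AdjoinRoot.mk_C a ▸ e a) ▸ hM a
    | add p q hp hq => rw [map_add, map_add]; exact add_mem hp hq
    | monomial m a hp =>
      rw [pow_succ, ← mul_assoc, map_mul, map_mul, AdjoinRoot.mk_X, r]
      exact mul_mem hp ⟨θ₁, hθ ▸ h.le hv.1, by rw [hθ, sub_self, map_zero]; exact zero_lt_one⟩
  refine (Unram.descend j hc.nrm (fun x _ => (one_mul (ord v (j x) : ℚ)).symm) (fun y hy => ?_)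
    (hasRes_of_unit ?_ ha) hu).congr
    ((gau_over f1 p1 c1 ((n1 _).1 hc.1)).1 ((n1 W).1 hW))
  · obtain ⟨s, t, ht, e'⟩ := gau_desc f p fc hφ hy
    have h1 := (hφ.eq_one t).2 ht
    have h2 : φ t ≠ 0 := fun e => by simp [e] at h1
    rw [(eq_mul_inv_iff_mul_eq₀ h2).2 e']
    exact mul_mem (hA s) (desc_inv (hA t) h1)
  · rw [← map_natCast (gO O₁ k (Option σ) F₁), hc.1.eq_one]
    exact fun d => (mp_prime h₁.irr).1.not_isUnit
      (isUnit_of_dvd_unit d (map_natCast (MvPolynomial.C (σ := Option σ) (R := O₁)) N ▸ hN.map _))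

end Pool.Agent.ZCy.F
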