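import Pool.Agent.Lib.MP_879916_ag.SS.Gau
import Pool.Agent.Lib.MP_751085_ag.ZF.C.Trans
import Pool.Agent.Lib.MP_751085_ag.ZF.L.HK
import Pool.Agent.Lib.MP_751085_ag.ZF.U.Iface

/-! Models of the chart of the surface and of its blow-up. -/

namespace Pool.Agent.ZCy.F

open Pool.Agent.ZFy
open scoped Classical WithZero Polynomial
open MvPolynomial

section aux

variable {R S σ ι ι' : Type} [CommRing R] [CommRing S] {N : ℕ}

theorem model_aff [Fintype ι] (φ : R →+* S) (M : Matrix ι ι R) (p : MP ι R) :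
    map φ (aff 0 M p) = aff 0 (M.map φ) (map φ p) := by
  have : (map φ : MP ι R →+* MP ι S).comp (aff 0 M : MP ι R →+* MP ι R) =
      (aff 0 (M.map φ) : MP ι S →+* MP ι S).comp (map φ) := by
    ext : 1
    · ext : 1; simp [aff]
    · simp [aff]
  exact DFunLike.congr_fun this p

theorem model_extM (φ : R →+* S) (M : Matrix σ σ R) : (extM M).map φ = extM (M.map φ) := by
  ext i j
  cases i <;> cases j <;> simp [extM]

theorem model_hyp (φ : R →+* S) (p : MP (Option (Option σ)) R) :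
    map φ (hyp p) = hyp (map φ p) := by
  have : (map φ : MP (Option σ) R →+* MP (Option σ) S).comp hyp = hyp.comp (map φ) := by
    ext : 1
    · ext : 1; simp [hyp]
    · rename_i i
      rcases i with _ | _ | i <;> simp [hyp]
  exact DFunLike.congr_fun this p

theorem model_hyp0 (φ : R →+* S) (p : MP (Option σ) R) : map φ (hyp0 p) = hyp0 (map φ p) := by
  have : (map φ : MP σ R →+* MP σ S).comp hyp0 = hyp0.comp (map φ) := by
    ext : 1
    · ext : 1; simp [hyp0]
    · rename_i i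
      cases i <;> simp [hyp0]
  exact DFunLike.congr_fun this p

theorem model_cc (p : MP (Option σ) R) : constantCoeff (hyp0 p) = constantCoeff p := by
  have : (constantCoeff : MP σ R →+* R).comp hyp0 = constantCoeff := by
    ext : 1
    · ext : 1; simp [hyp0]
    · rename_i i
      cases i <;> simp [hyp0]
  exact DFunLike.congr_fun this p

theorem model_mq (φ : R →+* S) {h : MP ι R →+* MP ι' R} {h' : MP ι S →+* MP ι' S}
    (e : ∀ p, map φ (h p) = h' (map φ p)) (p : (MP ι R)[X]) :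
    mq φ (p.map h) = (mq φ p).map h' := by
  simp only [Polynomial.coe_mapRingHom, Polynomial.map_map]
  congr 1
  exact RingHom.ext e

theorem model_mq_mq {T : Type} [CommRing T] (φ : R →+* S) (ψ : S →+* T) (p : (MP ι R)[X]) :
    mq ψ (mq φ p) = mq (ψ.comp φ) p := by
  simp only [Polynomial.coe_mapRingHom, Polynomial.map_map]
  congr 1
  exact RingHom.ext fun p => map_map _ _ _

theorem model_inv [Fintype σ] {φ : R →+* S} (hφ : Function.Injective φ) {M M' : Matrix σ σ R}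
    (h : M.map φ * M'.map φ = 1) : M * M' = 1 :=
  Matrix.map_injective hφ (by
    change (M * M').map φ = (1 : Matrix σ σ R).map φ
    rw [Matrix.map_mul, h, Matrix.map_one _ (map_zero φ) (map_one φ)])

variable {GG GG₁ : Set (Fm N R)} {GG' GG₁' : Set (Fm N S)} {φ : R →+* S}

theorem model_lin [Fintype σ] {c d : Chart R σ N GG} {c' d' : Chart S σ N GG'}
    {M M' : Matrix σ σ R} {P' : Matrix σ σ S} (h : c.IsMap φ c') (h1 : c.IsLin d M M')
    (h2 : c'.IsLin d' (M.map φ) P') : WM φ d d' := by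
  have e : ∀ p, map φ ((aff 0 (extM M) : MP (Option σ) R →+* MP (Option σ) R) p) =
      (aff 0 (extM (M.map φ)) : MP (Option σ) S →+* MP (Option σ) S) (map φ p) := fun p => by
    rw [← model_extM]; exact model_aff φ _ p
  exact ⟨by rw [h2.δ, h1.δ, h.p.δ], by rw [h2.χ, h1.χ, h.p.χ, model_mq φ e],
    by rw [h2.D, h1.D, h.p.D]; exact (e _).symm, by rw [h2.Ψ, h1.Ψ, h.p.Ψ]; exact (e _).symm,
    fun j => by rw [h2.pp, h1.pp, h.pp, model_mq φ e]⟩

theorem model_wm_hyp {c : Chart R (Option σ) N GG} {c' : Chart S (Option σ) N GG'}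
    {d : Chart R σ N GG₁} {d' : Chart S σ N GG₁'} (h : WM φ c c') (h1 : c.IsHyp d)
    (h2 : c'.IsHyp d') : WM φ d d' :=
  ⟨by rw [h2.p.δ, h1.p.δ, h.δ], by rw [h2.p.χ, h1.p.χ, h.χ, model_mq φ (model_hyp φ)],
    by rw [h2.p.D, h1.p.D, h.D, model_hyp], by rw [h2.p.Ψ, h1.p.Ψ, h.Ψ, model_hyp],
    fun j => by rw [h2.pp, h1.pp, h.pp, model_mq φ (model_hyp φ)]⟩

theorem model_top_hyp {c : PChart R (Option σ)} {d : PChart R σ} (h : c.IsHyp d) :
    d.top = c.top := by
  rw [PChart.top, PChart.top, h.δ, h.χ]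
  refine Finset.sum_congr rfl fun i _ => ?_
  rw [Polynomial.coeff_map, coeff_single_none, coeff_single_none, tp_hyp, Polynomial.coeff_map,
    model_cc]

theorem model_top_lin [Fintype σ] {c d : Chart R σ N GG} {M M' : Matrix σ σ R}
    (h : c.IsLin d M M') : d.top = c.top := by
  rw [PChart.top, PChart.top, h.δ, h.χ]
  refine Finset.sum_congr rfl fun i _ => ?_
  rw [Polynomial.coeff_map]
  exact congrArg _ (caff_top 0 M (c.wt i))

theorem model_zero [Fintype σ] {c d : Chart R σ N GG} {M M' : Matrix σ σ R} (h : c.IsLin d M M')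
    (ψ : R →+* S) (x : Fin (N + 1) → S) :
    (∀ i, eval₂ ψ x (d.f (some (some i))) = 0) ↔ ∀ i, eval₂ ψ x (c.f (some (some i))) = 0 := by
  simp only [h.f, eval₂_sum, eval₂_mul, eval₂_C]
  refine ⟨fun H i => ?_, fun H i => by simp [H]⟩
  rw [← caff_inv h.inv ψ (fun j => eval₂ ψ x (c.f (some (some j)))) i]
  simp [H]

/-- the branch data of a chart can be replaced -/
theorem model_repl (c : Chart R σ N GG) (p : PChart R σ) (hχ : p.χ = c.χ) (hD : p.D = c.D) :
    ∃ d : Chart R σ N GG, d.toPChart = p ∧ d.f = c.f ∧ d.pp = c.pp :=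
  ⟨⟨p, c.d, c.f, c.th, c.l0, c.pp, c.dpos, c.hf, c.hth, c.hl, by rw [hχ]; exact c.dv_on,
    by rw [hχ]; exact c.dv_f, by rw [hχ]; exact c.dv_th, by rw [hχ, hD]; exact c.ne,
    by rw [hχ, hD]; exact c.fro, c.int⟩, rfl, rfl, rfl⟩

theorem model_bl {K : Type} [Field K] [Fintype σ] {G : Set (Fm N K)} (c : Chart K σ N G) {π : K}
    (hπ : π ≠ 0) : ∃ d : Chart K σ N G, d.χ = c.χ.map (ub π) ∧ d.D = ub π c.D ∧
      (∀ j, d.pp j = (c.pp j).map (ub π)) ∧
      ∀ i, d.f (some (some i)) = C π⁻¹ * c.f (some (some i)) := by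
  obtain ⟨d, h⟩ := c.exists_isLin (L := π • 1) (L' := π⁻¹ • 1) (by
    rw [Matrix.smul_mul, Matrix.mul_smul, smul_smul, mul_inv_cancel₀ hπ, one_smul, mul_one])
  have e : (aff 0 (extM (π • (1 : Matrix σ σ K))) : MP (Option σ) K →+* MP (Option σ) K) = ub π :=
    RingHom.ext (ub_aff π)
  refine ⟨d, by rw [h.χ, e], h.D.trans (ub_aff π _), fun j => by rw [h.pp, e], fun i => ?_⟩
  rw [h.f, Finset.sum_eq_single i (fun j _ hj => by simp [Matrix.one_apply_ne hj.symm]) (by simp)]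
  simp

end aux

variable {k : Type} [Field k] {X : Var k} {T : Finset (Place k)}
  {c c' : Chart k (Option Unit) X.N (X.IK k)} {Φ : MP (Option Unit) k}
  {L L' : Matrix (Option Unit) (Option Unit) k} {Y : Gen k X.N}
  {c'' : Chart k Unit X.N (Y.var.IK k)}

theorem model_ext {M : Type} [Field M] {γ γ' : X.F →+* M}
    (h1 : ∀ a, γ (algebraMap k _ a) = γ' (algebraMap k _ a)) (h2 : ∀ i, γ (X.g i) = γ' (X.g i)) :
    γ = γ' := by
  have h : IntermediateField.adjoin k (Set.range X.g) ≤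
      (γ.eqLocusField γ').toIntermediateField h1 :=
    IntermediateField.adjoin_le_iff.2 (Set.range_subset_iff.2 h2)
  rw [X.gen] at h
  exact RingHom.ext fun z => h IntermediateField.mem_top

/-- the model of the chart of the surface -/
theorem SecS.model (hS : SecS X T c c' Φ L L' Y c'') {O : Subring k} (hG : X.GoodV c Φ O)
    (hL : ∀ i j, L i j ∈ O ∧ L' i j ∈ O) :
    ∃ (GG : Set (Fm X.N O)) (c₀ : Chart O Unit X.N GG) (Φ₀ : MP Unit O),
      (∀ G ∈ GG, ∃ m, G.IsHomogeneous m) ∧ c₀.SM Φ₀ ∧ IsUnit (constantCoeff Φ₀) ∧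
      map O.subtype Φ₀ = hyp0 (aff 0 L Φ) ∧ WM O.subtype c₀ c'' := by
  obtain ⟨GG, c₁, Φ₁, -, h2, -, h4, h5, h6, h7, -⟩ := hG
  let M : Matrix (Option Unit) (Option Unit) O := fun i j => ⟨L i j, (hL i j).1⟩
  let M' : Matrix (Option Unit) (Option Unit) O := fun i j => ⟨L' i j, (hL i j).2⟩
  obtain ⟨c₂, h₂⟩ := c₁.exists_isLin (L := M) (L' := M')
    (model_inv O.subtype_injective hS.lin.inv)
  obtain ⟨c₃, h₃⟩ := c₂.exists_hyp_insert
  refine ⟨_, c₃, hyp0 (aff 0 M Φ₁), ?_, (h6.lin h₂).hyp h₃ fun G hG => Ideal.subset_span hG,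
    by rwa [model_cc, constantCoeff_aff], ?_, model_wm_hyp (model_lin h4 h₂ hS.lin) h₃ hS.hyp⟩
  · rintro G (rfl | hG)
    exacts [⟨_, c₂.hf _⟩, h2.1 G hG]
  · rw [model_hyp0, model_aff, h5]
    rfl

theorem SecS.top (hS : SecS X T c c' Φ L L' Y c'') : c''.top = c.top :=
  (model_top_hyp hS.hyp.p).trans (model_top_lin hS.lin)

/-- a point of the surface with `ξ = 0` lies on the fibre curve -/
theorem SecS.on (hS : SecS X T c c' Φ L L' Y c'') {C : Gen k X.N}
    (hC : X.Cut C fun i => c.f (some (some i))) {M : Type} [Field M] [Algebra k M]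
    {x : Fin (X.N + 1) → M} (hx : Y.var.On x) (h0 : aeval x (c''.f (some (some ()))) = 0) :
    C.var.On x := by
  obtain ⟨h1, h2⟩ := (hS.sec M x).1 hx
  refine (hC M x).2 ⟨h1, (model_zero hS.lin (algebraMap k M) x).1 fun i => ?_⟩
  cases i with
  | none => exact h2
  | some i => rw [hS.hyp.f] at h0; exact h0

theorem SecS.sub (hS : SecS X T c c' Φ L L' Y c'') {C : Gen k X.N}
    (hC : X.Cut C fun i => c.f (some (some i))) : Y.var.Sub C := fun M _ _ x hx => by
  obtain ⟨h1, h2⟩ := (hC M x).1 hx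
  exact (hS.sec M x).2 ⟨h1, (model_zero hS.lin (algebraMap k M) x).2 h2 none⟩

/-- the blown-up chart over an extension `K` of `k` -/
theorem exists_kb (hC : CHFp) {Z : Var k} (hZ : Z.Nice 2) {O₀ O K : Type} [CommRing O₀]
    [CommRing O] [Nontrivial O] [Field K] [Algebra k K] [Algebra O K] {f : O₀ →+* k} {i : O₀ →+* O}
    (hi : ∀ a, algebraMap O K (i a) = algebraMap k K (f a)) {GG₀ : Set (Fm Z.N O₀)}
    {c₀ : Chart O₀ Unit Z.N GG₀} {e : Chart k Unit Z.N (Z.IK k)} (h₀ : WM f c₀ e)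
    {GG : Set (Fm Z.N O)} {c₁ : Chart O Unit Z.N GG} (h₁ : c₀.IsMap i c₁) {π : O}
    (hπ : algebraMap O K π ≠ 0) {q : PChart O Unit} (hq : IsBl π c₁.toPChart q) :
    ∃ A : Z.KB K q fun j => (c₁.pp j).map (ub π),
      (A.c.f (some (some ())) =
        C (algebraMap O K π)⁻¹ * map (algebraMap k K) (e.f (some (some ())))) ∧
      ∀ (FY : Type) [Field FY] [Algebra (RF (Option Unit) k) FY] [Algebra k FY] (θ : FY)
        (γ : Z.F →+* FY), Z.Fld e FY θ γ → ∃ j : FY →+* A.F, j.comp γ = A.γ ∧ j θ = A.θ ∧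
          ∀ p, j (toE (MP (Option Unit) k) FY p) = toE (MP (Option Unit) K) A.F
            (ub (algebraMap O K π) (map (algebraMap k K) p)) := by
  have hi' : (algebraMap O K).comp i = (algebraMap k K).comp f := RingHom.ext hi
  obtain ⟨e₁, he₁⟩ := e.exists_map (algebraMap k K) (GG' := Z.IK K)
    (fun G hG => Ideal.subset_span (by rwa [Z.IK_self]))
    (fun _ _ _ _ hx => by rw [Z.IK_self]; exact Zer.map_image.1 hx)
  obtain ⟨e₂, a1, a2, a3, a4⟩ := model_bl e₁ hπ
  obtain ⟨q', hq'⟩ := q.exists_map (algebraMap O K)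
  have key : ∀ p : (MP (Option Unit) O₀)[X], mq (algebraMap O K) ((mq i p).map (ub π)) =
      (mq (algebraMap k K) (mq f p)).map (ub (algebraMap O K π)) := fun p => by
    rw [model_mq _ (map_ub (algebraMap O K) π), model_mq_mq, model_mq_mq, hi']
  have b1 : q'.χ = e₂.χ := by rw [hq'.χ, hq.χ, h₁.p.χ, key, a1, he₁.p.χ, h₀.χ]
  obtain ⟨e₃, b2, b3, b4⟩ := model_repl e₂ q' b1 (by
    rw [hq'.D, hq.D, h₁.p.D, map_ub, map_map, hi', a2, he₁.p.D, h₀.D, map_map])
  obtain ⟨gi, F', _, _, _, θ', γ', hF⟩ := lf_fld hC hZ e₃ rfl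
  refine ⟨⟨e₃, F', θ', γ', b2 ▸ hq', fun j => by rw [b4, a3, he₁.pp, h₀.pp, h₁.pp, key], gi, hF⟩,
    by change e₃.f _ = _; rw [b3, a4, he₁.f], fun FY _ _ _ θ γ hY => ?_⟩
  let ψ : MP (Option Unit) k →+* F' := (toE (MP (Option Unit) K) F').comp
    ((ub (algebraMap O K π)).comp (map (algebraMap k K)))
  have hb : Function.Injective (ub (algebraMap O K π) : MP (Option Unit) K →+* _) :=
    Function.LeftInverse.injective (g := ub (algebraMap O K π)⁻¹) fun p => by
      rw [ub_ub, inv_mul_cancel₀ hπ, ub_one]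
  have hψ : Function.Injective ψ := fun _ _ h =>
    map_injective _ (algebraMap k K).injective (hb (toE_inj F' h))
  have ev1 : ∀ p : (MP (Option Unit) k)[X], Polynomial.eval₂ (toE (MP (Option Unit) K) F') θ'
      ((mq (algebraMap k K) p).map (ub (algebraMap O K π))) = p.eval₂ ψ θ' := fun p => by
    rw [Polynomial.coe_mapRingHom, Polynomial.map_map, Polynomial.eval₂_map]
  obtain ⟨j, j1, j2⟩ := hY.ff.lift (hC k Z 2 hZ k Unit e rfl).1 hψ (η := θ') (by
    rw [← ev1, ← he₁.p.χ, ← a1, ← b1, ← b2]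
    exact hF.ff.1)
  refine ⟨j, ?_, j2, j1⟩
  obtain ⟨d1, u, hu, d2⟩ := hY.dom
  obtain ⟨d3, u', hu', d4⟩ := hF.dom
  have d5 : ∀ l, j u * j (γ (Z.g l)) = u' * γ' (Z.g l) := fun l => by
    rw [← map_mul, ← d2, ← d4, Chart.pv, Chart.pv, ev_def, ev_def, fld_hom, fld_hom, b4, a3,
      he₁.pp, ev1, Polynomial.hom_eval₂, j2]
    congr 1
    exact RingHom.ext j1
  obtain ⟨l₀, hl⟩ := Z.one
  have d6 : j u = u' := by simpa [hl] using d5 l₀
  refine model_ext (fun a => ?_) fun l => mul_left_cancel₀ hu' (by rw [← d5, d6]; rfl)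
  rw [RingHom.comp_apply, d1, hY.alg, j1]
  change _ = γ' _
  rw [d3, hF.alg]
  simp [ψ, ub_C]

end Pool.Agent.ZCy.F
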