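import Pool.Agent.Lib.MP_879916_ag.SS.RLoc
import Pool.Agent.Lib.MP_879916_ag.SS.Model
import Pool.Agent.Lib.MP_879916_ag.SS.Desc
import Pool.Agent.Lib.MP_751085_ag.ZF.T.Main

/-! The reduction to classes that are unramified along the blow-ups. -/

namespace Pool.Agent.ZCy.F

open Pool.Agent.ZFN Pool.Agent.ZFy MvPolynomial
open scoped Classical Polynomial WithZero

attribute [local instance] Place.field Place.alg

variable {k : Type} [Field k] {X : Var k} {T : Finset (Place k)}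
  {c c' : Chart k (Option Unit) X.N (X.IK k)} {Φ : MP (Option Unit) k}
  {L L' : Matrix (Option Unit) (Option Unit) k} {Y : Gen k X.N}
  {c'' : Chart k Unit X.N (Y.var.IK k)}

theorem rlm_alg {k σ F : Type} [Field k] [Field F] (ψ : MP (Option σ) k →+* F)
    (h : Function.Injective ψ) {c : PChart k σ} {θ : F} (h0 : Polynomial.eval₂ ψ θ c.χ = 0)
    (h1 : ∀ S : Subfield F, (∀ p, ψ p ∈ S) → θ ∈ S → ∀ z, z ∈ S) :
    ∃ _ : Algebra (RF (Option σ) k) F, (∀ p, toE (MP (Option σ) k) F p = ψ p) ∧ c.FF F θ := by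
  let A : Algebra (RF (Option σ) k) F := (IsFractionRing.lift h).toAlgebra
  have e : ∀ p, toE (MP (Option σ) k) F p = ψ p := fun p => IsFractionRing.lift_algebraMap h p
  refine ⟨A, e, ?_, eq_top_iff.2 fun z _ => h1
    (IntermediateField.adjoin (RF (Option σ) k) {θ}).toSubfield (fun p => ?_)
    (IntermediateField.mem_adjoin_simple_self _ θ) z⟩
  · rw [RingHom.ext e]
    exact h0
  · rw [← e]
    exact IntermediateField.algebraMap_mem _ _

theorem rlm_mq {R S σ : Type} [CommRing R] [CommRing S] (φ : R →+* S) (π : R)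
    (χ : (MP (Option σ) R)[X]) : mq φ (χ.map (ub π)) = (mq φ χ).map (ub (φ π)) := by
  rw [Polynomial.coe_mapRingHom, Polynomial.map_map, Polynomial.map_map]
  exact congrArg (fun f => χ.map f) (RingHom.ext (map_ub φ π))

theorem rlm_mq_mq {R S U ι : Type} [CommRing R] [CommRing S] [CommRing U] (φ : R →+* S)
    (ψ : S →+* U) (χ : (MP ι R)[X]) : mq ψ (mq φ χ) = mq (ψ.comp φ) χ := by
  simp only [Polynomial.coe_mapRingHom, Polynomial.map_map]
  exact congrArg (fun f => χ.map f) (RingHom.ext (map_map φ ψ))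

theorem rlm_rs {K K' K'' : Type} [Field K] [Field K'] [Field K''] (γ : K →+* K') (γ' : K' →+* K'')
    (a : BR K) : rs γ' (rs γ a) = rs (γ'.comp γ) a := res_res γ γ' a

theorem rlm_sub {A B : Type} [AddCommGroup A] [AddCommGroup B] (f : A →+ B) (a b : A) :
    f (a - b) = f a - f b := map_sub f a b

theorem rlm_cls {k K E F₁ F : Type} [Field k] [Field K] [Field E] [Field F₁] [Field F]
    {γ : E →+* F₁} {j : F₁ →+* F} {γ' : E →+* F} (h : j.comp γ = γ') {f : k →+* E} {g : k →+* K}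
    {c : K →+* F} (e : γ'.comp f = c.comp g) (α : BR E) (β : BR k) :
    rs j (rs γ (α - rs f β)) = rs γ' α - rs c (rs g β) := by
  rw [rlm_rs, h, rlm_rs g c, ← e, ← rlm_rs f γ']
  exact rlm_sub (A := BR E) (B := BR F) (rs γ') α (rs f β)

theorem rlm_tors {A B D : Type} [AddCommGroup A] [AddCommGroup B] [AddCommGroup D] (f : A →+ B)
    (g : B →+ D) {l r r' : ℕ} {a : A} {b : B} (hb : l ^ r • b = 0) (ha : l ^ r' • a = 0) :
    l ^ (r + r') • g (b - f a) = 0 := by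
  have e1 : l ^ (r + r') • b = 0 := by rw [pow_add, mul_nsmul, hb, smul_zero]
  have e2 : l ^ (r + r') • a = 0 := by rw [pow_add, mul_nsmul', ha, smul_zero]
  rw [← map_nsmul, smul_sub, ← map_nsmul, e1, e2, map_zero, sub_zero, map_zero]

theorem rlm_bij {k σ : Type} [Field k] {p : k} (hp : p ≠ 0) :
    Function.Bijective (ub p : MP (Option σ) k →+* MP (Option σ) k) :=
  Function.bijective_iff_has_inverse.2 ⟨ub p⁻¹,
    fun x => by rw [ub_ub, inv_mul_cancel₀ hp, ub_one],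
    fun x => by rw [ub_ub, mul_inv_cancel₀ hp, ub_one]⟩

theorem rlm_gi {k σ : Type} [Field k] {c c' : PChart k σ} {p : k} (hp : p ≠ 0)
    (h : c'.χ = c.χ.map (ub p)) (hc : c.GI) : c'.GI := by
  rw [PChart.GI, h, rlm_mq]
  exact (MulEquiv.irreducible_iff (Polynomial.mapEquiv (RingEquiv.ofBijective _ (rlm_bij
    ((map_ne_zero (algebraMap k (AlgebraicClosure k))).2 hp))))).2 hc

theorem rlm_desc {k K κ σ F₁ F : Type} [Field k] [Field K] [Algebra k K] [Field κ] [Fintype σ]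
    [Field F₁] [Field F] [Algebra (RF (Option σ) K) F] {u : Vl k} {w : Vl K} (hu : Nrm u)
    [IsDiscreteValuationRing w.integer] (hw : Nrm w) (hm : ∀ a, w (algebraMap k K a) = u a)
    (hd : ∀ x, Dns (algebraMap k K) w x) {i : u.integer →+* w.integer}
    (hi : ∀ a, (i a : K) = algebraMap k K a) {π : u.integer} (hπ : u π = WithZero.exp (-1))
    {ρ : w.integer →+* κ} {q₁ : PChart u.integer σ} {q : PChart w.integer σ} (hq : q₁.IsMap i q)
    {c : PChart K σ} {θ : F} (h : XH (i π) ρ q c θ) {e : PChart k σ} (he : e.GI)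
    (hχ : mq u.integer.subtype q₁.χ = e.χ.map (ub (π : k))) (ψ : MP (Option σ) k →+* F₁)
    (h1 : Function.Injective ψ) {θ₁ : F₁} (h2 : Polynomial.eval₂ ψ θ₁ e.χ = 0)
    (h3 : ∀ S : Subfield F₁, (∀ p, ψ p ∈ S) → θ₁ ∈ S → ∀ z, z ∈ S) (j : F₁ →+* F)
    (hj : ∀ p, j (ψ p) = toE (MP (Option σ) K) F
      (ub (algebraMap w.integer K (i π)) (map (algebraMap k K) p))) (hθ : j θ₁ = θ) {v : Vl F}
    (hv : Cen1 (gO w.integer K (Option σ) F) v (C (i π))) {W : Vl F₁}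
    (hW : GauV u (ψ.comp (bl (π : k))) W) {a : BR F₁} {N : ℕ} (hN : IsUnit (N : u.integer))
    (ha : N • a = 0) (hr : Unram v (rs j a)) : Unram W a := by
  have := hu.isVR.dvr
  have h0 : (π : k) ≠ 0 := fun e => WithZero.exp_ne_zero (by rw [← hπ, e, map_zero])
  obtain ⟨c₁, hc⟩ := q₁.exists_map (algebraMap u.integer k)
  have hc' : c₁.χ = e.χ.map (ub (π : k)) := hc.χ.trans hχ
  have e1 : ∀ p, ψ.comp (bl (π : k)) (ub (π : k) p) = ψ p := fun p => by
    rw [bl_eq, RingHom.comp_apply, ub_ub, inv_mul_cancel₀ h0, ub_one]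
  obtain ⟨A, hA, hF⟩ := rlm_alg (ψ.comp (bl (π : k))) (c := c₁) (θ := θ₁)
    (by rw [bl_eq]; exact h1.comp (rlm_bij (inv_ne_zero h0)).1)
    (by rw [hc', Polynomial.eval₂_map, ← h2]
        exact congrArg (fun f => Polynomial.eval₂ f θ₁ e.χ) (RingHom.ext e1))
    fun S hS => h3 S fun p => e1 p ▸ hS _
  have hdv : ∀ a : u.integer, π ∣ a ↔ u a < 1 := fun a => by
    rw [hu.isVR.dvd_iff, lt_one_iff_le_exp, ← hπ]
    rfl
  refine desc i (ρ := ρ) (q₁ := q₁) (c₁ := c₁) ⟨hu.isVR.irreducible_iff.2 hπ, fun a => ?_, hc,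
    rlm_gi h0 hc' he, hF, ?_⟩ h (fun a => ?_) j (fun p => ?_) hθ hv ?_ hN ha hr
  · rw [RingHom.comp_apply, h.ker, ← hw.isVR.eq_one, ← hu.isVR.eq_one, Subring.subtype_apply, hi,
      hm, Subring.subtype_apply]
  · rw [← rlm_mq_mq, ← hq.χ]
    exact h.red
  · obtain ⟨b, hb⟩ := hd a 1
    have hb1 : u b ≤ 1 := by
      rw [← hm, ← sub_sub_cancel (a : K) (algebraMap k K b)]
      exact w.map_sub_le a.2 (hb.trans (by rw [← WithZero.exp_zero, WithZero.exp_le_exp]; simp))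
    refine ⟨⟨b, hb1⟩, (hw.isVR.dvd_iff _ _).2 ?_⟩
    rw [map_sub, Subring.subtype_apply, Subring.subtype_apply, Subring.subtype_apply, hi, hi, hm,
      hπ]
    exact hb
  · have e2 : (algebraMap k K).comp (algebraMap u.integer k) = (algebraMap w.integer K).comp i :=
      RingHom.ext fun a => (hi a).symm
    have e3 : algebraMap w.integer K (i π) = algebraMap k K π := hi π
    rw [RingHom.comp_apply, hA, RingHom.comp_apply, hj, bl_eq, map_ub, ub_ub, e3, ← map_mul,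
      mul_inv_cancel₀ h0, map_one, ub_one, map_map, e2, ← map_map]
    rfl
  · rw [gO, RingHom.ext hA]
    exact (gauV_cen (fun a => a.2) hdv (fun x hx => ⟨1, ⟨x, hx⟩, map_one u, mul_one x⟩) _ W).1 hW

theorem rlm_loc (H : THyp) {K : Type} [Field K] [Algebra k K] [Infinite k] {u : Vl k} {w : Vl K}
    (hu : Nrm u) (hc : Cpl w) (hf : FinR w) (hm : ∀ a, w (algebraMap k K a) = u a)
    (hd : ∀ x, Dns (algebraMap k K) w x) {Z : Var k} (hZ : Z.Nice 2)
    {GG : Set (Fm Z.N u.integer)} {c₀ : Chart u.integer Unit Z.N GG} {Φ₀ : MP Unit u.integer}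
    (hGG : ∀ G ∈ GG, ∃ m, G.IsHomogeneous m) (hsm : c₀.SM Φ₀) (hΦ : IsUnit (constantCoeff Φ₀))
    {e : Chart k Unit Z.N (Z.IK k)} (hW : WM u.integer.subtype c₀ e)
    {P : (Fin (Z.N + 1) → Cb K) → Prop}
    (hP : ∀ x : Fin (Z.N + 1) → Cb K, Z.On x → aeval x (e.f (some (some ()))) = 0 → P x)
    {l : ℕ} (hl : l.Prime) (hk : IsUnit (l : u.integer)) {α : BR Z.F} (hα : α ∈ Z.Bw)
    (hp : Prim l α) (hK : Kills Z K α P) :
    ∃ b : BR K, Prim l b ∧ ∀ β : BR k, Prim l β → rs (algebraMap k K) β = b →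
      ∀ (FY : Type) [Field FY] [Algebra (RF (Option Unit) k) FY] [Algebra k FY] (θ : FY)
      (γ : Z.F →+* FY), Z.Fld e FY θ γ → ∀ π : k, u π = WithZero.exp (-1) →
      ∀ W : Vl FY, GauV u ((toE (MP (Option Unit) k) FY).comp (bl π)) W →
        Unram W (rs γ (α - rs (algebraMap k Z.F) β)) := by
  obtain ⟨π, hπ⟩ := vcv_uni hu.isVR
  have hw : Nrm w := ⟨_, (hm _).trans hπ⟩
  have := hw.isVR.cdvr hc
  have := tfma_fin hw hf
  obtain ⟨κ, _, _, s, ρ, hs, hρ⟩ := exists_finB w.integer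
  obtain ⟨i, hi⟩ : ∃ i : u.integer →+* w.integer, ∀ a, (i a : K) = algebraMap k K a :=
    ⟨((algebraMap k K).comp u.integer.subtype).codRestrict _ fun a => (hm a).trans_le a.2,
      fun _ => rfl⟩
  have hπ' : w (i π) = WithZero.exp (-1) := by rw [hi, hm]; exact hπ
  have h0 : algebraMap w.integer K (i π) ≠ 0 := fun e =>
    WithZero.exp_ne_zero (by rw [← hπ', show (i π : K) = 0 from e, map_zero])
  obtain ⟨c₁, h₁⟩ := c₀.exists_map_image i
  obtain ⟨q₁, hq₁⟩ := exists_isBl π c₀.toPChart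
  obtain ⟨q, hq⟩ := q₁.exists_map i
  have hb : IsBl (i π) c₁.toPChart q := ⟨by rw [hq.δ, hq₁.δ, h₁.p.δ],
    by rw [hq.χ, hq₁.χ, h₁.p.χ, rlm_mq], by rw [hq.D, hq₁.D, h₁.p.D, map_ub],
    by rw [hq.Ψ, hq₁.Ψ, h₁.p.Ψ, map_ub]⟩
  obtain ⟨A, hA, hJ⟩ := exists_kb (K := K) H.chf hZ (f := u.integer.subtype) hi hW h₁ h0 hb
  obtain ⟨hX, v, b, hb1, hv, hr⟩ := rl_loc H hs hρ (hw.isVR.irreducible_iff.2 hπ')
    (H.ev k _ 2 hZ (by omega)) (Φ₀ := map i Φ₀)
    (by rintro _ ⟨G, hG, rfl⟩; exact (hGG G hG).imp fun _ h => h.map i)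
    (hsm.map h₁ fun G hG => Ideal.subset_span ⟨G, hG, rfl⟩)
    (by rw [constantCoeff_map]; exact hΦ.map i) hb A hα hl (by simpa using hk.map i) hp
    (fun x hx h => hP x hx (by
      rw [hA, eval₂_mul, eval₂_C, eval₂_map, ← IsScalarTower.algebraMap_eq] at h
      exact (mul_eq_zero.1 h).resolve_left ((map_ne_zero _).2 (inv_ne_zero h0)))) hK
  refine ⟨b, hb1, fun β ⟨r', hβ⟩ eb FY _ _ _ θ γ hF π' hπ₁ W hg => ?_⟩
  obtain ⟨r, hr'⟩ := hp
  obtain ⟨j, j1, j2, j3⟩ := hJ FY θ γ hF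
  refine rlm_desc hu hw hm hd hi hπ hq hX (H.chf k _ 2 hZ k Unit e rfl).1
    (by rw [hq₁.χ, rlm_mq, ← hW.χ]; rfl) (toE (MP (Option Unit) k) FY)
    ((algebraMap (RF (Option Unit) k) FY).injective.comp (IsFractionRing.injective _ _)) hF.ff.1
    (fld_top hF.ff) j j3 j2 hv (gauV_scale (hπ₁.trans hπ.symm)
      (fun e => WithZero.exp_ne_zero (by rw [← hπ₁, e, map_zero])) _ W hg) (N := l ^ (r + r'))
    (by rw [Nat.cast_pow]; exact hk.pow _) ?_ ?_
  · exact rlm_tors (A := BR k) (B := BR Z.F) (D := BR FY) (rs (algebraMap k Z.F)) (rs γ) hr' hβ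
  · subst eb
    have e1 : A.γ.comp (algebraMap k Z.F) = (cE (Option Unit) K A.F).comp (algebraMap k K) :=
      RingHom.ext fun a => (A.ff.dom.1 a).trans (A.ff.alg a)
    rw [rlm_cls j1 e1 α β]
    exact hr

theorem rl_main (H : THyp) (F₀ : Type) [Field F₀] [Finite F₀] [Algebra (RatFunc F₀) k]
    [FiniteDimensional (RatFunc F₀) k] (hS : SecS X T c c' Φ L L' Y c'') {v : Place k}
    (hv : v ∈ T) (hG : X.GoodV c Φ v.1.toSubring) {C : Gen k X.N}
    (hC : X.Cut C fun i => c.f (some (some i))) {l : ℕ} (hl : l.Prime) (hk : (l : k) ≠ 0)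
    {α : BR Y.F} (hα : α ∈ Y.var.Bw) (hp : Prim l α)
    (hK : Kills Y.var v.K α fun x => C.var.On x) :
    ∃ b : BR v.K, Prim l b ∧ ∀ β : BR k, Prim l β → rs (algebraMap k v.K) β = b →
      BUn c'' v (α - rs (algebraMap k Y.F) β) := by
  have : Infinite k := .of_injective _ ((algebraMap (RatFunc F₀) k).injective.comp
    (RatFunc.algebraMap_injective F₀))
  have e : v.1.toSubring = (plv v).integer := Subring.ext fun a => (plv_le v a).symm
  obtain ⟨GG, c₀, Φ₀, hGG, hsm, hΦ, -, hW⟩ := hS.model (e ▸ hG : X.GoodV c Φ (plv v).integer)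
    fun i j => ⟨(plv_le v _).2 (hS.int v hv i j).1, (plv_le v _).2 (hS.int v hv i j).2⟩
  exact rlm_loc H (plv_nrm v) (plw_cpl v) (plw_finR F₀ v) (plw_map v) (plw_dns v) hS.nice hGG hsm
    hΦ hW (fun x hx h => hS.on hC hx h) hl
    (tfma_unit ((algebraMap (RatFunc F₀) k).comp RatFunc.C) _ hk) hα hp hK

end Pool.Agent.ZCy.F
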