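import Pool.Agent.Lib.MP_879916_ag.SS.C3
import Pool.Agent.Lib.MP_879916_ag.SS.GB
import Pool.Agent.Lib.MP_879916_ag.SS.RL
import Pool.Agent.Lib.MP_879916_ag.SS.Glue
import Pool.Agent.Lib.MP_72c364_ag.ZQ.All

/-! The reduction to surfaces. -/

namespace Pool.Agent.ZCy.F

open Pool.Agent.ZFN Pool.Agent.ZFy Pool.Agent.ZFy.U Uw Module Filter MvPolynomial
open scoped Classical Topology

attribute [local instance] Place.field Place.alg

variable {k : Type} [Field k] {X : Var k} {l : ℕ}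
  {j : ∀ v : Place k, BR v.K →+ AddCircle (1 : ℚ)}

theorem st3_add {A : Type} [AddCommGroup A] {a b : A} (ha : Prim l a) (hb : Prim l b) :
    Prim l (a + b) := by
  obtain ⟨r, hr⟩ := ha
  obtain ⟨s, hs⟩ := hb
  exact ⟨r + s, by rw [nsmul_add, pow_add, mul_nsmul a, hr, mul_nsmul' b, hs, nsmul_zero,
    nsmul_zero, add_zero]⟩

theorem st3_map {A B : Type} [AddCommGroup A] [AddCommGroup B] (f : A →+ B) {a : A}
    (ha : Prim l a) : Prim l (f a) := ha.imp fun _ h => by rw [← map_nsmul, h, map_zero]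

theorem st3_neg {A : Type} [AddCommGroup A] {a : A} (ha : Prim l a) : Prim l (-a) :=
  st3_map (negAddMonoidHom : A →+ A) ha

theorem st3_sub {A : Type} [AddCommGroup A] {a b : A} (ha : Prim l a) (hb : Prim l b) :
    Prim l (a - b) := by
  rw [sub_eq_add_neg]
  exact st3_add ha (st3_neg hb)

theorem st3_orth [Infinite k] {n : ℕ} (hE : EV) (hX : X.Nice n) (hn : 1 ≤ n) {Y : Gen k X.N}
    (hY : X.I ⊆ Y.var.I) {z : ∀ v : Place k, X.Cyc v.K} {y : ∀ v : Place k, Y.var.Cyc v.K}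
    (h : ∀ v, Rep l (y v) (z v)) (hz : OrthW X l j z) {a : BR Y.F} {b : BR X.F} (h1 : X.Mt Y a b)
    (hb : Prim l b) : ∑ᶠ v, j v (Var.pr (y v) a) = 0 := by
  obtain ⟨r, hr⟩ := hb
  refine (finsum_congr fun v => congrArg (j v) ?_).trans (hz b h1.2.1 ⟨r, hr⟩)
  have : Infinite v.K := .of_injective _ (algebraMap k v.K).injective
  obtain ⟨X', hX', hb⟩ := bc_exists hX hn v.K
  obtain ⟨b', h2, h3, h4⟩ := res_rpr (hE k X n hX hn) (hE _ _ n hX' hn) (bc_sub hb) h1.2.1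
  have h5 : ∀ x ∈ (raw Y.var (y v)).support, Y.var.On x := fun x hx => raw_on (y v) hx
  rw [pr_raw, pr_raw, rpr_congr (X := X) (Y := Y) (fun L w hw => h1.2.2 L w hw) h5,
    ← h4 _ fun x hx => (bc_on hb).2 ⟨(h5 x hx).1, fun G hG => (h5 x hx).2 G (hY hG)⟩,
    ← h4 _ fun x hx => (bc_on hb).2 (raw_on (z v) hx)]
  exact (h v).2 X' hb b' h2 ⟨r, h3 _ hr⟩

variable (hL : LEFs) (F₀ : Type) [Field F₀] [Finite F₀] [Algebra (RatFunc F₀) k]
  [FiniteDimensional (RatFunc F₀) k] (hl : l.Prime) (hk : (l : k) ≠ 0)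

include F₀ hl hk

/-- the classes that kill the cycles of degree zero of the fibre curve lift -/
theorem st3_lift (hX : X.Nice 3) {T : Finset (Place k)}
    {c c' : Chart k (Option Unit) X.N (X.IK k)} {Φ : MP (Option Unit) k}
    {L L' : Matrix (Option Unit) (Option Unit) k} {Y : Gen k X.N}
    {c'' : Chart k Unit X.N (Y.var.IK k)} (hS : SecS X T c c' Φ L L' Y c'')
    (hG : ∀ v ∈ T, X.GoodV c Φ v.1.toSubring) (hf : LfS X l c Φ T (L' none)) {C : Gen k X.N}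
    (hC : X.Cut C fun i => c.f (some (some i))) {a : BR Y.F} (ha : a ∈ Y.var.Bw) (hp : Prim l a)
    (hK : ∀ v ∈ T, Kills Y.var v.K a fun x => C.var.On x) : ∃ b, X.Mt Y a b ∧ Prim l b := by
  have : Infinite k :=
    .of_injective _ ((algebraMap (RatFunc F₀) k).injective.comp (RatFunc.algebraMap_injective F₀))
  have EX := ev_thm k X 3 hX (by omega)
  have EY := ev_thm k Y.var 2 hS.nice one_le_two
  choose! b h1 h2 using fun v (hv : v ∈ T) =>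
    rl_main q_hyp.th F₀ hS hv (hG v hv) hC hl hk ha hp (hK v hv)
  obtain ⟨β, h3, h4⟩ := gb_ex F₀ T hl hk b h1
  have h5 : a - rs (algebraMap k Y.F) β ∈ Y.var.Bw := sub_mem ha (EY.const β)
  obtain ⟨b', h6, h7⟩ := hf c' L L' Y c'' rfl hS _ h5 (st3_sub hp (st3_map _ h3))
    fun v hv => h2 v hv β h3 (h4 v hv)
  refine ⟨b' + rs (algebraMap k X.F) β, ⟨ha, add_mem h6.2.1 (EX.const β), fun M _ _ x hx => ?_⟩,
    st3_add h7 (st3_map _ h3)⟩
  have hx' := ((hS.sec M x).1 hx).1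
  rw [EX.val_add _ h6.2.1 _ (EX.const β) M x hx', EX.val_const β M x hx', ← h6.2.2 M x hx,
    ← EY.val_const β M x hx, ← EY.val_add _ h5 _ (EY.const β) M x hx]
  exact congrArg (Y.var.vl · M x) (sub_add_cancel a _).symm

include hL

theorem st3_step (hj : ∀ v, Function.Injective (j v)) (hX : X.Nice 3)
    (z : ∀ v : Place k, X.Cyc v.K) :
    ∃ (Y : Gen k X.N) (T : Finset (Place k)) (C : Gen k X.N), Y.var.Nice 2 ∧ X.I ⊆ Y.var.I ∧
      C.var.Nice 1 ∧ Y.var.Sub C ∧ (∀ v ∈ T, ∃ y : C.var.Cyc v.K, Var.deg y = 1) ∧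
      (∀ a ∈ Y.var.Bw, Prim l a → (∀ v ∈ T, Kills Y.var v.K a fun x => C.var.On x) →
        ∃ b, X.Mt Y a b ∧ Prim l b) ∧ ∀ v, ∃ y : Y.var.Cyc v.K, Rep l y (z v) := by
  have : Infinite k :=
    .of_injective _ ((algebraMap (RatFunc F₀) k).injective.comp (RatFunc.algebraMap_injective F₀))
  have := place_nonempty (k := k) F₀
  have H := q_hyp
  have hσ' : Fintype.card (Option Unit) + 1 = 3 := rfl
  have hn' : 1 ≤ 3 := by omega
  choose ν hν using nu_thm k F₀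
  obtain ⟨d₂, hC⟩ := cMain3_of irrp k (Place k) (fun v => v.1) (fun v => v.K) place_ne_top
    place_wapx X hX _ (jok0 X)
  obtain ⟨d₄, hZ⟩ := zex_thm k X 3 hX _ hσ' _ (jok0 X)
  obtain ⟨d₅, e1, e2⟩ := bc_deg k d₄
  obtain ⟨c₀, Φ₀, z₀, -⟩ := hZ d₅ e1 e2
  have hG : ∀ c Φ, X.ZCh (J0 k X.N) c Φ → ∀ᶠ v : Place k in cofinite,
      X.GoodV (σ := Option Unit) c Φ v.1.toSubring := fun c Φ hc =>
    gdv_thm k X 3 hX _ hσ' _ _ (fun v : Place k => v.1.toSubring) (place_fs F₀) c Φ hc.sm hc.Φ0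
      hc.Ψ0 hc.dp
  obtain ⟨S, hS⟩ : ∃ S : Finset (Place k), ∀ v ∉ S, X.GoodV c₀ Φ₀ v.1.toSubring :=
    ⟨(hG _ _ z₀).toFinset, fun v hv => by_contra fun e => hv ((Set.Finite.mem_toFinset _).2 e)⟩
  choose T hT using fun v : Place k => loc_bad H.ev H.wr H.lc hX hn' (hν v).1 hk (z v)
  choose d₃ hd using fun v : Place k => form0 hX hσ' (hν v) (T v)
  obtain ⟨d, e3, e4⟩ := bc_deg k (d₂ + S.sup d₃ + c₀.d)
  have hf : ∀ v : Place k, ∃ (fv : Option Unit → Fm X.N v.K)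
      (W : Option Unit → Set ((Fin (X.N + 1) →₀ ℕ) → v.K)), v ∈ S →
      (∀ i, (J0 k X.N).VanK d v.K (fv i) ∧ W i ∈ 𝓝 (cf (fv i))) ∧
      ∀ (C : Gen k X.N) (g : Option Unit → Fm X.N k), X.Cut C g →
        (∀ i, (J0 k X.N).Van d (g i)) → (∀ i, cf (map (algebraMap k v.K) (g i)) ∈ W i) →
          (T v).Hit (ν v) fun x => C.var.On x := fun v => by
    by_cases hv : v ∈ S
    · have := Finset.le_sup (f := d₃) hv
      obtain ⟨fv, W, h⟩ := hd v d (by omega)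
      exact ⟨fv, W, fun _ => h⟩
    · exact ⟨0, fun _ => ∅, fun h => absurd h hv⟩
  choose fv W hfv using hf
  obtain ⟨c, c', Φ, L, L', Y, c'', 𝒯, hc, hLf, hGd, int, lin, sm, hY, sec, hyp, sm', hC⟩ :=
    hC _ hG (LfS X l) (hL k F₀ X hX l hl hk _) c₀ Φ₀ z₀ S hS d (by omega) (by omega) e4
      fv W fun v hv => (hfv v hv).1
  have hs : SecS X 𝒯 c c' Φ L L' Y c'' := ⟨int, lin, sm, hY, sec, hyp, sm'⟩
  obtain ⟨C₀, n₀, u₀⟩ := fib_thm irrp k X 3 hX _ hσ' c Φ hc.sm hc.Φ0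
  refine ⟨Y, 𝒯, C₀, hY, fun G hG => ⟨hG.1, ((sec _ _).1 Y.var.on_g).1.2 G hG⟩, n₀, hs.sub u₀,
    fun v hv => ?_, fun a => st3_lift F₀ hl hk hX hs hGd hLf u₀, fun v => ?_⟩
  · obtain ⟨X', hX', h⟩ := bc_exists hX hn' v.K
    obtain ⟨C', -, h'⟩ := bc_exists n₀ le_rfl v.K
    obtain ⟨m, hm⟩ := (good_bc H.th F₀ hσ' (e := 0) (hGd v hv) u₀ (fun i m => by simp) h h' hX').1
    obtain ⟨M, x, _, a1, a2, a3⟩ := hm m le_rfl
    obtain ⟨M', x', _, b1, b2, b3⟩ := hm (m + 1) m.le_succ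
    have E := H.ev k _ 2 hY one_le_two
    obtain ⟨y, e, -⟩ := ptc E (hs.sub u₀) a2 ((bc_on (X := C₀.var) h').1 a3)
    obtain ⟨y', e', -⟩ := ptc E (hs.sub u₀) b2 ((bc_on (X := C₀.var) h').1 b3)
    exact ⟨y' - y, by rw [← degH_apply, map_sub, degH_apply, degH_apply, e, e', a1, b1]; simp⟩
  obtain ⟨C, g, c1, c2, c3, c4, c5, c6⟩ := hC v
  have sX : X.Sub C := fun M _ _ x hx => ((c2 M x).1 hx).1
  obtain ⟨y, h1, h2⟩ : ∃ y : C.var.Cyc v.K, Rep l y (z v) := by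
    by_cases hv : v ∈ S
    · exact hT v C c1 sX ((hfv v hv).2 C g c2 c3 (c5 hv))
    · obtain ⟨cb, Φb, -, -, a3, e, a4⟩ := c6 hv
      exact loc_good H.ev H.wr H.lc hX hn' (hν v).1 (hj v) hl.pos c1 sX (fun X' C' h h' hX' =>
        (good_bc H.th F₀ hσ' a3 c2 a4 h h' hX').imp_right fun h3 => h3 l hk) (z v)
  obtain ⟨y', hy⟩ := exists_mv (X := Y.var) (Z := C) (fun x hx => c4 _ x hx) y
  exact ⟨y', (deg_raw hy).trans h1, fun X' h a ha hp => by rw [hy]; exact h2 X' h a ha hp⟩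

theorem st3_pl (hj : ∀ v, Function.Injective (j v)) (hX : X.Nice 3)
    (h : ∀ Y : Gen k X.N, X.I ⊆ Y.var.I → Y.var.Nice 2 → PlW Y.var l j) : PlW X l j := by
  rintro ⟨z, hd, hz⟩
  have : Infinite k :=
    .of_injective _ ((algebraMap (RatFunc F₀) k).injective.comp (RatFunc.algebraMap_injective F₀))
  obtain ⟨Y, T, C, hY, hs, hC, hs', hp, hl', hy⟩ := st3_step hL F₀ hl hk hj hX z
  choose y hy using hy
  obtain ⟨y', h1, h2⟩ := hs_glue ev_thm wr lca_thm F₀ hY one_le_two hl.pos hj hC hs' T hp y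
    fun a ha hp hK => (hl' a ha hp hK).elim fun b hb =>
      st3_orth ev_thm hX (by omega) hs hy hz hb.1 hb.2
  obtain ⟨w, hw⟩ := h Y hs hY ⟨y', fun v => by rw [h1, (hy v).1]; exact hd v, h2⟩
  obtain ⟨z₀, h0⟩ := exists_mv (X := X) (Z := Y) (K := k)
    (fun x hx => ⟨hx.1, fun G hG => hx.2 G (hs hG)⟩) w
  exact ⟨z₀, by rw [deg_raw h0]; exact hw⟩

theorem st3_main (j : Invs k) {n : ℕ} (hn : 3 ≤ n) (hX : X.Nice n)
    (h : ∀ Y : Gen k X.N, X.I ⊆ Y.var.I → Y.var.Nice 2 → Y.var.Pl l j) : X.Pl l j := by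
  have : Infinite k :=
    .of_injective _ ((algebraMap (RatFunc F₀) k).injective.comp (RatFunc.algebraMap_injective F₀))
  have key : ∀ X : Var k, X.Nice 3 →
      (∀ Y : Gen k X.N, X.I ⊆ Y.var.I → Y.var.Nice 2 → Y.var.Pl l j) → X.Pl l j := fun X hX h =>
    (pl_iff (ev_thm k X 3 hX (by omega)) j).2 (st3_pl hL F₀ hl hk (frW_inj j) hX
      fun Y hs hY => (pl_iff (ev_thm k _ 2 hY one_le_two) j).1 (h Y hs hY))
  rcases hn.eq_or_lt with rfl | hn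
  · exact key X hX h
  · exact pl_main q_hyp F₀ hl hk j hn hX fun Y hs hY =>
      key Y.var hY fun Z hs' hZ => h Z (hs.trans hs') hZ

end Pool.Agent.ZCy.F
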