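import Pool.Agent.Lib.MP_879916_ag.SS.ZDf

/-! Properties that are forced by congruences at finitely many places. -/

namespace Pool.Agent.ZCy

open scoped Classical

variable {k V : Type} [Field k] {R : V → ValuationSubring k}
  {P Q : Finset V → (Option Unit → k) → Prop}

theorem hil_true (R : V → ValuationSubring k) : Hil R fun _ _ => True := fun _ =>
  ⟨∅, 0, 1, ∅, Finset.disjoint_empty_right _, fun _ => one_ne_zero, by simp, fun _ _ _ _ => trivial⟩

theorem Hil.mono (h : Hil R P) (hQ : ∀ T a, a none ≠ 0 → P T a → Q T a) : Hil R Q := fun S =>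
  let ⟨T, s, r, B, h1, h2, h3, h4⟩ := h S
  ⟨T, s, r, B, h1, h2, h3, fun a a0 a1 a2 => hQ T a a0 (h4 a a0 a1 a2)⟩

/-- take `T₁` for `S`, then `T₂` for `S ∪ T₁`, and `T = T₁ ∪ T₂` with piecewise data -/
theorem Hil.and (hP : Hil R P) (hQ : Hil R Q) (mP : ∀ T T' a, T ⊆ T' → P T a → P T' a)
    (mQ : ∀ T T' a, T ⊆ T' → Q T a → Q T' a) : Hil R fun T a => P T a ∧ Q T a := fun S => by
  obtain ⟨T, s, r, B, h1, h2, h3, h4⟩ := hP S
  obtain ⟨T', s', r', B', k1, k2, k3, k4⟩ := hQ (S ∪ T)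
  rw [Finset.disjoint_union_left] at k1
  refine ⟨T ∪ T', fun v => if v ∈ T then s v else s' v, fun v => if v ∈ T then r v else r' v, B ∪ B',
    Finset.disjoint_union_right.2 ⟨h1, k1.1⟩, fun v => ?_, fun v hv => ?_, fun a a0 a1 a2 => ?_⟩
  · dsimp only
    split_ifs
    exacts [h2 v, k2 v]
  · dsimp only
    split_ifs with e
    exacts [h3 v e, k3 v ((Finset.mem_union.1 hv).resolve_left e)]
  · rw [Finset.notMem_union] at a1
    refine ⟨mP _ _ a Finset.subset_union_left (h4 a a0 a1.1 fun v hv => ?_),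
      mQ _ _ a Finset.subset_union_right (k4 a a0 a1.2 fun v hv => ?_)⟩
    · simpa only [if_pos hv] using a2 v (Finset.mem_union_left _ hv)
    · simpa only [if_neg (Finset.disjoint_right.1 k1.2 hv)] using a2 v (Finset.mem_union_right _ hv)

theorem Hil.off (h : Hil R P) (S₀ : Finset V) : Hil R fun T a => P T a ∧ Disjoint S₀ T := fun S =>
  let ⟨T, s, r, B, h1, h2, h3, h4⟩ := h (S ∪ S₀)
  ⟨T, s, r, B, (Finset.disjoint_union_left.1 h1).1, h2, h3, fun a a0 a1 a2 =>
    ⟨h4 a a0 a1 a2, (Finset.disjoint_union_left.1 h1).2⟩⟩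

theorem Hil.cof (h : Hil R P) {G : V → Prop} (hG : ∀ᶠ v in Filter.cofinite, G v) :
    Hil R fun T a => P T a ∧ ∀ v ∈ T, G v :=
  (h.off (Filter.eventually_cofinite.1 hG).toFinset).mono fun _ _ _ e => ⟨e.1, fun v hv => by
    simpa using Finset.disjoint_right.1 e.2 hv⟩

theorem Hil.excl (h : Hil R P) {G : k → Prop} (hG : ∀ᶠ z in Filter.cofinite, G z) :
    Hil R fun T a => P T a ∧ G (slp a) := fun S => by
  obtain ⟨T, s, r, B, h1, h2, h3, h4⟩ := h S
  refine ⟨T, s, r, B ∪ (Filter.eventually_cofinite.1 hG).toFinset, h1, h2, h3, fun a a0 a1 a2 => ?_⟩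
  rw [Finset.notMem_union] at a1
  exact ⟨h4 a a0 a1.1 a2, by simpa [slp] using a1.2⟩

theorem Hil.int (h : Hil R P) : Hil R fun T a => P T a ∧ ∀ v ∈ T, slp a ∈ R v := fun S => by
  obtain ⟨T, s, r, B, h1, h2, h3, h4⟩ := h S
  refine ⟨T, s, r, B, h1, h2, h3, fun a a0 a1 a2 => ⟨h4 a a0 a1 a2, fun v hv => ?_⟩⟩
  have := add_mem (mul_mem (a2 v hv) (h3 v hv).2) (h3 v hv).1
  rwa [div_mul_cancel₀ _ (h2 v), sub_add_cancel] at this

theorem hil_all {ι : Type} [Finite ι] {P : ι → Finset V → (Option Unit → k) → Prop}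
    (h : ∀ i, Hil R (P i)) (m : ∀ i T T' a, T ⊆ T' → P i T a → P i T' a) :
    Hil R fun T a => ∀ i, P i T a := by
  have key : ∀ I : Finset ι, Hil R fun T a => ∀ i ∈ I, P i T a := fun I => by
    induction I using Finset.induction_on with
    | empty => exact (hil_true R).mono fun _ _ _ _ => by simp
    | insert i I _ ih =>
      exact ((h i).and ih (m i) fun T T' a e c j hj => m j T T' a e (c j hj)).mono
        fun _ _ _ c => Finset.forall_mem_insert .. |>.2 c
  have := Fintype.ofFinite ι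
  exact (key Finset.univ).mono fun _ _ _ c i => c i (Finset.mem_univ i)

theorem hil_of_loc {G : V → k → Prop} (h : Loc1 R G) :
    Hil R fun T a => ∃ v ∈ T, G v (slp a) := fun S => by
  obtain ⟨v, hv, s, r, h1, h2, h3, h4⟩ := h S
  exact ⟨{v}, fun _ => s, fun _ => r, ∅, Finset.disjoint_singleton_right.2 hv, fun _ => h1,
    by simpa using ⟨h2, h3⟩, fun a _ _ a2 => ⟨v, Finset.mem_singleton_self v,
      h4 _ (a2 v (Finset.mem_singleton_self v))⟩⟩

end Pool.Agent.ZCy
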