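import Pool.Agent.Lib.MP_751085_ag.ZF.K.WrA
import Pool.Agent.Lib.MP_751085_ag.ZF.A5b
import Pool.Agent.Lib.MP_751085_ag.ZF.A2b
import Pool.Agent.Lib.MP_751085_ag.ZF.E.N2

/-! A field of constants that is generated by roots of unity over a splitting field. -/

namespace Pool.Agent.ZCy.F

open scoped Classical IntermediateField
open Polynomial

theorem k2_fix {k E : Type} [Field k] [Field E] [Algebra k E] {g : E ≃ₐ[k] E} {l u : ℕ}
    (hl : l ≠ 0) (hu : l.Coprime u) (hg : g ^ u = 1) (h : ∀ x : E, x ^ l = 1 → g x = x) (n : ℕ) :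
    ∀ x : E, x ^ l ^ n = 1 → g x = x := by
  induction n with
  | zero =>
    intro x hx
    rw [pow_zero, pow_one] at hx
    rw [hx, map_one]
  | succ n ih =>
    intro x hx
    have h0 : x ≠ 0 := fun e => by
      rw [e, zero_pow (pow_ne_zero _ hl)] at hx
      exact zero_ne_one hx
    have h1 : (g x / x) ^ l = 1 := by
      rw [div_pow, ← map_pow, ih _ (by rw [← pow_mul, ← pow_succ', hx]), div_self (pow_ne_zero _ h0)]
    have h2 : ∀ j : ℕ, (g ^ j) x = (g x / x) ^ j * x := fun j => by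
      induction j with
      | zero => rw [pow_zero, pow_zero, one_mul, AlgEquiv.one_apply]
      | succ j hj =>
        rw [pow_succ', AlgEquiv.mul_apply, hj, map_mul, map_pow, h _ h1, pow_succ, mul_assoc,
          div_mul_cancel₀ _ h0]
    have h3 := h2 u
    rw [hg, AlgEquiv.one_apply] at h3
    have h4 : (g x / x) ^ u = 1 := (mul_eq_right₀ h0).1 h3.symm
    exact (div_eq_one_iff_eq h0).1 ((pow_eq_one_iff_of_coprime hu).1 ⟨h1, h4⟩)

theorem k2_core {F₀ k E : Type} [Field F₀] [Field k] [Field E] [Algebra F₀ k] [Algebra k E]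
    [Algebra F₀ E] [IsScalarTower F₀ k E] [FiniteDimensional k E]
    (F : IntermediateField F₀ E) [Finite F] (f : k[X]) {l : ℕ} (hl : l.Prime)
    (hgen : ∀ g : E ≃ₐ[k] E, (∀ x, aeval x f = 0 → g x = x) → (∀ x ∈ F, g x = x) → g = 1) :
    ∃ H : Subgroup (E ≃ₐ[k] E), H.Normal ∧ (Nat.card H).Coprime l ∧
      (∀ g ∈ H, (∀ x, aeval x f = 0 → g x = x) ∧ ∀ (n : ℕ) (x : E), x ^ l ^ n = 1 → g x = x) ∧
      ∀ g : E ≃ₐ[k] E, (∀ x, aeval x f = 0 → g x = x) → (∀ x : E, x ^ l = 1 → g x = x) →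
        (∃ a : ℕ, g ^ l ^ a ∈ H) ∧ ((∀ x ∈ IntermediateField.fixedField H, ∀ m : ℕ,
          (m : k) ≠ 0 → x ^ m = 1 → g x = x) → g ∈ H) := by
  let ρ : (E ≃ₐ[k] E) →* (F ≃ₐ[F₀] F) := (AlgEquiv.restrictNormalHom F).comp
    (MonoidHom.mk' (fun g => g.restrictScalars F₀) fun _ _ => rfl)
  have hρ : ∀ g (y : F), (ρ g y : E) = g y := fun g y =>
    AlgEquiv.restrictNormalHom_apply F (g.restrictScalars F₀) y
  let A : Subgroup (E ≃ₐ[k] E) := fixingSubgroup _ {x : E | aeval x f = 0 ∨ x ^ l = 1}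
  have hA : ∀ g, g ∈ A ↔ (∀ x, aeval x f = 0 → g x = x) ∧ ∀ x : E, x ^ l = 1 → g x = x := fun g =>
    (mem_fixingSubgroup_iff _).trans ⟨fun h => ⟨fun x hx => h x (Or.inl hx), fun x hx =>
      h x (Or.inr hx)⟩, fun h x hx => hx.elim (h.1 x) (h.2 x)⟩
  have hAn : A.Normal := ⟨fun g hg s => (hA _).2 ⟨fun x hx => by
      rw [AlgEquiv.mul_apply, AlgEquiv.mul_apply, ((hA g).1 hg).1 _
        (by rw [aeval_algHom_apply, hx, map_zero]), ← AlgEquiv.mul_apply, mul_inv_cancel,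
        AlgEquiv.one_apply],
    fun x hx => by
      rw [AlgEquiv.mul_apply, AlgEquiv.mul_apply, ((hA g).1 hg).2 _
        (by rw [← map_pow, hx, map_one]), ← AlgEquiv.mul_apply, mul_inv_cancel,
        AlgEquiv.one_apply]⟩⟩
  have hinj : ∀ g ∈ A, ρ g = 1 → g = 1 := fun g hg h => hgen g ((hA g).1 hg).1 fun x hx => by
    have := hρ g ⟨x, hx⟩
    rw [h] at this
    exact this.symm
  obtain ⟨a, u, hu, hc⟩ := Nat.exists_eq_pow_mul_and_not_dvd
    (Nat.card_pos (α := F ≃ₐ[F₀] F)).ne' l hl.ne_one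
  let : CommGroup (F ≃ₐ[F₀] F) := IsCyclic.commGroup
  let H : Subgroup (E ≃ₐ[k] E) := A ⊓ (powMonoidHom u).ker.comap ρ
  have hH : ∀ g, g ∈ H ↔ g ∈ A ∧ ρ g ^ u = 1 := fun g => Iff.rfl
  have hHu : ∀ g ∈ H, g ^ u = 1 := fun g hg =>
    hinj _ (pow_mem ((hH g).1 hg).1 u) ((map_pow ρ g u).trans ((hH g).1 hg).2)
  have hlu := hl.coprime_iff_not_dvd.2 hu
  refine ⟨H, inferInstance, ?_, fun g hg => ⟨((hA g).1 ((hH g).1 hg).1).1,
    k2_fix hl.ne_zero hlu (hHu g hg) ((hA g).1 ((hH g).1 hg).1).2⟩, fun g h1 h2 =>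
    ⟨⟨a, (hH _).2 ⟨pow_mem ((hA g).2 ⟨h1, h2⟩) _, ?_⟩⟩, fun h3 => ?_⟩⟩
  · refine (hl.coprime_iff_not_dvd.2 fun h => hu ?_).symm
    have := Fact.mk hl
    obtain ⟨g, hg⟩ := exists_prime_orderOf_dvd_card' l h
    exact hg ▸ orderOf_dvd_of_pow_eq_one (Subtype.ext (hHu g.1 g.2))
  · rw [map_pow, ← pow_mul, ← hc, pow_card_eq_one']
  · have h4 : ρ g ∈ H.map ρ := by
      rw [← IntermediateField.fixingSubgroup_fixedField (H.map ρ)]
      rintro ⟨y, hy⟩
      refine Subtype.ext ((hρ g y).trans ?_)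
      rcases eq_or_ne y 0 with rfl | h0
      · exact map_zero g
      have := Fintype.ofFinite F
      refine h3 y (fun s => (hρ s.1 y).symm.trans
        (congrArg Subtype.val (hy ⟨ρ s.1, s.1, s.2, rfl⟩))) (Fintype.card F - 1) (fun h5 => ?_) ?_
      · have h6 := congrArg (algebraMap k E) h5
        rw [map_natCast, map_zero, Nat.cast_sub Fintype.card_pos, ← map_natCast (algebraMap F E),
          FiniteField.cast_card_eq_zero, map_zero, Nat.cast_one, zero_sub] at h6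
        exact one_ne_zero (neg_eq_zero.1 h6)
      · exact congrArg Subtype.val (FiniteField.pow_card_sub_one_eq_one y h0)
    obtain ⟨s, hs, e⟩ := h4
    have h5 := hinj (s⁻¹ * g) (mul_mem (inv_mem ((hH s).1 hs).1) ((hA g).2 ⟨h1, h2⟩))
      (by rw [map_mul, map_inv, e, inv_mul_cancel])
    exact inv_mul_eq_one.1 h5 ▸ hs

/-- the class dies after adjoining finitely many constants -/
theorem k2_kill {F₀ M : Type} [Field F₀] [Finite F₀] [Field M] [Algebra F₀ M] (τ : M)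
    [FiniteDimensional F₀⟮τ⟯ M] (b : BR M) :
    ∃ s : Finset (SC M), (∀ y ∈ s, IsIntegral F₀ y) ∧ ∀ (E : Type) [Field E] (e : M →+* E)
      (ι : E →+* SC M), (∀ x, ι (e x) = algebraMap M _ x) → (∀ y ∈ s, y ∈ ι.fieldRange) →
        rs e b = 0 := by
  let j : AlgebraicClosure F₀ →ₐ[F₀] SC M := IsSepClosed.lift
  let T := IntermediateField.adjoin M (Set.range j)
  let : Algebra (AlgebraicClosure F₀) T := ((j : AlgebraicClosure F₀ →+* SC M).codRestrict T
    fun y => IntermediateField.subset_adjoin M _ (Set.mem_range_self y)).toAlgebra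
  obtain ⟨S, _, hS⟩ := exists_finite_of_rs (T := T) (a := b)
    (n2_comp (K := F₀) (k := AlgebraicClosure F₀) τ (algebraMap M T)
      (fun x => ⟨algebraMap F₀ _ x, Subtype.ext (j.commutes x).symm⟩) (fun R h1 h2 x => by
        obtain ⟨w, hw, e⟩ := a5b_mem (K := M) (s := Set.range j) (RingHom.id (SC M))
          (R.map (algebraMap T (SC M))) (fun y => ⟨_, h1 y, rfl⟩)
          (by
            rintro _ ⟨y, rfl⟩
            exact ⟨_, h2 y, rfl⟩) x.2
        exact Subtype.ext e ▸ hw) _)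
  obtain ⟨θ, hθ⟩ := Field.exists_primitive_element M S
  obtain ⟨t, ht, hθt⟩ := IntermediateField.exists_finset_of_mem_adjoin θ.1.2
  refine ⟨t, fun y hy => ?_, fun E _ e ι h1 h2 => ?_⟩
  · obtain ⟨x, rfl⟩ := ht hy
    exact (Algebra.IsIntegral.isIntegral x).map j
  · let η : S →+* SC M := (algebraMap T (SC M)).comp (algebraMap S T)
    have h0 : ∀ y : M, algebraMap M (SC M) y ∈ ι.fieldRange := fun y => ⟨_, h1 y⟩
    have h3 : ∀ y : S, η y ∈ ι.fieldRange := fun y =>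
      a5b_mem (K := M) (s := {θ}) η _ h0
        (by
          rintro _ rfl
          exact a5b_mem (RingHom.id (SC M)) _ h0 h2 hθt) (by rw [hθ]; trivial)
    exact n2_zero (φ := e) (σ := algebraMap M S) (η := η.codRestrict _ h3)
      ι.rangeRestrictField_bijective (RingHom.ext fun y => Subtype.ext (h1 y)) hS

theorem k2_down {F₀ k M E : Type} [Field F₀] [Field k] [Field M] [Field E] [Algebra F₀ k]
    [Algebra k M] [Algebra k E] [Algebra F₀ E] [IsScalarTower F₀ k E] [FiniteDimensional k E]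
    [IsGalois k E] (F : IntermediateField F₀ E) [Finite F] {f : k[X]} {z : M}
    (hz : aeval z f = 0) (hz' : k⟮z⟯ = ⊤) {b : BR M} {l n : ℕ} (hl : l.Prime) (hk : (l : k) ≠ 0)
    (e : M →ₐ[k] E) (hbE : rs (e : M →+* E) b = 0) {ζ : E} (hζ' : IsPrimitiveRoot ζ (l ^ n))
    (hgen : ∀ g : E ≃ₐ[k] E, (∀ x, aeval x f = 0 → g x = x) → (∀ x ∈ F, g x = x) → g = 1) :
    ∃ (k₂ : Type) (_ : Field k₂) (_ : Algebra k k₂) (_ : FiniteDimensional k k₂) (_ : IsGalois k k₂)
      (e : M →ₐ[k] k₂) (ζ : k₂) (q : ℕ), IsPrimitiveRoot ζ (l ^ n) ∧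
      q • rs (e : M →+* k₂) b = 0 ∧ q.Coprime l ∧
      (∀ g : k₂ ≃ₐ[k] k₂, (∀ x, aeval x f = 0 → g x = x) →
        (∀ (x : k₂) (m : ℕ), (m : k) ≠ 0 → x ^ m = 1 → g x = x) → g = 1) ∧
      ∀ g : k₂ ≃ₐ[k] k₂, (∀ x, aeval x f = 0 → g x = x) → (∀ x : k₂, x ^ l = 1 → g x = x) →
        ∃ m : ℕ, g ^ l ^ m = 1 := by
  obtain ⟨H, _, hq, h1, h2⟩ := k2_core F f hl hgen
  let k₂ := IntermediateField.fixedField H
  have h3 : ∀ x, e x ∈ k₂ := fun x =>
    (IntermediateField.adjoin_simple_le_iff (K := k₂.comap e)).2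
      (fun g => (h1 g.1 g.2).1 _ ((aeval_algHom_apply e z f).trans (by rw [hz, map_zero])))
      (hz' ▸ IntermediateField.mem_top)
  have h4 : ∀ (g : E ≃ₐ[k] E) (y : k₂), (AlgEquiv.restrictNormalHom k₂ g y : E) = g y :=
    fun g y => AlgEquiv.restrictNormalHom_apply k₂ g y
  have h5 : ∀ g ∈ H, AlgEquiv.restrictNormalHom k₂ g = 1 := fun g hg =>
    AlgEquiv.ext fun y => Subtype.ext ((h4 g y).trans (y.2 ⟨g, hg⟩))
  have h6 : ∀ g : E ≃ₐ[k] E, (∀ x, aeval x f = 0 → AlgEquiv.restrictNormalHom k₂ g x = x) →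
      ∀ x, aeval x f = 0 → g x = x := fun g h x hx =>
    have hx' : x ∈ k₂ := fun t => (h1 t.1 t.2).1 x hx
    have hy : k₂.val (aeval (⟨x, hx'⟩ : k₂) f) = 0 := by
      rw [← aeval_algHom_apply]
      exact hx
    (h4 g ⟨x, hx'⟩).symm.trans (congrArg Subtype.val (h _ (Subtype.ext hy)))
  have h7 : ∀ g : E ≃ₐ[k] E, (∀ x : k₂, x ^ l = 1 → AlgEquiv.restrictNormalHom k₂ g x = x) →
      ∀ x : E, x ^ l = 1 → g x = x := fun g h x hx =>
    (h4 g ⟨x, fun t => (h1 t.1 t.2).2 1 x (by rwa [pow_one])⟩).symm.trans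
      (congrArg Subtype.val (h _ (Subtype.ext hx)))
  refine ⟨k₂, _, _, inferInstance, inferInstance, e.codRestrict k₂.toSubalgebra h3,
    ⟨_, fun g => (h1 g.1 g.2).2 n _ hζ'.pow_eq_one⟩, Nat.card H,
    .of_map_of_injective (f := k₂.val) hζ' Subtype.val_injective, ?_, hq, fun g h8 h9 => ?_,
    fun g h8 h9 => ?_⟩
  · rw [← IntermediateField.finrank_fixedField_eq_card]
    exact Kp.ka_card ((Kp.ka_comp _ _ b).trans hbE)
  · obtain ⟨g, rfl⟩ := AlgEquiv.restrictNormalHom_surjective E g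
    exact h5 g ((h2 g (h6 g h8) (h7 g fun x => h9 x l hk)).2 fun x hx m hm h =>
      (h4 g ⟨x, hx⟩).symm.trans (congrArg Subtype.val (h9 _ m hm (Subtype.ext h))))
  · obtain ⟨g, rfl⟩ := AlgEquiv.restrictNormalHom_surjective E g
    obtain ⟨a, ha⟩ := (h2 g (h6 g h8) (h7 g h9)).1
    exact ⟨a, (map_pow _ g _).symm.trans (h5 _ ha)⟩

theorem k2_ex {k M : Type} [Field k] (F₀ : Type) [Field F₀] [Finite F₀] [Algebra (RatFunc F₀) k]
    [FiniteDimensional (RatFunc F₀) k] [Field M] [Algebra k M] {f : k[X]} (hf : f.Separable)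
    {z : M} (hz : aeval z f = 0) (hz' : k⟮z⟯ = ⊤) (b : BR M) {l : ℕ} (hl : l.Prime)
    (hk : (l : k) ≠ 0) (n : ℕ) :
    ∃ (k₂ : Type) (_ : Field k₂) (_ : Algebra k k₂) (_ : FiniteDimensional k k₂) (_ : IsGalois k k₂)
      (e : M →ₐ[k] k₂) (ζ : k₂) (q : ℕ), IsPrimitiveRoot ζ (l ^ n) ∧
      q • rs (e : M →+* k₂) b = 0 ∧ q.Coprime l ∧
      (∀ g : k₂ ≃ₐ[k] k₂, (∀ x, aeval x f = 0 → g x = x) →
        (∀ (x : k₂) (m : ℕ), (m : k) ≠ 0 → x ^ m = 1 → g x = x) → g = 1) ∧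
      ∀ g : k₂ ≃ₐ[k] k₂, (∀ x, aeval x f = 0 → g x = x) → (∀ x : k₂, x ^ l = 1 → g x = x) →
        ∃ m : ℕ, g ^ l ^ m = 1 := by
  obtain ⟨_, _⟩ := Kp.kx_gen hz' hf hz
  let : Algebra F₀ k := ((algebraMap (RatFunc F₀) k).comp (algebraMap F₀ _)).toAlgebra
  let : Algebra F₀ M := ((algebraMap k M).comp (algebraMap F₀ k)).toAlgebra
  have : IsScalarTower F₀ k M := IsScalarTower.of_algebraMap_eq fun _ => rfl
  let φ := (algebraMap k M).comp (algebraMap (RatFunc F₀) k)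
  have : FiniteDimensional F₀⟮φ RatFunc.X⟯ M := a5b_tower (A := RatFunc F₀) (F := k)
    (φ.codRestrict F₀⟮φ RatFunc.X⟯ fun y => a5b_mem (K := F₀) (s := {RatFunc.X}) φ
      (F₀⟮φ RatFunc.X⟯).toSubfield (fun x => IntermediateField.algebraMap_mem _ x)
      (by
        rintro _ rfl
        exact IntermediateField.mem_adjoin_simple_self _ _)
      (by rw [RatFunc.adjoin_X]; trivial)) fun _ => rfl
  obtain ⟨s, hs, hb⟩ := k2_kill (F₀ := F₀) (φ RatFunc.X) b
  have : NeZero ((l ^ n : ℕ) : SC M) := ⟨fun h => pow_ne_zero n hk ((algebraMap k (SC M)).injective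
    (by rw [← Nat.cast_pow, map_natCast, h, map_zero]))⟩
  obtain ⟨ζ, hζ⟩ := HasEnoughRootsOfUnity.exists_primitiveRoot (SC M) (l ^ n)
  have hs' : ∀ y ∈ insert ζ s, IsIntegral F₀ y := Finset.forall_mem_insert _ _ _ |>.2
    ⟨hζ.isIntegral (pow_pos hl.pos n) |>.tower_top, hs⟩
  let g₀ : F₀[X] := ∏ y ∈ insert ζ s, minpoly F₀ y
  have hg₀ : g₀ ≠ 0 := Finset.prod_ne_zero_iff.2 fun y hy => minpoly.ne_zero (hs' y hy)
  let P := f * g₀.map (algebraMap F₀ k)
  have hP : P ≠ 0 := mul_ne_zero hf.ne_zero (Polynomial.map_ne_zero hg₀)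
  have hsp : (P.map (algebraMap k (SC M))).Splits := by
    rw [Polynomial.map_mul, Polynomial.map_map, ← IsScalarTower.algebraMap_eq, Polynomial.map_prod]
    exact (IsSepClosed.splits_codomain _ hf).mul (Splits.prod fun y hy =>
      IsSepClosed.splits_codomain _ (PerfectField.separable_of_irreducible
        (minpoly.irreducible (hs' y hy))))
  let E := IntermediateField.adjoin k (P.rootSet (SC M))
  have := IntermediateField.adjoin_rootSet_isSplittingField hsp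
  have : FiniteDimensional k E := IsSplittingField.finiteDimensional E P
  have : Normal k E := Normal.of_isSplittingField P
  have : IsGalois k E := {}
  have hr : ∀ y : SC M, aeval y f = 0 ∨ aeval y g₀ = 0 → y ∈ E := fun y h =>
    IntermediateField.subset_adjoin _ _ ((mem_rootSet_of_ne hP).2 (by
      rwa [map_mul, aeval_map_algebraMap, mul_eq_zero]))
  have hsE : ∀ y ∈ insert ζ s, y ∈ E := fun y hy => hr y (Or.inr (by
    rw [map_prod]
    exact Finset.prod_eq_zero hy (minpoly.aeval F₀ y)))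
  let i := IsScalarTower.toAlgHom k M (SC M)
  have hM : ∀ x, i x ∈ E := fun x =>
    (IntermediateField.adjoin_simple_le_iff (K := E.comap i)).2
      (hr _ (Or.inl ((aeval_algHom_apply i z f).trans (by rw [hz, map_zero]))))
      (hz' ▸ IntermediateField.mem_top)
  let e : M →ₐ[k] E := i.codRestrict E.toSubalgebra hM
  have hbE : rs (e : M →+* E) b = 0 := hb E e (algebraMap E (SC M)) (fun _ => rfl)
    fun y hy => ⟨⟨y, hsE y (Finset.mem_insert_of_mem hy)⟩, rfl⟩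
  let F := IntermediateField.adjoin F₀ (g₀.rootSet E)
  have : FiniteDimensional F₀ F := IntermediateField.finiteDimensional_adjoin
    fun x hx => (isAlgebraic_of_mem_rootSet hx).isIntegral
  have : Finite F := Module.finite_of_finite F₀
  refine k2_down F hz hz' hl hk e hbE (ζ := ⟨ζ, hsE ζ (Finset.mem_insert_self _ _)⟩)
    (.of_map_of_injective (f := E.val) hζ Subtype.val_injective) fun g h1 h2 => ?_
  refine AlgEquiv.coe_toAlgHom_injective (IntermediateField.adjoin_algHom_ext k fun x hx => ?_)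
  have h3 := (mem_rootSet_of_ne hP).1 hx
  rw [map_mul, aeval_map_algebraMap, mul_eq_zero] at h3
  refine h3.elim (fun h => h1 _ ?_) fun h => h2 _ (IntermediateField.subset_adjoin _ _
    ((mem_rootSet_of_ne hg₀).2 ?_))
  · exact E.val.injective ((aeval_algHom_apply E.val _ f).symm.trans (h.trans (map_zero _).symm))
  · exact E.val.injective ((aeval_algHom_apply (E.val.restrictScalars F₀) _ g₀).symm.trans
      (h.trans (map_zero _).symm))

end Pool.Agent.ZCy.F
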