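import Pool.Agent.Lib.MP_879916_ag.SS.Defs

/-! The semi-local ring of a finite set of places. -/

namespace Pool.Agent.ZCy.F

open Pool.Agent.ZFN
open scoped Classical WithZero

variable {k : Type} [Field k]

theorem pid_mem {T : Finset (Place k)} {x : k} :
    x ∈ OT (fun v : Place k => v.1) T ↔ ∀ v ∈ T, plv v x ≤ 1 := by
  simp only [mem_OT, plv_le]

/-- elements with prescribed values -/
theorem pid_val (T : Finset (Place k)) (n : Place k → ℤ) :
    ∃ x : k, x ≠ 0 ∧ ∀ v ∈ T, plv v x = WithZero.exp (n v) := by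
  rcases T.eq_empty_or_nonempty with rfl | ⟨v₀, hv₀⟩
  · exact ⟨1, one_ne_zero, fun v hv => absurd hv (Finset.notMem_empty v)⟩
  choose y hy using fun v : Place k => (plv_nrm v).surj (WithZero.exp (n v))
  obtain ⟨N, hN⟩ := (T.finite_toSet.image fun v => (-n v).toNat).bddAbove
  obtain ⟨x, hx⟩ := wap (fun v : T => plv v.1) (fun v => plv_nrm _) (fun v => y v.1)
    (fun v v' e => congrArg y (plv_inj e)) (N + 1)
  have h : ∀ v ∈ T, plv v x = WithZero.exp (n v) := fun v hv => by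
    have h1 : (-n v).toNat ≤ N := hN ⟨v, hv, rfl⟩
    refine ((plv v).map_eq_of_sub_lt ((hx ⟨v, hv⟩).trans_lt ?_)).trans (hy v)
    rw [hy, WithZero.exp_lt_exp]
    omega
  refine ⟨x, fun e => ?_, h⟩
  have h2 := h v₀ hv₀
  rw [e, map_zero] at h2
  exact WithZero.exp_ne_zero h2.symm

theorem pid_dvd {T : Finset (Place k)} {a b : OT (fun v : Place k => v.1) T} (ha : a ≠ 0) :
    a ∣ b ↔ ∀ v ∈ T, plv v (b : k) ≤ plv v (a : k) := by
  have ha' : (a : k) ≠ 0 := fun e => ha (Subtype.ext e)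
  constructor
  · rintro ⟨c, rfl⟩ v hv
    rw [Subring.coe_mul, map_mul]
    exact mul_le_of_le_one_right' (pid_mem.1 c.2 v hv)
  · intro h
    refine ⟨⟨(b : k) / a, pid_mem.2 fun v hv => ?_⟩, Subtype.ext ?_⟩
    · rw [map_div₀, div_le_one₀ (zero_lt_iff.2 ((plv v).ne_zero_iff.2 ha'))]
      exact h v hv
    · rw [Subring.coe_mul]
      field_simp

theorem pid_pid (T : Finset (Place k)) :
    IsPrincipalIdealRing (OT (fun v : Place k => v.1) T) := by
  refine ⟨fun I => ?_⟩
  rcases eq_or_ne I ⊥ with rfl | hI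
  · exact bot_isPrincipal
  obtain ⟨a₀, ha₀, h0⟩ := Submodule.exists_mem_ne_zero_of_ne_bot hI
  have hlog : ∀ (a : OT (fun v : Place k => v.1) T), a ≠ 0 → ∀ v ∈ T,
      plv v (a : k) = WithZero.exp (WithZero.log (plv v (a : k))) := fun a ha v _ =>
    (WithZero.exp_log ((plv v).ne_zero_iff.2 fun e => ha (Subtype.ext e))).symm
  have hle : ∀ (a : OT (fun v : Place k => v.1) T), a ≠ 0 → ∀ v ∈ T,
      WithZero.log (plv v (a : k)) ≤ 0 := fun a ha v hv => by
    rw [← WithZero.exp_le_exp, ← hlog a ha v hv, WithZero.exp_zero]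
    exact pid_mem.1 a.2 v hv
  obtain ⟨m, ⟨a, haI, ha, rfl⟩, hm⟩ := Int.exists_greatest_of_bdd
    (P := fun m => ∃ a ∈ I, a ≠ 0 ∧ ∑ v ∈ T, WithZero.log (plv v (a : k)) = m)
    ⟨0, by
      rintro z ⟨a, -, ha, rfl⟩
      exact Finset.sum_nonpos (hle a ha)⟩ ⟨_, a₀, ha₀, h0, rfl⟩
  refine ⟨a, le_antisymm (fun b hb => ?_) ((Submodule.span_singleton_le_iff_mem _ _).2 haI)⟩
  refine Ideal.mem_span_singleton.2 ((pid_dvd ha).2 fun v₀ hv₀ => not_lt.1 fun hlt => ?_)
  obtain ⟨e, -, he⟩ := pid_val T fun v =>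
    if v = v₀ then 0 else WithZero.log (plv v (a : k)) - 1
  have heO : e ∈ OT (fun v : Place k => v.1) T := pid_mem.2 fun v hv => by
    rw [he v hv, ← WithZero.exp_zero, WithZero.exp_le_exp]
    have := hle a ha v hv
    split_ifs <;> omega
  have hc0 : plv v₀ ((a + ⟨e, heO⟩ * b : OT (fun v : Place k => v.1) T) : k) = plv v₀ (b : k) := by
    have h1 : plv v₀ (e * b) = plv v₀ (b : k) := by
      rw [map_mul, he v₀ hv₀, if_pos rfl, WithZero.exp_zero, one_mul]
    rw [Subring.coe_add, Subring.coe_mul, ← h1]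
    exact (plv v₀).map_add_eq_of_lt_right (h1 ▸ hlt)
  have hc1 : ∀ v ∈ T, v ≠ v₀ →
      plv v ((a + ⟨e, heO⟩ * b : OT (fun v : Place k => v.1) T) : k) = plv v (a : k) :=
    fun v hv hne => by
      rw [Subring.coe_add, Subring.coe_mul]
      refine (plv v).map_add_eq_of_lt_left ?_
      rw [map_mul]
      refine (mul_le_of_le_one_right' (pid_mem.1 b.2 v hv)).trans_lt ?_
      rw [he v hv, if_neg hne]
      conv_rhs => rw [hlog a ha v hv]
      rw [WithZero.exp_lt_exp]
      omega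
  have hb0 : b ≠ 0 := by
    rintro rfl
    simp at hlt
  have hne : (a + ⟨e, heO⟩ * b : OT (fun v : Place k => v.1) T) ≠ 0 := fun z => by
    rw [z, hlog b hb0 v₀ hv₀] at hc0
    simp only [ZeroMemClass.coe_zero, map_zero] at hc0
    exact WithZero.exp_ne_zero hc0.symm
  have h2 := hm _ ⟨_, I.add_mem haI (I.mul_mem_left _ hb), hne, rfl⟩
  refine absurd h2 (not_le.2 (Finset.sum_lt_sum (fun v hv => ?_) ⟨v₀, hv₀, ?_⟩))
  · rcases eq_or_ne v v₀ with rfl | h
    · rw [hc0, ← WithZero.exp_le_exp, ← hlog a ha v hv, ← hlog b hb0 v hv]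
      exact hlt.le
    · rw [hc1 v hv h]
  · rw [hc0, ← WithZero.exp_lt_exp, ← hlog a ha v₀ hv₀, ← hlog b hb0 v₀ hv₀]
    exact hlt

theorem pid_den (T : Finset (Place k)) (x : k) : ∃ t a : OT (fun v : Place k => v.1) T,
    (t : k) ≠ 0 ∧ x * t = a ∧ ∀ v ∈ T, plv v x ≤ 1 → plv v (t : k) = 1 := by
  rcases eq_or_ne x 0 with rfl | hx
  · exact ⟨1, 0, by simp, by simp, fun v _ _ => by simp⟩
  obtain ⟨t, ht0, ht⟩ := pid_val T fun v => min 0 (-WithZero.log (plv v x))
  have hx' : ∀ v : Place k, plv v x = WithZero.exp (WithZero.log (plv v x)) := fun v =>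
    (WithZero.exp_log ((plv v).ne_zero_iff.2 hx)).symm
  refine ⟨⟨t, pid_mem.2 fun v hv => ?_⟩, ⟨x * t, pid_mem.2 fun v hv => ?_⟩, ht0, rfl,
    fun v hv h => ?_⟩
  · rw [ht v hv, ← WithZero.exp_zero, WithZero.exp_le_exp]
    omega
  · rw [map_mul, ht v hv]
    conv_lhs => lhs; rw [hx' v]
    rw [← WithZero.exp_add, ← WithZero.exp_zero, WithZero.exp_le_exp]
    omega
  · rw [hx' v, ← WithZero.exp_zero, WithZero.exp_le_exp] at h
    show plv v t = 1
    rw [ht v hv, ← WithZero.exp_zero, WithZero.exp_inj]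
    omega

theorem pid_prime (T : Finset (Place k)) (v : Place k) (hv : v ∈ T) :
    ∃ p : OT (fun v : Place k => v.1) T, Prime p ∧
      ∀ a : OT (fun v : Place k => v.1) T, p ∣ a ↔ plv v a < 1 := by
  obtain ⟨p, hp0, hp⟩ := pid_val T fun w => if w = v then -1 else 0
  have hpO : p ∈ OT (fun v : Place k => v.1) T := pid_mem.2 fun w hw => by
    rw [hp w hw, ← WithZero.exp_zero, WithZero.exp_le_exp]
    split_ifs <;> omega
  have h0 : (⟨p, hpO⟩ : OT (fun v : Place k => v.1) T) ≠ 0 := fun e => hp0 (congrArg Subtype.val e)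
  have H : ∀ a : OT (fun v : Place k => v.1) T, ⟨p, hpO⟩ ∣ a ↔ plv v a < 1 := fun a => by
    rw [pid_dvd h0, lt_one_iff_le_exp]
    refine ⟨fun h => ?_, fun h w hw => ?_⟩
    · have h1 := h v hv
      rwa [hp v hv, if_pos rfl] at h1
    · show plv w a ≤ plv w p
      rw [hp w hw]
      split_ifs with e
      · exact e ▸ h
      · exact pid_mem.1 a.2 w hw
  refine ⟨⟨p, hpO⟩, ⟨h0, fun hu => ?_, fun a b hab => ?_⟩, H⟩
  · have h1 := (H 1).1 hu.dvd
    simp at h1
  · rw [H] at hab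
    rw [H, H]
    by_contra hc
    rw [not_or, not_lt, not_lt] at hc
    rw [Subring.coe_mul, map_mul] at hab
    exact absurd hab (not_lt.2 (one_le_mul hc.1 hc.2))

theorem pid_prime' (T : Finset (Place k)) (p : OT (fun v : Place k => v.1) T) (hp : Prime p) :
    ∃ v ∈ T, ∀ a : OT (fun v : Place k => v.1) T, p ∣ a ↔ plv v a < 1 := by
  have h : ∃ v ∈ T, plv v (p : k) < 1 := by
    by_contra hc
    refine hp.not_dvd_one ((pid_dvd hp.ne_zero).2 fun v hv => ?_)
    rw [OneMemClass.coe_one, map_one]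
    exact not_lt.1 fun h => hc ⟨v, hv, h⟩
  obtain ⟨v, hv, h⟩ := h
  obtain ⟨q, hq, H⟩ := pid_prime T v hv
  have h1 : Associated q p := hq.irreducible.associated_of_dvd hp.irreducible ((H p).2 h)
  exact ⟨v, hv, fun a => h1.dvd_iff_dvd_left.symm.trans (H a)⟩

/-- the semi-local ring is a principal ideal domain whose primes are the places of `T` -/
theorem ot_pid (T : Finset (Place k)) {π : k} (hπ : ∀ v ∈ T, plv v π = WithZero.exp (-1)) :
    IsPrincipalIdealRing (OT (fun v : Place k => v.1) T) ∧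
    IsFractionRing (OT (fun v : Place k => v.1) T) k ∧
    {I : Ideal (OT (fun v : Place k => v.1) T) | I.IsMaximal}.Finite ∧
    (∀ p : OT (fun v : Place k => v.1) T, Prime p → ∃ v ∈ T,
      ∀ a : OT (fun v : Place k => v.1) T, p ∣ a ↔ plv v a < 1) ∧
    (∀ v ∈ T, ∃ p : OT (fun v : Place k => v.1) T, Prime p ∧
      ∀ a : OT (fun v : Place k => v.1) T, p ∣ a ↔ plv v a < 1) ∧
    ∀ v ∈ T, ∀ x : k, plv v x ≤ 1 → ∃ t a : OT (fun v : Place k => v.1) T,
      plv v t = 1 ∧ x * t = a := by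
  have _ := hπ
  have hP := pid_pid T
  refine ⟨hP, ?_, ?_, pid_prime' T, pid_prime T, fun v hv x hx => ?_⟩
  · refine IsFractionRing.of_field _ _ fun z => ?_
    obtain ⟨t, a, ht, e, -⟩ := pid_den T z
    exact ⟨a, t, (eq_div_iff ht).2 e⟩
  · choose! P hP1 hP2 using pid_prime T
    refine ((T.finite_toSet.image fun v => Ideal.span {P v}).insert ⊥).subset fun I hI => ?_
    obtain ⟨a, rfl⟩ := (hP.principal I).principal
    rcases eq_or_ne a 0 with rfl | ha
    · exact Or.inl (by simp)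
    obtain ⟨v, hv, H⟩ := pid_prime' T a
      ((Ideal.span_singleton_prime ha).1 (Ideal.IsMaximal.isPrime hI))
    refine Or.inr ⟨v, hv, Ideal.ext fun b => ?_⟩
    exact Ideal.mem_span_singleton.trans (((hP2 v hv b).trans (H b).symm).trans
      Ideal.mem_span_singleton.symm)
  · obtain ⟨t, a, -, e, h⟩ := pid_den T x
    exact ⟨t, a, h v hv hx, e⟩

/-- the integral closure of a semi-local principal ideal domain -/
theorem ot_ext {O k₂ : Type} [CommRing O] [IsDomain O] [IsPrincipalIdealRing O] [Algebra O k]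
    [IsFractionRing O k] (hf : {I : Ideal O | I.IsMaximal}.Finite) [Field k₂] [Algebra k k₂]
    [FiniteDimensional k k₂] [Algebra.IsSeparable k k₂] [Algebra O k₂] [IsScalarTower O k k₂] :
    IsPrincipalIdealRing (integralClosure O k₂) ∧ IsFractionRing (integralClosure O k₂) k₂ := by
  have := integralClosure.isDedekindDomain O k k₂
  have : Module.Finite O (integralClosure O k₂) := IsIntegralClosure.finite O k k₂ _
  refine ⟨IsPrincipalIdealRing.of_finite_maximals ?_,
    integralClosure.isFractionRing_of_finite_extension k k₂⟩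
  refine (hf.biUnion fun I _ => Algebra.QuasiFinite.finite_primesOver
    (S := integralClosure O k₂) I).subset fun P hP => ?_
  have : P.IsMaximal := hP
  exact Set.mem_biUnion (x := P.under O) (Ideal.isMaximal_comap_of_isIntegral_of_isMaximal P)
    ⟨inferInstance, ⟨rfl⟩⟩

end Pool.Agent.ZCy.F
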