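import Pool.Agent.Lib.MP_879916_ag.SS.KMain
import Pool.Agent.Lib.MP_879916_ag.SS.K2
import Pool.Agent.Lib.MP_879916_ag.SS.Pid
import Pool.Agent.Lib.MP_879916_ag.SS.Model
import Pool.Agent.Lib.MP_72c364_ag.ZQ.All

/-! Theorem K on a surface of the pencil. -/

namespace Pool.Agent.ZCy.F.Kp

open Pool.Agent.ZFy Pool.Agent.ZFy.GM Pool.Agent.ZFN
open scoped Classical WithZero IntermediateField
open Polynomial groupCohomology

theorem tw_of {O k ι : Type} [CommRing O] [IsDomain O] [Field k] [Algebra O k]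
    [IsFractionRing O k] {e e' : MP ι k →+* MP ι k} (h1 : ∀ p, e (e' p) = p)
    (h2 : ∀ p, e' (e p) = p) (hC : ∀ a, e (MvPolynomial.C a) = MvPolynomial.C a) :
    Tw (e.comp (MvPolynomial.map (algebraMap O k))) := by
  let _ := MvPolynomial.algebraMvPolynomial (σ := ι) (R := O) (S := k)
  refine ⟨fun a => by rw [RingHom.comp_apply, MvPolynomial.map_C, hC],
    (Function.LeftInverse.injective h2).comp
      (MvPolynomial.map_injective _ (IsFractionRing.injective O k)), fun a => ?_⟩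
  obtain ⟨⟨p, _, s, hs, rfl⟩, h⟩ :=
    IsLocalization.surj ((nonZeroDivisors O).map (MvPolynomial.C (σ := ι))) (e' a)
  refine ⟨s, p, nonZeroDivisors.ne_zero hs, ?_⟩
  have h3 : e' a * MvPolynomial.map (algebraMap O k) (MvPolynomial.C s) =
    MvPolynomial.map (algebraMap O k) p := h
  rw [RingHom.comp_apply, ← h3, map_mul, h1, MvPolynomial.map_C, hC]

theorem tw_ub0 {O k ι : Type} [CommRing O] [IsDomain O] [Field k] [Algebra O k]
    [IsFractionRing O k] {a : k} (ha : a ≠ 0) :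
    Tw ((ub0 a⁻¹ : MP ι k →+* MP ι k).comp (MvPolynomial.map (algebraMap O k))) :=
  tw_of (e' := ub0 a) (fun p => by rw [ub0_ub0, inv_mul_cancel₀ ha, ub0_one])
    (fun p => by rw [ub0_ub0, mul_inv_cancel₀ ha, ub0_one]) (ub0_C _)

theorem tw_ub {O k ι : Type} [CommRing O] [IsDomain O] [Field k] [Algebra O k]
    [IsFractionRing O k] {a : k} (ha : a ≠ 0) :
    Tw ((ub a⁻¹ : MP (Option ι) k →+* MP (Option ι) k).comp (MvPolynomial.map (algebraMap O k))) :=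
  tw_of (e' := ub a) (fun p => by rw [ub_ub, inv_mul_cancel₀ ha, ub_one])
    (fun p => by rw [ub_ub, mul_inv_cancel₀ ha, ub_one]) (ub_C _)

/-- the field of constants is unramified -/
theorem ks_unr {O k k₂ : Type} [CommRing O] [IsDomain O] [Field k] [Algebra O k] [Field k₂] [Algebra k k₂]
    {f : O[X]} (hm : f.Monic) (hs : f.Separable) (hu : ∀ m : ℕ, (m : k) ≠ 0 → IsUnit (m : O))
    (h : ∀ g : k₂ ≃ₐ[k] k₂, (∀ x, aeval x (f.map (algebraMap O k)) = 0 → g x = x) →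
      (∀ (x : k₂) (m : ℕ), (m : k) ≠ 0 → x ^ m = 1 → g x = x) → g = 1) (p : O) (hp : Prime p)
    (w : Vl k₂) (hw : Cen (toF O k k₂) w p) : Ine k w = ⊥ := by
  obtain ⟨a, b, hb⟩ := hs
  refine eq_bot_iff.2 fun g hg => Subgroup.mem_bot.2 (h g (fun x hx => ?_) fun x m hm hx => ?_)
  · refine Cen.root_fix (α := algebraMap O k) (Θ := 1) (n := 1) (a := a) (b := b) hm
      (by rw [one_pow, C_1, hb]) hw hp hp.not_dvd_one hg ?_
    rw [← eval₂_map]
    exact hx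
  · exact kz_root (pwra_nat hp.irreducible hw (hu m hm))
      ((map_pow g x m).symm.trans (by rw [hx, map_one])) hx (hg.2 x ((pow_le_one_iff (n := m)
        (by rintro rfl; exact hm Nat.cast_zero)).1 (by rw [← map_pow, hx, map_one])))

theorem k9s : K9s := by
  intro k _ F₀ _ _ _ _ X hX 𝒯 c c' Φ L L' Y c'' hG _ hS π hπ T TH FY _ _ _ _ _ _ _ _ _ w ρ θ γ l hF
    hl hl0 hs hZ hρ hρ' hu hζ₀ hs₀ hT α hα ⟨n, hn⟩ hB
  have : Infinite k := .of_injective _
    ((algebraMap (RatFunc F₀) k).injective.comp (RatFunc.algebraMap_injective F₀))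
  obtain ⟨o1, o2, o3, o4, o5, o6⟩ := ot_pid 𝒯 hπ
  obtain ⟨GG, c₀, Φ₀, m1, m2, m3, m4, m5⟩ := hS.model hG fun i j =>
    ⟨mem_OT.2 fun v hv => (hS.int v hv i j).1, mem_OT.2 fun v hv => (hS.int v hv i j).2⟩
  have o7 : ∀ v ∈ 𝒯, ∀ a : OT (fun v : Place k => v.1) 𝒯, plv v a ≤ 1 := fun v hv a =>
    (plv_le v a).2 (mem_OT.1 a.2 v hv)
  obtain ⟨π₀, p0, p1⟩ : ∃ π₀ : OT (fun v : Place k => v.1) 𝒯, (π₀ : k) ≠ 0 ∧
      ∀ v ∈ 𝒯, π = π₀ := by
    rcases 𝒯.eq_empty_or_nonempty with h | ⟨v, hv⟩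
    · exact ⟨1, one_ne_zero, fun v hv => absurd (h ▸ hv) (Finset.notMem_empty v)⟩
    · refine ⟨⟨π, mem_OT.2 fun v hv => (plv_le v π).1 ((hπ v hv).trans_le ?_)⟩, fun h => ?_,
        fun _ _ => rfl⟩
      · exact WithZero.exp_le_exp.2 (by norm_num : (-1 : ℤ) ≤ 0)
      · have := hπ v hv
        rw [show π = 0 from h, map_zero] at this
        exact WithZero.exp_ne_zero this.symm
  generalize OT (fun v : Place k => v.1) 𝒯 = O at *
  have hU : ∀ m : ℕ, (m : k) ≠ 0 → IsUnit (m : O) := fun m =>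
    tfma_unit ((algebraMap (RatFunc F₀) k).comp RatFunc.C) O
  obtain ⟨q, hq⟩ := exists_isBl π₀ c₀.toPChart
  have hi := (chfp_thm k X 3 hX k _ c' rfl).1
  have hi'' := (chfp_thm k Y.var 2 hS.nice k _ c'' rfl).1
  have hE := ev_thm k Y.var 2 hS.nice one_le_two
  obtain ⟨M, _, _, _, z, j, b, hz, hz', hj, hb⟩ := lf_hk2 hE hF hi'' hα
  obtain ⟨k₂, _, _, _, _, e, ζ, r, hζ, he, hr, k1, k2⟩ := k2_ex F₀ (f := c''.top) c''.sep hz hz' b
    hl hl0 (c''.δ.factorization l + n)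
  obtain ⟨_, _⟩ := ot_ext (k := k) (k₂ := k₂) o3
  have h0 : hyp0 (aff 0 L Φ) ≠ 0 := fun h => by
    have := (m3.map O.subtype).ne_zero
    rw [← MvPolynomial.constantCoeff_map, m4, h, map_zero] at this
    exact this rfl
  obtain ⟨K₃, _, _, _, _, e₃, h₃, hW⟩ := kx_wf rgd hi (goodM c' lf_hom hS.sm) hS.hyp.p hi'' h0 hl
    hl0 hZ hρ
  have ht : c''.top = c₀.top.map (algebraMap O k) := by
    rw [PChart.top, PChart.top, m5.δ, m5.χ, Polynomial.map_sum]
    refine Finset.sum_congr rfl fun i _ => ?_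
    rw [Polynomial.map_monomial, coe_mapRingHom, coeff_map, MvPolynomial.coeff_map]
    rfl
  have gc : ∀ v ∈ 𝒯, ∀ p : O, (∀ a : O, p ∣ a ↔ plv v a < 1) → ∀ (N : Type) [Field N]
      (φ : MP (Option Unit) k →+* N) (W : Vl N), GauV (plv v) (φ.comp (bl π)) W ↔
      Cen (φ.comp ((ub (π₀ : k)⁻¹).comp (MvPolynomial.map (algebraMap O k)))) W
        (MvPolynomial.C p) := fun v hv p hp N _ φ W => by
    rw [gauV_cen (o7 v hv) hp (o6 v hv), bl_eq, p1 v hv]
    rfl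
  rw [← hS.hyp.p.brs] at hu ⊢
  obtain ⟨R, i, h1, h2, h3, h4⟩ := ks_main (O₂ := integralClosure O k₂) (K₃ := K₃) q_div
    c''.toPChart hi'' hF.ff hl (hU l hl0) (lf_hk1 hE hF hα) hj hb e
    (by rw [← map_nsmul, hn, map_zero]) he hr hζ hu (tw_ub0 p0) (tw_ub p0)
    (tw_ub0 ((_root_.map_ne_zero (algebraMap k k₂)).2 p0))
    (fun p => by rw [RingHom.comp_apply, tp_ub, tp_map, Polynomial.map_map])
    (fun p => by
      rw [RingHom.comp_apply, RingHom.comp_apply, map_ub0, map_inv₀, MvPolynomial.map_map,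
        MvPolynomial.map_map, ← IsScalarTower.algebraMap_eq, ← IsScalarTower.algebraMap_eq])
    q (Φ₀ := ub0 π₀ Φ₀) (by
      rw [hq.χ, m5.χ, Polynomial.map_map]
      refine congrArg (c₀.χ.map ·) (RingHom.ext fun p => ?_)
      rw [RingHom.comp_apply, RingHom.comp_apply, map_ub, ub_ub]
      exact (congrArg (ub · _) (inv_mul_cancel₀ p0)).trans (ub_one _))
    (by
      rw [RingHom.comp_apply, map_ub0, ub0_ub0, ← m4]
      exact (congrArg (ub0 · _) (inv_mul_cancel₀ p0)).trans (ub0_one _))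
    (hq.good (goodM c₀ m1 m2)) (by rwa [constantCoeff_ub0])
    (fun p hp W hW => (o4 p hp).elim fun v ⟨hv, h⟩ =>
      hB v hv FY θ γ hF π (hπ v hv) W ((gc v hv p h _ _ W).2 hW))
    (ks_unr (kx_tmon c₀.toPChart) c₀.sep hU (ht ▸ k1))
    (fun p hp W hW => (o4 p hp).elim fun v ⟨hv, h⟩ => hT v hv W ((gc v hv p h _ _ W).2 hW))
    k2 (hS.top ▸ hs₀) hζ₀ e₃ h₃ (by
      rw [hS.hyp.p.χ, Polynomial.map_map]
      exact kx_rspl hρ.cen.1 ρ hρ.base c'.monic hs) hW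
  refine ⟨R, h1, h2, ⟨w, (i : TH →+* R.E).comp ρ, ⟨hρ.cen, hρ.red.comp _, fun p y hy =>
    (congrArg i (hρ.base p y hy)).trans (i.commutes _)⟩, ?_⟩, fun v hv W hW =>
      (o5 v hv).elim fun p ⟨hp, h⟩ => h3 p hp W ((gc v hv p h _ _ W).1 hW)⟩
  rwa [RingHom.coe_comp, hρ'.range_comp]

end Pool.Agent.ZCy.F.Kp
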