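import Pool.Agent.Lib.MP_879916_ag.SS.ZDf
import Pool.Agent.Lib.MP_751085_ag.ZF.L.Rich
import Pool.Agent.Lib.MP_751085_ag.ZF.L.Lift
import Pool.Agent.Lib.MP_751085_ag.ZC.K.Val

/-! Adjoining constants. -/

namespace Pool.Agent.ZFy

open Pool.Agent.ZCy Pool.Agent.ZFN
open scoped Classical WithZero Polynomial

theorem zle_pow {L E : Type} [Field L] [Field E] [Algebra L E] {l : ℕ} {g : E ≃ₐ[L] E}
    (hg : ∀ x : E, x ^ l = 1 → g x = x) (s : ℕ) :
    ∀ x : E, x ^ l ^ s = 1 → (g ^ l ^ s) x = x := by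
  induction s with
  | zero => intro x hx; rw [pow_zero, pow_one] at hx; rw [hx, map_one]
  | succ s ih =>
    intro x hx
    rcases eq_or_ne x 0 with rfl | h0
    · exact map_zero _
    have h1 := ih (x ^ l) (by rw [← pow_mul, ← pow_succ', hx])
    have h2 : ((g ^ l ^ s) x / x) ^ l = 1 := by
      rw [div_pow, ← map_pow, h1, div_self (pow_ne_zero _ h0)]
    have h3 : (g ^ l ^ s) ((g ^ l ^ s) x / x) = (g ^ l ^ s) x / x :=
      pow_mem (show g ∈ fixS L {(g ^ l ^ s) x / x} from fun y hy => hy ▸ hg _ h2) _ _ rfl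
    have h4 : ∀ n : ℕ, ((g ^ l ^ s) ^ n) x = ((g ^ l ^ s) x / x) ^ n * x := fun n => by
      induction n with
      | zero => simp
      | succ n ih =>
        rw [pow_succ' (g ^ l ^ s), AlgEquiv.mul_apply, ih, map_mul, map_pow, h3, pow_succ,
          mul_assoc, div_mul_cancel₀ _ h0]
    rw [pow_succ, pow_mul, h4, h2, one_mul]

theorem zle_prim {T Ω : Type} [Field T] [Field Ω] {w : Vl T} {ρ : w.integer →+* Ω}
    (hρ : IsRed w ρ) {l : ℕ} (hl : l.Prime) (hw : w (l : T) = 1) {ζ : T}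
    (hζ : IsPrimitiveRoot ζ l) : ∃ y, IsPrimitiveRoot (ρ y) l := by
  have := Fact.mk hl
  let y : w.integer := ⟨ζ, (root_val hl.ne_zero hζ.pow_eq_one).le⟩
  have h1 : y ^ l = 1 := Subtype.ext hζ.pow_eq_one
  refine ⟨y, orderOf_eq_prime (x := ρ y) (by rw [← map_pow, h1, map_one]) (fun e => ?_) ▸
    IsPrimitiveRoot.orderOf _⟩
  exact hζ.ne_one hl.one_lt (kz_root hw hζ.pow_eq_one (one_pow _) ((hρ (y - 1)).1 (by
    rw [map_sub, e, map_one, sub_self])))

variable {k σ T E E' : Type} [Field k] [Fintype σ] [Field T] [Field E] [Field E']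

theorem LOverS.enl [Algebra (RF (Option (Option σ)) k) T] [Algebra (RF (Option σ) k) E]
    [Algebra (RF (Option σ) k) E'] [Normal (RF (Option σ) k) E] {l : ℕ} (h : LOverS k σ l T E)
    (hl : l.Prime) (hl0 : (l : k) ≠ 0) {ζ : T} (hζ : IsPrimitiveRoot ζ l)
    (j : E →ₐ[RF (Option σ) k] E') {s : ℕ}
    (hg : ∀ g : E' ≃ₐ[RF (Option σ) k] E', (∀ x, g (j x) = j x) →
      (∀ x, x ^ l ^ s = 1 → g x = x) → g = 1) : LOverS k σ l T E' := by
  obtain ⟨w, ρ, ⟨h1, h2, h3⟩, h4⟩ := h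
  obtain ⟨r, hr⟩ := exists_rs (K := RF (Option σ) k) (K' := RF (Option σ) k) (φ := RingHom.id _)
    (j := (j : E →+* E')) j.commutes
  refine ⟨w, (j : E →+* E').comp ρ, ⟨h1, h2.comp _, fun p y hy => ?_⟩, fun g => ?_⟩
  · rw [RingHom.comp_apply, h3 p y hy]
    exact j.commutes _
  obtain ⟨a, ha⟩ := h4 ⟨r g, fun x hx => j.injective ((hr g x).trans (g.2 _ (by
    obtain ⟨y, rfl⟩ := hx
    exact ⟨y, rfl⟩)))⟩
  obtain ⟨y, hy⟩ := zle_prim (h2.comp (j : E →+* E')) hl (nat_val h1.1 hl0) hζ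
  have := NeZero.mk hl.ne_zero
  have h6 : ∀ x : E', x ^ l = 1 → g.1 x = x := fun x hx => by
    obtain ⟨i, -, rfl⟩ := hy.eq_pow_of_pow_eq_one hx
    rw [map_pow, g.2 _ ⟨y, rfl⟩]
  have h5 : r (g.1 ^ l ^ a) = 1 := by
    rw [map_pow]
    exact congrArg Subtype.val ha
  refine ⟨a + s, Subtype.ext (hg _ (fun x => ?_) fun x hx => ?_)⟩
  · rw [SubmonoidClass.coe_pow, pow_add, pow_mul]
    exact pow_mem (show g.1 ^ l ^ a ∈ fixS (RF (Option σ) k) {j x} from fun y hy =>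
      hy ▸ (hr _ x).symm.trans (by rw [h5]; rfl)) _ _ rfl
  · rw [SubmonoidClass.coe_pow, add_comm, pow_add, pow_mul]
    exact pow_mem (show g.1 ^ l ^ s ∈ fixS (RF (Option σ) k) {x} from fun y hy =>
      hy ▸ zle_pow h6 s x hx) _ _ rfl

theorem UnG.enl {L ι : Type} [Field L] [Algebra L E] [Algebra L E'] [Normal L E] {u : Vl k}
    {α : MP ι k →+* L} (hC : ∀ n : ℕ, α (MvPolynomial.C n) = n) (h : UnG L u (tE E α))
    (j : E →ₐ[L] E') {m : ℕ} (hm : u m = 1)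
    (hg : ∀ g : E' ≃ₐ[L] E', (∀ x, g (j x) = j x) → (∀ x, x ^ m = 1 → g x = x) → g = 1) :
    UnG L u (tE E' α) := fun W hW => by
  obtain ⟨r, hr⟩ := exists_rs (K := L) (K' := L) (φ := RingHom.id _) (j := (j : E →+* E'))
    j.commutes
  have e : ∀ p, (W.comap (j : E →+* E')) (tE E α p) = W (tE E' α p) := fun p =>
    congrArg W (j.commutes _)
  have h1 := h (W.comap (j : E →+* E')) fun p hp => by rw [e]; exact hW p hp
  have h2 : ∀ n, u (MvPolynomial.coeff n (MvPolynomial.C (m : k) : MP ι k)) ≤ 1 := fun n => by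
    rw [MvPolynomial.coeff_C]
    split_ifs
    exacts [hm.le, by simp]
  have h3 : W (m : E') = 1 := by
    rw [← map_natCast (algebraMap L E'), ← hC]
    refine (hW _ h2).1.eq_of_not_lt fun h => ?_
    have := (hW _ h2).2.1 h 0
    rw [MvPolynomial.coeff_zero_C] at this
    exact this.ne hm
  refine eq_bot_iff.2 fun g hg' => Subgroup.mem_bot.2 (hg g (fun x => ?_) fun x => ine_fix hg' h3)
  have h4 := hr.ine (Over.comap _ W) hg'
  rw [h1, Subgroup.mem_bot] at h4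
  exact (hr g x).symm.trans (by rw [h4]; rfl)

/-- adjoining the roots of a separable polynomial over the constants -/
theorem zle_sep {ι : Type} [Algebra (RF ι k) T] [FiniteDimensional (RF ι k) T]
    [IsGalois (RF ι k) T] {Θ : MP ι k} (hu : UnrOff (RF ι k) (toE (MP ι k) T) Θ) {f : k[X]}
    (hm : f.Monic) (hs : f.Separable) :
    ∃ (N : Type) (_ : Field N) (_ : Algebra (RF ι k) N) (_ : FiniteDimensional (RF ι k) N)
      (_ : IsGalois (RF ι k) N) (_ : T →ₐ[RF ι k] N), UnrOff (RF ι k) (toE (MP ι k) N) Θ ∧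
      (f.map ((toE (MP ι k) N).comp MvPolynomial.C)).Splits := by
  obtain ⟨a, b, hb⟩ := hs.map (f := (MvPolynomial.C : k →+* MP ι k))
  obtain ⟨N, _, _, _, _, _, _, h1, h2, -⟩ := enl_genF (α := algebraMap (MP ι k) (RF ι k)) hu
    (hm.map _) (D := 1) (n := 0) (by simp) ((map_one _).trans hb.symm) (one_dvd _)
  exact ⟨N, _, _, ‹_›, ‹_›, IsScalarTower.toAlgHom _ T N, h1, by rwa [Polynomial.map_map] at h2⟩

end Pool.Agent.ZFy
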