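import Pool.Agent.Lib.MP_879916_ag.SS.ZDf
import Pool.Agent.Lib.MP_751085_ag.ZF.L.Zl
import Pool.Agent.Lib.MP_751085_ag.ZF.L.Lift

/-! The lifted cocycle for the surfaces of a pencil. -/

namespace Pool.Agent.ZFy

open Pool.Agent.ZCy Pool.Agent.ZFN
open scoped Classical WithZero Polynomial
open groupCohomology

set_option linter.unusedSectionVars false

variable {k σ : Type} [Field k] [Fintype σ]

/-- `l`-covers of the hyperplane `ξ_1 = 0` relative to `T` that are unramified along blow-ups lift -/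
def ZLatS (l : ℕ) (Θ : MP (Option (Option σ)) k) (T : Type) [Field T]
    [Algebra (RF (Option (Option σ)) k) T] (𝒯 : Finset (Place k)) : Prop :=
  ∀ (EH : Type) [Field EH] [Algebra (RF (Option σ) k) EH] [FiniteDimensional (RF (Option σ) k) EH]
    [IsGalois (RF (Option σ) k) EH], UnrOff (RF (Option σ) k) (toE (MP (Option σ) k) EH) (hyp Θ) →
    LOverS k σ l T EH → UB (RF (Option σ) k) 𝒯 (toE (MP (Option σ) k) EH) →
    ∃ (E : Type) (_ : Field E) (_ : Algebra (RF (Option (Option σ)) k) E)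
      (_ : FiniteDimensional (RF (Option (Option σ)) k) E)
      (_ : IsGalois (RF (Option (Option σ)) k) E) (_ : T →ₐ[RF (Option (Option σ)) k] E) (w : Vl E)
      (Ω : Type) (_ : Field Ω) (ρ : w.integer →+* Ω) (j : EH →+* Ω),
      UnrOff (RF (Option (Option σ)) k) (toE (MP (Option (Option σ)) k) E) Θ ∧
      Inert (RF (Option (Option σ)) k) (toE (MP (Option (Option σ)) k) E)
        (MvPolynomial.X (some none)) ∧ HRes (k := k) (σ := σ) w ρ j ∧ j.range ≤ ρ.range ∧
      (∀ (m : ℕ) (z : EH), (m : k) ≠ 0 → z ^ m = 1 →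
        ∃ y : w.integer, (y : E) ^ m = 1 ∧ ρ y = j z) ∧ DL Θ w

theorem zlatS_of {L T T' : Type} [Field L] [Field T] [Algebra L T] [Field T']
    [Algebra (RF (Option (Option σ)) k) T'] {α : MP (Option (Option σ)) k →+* L} (hα : IsFr α)
    {l : ℕ} {Θ : MP (Option (Option σ)) k} {𝒯 : Finset (Place k)} (h : ZLefS T l α Θ 𝒯)
    (e : T ≃+* T') (he : ∀ p, e (tE T α p) = toE _ T' p) : ZLatS l Θ T' 𝒯 := by
  rintro EH _ _ _ _ hU ⟨w', ρ', ⟨hc', hr', hb'⟩, hl⟩ hB
  have ho : Over (e : T →+* T') (w'.comap (e : T →+* T')) w' := fun _ => Iff.rfl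
  have hs : Set.range (ρ'.comp ho.int) = Set.range ρ' := by
    refine Set.Subset.antisymm (by rintro _ ⟨y, rfl⟩; exact ⟨_, rfl⟩) ?_
    rintro _ ⟨y, rfl⟩
    refine ⟨⟨e.symm y, ?_⟩, congrArg ρ' (Subtype.ext (e.apply_symm_apply _))⟩
    change w' (e (e.symm y)) ≤ 1
    rw [e.apply_symm_apply]
    exact y.2
  obtain ⟨E, _, _, _, _, ⟨Z⟩⟩ := h (RF (Option σ) k) EH (algebraMap _ _) _ (ρ'.comp ho.int)
    (isFr_alg _ _) hU ⟨hr'.comp_int ho, fun p => ⟨by
      change w' (e _) ≤ 1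
      rw [he]
      exact hc'.1 p, hb' p _ (he p)⟩⟩ (hs ▸ hl) hB
  have hβ := isFr_alg (MP (Option (Option σ)) k) (RF (Option (Option σ)) k)
  obtain ⟨ψ, hψ⟩ := zl_equiv hβ hα
  let : Algebra (RF (Option (Option σ)) k) E := ((algebraMap L E).comp (ψ : _ →+* L)).toAlgebra
  have hcm : (algebraMap (RF (Option (Option σ)) k) E).comp (ψ.symm : L →+* _) =
      ((RingEquiv.refl E : E ≃+* E) : E →+* E).comp (algebraMap L E) :=
    RingHom.ext fun a => congrArg (algebraMap L E) (ψ.apply_symm_apply a)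
  have : FiniteDimensional (RF (Option (Option σ)) k) E :=
    Module.Finite.of_equiv_equiv ψ.symm (RingEquiv.refl E) hcm
  have : IsGalois (RF (Option (Option σ)) k) E := IsGalois.of_equiv_equiv hcm
  have hE : toE (MP (Option (Option σ)) k) E = tE E α :=
    RingHom.ext fun p => congrArg (algebraMap L E) (hψ p)
  let s : (E ≃ₐ[RF (Option (Option σ)) k] E) → E ≃ₐ[L] E := fun g =>
    { g with commutes' := fun a => by
              obtain ⟨b, rfl⟩ := ψ.surjective a
              exact g.commutes b }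
  have hjp : ∀ p, Z.j (tE T α p) = toE _ E p := fun p => by
    rw [hE]
    exact Z.hj _
  have hw1 : ∀ p, Z.w (toE _ E p) ≤ 1 := fun p => by
    rw [← hjp]
    refine (Z.ov _).2 ?_
    change w' (e _) ≤ 1
    rw [he]
    exact hc'.1 p
  have hb : ∀ (p : MP (Option (Option σ)) k) (y : Z.w.integer), (y : E) = toE _ E p →
      Z.ρ y = toE (MP (Option σ) k) EH (hyp p) := fun p y hy => by
    have h1 : (w'.comap (e : T →+* T')) (tE T α p) ≤ 1 := by
      change w' (e _) ≤ 1
      rw [he]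
      exact hc'.1 p
    rw [show y = Z.ov.int ⟨_, h1⟩ from Subtype.ext (hy.trans (hjp p).symm), Z.hρ]
    exact hb' p _ (he p)
  have hinj : Function.Injective (toE (MP (Option σ) k) EH) :=
    (algebraMap (RF (Option σ) k) EH).injective.comp (IsFractionRing.injective (MP (Option σ) k) _)
  have hc : Cen (toE (MP (Option (Option σ)) k) E) Z.w (MvPolynomial.X (some none)) :=
    ⟨hw1, fun p => by
      rw [← Z.red ⟨_, hw1 p⟩, hb p _ rfl, map_eq_zero_iff _ hinj, hyp_eq_zero]⟩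
  have hi : ∀ a, Z.j (e.symm (algebraMap (RF (Option (Option σ)) k) T' a)) = algebraMap _ E a :=
    fun a => DFunLike.congr_fun (hβ.hom_ext
      (φ := (Z.j.comp (e.symm : T' →+* T)).comp (algebraMap _ T')) (φ' := algebraMap _ E) fun p => by
        change Z.j (e.symm (toE _ T' p)) = toE _ E p
        rw [← he, e.symm_apply_apply, hjp]) a
  refine ⟨E, inferInstance, inferInstance, inferInstance, inferInstance,
    { Z.j.comp (e.symm : T' →+* T) with commutes' := hi }, Z.w, EH, inferInstance, Z.ρ,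
    RingHom.id EH, fun P w hP hd hw => ?_, fun w hw => ?_, ⟨hc, Z.red, hb⟩,
    fun z _ => Z.surj z, fun m z hm hz => ?_, fun P W hP hd hW => ?_⟩
  · refine (Subgroup.eq_bot_iff_forall _).2 fun g hg => AlgEquiv.ext fun x => ?_
    exact DFunLike.congr_fun ((Subgroup.eq_bot_iff_forall _).1 (Z.unr P w hP hd (hE ▸ hw)) (s g)
      ⟨hg.1, hg.2⟩) x
  · obtain ⟨g, hg⟩ := lv_conj (K := RF (Option (Option σ)) k) (w := Z.w) (w' := w)
      (Cen.iff hβ MvPolynomial.X_prime (v := Z.w.comap (algebraMap (RF (Option (Option σ)) k) E))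
        (v' := w.comap (algebraMap (RF (Option (Option σ)) k) E)) ⟨hc.1, hc.2⟩ ⟨hw.1, hw.2⟩)
    refine dec_top_of_conj hg (eq_top_iff.2 fun g _ => ?_)
    exact (Z.dec.ge (Subgroup.mem_top (s g)) :)
  · have hm0 : m ≠ 0 := fun u => hm (by rw [u, Nat.cast_zero])
    obtain ⟨y, ⟨p, hp, hp'⟩, hy⟩ := Z.cst z ⟨Polynomial.X ^ m - Polynomial.C 1,
      Polynomial.monic_X_pow_sub_C 1 hm0, by simp [hz]⟩
    refine ⟨y, ?_, hy⟩
    by_contra h0
    let : Algebra k E := ((tE E α).comp MvPolynomial.C).toAlgebra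
    have ht : Triv (algebraMap k E) Z.w := fun a ha => by
      change Z.w (tE E α (MvPolynomial.C a)) = 1
      rw [← hE, hc.eq_one]
      exact fun u => MvPolynomial.X_prime.not_isUnit
        (isUnit_of_dvd_unit u (ha.isUnit.map MvPolynomial.C))
    have hi : IsIntegral k (y : E) := ⟨p, hp, hp'⟩
    have h1 := ht.eq_one (sub_ne_zero.2 h0) ((hi.pow m).sub isIntegral_one).isAlgebraic
    have h2 := (Z.red (y ^ m - 1)).1 (by rw [map_sub, map_pow, hy, hz, map_one, sub_self])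
    exact h2.ne h1
  · obtain ⟨Q, -, hQ, h1, h2⟩ := Z.dl P W hP hd (hE ▸ hW)
    refine ⟨EH, inferInstance, Z.ρ, Q, Z.red, fun a y ha hy => ?_, fun g hg y y' hy => ?_,
      fun n hn y y' hy hy1 => ?_⟩
    · rw [hb _ y hy, show hyp (MvPolynomial.C a : MP (Option (Option σ)) k) = MvPolynomial.C a from
        MvPolynomial.eval₂Hom_C _ _ _]
      exact hQ a ha
    · rw [Z.act (s g) y y' hy]
      exact h1 (s g) hg _
    · rw [Z.act (s n) y y' hy]
      exact (h2 (s n) ⟨hn.1, hn.2⟩).2 _ hy1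

theorem zlatS_tw {T T' : Type} [Field T] [Algebra (RF (Option (Option σ)) k) T] [Field T']
    [Algebra (RF (Option (Option σ)) k) T'] {l : ℕ} {Θ : MP (Option (Option σ)) k}
    {𝒯 : Finset (Place k)} {a : Option σ → k}
    (h : ZHypS T l (algebraMap _ (RF (Option (Option σ)) k)) Θ 𝒯 a)
    {L L' : Matrix (Option σ) (Option σ) k} (hL : MInv L L') (ha : L' none = a)
    (hi : ∀ v ∈ 𝒯, ∀ i j, L i j ∈ v.1) (hT : Tw L T T') : ZLatS l (aff 0 (extM L) Θ) T' 𝒯 := by
  obtain ⟨e, he⟩ := hT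
  have h1 : L * L' = 1 := Matrix.ext fun i j => (congrFun (congrFun hL i) j).trans (by
    by_cases u : i = j <;> simp [Matrix.one_apply, u])
  have h2 := (isFr_alg (MP (Option (Option σ)) k) (RF (Option (Option σ)) k)).comp_equiv hL.eqv
  exact zlatS_of h2 (h L L' h1 ha hi) e fun p => (he _).trans (congrArg _ (hL.symm.aff p))

variable {Θ : MP (Option (Option σ)) k} {F' : Type} [Field F']
  [Algebra (RF (Option (Option σ)) k) F'] {FY : Type} [Field FY] [Algebra (RF (Option σ) k) FY]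

theorem exists_liftFS {l : ℕ} {T : Type} [Field T] [Algebra (RF (Option (Option σ)) k) T]
    {𝒯 : Finset (Place k)} (hZ : ZLatS l Θ T 𝒯) {c : PChart k (Option σ)} {c' : PChart k σ}
    (hh : c.IsHyp c') (hG : c.GI)
    (hT : (c.χ.map (toE (MP (Option (Option σ)) k) T)).Splits) {θ : F'} (hF : c.FF F' θ) {θY : FY}
    (hF' : c'.FF FY θY) (R' : MuC (hyp Θ) FY) (hL : LOverS k σ l T R'.E)
    (hB : UB (RF (Option σ) k) 𝒯 (toE (MP (Option σ) k) R'.E)) :
    ∃ R : MuC Θ F', Nonempty (LiftF θ θY R' R) := by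
  have hto : ∀ p, toE (MP (Option σ) k) R'.E p = algebraMap FY R'.E (toE _ FY p) := fun p =>
    IsScalarTower.algebraMap_apply _ FY _ _
  have hθ : c'.χ.eval₂ (toE (MP (Option σ) k) R'.E) (algebraMap FY R'.E θY) = 0 := by
    rw [show toE (MP (Option σ) k) R'.E = (algebraMap FY R'.E).comp (toE _ FY) from
      RingHom.ext hto, ← Polynomial.hom_eval₂, hF'.1, map_zero]
  obtain ⟨E, _, _, _, _, i, w, Ω, _, ρ, j, hU, hin, ⟨hc, hr, hb⟩, hj, hro, hdl⟩ :=
    hZ R'.E R'.unr hL hB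
  let φ : MP (Option (Option σ)) k →+* w.integer := (toE _ E).codRestrict w.integer hc.1
  have hφ : ρ.comp φ = j.comp ((toE (MP (Option σ) k) R'.E).comp hyp) :=
    RingHom.ext fun p => hb p _ rfl
  have hS : (c.χ.map (w.integer.subtype.comp φ)).Splits := by
    have := hT.map (i : T →+* E)
    rwa [Polynomial.map_map, ← RingHom.comp_assoc, i.comp_algebraMap] at this
  obtain ⟨y₀, hy₀, hyθ⟩ := IsRed.root_lift (ρ := ρ) φ c.monic hS
    (z := j (algebraMap FY R'.E θY)) (by
      rw [hφ, ← Polynomial.hom_eval₂, ← Polynomial.eval₂_map, ← hh.χ, hθ, map_zero])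
  obtain ⟨γ, hγ, hγθ⟩ := hF.lift hG (toE_inj E) (η := (y₀ : E)) (by
    have := congrArg w.integer.subtype hy₀
    rwa [Polynomial.hom_eval₂, map_zero] at this)
  let : Algebra F' E := γ.toAlgebra
  have : IsScalarTower (RF (Option (Option σ)) k) F' E := IsScalarTower.of_algebraMap_eq'
    (IsLocalization.ringHom_ext (nonZeroDivisors (MP (Option (Option σ)) k))
      (RingHom.ext fun p => (hγ p).symm))
  have hth : ∃ y : w.integer, (y : E) = algebraMap F' E θ ∧ ρ y = j (algebraMap FY R'.E θY) :=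
    ⟨y₀, hγθ.symm, hyθ⟩
  replace hro := fun z => hro R'.m z R'.hm
  have hg : ∀ (g : E ≃ₐ[F'] E) x, w (g x) = w x := fun g =>
    (hin w hc).ge (Subgroup.mem_top (g.restrictScalars _))
  have := IsGalois.tower_top_of_isGalois (RF (Option σ) k) FY R'.E
  have key : ∀ g : E ≃ₐ[F'] E, ∃ π : R'.E ≃ₐ[FY] R'.E, ∀ (y : w.integer) z, ρ y = j z →
      ρ (lift_act g (hg g) y) = j (π z) := fun g => by
    obtain ⟨j', hj'⟩ := hr.transfer (ρ' := ρ.comp (lift_act g (hg g)))
      (fun y => (hr _).trans (by rw [← hg g y]; rfl)) hj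
    have fx : ∀ (y : w.integer) (a : F') z, (y : E) = algebraMap F' E a → ρ y = j z →
        j' z = j z := fun y a z e e' => by
      rw [← hj' y z e', ← e']
      refine congrArg ρ (Subtype.ext ?_)
      change g y = y
      rw [e, g.commutes]
    obtain ⟨π, hπ⟩ := lift_norm (F := FY) j j' (hF'.ext (fun p => by
      obtain ⟨q, rfl⟩ := lz_hyp_surj p
      exact fx ⟨_, hc.1 q⟩ (toE _ F' q) _ (IsScalarTower.algebraMap_apply _ F' _ _)
        ((hb q _ rfl).trans (congrArg j (hto _))))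
      (by
        obtain ⟨y, e, e'⟩ := hth
        exact fx y θ _ e e'))
    exact ⟨π, fun y z e => (hj' y z e).trans (hπ z).symm⟩
  choose π hπ using key
  have hmul : ∀ g g', π (g * g') = π g * π g' := fun g g' => AlgEquiv.ext fun z => by
    obtain ⟨y, e⟩ := hj ⟨z, rfl⟩
    exact j.injective ((hπ _ y z e).symm.trans (hπ g _ _ (hπ g' y z e)))
  choose y hy hy' using fun p : (E ≃ₐ[F'] E) × (E ≃ₐ[F'] E) => hro (R'.c (π p.1, π p.2))
    (by rw [← Units.val_pow_eq_pow_val, R'.pow, Units.val_one])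
  have h0 : ∀ p, (y p : E) ≠ 0 := fun p e => by
    have := hy p
    rw [e, zero_pow R'.m_ne] at this
    exact zero_ne_one this
  have hm : w (R'.m : E) = 1 := nat_val hc.1 R'.hm
  have hco : IsMulCocycle₂ fun p => Units.mk0 (y p : E) (h0 p) := fun a b d => by
    have := hr.root_inj hm (y := y (a * b, d) * y (a, b))
      (y' := lift_act a (hg a) (y (b, d)) * y (a, b * d))
      (by rw [Subring.coe_mul, mul_pow, hy, hy, mul_one])
      (by
        change (a (y (b, d)) * _) ^ _ = _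
        rw [mul_pow, ← map_pow, hy, hy, map_one, mul_one])
      (by
        rw [map_mul, map_mul, hπ a _ _ (hy' _), hy', hy', hy', ← map_mul, ← map_mul, hmul, hmul]
        exact congrArg (fun u : R'.Eˣ => j u) (R'.coc (π a) (π b) (π d)))
    exact Units.ext (congrArg Subtype.val this)
  exact ⟨⟨E, R'.m, _, R'.hm, hU, hco, fun p => Units.ext (hy p)⟩,
    ⟨⟨w, Ω, ρ, j, MonoidHom.mk' π hmul, hc, hin, hr, hj, hb, hth,
      fun g y z e => ⟨_, rfl, hπ g y z e⟩, rfl, fun p => ⟨y p, rfl, hy' p⟩, hro, hdl⟩⟩⟩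

end Pool.Agent.ZFy
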