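import Pool.Agent.Lib.MP_879916_ag.SS.ZLCert
import Pool.Agent.Lib.MP_879916_ag.SS.ZLLat
import Pool.Agent.Lib.MP_879916_ag.SS.ZLEnl
import Pool.Agent.Lib.MP_72c364_ag.ZQ.All

/-! The Lefschetz property for the surfaces of a pencil. -/

namespace Pool.Agent.ZCy.F

open Pool.Agent.ZFy Pool.Agent.ZFN
open scoped Classical WithZero Polynomial
open groupCohomology

variable {k : Type} [Field k] (F₀ : Type) [Field F₀] [Finite F₀] [Algebra (RatFunc F₀) k]
  [FiniteDimensional (RatFunc F₀) k] {X : Var k}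

theorem lf_enl {E E' : Type} [Field E] [Field E'] [Algebra (RF (Option Unit) k) E]
    [Algebra (RF (Option Unit) k) E'] [Normal (RF (Option Unit) k) E] {u : Vl k} {π : k}
    (h : UnG (RF (Option Unit) k) u ((toE (MP (Option Unit) k) E).comp (bl π)))
    (j : E →ₐ[RF (Option Unit) k] E') {m : ℕ} (hm : u m = 1)
    (hg : ∀ g : E' ≃ₐ[RF (Option Unit) k] E', (∀ x, g (j x) = j x) → (∀ x, x ^ m = 1 → g x = x) →
      g = 1) : UnG (RF (Option Unit) k) u ((toE (MP (Option Unit) k) E').comp (bl π)) := by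
  rw [toE, RingHom.comp_assoc] at h ⊢
  exact UnG.enl (fun n => by rw [map_natCast, map_natCast]) h j hm hg

theorem lf_hyc (p : MP (Option (Option Unit)) k) :
    MvPolynomial.constantCoeff (hyp p) = MvPolynomial.constantCoeff p :=
  RingHom.congr_fun (f := MvPolynomial.constantCoeff.comp hyp)
    (MvPolynomial.ringHom_ext (fun a => by simp [hyp]) fun i => by
      rcases i with _ | _ | i <;> simp [hyp]) p

theorem lf_hres {T TH : Type} [Field T] [Field TH] [Algebra (RF (Option (Option Unit)) k) T]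
    [FiniteDimensional (RF (Option (Option Unit)) k) T] [IsGalois (RF (Option (Option Unit)) k) T]
    [Algebra (RF (Option Unit) k) TH] {w : Vl T} {ρ : w.integer →+* TH}
    (r4 : HRes (k := k) (σ := Unit) w ρ (RingHom.id TH)) (r2 : Function.Surjective ρ)
    {Θ : MP (Option (Option Unit)) k} (hΘ : hyp Θ ≠ 0) {u : Vl k}
    (hc : CertV u (toE (MP (Option (Option Unit)) k) T) Θ ∧ CfI u Θ ∧
      u (MvPolynomial.constantCoeff Θ) = 1) {π : k} (π0 : π ≠ 0) (π1 : u π ≤ 1) :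
    UnG (RF (Option Unit) k) u ((toE (MP (Option Unit) k) TH).comp (bl π)) :=
  cert_ung (α := algebraMap (MP (Option Unit) k) (RF (Option Unit) k)) (cert_res r4 r2 hΘ hc.1)
    (zlc_hyp hc.2.1) ((congrArg _ (lf_hyc _)).trans hc.2.2) π0 π1

theorem lf_hspl {T TH : Type} [Field T] [Field TH] [Algebra (RF (Option (Option Unit)) k) T]
    [Algebra (RF (Option Unit) k) TH] {w : Vl T} {ρ : w.integer →+* TH}
    (r4 : HRes (k := k) (σ := Unit) w ρ (RingHom.id TH)) {χ : k[X]} (hm : χ.Monic)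
    (ht : (χ.map ((toE (MP (Option (Option Unit)) k) T).comp MvPolynomial.C)).Splits) :
    (χ.map ((toE (MP (Option Unit) k) TH).comp MvPolynomial.C)).Splits :=
  Kp.kx_rspl (φ := (toE (MP (Option (Option Unit)) k) T).comp MvPolynomial.C)
    (fun a => r4.cen.1 _) ρ (fun a y hy => by
      rw [r4.base (MvPolynomial.C a) y hy, hyp, MvPolynomial.eval₂Hom_C]; rfl) hm ht

include F₀

omit [FiniteDimensional (RatFunc F₀) k] in
theorem lf_m1 (v : Place k) (m : ℕ) (hm : (m : k) ≠ 0) : plv v m = 1 := by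
  obtain ⟨y, hy⟩ := (tfma_unit ((algebraMap (RatFunc F₀) k).comp RatFunc.C)
    (plv v).integer hm).exists_right_inv
  have e := congrArg (fun z : (plv v).integer => plv v z) hy
  simp only [Subring.coe_mul, Subring.coe_natCast, map_mul, Subring.coe_one, map_one] at e
  exact (natCast_mem (plv v).integer m :).antisymm (e.ge.trans (mul_le_of_le_one_right' y.2))

theorem lf_lefS (h9 : K9s) (hX : X.Nice 3) {𝒯 : Finset (Place k)}
    {c c' : Chart k (Option Unit) X.N (X.IK k)} {Φ : MP (Option Unit) k}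
    {L L' : Matrix (Option Unit) (Option Unit) k} {Y : Gen k X.N}
    {c'' : Chart k Unit X.N (Y.var.IK k)} (hS : SecS X 𝒯 c c' Φ L L' Y c'')
    (hV : X.GoodV c Φ (OT (fun v : Place k => v.1) 𝒯)) (h1 : MvPolynomial.constantCoeff Φ ≠ 0)
    (h0 : MvPolynomial.constantCoeff (c'.brs (aff 0 L Φ)) ≠ 0) {l : ℕ} (hl : l.Prime)
    (hl0 : (l : k) ≠ 0) {T : Type} [Field T] [Algebra (RF (Option (Option Unit)) k) T]
    [FiniteDimensional (RF (Option (Option Unit)) k) T] [IsGalois (RF (Option (Option Unit)) k) T]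
    (hU : UnrOff (RF (Option (Option Unit)) k) (toE (MP (Option (Option Unit)) k) T)
      (c'.brs (aff 0 L Φ)))
    (hT : (c'.χ.map (toE (MP (Option (Option Unit)) k) T)).Splits)
    (hz : KZ l c'.toPChart (aff 0 L Φ) T) {ζ : T} (hζ : IsPrimitiveRoot ζ l)
    (ht : (c.top.map ((toE (MP (Option (Option Unit)) k) T).comp MvPolynomial.C)).Splits)
    (hc : ∀ v ∈ 𝒯, CertV (plv v) (toE (MP (Option (Option Unit)) k) T) (c'.brs (aff 0 L Φ)) ∧
      CfI (plv v) (c'.brs (aff 0 L Φ)) ∧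
      plv v (MvPolynomial.constantCoeff (c'.brs (aff 0 L Φ))) = 1)
    (hZ : ZLatS l (c'.brs (aff 0 L Φ)) T 𝒯) {a : BR Y.F} (ha : a ∈ Y.var.Bw) (hp : Prim l a)
    (hB : ∀ v ∈ 𝒯, BUn c'' v a) : ∃ b, X.Mt Y a b ∧ Prim l b := by
  have : Infinite k := .of_injective _
    ((algebraMap (RatFunc F₀) k).injective.comp (RatFunc.algebraMap_injective F₀))
  have hσ' : Fintype.card (Option Unit) + 1 = 3 := rfl
  have hh := hS.hyp
  obtain ⟨hG, F', _, _, _, θ, γ, hF⟩ := lf_fld chfp_thm hX c' hσ'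
  obtain ⟨hG', FY, _, _, _, θY, γY, hFY⟩ := lf_fld (X := Y.var) chfp_thm hS.nice c'' rfl
  have eX := ev_thm k X 3 hX (by omega)
  have eY := ev_thm k Y.var 2 hS.nice one_le_two
  have hΘ : hyp (c'.brs (aff 0 L Φ)) ≠ 0 := fun e => h0 (by
    simpa using map_dvd MvPolynomial.constantCoeff (hyp_eq_zero.1 e))
  obtain ⟨TH, _, _, _, _, w, ρ, r1, r2, r3⟩ := resh k Unit _ T _ _ _ _ (isFr_alg _ _)
    (isFr_alg _ (RF (Option Unit) k)) hΘ hU
  have r4 := lf_res r1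
  have hu : ∀ v : Vl FY, Triv ((toE (MP (Option Unit) k) FY).comp MvPolynomial.C) v →
      Unram v (rs γY a) := fun v hv => lf_unr eY hFY ha hv
  obtain ⟨π, π0, hπ⟩ := pid_val 𝒯 fun _ => -1
  have π1 : ∀ v ∈ 𝒯, plv v π ≤ 1 := fun v hv =>
    (hπ v hv).trans_le (WithZero.exp_le_exp.2 (by norm_num : (-1 : ℤ) ≤ 0))
  obtain ⟨R₀, e₀, ⟨s₀, hs₀⟩, hL₀, hB₀⟩ := h9 k F₀ X hX 𝒯 c c' Φ L L' Y c'' hV h1 hS π hπ T TH FY w ρ
    θY γY l hFY hl hl0 hT hz r4 r2 r3
    ((zle_prim r4.red hl (nat_val r4.cen.1 hl0) hζ).elim fun y h => ⟨_, h⟩)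
    (lf_hspl r4 (Kp.kx_tmon c.toPChart) ht)
    (fun v hv => lf_hres r4 r2 hΘ (hc v hv) π0 (π1 v hv)) a ha hp hB
  obtain ⟨R', j, r, hR', ⟨s, hm⟩, j1, j2, j3, j4⟩ := R₀.exists_rich hl hl0 hs₀
  have := Module.Finite.of_restrictScalars_finite (RF (Option Unit) k) FY R₀.E
  have := IsGalois.tower_top_of_isGalois (RF (Option Unit) k) FY R₀.E
  have := Module.Finite.of_restrictScalars_finite (RF (Option Unit) k) FY R'.E
  have := IsGalois.tower_top_of_isGalois (RF (Option Unit) k) FY R'.E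
  have e' : cls FY R'.c = rs γY a := by
    rw [j3, ← rs_cls (RingHom.id FY) (j := (j : R₀.E →+* R'.E)) j1 j2 R₀.coc, e₀]
    exact res_id _
  obtain ⟨R, ⟨Lf⟩⟩ := exists_liftFS hZ hh.p hG hT hF.ff hFY.ff R'
    (hL₀.enl hl hl0 hζ j (hm ▸ j4)) fun v hv => ⟨π, π0, π1 v hv,
      lf_enl (hB₀ v hv) j (lf_m1 F₀ v _ R'.hm) j4⟩
  obtain ⟨b, hb'⟩ : ∃ b, rs γ b = cls F' R.c := res_surjective_of_bijective hF.bij _
  have hpb : Prim l b := lf_inv hF.bij (hb' ▸ lf_pw R (Lf.m_eq.trans hm))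
  obtain ⟨r₀, hD⟩ := lf_brs c'.toPChart (aff 0 L Φ)
  have hb : b ∈ X.Bw := lf_mem (Kp.thmKp_of q_div) chfp_thm n1p_thm
    (fun _ _ _ _ _ _ c _ => goodM c) hX hσ' hF hG h0 hD R hb'.symm hl hl0 hpb
    fun P W v hP hd hW hv => lf_vert Lf hl0 hR' (fun v hv => e' ▸ hu v hv) hP hd hW hv
  refine ⟨b, lf_match eX eY hS.sec ha hb ?_, hpb⟩
  obtain ⟨γ₁, hg, e1⟩ := lf_gen hF hG hh.p hFY.ff hFY.alg hΘ hD Lf
  have e3 := rs_mvf_injective Unit (((congrArg _ e'.symm).trans (e1.symm.trans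
    ((congrArg _ hb'.symm).trans (lf_comp _ _ b)))).trans (eX.spec b hb FY Unit _ _ hg))
  obtain ⟨d1, u, hu, d2⟩ := hFY.dom
  let φ : Y.F →ₐ[k] FY := { γY with commutes' := d1 }
  have hgX : X.On Y.g := ((hS.sec _ _).1 (Var.on_gL (X := Y.var))).1
  have e4 := eX.val_smul b hb _ (φ ∘ Y.g) u (hgX.mapL φ) hu
  have e5 : u • (φ ∘ Y.g) = c'.pv (algebraMap k FY)
      (ext0 fun i => toE (MP (Option Unit) k) FY (MvPolynomial.X i)) θY := funext fun i => by
    have h2 : algebraMap k FY = (toE (MP (Option Unit) k) FY).comp MvPolynomial.C :=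
      RingHom.ext hFY.alg
    rw [Chart.pv, ← ev_hyp, ← hh.pp, h2]
    exact (d2 i).symm
  rw [e5, ← e3, eX.val_map b hb _ _ φ Y.g hgX] at e4
  exact res_injective_of_bijective hFY.bij e4.symm

theorem goodV_cof (hX : X.Nice 3) {J : Jets k X.N} {c : Chart k (Option Unit) X.N (X.IK k)}
    {Φ : MP (Option Unit) k} (hc : X.ZCh J c Φ) : ∃ t ∈ (Filter.cofinite : Filter (Place k)),
      ∀ 𝒯 : Finset (Place k), ↑𝒯 ⊆ t → X.GoodV c Φ (OT (fun v : Place k => v.1) 𝒯) := by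
  have : Infinite k := .of_injective _
    ((algebraMap (RatFunc F₀) k).injective.comp (RatFunc.algebraMap_injective F₀))
  obtain ⟨t, h1, h2⟩ := Filter.eventually_smallSets.1 (gdv_thm k X 3 hX (Option Unit) rfl _
    (Filter.cofinite : Filter (Place k)).smallSets (fun s => ⨅ v ∈ s, v.1.toSubring)
    (fun a => Filter.eventually_smallSets.2 ⟨_, place_fs F₀ a, fun s hs => by
      simpa [Subring.mem_iInf] using fun v hv => hs hv⟩) c Φ hc.sm hc.Φ0 hc.Ψ0 hc.dp)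
  exact ⟨t, h1, fun 𝒯 h => h2 _ h⟩

omit F₀ in
theorem lefs_of (h9 : K9s) (hZ : ThmZs) : LEFs := by
  intro k _ F₀ _ _ _ _ X hX l hl hl0 J c Φ hc S
  have hb : MvPolynomial.constantCoeff (c.brs Φ) ≠ 0 := by
    rw [PChart.brs, map_mul, up, MvPolynomial.constantCoeff_rename]
    exact mul_ne_zero hc.Ψ0 hc.Φ0
  have hb0 : c.brs Φ ≠ 0 := fun u => hb (by rw [u, map_zero])
  obtain ⟨T₀, _, _, _, _, h1, h2, h3⟩ := Kp.k0ex_of finW k _ c.toPChart Φ
    (chfp_thm k X 3 hX k _ c rfl).1 (goodM c lf_hom hc.sm)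
    (fun u => hc.Φ0 (by rw [u, map_zero])) {l} fun l' hl' => by
      rw [Finset.mem_singleton.1 hl']
      exact ⟨hl, hl0⟩
  have := NeZero.mk hl0
  obtain ⟨T₁, _, _, _, _, i₁, g1, g2⟩ := zle_sep h1 (Polynomial.cyclotomic.monic l k)
    (Polynomial.separable_cyclotomic l k)
  obtain ⟨T, _, _, _, _, i₂, g3, g4⟩ := zle_sep g1 (Kp.kx_tmon c.toPChart) c.sep
  obtain ⟨ζ, hζ⟩ : ∃ ζ : T₁, IsPrimitiveRoot ζ l := by
    rw [Polynomial.map_cyclotomic] at g2
    have : NeZero (l : T₁) := ⟨map_natCast ((toE (MP (Option (Option Unit)) k) T₁).comp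
      MvPolynomial.C) l ▸ (map_ne_zero _).2 hl0⟩
    exact (g2.exists_eval_eq_zero (Polynomial.degree_cyclotomic_pos l T₁ hl.pos).ne').imp
      fun _ h => Polynomial.isRoot_cyclotomic_iff.1 h
  have g5 : (c.χ.map (toE (MP (Option (Option Unit)) k) T)).Splits := by
    have := h2.map (i₂.comp i₁ : T₀ →+* T)
    rwa [Polynomial.map_map, ← RingHom.comp_assoc, (i₂.comp i₁).comp_algebraMap] at this
  have g6 : KZ l c.toPChart Φ T := by
    obtain ⟨K, K₀, _, _, _, _, _, α, e, a1, a2, a3, a4⟩ := h3 l (Finset.mem_singleton_self l)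
    exact ⟨K, K₀, _, _, _, ‹_›, ‹_›, α, (i₂.comp i₁ : T₀ →+* T).comp e, a1, a2,
      fun p => (congrArg (i₂.comp i₁) (a3 p)).trans ((i₂.comp i₁).commutes _), a4⟩
  obtain ⟨t, t1, t2⟩ := goodV_cof F₀ hX hc
  have t3 := (((cert_cof F₀ (isFr_alg _ _) hb0 g3).and (zlc_cof F₀ (c.brs Φ))).and
    (zlc_unit F₀ hb)).and t1
  obtain ⟨𝒯, s, r, B, d1, d2, d3, d4⟩ := hZ k F₀ _ T _ _ l (isFr_alg _ _) hb g3 hl hl0
    (S ∪ (Filter.eventually_cofinite.1 t3).toFinset)
  have d5 := fun v (hv : v ∈ 𝒯) => by_contra fun h => Finset.disjoint_left.1 d1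
    (Finset.mem_union_right S ((Filter.eventually_cofinite.1 t3).mem_toFinset.2 h)) hv
  refine ⟨𝒯, s, r, B, d1.mono_left Finset.subset_union_left, d2, d3,
    fun a a1 a2 a3 c' L L' Y c'' e hS α hα hp hB => ?_⟩
  have hL := hS.lin
  obtain ⟨T', _, _, _, _, hT, hU⟩ := lf_tw (L := L) (L' := L') hL.inv g3
  have hz := zlatS_tw (d4 a a1 a2 a3) hL.inv e (fun v hv i j => (hS.int v hv i j).1) hT
  have hi : ∀ v ∈ 𝒯, ∀ i j, plv v (L i j) ≤ 1 := fun v hv i j => (plv_le v _).2 (hS.int v hv i j).1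
  have hc' : ∀ v ∈ 𝒯, CertV (plv v) (toE (MP (Option (Option Unit)) k) T')
      (aff 0 (extM L) (c.brs Φ)) ∧ CfI (plv v) (aff 0 (extM L) (c.brs Φ)) ∧
      plv v (MvPolynomial.constantCoeff (aff 0 (extM L) (c.brs Φ))) = 1 := fun v hv =>
    ⟨cert_tw hT (hi v hv) hb0 (d5 v hv).1.1.1, zlc_aff (fun i j => by
      rcases i with _ | i <;> rcases j with _ | j <;> simp [extM, hi v hv]) (d5 v hv).1.1.2,
      by rw [constantCoeff_aff]; exact (d5 v hv).1.2⟩
  rw [← hL.brs] at hU hz hc'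
  obtain ⟨ε, hε⟩ := id hT
  refine lf_lefS F₀ h9 hX hS (t2 𝒯 fun v hv => (d5 v hv).2) hc.Φ0
    (by rw [hL.brs, constantCoeff_aff]; exact hb) hl hl0 hU (lf_spl hL hT g5) (lf_kz hL hT g6)
    ((hζ.map_of_injective i₂.injective).map_of_injective ε.injective) ?_ hc' hz hα hp hB
  have := g4.map (ε : T →+* T')
  rwa [Polynomial.map_map, show (ε : T →+* T').comp ((toE (MP (Option (Option Unit)) k) T).comp
    MvPolynomial.C) = (toE (MP (Option (Option Unit)) k) T').comp MvPolynomial.C from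
      RingHom.ext fun a => (hε _).trans (congrArg _ ((aff 0 (extM L)).commutes a))] at this

end Pool.Agent.ZCy.F
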