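import Pool.Agent.Lib.MP_879916_ag.SS.ZUn
import Pool.Agent.Lib.MP_751085_ag.ZF.Z.Rf2

/-! The residue fields at the boundary. -/

namespace Pool.Agent.ZFy.ZL

open Pool.Agent.ZCy Pool.Agent.ZFN
open scoped Classical WithZero Polynomial

set_option linter.unusedSectionVars false

/-- `cen_poly`; the valuation is trivial on `K` -/
theorem cen_down {A K E : Type} [CommRing A] [IsDomain A] [UniqueFactorizationMonoid A] [Field K]
    [Field E] [Algebra A K] [IsFractionRing A K] {Th : A[X]} (h0 : Th ≠ 0) {PK : K[X]}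
    (hP : Prime PK) (hd : PK ∣ Th.map (algebraMap A K)) {φ : K[X] →+* E} {Ξ : Vl E}
    (hc : Cen φ Ξ PK) : ∃ P : A[X], Prime P ∧ P ∣ Th ∧
      Cen (φ.comp (Polynomial.mapRingHom (algebraMap A K))) Ξ P := by
  have h1 : ∀ f, Ξ (φ.comp (Polynomial.mapRingHom (algebraMap A K)) f) ≤ 1 := fun f => hc.1 _
  have h2 : Ξ (φ.comp (Polynomial.mapRingHom (algebraMap A K)) Th) < 1 := (hc.2 _).2 hd
  rcases cen_poly h1 fun a ha => by
    rw [RingHom.comp_apply, Polynomial.coe_mapRingHom, Polynomial.map_C]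
    exact (hc.eq_one _).2 fun h => hP.not_isUnit (isUnit_of_dvd_unit h (Polynomial.isUnit_C.2
      ((map_ne_zero_iff _ (IsFractionRing.injective A K)).2 ha).isUnit)) with h | ⟨P, h3, h4⟩
  · exact absurd (h Th h0) h2.ne
  · exact ⟨P, h3, (h4.2 Th).1 h2, h4⟩

variable {l q : ℕ} {K F T N₁ K₁ E N' : Type} [Field K] [Field F] [Field T] [Field N₁] [Field K₁]
  [Field E] [Field N'] [Algebra K[X] F] [IsFractionRing K[X] F] [Algebra F T]
  [FiniteDimensional F T] [IsGalois F T] [Algebra K N₁] [FiniteDimensional K N₁] [IsGalois K N₁]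
  [Algebra K K₁] [FiniteDimensional K K₁] [IsGalois K K₁] [Algebra F E] [FiniteDimensional F E]
  [IsGalois F E] [Algebra K N'] [FiniteDimensional K N'] [IsGalois K N'] {ThK PK : K[X]}
  {τ : T →+* Ls N₁} {d : SecD 1 K K₁ F E} {j : T →+* E} {Ξ : Vl E}
  {ν : N' →ₐ[K] AlgebraicClosure K} {e₁ : N₁ →ₐ[K] N'} {eK : K₁ →ₐ[K] N'}

/-- Copy of `RFd.lxt` (ZF/Z/Rf1): if `δ` fixes `e₁`, then a power `δ ^ l ^ m` fixes `eK` as well
by `hk`, and the old proof applies to this power. -/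
theorem RFd.lxtS (h' : RFd F Ξ ν e₁ eK) (hl : l.Prime) (hr : ResOK T N₁ F ThK)
    (hk : LK1 K N₁ l K₁) (h : SC l F ThK d (algebraMap K K₁) j) (hP : Prime PK) (hd : PK ∣ ThK)
    (hc : Cen (toF K[X] F E) Ξ PK) : LXt l K (Set.range e₁) := by
  have := Fact.mk hl
  obtain ⟨n, hn⟩ := IsPGroup.iff_card.1 h.lxt
  refine lxt_iff.2 fun δ₀ hδ₀ => ?_
  obtain ⟨m, h3⟩ := hk N' e₁ eK δ₀ (mem_fixS_range.1 hδ₀)
  refine ⟨m + n, ?_⟩
  rw [pow_add, pow_mul]
  have hδ := mem_fixS_range.1 (pow_mem hδ₀ (l ^ m))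
  generalize δ₀ ^ l ^ m = δ at h3 hδ
  refine AlgEquiv.ext (h'.gen (RingHom.eqLocusField
    ((δ ^ l ^ n : N' ≃ₐ[K] N') : N' →+* N') (RingHom.id N'))
    (mem_fixS_range.1 (pow_mem (mem_fixS_range.2 hδ) _))
    (mem_fixS_range.1 (pow_mem (mem_fixS_range.2 h3) _)) fun ρ x a hρ ha => ?_)
  obtain ⟨s, h4, h5⟩ := rf1_ext ν δ hρ
  let := j.toAlgebra
  have : IsScalarTower F T E := .of_algebraMap_eq fun y => (h.alg y).symm
  have : FiniteDimensional T E := Module.Finite.right F T E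
  have : IsGalois T E := IsGalois.tower_top_of_isGalois F T E
  obtain ⟨g, hg1, hg2⟩ := red_conj (K := T) hρ.1 h5.1 fun y hy =>
    hr _ (Ξ.comap j) _ (ρ.comp (Over.comap j Ξ).int) (ν.comp e₁) s hP hd
      ((cen_of_over (Over.comap j Ξ)).1 (by
        rwa [show j.comp (toF K[X] F T) = toF K[X] F E from RingHom.ext fun p => h.alg _]))
      (hρ.1.comp_int _)
      (fun b y hy => (hρ.2 b _ ((congrArg j hy).trans (h.alg _))).trans
        ((ν.comp e₁).commutes b).symm)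
      (fun b => (h4 _).trans (congrArg ν (hδ b))) ⟨y, hy⟩
  have h6 : ∀ b : K, d.c (algebraMap K K₁ b) = toF K[X] F E (Polynomial.C b) := fun b => by
    rw [← d.φ_C, ← Polynomial.map_C, d.φ_map]
  let θ : K₁ →+* Ξ.integer := d.c.codRestrict _ fun b =>
    le_one_of_integral (φ := d.c.comp (algebraMap K K₁)) (fun y => (h6 y).symm ▸ hc.1 _)
      (RingHom.IsIntegralElem.map (Algebra.IsIntegral.isIntegral (R := K) b) d.c)
  obtain ⟨g₁, h7⟩ := exists_twist (K := K) (ν.comp eK : K₁ →+* AlgebraicClosure K) (ρ.comp θ)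
    fun b => (hρ.2 b _ (h6 b)).trans ((ν.comp eK).commutes b).symm
  obtain ⟨g₂, h8⟩ := exists_restrict (K := K) d.c (g : E →+* E) fun b => by
    rw [h6]
    exact (g.restrictScalars F).commutes _
  have h9 : ∀ y, s (ρ y) = ρ ((stab_int Ξ).act hg1 y) := fun y => hg2 y y.2 _
  have h10 : g.restrictScalars F ∈ fixS F (Set.range j ∪ Set.range d.c) :=
    mem_fixS_union.2 ⟨g.commutes, fun b => (h8 b).symm.trans (congrArg d.c
      ((ρ.comp θ).injective ((congrArg ρ (Subtype.ext (h8 b))).trans ((h9 (θ b)).symm.trans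
        ((congrArg s (h7 b)).trans ((h4 _).trans ((congrArg ν (h3 _)).trans
          (h7 b).symm)))))))⟩
  have h11 : ∀ m : ℕ, ∃ y : Ξ.integer, (y : E) = (g.restrictScalars F ^ m) x ∧
      ν ((δ ^ m) a) = ρ y := fun m => by
    induction m with
    | zero => exact ⟨x, rfl, ha⟩
    | succ m ih =>
      obtain ⟨y, e1, e2⟩ := ih
      refine ⟨(stab_int Ξ).act hg1 y, ?_, ?_⟩
      · rw [pow_succ', AlgEquiv.mul_apply, ← e1]
        rfl
      · rw [pow_succ', AlgEquiv.mul_apply, ← h9, ← e2]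
        exact (h4 _).symm
  obtain ⟨y, e1, e2⟩ := h11 (l ^ n)
  rw [show g.restrictScalars F ^ l ^ n = 1 from
    congrArg Subtype.val (hn ▸ pow_card_eq_one' (x := (⟨_, h10⟩ : fixS F _)))] at e1
  obtain rfl : y = x := Subtype.ext e1
  exact ν.injective (e2.trans ha.symm)

/-- Copy of `RFd.unr` (ZF/Z/Rf2) over the ring of `hG`, with `cen_down`, `RFd.lxtS`; the inertia
group fixes `eK` by `hu` (`ine_fix_sub`). -/
theorem RFd.unrS (h' : RFd F Ξ ν e₁ eK) {u : Vl K} (hG : GdAt K F l q ThK τ u) (hu : Unr K₁ u)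
    (hk : LK1 K N₁ l K₁) (h : SC l F ThK d (algebraMap K K₁) j) (hP : Prime PK) (hd : PK ∣ ThK)
    (hc : Cen (toF K[X] F E) Ξ PK) : Unr N' u := by
  obtain ⟨k, A, _, _, _, _, _, _, c, Th, Δ, Q, C, rfl, hQ, hΔ, hcu⟩ := hG
  obtain ⟨P, hP', hd', hc'⟩ := cen_down C.monic.ne_zero hP hd hc
  intro w hw₀
  have hw : Cen (toF A K N') w Q := (cen_of_over hw₀).2 hcu
  obtain ⟨w₁, hw₁⟩ := exists_cen (K := K) (E := K₁) hQ
  obtain ⟨R, KK, _, _, _, _, _, α, v, η, γ₁, γN, hα, ho, h₁, hN, hq, hG, hs⟩ :=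
    C.model (γ := algebraMap K K₁) hQ hΔ hw₁
  let lam := algebraMap KK (AlgebraicClosure KK)
  obtain ⟨θ, hθ⟩ := exists_ext (algebraMap K (AlgebraicClosure K))
    (fun x => Algebra.IsIntegral.isIntegral x) (lam.comp (γ₁.comp (algebraMap K K₁)))
  obtain ⟨γ', hγ'⟩ := h'.emb C.monic h hP' hd' hc' hα hG hs γ₁ h₁ γN hN lam θ hθ
  have hK : ∀ a, γ' (algebraMap K N' a) = γ₁ (algebraMap K K₁ a) := fun a => lam.injective
    ((hγ' _).trans ((congrArg θ (ν.commutes _)).trans (hθ a)))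
  have hw' : Cen (toF A K N') (v.comap γ') Q :=
    ⟨fun a => (congrArg v (hK _)).trans_le ((ho _).2 (hw₁.1 a)),
      fun a => (congrArg (v · < 1) (hK _)).to_iff.trans ((ho.lt_one _).trans (hw₁.2 a))⟩
  refine unr_of_one hQ hw hw' (eq_bot_iff.2 fun g hg' => ?_)
  have hm : ∀ {M : Type} [Field M] [Algebra K M] (m : M →ₐ[K] N'),
      Cen (toF A K M) ((v.comap γ').comap (m : M →+* N')) Q := fun m =>
    ⟨fun a => (congrArg (v.comap γ') (m.commutes _)).trans_le (hw'.1 a), fun a =>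
      (congrArg (v.comap γ' · < 1) (m.commutes _)).to_iff.trans (hw'.2 a)⟩
  obtain ⟨n, hn⟩ := lxt_iff.1 (h'.lxtS C.prime C.res hk h hP hd hc) g
    (mem_fixS_range.2 (ine_fix_sub e₁ (C.unr Q _ hQ hΔ (hm e₁)) hg'))
  obtain ⟨s, hs'⟩ := exists_twist (K := K) (γ'.comp (eK : K₁ →+* N')) γ₁ fun a =>
    ((congrArg γ' (eK.commutes a)).trans (hK a)).symm
  refine unrl hg' (val_nat ((toF A K N').comp c) (fun a => hw'.1 _) C.lne) hn C.cop fun x _ => ?_
  obtain ⟨a, ha⟩ := hq (γ' x)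
  exact ⟨eK (s a), ine_fix_sub eK (hu _ ((hcu.over (isFr_alg A K) hQ).1 (hm eK))) hg' _,
    ha.trans (congrArg v (hs' a))⟩

end Pool.Agent.ZFy.ZL
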