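import Pool.Agent.Lib.MP_879916_ag.SS.ZG1
import Pool.Agent.Lib.MP_879916_ag.SS.ZG2
import Pool.Agent.Lib.MP_751085_ag.ZF.Z.Core

/-! Covers of the special fibre lift to the generic fibre. -/

namespace Pool.Agent.ZFy.ZL

open Pool.Agent.ZCy Pool.Agent.ZFN
open scoped Classical WithZero Polynomial

set_option linter.unusedSectionVars false

variable {l q : ℕ} {k A K F T N₁ : Type} [Field k] [CommRing A] [IsDomain A]
  [UniqueFactorizationMonoid A] [Field K] [Field F] [Field T] [Field N₁] [Algebra A K]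
  [IsFractionRing A K] [Algebra K[X] F] [IsFractionRing K[X] F] [Algebra F T]
  [FiniteDimensional F T] [IsGalois F T] [Algebra K N₁] [FiniteDimensional K N₁] [IsGalois K N₁]
  {c : k →+* A} {Th : A[X]} {Δ : A} {τ : T →+* Ls N₁}
variable {K₁ κ₀ κ₁ : Type} [Field K₁] [Field κ₀] [Field κ₁] [Algebra K K₁] [FiniteDimensional K K₁]
  [IsGalois K K₁] [Algebra κ₀ κ₁] [FiniteDimensional κ₀ κ₁] [IsGalois κ₀ κ₁]
  {H : Hy K c K₁ κ₀ κ₁} {𝒰 : Set (Vl K)}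
variable {F₀ E₀ : Type} [Field F₀] [Field E₀] [Algebra κ₀[X] F₀] [IsFractionRing κ₀[X] F₀]
  [Algebra F₀ E₀] [FiniteDimensional F₀ E₀] [IsGalois F₀ E₀] {d₀ : SecD 1 κ₀ κ₁ F₀ E₀} {wT : Vl T}
  {ρT : wT.integer →+* E₀}

variable {E : Type} [Field E] [Algebra F E] [FiniteDimensional F E] [IsGalois F E]

/-- Copy of `res_aut` (ZF/Z/ResF). Keep `hu := h'.unr C H.gen ..`; the step `hD` comes from
`G.ine`, `RFd.unrS`, `RFd.lxtS` (with `cen_K`). -/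
theorem res_autS {κ : Type} [Field κ] [IsAlgClosed κ] (C : Crt K F l q c Th Δ τ) (hy : ¬H.y ∣ Δ)
    (G : Glb K F l q (Th.map (algebraMap A K)) τ K₁ 𝒰 H.y)
    (Λ : Loc H T N₁ F l q Th κ) {d : SecD 1 K K₁ F E} {j : T →+* E}
    (h : SC l F (Th.map (algebraMap A K)) d (algebraMap K K₁) j) {P : A[X]} (hP : Prime P)
    (hd : P ∣ Th) {Ξ : Vl E} (hc : Cen (pA A K F E) Ξ P) {ρ : Ξ.integer →+* Ls κ}
    (hρ : RO F Ξ (Λ.γ₁.comp (algebraMap K K₁)) ρ) {g : E ≃ₐ[F] E} (hg : g ∈ Dec F Ξ) :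
    ∃ s : κ ≃+* κ, (∀ b, s (Λ.f (algebraMap κ₀ κ₁ b)) = Λ.f (algebraMap κ₀ κ₁ b)) ∧
      ∀ x x' : Ξ.integer, (x' : E) = g x → ρ x' = lm (s : κ →+* κ) (ρ x) := by
  obtain ⟨N', _, _, _, _, ν, e₁, eK, h'⟩ := exists_rfd N₁ K₁ C.monic hP hd hc
  obtain ⟨ρ₂, hρ₂⟩ := exists_ro C.monic hP hd hc
  obtain ⟨hP', hc'⟩ := cen_K C.monic hP hd hc
  have hint : ∀ x, ρ₂.IsIntegralElem x := fun x => resf_int
    (fun a => ⟨⟨_, hc'.1 (Polynomial.C a)⟩, hρ₂.2 a _ rfl⟩) (Algebra.IsIntegral.isIntegral x)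
  let lam := algebraMap (Ls κ) (AlgebraicClosure (Ls κ))
  obtain ⟨θ, hθ⟩ := exists_red_ext hρ₂.1 (hρ.1.comp lam) hint
  have hθ' : ∀ a, θ (algebraMap K (AlgebraicClosure K) a) = lam (Λ.γ₁ (algebraMap K K₁ a)) :=
    fun a => (congrArg θ (hρ₂.2 a ⟨_, hc'.1 (Polynomial.C a)⟩ rfl).symm).trans
      ((hθ _).trans (congrArg lam (hρ.2 a _ rfl)))
  obtain ⟨γ', hγ'⟩ := h'.emb C.monic h hP hd hc (isVR_lval κ) Λ.gd Λ.spl Λ.γ₁ Λ.h₁ Λ.γN Λ.hN lam θ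
    hθ'
  have hov : Over (g : E →+* E) Ξ Ξ := mem_dec.1 hg
  obtain ⟨s₀, hs₀⟩ := exists_red_ext hρ₂.1 (hρ₂.1.comp_int hov) hint
  obtain ⟨δ, hδ⟩ := exists_restrict (K := K) (ν : N' →+* AlgebraicClosure K) s₀ fun a => by
    rw [RingHom.coe_coe, ν.commutes]
    exact (congrArg s₀ (hρ₂.2 a ⟨_, hc'.1 (Polynomial.C a)⟩ rfl).symm).trans
      ((hs₀ _).trans (hρ₂.2 a _ (g.commutes _)))
  have hA : ∀ a, γ' (toF A K N' a) = lid κ (Λ.η a) := fun a => lam.injective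
    ((hγ' _).trans ((congrArg θ (ν.commutes _)).trans ((hθ' _).trans (congrArg lam (Λ.h₁ a)))))
  have hw : Cen (toF A K N') ((lval κ).comap γ') H.y :=
    ⟨fun a => (congrArg (lval κ) (hA a)).trans_le (Λ.cen.1 a),
      fun a => (congrArg (lval κ · < 1) (hA a)).to_iff.trans (Λ.cen.2 a)⟩
  have hu := h'.unr C H.gen h hP hd hc
  have hD : δ ∈ Dec K ((lval κ).comap γ') :=
    G.ine N' e₁ (fun u hu' => h'.unrS (G.gd u hu') (G.unr u hu') G.lk h hP'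
      (Polynomial.map_dvd _ hd) hc') (h'.lxtS C.prime C.res G.lk h hP' (Polynomial.map_dvd _ hd) hc')
      _ hw ▸ Subgroup.mem_top δ
  obtain ⟨δ', hδ', hρ'⟩ := exists_ls_int γ'
  have hi : ∀ (a : ((lval κ).comap γ').integer) (f : Ps κ), γ' a = lid κ f → δ' a = f :=
    fun a f hf => (isVR_lval κ).2.1 ((hδ' a).trans hf)
  have hη : ∀ a, cc κ (δ' ⟨_, hw.1 a⟩) = cc κ (Λ.η a) := fun a => congrArg _ (hi _ _ (hA a))
  have hov' : Over (δ : N' →+* N') _ _ := mem_dec.1 hD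
  obtain ⟨s, hs⟩ := exists_red_ext hρ' (hρ'.comp_int hov') fun x => resf_int (fun b => by
    obtain ⟨a, a', h1, h2⟩ := H.frac b
    rw [(eq_mul_inv_iff_mul_eq₀ h1).2 h2, map_mul, map_inv₀]
    exact mul_mem ⟨_, (hη a).trans (Λ.hcc a)⟩ (((hη a').trans (Λ.hcc a')) ▸ hρ'.inv_mem _))
    (Λ.alg x)
  have hs1 := Λ.fix₀ s fun a => (congrArg s (hη a).symm).trans ((hs _).trans
    ((congrArg ((cc κ).comp δ') (Subtype.ext (δ.commutes _))).trans (hη a)))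
  obtain ⟨s', hs'⟩ := exists_equiv _ Λ.alg s hs1
  obtain rfl : s = s' := RingHom.ext fun x => (hs' x).symm
  obtain ⟨u, hu'⟩ := exists_twist (K := K) (γ'.comp (δ : N' →+* N')) ((lm (s' : κ →+* κ)).comp γ')
    (RingHom.congr_fun (f := ((lm (s' : κ →+* κ)).comp γ').comp (algebraMap K N'))
      (g := (γ'.comp (δ : N' →+* N')).comp (algebraMap K N'))
      (IsLocalization.ringHom_ext (nonZeroDivisors A) (RingHom.ext fun a => by
        change lm _ (γ' (toF A K N' a)) = γ' (δ (algebraMap K N' _))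
        rw [δ.commutes, hA, lm_lid, Λ.fix _ hs1]
        exact (hA a).symm)))
  have hD' : δ * u ∈ Dec K ((lval κ).comap γ') := mem_dec.2 fun x =>
    (congrArg (lval κ · ≤ 1) (hu' x)).to_iff.symm.trans ⟨fun h1 => by
      have h2 := resf_le (s'.symm : κ →+* κ) h1
      rwa [show lm (s'.symm : κ →+* κ) (((lm (s' : κ →+* κ)).comp γ') x) = γ' x from by
        ext i; exact s'.symm_apply_apply _] at h2, resf_le _⟩
  obtain rfl : u = 1 := (hu _ _ H.prime hy hw).le (show u ∈ Ine K ((lval κ).comap γ') from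
    ⟨inv_mul_cancel_left δ u ▸ mul_mem (inv_mem hD) hD', fun x hx => by
      rw [← hD, map_sub]
      refine (hρ'.eq_iff ⟨_, (hD' x).trans_le hx⟩ ⟨_, (hD x).trans_le hx⟩).1
        (Eq.trans ?_ (hs ⟨x, hx⟩))
      rw [RingHom.comp_apply, hi _ _ ((hu' x).symm.trans
        ((congrArg (lm _) (hδ' ⟨x, hx⟩).symm).trans (lm_lid _ _)))]
      rfl⟩)
  refine ⟨s', hs1, fun x x' hx => ?_⟩
  obtain ⟨μ, h0, hμ⟩ := exists_res_poly hP' hc' x.2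
  obtain ⟨r, hr⟩ := exists_pow_sep h0
  let φ : K →+* Ξ.integer := ((toF K[X] F E).comp Polynomial.C).codRestrict _ fun a => hc'.1 _
  have h1 : Polynomial.aeval (ρ₂ x) μ = 0 := by
    rw [Polynomial.aeval_def, ← show ρ₂.comp φ = _ from RingHom.ext fun a => hρ₂.2 a _ rfl,
      ← Polynomial.hom_eval₂, hρ₂.1]
    exact (congrArg Ξ (Polynomial.hom_eval₂ μ φ Ξ.integer.subtype x)).trans_lt hμ
  obtain ⟨a, ha⟩ := h'.mem ρ₂ hρ₂ (x ^ ringExpChar K ^ r) (by rw [map_pow]; exact hr _ _ h1)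
  have h2 : γ' a = ρ x ^ ringExpChar K ^ r := lam.injective
    ((hγ' a).trans ((congrArg θ ha).trans ((hθ _).trans (congrArg lam (map_pow _ _ _)))))
  have h3 : γ' (δ a) = ρ x' ^ ringExpChar K ^ r := lam.injective ((hγ' _).trans
    ((congrArg θ ((hδ a).trans ((congrArg s₀ ha).trans (hs₀ _)))).trans ((hθ _).trans
      (congrArg lam (by rw [map_pow, map_pow, show x' = hov.int x from Subtype.ext hx])))))
  refine pow_inj (Λ.γ₁.comp (algebraMap K K₁)) r ?_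
  rw [← h3, ← map_pow, ← h2]
  exact (hu' a).symm

/-- copy of `dl` (ZF/Z/DL) with `res_autS` -/
theorem dlS (C : Crt K F l q c Th Δ τ) (hy : ¬H.y ∣ Δ)
    (G : Glb K F l q (Th.map (algebraMap A K)) τ K₁ 𝒰 H.y)
    (Z : Res H F l Th F₀ (E₀ := E₀) T E) : Z.DL := by
  intro P Ξ hP hd hc
  obtain ⟨κ, _, _, ⟨Λ⟩⟩ := exists_loc C H hy
  obtain ⟨ER, _, _, _, _, ⟨b⟩⟩ := exists_bcd Z.d Λ.γ₁ (Fr (Ls κ)[X])
  obtain ⟨v, -, -⟩ := b.cov Z.sc (β := (lid κ).comp Λ.η) fun a => Λ.h₁ a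
  obtain ⟨t, ht⟩ := exists_root_vr (isVR_lval κ) C.monic hP hd Λ.spl
  have hT : Th.eval₂ Λ.η t = 0 := by
    obtain ⟨Q, hQ⟩ := hd
    exact (congrArg (Polynomial.eval₂ Λ.η t) hQ).trans (by
      rw [Polynomial.eval₂_mul, ht, zero_mul])
  have hβ := isFr_alg (Ps (Ps κ)) (Fr (Ps (Ps κ)))
  obtain ⟨e, ε, J, he, hε, hJ⟩ := Λ.gd.le _ ER v t hT _ _ hβ
  obtain ⟨Φ⟩ := exists_flag hβ
  obtain ⟨c1, c2, c3, c4⟩ := Φ.cen_s hβ he hε hJ b C.monic hP hd ht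
  obtain ⟨J₀, Q, hQ, hO, hT, h1, h2⟩ := Φ.res_p hβ he hε hJ Z b
  have hρ := Φ.rs.comp_int (Over.comap J Φ.Vs)
  have hρ' := hρ.comp_int (Over.comap b.j (Φ.Vs.comap J))
  have hI' : ∀ g ∈ Ine F ((Φ.Vs.comap J).comap b.j), Z.r g ∈ Ine F₀ Q := fun g hg => by
    have hg' : g ∈ geo Z.d := mem_fixS_range.2 (ine_fix_gen H.gen hg Z.d.c
      (fun a => by rw [dl_c]; exact g.commutes _) fun a => by
        have := c1.1 (Polynomial.C (c a))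
        rw [RingHom.comp_apply, Polynomial.coe_mapRingHom, Polynomial.map_C, ← dl_c Z.d] at this
        exact this)
    obtain ⟨g', h'⟩ := b.ext hg'
    have h3 : g' ∈ Dec _ (Φ.Vs.comap J) := b.ine_dec hρ c2 c3
      (P := (P.map (algebraMap A K)).map (algebraMap K K₁))
      ((Polynomial.map_ne_zero_iff (algebraMap K K₁).injective).2
        ((Polynomial.map_ne_zero_iff (IsFractionRing.injective A K)).2 hP.ne_zero))
      (by rw [Z.d.φ_map]; exact (c1.2 P).2 dvd_rfl) hg h'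
    exact (((Φ.of_dec hβ he hε hJ h3).comp Φ (J := b.j) (u' := (g : E →+* E))
      fun x => (h' x).symm).dec Φ Z hO h1 h2).2 rfl
  have hD' : ∀ g ∈ Dec F ((Φ.Vs.comap J).comap b.j), Z.r g ∈ Dec F₀ Q := fun g hg => by
    obtain ⟨s, hs, ha⟩ := res_autS C hy G Λ Z.sc hP hd c1 ⟨hρ', fun a x hx => by
      obtain ⟨h, e⟩ := c2 (Λ.γ₁ (algebraMap K K₁ a))
      refine (congrArg Φ.ρs (Subtype.ext ?_)).trans e
      change J (b.j x) = _
      rw [hx, ← dl_c Z.d, ← Z.d.φ_C, b.hφ, Polynomial.map_C]⟩ hg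
    have hX : b.j (toF K[X] F E Polynomial.X) =
        toF (Ls κ)[X] (Fr (Ls κ)[X]) ER Polynomial.X := by
      rw [← Z.d.φ_map, b.hφ, Polynomial.map_X, Polynomial.map_X]
    have hst : PowerSeries.map (s : κ →+* κ) t = t := by
      have h0 : Φ.Vs (J (b.j (toF K[X] F E Polynomial.X))) ≤ 1 := by rw [hX]; exact c3
      have h3 := ha ⟨_, h0⟩ ⟨_, h0⟩ (g.commutes _).symm
      have h4 : Φ.ρs ⟨_, h0⟩ = lid κ t := (congrArg Φ.ρs (Subtype.ext (congrArg J hX))).trans c4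
      change Φ.ρs ⟨_, h0⟩ = lm _ (Φ.ρs ⟨_, h0⟩) at h3
      rw [h4, dl_lm] at h3
      exact ((isVR_lval κ).2.1 h3).symm
    obtain ⟨s', g₁, h3, h4⟩ := b.semi (lm (s : κ →+* κ)) fun a =>
      RingHom.congr_fun (f := (lm (s : κ →+* κ)).comp (Λ.γ₁.comp (algebraMap K K₁)))
        (g := Λ.γ₁.comp (algebraMap K K₁)) (IsLocalization.ringHom_ext (nonZeroDivisors A)
          (RingHom.ext fun a => by
            change lm _ (Λ.γ₁ (toF A K K₁ a)) = Λ.γ₁ (toF A K K₁ a)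
            rw [Λ.h₁, dl_lm, Λ.fix _ hs])) a
    obtain ⟨g₂, h5⟩ := Φ.of_semi hβ he hε hJ s hst s' fun p => b.ι.injective (by
      rw [h3, b.hι, b.hι, lm_tM])
    obtain ⟨g₃, -, h6⟩ := b.restr g₂
    have h7 := h5.comp Φ (J := b.j) (u' := ((g₁ * g₃ : E ≃ₐ[F] E) : E →+* E)) fun x =>
      (h4 (g₃ x)).symm.trans (congrArg s' (h6 x))
    have h8 : g₁ * g₃ ∈ Dec F ((Φ.Vs.comap J).comap b.j) := mem_dec.2 h7.vs
    have h9 : (g₁ * g₃)⁻¹ * g ∈ Ine F ((Φ.Vs.comap J).comap b.j) :=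
      ⟨mul_mem (inv_mem h8) hg, fun x hx => by
        rw [← h8, map_sub, ← AlgEquiv.mul_apply, mul_inv_cancel_left]
        exact (hρ'.eq_iff ⟨_, (hg x).trans_le hx⟩ ⟨_, (h8 x).trans_le hx⟩).1
          ((ha ⟨x, hx⟩ _ rfl).trans (h7.rs x hx _).symm)⟩
    rw [← mul_inv_cancel_left (g₁ * g₃) g, map_mul]
    exact mul_mem (h7.dec Φ Z hO h1 h2).1 (hI' _ h9).1
  obtain ⟨u, hu, -⟩ := exists_vcen (isFr_pA A K F) hP
  obtain ⟨g, hg⟩ := conj ((hu.over (isFr_pA A K F) hP).1 c1) ((hu.over (isFr_pA A K F) hP).1 hc)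
  refine ⟨Q.comap (Z.r g : E₀ →+* E₀), vcnj_nrm hQ _, fun x hx =>
    (congrArg Q ((Z.r g).commutes _)).trans (hT x hx), fun h hh => ?_, fun h hh => ?_⟩
  · rw [mem_dec_comap, ← map_inv, ← map_mul, ← map_mul]
    exact hD' _ (mem_dec_comap.1 ((dec_congr (w := .comap (g : E →+* E) _) hg).le hh))
  · rw [mem_ine_comap, ← map_inv, ← map_mul, ← map_mul]
    exact hI' _ (mem_ine_comap.1 ((ine_congr (w := .comap (g : E →+* E) _) hg).le hh))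

/-- copy of `core` (ZF/Z/Core) with `Glb.twist`, `dsc2S`, `dlS` -/
theorem coreS (hD : DSC) (C : Crt K F l q c Th Δ τ) (H : Hy K c K₁ κ₀ κ₁) (hy : ¬H.y ∣ Δ)
    (G : Glb K F l q (Th.map (algebraMap A K)) τ K₁ 𝒰 H.y) (S : Spc H F l Th d₀ wT ρT) :
    ∃ (E : Type) (_ : Field E) (_ : Algebra F E) (_ : FiniteDimensional F E) (_ : IsGalois F E)
      (Z : Res H F l Th F₀ (E₀ := E₀) T E), Z.Ok d₀ wT ρT ∧ Z.DL := by
  obtain ⟨κ, _, _, ⟨Λ⟩⟩ := exists_loc C H hy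
  obtain ⟨g, ER, _, _, _, _, ⟨𝓛⟩⟩ := exists_lft C Λ S (Fr (Ls κ)[X])
  have C' := C.twist g
  obtain ⟨L₀, F', E', _, _, _, _, _, _, _, _, _, _, _, γ₀, e₁, eK, ι', hι, h₁, hK, ⟨M⟩⟩ :=
    𝓛.exists_model hD C'
  obtain ⟨L, _, _, _, _, N, _, _, _, _, d, e, m, h⟩ := exists_clo1 K F hι
  obtain ⟨π, σ, hs⟩ := d.exists_spl
  obtain ⟨h1, h2⟩ := dsc2S C' hy (G.twist g) S M h₁ hK h hs
  obtain ⟨E, _, _, _, _, dE, ⟨M'⟩⟩ := dsc3 M hK h hs h1 h2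
  obtain ⟨Z, hZ⟩ := M'.fin C' hy
  exact ⟨E, _, _, inferInstance, inferInstance, Z, hZ, dlS C hy G Z⟩

end Pool.Agent.ZFy.ZL
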