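import Pool.Agent.Lib.MP_879916_ag.SS.ZCst
import Pool.Agent.Lib.MP_751085_ag.ZF.Z.Mon

/-! The radical of a geometric character. -/

namespace Pool.Agent.ZFy.ZL

open Pool.Agent.ZCy Pool.Agent.ZFN
open scoped Classical WithZero Polynomial

set_option linter.unusedSectionVars false

variable {l : ℕ} {k K N : Type} [Field k] [Field K] [Field N] [Algebra k[X] K]
  [IsFractionRing k[X] K] [Algebra K N] [FiniteDimensional K N] [IsGalois K N]

variable {k₁ : Type} [Field k₁] [Algebra k k₁] [FiniteDimensional k k₁] {c : k₁ →+* N}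

/-- a polynomial has a prime factor of multiplicity prime to `l` or is a power up to a constant -/
theorem zcr_fac {F : Type} [Field F] (l n : ℕ) : ∀ u : F[X], u.natDegree ≤ n → u ≠ 0 →
    (∃ (P Q : F[X]) (m : ℕ), Prime P ∧ ¬P ∣ Q ∧ ¬l ∣ m ∧ u = P ^ m * Q) ∨
      ∃ (a : F) (f : F[X]), f ≠ 0 ∧ u = Polynomial.C a * f ^ l := by
  induction n with
  | zero =>
    intro u hu _
    exact Or.inr ⟨u.coeff 0, 1, one_ne_zero, by
      rw [one_pow, mul_one]; exact Polynomial.eq_C_of_natDegree_le_zero hu⟩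
  | succ n ih =>
    intro u hu h0
    by_cases h1 : IsUnit u
    · exact ih u ((Polynomial.natDegree_eq_zero_of_isUnit h1).trans_le n.zero_le) h0
    obtain ⟨P, hP, hd⟩ := WfDvdMonoid.exists_irreducible_factor h1 h0
    obtain ⟨m, Q, hQ, rfl⟩ := WfDvdMonoid.max_power_factor h0 hP
    by_cases hm : l ∣ m
    swap
    · exact Or.inl ⟨P, Q, m, hP.prime, hQ, hm, rfl⟩
    have m0 : m ≠ 0 := fun e => hQ (by rwa [e, pow_zero, one_mul] at hd)
    have Q0 : Q ≠ 0 := right_ne_zero_of_mul h0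
    have h2 := hP.natDegree_pos
    rw [Polynomial.natDegree_mul (pow_ne_zero _ hP.ne_zero) Q0, Polynomial.natDegree_pow] at hu
    have h3 : 0 < m * P.natDegree := Nat.mul_pos (Nat.pos_of_ne_zero m0) h2
    rcases ih Q (by omega) Q0 with ⟨P', Q', m', h4, h5, h6, rfl⟩ | ⟨a, f, f0, rfl⟩
    · refine Or.inl ⟨P', P ^ m * Q', m', h4, fun h => ?_, h6, mul_left_comm _ _ _⟩
      refine (h4.dvd_or_dvd h).elim (fun h => hQ ?_) h5
      exact ((h4.irreducible.dvd_symm hP (h4.dvd_of_dvd_pow h)).trans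
        (dvd_pow_self P' (n := m') fun e => h6 (by rw [e]; exact dvd_zero l))).mul_right _
    · obtain ⟨t, rfl⟩ := hm
      exact Or.inr ⟨a, P ^ t * f, mul_ne_zero (pow_ne_zero _ hP.ne_zero) f0, by ring⟩

theorem zcr_fix (hc : CstF (k := k) K c) {g : N ≃ₐ[K] N} (hg : g ∈ geoP k K N) (p : k₁[X]) :
    g (cX (k := k) K c p) = cX (k := k) K c p := by
  have h := Polynomial.hom_eval₂ p c (g : N →+* N) (toF k[X] K N Polynomial.X)
  rw [show (g : N →+* N).comp c = c from RingHom.ext (mem_fixS_range.1 (hc.geo ▸ hg)),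
    show (g : N →+* N) (toF k[X] K N Polynomial.X) = toF k[X] K N Polynomial.X from
      g.commutes _] at h
  exact h

/-- `exists_radical` for `geoP`; `r ^ l` is fixed by `geoP`, so it is a quotient `a / b` of
polynomials over the constants (`fix_cX`); replace `r` by `r b`. If all multiplicities of `u` were
divisible by `l`, then `u = c₀ f ^ l` and `r / f` would be a constant, so `χ = 1`. -/
theorem exists_chr_rad (hl : l.Prime) (hc : CstF (k := k) K c) {ζ : N} (hζ : IsPrimitiveRoot ζ l)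
    (χ : geoP k K N →* Multiplicative (ZMod l)) (hχ : χ ≠ 1) :
    ∃ (r : N) (P Q : k₁[X]) (m : ℕ), r ≠ 0 ∧ Prime P ∧ ¬P ∣ Q ∧ ¬l ∣ m ∧
      r ^ l = cX (k := k) K c (P ^ m * Q) ∧
      ∀ g : geoP k K N, (g : N ≃ₐ[K] N) r = ζ ^ (χ g).toAdd.val * r := by
  have : NeZero l := ⟨hl.ne_zero⟩
  have hζ' : (cP (k := k) K N).IsIntegralElem ζ := ⟨Polynomial.X ^ l - Polynomial.C 1,
    Polynomial.monic_X_pow_sub_C _ hl.ne_zero, by simp [hζ.pow_eq_one]⟩
  obtain ⟨r, r0, hr⟩ := exists_radical (geoP k K N) hζ (fun g hg => hg ζ hζ') χ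
  obtain ⟨a, b, b0, e⟩ := fix_cX hc.alg (x := r ^ l) fun g hg => by
    rw [map_pow, hr ⟨g, hc.geo ▸ hg⟩, mul_pow, ← pow_mul, mul_comm _ l, pow_mul, hζ.pow_eq_one,
      one_pow, one_mul]
  have hi := cX_inj hc.alg
  have h0 : r * cX (k := k) K c b ≠ 0 := mul_ne_zero r0 ((map_ne_zero_iff _ hi).2 b0)
  have h1 : (r * cX (k := k) K c b) ^ l = cX (k := k) K c (a * b ^ (l - 1)) := by
    rw [map_mul, ← e, map_pow, mul_assoc, ← pow_succ', Nat.sub_add_cancel hl.one_le, mul_pow]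
  have h2 : ∀ g : geoP k K N, (g : N ≃ₐ[K] N) (r * cX (k := k) K c b) =
      ζ ^ (χ g).toAdd.val * (r * cX (k := k) K c b) := fun g => by
    rw [map_mul, hr, zcr_fix hc g.2, mul_assoc]
  rcases zcr_fac l _ (a * b ^ (l - 1)) le_rfl (fun h => pow_ne_zero l h0 (by rw [h1, h, map_zero]))
    with ⟨P, Q, m, h3, h4, h5, h6⟩ | ⟨s, f, f0, h3⟩
  · exact ⟨_, P, Q, m, h0, h3, h4, h5, h6 ▸ h1, h2⟩
  have f1 : cX (k := k) K c f ≠ 0 := (map_ne_zero_iff _ hi).2 f0
  have h4 : (r * cX (k := k) K c b / cX (k := k) K c f) ^ l = c s := by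
    rw [div_pow, h1, h3, map_mul, map_pow, mul_div_cancel_right₀ _ (pow_ne_zero l f1),
      Polynomial.coe_eval₂RingHom, Polynomial.eval₂_C]
  have h5 : (cP (k := k) K N).IsIntegralElem (r * cX (k := k) K c b / cX (k := k) K c f) := by
    let := (cP (k := k) K N).toAlgebra
    refine IsIntegral.of_pow (R := k) hl.pos ?_
    obtain ⟨p, hp, e⟩ := IsIntegral.of_finite k s
    refine ⟨p, hp, ?_⟩
    rw [h4, RingHom.algebraMap_toAlgebra,
      ← (RingHom.ext hc.alg : c.comp (algebraMap k k₁) = cP K N), ← Polynomial.hom_eval₂, e,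
      map_zero]
  refine absurd (MonoidHom.ext fun g => ?_) hχ
  have h6 := g.2 _ h5
  rw [map_div₀, h2, zcr_fix hc g.2, div_left_inj' f1, mul_eq_right₀ h0, ← pow_zero ζ] at h6
  exact Multiplicative.toAdd.injective (ZMod.val_injective l
    ((hζ.pow_inj (ZMod.val_lt _) hl.pos h6).trans ZMod.val_zero.symm))

end Pool.Agent.ZFy.ZL
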