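import Pool.Agent.Lib.MP_879916_ag.SS.ZDf
import Pool.Agent.Lib.MP_751085_ag.ZF.T.Tz
import Pool.Agent.Lib.MP_751085_ag.ZF.T.Zl
import Pool.Agent.Lib.MP_751085_ag.ZF.Z.Red

/-! Purity over the valuation ring of a place. -/

namespace Pool.Agent.ZFy

open Pool.Agent.ZCy Pool.Agent.ZFN
open scoped Classical WithZero Polynomial
open MvPolynomial

/-- the proof of `tfzl_conj` (ZF/T/Zl) works over any factorial domain -/
theorem intOff_conj {A K E Ω : Type} [CommRing A] [IsDomain A] [UniqueFactorizationMonoid A]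
    [Field K] [Field E] [Algebra K E] [FiniteDimensional K E] [IsGalois K E] [CommRing Ω]
    [IsDomain Ω] {α : A →+* K} {Θ : A} (hα : IsFr α) (h0 : Θ ≠ 0)
    (q q' : IntOff (tE E α) Θ →+* Ω) (h : ∀ p, q' (toInt _ Θ p) = q (toInt _ Θ p)) :
    ∃ r : E ≃ₐ[K] E, ∀ x, q' x = q (gI α Θ r x) := by
  obtain ⟨r, _, hr⟩ := (stab_intOff α Θ).place_conj q q' fun a ha => by
    obtain ⟨m, hm⟩ := exists_pow_mul_mem hα a.2
    obtain ⟨c, hc⟩ := fix_intOff_one hα hm fun g => by
      rw [map_mul, map_pow, ha g trivial, RingHom.comp_apply, AlgEquiv.commutes]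
    have e : toInt _ Θ c = toInt _ Θ Θ ^ m * a := Subtype.ext hc
    refine mul_left_cancel₀ (pow_ne_zero m ((tfpu_unit hα h0).map q').ne_zero) ?_
    rw [← map_pow, ← map_mul, ← e, h, e, map_pow, h, map_mul, map_pow]
  exact ⟨r, hr⟩

/-- extension of a homomorphism to a ring of fractions -/
theorem exists_loc_ext {E Ω : Type} [Field E] [Field Ω] {S S' : Subring E} (q : S →+* Ω)
    (h : ∀ x ∈ S', ∃ s : S, q s ≠ 0 ∧ (s : E) * x ∈ S) :
    ∃ q' : S' →+* Ω, ∀ (x : S') (s y : S), (y : E) = s * x → q y = q s * q' x := by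
  have h' : ∀ x : S', ∃ s y : S, q s ≠ 0 ∧ (y : E) = s * x := fun x =>
    (h x x.2).imp fun _ hs => ⟨⟨_, hs.2⟩, hs.1, rfl⟩
  choose s y h0 hy using h'
  obtain ⟨f, hf⟩ : ∃ f : S' → Ω, ∀ (x : S') (s y : S), (y : E) = s * x → q y = q s * f x := by
    refine ⟨fun x => q (y x) / q (s x), fun x s' y' e => ?_⟩
    have e' : y' * s x = s' * y x := Subtype.ext (by
      rw [Subring.coe_mul, Subring.coe_mul, e, hy]; ring)
    rw [← mul_div_assoc, eq_div_iff (h0 x), ← map_mul, e', map_mul]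
  refine ⟨⟨⟨⟨f, ?_⟩, fun a b => ?_⟩, ?_, fun a b => ?_⟩, hf⟩
  · simpa using (hf 1 1 1 (by simp)).symm
  · have e := hf (a * b) (s a * s b) (y a * y b) (by
      rw [Subring.coe_mul, Subring.coe_mul, Subring.coe_mul, hy, hy]; ring)
    rw [map_mul, map_mul, hf a _ _ (hy a), hf b _ _ (hy b), mul_mul_mul_comm] at e
    exact (mul_left_cancel₀ (mul_ne_zero (h0 a) (h0 b)) e).symm
  · simpa using (hf 0 1 0 (by simp)).symm
  · have e := hf (a + b) (s a * s b) (y a * s b + s a * y b) (by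
      rw [Subring.coe_add, Subring.coe_mul, Subring.coe_mul, Subring.coe_mul, Subring.coe_add, hy,
        hy]; ring)
    rw [map_add, map_mul, map_mul, map_mul, hf a _ _ (hy a), hf b _ _ (hy b)] at e
    refine mul_left_cancel₀ (mul_ne_zero (h0 a) (h0 b)) (e.symm.trans ?_)
    change _ = q (s a) * q (s b) * (f a + f b)
    ring

variable {k ι L E Ω : Type} [Field k] [Field L] [Field E] [Field Ω] {u : Vl k}

/-- `Nrm.isVR`, `IsVR.dvr` -/
theorem pv_dvr (hu : Nrm u) : IsDiscreteValuationRing u.integer := hu.isVR.dvr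

theorem pv_fr {α : MP ι k →+* L} (hα : IsFr α) (u : Vl k) :
    IsFr (α.comp (map u.integer.subtype)) := (ZL.red_fr u).mv hα

theorem pv_frP {α : k[X] →+* L} (hα : IsFr α) (u : Vl k) :
    IsFr (α.comp (Polynomial.mapRingHom u.integer.subtype)) := (ZL.red_fr u).poly hα

theorem pv_lift {p : MP ι k} (h : CfI u p) :
    ∃ p' : MP ι u.integer, map u.integer.subtype p' = p := by
  refine ⟨∑ m ∈ p.support, monomial m ⟨coeff m p, h m⟩, ?_⟩
  rw [map_sum]
  simp only [map_monomial]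
  exact p.as_sum.symm

theorem pv_cfi (p : MP ι u.integer) : CfI u (map u.integer.subtype p) := fun m => by
  rw [coeff_map]
  exact (coeff m p).2

variable [Finite ι] [Algebra L E] [FiniteDimensional L E] [IsGalois L E] {α : MP ι k →+* L}
  {Θ : MP ι k} {Θ' : MP ι u.integer}

end Pool.Agent.ZFy
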