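import Pool.Agent.Lib.MP_879916_ag.SS.ZCs2
import Pool.Agent.Lib.MP_879916_ag.SS.ZPv

/-! Specialisation of decomposition groups. -/

namespace Pool.Agent.ZFy.ZL

open Pool.Agent.ZCy Pool.Agent.ZFN
open scoped Classical WithZero Polynomial

set_option linter.unusedSectionVars false

variable {l : ℕ} {k K N : Type} [Field k] [Field K] [Field N] [Algebra k[X] K]
  [IsFractionRing k[X] K] [Algebra K N] [FiniteDimensional K N] [IsGalois K N]

theorem zdp_up {A E Ω : Type} [CommRing A] [UniqueFactorizationMonoid A] [Field E] [Field Ω]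
    [Algebra K E] [FiniteDimensional K E] [IsGalois K E] {α : A →+* K} (hα : IsFr α) {w : Vl E}
    (h1 : ∀ a, w (tE E α a) ≤ 1) (Q : IntOff (tE E α) 1 →+* Ω)
    (h2 : ∀ a, w (tE E α a) < 1 → Q (toInt _ 1 a) = 0) :
    ∃ h : E ≃ₐ[K] E, ∀ x : IntOff (tE E α) 1, w x < 1 → Q (gI α 1 h x) = 0 := by
  have h3 : ∀ x : IntOff (tE E α) 1, w x ≤ 1 := fun x =>
    le_one_of_int h1 ((mem_intOff_one hα).1 x.2)
  let I : Ideal (IntOff (tE E α) 1) :=
    { carrier := {x | w x < 1}
      add_mem' := fun ha hb => w.map_add_lt ha hb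
      zero_mem' := by simp
      smul_mem' := fun a x hx => (map_mul w _ _).trans_lt ((mul_le_of_le_one_left' (h3 a)).trans_lt hx) }
  obtain ⟨h, -, e⟩ := (Ideal.subset_union_prime (s := Finset.univ) (I := I)
    (f := fun h : E ≃ₐ[K] E => RingHom.ker (Q.comp (gI α 1 h))) 1 1
    fun h _ _ _ => RingHom.ker_isPrime _).1 fun x hx => by
      have e : ((∏ h, gI α 1 h x : IntOff (tE E α) 1) : E) = ∏ h : E ≃ₐ[K] E, h x :=
        map_prod (Subring.subtype _) _ _
      obtain ⟨a, ha⟩ := fix_intOff_one hα (∏ h, gI α 1 h x).2 fun g => by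
        rw [e, map_prod]
        exact Fintype.prod_equiv (Equiv.mulLeft g) _ _ fun _ => rfl
      have h4 := h2 a (by
        rw [ha, e]
        exact (vcnj_prod (fun h : E ≃ₐ[K] E => h x) (fun h => h3 (gI α 1 h x)) 1).trans_lt hx)
      rw [show toInt _ 1 a = _ from Subtype.ext ha, map_prod, Finset.prod_eq_zero_iff] at h4
      obtain ⟨h, h5, h6⟩ := h4
      exact Set.mem_biUnion h5 h6
  exact ⟨h, fun x hx => e hx⟩

/-- Let `ρ` be the residue map of `w` onto `κ`, an algebraic extension of `k`; choose a valuation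
`u'` of `κ` over `u` and a residue map of `u'` to `Ω` that extends `Q` on `u.integer`
(`exists_red_ext` or `exists_ext`). This gives `Q' : B → Ω` on `B = IntOff _ 1` that agrees with `Q` on
`O[X]`, so `Q' = Q ∘ h` (`intOff_conj`, `pv_frP`, `pv_dvr`). An element of `B` that is fixed by
`Dec K w` is congruent to a constant in `O` (`res_cst`), so `Φ ∘ Q' = Q'` on it;
`Stab.place_conj` gives `δ ∈ Dec K w` with `Φ ∘ Q' = Q' ∘ δ`. -/
theorem dec_of_fpt {u : Vl k} (hu : Nrm u) {s : u.integer} {g : N ≃ₐ[K] N} (h : FPt K u s g)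
    {z : k} (hz : u (z - s) < 1) {w : Vl N}
    (hw : Cen (toF k[X] K N) w (Polynomial.X - Polynomial.C z)) :
    ∃ h : N ≃ₐ[K] N, h⁻¹ * g * h ∈ Dec K w := by
  obtain ⟨Ω, _, _, Q, Φ, h1, h2, h3, h4⟩ := h
  have := pv_dvr hu
  have hα : IsFr (aV K u) := pv_frP (isFr_alg k[X] K) u
  have hz1 : u z ≤ 1 := sub_add_cancel z s ▸ u.map_add_le hz.le s.2
  have h5 : ∀ a, w (tE N (aV K u) a) ≤ 1 := fun a => hw.1 _
  obtain ⟨h, h6⟩ := zdp_up hα h5 Q fun a ha => by
    have e : a.IsRoot ⟨z, hz1⟩ := Subtype.val_injective ((Polynomial.eval₂_at_apply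
      u.integer.subtype _).symm.trans ((Polynomial.eval_map _ _).symm.trans
        (Polynomial.dvd_iff_isRoot.1 ((hw.2 _).1 ha))))
    obtain ⟨b, rfl⟩ := Polynomial.dvd_iff_isRoot.2 e
    rw [map_mul, map_mul, ← sub_sub_sub_cancel_right _ _ (Polynomial.C s), ← map_sub, map_sub,
      map_sub, h3, (h2 (⟨z, hz1⟩ - s)).2 hz, sub_zero, zero_mul]
  obtain ⟨κ, _, ρ, r1, -⟩ := exists_resf w
  let c : k[X] →+* w.integer := (toF k[X] K N).codRestrict _ hw.1
  have r2 : ∀ p, ρ (c p) = ρ (c (Polynomial.C (p.eval z))) := fun p => (r1.eq_iff _ _).2 (by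
    rw [← AddSubgroupClass.coe_sub, ← map_sub]
    exact (hw.2 _).2 (Polynomial.X_sub_C_dvd_sub_C_eval))
  obtain ⟨δ, hδ, h7⟩ := Stab.place_conj (H := Dec K w)
    (fun g _ => stab_intOff (aV K u) 1 g (Subgroup.mem_top g)) (Q.comp (gI _ 1 h))
    (Φ.comp (Q.comp (gI _ 1 h))) fun x hx => by
      obtain ⟨P, hm, hP⟩ := (mem_intOff_one hα).1 x.2
      have x1 : w x ≤ 1 := le_one_of_int h5 ⟨P, hm, hP⟩
      obtain ⟨a, ha⟩ := res_cst hw x1 hx
      let f := (Polynomial.evalRingHom z).comp (Polynomial.mapRingHom u.integer.subtype)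
      have a1 : u a ≤ 1 := le_one_of_int (f := f) (fun p => by
        have e := Polynomial.eval₂_at_apply (p := p) u.integer.subtype ⟨z, hz1⟩
        rw [← Polynomial.eval_map] at e
        exact (congrArg u e).trans_le (p.eval _).2) ⟨P, hm, (ρ.comp (c.comp Polynomial.C)).injective (by
          have e : P.eval₂ (c.comp (Polynomial.mapRingHom u.integer.subtype)) ⟨x, x1⟩ = 0 :=
            Subtype.val_injective ((Polynomial.hom_eval₂ P _ w.integer.subtype _).trans hP)
          have e' := congrArg ρ e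
          rw [Polynomial.hom_eval₂, (r1.eq_iff ⟨x, x1⟩ (c (Polynomial.C a))).2 ha] at e'
          rw [Polynomial.hom_eval₂, map_zero, ← map_zero ρ, ← e']
          exact congrArg (P.eval₂ · _) (RingHom.ext fun p => (r2 _).symm))⟩
      have e := h6 (x - toInt _ 1 (Polynomial.C ⟨a, a1⟩)) (by
        refine (congrArg (fun y => w (x - toF k[X] K N y)) ?_).trans_lt ha
        exact Polynomial.map_C _)
      have e1 : ∀ g : N ≃ₐ[K] N, gI (aV K u) 1 g (toInt _ 1 (Polynomial.C ⟨a, a1⟩)) =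
        toInt _ 1 (Polynomial.C ⟨a, a1⟩) := fun g => Subtype.ext (g.commutes _)
      rw [map_sub, map_sub, sub_eq_zero, e1] at e
      rw [RingHom.comp_apply, RingHom.comp_apply, e, ← h1, e1]
  have e := h4 (g * h * δ⁻¹ * h⁻¹) fun x => by
    have e := h7 (gI _ 1 (δ⁻¹ * h⁻¹) x)
    rw [RingHom.comp_apply, RingHom.comp_apply, ← h1] at e
    refine (congrArg Q (Subtype.ext rfl)).trans (e.trans (congrArg Q (Subtype.ext ?_)))
    change (h * δ * (δ⁻¹ * h⁻¹)) x = x
    simp
  exact ⟨h, (show δ = h⁻¹ * g * h by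
    rw [mul_inv_eq_one, mul_inv_eq_iff_eq_mul] at e
    rw [mul_assoc, e, inv_mul_cancel_left]) ▸ hδ⟩

end Pool.Agent.ZFy.ZL
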