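import Pool.Agent.Lib.MP_879916_ag.SS.ZFp
import Pool.Agent.Lib.MP_879916_ag.SS.ZDp
import Pool.Agent.Lib.MP_879916_ag.SS.ZHil

/-! Hilbert's irreducibility theorem with congruence conditions. -/

namespace Pool.Agent.ZFy.ZL

open Pool.Agent.ZCy Pool.Agent.ZFN
open scoped Classical WithZero Polynomial

set_option linter.unusedSectionVars false

variable {l : ℕ} {k K N : Type} [Field k] [Field K] [Field N] [Algebra k[X] K]
  [IsFractionRing k[X] K] [Algebra K N] [FiniteDimensional K N] [IsGalois K N]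

/-- a subgroup of a finite group that meets every conjugacy class is everything (count the union
of the conjugates; look for an existing version in Mathlib or in the library) -/
theorem jordan_cc {G : Type} [Group G] [Finite G] (H : Subgroup G)
    (h : ∀ g : G, ∃ x : G, x⁻¹ * g * x ∈ H) : H = ⊤ := by
  let f : Option ((G ⧸ H) × {y : H // y ≠ 1}) → G := fun o =>
    o.elim 1 fun p => p.1.out * p.2.1 * p.1.out⁻¹
  have hf : Function.Surjective f := fun g => by
    by_cases hg : g = 1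
    · exact ⟨none, hg.symm⟩
    obtain ⟨x, hx⟩ := h g
    obtain ⟨y, hy⟩ := QuotientGroup.mk_out_eq_mul H x
    have h1 : (x : G ⧸ H).out⁻¹ * g * (x : G ⧸ H).out ∈ H := by
      rw [hy, show (x * y)⁻¹ * g * (x * y) = (y : G)⁻¹ * (x⁻¹ * g * x) * y by group]
      exact mul_mem (mul_mem (inv_mem y.2) hx) y.2
    refine ⟨some (x, ⟨⟨_, h1⟩, fun e => hg ?_⟩), by simp [f, mul_assoc]⟩
    have h2 : (x : G ⧸ H).out⁻¹ * g * (x : G ⧸ H).out = 1 := congrArg Subtype.val e
    rw [mul_assoc, inv_mul_eq_one] at h2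
    exact mul_eq_right.1 h2.symm
  have h1 := Nat.card_le_card_of_surjective f hf
  have h2 : Nat.card {y : H // y ≠ 1} + 1 = Nat.card H := by
    rw [← Finite.card_option]
    exact Nat.card_congr (Equiv.optionSubtypeNe 1)
  rw [Finite.card_option, Nat.card_prod, ← H.index_mul_card, ← h2, mul_add, mul_one,
    ← Subgroup.index_eq_card] at h1
  have h3 := H.index_ne_zero_of_finite
  exact Subgroup.index_eq_one.1 (by omega)

theorem zdec_normal {g : N ≃ₐ[K] N} (hg : g ∈ geoP k K N) (x : N ≃ₐ[K] N) :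
    x⁻¹ * g * x ∈ geoP k K N := fun y hy => by
  have h1 : (cP (k := k) K N).IsIntegralElem (x y) := by
    obtain ⟨p, hp, h0⟩ := hy
    refine ⟨p, hp, ?_⟩
    have h2 := Polynomial.hom_eval₂ p (cP (k := k) K N) (x : N →+* N) y
    rw [h0, map_zero, show (x : N →+* N).comp (cP (k := k) K N) = cP K N from
      RingHom.ext fun a => x.commutes _] at h2
    exact h2.symm
  rw [AlgEquiv.mul_apply, AlgEquiv.mul_apply, hg _ h1, ← AlgEquiv.mul_apply, inv_mul_cancel,
    AlgEquiv.one_apply]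

theorem zdec_inert {z : k} (h : ∀ g ∈ geoP k K N, ∀ w : Vl N,
    Cen (toF k[X] K N) w (Polynomial.X - Polynomial.C z) → ∃ x : N ≃ₐ[K] N, x⁻¹ * g * x ∈ Dec K w) :
    Inert K (toF k[X] K N) (Polynomial.X - Polynomial.C z) := fun w hw => by
  have h1 : (Dec K w).subgroupOf (geoP k K N) = ⊤ := jordan_cc _ fun g => by
    obtain ⟨x, hx⟩ := h g g.2 w hw
    obtain ⟨δ, hδ, γ, hγ, e⟩ := dec_geo hw x⁻¹
    refine ⟨⟨γ, hγ⟩⁻¹, Subgroup.mem_subgroupOf.2 ?_⟩
    have h2 : x = γ⁻¹ * δ⁻¹ := by rw [← mul_inv_rev, ← e, inv_inv]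
    have h3 := mul_mem (mul_mem (inv_mem hδ) hx) hδ
    rw [h2, show δ⁻¹ * ((γ⁻¹ * δ⁻¹)⁻¹ * g * (γ⁻¹ * δ⁻¹)) * δ = γ * g * γ⁻¹ by group] at h3
    simpa using h3
  refine eq_top_iff.2 fun g _ => ?_
  obtain ⟨δ, hδ, γ, hγ, rfl⟩ := dec_geo hw g
  exact mul_mem hδ (Subgroup.subgroupOf_eq_top.1 h1 hγ)

/-- `hil_all` over `g ∈ geoP`, `hil_of_loc` with `exists_fpt`, `dec_of_fpt` (`r` a uniformiser).
`geoP` is normal; by `dec_geo` the conjugating element can be taken in `geoP`; `jordan_cc` for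
`(Dec K w).subgroupOf geoP`, and `dec_geo` again. -/
theorem hil_dec (F₀ : Type) [Field F₀] [Finite F₀] [Algebra (RatFunc F₀) k]
  [FiniteDimensional (RatFunc F₀) k] (K N : Type) [Field K] [Field N]
    [Algebra k[X] K] [IsFractionRing k[X] K] [Algebra K N] [FiniteDimensional K N] [IsGalois K N] :
    Hil (plR k) fun _ a => Inert K (toF k[X] K N) (Polynomial.X - Polynomial.C (slp a)) := by
  let G : geoP k K N → Place k → k → Prop := fun g _ z => ∀ w : Vl N,
    Cen (toF k[X] K N) w (Polynomial.X - Polynomial.C z) →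
      ∃ x : N ≃ₐ[K] N, x⁻¹ * g * x ∈ Dec K w
  have h1 : ∀ g, Loc1 (plR k) (G g) := fun g S => by
    obtain ⟨v, hv, s, hs⟩ := exists_fpt F₀ g.2 S
    obtain ⟨π, hπ⟩ := plv_nrm v
    have h0 : π ≠ 0 := fun e => by
      rw [e, map_zero] at hπ
      exact WithZero.exp_ne_zero hπ.symm
    have hlt : plv v π < 1 := by
      rw [hπ, ← WithZero.exp_zero, WithZero.exp_lt_exp]
      norm_num
    refine ⟨v, hv, s, π, h0, (plv_le v _).1 s.2, (plv_le v _).1 hlt.le, fun z hz w hw =>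
      dec_of_fpt (plv_nrm v) hs ?_ hw⟩
    rw [← div_mul_cancel₀ (z - s) h0, map_mul]
    exact (mul_le_of_le_one_left' ((plv_le v _).2 hz)).trans_lt hlt
  refine (hil_all (fun g => hil_of_loc (h1 g)) fun g T T' a hT ⟨v, hv, h⟩ =>
    ⟨v, hT hv, h⟩).mono fun T a _ h => zdec_inert fun g hg => ?_
  obtain ⟨v, -, hv⟩ := h ⟨g, hg⟩
  exact hv

end Pool.Agent.ZFy.ZL
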