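import Pool.Agent.Lib.MP_879916_ag.SS.ZRt
import Pool.Agent.Lib.MP_751085_ag.ZF.Z.Quot1

/-! Values of a polynomial whose order is prime to `l`. -/

namespace Pool.Agent.ZFy.ZL

open Pool.Agent.ZCy Pool.Agent.ZFN
open scoped Classical WithZero Polynomial

set_option linter.unusedSectionVars false

theorem zex_ev {N : Type} [Field N] {w : Vl N} {f : N[X]} (hf : ∀ i, w (f.coeff i) ≤ 1) {x : N}
    (hx : w x ≤ 1) : w (f.eval x) ≤ 1 := by
  rw [Polynomial.eval_eq_sum_range]
  refine w.map_sum_le fun i _ => ?_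
  rw [map_mul, map_pow]
  exact mul_le_one' (hf i) (pow_le_one' hx i)

theorem zex_pow {N : Type} [Field N] {w : Vl N} {x y : N} (hx : w x ≤ 1) (hy : w y ≤ 1) (i : ℕ) :
    w (x ^ i - y ^ i) ≤ w (x - y) := by
  induction i with
  | zero => simp
  | succ i ih =>
    rw [show x ^ (i + 1) - y ^ (i + 1) = x * (x ^ i - y ^ i) + y ^ i * (x - y) by ring]
    refine w.map_add_le ?_ ?_
    · rw [map_mul]
      exact (mul_le_of_le_one_left' hx).trans ih
    · rw [map_mul, map_pow]
      exact mul_le_of_le_one_left' (pow_le_one' hy i)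

theorem zex_sub {N : Type} [Field N] {w : Vl N} {f : N[X]} (hf : ∀ i, w (f.coeff i) ≤ 1) {x y : N}
    (hx : w x ≤ 1) (hy : w y ≤ 1) : w (f.eval x - f.eval y) ≤ w (x - y) := by
  rw [Polynomial.eval_eq_sum_range, Polynomial.eval_eq_sum_range, ← Finset.sum_sub_distrib]
  refine w.map_sum_le fun i _ => ?_
  rw [← mul_sub, map_mul]
  exact (mul_le_of_le_one_left' (hf i)).trans (zex_pow hx hy i)

theorem zex_fin {N : Type} [Field N] (F₀ : Type) [Field F₀] [Finite F₀] [Algebra (RatFunc F₀) N]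
    [FiniteDimensional (RatFunc F₀) N] (f : N[X]) :
    {w : Vl N | Nrm w ∧ ∃ i, 1 < w (f.coeff i)}.Finite := by
  refine (f.support.finite_toSet.biUnion fun i _ => finite_pole F₀ (f.coeff i)).subset ?_
  rintro w ⟨hw, i, hi⟩
  refine Set.mem_biUnion (Polynomial.mem_support_iff.2 fun e => ?_) ⟨hw, hi⟩
  simp [e] at hi

theorem zex_pol {N : Type} [Field N] (F₀ : Type) [Field F₀] [Finite F₀] [Algebra (RatFunc F₀) N]
    {w : Vl N} (h : w (pol N F₀ Polynomial.X) ≤ 1) (s : F₀[X]) : w (pol N F₀ s) ≤ 1 := by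
  have hc : ∀ a : F₀, w (pol N F₀ (Polynomial.C a)) ≤ 1 := fun a => by
    rcases eq_or_ne a 0 with rfl | h0
    · simp
    · have := Fintype.ofFinite F₀
      have e := FiniteField.pow_card_sub_one_eq_one a h0
      have h1 : w (pol N F₀ (Polynomial.C a)) ^ (Fintype.card F₀ - 1) = 1 := by
        rw [← map_pow, ← map_pow, ← map_pow, e, map_one, map_one, map_one]
      exact ((pow_eq_one_iff_of_nonneg zero_le (by
        have := Fintype.one_lt_card (α := F₀)
        omega)).1 h1).le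
  induction s using Polynomial.induction_on' with
  | add p q hp hq =>
    rw [map_add]
    exact w.map_add_le hp hq
  | monomial n a =>
    rw [← Polynomial.C_mul_X_pow_eq_monomial, map_mul, map_mul, map_pow, map_pow]
    exact mul_le_one' (hc a) (pow_le_one' h n)

theorem zex_core {k k₁ N : Type} [Field k] [Field k₁] [Field N] (F₀ : Type) [Field F₀] [Finite F₀]
    [Algebra (RatFunc F₀) k] [Algebra k k₁] [Algebra k₁ N] [Algebra k N] [Algebra (RatFunc F₀) N]
    [IsScalarTower k k₁ N] [IsScalarTower (RatFunc F₀) k N] [FiniteDimensional (RatFunc F₀) N]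
    [IsGalois (RatFunc F₀) N] (p : ℕ) [Fact p.Prime] [CharP F₀ p] {l : ℕ} (hl : l.Prime)
    (hlp : l ≠ p) {u : k₁[X]} {θ : N} {e m : ℕ} {B : N[X]} (hm : ¬l ∣ m)
    (hu : u.map (algebraMap k₁ N) = (Polynomial.X ^ p ^ e - Polynomial.C θ) ^ m * B)
    (hc : IsCoprime (Polynomial.X ^ p ^ e - Polynomial.C θ) B) :
    Loc1 (plR k) fun v z => u.eval (algebraMap k k₁ z) ≠ 0 ∧
      ∃ w₁ : Vl k₁, Nrm w₁ ∧ Over (algebraMap k k₁) (plv v) w₁ ∧
        ¬(l : ℤ) ∣ ord w₁ (u.eval (algebraMap k k₁ z)) := by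
  intro S
  have : FiniteDimensional k N := .right (RatFunc F₀) k N
  obtain ⟨a, b, hab⟩ := hc
  obtain ⟨w, s, j, hw, hS, hX, hs⟩ := ex_root F₀ p θ e
    (((((S.finite_toSet.biUnion fun v _ => finite_over (E := N) (plv v)).union
      (zex_fin F₀ a)).union (zex_fin F₀ b)).union (zex_fin F₀ B)).union
      (zex_fin F₀ (u.map (algebraMap k₁ N))))
  simp only [Set.mem_union, not_or, Set.mem_ofPred_eq, hw, true_and, not_exists, not_lt,
    Set.mem_iUnion] at hS
  obtain ⟨⟨⟨⟨h1, ha⟩, hb⟩, hB⟩, hU⟩ := hS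
  obtain ⟨w₀, n0, o0⟩ := exists_nrm_sub (Algebra.ofId k N) hw
  obtain ⟨v, rfl⟩ := plv_surj n0
  replace o0 : Over (algebraMap k N) (plv v) w := o0
  obtain ⟨w₁, n1, o1⟩ := exists_nrm_sub (IsScalarTower.toAlgHom k k₁ N) hw
  replace o1 : Over (algebraMap k₁ N) w₁ w := o1
  have es : algebraMap k N (pol k F₀ s) = pol N F₀ s :=
    (IsScalarTower.algebraMap_apply (RatFunc F₀) k N _).symm
  have s1 := zex_pol F₀ hX s
  obtain ⟨π, hπ⟩ := plv_nrm v
  have π1 : plv v π < 1 := (lt_one_iff_le_exp _).2 hπ.le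
  have π0 : π ≠ 0 := (plv v).ne_zero_iff.1 (hπ ▸ WithZero.exp_ne_zero)
  have pp : 0 < p ^ j := pow_pos (Fact.out : p.Prime).pos j
  have hA : w ((Polynomial.X ^ p ^ e - Polynomial.C θ).eval (pol N F₀ s)) =
      WithZero.exp (-((p ^ j : ℕ) : ℤ)) := by simpa using hs
  have hB1 : w (B.eval (pol N F₀ s)) = 1 := by
    refine (zex_ev hB s1).eq_or_lt.resolve_right fun h => ?_
    have e1 := congrArg (fun f => w (f.eval (pol N F₀ s))) hab
    simp only [Polynomial.eval_add, Polynomial.eval_mul, Polynomial.eval_one, map_one] at e1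
    refine (w.map_add_lt ?_ ?_).ne e1
    · rw [map_mul, hA]
      refine (mul_le_of_le_one_left' (zex_ev ha s1)).trans_lt ?_
      rw [← WithZero.exp_zero, WithZero.exp_lt_exp]
      omega
    · rw [map_mul]
      exact (mul_le_of_le_one_left' (zex_ev hb s1)).trans_lt h
  have hus : w ((u.map (algebraMap k₁ N)).eval (pol N F₀ s)) =
      WithZero.exp (-((m * p ^ j : ℕ) : ℤ)) := by
    rw [hu, Polynomial.eval_mul, Polynomial.eval_pow, map_mul, map_pow, hA, hB1, mul_one,
      ← WithZero.exp_nsmul]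
    congr 1
    simp
  refine ⟨v, fun h => h1 v h o0, pol k F₀ s, π ^ (m * p ^ j + 1), pow_ne_zero _ π0,
    (plv_le v _).1 ((o0 _).1 (es ▸ s1)), pow_mem ((plv_le v _).1 π1.le) _, fun z hz => ?_⟩
  have d1 : w (algebraMap k N z - pol N F₀ s) < WithZero.exp (-((m * p ^ j : ℕ) : ℤ)) := by
    have e1 : algebraMap k N z - pol N F₀ s = algebraMap k N ((z - pol k F₀ s) /
        π ^ (m * p ^ j + 1)) * algebraMap k N π ^ (m * p ^ j + 1) := by
      rw [← map_pow, ← map_mul, div_mul_cancel₀ _ (pow_ne_zero _ π0), map_sub, es]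
    rw [e1, map_mul, map_pow]
    refine (mul_le_of_le_one_left' ((o0 _).2 ((plv_le v _).2 hz))).trans_lt ?_
    refine (pow_le_pow_left' ((lt_one_iff_le_exp _).1 ((o0.lt_one π).2 π1)) _).trans_lt ?_
    rw [← WithZero.exp_nsmul, WithZero.exp_lt_exp]
    simp
  have z1 : w (algebraMap k N z) ≤ 1 := by
    rw [← sub_add_cancel (algebraMap k N z) (pol N F₀ s)]
    refine w.map_add_le (d1.le.trans ?_) s1
    rw [← WithZero.exp_zero, WithZero.exp_le_exp]
    omega
  have huz : w (algebraMap k₁ N (u.eval (algebraMap k k₁ z))) =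
      WithZero.exp (-((m * p ^ j : ℕ) : ℤ)) := by
    rw [← Polynomial.eval₂_at_apply, ← IsScalarTower.algebraMap_apply, ← Polynomial.eval_map,
      ← hus]
    refine w.map_eq_of_sub_lt ?_
    rw [hus]
    exact (zex_sub hU z1 s1).trans_lt d1
  refine ⟨fun h => ?_, w₁, n1, fun x => ?_, fun h => ?_⟩
  · rw [h, map_zero, map_zero] at huz
    exact WithZero.exp_ne_zero huz.symm
  · rw [← o1, ← IsScalarTower.algebraMap_apply]
    exact o0 x
  · obtain ⟨c, -, hc⟩ := o1.idx n1
    have e1 := hc.ord (u.eval (algebraMap k k₁ z))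
    rw [ord, huz, WithZero.log_exp, neg_neg] at e1
    have e2 : l ∣ m * p ^ j := Int.natCast_dvd_natCast.1 (e1 ▸ h.mul_left _)
    rcases hl.dvd_mul.1 e2 with h | h
    · exact hm h
    · exact hlp ((Nat.prime_dvd_prime_iff_eq hl Fact.out).1 (hl.dvd_of_dvd_pow h))

theorem zex_sep {k k₁ : Type} [Field k] [Field k₁] (F₀ : Type) [Field F₀] [Finite F₀]
    [Algebra (RatFunc F₀) k] [FiniteDimensional (RatFunc F₀) k]
    [Algebra.IsSeparable (RatFunc F₀) k] [Algebra k k₁] [FiniteDimensional k k₁] [IsGalois k k₁]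
    {l : ℕ} (hl : l.Prime) (h0 : (l : k) ≠ 0) {P Q : k₁[X]} (hP : Prime P) (hQ : ¬P ∣ Q) {m : ℕ}
    (hm : ¬l ∣ m) : Loc1 (plR k) fun v z => (P ^ m * Q).eval (algebraMap k k₁ z) ≠ 0 ∧
      ∃ w₁ : Vl k₁, Nrm w₁ ∧ Over (algebraMap k k₁) (plv v) w₁ ∧
        ¬(l : ℤ) ∣ ord w₁ ((P ^ m * Q).eval (algebraMap k k₁ z)) := by
  obtain ⟨p, hp⟩ := CharP.exists F₀
  have : Fact p.Prime := ⟨CharP.char_is_prime F₀ p⟩
  have : CharP k p := charP_of_injective_ringHom
    (f := (algebraMap (RatFunc F₀) k).comp RatFunc.C) (RingHom.injective _) p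
  have : CharP k₁ p := charP_of_injective_ringHom (f := algebraMap k k₁) (RingHom.injective _) p
  have hlp : l ≠ p := fun e => h0 (e ▸ CharP.cast_eq_zero k p)
  obtain ⟨e, P₀, hs, hP₀⟩ := Polynomial.exists_separable_of_irreducible p hP.irreducible
    (Fact.out : p.Prime).ne_zero
  have hi : Irreducible P₀ := Polynomial.of_irreducible_expand_pow (Fact.out : p.Prime).ne_zero
    (hP₀ ▸ hP.irreducible)
  have : Fact (Irreducible P₀) := ⟨hi⟩
  let _ : Algebra (RatFunc F₀) k₁ :=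
    ((algebraMap k k₁).comp (algebraMap (RatFunc F₀) k)).toAlgebra
  have : IsScalarTower (RatFunc F₀) k k₁ := .of_algebraMap_eq fun _ => rfl
  have : FiniteDimensional (RatFunc F₀) k₁ := .trans (RatFunc F₀) k k₁
  have : Algebra.IsSeparable (RatFunc F₀) k₁ := .trans (RatFunc F₀) k k₁
  have : FiniteDimensional k₁ (AdjoinRoot P₀) := (AdjoinRoot.powerBasis hi.ne_zero).finite
  have : Algebra.IsSeparable k₁ (AdjoinRoot P₀) := by
    have h1 : IsSeparable k₁ (AdjoinRoot.root P₀) :=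
      hs.of_dvd (minpoly.dvd _ _ (by simp))
    have h2 := (IntermediateField.isSeparable_adjoin_simple_iff_isSeparable k₁ _).2 h1
    rw [IntermediateField.adjoin_root_eq_top] at h2
    exact .of_algHom k₁ _ IntermediateField.topEquiv.symm.toAlgHom
  have : FiniteDimensional (RatFunc F₀) (AdjoinRoot P₀) := .trans (RatFunc F₀) k₁ _
  have : Algebra.IsSeparable (RatFunc F₀) (AdjoinRoot P₀) := .trans (RatFunc F₀) k₁ _
  obtain ⟨N, _, _, _, _, _, _, -⟩ := exists_gc (RatFunc F₀) (AdjoinRoot P₀)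
  let _ : Algebra k₁ N :=
    ((algebraMap (AdjoinRoot P₀) N).comp (algebraMap k₁ (AdjoinRoot P₀))).toAlgebra
  let _ : Algebra k N := ((algebraMap k₁ N).comp (algebraMap k k₁)).toAlgebra
  have : IsScalarTower k k₁ N := .of_algebraMap_eq fun _ => rfl
  have : IsScalarTower k₁ (AdjoinRoot P₀) N := .of_algebraMap_eq fun _ => rfl
  have : IsScalarTower (RatFunc F₀) k N := .of_algebraMap_eq fun x => by
    rw [IsScalarTower.algebraMap_apply (RatFunc F₀) (AdjoinRoot P₀) N,
      IsScalarTower.algebraMap_apply (RatFunc F₀) k₁ (AdjoinRoot P₀)]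
    rfl
  have hr : (P₀.map (algebraMap k₁ N)).IsRoot
      (algebraMap (AdjoinRoot P₀) N (AdjoinRoot.root P₀)) := by
    rw [Polynomial.IsRoot, Polynomial.eval_map_algebraMap, Polynomial.aeval_algebraMap_apply]
    simp
  obtain ⟨R, hR⟩ := Polynomial.dvd_iff_isRoot.2 hr
  generalize algebraMap (AdjoinRoot P₀) N (AdjoinRoot.root P₀) = θ at hR
  have c1 : IsCoprime (Polynomial.X - Polynomial.C θ) R :=
    Polynomial.Separable.isCoprime (hR ▸ hs.map)
  have e1 : Polynomial.expand N (p ^ e) (Polynomial.X - Polynomial.C θ) =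
      Polynomial.X ^ p ^ e - Polynomial.C θ := by simp
  have e2 : P.map (algebraMap k₁ N) =
      (Polynomial.X ^ p ^ e - Polynomial.C θ) * Polynomial.expand N (p ^ e) R := by
    rw [← hP₀, Polynomial.map_expand, hR, map_mul, e1]
  have c2 := c1.map (Polynomial.expand N (p ^ e) : N[X] →+* N[X])
  have c3 := ((hP.irreducible.coprime_iff_not_dvd.2 hQ).map
    (Polynomial.mapRingHom (algebraMap k₁ N)))
  rw [Polynomial.coe_mapRingHom, e2] at c3
  rw [RingHom.coe_coe, e1] at c2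
  refine zex_core F₀ p hl hlp hm (N := N) (θ := θ) (e := e)
    (B := Polynomial.expand N (p ^ e) R ^ m * Q.map (algebraMap k₁ N)) ?_
    (c2.pow_right.mul_right c3.of_mul_left_left)
  rw [Polynomial.map_mul, Polynomial.map_pow, e2, mul_pow, mul_assoc]

/-- Choose a separable structure over `F₀(t)` (`exists_sep_alg`). Write `P = expand (p ^ e) P₀`
with `P₀` separable, let `k₂` be Galois over `F₀(t)`, containing `k₁` and splitting `P₀`
(`exists_gc`), `θ` a root of `P₀`. Take `ex_root`, where `S` contains the valuations over the given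
places (`finite_over`), the poles of the coefficients of `P`, `Q`, of a Bezout identity for `P`, `Q`,
and the zeros and poles of the leading coefficient and of the differences of the roots. Then
`ord w (u s) = m p ^ j`. Restrict `w` to `k₁` and `k` (`exists_nrm_sub`, `plv_surj`); take
`r = π ^ n` with `n` large. -/
theorem ex_loc {k k₁ : Type} [Field k] [Field k₁] (F₀ : Type) [Field F₀] [Finite F₀] [Algebra (RatFunc F₀) k]
  [FiniteDimensional (RatFunc F₀) k] [Algebra k k₁] [FiniteDimensional k k₁] [IsGalois k k₁]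
    {l : ℕ} (hl : l.Prime) (h0 : (l : k) ≠ 0) {P Q : k₁[X]} (hP : Prime P) (hQ : ¬P ∣ Q) {m : ℕ}
    (hm : ¬l ∣ m) : Loc1 (plR k) fun v z => (P ^ m * Q).eval (algebraMap k k₁ z) ≠ 0 ∧
      ∃ w₁ : Vl k₁, Nrm w₁ ∧ Over (algebraMap k k₁) (plv v) w₁ ∧
        ¬(l : ℤ) ∣ ord w₁ ((P ^ m * Q).eval (algebraMap k k₁ z)) := by
  obtain ⟨i, f1, f2⟩ := exists_sep_alg k F₀
  exact @zex_sep k k₁ _ _ F₀ _ _ i f1 f2 _ _ _ l hl h0 P Q hP hQ m hm

end Pool.Agent.ZFy.ZL
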