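import Pool.Agent.Lib.MP_879916_ag.SS.ZCk
import Pool.Agent.Lib.MP_879916_ag.SS.ZCr
import Pool.Agent.Lib.MP_879916_ag.SS.ZDec
import Pool.Agent.Lib.MP_879916_ag.SS.ZEx
import Pool.Agent.Lib.MP_751085_ag.ZF.Z.Mon

/-! Constant radicals do not split. -/

namespace Pool.Agent.ZFy.ZL

open Pool.Agent.ZCy Pool.Agent.ZFN
open scoped Classical WithZero Polynomial

set_option linter.unusedSectionVars false

variable {l : ℕ} {k K N : Type} [Field k] [Field K] [Field N] [Algebra k[X] K]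
  [IsFractionRing k[X] K] [Algebra K N] [FiniteDimensional K N] [IsGalois K N]

variable {k₁ : Type} [Field k₁] [Algebra k k₁] [FiniteDimensional k k₁] {c : k₁ →+* N}

/-- `exists_cst`, `hil_dec`, `hil_all` over the characters with `exists_chr_rad`, `ex_loc`,
`hil_of_loc`; `Hil.and`, `cstOK_of` -/
theorem hil_cst (F₀ : Type) [Field F₀] [Finite F₀] [Algebra (RatFunc F₀) k]
  [FiniteDimensional (RatFunc F₀) k] (hl : l.Prime) (h0 : (l : k) ≠ 0) {ζ : N}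
    (hζ : IsPrimitiveRoot ζ l) : Hil (plR k) fun 𝒯 a =>
      Inert K (toF k[X] K N) (Polynomial.X - Polynomial.C (slp a)) ∧ CstOK K l N 𝒯 (slp a) := by
  obtain ⟨k₁, _, _, _, _, c, hc⟩ := exists_cst k K N
  have : NeZero l := ⟨hl.ne_zero⟩
  have : Finite (geoP k K N →* Multiplicative (ZMod l)) := DFunLike.finite _
  have h1 := hil_all (R := plR k) (ι := geoP k K N →* Multiplicative (ZMod l))
    (P := fun χ 𝒯 a => χ ≠ 1 → ∃ (r : N) (u : k₁[X]), r ^ l = cX (k := k) K c u ∧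
      (∀ g : geoP k K N, (g : N ≃ₐ[K] N) r = ζ ^ (χ g).toAdd.val * r) ∧
      u.eval (algebraMap k k₁ (slp a)) ≠ 0 ∧ ∃ v ∈ 𝒯, ∃ w₁ : Vl k₁, Nrm w₁ ∧
        Over (algebraMap k k₁) (plv v) w₁ ∧
          ¬(l : ℤ) ∣ ord w₁ (u.eval (algebraMap k k₁ (slp a))))
    (fun χ => by
      by_cases hχ : χ = 1
      · exact (hil_true _).mono fun _ _ _ _ h => (h hχ).elim
      obtain ⟨r, P, Q, m, -, hP, hQ, hm, h2, h3⟩ := exists_chr_rad hl hc hζ χ hχ
      exact (hil_of_loc (ex_loc F₀ hl h0 hP hQ hm)).mono fun _ _ _ ⟨v, hv, h4, h5⟩ _ =>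
        ⟨r, _, h2, h3, h4, v, hv, h5⟩)
    fun χ T T' a hT h hχ => by
      obtain ⟨r, u, h2, h3, h4, v, hv, h5⟩ := h hχ
      exact ⟨r, u, h2, h3, h4, v, hT hv, h5⟩
  refine ((hil_dec F₀ K N).and h1 (fun _ _ _ _ h => h) fun T T' a hT h χ hχ => ?_).mono
    fun T a _ h => ⟨h.1, cstOK_of hl hc hζ h.1 h.2⟩
  obtain ⟨r, u, h2, h3, h4, v, hv, h5⟩ := h χ hχ
  exact ⟨r, u, h2, h3, h4, v, hT hv, h5⟩

end Pool.Agent.ZFy.ZL
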