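import Pool.Agent.Lib.MP_879916_ag.SS.ZRad
import Pool.Agent.Lib.MP_751085_ag.ZF.Z.Mon
import Pool.Agent.Lib.MP_751085_ag.ZF.Z.Hall
import Pool.Agent.Lib.MP_751085_ag.ZF.Z.Kum

/-! Inertness in all `l`-extensions: the group theory. -/

namespace Pool.Agent.ZFy.ZL

open Pool.Agent.ZCy Pool.Agent.ZFN
open scoped Classical WithZero Polynomial

set_option linter.unusedSectionVars false

variable {l : ℕ} {k K N : Type} [Field k] [Field K] [Field N] [Algebra k[X] K]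
  [IsFractionRing k[X] K] [Algebra K N] [FiniteDimensional K N] [IsGalois K N]

theorem zhm_comp {M Ω : Type} [Field M] [Field Ω] [Algebra K M] [Algebra K Ω] (m : M →ₐ[K] Ω) :
    (m : M →+* Ω).comp (toF k[X] K M) = toF k[X] K Ω := RingHom.ext fun _ => m.commutes _

theorem zhm_over {M Ω : Type} [Field M] [Field Ω] (m : M →+* Ω) (w : Vl Ω) :
    Over m (w.comap m) w := fun _ => Iff.rfl

theorem zhm_unP {M M' Ω : Type} [Field M] [Field M'] [Field Ω] [Algebra K M] [Algebra K M']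
    [Algebra K Ω] [FiniteDimensional K M] [IsGalois K M] [FiniteDimensional K M'] [IsGalois K M']
    (m : M →ₐ[K] Ω) (m' : M' →ₐ[K] Ω)
    (h : ∀ g : Ω ≃ₐ[K] Ω, (∀ x, g (m x) = m x) → (∀ x, g (m' x) = m' x) → g = 1) {u : Vl k}
    (h1 : UnP K u (toF k[X] K M)) (h2 : UnP K u (toF k[X] K M')) : UnP K u (toF k[X] K Ω) := by
  intro W hW
  refine eq_bot_iff.2 fun g hg => Subgroup.mem_bot.2 (h g (ine_fix_sub m (h1 _ ?_) hg)
    (ine_fix_sub m' (h2 _ ?_) hg))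
  · exact (GauP.of_over (zhm_over (m : M →+* Ω) W)).1 (by rwa [zhm_comp])
  · exact (GauP.of_over (zhm_over (m' : M' →+* Ω) W)).1 (by rwa [zhm_comp])

theorem zhm_unr {M M' Ω : Type} [Field M] [Field M'] [Field Ω] [Algebra K M] [Algebra K M']
    [Algebra K Ω] [FiniteDimensional K M] [IsGalois K M] [FiniteDimensional K M'] [IsGalois K M']
    (m : M →ₐ[K] Ω) (m' : M' →ₐ[K] Ω)
    (h : ∀ g : Ω ≃ₐ[K] Ω, (∀ x, g (m x) = m x) → (∀ x, g (m' x) = m' x) → g = 1) {Δ : k[X]}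
    (h1 : UnrOff K (toF k[X] K M) Δ) (h2 : UnrOff K (toF k[X] K M') Δ) :
    UnrOff K (toF k[X] K Ω) Δ := by
  intro P W hP hd hW
  refine eq_bot_iff.2 fun g hg => Subgroup.mem_bot.2 (h g (ine_fix_sub m (h1 P _ hP hd ?_) hg)
    (ine_fix_sub m' (h2 P _ hP hd ?_) hg))
  · exact (cen_of_over (zhm_over (m : M →+* Ω) W)).1 (by rwa [zhm_comp])
  · exact (cen_of_over (zhm_over (m' : M' →+* Ω) W)).1 (by rwa [zhm_comp])

theorem zhm_surj {M Ω : Type} [Field M] [Field Ω] [Algebra K M] [Algebra K Ω]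
    [FiniteDimensional K Ω] [IsGalois K Ω] (j : M →ₐ[K] Ω)
    {r : (Ω ≃ₐ[K] Ω) →* (M ≃ₐ[K] M)} (hr : Rs (j : M →+* Ω) r) (g : M ≃ₐ[K] M) :
    ∃ s, r s = g := by
  obtain ⟨s, hs⟩ := exists_twist_sub (K := K) (j : M →+* Ω) j.commutes (RingHom.id Ω)
    ((j : M →+* Ω).comp (g : M →+* M)) fun a => (congrArg j (g.commutes a)).trans (j.commutes a)
  exact ⟨s, AlgEquiv.ext fun x => j.injective ((hr s x).trans (hs x).symm)⟩

/-- an inert subextension: the group is generated by the decomposition group and the fixer -/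
theorem zhm_dv {M Ω : Type} [Field M] [Field Ω] [Algebra K M] [Algebra K Ω]
    [FiniteDimensional K M] [IsGalois K M] [FiniteDimensional K Ω] [IsGalois K Ω] (m : M →ₐ[K] Ω)
    {P : k[X]} (hI : Inert K (toF k[X] K M) P) {W : Vl Ω} (hW : Cen (toF k[X] K Ω) W P)
    (g : Ω ≃ₐ[K] Ω) : ∃ δ ∈ Dec K W, ∃ v ∈ fixS K (Set.range m), g = δ * v := by
  obtain ⟨r, hr⟩ := exists_rs (K' := K) (φ := RingHom.id K) (j := (m : M →+* Ω)) m.commutes
  have h1 := hI _ ((cen_of_over (zhm_over (m : M →+* Ω) W)).1 (by rwa [zhm_comp]))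
  obtain ⟨δ, hδ, e⟩ := hr.dec_onto m.commutes (zhm_over (m : M →+* Ω) W) (g := r g)
    (h1 ▸ Subgroup.mem_top _)
  refine ⟨δ, hδ, δ⁻¹ * g, mem_fixS_range.2 fun x => ?_, (mul_inv_cancel_left δ g).symm⟩
  have h2 := hr (δ⁻¹ * g) x
  rw [map_mul, map_inv, e, inv_mul_cancel] at h2
  exact h2.symm

/-- Let `Ω` be the compositum of `M` and `N₂` (`exists_cmp`, maps `j`, `m`); `j ∘ e` and `m ∘ e₂`
have the same range (`exists_twist`). Let `P = fixS K (range e)`, an `l`-group, `w` on `Ω` centred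
at `X - z`, `D = Dec K w`, `D_M` its image. `D V` is everything for `V = fixS K (range m)` by `hI`
(`Rs.dec_onto`). If `D_M ⊓ P ≠ P`, take `χ` from `hall_chr`, `r` from `exists_radical`, `r ^ l = e u`
(`kum_fix`), `tw_of_unr`. By `hK` and `radical_cst` there is a constant `b` with `j r / b` fixed by
`V`; `Ω` is unramified at `𝒯` (`ine_fix_sub`, `GauP.of_over`), so `hC` says that `V` fixes `b`, hence
`j r`. Write a lift of `g ∈ P` with `χ g ≠ 1` as `δ v`: contradiction. So `P ≤ D_M`, and `D_M = ⊤`. -/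
theorem hl_main (hl : l.Prime) {ζ : N} (hζ : IsPrimitiveRoot ζ l) {N₂ : Type} [Field N₂]
    [Algebra K N₂] [FiniteDimensional K N₂] [IsGalois K N₂] {Δ : k[X]} {e₂ : N →ₐ[K] N₂}
    (hK : KumN K l Δ e₂) {𝒯 : Finset (Place k)} {z : k}
    (hI : Inert K (toF k[X] K N₂) (Polynomial.X - Polynomial.C z)) (hC : CstOK K l N₂ 𝒯 z)
    (hU : ∀ v ∈ 𝒯, UnP K (plv v) (toF k[X] K N₂)) : HLs K l N Δ 𝒯 z := by
  intro M _ _ _ _ e hu hT hL w₀ hw₀
  have : NeZero l := ⟨hl.ne_zero⟩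
  obtain ⟨Ω, _, _, _, _, j, m, hjm⟩ := exists_cmp K M N₂
  obtain ⟨W, ho, hW⟩ := exists_cen_over j hw₀
  rw [zhm_comp] at hW
  obtain ⟨ρ, hρ⟩ := exists_rs (K' := K) (φ := RingHom.id K) (j := (j : M →+* Ω)) j.commutes
  have hρ' : ∀ g x, j (ρ g x) = g (j x) := hρ
  obtain ⟨τ, hτ⟩ := exists_twist (K := K) ((j.comp e : N →ₐ[K] Ω) : N →+* Ω)
    ((m.comp e₂ : N →ₐ[K] Ω) : N →+* Ω) fun a =>
      ((m.comp e₂).commutes a).trans ((j.comp e).commutes a).symm
  have hτ' : ∀ x, m (e₂ x) = j (e (τ x)) := hτ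
  have hV : ∀ v ∈ fixS K (Set.range m), ρ v ∈ fixS K (Set.range e) := fun v hv =>
    mem_fixS_range.2 fun x => j.injective (by
      obtain ⟨y, rfl⟩ := τ.surjective x
      change j (ρ v (e (τ y))) = j (e (τ y))
      rw [hρ', ← hτ', mem_fixS_range.1 hv])
  have hP : fixS K (Set.range e) ≤ Dec K w₀ := by
    by_contra hc
    obtain ⟨χ, hχ, g, hg⟩ := hall_chr hl hL (F := (Dec K w₀).subgroupOf (fixS K (Set.range e)))
      fun h => hc (Subgroup.subgroupOf_eq_top.1 h)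
    have hz : IsPrimitiveRoot (e ζ) l := hζ.map_of_injective (e : N →+* M).injective
    obtain ⟨r, h0, hr⟩ := exists_radical _ hz (fun g hg => mem_fixS_range.1 hg ζ) χ
    have hD : ∀ s ∈ fixS K (Set.range e), s ∈ Dec K w₀ → s r = r := fun s hs hd => by
      have h1 : χ ⟨s, hs⟩ = 1 := hχ (Subgroup.mem_subgroupOf.2 hd)
      have h2 := hr ⟨s, hs⟩
      rwa [h1, toAdd_one, ZMod.val_zero, pow_zero, one_mul] at h2
    obtain ⟨u, hu'⟩ := kum_fix (e.comp (τ : N →ₐ[K] N)) (z := r ^ l) fun s hs => by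
      have hs' : s ∈ fixS K (Set.range e) := mem_fixS_range.2 fun x => by
        obtain ⟨y, rfl⟩ := τ.surjective x
        exact hs y
      rw [map_pow, hr ⟨s, hs'⟩, mul_pow, ← pow_mul, mul_comm _ l, pow_mul, hz.pow_eq_one, one_pow,
        one_mul]
    have h3 : j r ^ l = m (e₂ u) := by
      rw [hτ', ← map_pow, ← hu']
      rfl
    have r0 : j r ≠ 0 := (map_ne_zero j).2 h0
    have h4 : ∀ v ∈ fixS K (Set.range m), v (j r ^ l) = j r ^ l := fun v hv => by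
      rw [h3, mem_fixS_range.1 hv]
    obtain ⟨b, b0, hb, hb'⟩ := radical_cst (k := k) hl.ne_zero (fixS K (Set.range m)) r0 h4
      fun v hv hg => hK Ω m (j r) u h3 (tw_of_unr _ hu hu'.symm) v hg (mem_fixS_range.1 hv)
    have h5 : b = j r / (j r / b) := by field_simp
    have h6 := hC Ω m (fun v hv => zhm_unP j m hjm (hT v hv) (hU v hv)) W hW b hb
      (fun v hv => by rw [h5, div_pow, map_div₀, h4 v hv, map_pow v (j r / b), hb' v hv])
      fun v hv hd => by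
        rw [h5, map_div₀, hb' v hv, ← hρ', hD _ (hV v hv) (hρ.dec ho hd)]
    have h7 : ∀ v ∈ fixS K (Set.range m), ρ v r = r := fun v hv => j.injective (by
      change j (ρ v r) = j r
      rw [hρ', ← div_mul_cancel₀ (j r) b0, map_mul, hb' v hv, h6 v hv])
    obtain ⟨s, hs⟩ := zhm_surj j hρ g
    obtain ⟨δ, hδ, v, hv, rfl⟩ := zhm_dv m hI hW s
    rw [map_mul] at hs
    have h8 : ρ δ ∈ fixS K (Set.range e) :=
      (mul_mem_cancel_right (hV v hv)).1 (hs ▸ g.2)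
    have h9 := hr g
    rw [← hs, AlgEquiv.mul_apply, h7 v hv, hD _ h8 (hρ.dec ho hδ), eq_comm, mul_eq_right₀ h0,
      ← pow_zero (e ζ)] at h9
    exact hg (Multiplicative.toAdd.injective ((ZMod.val_eq_zero _).1
      (hz.pow_inj (ZMod.val_lt _) hl.pos h9)))
  refine eq_top_iff.2 fun g _ => ?_
  obtain ⟨s, rfl⟩ := zhm_surj j hρ g
  obtain ⟨δ, hδ, v, hv, rfl⟩ := zhm_dv m hI hW s
  rw [map_mul]
  exact mul_mem (hρ.dec ho hδ) (hP (hV v hv))

/-- apply `h` to the compositum of `M` and `N` (`exists_cmp`, `ine_fix_sub`, `inert_sub`) -/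
theorem HLs.sub {Δ : k[X]} {𝒯 : Finset (Place k)} {z : k} (h : HLs K l N Δ 𝒯 z)
    (h1 : UnrOff K (toF k[X] K N) Δ) (h2 : ∀ v ∈ 𝒯, UnP K (plv v) (toF k[X] K N)) {M : Type}
    [Field M] [Algebra K M] [FiniteDimensional K M] [IsGalois K M] (hk : LK1 K N l M)
    (h3 : UnrOff K (toF k[X] K M) Δ) (h4 : ∀ v ∈ 𝒯, UnP K (plv v) (toF k[X] K M)) :
    Inert K (toF k[X] K M) (Polynomial.X - Polynomial.C z) := by
  obtain ⟨Ω, _, _, _, _, m, m', hm⟩ := exists_cmp K M N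
  refine inert_sub (α := algebraMap k[X] K) m (h Ω m' (zhm_unr m m' hm h3 h1)
    (fun v hv => zhm_unP m m' hm (h4 v hv) (h2 v hv)) fun g => ?_)
  obtain ⟨n, hn⟩ := hk Ω m' m g (mem_fixS_range.1 g.2)
  exact ⟨n, Subtype.ext (hm _ hn (mem_fixS_range.1 (g ^ l ^ n).2))⟩

end Pool.Agent.ZFy.ZL
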