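import Pool.Agent.Lib.MP_879916_ag.SS.ZGe2
import Pool.Agent.Lib.MP_751085_ag.ZF.G.Fg
import Pool.Agent.Lib.MP_751085_ag.ZF.G.Et0

/-! Finiteness of the geometric Kummer extensions. -/

namespace Pool.Agent.ZFy.ZL

open Pool.Agent.ZCy Pool.Agent.ZFN
open scoped Classical WithZero Polynomial

set_option linter.unusedSectionVars false

variable {l : ℕ} {k K N : Type} [Field k] [Field K] [Field N] [Algebra k[X] K]
  [IsFractionRing k[X] K] [Algebra K N] [FiniteDimensional K N] [IsGalois K N]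

theorem zkum_clo {M K' : Type} [Field M] [Field K'] [Algebra M[X] K'] [IsFractionRing M[X] K']
    (γ : k →+* M) (φ : K →+* K')
    (hφ : ∀ p, φ (algebraMap k[X] K p) = algebraMap M[X] K' (p.map γ)) :
    Subfield.closure (Set.range φ ∪ Set.range ((algebraMap M[X] K').comp Polynomial.C)) = ⊤ := by
  have h : ∀ p : M[X], algebraMap M[X] K' p ∈ Subfield.closure
      (Set.range φ ∪ Set.range ((algebraMap M[X] K').comp Polynomial.C)) := fun p => by
    induction p using Polynomial.induction_on' with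
    | add f g hf hg => rw [map_add]; exact add_mem hf hg
    | monomial n c =>
      rw [← Polynomial.C_mul_X_pow_eq_monomial, map_mul, map_pow]
      refine mul_mem (Subfield.subset_closure (Or.inr ⟨c, rfl⟩)) (pow_mem ?_ n)
      exact Subfield.subset_closure
        (Or.inl ⟨_, (hφ Polynomial.X).trans (by rw [Polynomial.map_X])⟩)
  refine eq_top_iff.2 fun x _ => ?_
  obtain ⟨a, b, -, rfl⟩ := IsFractionRing.div_surjective M[X] x
  exact div_mem (h a) (h b)

theorem zkum_fix {K' N' Λ S : Type} [Field K'] [Field N'] [Field Λ] [Algebra K' N'] {j : S → N'}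
    (hj : IntermediateField.adjoin K' (Set.range j) = ⊤) (ι : N' →+* Λ) (s : Λ →+* Λ)
    (h1 : ∀ a, s (ι (algebraMap K' N' a)) = ι (algebraMap K' N' a))
    (h2 : ∀ x, s (ι (j x)) = ι (j x)) (z : N') : s (ι z) = ι z := by
  have hz : z ∈ (IntermediateField.adjoin K' (Set.range j)).toSubfield := by
    rw [hj]; trivial
  rw [IntermediateField.adjoin_toSubfield] at hz
  refine (Subfield.closure_le (t := RingHom.eqLocusField (s.comp ι) ι)).2 ?_ hz
  rintro _ (⟨a, rfl⟩ | ⟨x, rfl⟩)
  exacts [h1 a, h2 x]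

/-- Base change to the algebraic closure `M` of `k`: `K' = Fr M[X]`, `exists_bc`. By `exists_etl`
and `GM.fin_tw` the elements `u` with `TW` fall into finitely many classes modulo `l`-th powers of
`N M`; choose `u_i ∈ N` in each class, and let `N₂` contain `N` and fix all `l`-th roots of the `u_i`
(`exists_gal_root` for the product of the `(minpoly K u_i).comp (X ^ l)`, `exists_gal_sup`; the
roots are separable, or use that `exists_gal_root` already says that they are fixed). For `g` as in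
`KumN` take `geo_ext` for `Ω`: `r / (r_i z)` is a root of unity in `M`. -/
theorem exists_kumN (hl : l.Prime) (h0 : (l : k) ≠ 0) {Δ : k[X]} (hΔ : Δ ≠ 0) :
    ∃ (N₂ : Type) (_ : Field N₂) (_ : Algebra K N₂) (_ : FiniteDimensional K N₂)
      (_ : IsGalois K N₂) (e : N →ₐ[K] N₂), KumN K l Δ e := by
  let M := AlgebraicClosure k
  let γ := algebraMap k M
  obtain ⟨φ, hφ⟩ := (isFr_alg k[X] K).exists_lift (β := (algebraMap M[X] (Fr M[X])).comp
    (Polynomial.mapRingHom γ))
    ((isFr_alg M[X] (Fr M[X])).1.comp (Polynomial.map_injective _ γ.injective))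
  obtain ⟨N', _, _, _, _, j, -, hj, -, -, hT⟩ := exists_bc N φ
  obtain ⟨θ, χ, D, hE⟩ := GM.exists_etl (F := N') (isFr_alg M[X] (Fr M[X]))
  obtain ⟨S, hS⟩ := GM.fin_tw hE ((Polynomial.map_ne_zero_iff γ.injective).2 hΔ) hl
    (by rwa [← map_natCast γ, map_ne_zero])
  have ex : ∀ s : N', ∃ u : N, ∀ u' z, z ≠ 0 → j u' = s * z ^ l → ∃ y, j u' = j u * y ^ l := by
    intro s
    by_cases h : ∃ u z, z ≠ 0 ∧ j u = s * z ^ l
    · obtain ⟨u, z, hz, e⟩ := h
      refine ⟨u, fun u' z' _ e' => ⟨z' / z, ?_⟩⟩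
      rw [e, e', div_pow]
      field_simp
    · exact ⟨0, fun u' z hz e => absurd ⟨u', z, hz, e⟩ h⟩
  choose f hf using ex
  have hm : ∀ s ∈ S, (minpoly K (f s)).comp (Polynomial.X ^ l) ≠ 0 := fun s _ =>
    ((minpoly.monic (IsIntegral.of_finite K (f s))).comp (Polynomial.monic_X_pow l)
      (by rw [Polynomial.natDegree_X_pow]; exact hl.ne_zero)).ne_zero
  obtain ⟨L, _, _, _, _, H⟩ := exists_gal_root (Finset.prod_ne_zero_iff.2 hm)
  obtain ⟨N₂, _, _, _, _, ⟨e⟩, ⟨e'⟩⟩ := exists_gal_sup K N L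
  refine ⟨N₂, inferInstance, inferInstance, inferInstance, inferInstance, e,
    fun Ω _ _ _ _ m r u hr hu g hg hm => ?_⟩
  by_cases r0 : r = 0
  · rw [r0, map_zero]
  obtain ⟨Ω', _, _, _, _, J, -, hJ, -⟩ := exists_bc Ω φ
  obtain ⟨g', hg'⟩ := geo_ext ((algebraMap k[X] K).comp Polynomial.C) γ
    (fun a => Algebra.IsIntegral.isIntegral (R := k) a)
    ((algebraMap M[X] (Fr M[X])).comp Polynomial.C) φ
    (fun a => (hφ _).trans (congrArg (algebraMap M[X] (Fr M[X])) (Polynomial.map_C γ)))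
    (zkum_clo γ φ hφ) hJ hg
  let b := algebraMap Ω' (AlgebraicClosure Ω')
  obtain ⟨s, hs⟩ := exists_ext b (fun a => Algebra.IsIntegral.isIntegral (R := Ω') a)
    (b.comp (g' : Ω' →+* Ω'))
  have hs' : ∀ x, s (b (J (m x))) = b (J (m x)) := fun x => by
    rw [hs]
    exact congrArg b ((hg' _).trans (congrArg J (hm x)))
  obtain ⟨ι, hι⟩ := exists_emb (E := N') (b.comp (algebraMap (Fr M[X]) Ω'))
  have hk : ∀ a, ι (j (algebraMap K N a)) = b (J (algebraMap K Ω a)) := fun a => by
    rw [hj, hι, hJ]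
    rfl
  obtain ⟨h, hh⟩ := exists_twist (K := K) (ι.comp j)
    ((b.comp J).comp ((m.comp e : N →ₐ[K] Ω) : N →+* Ω)) fun a =>
      (congrArg (fun x => b (J x)) ((m.comp e).commutes a)).trans (hk a).symm
  replace hh : ∀ x, b (J (m (e x))) = ι (j (h x)) := hh
  have hfx := zkum_fix hT ι s
    (fun a => by rw [hι]; exact (hs _).trans (congrArg b (g'.commutes a)))
    (fun x => by rw [← h.apply_symm_apply x, ← hh, hs'])
  obtain ⟨t, ht, z, hz⟩ := hS _ (hu.cext (i := j.comp (h : N →+* N)) (γ := γ) fun p => by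
    change j (h (algebraMap K N _)) = _
    rw [h.commutes, hj, hφ]
    rfl)
  replace hz : j (h u) = t * z ^ l := hz
  have e0 : b (J r) ^ l = ι (j (h u)) := by rw [← hh, ← hr, map_pow, map_pow]
  have b0 : b (J r) ≠ 0 := by simpa using r0
  have u0 : j (h u) ≠ 0 := fun e1 => pow_ne_zero l b0 (by rw [e0, e1, map_zero])
  obtain ⟨y, hy⟩ := hf t _ z (fun e1 => u0 (by rw [hz, e1, zero_pow hl.ne_zero, mul_zero])) hz
  have y0 : ι y ≠ 0 := (map_ne_zero ι).2 fun e1 => u0 (by
    rw [hy, e1, zero_pow hl.ne_zero, mul_zero])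
  have e1 : (b (J r) / ι y) ^ l = ι (j (f t)) := by
    rw [div_pow, e0, hy, map_mul, map_pow, mul_div_cancel_right₀ _ (pow_ne_zero l y0)]
  have e2 := H _ ((b.comp J).comp ((m.comp e' : L →ₐ[K] Ω) : L →+* Ω)) s (b (J r) / ι y)
    (fun x => hs' (e' x)) (by
      have e3 : (((b.comp J).comp ((m.comp e' : L →ₐ[K] Ω) : L →+* Ω)).comp (algebraMap K L)) =
          (ι.comp j).comp (algebraMap K N) := RingHom.ext fun a =>
        (congrArg (fun x => b (J x)) ((m.comp e').commutes a)).trans (hk a).symm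
      rw [e3, Polynomial.eval₂_finsetProd]
      refine Finset.prod_eq_zero ht ?_
      rw [Polynomial.eval₂_comp, Polynomial.eval₂_pow, Polynomial.eval₂_X, e1]
      have := congrArg (ι.comp j) (minpoly.aeval K (f t))
      rwa [Polynomial.aeval_def, Polynomial.hom_eval₂, map_zero] at this)
  rw [map_div₀, hfx, div_left_inj' y0, hs] at e2
  exact J.injective ((hg' r).symm.trans (b.injective e2))

end Pool.Agent.ZFy.ZL
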