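import Pool.Agent.Lib.MP_879916_ag.SS.ZUc
import Pool.Agent.Lib.MP_879916_ag.SS.ZHm
import Pool.Agent.Lib.MP_879916_ag.SS.ZCo
import Pool.Agent.Lib.MP_879916_ag.SS.ZKum
import Pool.Agent.Lib.MP_751085_ag.ZF.Z.Hall
import Pool.Agent.Lib.MP_751085_ag.ZF.Z.Kum

/-! Inertness in all `l`-extensions with restricted ramification. -/

namespace Pool.Agent.ZFy.ZL

open Pool.Agent.ZCy Pool.Agent.ZFN
open scoped Classical WithZero Polynomial

set_option linter.unusedSectionVars false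

variable {l : ℕ} {k K N : Type} [Field k] [Field K] [Field N] [Algebra k[X] K]
  [IsFractionRing k[X] K] [Algebra K N] [FiniteDimensional K N] [IsGalois K N]

/-- `exists_kumN`, `hil_cst`, `Hil.cof` with `unp_cof`, `hl_main` -/
theorem hil_hl (F₀ : Type) [Field F₀] [Finite F₀] [Algebra (RatFunc F₀) k]
  [FiniteDimensional (RatFunc F₀) k] (hl : l.Prime) (h0 : (l : k) ≠ 0) {ζ : N}
    (hζ : IsPrimitiveRoot ζ l) {Δ : k[X]} (hΔ : Δ ≠ 0) :
    Hil (plR k) fun 𝒯 a => HLs K l N Δ 𝒯 (slp a) := by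
  obtain ⟨N₂, _, _, _, _, e, hK⟩ := exists_kumN (K := K) (N := N) hl h0 hΔ
  exact ((hil_cst (K := K) F₀ hl h0 (hζ.map_of_injective (f := e) e.injective)).cof
    (unp_cof (N := N₂) F₀ (isFr_alg k[X] K))).mono fun T a _ h =>
      hl_main hl hζ hK h.1.1 h.1.2 h.2

end Pool.Agent.ZFy.ZL
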