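import Pool.Agent.Lib.MP_879916_ag.SS.ZUn

/-! The plane as a pencil of lines through the origin. -/

namespace Pool.Agent.ZFy.ZL

open Pool.Agent.ZCy Pool.Agent.ZFN
open scoped Classical WithZero Polynomial
open MvPolynomial

set_option linter.unusedSectionVars false

variable {k K : Type} [Field k] [Field K] [Algebra (MP (Option Unit) k) K]
  [IsFractionRing (MP (Option Unit) k) K]

/-- `x₀ = -s y`, `x₁ = y` -/
noncomputable def zl3a_sg (k : Type) [Field k] : MP (Option Unit) k →+* (MP Unit k)[X] :=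
  eval₂Hom (Polynomial.C.comp C) fun i : Option Unit =>
    i.elim (-(Polynomial.C (X ()) * Polynomial.X)) fun _ => Polynomial.X

variable (k K) in
/-- `s ↦ -x₀ / x₁` -/
noncomputable def zl3a_ph : MP Unit k →+* K :=
  eval₂Hom ((algebraMap (MP (Option Unit) k) K).comp C) fun _ =>
    -algebraMap (MP (Option Unit) k) K (X none) / algebraMap (MP (Option Unit) k) K (X (some ()))

variable (k K) in
/-- `y ↦ x₁` -/
noncomputable def zl3a_th : (MP Unit k)[X] →+* K :=
  Polynomial.eval₂RingHom (zl3a_ph k K) (algebraMap (MP (Option Unit) k) K (X (some ())))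

theorem zl3a_comp : (zl3a_th k K).comp (zl3a_sg k) = algebraMap (MP (Option Unit) k) K := by
  refine MvPolynomial.ringHom_ext (fun a => ?_) fun i => ?_
  · simp [zl3a_th, zl3a_sg, zl3a_ph]
  · rcases i with _ | ⟨⟨⟩⟩
    · simp [zl3a_th, zl3a_sg, zl3a_ph]
    · simp [zl3a_th, zl3a_sg]

theorem zl3a_inj : Function.Injective (zl3a_th k K) := by
  have h1 : Function.Injective (zl3a_sg k) := Function.Injective.of_comp (f := zl3a_th k K) (by
    rw [← RingHom.coe_comp, zl3a_comp]; exact IsFractionRing.injective _ _)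
  have hi := IsFractionRing.injective (MP Unit k)[X] (Fr (MP Unit k)[X])
  have h2 : Function.Injective ((algebraMap (MP Unit k)[X] (Fr (MP Unit k)[X])).comp (zl3a_sg k)) :=
    hi.comp h1
  have hX : algebraMap (MP Unit k)[X] (Fr (MP Unit k)[X]) Polynomial.X ≠ 0 :=
    (map_ne_zero_iff _ hi).2 Polynomial.X_ne_zero
  have h3 : (IsFractionRing.lift (K := K) h2).comp (zl3a_th k K) =
      algebraMap (MP Unit k)[X] (Fr (MP Unit k)[X]) := by
    refine Polynomial.ringHom_ext' (MvPolynomial.ringHom_ext (fun a => ?_) fun i => ?_) ?_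
    · simp [zl3a_th, zl3a_sg, zl3a_ph]
    · simp [zl3a_th, zl3a_sg, zl3a_ph, hX]
    · simp [zl3a_th, zl3a_sg]
  exact Function.Injective.of_comp (f := IsFractionRing.lift (K := K) h2) (by
    rw [← RingHom.coe_comp, h3]; exact hi)

theorem zl3a_ev (ρ : k) (Δ : MP (Option Unit) k) : (zl3a_sg k Δ).eval (C ρ) =
    eval₂Hom C (fun i : Option Unit => i.elim (-(C ρ * X ())) fun _ => C ρ) Δ := by
  refine DFunLike.congr_fun (f := (Polynomial.evalRingHom (C ρ)).comp (zl3a_sg k))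
    (MvPolynomial.ringHom_ext (fun a => ?_) fun i => ?_) Δ
  · simp [zl3a_sg]
  · rcases i with _ | ⟨⟨⟩⟩
    · rw [mul_comm]
      simp [zl3a_sg]
    · simp [zl3a_sg]

theorem zl3a_rho [Infinite k] {Q : (MP Unit k)[X]} (hQ : Q ≠ 0) :
    ∃ ρ : k, ρ ≠ 0 ∧ Q.eval (C ρ) ≠ 0 := by
  have h1 := (Polynomial.finite_setOfPred_isRoot (mul_ne_zero Polynomial.X_ne_zero hQ)).preimage
    (f := (C : k → MP Unit k)) (C_injective _ _).injOn
  obtain ⟨ρ, hρ⟩ := h1.exists_notMem
  have h2 : ¬ (C ρ * Q.eval (C ρ) = 0) := by simpa using hρ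
  exact ⟨ρ, fun e => h2 (by simp [e]), fun e => h2 (by simp [e])⟩

theorem zl3a_rev {R : Type} [CommRing R] [Nontrivial R] (φ : R →+* K) (Q : R[X]) (r : R) {y t : K}
    (ht : t ≠ 0) (h : t * (y - φ r) = φ (Q.eval r)) : ∃ (T : R[X]) (d : ℕ), T.Monic ∧
      φ (Q.eval r) * T.eval₂ φ t = Q.eval₂ φ y * t ^ d := by
  obtain ⟨Q1, hQ⟩ := Polynomial.X_sub_C_dvd_sub_C_eval (p := Q) (a := r)
  let g : R[X] := 1 + Polynomial.X * Q1.comp (Polynomial.C r + Polynomial.C (Q.eval r) * Polynomial.X)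
  have g0 : g.coeff 0 = 1 := by simp [g]
  refine ⟨g.reverse, g.natDegree, ?_, ?_⟩
  · rw [Polynomial.Monic, Polynomial.reverse_leadingCoeff,
      Polynomial.trailingCoeff_eq_coeff_zero (g0 ▸ one_ne_zero), g0]
  · let _ := invertibleOfNonzero (inv_ne_zero ht)
    have h1 := Polynomial.eval₂_reverse_mul_pow φ t⁻¹ g
    rw [invOf_eq_inv, inv_inv, inv_pow, mul_inv_eq_iff_eq_mul₀ (pow_ne_zero _ ht)] at h1
    have h2 : φ r + φ (Q.eval r) * t⁻¹ = y := by rw [← h]; field_simp; ring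
    have h3 := congrArg (Polynomial.eval₂ φ y) hQ
    simp only [Polynomial.eval₂_sub, Polynomial.eval₂_mul, Polynomial.eval₂_C,
      Polynomial.eval₂_X] at h3
    have h4 : g.eval₂ φ t⁻¹ = 1 + t⁻¹ * Q1.eval₂ φ y := by
      simp only [g, Polynomial.eval₂_add, Polynomial.eval₂_one, Polynomial.eval₂_mul,
        Polynomial.eval₂_X, Polynomial.eval₂_comp, Polynomial.eval₂_C, h2]
    have h5 : φ (Q.eval r) * t⁻¹ = y - φ r := by rw [← h2]; ring
    rw [h1, h4]
    linear_combination (-t ^ g.natDegree) * h3 + (t ^ g.natDegree * Q1.eval₂ φ y) * h5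

/-- Write `x₀ = X none`, `x₁ = X (some ())`. Choose `ρ ≠ 0` with `Δ₀(s) = Δ(-ρ s, ρ) ≠ 0` (a non-zero
polynomial does not vanish on all points `(-ρ s, ρ)`, `ρ ≠ 0`). Map `s ↦ -x₀ / x₁` and
`t ↦ Δ₀(s) / (x₁ - ρ)`. With `d = totalDegree Δ` and `x₁ = (ρ t + Δ₀) / t` one has
`Δ t ^ d = ∑ c_m (-s) ^ (m none) (ρ t + Δ₀) ^ |m| t ^ (d - |m|) = Δ₀ t ^ d + Δ₀ (lower terms)`. -/
theorem exists_l3 [Infinite k] {Δ : MP (Option Unit) k} (h0 : Δ ≠ 0) :
    ∃ (_ : Algebra (RF Unit k)[X] K) (ρ : k) (Δ₀ : MP Unit k) (Th : (MP Unit k)[X]),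
      IsFractionRing (RF Unit k)[X] K ∧ ρ ≠ 0 ∧ L3c K Δ ρ Δ₀ ∧ L3t K Δ Δ₀ Th := by
  have hι := IsFractionRing.injective (MP (Option Unit) k) K
  have hth : ∀ a, zl3a_th k K (zl3a_sg k a) = algebraMap _ K a := DFunLike.congr_fun zl3a_comp
  have hQ : zl3a_sg k Δ ≠ 0 := fun e => h0 (hι (by rw [← hth, e, map_zero, map_zero]))
  obtain ⟨ρ, hρ, hΔ⟩ := zl3a_rho hQ
  have hph : Function.Injective (zl3a_ph k K) := fun a b e => Polynomial.C_injective
    (zl3a_inj (K := K) (by simpa [zl3a_th] using e))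
  have hC : ∀ a : k, zl3a_ph k K (C a) = algebraMap (MP (Option Unit) k) K (C a) := fun a => by
    simp [zl3a_ph]
  have hS : zl3a_ph k K (X ()) * algebraMap (MP (Option Unit) k) K (X (some ())) =
      -algebraMap (MP (Option Unit) k) K (X none) := by simp [zl3a_ph]
  have hy : algebraMap (MP (Option Unit) k) K (X (some ())) - zl3a_ph k K (C ρ) ≠ 0 := fun e =>
    Polynomial.X_sub_C_ne_zero (C ρ : MP Unit k) (zl3a_inj (K := K) (by simpa [zl3a_th] using e))
  have hδ := (map_ne_zero_iff _ hph).2 hΔ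
  obtain ⟨t, ht⟩ : ∃ t : K, t * (algebraMap (MP (Option Unit) k) K (X (some ())) -
      zl3a_ph k K (C ρ)) = zl3a_ph k K ((zl3a_sg k Δ).eval (C ρ)) := ⟨_, div_mul_cancel₀ _ hy⟩
  have ht0 : t ≠ 0 := fun e => hδ (by rw [← ht, e, zero_mul])
  have hyt : algebraMap (MP (Option Unit) k) K (X (some ())) =
      zl3a_ph k K (C ρ) + zl3a_ph k K ((zl3a_sg k Δ).eval (C ρ)) * t⁻¹ := by
    rw [← ht]; field_simp; ring
  let φ : RF Unit k →+* K := IsFractionRing.lift hph
  have hφ : ∀ a, φ (algebraMap (MP Unit k) _ a) = zl3a_ph k K a :=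
    IsFractionRing.lift_algebraMap hph
  let Φ : (RF Unit k)[X] →+* K := Polynomial.eval₂RingHom φ t
  have hΦC : ∀ a, Φ (Polynomial.C (algebraMap (MP Unit k) _ a)) = zl3a_ph k K a := fun a =>
    (Polynomial.eval₂_C _ _).trans (hφ a)
  have hΦX : Φ Polynomial.X = t := Polynomial.eval₂_X _ _
  have hΦ : Function.Injective Φ := by
    let _ : Algebra (RF Unit k) K := φ.toAlgebra
    let _ : Algebra (MP Unit k) K := (zl3a_ph k K).toAlgebra
    have : IsScalarTower (MP Unit k) (RF Unit k) K := .of_algebraMap_eq fun a => (hφ a).symm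
    refine (transcendental_iff_injective (R := RF Unit k) (x := t)).1 fun ha => ?_
    refine (transcendental_iff_injective (R := MP Unit k)).2 (zl3a_inj (K := K)) ?_
    have hb := (IsFractionRing.isAlgebraic_iff (MP Unit k) (RF Unit k) K).2 ha.inv
    rw [hyt]
    exact (isAlgebraic_algebraMap (R := MP Unit k) _).add
      ((isAlgebraic_algebraMap (R := MP Unit k) _).mul hb)
  let _ : Algebra (RF Unit k)[X] K := Φ.toAlgebra
  have : FaithfulSMul (RF Unit k)[X] K := (faithfulSMul_iff_algebraMap_injective _ _).2 hΦ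
  obtain ⟨T, d, hT, hd⟩ := zl3a_rev (zl3a_ph k K) (zl3a_sg k Δ) (C ρ) ht0 ht
  refine ⟨inferInstance, ρ, (zl3a_sg k Δ).eval (C ρ), Polynomial.X * T,
    IsFractionRing.of_field _ _ fun z => ?_, hρ, ⟨hΔ, zl3a_ev ρ Δ, fun a => (hΦC _).trans (hC a),
      (congrArg (· * _) (hΦC _)).trans hS, ?_⟩, Polynomial.monic_X.mul hT, T, d, rfl, ?_⟩
  · have h1 : ∀ x, Φ x ∈ Subfield.closure (Φ.range : Set K) := fun x =>
      Subfield.subset_closure ⟨x, rfl⟩
    have h2 : ∀ a, zl3a_ph k K a ∈ Subfield.closure (Φ.range : Set K) := fun a => hΦC a ▸ h1 _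
    have h3 : algebraMap (MP (Option Unit) k) K (X (some ())) ∈
        Subfield.closure (Φ.range : Set K) :=
      hyt ▸ add_mem (h2 _) (mul_mem (h2 _) (inv_mem (hΦX ▸ h1 _)))
    have h4 : ∀ a, algebraMap (MP (Option Unit) k) K a ∈ Subfield.closure (Φ.range : Set K) := by
      intro a
      induction a using MvPolynomial.induction_on with
      | C a => exact hC a ▸ h2 _
      | add a b ha hb => rw [map_add]; exact add_mem ha hb
      | mul_X a i ha =>
        rw [map_mul]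
        refine mul_mem ha ?_
        rcases i with _ | ⟨⟨⟩⟩
        · exact neg_mem_iff.1 (hS ▸ mul_mem (h2 _) h3)
        · exact h3
    obtain ⟨a, b, -, rfl⟩ := IsFractionRing.div_surjective (A := MP (Option Unit) k) z
    obtain ⟨u, hu, v, hv, e⟩ := Subfield.mem_closure_iff.1 (div_mem (h4 a) (h4 b))
    rw [Subring.closure_eq] at hu hv
    obtain ⟨u, rfl⟩ := hu
    obtain ⟨v, rfl⟩ := hv
    exact ⟨u, v, e.symm⟩
  · show Φ _ * _ = Φ _
    rw [hΦX, hΦC, map_sub, ← hC, ht]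
  · show Φ _ = _ * Φ _ ^ d
    rw [hΦX, ← hth]
    refine Eq.trans ?_ hd
    rw [Polynomial.map_mul, Polynomial.map_C, map_mul, hΦC]
    congr 1
    refine (Polynomial.eval₂_map _ _ _).trans ?_
    rw [show φ.comp (algebraMap (MP Unit k) _) = zl3a_ph k K from RingHom.ext hφ]

end Pool.Agent.ZFy.ZL
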