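import Pool.Agent.Lib.MP_879916_ag.SS.ZUn
import Pool.Agent.Lib.MP_879916_ag.SS.ZPv
import Pool.Agent.Lib.MP_751085_ag.ZF.Z.Lin

/-! The pencil of lines: ramification. -/

namespace Pool.Agent.ZFy.ZL

open Pool.Agent.ZCy Pool.Agent.ZFN
open scoped Classical WithZero Polynomial
open MvPolynomial

set_option linter.unusedSectionVars false

variable {k K : Type} [Field k] [Field K] [Algebra (MP (Option Unit) k) K]
  [IsFractionRing (MP (Option Unit) k) K]
variable [Algebra (RF Unit k)[X] K] [IsFractionRing (RF Unit k)[X] K] {Δ : MP (Option Unit) k}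
  {ρ : k} {Δ₀ : MP Unit k} {Th : (MP Unit k)[X]} {N : Type} [Field N] [Algebra K N]

theorem zl3b_lin {a : Option Unit → k} (ha : a none ≠ 0) :
    lin a = C (a none) * (X none + C (slp a) * X (some ())) := by
  rw [lin, Fintype.sum_option, Fintype.sum_unique, mul_add, ← mul_assoc, ← C_mul,
    mul_div_cancel₀ _ ha]

/-- division by a linear form -/
theorem zl3b_div {a : Option Unit → k} (ha : a none ≠ 0) (ρ : k) (p : MP (Option Unit) k) :
    ∃ r : k[X], lin a ∣ p - r.eval₂ C (X (some ()) - C ρ) := by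
  have h1 : ∀ i : Option Unit, ∃ r : k[X], lin a ∣ X i - r.eval₂ C (X (some ()) - C ρ) := by
    rintro (_ | ⟨⟨⟩⟩)
    · refine ⟨-(Polynomial.C (slp a) * (Polynomial.X + Polynomial.C ρ)), C (a none)⁻¹, ?_⟩
      rw [Polynomial.eval₂_neg, Polynomial.eval₂_mul, Polynomial.eval₂_add, Polynomial.eval₂_C,
        Polynomial.eval₂_C, Polynomial.eval₂_X, sub_add_cancel, sub_neg_eq_add, zl3b_lin ha,
        mul_right_comm, ← C_mul, mul_inv_cancel₀ ha, C_1, one_mul]
    · refine ⟨Polynomial.X + Polynomial.C ρ, ?_⟩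
      rw [Polynomial.eval₂_add, Polynomial.eval₂_C, Polynomial.eval₂_X, sub_add_cancel, sub_self]
      exact dvd_zero _
  induction p using MvPolynomial.induction_on with
  | C c => exact ⟨Polynomial.C c, by rw [Polynomial.eval₂_C, sub_self]; exact dvd_zero _⟩
  | add p q hp hq =>
    obtain ⟨r, hr⟩ := hp
    obtain ⟨r', hr'⟩ := hq
    exact ⟨r + r', by rw [Polynomial.eval₂_add, add_sub_add_comm]; exact hr.add hr'⟩
  | mul_X p i hp =>
    obtain ⟨r, hr⟩ := hp
    obtain ⟨r', hr'⟩ := h1 i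
    refine ⟨r * r', ?_⟩
    have h2 := (hr.mul_right (X i)).add (hr'.mul_left (r.eval₂ C (X (some ()) - C ρ)))
    rwa [sub_mul, mul_sub, sub_add_sub_cancel, ← Polynomial.eval₂_mul] at h2

theorem zl3b_X {F N : Type} [Field F] [Field N] {u : Vl F} {χ : F[X] →+* N} {W : Vl N}
    (h : GauP u χ W) : W (χ Polynomial.X) = 1 := by
  have h1 := h Polynomial.X fun i => by
    rw [Polynomial.coeff_X]
    split_ifs <;> simp
  refine h1.1.antisymm (not_lt.1 fun h2 => ?_)
  simpa using h1.2.1 h2 1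

theorem zl3b_C {F N : Type} [Field F] [Field N] {u : Vl F} {χ : F[X] →+* N} {W : Vl N}
    (h : GauP u χ W) {x : F} (hx : u x ≤ 1) :
    W (χ (Polynomial.C x)) ≤ 1 ∧ (W (χ (Polynomial.C x)) < 1 ↔ u x < 1) := by
  have h1 := h (Polynomial.C x) fun i => by
    rw [Polynomial.coeff_C]
    split_ifs
    · exact hx
    · simp
  refine ⟨h1.1, h1.2.trans ⟨fun h2 => by simpa using h2 0, fun h2 i => ?_⟩⟩
  rw [Polynomial.coeff_C]
  split_ifs
  · exact h2
  · simp

/-- the Gauss valuation in the coordinate `1 / t` -/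
theorem zl3b_inv {F N : Type} [Field F] [Field N] {u : Vl F} {χ : F[X] →+* N} {W : Vl N}
    (h : GauP u χ W) {f : F[X]} (hf : ∀ i, u (f.coeff i) ≤ 1)
    (h1 : W (f.eval₂ (χ.comp Polynomial.C) (χ Polynomial.X)⁻¹) < 1) (i : ℕ) :
    u (f.coeff i) < 1 := by
  have h0 : (χ Polynomial.X)⁻¹ ≠ 0 := inv_ne_zero (W.ne_zero_iff.1 (zl3b_X h ▸ one_ne_zero))
  let := invertibleOfNonzero h0
  rw [← Polynomial.eval₂_reflect_mul_pow _ _ _ f le_rfl, invOf_eq_inv, inv_inv,
    ← Polynomial.hom_eval₂, Polynomial.eval₂_C_X, map_mul, map_pow, map_inv₀, zl3b_X h, inv_one,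
    one_pow, mul_one] at h1
  have h2 := (h _ fun j => by rw [Polynomial.coeff_reflect]; exact hf _).2.1 h1
    (Polynomial.revAt f.natDegree i)
  rwa [Polynomial.coeff_reflect, Polynomial.revAt_invol] at h2

/-- `lin a (-ρ s, ρ)` is a multiple of `s - slp a` -/
theorem l3_ndvd (h : L3c K Δ ρ Δ₀) {a : Option Unit → k} (ha : a none ≠ 0)
    (hd : ¬(X () - C (slp a) : MP Unit k) ∣ Δ₀) : ¬lin a ∣ Δ := fun h1 => hd <| by
  rw [h.d0]
  refine Dvd.dvd.trans ⟨-(C (a none) * C ρ), ?_⟩ (map_dvd _ h1)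
  rw [zl3b_lin ha]
  simp only [map_mul, map_add, eval₂Hom_C, eval₂Hom_X', Option.elim]
  ring

/-- `W t = 1` and `W Δ₀ = 1`, so `W` is integral on the plane; `W (lin a) < 1`; divide `p` by
`lin a` with remainder a polynomial `r` in `x₁`, and `r (ρ + Δ₀ / t) t ^ d` has a unit
coefficient if `r ≠ 0` -/
theorem l3_cen (h : L3c K Δ ρ Δ₀) {a : Option Unit → k} (ha : a none ≠ 0)
    (hd : ¬(X () - C (slp a) : MP Unit k) ∣ Δ₀) {u : Vl (RF Unit k)}
    (hu : Cen (algebraMap (MP Unit k) (RF Unit k)) u (X () - C (slp a))) {W : Vl N}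
    (hW : GauP u (toF (RF Unit k)[X] K N) W) : Cen (toF (MP (Option Unit) k) K N) W (lin a) := by
  have h1 := zl3b_X hW
  have h0 : toF (RF Unit k)[X] K N Polynomial.X ≠ 0 := W.ne_zero_iff.1 (h1 ▸ one_ne_zero)
  have h2 := fun b : MP Unit k => zl3b_C hW (hu.1 b)
  have e1 : ∀ x : k, toF (MP (Option Unit) k) K N (C x) = toF (RF Unit k)[X] K N
      (Polynomial.C (algebraMap (MP Unit k) (RF Unit k) (C x))) := fun x =>
    (congrArg (algebraMap K N) (h.hC x)).symm
  have e2 : toF (MP (Option Unit) k) K N (X none) = -(toF (RF Unit k)[X] K N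
      (Polynomial.C (algebraMap (MP Unit k) (RF Unit k) (X ()))) *
        toF (MP (Option Unit) k) K N (X (some ()))) := by
    have := congrArg (algebraMap K N) h.hs
    rw [map_mul, map_neg] at this
    exact (neg_eq_iff_eq_neg.2 this).symm
  have e3 : toF (MP (Option Unit) k) K N (X (some ()) - C ρ) = toF (RF Unit k)[X] K N
      (Polynomial.C (algebraMap (MP Unit k) (RF Unit k) Δ₀)) *
        (toF (RF Unit k)[X] K N Polynomial.X)⁻¹ := by
    have := congrArg (algebraMap K N) h.ht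
    rw [map_mul] at this
    exact (eq_mul_inv_iff_mul_eq₀ h0).2 ((mul_comm _ _).trans this)
  have h3 : ∀ x : k, W (toF (MP (Option Unit) k) K N (C x)) ≤ 1 := fun x => e1 x ▸ (h2 _).1
  have h4 : W (toF (MP (Option Unit) k) K N (X (some ()))) ≤ 1 := by
    rw [← sub_add_cancel (X (some ())) (C ρ), map_add]
    refine W.map_add_le ?_ (h3 ρ)
    rw [e3, map_mul, map_inv₀, h1, inv_one, mul_one]
    exact (h2 _).1
  have h5 : ∀ p, W (toF (MP (Option Unit) k) K N p) ≤ 1 := fun p => by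
    induction p using MvPolynomial.induction_on with
    | C c => exact h3 c
    | add p q hp hq => rw [map_add]; exact W.map_add_le hp hq
    | mul_X p i hp =>
      rw [map_mul, map_mul]
      refine mul_le_one' hp ?_
      rcases i with _ | ⟨⟨⟩⟩
      · rw [e2, W.map_neg, map_mul]
        exact mul_le_one' (h2 _).1 h4
      · exact h4
  have h6 : W (toF (MP (Option Unit) k) K N (lin a)) < 1 := by
    have e4 : toF (MP (Option Unit) k) K N (X none + C (slp a) * X (some ())) =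
        -(toF (RF Unit k)[X] K N (Polynomial.C (algebraMap (MP Unit k) (RF Unit k)
          (X () - C (slp a)))) * toF (MP (Option Unit) k) K N (X (some ()))) := by
      rw [map_add, map_mul, e2, e1, map_sub, map_sub, map_sub]
      ring
    rw [zl3b_lin ha, map_mul, map_mul, e4, W.map_neg, map_mul, mul_comm]
    exact mul_lt_one_of_lt_of_le
      (mul_lt_one_of_lt_of_le ((h2 _).2.2 ((hu.2 _).2 dvd_rfl)) h4) (h3 _)
  have h7 : ∀ p, lin a ∣ p → W (toF (MP (Option Unit) k) K N p) < 1 := by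
    rintro _ ⟨q, rfl⟩
    rw [map_mul, map_mul]
    exact mul_lt_one_of_lt_of_le h6 (h5 q)
  refine ⟨h5, fun p => ⟨fun hp => ?_, h7 p⟩⟩
  obtain ⟨r, hr⟩ := zl3b_div ha ρ p
  have h8 := W.map_sub_lt hp (h7 _ hr)
  have e5 : (toF (MP (Option Unit) k) K N).comp C =
      ((toF (RF Unit k)[X] K N).comp Polynomial.C).comp (rc Unit k) := RingHom.ext e1
  have e6 : ∀ i, ((r.map (rc Unit k)).comp (Polynomial.C
      (algebraMap (MP Unit k) (RF Unit k) Δ₀) * Polynomial.X)).coeff i =
        algebraMap (MP Unit k) (RF Unit k) (C (r.coeff i) * Δ₀ ^ i) := fun i => by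
    rw [Polynomial.comp_C_mul_X_coeff, Polynomial.coeff_map, map_mul, map_pow]
    rfl
  rw [← map_sub, sub_sub_cancel, Polynomial.hom_eval₂, e5, e3, ← Polynomial.eval₂_map] at h8
  have h9 := zl3b_inv hW (fun i => (e6 i) ▸ hu.1 _) (by
    rwa [Polynomial.eval₂_comp, Polynomial.eval₂_mul, Polynomial.eval₂_C, Polynomial.eval₂_X])
  obtain rfl : r = 0 := Polynomial.ext fun i => by_contra fun hn => by
    have h10 := h9 i
    rw [e6, map_mul, map_pow, map_mul, map_pow, (hu.eq_one _).2 hd, one_pow, mul_one] at h10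
    exact hd (((hu.2 _).1 h10).trans ((IsUnit.mk0 _ hn).map C).dvd)
  rwa [Polynomial.eval₂_zero, sub_zero] at hr

variable [FiniteDimensional K N] [IsGalois K N]

end Pool.Agent.ZFy.ZL
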