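import Pool.Agent.Lib.MP_879916_ag.SS.ZUn
import Pool.Agent.Lib.MP_879916_ag.SS.ZPv

/-! The pencil of lines: Gauss valuations. -/

namespace Pool.Agent.ZFy.ZL

open Pool.Agent.ZCy Pool.Agent.ZFN
open scoped Classical WithZero Polynomial
open MvPolynomial

set_option linter.unusedSectionVars false

/-- clearing the powers of `t` -/
theorem zl3c_ex {O S : Type} [CommRing O] [CommRing S] (φ : MP (Option Unit) O →+* S)
    (ψ : (MP Unit O)[X] →+* S) (ρ : O) (D : MP Unit O)
    (hC : ∀ a, ψ (Polynomial.C (C a)) = φ (C a))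
    (hs : ψ (Polynomial.C (X ())) * φ (X (some ())) = -φ (X none))
    (ht : ψ Polynomial.X * φ (X (some ()) - C ρ) = ψ (Polynomial.C D)) (p : MP (Option Unit) O) :
    ∃ (q : (MP Unit O)[X]) (d : ℕ), φ p * ψ Polynomial.X ^ d = ψ q := by
  have e1 : φ (X (some ())) * ψ Polynomial.X =
      ψ (Polynomial.C (C ρ) * Polynomial.X + Polynomial.C D) := by
    rw [map_add, map_mul, hC, ← ht, map_sub]
    ring
  induction p using MvPolynomial.induction_on with
  | C a => exact ⟨Polynomial.C (C a), 0, by rw [pow_zero, mul_one, hC]⟩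
  | add p p' hp hp' =>
    obtain ⟨q, d, e⟩ := hp
    obtain ⟨q', d', e'⟩ := hp'
    refine ⟨q * Polynomial.X ^ d' + q' * Polynomial.X ^ d, d + d', ?_⟩
    rw [map_add, map_add, map_mul, map_mul, map_pow, map_pow, ← e, ← e']
    ring
  | mul_X p i hp =>
    obtain ⟨q, d, e⟩ := hp
    rcases i with _ | ⟨⟨⟩⟩
    · refine ⟨-(q * Polynomial.C (X ()) *
        (Polynomial.C (C ρ) * Polynomial.X + Polynomial.C D)), d + 1, ?_⟩
      rw [map_neg, map_mul, map_mul, map_mul, ← e, ← e1, ← neg_neg (φ (X none)), ← hs]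
      ring
    · refine ⟨q * (Polynomial.C (C ρ) * Polynomial.X + Polynomial.C D), d + 1, ?_⟩
      rw [map_mul, map_mul, ← e, ← e1]
      ring

/-- the substitution `x₀ ↦ -s y`, `x₁ ↦ y` -/
noncomputable def zl3c_sub (κ : Type) [Field κ] : MP (Option Unit) κ →+* (MP Unit κ)[X] :=
  eval₂Hom (Polynomial.C.comp C)
    fun i : Option Unit => i.elim (-(Polynomial.C (X ()) * Polynomial.X)) fun _ => Polynomial.X

theorem zl3c_sub_inj (κ : Type) [Field κ] : Function.Injective (zl3c_sub κ) := by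
  let a := algebraMap (MP (Option Unit) κ) (FractionRing (MP (Option Unit) κ))
  have ha : Function.Injective a := IsFractionRing.injective _ _
  have h0 : a (X (some ())) ≠ 0 := (map_ne_zero_iff a ha).2 (X_ne_zero _)
  let τ : (MP Unit κ)[X] →+* FractionRing (MP (Option Unit) κ) :=
    Polynomial.eval₂RingHom (eval₂Hom (a.comp C) fun _ => -a (X none) / a (X (some ())))
      (a (X (some ())))
  have e : τ.comp (zl3c_sub κ) = a := by
    refine MvPolynomial.ringHom_ext (fun c => ?_) fun i => ?_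
    · simp [τ, zl3c_sub]
    · rcases i with _ | ⟨⟨⟩⟩
      · simp only [τ, zl3c_sub, RingHom.comp_apply, eval₂Hom_X', Option.elim, map_neg, map_mul,
          Polynomial.coe_eval₂RingHom, Polynomial.eval₂_C, Polynomial.eval₂_X]
        rw [div_mul_cancel₀ _ h0, neg_neg]
      · simp [τ, zl3c_sub]
  rw [← e] at ha
  exact Function.Injective.of_comp (f := τ) ha

/-- `x₀` and `x₁` are algebraically independent -/
theorem zl3c_inj {κ F : Type} [Field κ] [Field F] (φ : MP (Option Unit) κ →+* F)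
    (ψ : (MP Unit κ)[X] →+* F) (ρ : κ) (D : MP Unit κ) (hψ : Function.Injective ψ) (hD : D ≠ 0)
    (hC : ∀ a, ψ (Polynomial.C (C a)) = φ (C a))
    (hs : ψ (Polynomial.C (X ())) * φ (X (some ())) = -φ (X none))
    (ht : ψ Polynomial.X * φ (X (some ()) - C ρ) = ψ (Polynomial.C D)) :
    Function.Injective φ := by
  let _ : Algebra (MP Unit κ) F := (ψ.comp Polynomial.C).toAlgebra
  have hal : ∀ a, algebraMap (MP Unit κ) F a = ψ (Polynomial.C a) := fun _ => rfl
  have e0 : ∀ q, Polynomial.aeval (ψ Polynomial.X) q = ψ q := by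
    intro q
    have : ((Polynomial.aeval (ψ Polynomial.X) : (MP Unit κ)[X] →ₐ[MP Unit κ] F) :
        (MP Unit κ)[X] →+* F) = ψ := by
      refine Polynomial.ringHom_ext (fun c => ?_) ?_
      · simp [hal]
      · simp
    exact DFunLike.congr_fun this q
  have t1 : Transcendental (MP Unit κ) (ψ Polynomial.X) := by
    rw [transcendental_iff_injective]
    intro q q' h
    exact hψ ((e0 q).symm.trans (h.trans (e0 q')))
  have hD' : ψ (Polynomial.C D) ≠ 0 :=
    (map_ne_zero_iff ψ hψ).2 (Polynomial.C_ne_zero.2 hD)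
  have t2 : Transcendental (MP Unit κ) (φ (X (some ()))) := by
    intro hy
    have hne : φ (X (some ()) - C ρ) ≠ 0 := fun h => hD' (by rw [← ht, h, mul_zero])
    have a1 : IsAlgebraic (MP Unit κ) (φ (X (some ()) - C ρ)) := by
      rw [map_sub, ← hC, ← hal]
      exact hy.sub (isAlgebraic_algebraMap _)
    refine t1 ?_
    rw [(eq_mul_inv_iff_mul_eq₀ hne).2 ht, ← hal]
    exact (isAlgebraic_algebraMap _).mul (IsAlgebraic.inv_iff.2 a1)
  have e : ∀ p, φ p = Polynomial.aeval (φ (X (some ()))) (zl3c_sub κ p) := by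
    intro p
    have : φ = ((Polynomial.aeval (φ (X (some ()))) : (MP Unit κ)[X] →ₐ[MP Unit κ] F) :
        (MP Unit κ)[X] →+* F).comp (zl3c_sub κ) := by
      refine MvPolynomial.ringHom_ext (fun c => ?_) fun i => ?_
      · simp [zl3c_sub, hal, hC]
      · rcases i with _ | ⟨⟨⟩⟩
        · simp [zl3c_sub, hal, hs]
        · simp [zl3c_sub]
    exact DFunLike.congr_fun this p
  intro p p' h
  exact zl3c_sub_inj κ (transcendental_iff_injective.1 t2 ((e p).symm.trans (h.trans (e p'))))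

/-- the pencil over a field -/
theorem zl3c_res {κ : Type} [Field κ] (ρ : κ) (D : MP Unit κ) (hD : D ≠ 0) :
    ∃ (F : Type) (_ : Field F) (φ : MP (Option Unit) κ →+* F) (ψ : (MP Unit κ)[X] →+* F),
      Function.Injective φ ∧ Function.Injective ψ ∧
      (∀ a, ψ (Polynomial.C (C a)) = φ (C a)) ∧
      ψ (Polynomial.C (X ())) * φ (X (some ())) = -φ (X none) ∧
      ψ Polynomial.X * φ (X (some ()) - C ρ) = ψ (Polynomial.C D) := by
  let ψ := algebraMap (MP Unit κ)[X] (FractionRing (MP Unit κ)[X])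
  have hψ : Function.Injective ψ := IsFractionRing.injective _ _
  have h0 : ψ Polynomial.X ≠ 0 := (map_ne_zero_iff ψ hψ).2 Polynomial.X_ne_zero
  let y := ψ (Polynomial.C (C ρ)) + ψ (Polynomial.C D) / ψ Polynomial.X
  let φ : MP (Option Unit) κ →+* FractionRing (MP Unit κ)[X] :=
    eval₂Hom (ψ.comp (Polynomial.C.comp C))
      fun i : Option Unit => i.elim (-(ψ (Polynomial.C (X ())) * y)) fun _ => y
  have hC : ∀ a, ψ (Polynomial.C (C a)) = φ (C a) := fun a => by simp [φ]
  have hy : φ (X (some ())) = y := by simp [φ]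
  have hs : ψ (Polynomial.C (X ())) * φ (X (some ())) = -φ (X none) := by simp [φ]
  have ht : ψ Polynomial.X * φ (X (some ()) - C ρ) = ψ (Polynomial.C D) := by
    rw [map_sub, hy, ← hC, add_sub_cancel_left, mul_div_cancel₀ _ h0]
  exact ⟨_, inferInstance, φ, ψ, zl3c_inj φ ψ ρ D hψ hD hC hs ht, hψ, hC, hs, ht⟩

/-- reduction of the coefficients -/
theorem zl3c_red {k ι : Type} [Field k] (v : Vl k) (p : MP ι v.integer) :
    map (IsLocalRing.residue v.integer) p = 0 ↔
      ∀ m, v (coeff m (map v.integer.subtype p)) < 1 := by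
  rw [MvPolynomial.ext_iff]
  refine forall_congr' fun m => ?_
  rw [coeff_map, coeff_map, coeff_zero, IsLocalRing.residue_eq_zero_iff,
    IsLocalRing.mem_maximalIdeal, mem_nonunits_iff,
    Valuation.Integer.not_isUnit_iff_valuation_lt_one]
  rfl

/-- the Gauss valuation in two steps -/
theorem zl3c_two {k N : Type} [Field k] [Field N] {v : Vl k} {u : Vl (RF Unit k)}
    (hu : GauV v (algebraMap (MP Unit k) (RF Unit k)) u) {α : (RF Unit k)[X] →+* N} {U : Vl N}
    (hU : GauP u α U) (q : (MP Unit v.integer)[X]) :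
    U (α (q.map ((algebraMap (MP Unit k) (RF Unit k)).comp (map v.integer.subtype)))) ≤ 1 ∧
      (U (α (q.map ((algebraMap (MP Unit k) (RF Unit k)).comp (map v.integer.subtype)))) < 1 ↔
        q.map (map (IsLocalRing.residue v.integer)) = 0) := by
  have H := hU (q.map ((algebraMap (MP Unit k) (RF Unit k)).comp (map v.integer.subtype)))
    fun i => by
      rw [Polynomial.coeff_map]
      exact (hu _ (pv_cfi _)).1
  refine ⟨H.1, H.2.trans ?_⟩
  rw [Polynomial.ext_iff]
  refine forall_congr' fun i => ?_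
  rw [Polynomial.coeff_map, Polynomial.coeff_map, Polynomial.coeff_zero, zl3c_red]
  exact (hu _ (pv_cfi _)).2

variable {k K : Type} [Field k] [Field K] [Algebra (MP (Option Unit) k) K]
  [IsFractionRing (MP (Option Unit) k) K]
variable [Algebra (RF Unit k)[X] K] [IsFractionRing (RF Unit k)[X] K] {Δ : MP (Option Unit) k}
  {ρ : k} {Δ₀ : MP Unit k} {Th : (MP Unit k)[X]} {N : Type} [Field N] [Algebra K N]

/-- Let `v ρ ≤ 1`, let the coefficients of `Δ₀` be integral, one of them a unit. Then `U t = 1`,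
`U Δ₀ = 1`, `U s = 1`, `U x₁ ≤ 1`. For `p` with integral coefficients `p t ^ d` is the image of
`∑ c_m (-s) ^ (m none) (ρ t + Δ₀) ^ |m| t ^ (d - |m|)` in `O[s][t]`; over the residue field the
substitution `x₀ ↦ -s x₁`, `x₁ ↦ ρ + Δ₀ / t` is injective. -/
theorem l3_gau1 (h : L3c K Δ ρ Δ₀) {v : Vl k} (hρ : v ρ ≤ 1) (h1 : CfI v Δ₀)
    (h2 : ∃ m, v (coeff m Δ₀) = 1) {u : Vl (RF Unit k)}
    (hu : GauV v (algebraMap (MP Unit k) (RF Unit k)) u) {U : Vl N}
    (hU : GauP u (toF (RF Unit k)[X] K N) U) : GauV v (toF (MP (Option Unit) k) K N) U := by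
  obtain ⟨D, rfl⟩ := pv_lift h1
  intro p hp
  obtain ⟨p, rfl⟩ := pv_lift hp
  have hD : map (IsLocalRing.residue v.integer) D ≠ 0 := fun h0 => by
    obtain ⟨m, hm⟩ := h2
    exact ((zl3c_red v D).1 h0 m).ne hm
  obtain ⟨F, _, φ, ψ, hφ, hψ, hC, hs, ht⟩ :=
    zl3c_res (IsLocalRing.residue v.integer ⟨ρ, hρ⟩) _ hD
  let φ₁ : MP (Option Unit) v.integer →+* N :=
    (toF (MP (Option Unit) k) K N).comp (map v.integer.subtype)
  let ψ₁ : (MP Unit v.integer)[X] →+* N := (toF (RF Unit k)[X] K N).comp (Polynomial.mapRingHom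
    ((algebraMap (MP Unit k) (RF Unit k)).comp (map v.integer.subtype)))
  let φ₂ := φ.comp (map (IsLocalRing.residue v.integer))
  let ψ₂ := ψ.comp (Polynomial.mapRingHom (map (σ := Unit) (IsLocalRing.residue v.integer)))
  obtain ⟨q, d, e⟩ := zl3c_ex (φ₁.prod φ₂) (ψ₁.prod ψ₂) ⟨ρ, hρ⟩ D
    (fun a => Prod.ext (by
      simpa [φ₁, ψ₁] using congrArg (algebraMap K N) (h.hC a)) (by simpa [φ₂, ψ₂] using hC _))
    (Prod.ext (by simpa [φ₁, ψ₁] using congrArg (algebraMap K N) h.hs)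
      (by simpa [φ₂, ψ₂] using hs))
    (Prod.ext (by simpa [φ₁, ψ₁] using congrArg (algebraMap K N) h.ht)
      (by simpa [φ₂, ψ₂] using ht)) p
  have e1 : φ₁ p * ψ₁ Polynomial.X ^ d = ψ₁ q := congrArg Prod.fst e
  have e2 : φ₂ p * ψ₂ Polynomial.X ^ d = ψ₂ q := congrArg Prod.snd e
  have hX : U (ψ₁ Polynomial.X) = 1 := by
    have H := zl3c_two hu hU Polynomial.X
    refine le_antisymm H.1 (not_lt.1 fun hl => ?_)
    have := H.2.1 hl
    rw [Polynomial.map_X] at this
    exact Polynomial.X_ne_zero this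
  have e3 : U (φ₁ p) = U (ψ₁ q) := by rw [← e1, map_mul, map_pow, hX, one_pow, mul_one]
  have hX2 : ψ₂ Polynomial.X ^ d ≠ 0 := by
    refine pow_ne_zero _ ?_
    simp only [ψ₂, RingHom.comp_apply, Polynomial.coe_mapRingHom, Polynomial.map_X]
    exact (map_ne_zero_iff ψ hψ).2 Polynomial.X_ne_zero
  have H := zl3c_two hu hU q
  change U (φ₁ p) ≤ 1 ∧ (U (φ₁ p) < 1 ↔ _)
  rw [e3, ← zl3c_red]
  refine ⟨H.1, H.2.trans ?_⟩
  rw [← map_eq_zero_iff ψ hψ, ← map_eq_zero_iff φ hφ]
  change ψ₂ q = 0 ↔ φ₂ p = 0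
  rw [← e2, mul_eq_zero_iff_right hX2]

end Pool.Agent.ZFy.ZL
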