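import Pool.Agent.Lib.MP_879916_ag.SS.ZS3

/-! The field of constants of an `l`-extension: local groups. -/

namespace Pool.Agent.ZFy.ZL

open Pool.Agent.ZCy Pool.Agent.ZFN
open scoped Classical WithZero Polynomial

set_option linter.unusedSectionVars false

variable {l q : ℕ} {K F : Type} [Field K] [Field F] [Algebra K[X] F] [IsFractionRing K[X] F]

variable {T N₃ N M : Type} [Field T] [Field N₃] [Field N] [Field M] [Algebra F T]
  [FiniteDimensional F T] [IsGalois F T] [Algebra K N₃] [FiniteDimensional K N₃] [IsGalois K N₃]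
  [Algebra F N] [FiniteDimensional F N] [IsGalois F N] [Algebra K M] [FiniteDimensional K M]
  [IsGalois K M] {ThK : K[X]} {τ : T →+* Ls N₃} {J : N →+* Ls M}

theorem zs4_gau {N' : Type} [Field N'] [Algebra F N'] (j : N →ₐ[F] N') {u : Vl K} {W : Vl N'}
    (h : GauP u (toF K[X] F N') W) : GauP u (toF K[X] F N) (W.comap (j : N →+* N')) := by
  intro p hp
  have e : W.comap (j : N →+* N') (toF K[X] F N p) = W (toF K[X] F N' p) :=
    congrArg W (j.commutes _)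
  rw [e]
  exact h p hp

/-- `GdAt.gr1`, `SupN.dec_ine` for `σ δ` (`SecD.exists_spl`), `SupN.gauP`, `ine_fix_sub` -/
theorem s3_unr (e : T →ₐ[F] N) (hx : LXt l F (Set.range e)) (hu : UnrOff F (toF K[X] F N) ThK)
    (hJ : ∀ p, J (toF K[X] F N p) = tL M (p.map (algebraMap K M)))
    (hm : ∀ δ : M ≃ₐ[K] M, (∀ x, lm (δ : M →+* M) (J x) = J x) → δ = 1) {u : Vl K}
    (hG : GdAt K F l q ThK τ u) (hN : UnP F u (toF K[X] F N)) : Unr M u := by
  intro w hw
  obtain ⟨N', _, _, _, _, j, d, hdj, hs⟩ := exists_sdS (F := F) J hJ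
  obtain ⟨W, hW, -, -⟩ := hG.gr1 (s3_sc e hx hu j d hs) hw
  obtain ⟨π, σ, hσ⟩ := d.exists_spl
  refine eq_bot_iff.2 fun δ hδ => Subgroup.mem_bot.2 (hm δ fun x => ?_)
  have h1 := ine_fix_sub j (hN _ (zs4_gau j (hW.gauP hw)))
    ((hW.dec_ine d.hc (hσ.hσ δ)).2 hδ) x
  rw [← hdj, ← hσ.hσ, h1]

/-- `GdAt.gr1`, `dec_top_of_geo`, `quot2_dec` -/
theorem s3_dec (e : T →ₐ[F] N) (hx : LXt l F (Set.range e)) (hu : UnrOff F (toF K[X] F N) ThK)
    (hJ : ∀ p, J (toF K[X] F N p) = tL M (p.map (algebraMap K M))) {u : Vl K}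
    (hG : GdAt K F l q ThK τ u) {w : Vl M} (hw : Over (algebraMap K M) u w) (hd : Dec K w = ⊤) :
    ∃ W : Vl N, GauP u (toF K[X] F N) W ∧ Dec F W = ⊤ := by
  obtain ⟨N', _, _, _, _, j, d, -, hs⟩ := exists_sdS (F := F) J hJ
  obtain ⟨W, hW, hg, -⟩ := hG.gr1 (s3_sc e hx hu j d hs) hw
  have h1 := dec_top_of_geo hW hg hd
  refine ⟨W.comap (j : N →+* N'), zs4_gau j (hW.gauP hw), eq_top_iff.2 fun g _ => ?_⟩
  obtain ⟨s, hs'⟩ := exists_twist_sub (K := F) (j : N →+* N') (fun a => j.commutes a)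
    (RingHom.id N') ((j : N →+* N').comp (g : N →+* N)) fun a => by
      simp
  exact quot2_dec (i := (j : N →+* N')) (v := W) (fun _ => Iff.rfl) (s := s) (fun y => hs' y)
    (h1 ▸ Subgroup.mem_top _)

end Pool.Agent.ZFy.ZL
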