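import Pool.Agent.Lib.MP_879916_ag.SS.ZPv
import Pool.Agent.Lib.MP_751085_ag.ZF.Z.SplB

/-! The minimal field of constants that splits a cover at the origin. -/

namespace Pool.Agent.ZFy.ZL

open Pool.Agent.ZCy Pool.Agent.ZFN
open scoped Classical WithZero Polynomial
open MvPolynomial

set_option linter.unusedSectionVars false

/-- Take `znp_hom` and `q = constantCoeff ∘ β`. The group `Γ₀` of all `δ` with `δ ∘ q = q` is
normal (`intOff_conj`: `γ ∘ q = q ∘ g`). For `δ ∈ Γ₀` one has `map δ ∘ β = β ∘ g`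
(`intOff_conj` into the power series), so `q ∘ g = q` and `g = 1` (`pureF`): all coefficients lie
in the fixed field of `Γ₀` (`ring_factor`). -/
theorem znp_min {ι k L E : Type} [Finite ι] [Field k] [Field L] [Field E] [Algebra L E]
    [FiniteDimensional L E] [IsGalois L E] {α : MP ι k →+* L} {Θ : MP ι k} (hα : IsFr α)
    (hu : UnrOff L (tE E α) Θ) (h0 : constantCoeff Θ ≠ 0) :
    ∃ (k₁ : Type) (_ : Field k₁) (_ : Algebra k k₁) (_ : FiniteDimensional k k₁)
      (_ : IsGalois k k₁) (β : IntOff (tE E α) Θ →+* MvPowerSeries ι k₁),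
      (∀ p, β (toInt _ Θ p) = MvPowerSeries.map (algebraMap k k₁) (pt (RingHom.id k) 0 p)) ∧
      ∀ δ : k₁ ≃ₐ[k] k₁, (∀ x, δ (MvPowerSeries.constantCoeff (β x)) =
        MvPowerSeries.constantCoeff (β x)) → δ = 1 := by
  have hΘ : Θ ≠ 0 := fun h => h0 (by rw [h, map_zero])
  obtain ⟨M, _, _, _, _, β, hβ⟩ := znp_hom hα hu (RingHom.id k) 0
    ((eval₂Hom_zero_apply (RingHom.id k) Θ).trans_ne h0)
  have : IsDomain (MvPowerSeries ι M) := NoZeroDivisors.to_isDomain _
  let q : IntOff (tE E α) Θ →+* M := MvPowerSeries.constantCoeff.comp β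
  have hm : ∀ (δ : M ≃ₐ[k] M) p, MvPowerSeries.map (δ : M →+* M) (β (toInt _ Θ p)) =
      β (toInt _ Θ p) := fun δ p => by
    rw [hβ]
    ext n
    simp only [MvPowerSeries.coeff_map]
    exact δ.commutes _
  let Γ : Subgroup (M ≃ₐ[k] M) :=
    { carrier := {δ | ∀ x, δ (q x) = q x}
      mul_mem' := fun {a b} ha hb x => by rw [AlgEquiv.mul_apply, hb x, ha x]
      one_mem' := fun _ => rfl
      inv_mem' := fun {a} ha x => a.injective (by
        rw [← AlgEquiv.mul_apply, mul_inv_cancel, ha x, AlgEquiv.one_apply]) }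
  have hN : Γ.Normal := ⟨fun δ hδ γ x => by
    obtain ⟨g, hg⟩ := intOff_conj hα hΘ q (((γ⁻¹ : M ≃ₐ[k] M) : M →+* M).comp q) fun p =>
      congrArg MvPowerSeries.constantCoeff (hm γ⁻¹ p)
    have e : (γ⁻¹ : M ≃ₐ[k] M) (q x) = q (gI α Θ g x) := hg x
    rw [AlgEquiv.mul_apply, AlgEquiv.mul_apply, e, hδ, ← e, ← AlgEquiv.mul_apply, mul_inv_cancel,
      AlgEquiv.one_apply]⟩
  have hfix : ∀ δ ∈ Γ, ∀ x, MvPowerSeries.map (δ : M →+* M) (β x) = β x := fun δ hδ x => by
    obtain ⟨g, hg⟩ := intOff_conj hα hΘ β ((MvPowerSeries.map (δ : M →+* M)).comp β) (hm δ)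
    have e : g = 1 := pureF hα hΘ hu q fun y =>
      (congrArg MvPowerSeries.constantCoeff (hg y)).symm.trans (hδ y)
    exact (hg x).trans (congrArg β (Subtype.ext (by rw [e]; rfl)))
  obtain ⟨β₁, h₁⟩ := ring_factor β
    (MvPowerSeries.map (algebraMap (IntermediateField.fixedField Γ) M))
    (fun a b h => MvPowerSeries.ext fun n =>
      (algebraMap (IntermediateField.fixedField Γ) M).injective
        (congrArg (MvPowerSeries.coeff n) h))
    fun z => ⟨fun n => ⟨MvPowerSeries.coeff n (β z), fun δ =>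
      congrArg (MvPowerSeries.coeff n) (hfix δ.1 δ.2 z)⟩, rfl⟩
  refine ⟨IntermediateField.fixedField Γ, _, _, inferInstance, inferInstance, β₁, fun p => ?_,
    fun δ hδ => ?_⟩
  · refine MvPowerSeries.ext fun n => (algebraMap (IntermediateField.fixedField Γ) M).injective ?_
    exact (congrArg (MvPowerSeries.coeff n) ((h₁ _).trans (hβ p))).trans
      (IsScalarTower.algebraMap_apply k (IntermediateField.fixedField Γ) M _)
  · have hq : ∀ x, q x = algebraMap (IntermediateField.fixedField Γ) M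
        (MvPowerSeries.constantCoeff (β₁ x)) := fun x =>
      (congrArg MvPowerSeries.constantCoeff (h₁ x)).symm
    have hd : δ.liftNormal M ∈ Γ := fun x => by
      rw [hq, AlgEquiv.liftNormal_commutes, hδ]
    refine AlgEquiv.ext fun a => (algebraMap (IntermediateField.fixedField Γ) M).injective ?_
    exact (AlgEquiv.liftNormal_commutes δ M a).symm.trans (a.2 ⟨_, hd⟩)

end Pool.Agent.ZFy.ZL
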