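import Pool.Agent.Lib.MP_879916_ag.SS.ZUn
import Pool.Agent.Lib.MP_879916_ag.SS.ZMin
import Pool.Agent.Lib.MP_751085_ag.ZF.Z.LocE
import Pool.Agent.Lib.MP_751085_ag.ZC.Z.Pole
import Pool.Agent.Lib.MP_751085_ag.ZC.V.Rsg

/-! The minimal field of constants that splits a cover at infinity. -/

namespace Pool.Agent.ZFy.ZL

open Pool.Agent.ZCy Pool.Agent.ZFN
open scoped Classical WithZero Polynomial
open MvPolynomial

set_option linter.unusedSectionVars false

variable {l q : ℕ} {K F : Type} [Field K] [Field F] [Algebra K[X] F] [IsFractionRing K[X] F]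

theorem zsec_c0 {M : Type} [Field M] (y : Ps M) : (lid M y).coeff 0 = cc M y := by
  have h := coeff_lau (ι := RingHom.id M) y 0
  rw [PowerSeries.coeff_zero_eq_constantCoeff_apply] at h
  exact h

theorem zsec_over {L M : Type} [Field L] [Field M] (f : L →+* M) :
    Over (lm f) (lval L) (lval M) := fun x => ⟨loce_le f, fun h => by
  obtain ⟨g, rfl⟩ := ((isVR_lval L).2.2 x).1 h
  rw [loce_lm]
  exact (isVR_lval M).le_one _⟩

/-- the constant coefficient is a residue map -/
theorem zsec_red (M : Type) [Field M] : ∃ r : (lval M).integer →+* M, IsRed (lval M) r ∧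
    ∀ x, r x = (x : Ls M).coeff 0 := by
  obtain ⟨e, he⟩ := (isVR_lval M).exists_equiv
  refine ⟨(cc M).comp (e.symm : (lval M).integer →+* Ps M), fun x => ?_, fun x => ?_⟩
  · obtain ⟨y, rfl⟩ := e.surjective x
    rw [he, ← cc_eq_zero]
    exact iff_of_eq (congrArg (fun t => cc M t = 0) (e.symm_apply_apply y))
  · obtain ⟨y, rfl⟩ := e.surjective x
    rw [he, zsec_c0]
    exact congrArg (cc M) (e.symm_apply_apply y)

theorem zsec_C {M : Type} [Field M] (a : M) :
    tL M (Polynomial.C a) = lid M (PowerSeries.C a) :=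
  (Polynomial.eval₂_C _ _).trans (lau_C (ι := RingHom.id M) a).symm

theorem zsec_X {M : Type} [Field M] : 1 < lval M (tL M Polynomial.X) := by
  have e : tL M Polynomial.X = HahnSeries.single (-((1 : ℕ) : ℤ)) 1 := Polynomial.eval₂_X _ _
  rw [e, lval_single, ← WithZero.exp_zero, WithZero.exp_lt_exp]
  norm_num

/-- Either take a valuation over infinity, its residue field `M` (`res_gal`) and the embedding
of `hens` into `Ls M`; or apply `znp_min` to `MP Unit K → F`, `X ↦ 1 / t`. -/
theorem exists_sec {N : Type} [Field N] [Algebra F N] [FiniteDimensional F N] [IsGalois F N]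
    (h : UnI F (toF K[X] F N)) : ∃ (M : Type) (_ : Field M) (_ : Algebra K M)
      (_ : FiniteDimensional K M) (_ : IsGalois K M) (J : N →+* Ls M),
      (∀ p, J (toF K[X] F N p) = tL M (p.map (algebraMap K M))) ∧
      ∀ δ : M ≃ₐ[K] M, (∀ x, lm (δ : M →+* M) (J x) = J x) → δ = 1 := by
  obtain ⟨φ, hφ⟩ : ∃ φ : F →+* Ls K, ∀ p, φ (algebraMap K[X] F p) = tL K p :=
    ⟨IsFractionRing.lift tL_injective, fun p => IsFractionRing.lift_algebraMap _ p⟩
  have ho : Over φ ((lval K).comap φ) (lval K) := Over.comap _ _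
  generalize (lval K).comap φ = v at ho
  obtain ⟨r, hr, hr0⟩ := zsec_red K
  have hC : ∀ a : K, v (algebraMap K[X] F (Polynomial.C a)) ≤ 1 := fun a => (ho _).1 (by
    rw [hφ, zsec_C]
    exact (isVR_lval K).le_one _)
  have hrC : ∀ a : K, r.comp ho.int ⟨_, hC a⟩ = a := fun a => by
    rw [RingHom.comp_apply, hr0, Over.coe_int, hφ, zsec_C, zsec_c0]
    exact PowerSeries.constantCoeff_C a
  obtain ⟨w, hw⟩ := exists_over (E := N) v
  have hI : Ine F w = ⊥ := by
    refine h w (fun a ha => (hw.eq_one _).2 ?_) ?_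
    · exact ((hr.comp_int ho).ne_zero ⟨_, hC a⟩).1 (by rwa [hrC])
    · refine not_le.1 fun e => not_le.2 (zsec_X (M := K)) ?_
      rw [← hφ]
      exact (ho _).2 ((hw _).1 e)
  obtain ⟨M, _, _, _, _, ρ, -, hρ, hs, hρ0, -⟩ :=
    res_gal hw hI (hr.comp_int ho) fun a => ⟨_, hrC a⟩
  obtain ⟨J, hJ, -, hJ2⟩ := hens hw hI (isVR_lval M) (ho.trans (zsec_over (algebraMap K M)))
    (hρ.comp (PowerSeries.residueFieldOfPowerSeries (k := M)).symm.toRingHom) fun a y e => by
      refine (PowerSeries.residueFieldOfPowerSeries (k := M)).symm_apply_eq.2 ?_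
      rw [hρ0, RingHom.comp_apply, hr0, Over.coe_int]
      exact (congrArg (fun t : Ls M => t.coeff 0) e).trans (zsec_c0 y)
  refine ⟨M, _, _, ‹_›, ‹_›, J, fun p => (hJ _).trans ?_, fun δ hδ => AlgEquiv.ext fun m => ?_⟩
  · rw [RingHom.comp_apply, hφ, lm_tM]
  · obtain ⟨x, rfl⟩ := hs m
    obtain ⟨y, h1, h2⟩ := hJ2 x
    have h3 : ρ x = cc M y :=
      (PowerSeries.residueFieldOfPowerSeries (k := M)).symm_apply_eq.1 h2.symm
    have h4 := congrArg (fun t : Ls M => t.coeff 0) (hδ x)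
    simp only [lm_coeff, h1, zsec_c0] at h4
    rw [h3]
    exact h4

end Pool.Agent.ZFy.ZL
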