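import Pool.Agent.Lib.MP_879916_ag.SS.ZUn

/-! Almost all Gauss valuations are unramified. -/

namespace Pool.Agent.ZFy

open Pool.Agent.ZCy Pool.Agent.ZFN
open scoped Classical WithZero Polynomial
open MvPolynomial

section

variable {A V K N : Type} [CommRing A] [Field K] [Field N] {𝓕 : Filter V} {G : V → Vl N → Prop}

theorem zuc_int {φ : A →+* N} (h : ∀ a, ∀ᶠ v in 𝓕, ∀ w, G v w → w (φ a) ≤ 1) {z : N}
    (hz : φ.IsIntegralElem z) : ∀ᶠ v in 𝓕, ∀ w, G v w → w z ≤ 1 := by
  obtain ⟨p, hm, hp⟩ := hz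
  filter_upwards [(Filter.eventually_all_finset p.support).2 fun i _ => h (p.coeff i)]
    with v hv w hw
  obtain ⟨p', h1, -, h2⟩ := Polynomial.lifts_and_natDegree_eq_and_monic (f := w.integer.subtype)
    ((Polynomial.lifts_iff_coeff_lifts _).2 fun n => by
      rw [Polynomial.coeff_map]
      by_cases hn : n ∈ p.support
      · exact ⟨⟨_, hv n hn w hw⟩, rfl⟩
      · rw [Polynomial.notMem_support_iff.1 hn, map_zero]
        exact ⟨0, rfl⟩) (hm.map φ)
  exact le_one_of_integral (φ := w.integer.subtype) (fun a => a.2)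
    ⟨p', h2, by rw [Polynomial.eval₂_eq_eval_map, h1, ← Polynomial.eval₂_eq_eval_map, hp]⟩

theorem zuc_ine [IsDomain A] [Algebra K N] [FiniteDimensional K N] [IsGalois K N] {α : A →+* K}
    (hα : IsFr α) (h : ∀ a, ∀ᶠ v in 𝓕, ∀ w, G v w → w (tE N α a) ≤ 1)
    (h' : ∀ a, a ≠ 0 → ∀ᶠ v in 𝓕, ∀ w, G v w → ¬w (tE N α a) < 1) :
    ∀ᶠ v in 𝓕, ∀ w, G v w → Ine K w = ⊥ := by
  obtain ⟨Δ, h0, hs⟩ := exists_sepC (N := N) hα
  have key : ∀ g : N ≃ₐ[K] N, ∀ᶠ v in 𝓕, ∀ w, G v w → g ∈ Ine K w → g = 1 := fun g => by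
    by_cases hg : g = 1
    · exact Filter.Eventually.of_forall fun _ _ _ _ => hg
    obtain ⟨θ, y, h1, h2, h3⟩ := hs g hg
    filter_upwards [zuc_int h h1, zuc_int h h2, h' Δ h0] with v e1 e2 e3 w hw hi
    refine absurd ?_ (e3 w hw)
    rw [← h3, map_mul]
    exact mul_lt_one_of_lt_of_le (hi.2 θ (e1 w hw)) (e2 w hw)
  filter_upwards [Filter.eventually_all.2 key] with v hv w hw
  exact (Subgroup.eq_bot_iff_forall _).2 fun g hg => hv g w hw hg

end

section

variable {k ι K N : Type} [Field k] [Field K] [Field N]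

variable (F₀ : Type) [Field F₀] [Finite F₀] [Algebra (RatFunc F₀) k]
  [FiniteDimensional (RatFunc F₀) k]

include F₀

/-- `place_fs` -/
theorem unit_cof {a : k} (h : a ≠ 0) : ∀ᶠ v : Place k in Filter.cofinite, plv v a = 1 := by
  filter_upwards [place_fs F₀ a, place_fs F₀ a⁻¹] with v h1 h2
  rw [← plv_le] at h1 h2
  rw [map_inv₀, inv_le_one₀ (zero_lt_iff.2 ((Valuation.ne_zero_iff _).2 h))] at h2
  exact le_antisymm h1 h2

theorem cfi_cof (p : MP ι k) : ∀ᶠ v : Place k in Filter.cofinite, CfI (plv v) p := by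
  filter_upwards [(Filter.eventually_all_finset p.support).2 fun m _ => place_fs F₀ (coeff m p)]
    with v hv m
  by_cases hm : m ∈ p.support
  · exact (plv_le v _).2 (hv m hm)
  · rw [notMem_support_iff.1 hm, map_zero]
    exact zero_le_one

/-- take `exists_sepC`; the coefficients of the finitely many monic equations are integral at
almost all `v`, and `Δ` has a unit coefficient -/
theorem ung_cof [Algebra K N] [FiniteDimensional K N] [IsGalois K N] {α : MP ι k →+* K}
    (hα : IsFr α) : ∀ᶠ v : Place k in Filter.cofinite, UnG K (plv v) (tE N α) := by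
  refine zuc_ine (G := fun v w => GauV (plv v) (tE N α) w) hα (fun a => ?_) fun a ha => ?_
  · filter_upwards [cfi_cof F₀ a] with v hv w hw using (hw a hv).1
  · obtain ⟨m, hm⟩ := MvPolynomial.ne_zero_iff.1 ha
    filter_upwards [cfi_cof F₀ a, unit_cof F₀ hm] with v hv h1 w hw e
    exact h1.not_lt ((hw a hv).2.1 e m)

theorem zuc_cf (p : k[X]) :
    ∀ᶠ v : Place k in Filter.cofinite, ∀ i, plv v (p.coeff i) ≤ 1 := by
  filter_upwards [(Filter.eventually_all_finset p.support).2 fun m _ => place_fs F₀ (p.coeff m)]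
    with v hv m
  by_cases hm : m ∈ p.support
  · exact (plv_le v _).2 (hv m hm)
  · rw [Polynomial.notMem_support_iff.1 hm, map_zero]
    exact zero_le_one

theorem unp_cof [Algebra K N] [FiniteDimensional K N] [IsGalois K N] {α : k[X] →+* K}
    (hα : IsFr α) : ∀ᶠ v : Place k in Filter.cofinite, UnP K (plv v) (tE N α) := by
  refine zuc_ine (G := fun v w => GauP (plv v) (tE N α) w) hα (fun a => ?_) fun a ha => ?_
  · filter_upwards [zuc_cf F₀ a] with v hv w hw using (hw a hv).1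
  · filter_upwards [zuc_cf F₀ a, unit_cof F₀ (Polynomial.leadingCoeff_ne_zero.2 ha)]
      with v hv h1 w hw e
    exact h1.not_lt ((hw a hv).2.1 e a.natDegree)

end

end Pool.Agent.ZFy
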