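import Pool.Agent.Lib.MP_879916_ag.SS.ZCt
import Pool.Agent.Lib.MP_879916_ag.SS.ZUc
import Pool.Agent.Lib.MP_879916_ag.SS.ZCrt
import Pool.Agent.Lib.MP_879916_ag.SS.ZPv

/-! The certificate spreads out to almost all places. -/

namespace Pool.Agent.ZFy.ZL

open Pool.Agent.ZCy Pool.Agent.ZFN
open scoped Classical WithZero Polynomial
open MvPolynomial

set_option linter.unusedSectionVars false

variable {k : Type} [Field k]

theorem zspr_lift {ι : Type} {O : Subring k} {p : MP ι k} (h : ∀ m, coeff m p ∈ O) :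
    ∃ p' : MP ι O, map O.subtype p' = p := by
  refine ⟨∑ m ∈ p.support, monomial m ⟨coeff m p, h m⟩, ?_⟩
  rw [map_sum]
  simp only [map_monomial]
  exact p.as_sum.symm

theorem zspr_liftP {ι : Type} {O : Subring k} {Th : (MP ι k)[X]} (hm : Th.Monic)
    (h : ∀ i m, coeff m (Th.coeff i) ∈ O) :
    ∃ Th' : (MP ι O)[X], Th'.Monic ∧ Th'.map (map O.subtype) = Th := by
  obtain ⟨q, h1, -, h2⟩ := Polynomial.lifts_and_natDegree_eq_and_monic
    ((Polynomial.lifts_iff_coeff_lifts (f := (map O.subtype : MP ι O →+* MP ι k)) Th).2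
      fun i => zspr_lift (h i)) hm
  exact ⟨q, h2, h1⟩

theorem zspr_set {ι : Type} (Th : (MP ι k)[X]) :
    ∃ S : Finset k, ∀ O : Subring k, (∀ a ∈ S, a ∈ O) → ∀ i m, coeff m (Th.coeff i) ∈ O := by
  refine ⟨Th.support.biUnion fun i => (Th.coeff i).support.image fun m => coeff m (Th.coeff i),
    fun O H i m => ?_⟩
  by_cases h : coeff m (Th.coeff i) = 0
  · rw [h]
    exact O.zero_mem
  · refine H _ (Finset.mem_biUnion.2 ⟨i, Polynomial.mem_support_iff.2 fun e => h ?_,
      Finset.mem_image_of_mem _ (mem_support_iff.2 h)⟩)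
    rw [e, coeff_zero]

/-- the certificate at a Gauss valuation -/
theorem zspr_gdAt {l q : ℕ} {k₀ ι K F T N : Type} [Field k₀] [Field K] [Field F] [Field T]
    [Field N] [Algebra (MP ι k) K] [IsFractionRing (MP ι k) K] [Algebra K[X] F]
    [IsFractionRing K[X] F] [Algebra F T] [FiniteDimensional F T] [IsGalois F T] [Algebra K N]
    [FiniteDimensional K N] [IsGalois K N] {O : Subring k} [Algebra (MP ι O) K]
    [IsFractionRing (MP ι O) K]
    (hO : ∀ a, algebraMap (MP ι O) K a = algebraMap (MP ι k) K (map O.subtype a))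
    {c : k₀ →+* MP ι O} {Th : (MP ι O)[X]} {Δ : MP ι O} {τ : T →+* Ls N}
    (H : Crt K F l q c Th Δ τ) (hU : UnS K (toF (MP ι O) K N) Δ) {v : Vl k} (hv : Nrm v)
    (h1 : ∀ a ∈ O, v a ≤ 1) {m : ι →₀ ℕ} (h2 : v (coeff m Δ : O) = 1) {u : Vl K}
    (hu : GauV v (algebraMap (MP ι k) K) u) :
    GdAt K F l q (Th.map (algebraMap (MP ι O) K)) τ u := by
  have hd := pv_dvr hv
  have hfr := pv_fr (isFr_alg (MP ι k) K) v
  let _ : Algebra (MP ι v.integer) K :=
    ((algebraMap (MP ι k) K).comp (map v.integer.subtype)).toAlgebra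
  have : IsFractionRing (MP ι v.integer) K := hfr.frac
  obtain ⟨π, hπ⟩ := IsDiscreteValuationRing.exists_irreducible v.integer
  have hc := hv.isVR.cen hπ
  have hle : O ≤ v.integer := h1
  have hi : ∀ a, algebraMap (MP ι v.integer) K (map (Subring.inclusion hle) a) =
      algebraMap (MP ι O) K a := fun a => by
    rw [hO]
    change algebraMap (MP ι k) K (map v.integer.subtype (map (Subring.inclusion hle) a)) = _
    rw [map_map]
    rfl
  refine ⟨k₀, MP ι v.integer, inferInstance, inferInstance, inferInstance, inferInstance,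
    inferInstance, inferInstance, (map (Subring.inclusion hle)).comp c,
    Th.map (map (Subring.inclusion hle)), map (Subring.inclusion hle) Δ, C π,
    H.tr hU _ hi _ H.lne, ?_, (prime_C_iff ι).2 hπ.prime, fun hdv => ?_, ?_⟩
  · rw [Polynomial.map_map]
    exact congrArg (fun f => Th.map f) (RingHom.ext hi)
  · have h3 := (hc.2 _).2 ((C_dvd_iff_dvd_coeff _ _).1 hdv m)
    rw [coeff_map] at h3
    exact h3.ne h2
  · exact (gauV_cen (fun a => a.2) (fun a => (hc.2 a).symm)
      (fun x hx => ⟨1, ⟨x, hx⟩, map_one v, mul_one x⟩) _ u).1 hu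

variable (F₀ : Type) [Field F₀] [Finite F₀] [Algebra (RatFunc F₀) k]
  [FiniteDimensional (RatFunc F₀) k]

include F₀

/-- the subring generated by `S`, the constants, the variable and a basis (`place_fs`) -/
theorem exists_sub (S : Finset k) : ∃ O : Subring k, (∀ a ∈ S, a ∈ O) ∧
    (∀ a : F₀, algebraMap (RatFunc F₀) k (RatFunc.C a) ∈ O) ∧ IsFr O.subtype ∧
    ∀ᶠ v : Place k in Filter.cofinite, ∀ a ∈ O, plv v a ≤ 1 := by
  let b := Module.finBasis (RatFunc F₀) k
  let φ := algebraMap (RatFunc F₀) k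
  let G : Set k := (↑S ∪ Set.range fun a : F₀ => φ (RatFunc.C a)) ∪
    (insert (φ RatFunc.X) (Set.range b))
  have hG : G.Finite := (S.finite_toSet.union (Set.finite_range _)).union
    ((Set.finite_range _).insert _)
  have hp : ∀ p : F₀[X], φ (algebraMap F₀[X] (RatFunc F₀) p) ∈ Subfield.closure G := fun p => by
    induction p using Polynomial.induction_on with
    | C a => exact Subfield.subset_closure (Or.inl (Or.inr ⟨a, rfl⟩))
    | add p q hp hq =>
      rw [map_add, map_add]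
      exact add_mem hp hq
    | monomial n a h =>
      rw [pow_succ, ← mul_assoc, map_mul, map_mul]
      exact mul_mem h (Subfield.subset_closure (Or.inr (Or.inl rfl)))
  have hr : ∀ r : RatFunc F₀, φ r ∈ Subfield.closure G := fun r => by
    rw [← r.num_div_denom, map_div₀]
    exact div_mem (hp _) (hp _)
  refine ⟨Subring.closure G, fun a ha => Subring.subset_closure (Or.inl (Or.inl ha)),
    fun a => Subring.subset_closure (Or.inl (Or.inr ⟨a, rfl⟩)),
    isFr_of_div Subtype.val_injective fun z => ?_, ?_⟩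
  · have hz : z ∈ Subfield.closure G := by
      rw [← b.sum_repr z]
      refine sum_mem fun i _ => ?_
      rw [Algebra.smul_def]
      exact mul_mem (hr _) (Subfield.subset_closure (Or.inr (Or.inr ⟨i, rfl⟩)))
    obtain ⟨y, hy, w, hw, e⟩ := Subfield.mem_closure_iff.1 hz
    exact ⟨⟨y, hy⟩, ⟨w, hw⟩, e.symm⟩
  · refine ((Filter.eventually_all_finite hG).2 fun a _ => place_fs F₀ a).mono fun v hv a ha => ?_
    exact (plv_le v a).2 ((Subring.closure_le (t := v.1.toSubring)).2 hv ha)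

/-- `exists_crtS` over `MP ι O` (with constants `F₀`), then `Crt.tr` to `MP ι k` and to
`MP ι (plv v).integer` with the prime `C π` (`gauV_cen`, `pv_dvr`, `pv_fr`) -/
theorem crt_spread {l : ℕ} {ι K F T N₁ : Type} [Finite ι] [Field K] [Field F] [Field T] [Field N₁]
    [Algebra (MP ι k) K] [IsFractionRing (MP ι k) K] [Algebra K[X] F] [IsFractionRing K[X] F]
    [Algebra F T] [FiniteDimensional F T] [IsGalois F T] [Algebra K N₁] [FiniteDimensional K N₁]
    [IsGalois K N₁] {Th : (MP ι k)[X]} {τ : T →+* Ls N₁} (hl : l.Prime) (h0 : (l : k) ≠ 0)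
    (hm : Th.Monic) (hu : UnrOff F (toF K[X] F T) (Th.map (algebraMap (MP ι k) K)))
    (hτ : ∀ p, τ (toF K[X] F T p) = tL N₁ (p.map (algebraMap K N₁))) :
    ∃ (N₂ : Type) (_ : Field N₂) (_ : Algebra K N₂) (_ : FiniteDimensional K N₂)
      (_ : IsGalois K N₂) (q : ℕ) (Δ : MP ι k) (τ' : T →+* Ls N₂),
      Crt K F l q (C : k →+* MP ι k) Th Δ τ' ∧ (∃ ζ : N₂, IsPrimitiveRoot ζ l) ∧
      ∀ᶠ v : Place k in Filter.cofinite, ∀ u : Vl K, GauV (plv v) (algebraMap (MP ι k) K) u →
        GdAt K F l q (Th.map (algebraMap (MP ι k) K)) τ' u := by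
  obtain ⟨S, hS⟩ := zspr_set Th
  obtain ⟨O, h1, h2, h3, h4⟩ := exists_sub F₀ S
  obtain ⟨Th', hm', rfl⟩ := zspr_liftP hm (hS O h1)
  have hfr := h3.mv (isFr_alg (MP ι k) K)
  let _ : Algebra (MP ι O) K := ((algebraMap (MP ι k) K).comp (map O.subtype)).toAlgebra
  have : IsFractionRing (MP ι O) K := hfr.frac
  have e : (Th'.map (map O.subtype)).map (algebraMap (MP ι k) K) =
      Th'.map (algebraMap (MP ι O) K) := Polynomial.map_map _ _ _
  let c₁ : F₀ →+* k := (algebraMap (RatFunc F₀) k).comp RatFunc.C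
  have h5 : (l : F₀) ≠ 0 := fun h => h0 ((map_natCast c₁ l).symm.trans (h ▸ c₁.map_zero))
  rw [e] at hu ⊢
  obtain ⟨N₂, _, _, _, _, q, Δ, τ', H, hζ, hU⟩ :=
    exists_crtS ((C : O →+* MP ι O).comp (c₁.codRestrict O h2)) hl h5 hm' hu hτ
  obtain ⟨m, h6⟩ := exists_coeff_ne_zero H.ne
  refine ⟨N₂, inferInstance, inferInstance, inferInstance, inferInstance, q, map O.subtype Δ, τ',
    H.tr hU _ (fun _ => rfl) _ h0, hζ, ?_⟩
  have h7 : ((coeff m Δ : O) : k) ≠ 0 := fun h => h6 (Subtype.ext h)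
  filter_upwards [h4, unit_cof F₀ h7] with v a1 a2 u a3
  exact zspr_gdAt (fun _ => rfl) H hU (plv_nrm v) a1 a2 a3

end Pool.Agent.ZFy.ZL
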