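import Pool.Agent.Lib.MP_879916_ag.SS.ZL3d
import Pool.Agent.Lib.MP_879916_ag.SS.ZSec
import Pool.Agent.Lib.MP_879916_ag.SS.ZS4
import Pool.Agent.Lib.MP_879916_ag.SS.ZHl
import Pool.Agent.Lib.MP_879916_ag.SS.ZL3a
import Pool.Agent.Lib.MP_879916_ag.SS.ZL3b
import Pool.Agent.Lib.MP_879916_ag.SS.ZL3c
import Pool.Agent.Lib.MP_879916_ag.SS.ZSpr

/-! Lines through the origin are inert. -/

namespace Pool.Agent.ZFy.ZL

open Pool.Agent.ZCy Pool.Agent.ZFN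
open scoped Classical WithZero Polynomial
open MvPolynomial

set_option linter.unusedSectionVars false

/-- polynomials in one variable -/
noncomputable def e1 (k : Type) [Field k] : k[X] ≃+* MP Unit k :=
  (uniqueAlgEquiv k Unit).symm.toRingEquiv

theorem e1_coeff {k : Type} [Field k] (p : k[X]) (m : Unit →₀ ℕ) :
    coeff m (e1 k p) = p.coeff (m ()) := coeff_uniqueAlgEquiv_symm k p m

theorem e1_lin {k : Type} [Field k] (z : k) :
    e1 k (Polynomial.X - Polynomial.C z) = X () - C z := by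
  simp [e1]

theorem gauV_of_gauP {k N : Type} [Field k] [Field N] {u : Vl k} {φ : MP Unit k →+* N} {W : Vl N}
    (h : GauP u (φ.comp (e1 k : k[X] →+* MP Unit k)) W) : GauV u φ W := fun p hp => by
  obtain ⟨p, rfl⟩ := (e1 k).surjective p
  have e : ∀ P : ℤᵐ⁰ → Prop, (∀ m, P (u (coeff m (e1 k p)))) ↔ ∀ i, P (u (p.coeff i)) := fun P =>
    ⟨fun h i => by simpa [e1_coeff] using h (Finsupp.single () i), fun h m => by
      rw [e1_coeff]; exact h _⟩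
  rw [e (· < 1)]
  exact h p ((e (· ≤ 1)).1 hp)

section

variable {l q : ℕ} {k K N₁ N₃ : Type} [Field k] [Field K] [Field N₁] [Field N₃]
  [Algebra (MP (Option Unit) k) K] [IsFractionRing (MP (Option Unit) k) K] [Algebra K N₁]
  [FiniteDimensional K N₁] [IsGalois K N₁] [Algebra (RF Unit k)[X] K]
  [IsFractionRing (RF Unit k)[X] K] [Algebra (RF Unit k) N₃] [FiniteDimensional (RF Unit k) N₃]
  [IsGalois (RF Unit k) N₃] [Algebra k[X] (RF Unit k)] [IsFractionRing k[X] (RF Unit k)]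
  {Δ : MP (Option Unit) k} {ρ : k} {Δ₀ Δ₃ : MP Unit k} {Th : (MP Unit k)[X]} {τ : N₁ →+* Ls N₃}
  {𝒯 : Finset (Place k)} {Δ' : k[X]} {a : Option Unit → k}

theorem inu_of (he : algebraMap k[X] (RF Unit k) =
      (algebraMap (MP Unit k) (RF Unit k)).comp (e1 k : k[X] →+* MP Unit k))
    (h : L3c K Δ ρ Δ₀) (ht : L3t K Δ Δ₀ Th)
    (c : Crt (RF Unit k) K l q (C : k →+* MP Unit k) Th Δ₃ τ) (hΔ : e1 k Δ' = Δ₃ * Δ₀)
    (ha : a none ≠ 0) (hd : ¬(X () - C (slp a) : MP Unit k) ∣ Δ₃ * Δ₀)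
    (h1 : ∀ v ∈ 𝒯, ∀ u : Vl (RF Unit k), GauV (plv v) (algebraMap (MP Unit k) _) u →
      GdAt (RF Unit k) K l q (Th.map (algebraMap (MP Unit k) _)) τ u)
    (h2 : ∀ v ∈ 𝒯, plv v ρ ≤ 1 ∧ CfI (plv v) Δ₀ ∧ ∃ m, plv v (coeff m Δ₀) = 1)
    (hH : HLs (RF Unit k) l N₃ Δ' 𝒯 (slp a)) : INu K N₁ l (GS K Δ 𝒯) (lin a) := by
  intro N _ _ _ _ e hU hL
  obtain ⟨hu, hG⟩ := gs_iff.1 hU
  have hu3 := l3_unr h ht hu
  obtain ⟨M, _, _, _, _, J, hJ, hm⟩ := exists_sec (l3_inf h hu)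
  have e2 : ∀ (E : Type) [Field E] [Algebra (RF Unit k) E], toF k[X] (RF Unit k) E =
      (toF (MP Unit k) (RF Unit k) E).comp (e1 k : k[X] →+* MP Unit k) := fun E _ _ => by
    rw [toF, he]; rfl
  have hP : ∀ {P : MP Unit k} {u : Vl (RF Unit k)}, Prime P → ¬P ∣ Δ₃ * Δ₀ →
      Cen (algebraMap (MP Unit k) _) u P → GdAt (RF Unit k) K l q (Th.map (algebraMap _ _)) τ u ∧
        UnP K u (toF (RF Unit k)[X] K N) := fun hP hn hc =>
    ⟨c.gdAt hP (fun d => hn (d.mul_right _)) hc, fun W hW => l3_prm h ht hu hc.1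
      (le_antisymm (hc.1 _) (not_lt.1 fun e => hn (((hc.2 _).1 e).mul_left _))) hW⟩
  have hV : ∀ (E : Type) [Field E] [Algebra (RF Unit k) E] {v : Place k} {W : Vl E},
      GauP (plv v) (toF k[X] (RF Unit k) E) W →
      GauV (plv v) (algebraMap (MP Unit k) _) (W.comap (algebraMap (RF Unit k) E)) :=
    fun E _ _ v W hW => (GauV.of_over (Over.comap _ W)).1 (gauV_of_gauP (e2 E ▸ hW))
  have hI := hH.sub (M := M) (by
      rw [e2, unrOff_equiv, hΔ]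
      exact unrOff_mono (n := 1) (by rw [pow_one]; exact dvd_mul_right _ _) c.unr)
    (fun v hv W hW => (h1 v hv _ (hV N₃ hW)).unr W (Over.comap _ W)) (s3_lk c.hτ e hL hJ hm) (by
      rw [e2, unrOff_equiv, hΔ]
      intro P w h3 h4 h5
      obtain ⟨h6, h7⟩ := hP h3 h4 ((cen_of_over (Over.comap _ w)).1 h5)
      exact s3_unr e hL hu3 hJ hm h6 h7 w (Over.comap _ w))
    fun v hv W hW => s3_unr e hL hu3 hJ hm (h1 v hv _ (hV M hW)) (fun W' hW' => hG v hv W'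
      (l3_gau1 h (h2 v hv).1 (h2 v hv).2.1 (h2 v hv).2.2 (hV M hW) hW')) W (Over.comap _ W)
  rw [e2, inert_equiv, e1_lin] at hI
  have hp : Prime (X () - C (slp a) : MP Unit k) := by
    rw [← e1_lin]
    exact (MulEquiv.prime_iff (e1 k)).2 (Polynomial.prime_X_sub_C _)
  obtain ⟨w, -, hw⟩ := exists_cen_ext (E := M) (isFr_alg (MP Unit k) (RF Unit k)) hp
  have hc := (cen_of_over (Over.comap _ w)).1 hw
  obtain ⟨W, h3, h4⟩ := s3_dec e hL hu3 hJ (hP hp hd hc).1 (Over.comap _ w) (hI w hw)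
  exact inert_of_one (isFr_alg (MP (Option Unit) k) K) (prime_lin fun e => ha (congrFun e none))
    (l3_cen h ha (fun d => hd (d.mul_left _)) hc h3) h4

end

theorem hil_ins {l : ℕ} {k K N₁ : Type} [Field k] (F₀ : Type) [Field F₀] [Finite F₀]
    [Algebra (RatFunc F₀) k] [FiniteDimensional (RatFunc F₀) k] [Field K] [Field N₁]
    [Algebra (MP (Option Unit) k) K] [IsFractionRing (MP (Option Unit) k) K] [Algebra K N₁]
    [FiniteDimensional K N₁] [IsGalois K N₁] (hl : l.Prime) (h0 : (l : k) ≠ 0)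
    {Δ : MP (Option Unit) k} (hΔ : Δ ≠ 0) (hu : UnrOff K (toF (MP (Option Unit) k) K N₁) Δ) :
    Hil (plR k) fun 𝒯 a => ¬lin a ∣ Δ ∧ INu K N₁ l (GS K Δ 𝒯) (lin a) := by
  have : Infinite k := .of_injective _ ((algebraMap (RatFunc F₀) k).injective.comp
    (IsFractionRing.injective F₀[X] (RatFunc F₀)))
  obtain ⟨_, ρ, Δ₀, Th, _, -, h, ht⟩ := exists_l3 (K := K) hΔ
  obtain ⟨M, _, _, _, _, J, hJ, -⟩ := exists_sec (l3_inf h hu)
  obtain ⟨N₃, _, _, _, _, q, Δ₃, τ, c, ⟨ζ, hζ⟩, hG⟩ :=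
    crt_spread F₀ hl h0 ht.monic (l3_unr h ht hu) hJ
  let : Algebra k[X] (RF Unit k) :=
    ((algebraMap (MP Unit k) (RF Unit k)).comp (e1 k : k[X] →+* MP Unit k)).toAlgebra
  have : IsFractionRing k[X] (RF Unit k) :=
    ((isFr_alg (MP Unit k) (RF Unit k)).comp_equiv (e1 k)).frac
  obtain ⟨Δ', hΔ'⟩ := (e1 k).surjective (Δ₃ * Δ₀)
  have hn : Δ' ≠ 0 := fun e => mul_ne_zero c.ne h.ne (by rw [← hΔ', e, map_zero])
  obtain ⟨m, hm⟩ := ne_zero_iff.1 h.ne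
  have h1 : ∀ᶠ z in Filter.cofinite, ¬(X () - C z : MP Unit k) ∣ Δ₃ * Δ₀ :=
    (Polynomial.finite_setOfPred_isRoot hn).eventually_cofinite_notMem.mono fun z hz d => hz (by
      rw [← e1_lin, ← hΔ', map_dvd_iff] at d
      exact Polynomial.dvd_iff_isRoot.1 d)
  refine ((((hil_hl (K := RF Unit k) F₀ hl h0 hζ hn).excl h1).cof hG).cof (((place_fs F₀ ρ).and
    ((cfi_cof F₀ Δ₀).and (unit_cof F₀ hm))))).mono fun 𝒯 a ha H => ?_
  exact ⟨l3_ndvd h ha fun d => H.1.1.2 (d.mul_left _), inu_of rfl h ht c hΔ' ha H.1.1.2 H.1.2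
    (fun v hv => ⟨(plv_le v ρ).2 (H.2 v hv).1, (H.2 v hv).2.1, m, (H.2 v hv).2.2⟩) H.1.1.1⟩

end Pool.Agent.ZFy.ZL
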