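import Pool.Agent.Lib.MP_879916_ag.SS.ZDf
import Pool.Agent.Lib.MP_751085_ag.ZF.Z.Misc1
import Pool.Agent.Lib.MP_751085_ag.ZF.Z.SplA
import Pool.Agent.Lib.MP_751085_ag.ZF.Z.GalX

/-! Certificates for unramifiedness, and almost all Gauss valuations. -/

namespace Pool.Agent.ZFy

open Pool.Agent.ZCy Pool.Agent.ZFN
open scoped Classical WithZero Polynomial
open MvPolynomial

section

variable {A A' K N : Type} [CommRing A] [CommRing A'] [Field K] [Field N] [Algebra K N]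
  {φ : A →+* N} {Δ Δ' : A}

/-- for `g ≠ 1` scale an element that is moved by `g`, and the inverse of the difference, to
integral elements (`IsAlgebraic.exists_integral_multiple`); take the product of the scalars -/
theorem exists_sepC [IsDomain A] [FiniteDimensional K N] [IsGalois K N] {α : A →+* K}
    (hα : IsFr α) : ∃ Δ : A, Δ ≠ 0 ∧ SepC K (tE N α) Δ := by
  let := α.toAlgebra
  let := (tE N α).toAlgebra
  have := hα.frac
  have : IsScalarTower A K N := IsScalarTower.of_algebraMap_eq fun _ => rfl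
  have : Algebra.IsAlgebraic A N := (IsFractionRing.comap_isAlgebraic_iff (K := K)).2 inferInstance
  have hx : ∀ g : N ≃ₐ[K] N, ∃ x, g ≠ 1 → g x - x ≠ 0 := fun g => by
    by_contra! H
    exact (H 0).1 (AlgEquiv.ext fun x => sub_eq_zero.1 (H x).2)
  choose x hx using hx
  obtain ⟨D, h1, h2⟩ := Algebra.IsAlgebraic.exists_integral_multiples A
    (Finset.univ.image x ∪ Finset.univ.image fun g : N ≃ₐ[K] N => (g (x g) - x g)⁻¹)
  refine ⟨D * D, mul_ne_zero h1 h1, fun g hg => ⟨tE N α D * x g, tE N α D * (g (x g) - x g)⁻¹,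
    h2 _ (Finset.mem_union_left _ (Finset.mem_image_of_mem _ (Finset.mem_univ g))),
    h2 _ (Finset.mem_union_right _ (Finset.mem_image_of_mem _ (Finset.mem_univ g))), ?_⟩⟩
  rw [map_mul, show g (tE N α D) = tE N α D from g.commutes _, ← mul_sub, mul_mul_mul_comm,
    mul_inv_cancel₀ (hx g hg), mul_one, map_mul]

/-- `le_one_of_integral` -/
theorem SepC.unS (h : SepC K φ Δ) : UnS K φ Δ := fun w h1 h2 => by
  refine eq_bot_iff.2 fun g hg => Subgroup.mem_bot.2 (by_contra fun hn => ?_)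
  obtain ⟨θ, y, h3, h4, e⟩ := h g hn
  rw [← e, map_mul] at h2
  exact (mul_lt_one_of_lt_of_le (hg.2 θ (le_one_of_int h1 h3)) (le_one_of_int h1 h4)).ne h2

theorem exists_unS [IsDomain A] [FiniteDimensional K N] [IsGalois K N] {α : A →+* K}
    (hα : IsFr α) : ∃ Δ : A, Δ ≠ 0 ∧ UnS K (tE N α) Δ :=
  (exists_sepC hα).imp fun _ h => ⟨h.1, h.2.unS⟩

theorem UnS.mono (h : UnS K φ Δ) (hd : Δ ∣ Δ') : UnS K φ Δ' := fun w h1 h2 =>
  h w h1 ((h1 Δ).eq_of_not_lt fun h3 => by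
    obtain ⟨c, rfl⟩ := hd
    rw [map_mul, map_mul] at h2
    exact (mul_lt_one_of_lt_of_le h3 (h1 c)).ne h2)

theorem UnS.unrOff (h : UnS K φ Δ) : UnrOff K φ Δ := fun _ w _ hn hc =>
  h w hc.1 ((hc.eq_one Δ).2 hn)

theorem UnS.comp {i : A →+* A'} {φ' : A' →+* N} (h : UnS K (φ'.comp i) Δ) :
    UnS K φ' (i Δ) := fun w h1 h2 => h w (fun a => h1 (i a)) h2

/-- the compositum (`exists_gal_sup`, then `spla_sup` with `φ = id`) -/
theorem exists_cmp (K M M' : Type) [Field K] [Field M] [Field M'] [Algebra K M] [Algebra K M']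
    [FiniteDimensional K M] [IsGalois K M] [FiniteDimensional K M'] [IsGalois K M'] :
    ∃ (Ω : Type) (_ : Field Ω) (_ : Algebra K Ω) (_ : FiniteDimensional K Ω) (_ : IsGalois K Ω)
      (m : M →ₐ[K] Ω) (m' : M' →ₐ[K] Ω),
      ∀ g : Ω ≃ₐ[K] Ω, (∀ x, g (m x) = m x) → (∀ x, g (m' x) = m' x) → g = 1 := by
  obtain ⟨L, _, _, _, _, ⟨e⟩, ⟨e'⟩⟩ := ZL.exists_gal_sup (K := K) M M'
  obtain ⟨Ω, _, _, _, _, j, c, i, h1, h2, h3⟩ := ZL.spla_sup (RingHom.id K) (e' : M' →+* L)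
    (e : M →+* L) fun a => (e'.commutes a).trans (e.commutes a).symm
  refine ⟨Ω, inferInstance, inferInstance, inferInstance, inferInstance, j,
    ⟨c, fun a => i.injective ?_⟩, h3⟩
  rw [← j.commutes, h1]
  exact (h2 _).trans ((e'.commutes a).trans (e.commutes a).symm)

/-- `fix_of_ine` -/
theorem ine_fix_sub {M : Type} [Field M] [Algebra K M] [FiniteDimensional K M] [IsGalois K M]
    (m : M →ₐ[K] N) {w : Vl N} (h : Ine K (w.comap (m : M →+* N)) = ⊥) {g : N ≃ₐ[K] N}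
    (hg : g ∈ Ine K w) (x : M) : g (m x) = m x :=
  fix_of_ine (K := K) (m : M →+* N) (g : N ≃+* N)
    (fun a => (congrArg g (m.commutes a)).trans ((g.commutes a).trans (m.commutes a).symm))
    w hg.1 hg.2 h x

end

section

variable {k ι K N : Type} [Field k] [Field K] [Field N]

theorem GauV.of_over {u : Vl k} {φ : MP ι k →+* K} {j : K →+* N} {U : Vl K} {W : Vl N}
    (h : Over j U W) : GauV u (j.comp φ) W ↔ GauV u φ U :=
  forall_congr' fun _ => imp_congr_right fun _ =>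
    and_congr (h _) (iff_congr (h.lt_one _) Iff.rfl)

theorem GauP.of_over {u : Vl k} {φ : k[X] →+* K} {j : K →+* N} {U : Vl K} {W : Vl N}
    (h : Over j U W) : GauP u (j.comp φ) W ↔ GauP u φ U :=
  forall_congr' fun _ => imp_congr_right fun _ =>
    and_congr (h _) (iff_congr (h.lt_one _) Iff.rfl)

theorem zun_over {u : Vl k} {c : k →+* N} {W : Vl N} (h1 : ∀ a, u a ≤ 1 → W (c a) ≤ 1)
    (h2 : ∀ a, u a < 1 → W (c a) < 1) : Over c u W := by
  refine fun x => ⟨fun H => not_lt.1 fun hn => ?_, h1 x⟩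
  have h0 : x ≠ 0 := fun e => by simp [e] at hn
  have h3 := h2 x⁻¹ (by rw [map_inv₀]; exact inv_lt_one_of_one_lt₀ hn)
  refine (mul_lt_one_of_lt_of_le h3 H).ne ?_
  rw [← map_mul, ← map_mul, inv_mul_cancel₀ h0, map_one, map_one]

theorem GauV.over {u : Vl k} {φ : MP ι k →+* N} {W : Vl N} (h : GauV u φ W) :
    Over (φ.comp C) u W := by
  have hc : ∀ a : k, u a ≤ 1 → ∀ m, u (coeff m (C a : MP ι k)) ≤ 1 := fun a ha m => by
    rw [coeff_C]
    split_ifs
    · exact ha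
    · rw [map_zero]; exact zero_le
  refine zun_over (fun a ha => (h _ (hc a ha)).1) fun a ha => (h _ (hc a ha.le)).2.2 fun m => ?_
  rw [coeff_C]
  split_ifs
  · exact ha
  · rw [map_zero]; exact zero_lt_one

theorem GauP.over {u : Vl k} {φ : k[X] →+* N} {W : Vl N} (h : GauP u φ W) :
    Over (φ.comp Polynomial.C) u W := by
  have hc : ∀ a : k, u a ≤ 1 → ∀ i, u ((Polynomial.C a).coeff i) ≤ 1 := fun a ha i => by
    rw [Polynomial.coeff_C]
    split_ifs
    · exact ha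
    · rw [map_zero]; exact zero_le
  refine zun_over (fun a ha => (h _ (hc a ha)).1) fun a ha => (h _ (hc a ha.le)).2.2 fun i => ?_
  rw [Polynomial.coeff_C]
  split_ifs
  · exact ha
  · rw [map_zero]; exact zero_lt_one

theorem gs_iff [Algebra (MP ι k) K] [Algebra K N] {Δ : MP ι k} {𝒯 : Finset (Place k)} :
    (∀ u ∈ GS K Δ 𝒯, Unr N u) ↔ UnrOff K (toF (MP ι k) K N) Δ ∧
      ∀ v ∈ 𝒯, UnG K (plv v) (toF (MP ι k) K N) := by
  refine ⟨fun h => ⟨fun P w hP hn hc => h (w.comap (algebraMap K N)) (Or.inl ⟨P, hP, hn, hc⟩) w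
    (Over.comap _ _), fun v hv w hw => h (w.comap (algebraMap K N)) (Or.inr ⟨v, hv, hw⟩) w
    (Over.comap _ _)⟩, fun h u hu w ho => ?_⟩
  rcases hu with ⟨P, hP, hn, hc⟩ | ⟨v, hv, hc⟩
  · exact h.1 P w hP hn ((cen_of_over ho).2 hc)
  · exact h.2 v hv w ((GauV.of_over ho).2 hc)

end

end Pool.Agent.ZFy
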