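import Pool.Agent.Lib.MP_879916_ag.SS.ZPu
import Pool.Agent.Lib.MP_879916_ag.SS.ZUn
import Pool.Agent.Lib.MP_751085_ag.ZF.Z.CstX

/-! The field of constants is unramified. -/

namespace Pool.Agent.ZFy.ZL

open Pool.Agent.ZCy Pool.Agent.ZFN
open scoped Classical WithZero Polynomial
open MvPolynomial

set_option linter.unusedSectionVars false

theorem zk1_cc {ι R : Type} [CommRing R] (π : R) (p : MP (Option ι) R) :
    constantCoeff (ub π p) = constantCoeff p := by
  rw [constantCoeff_eq, gau_coeff, Finsupp.prod_zero_index, one_mul]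

theorem zk1_equiv {ι k : Type} [Field k] {π : k} (h0 : π ≠ 0) :
    ∃ e : MP (Option ι) k ≃+* MP (Option ι) k, (e : MP (Option ι) k →+* MP (Option ι) k) = bl π ∧
      ∀ p, e (ub π p) = p := by
  have h1 : ∀ p : MP (Option ι) k, ub π⁻¹ (ub π p) = p := fun p => by
    rw [ub_ub, inv_mul_cancel₀ h0, ub_one]
  exact ⟨RingEquiv.ofRingHom (ub π⁻¹) (ub π) (RingHom.ext h1) (RingHom.ext fun p => by
    rw [RingHom.comp_apply, ub_ub, mul_inv_cancel₀ h0, ub_one]; rfl), (bl_eq π).symm, h1⟩

/-- Let `w` lie over `u` and `δ ∈ Ine k w`. With `α' = α.comp (bl π)` and `Θ' = ub π Θ` one has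
`bl π Θ' = Θ` (`bl_eq`, `ub_ub`), `CfI u Θ'` (`gau_coeff`) and the same constant coefficient. The
point `q` of `hp` maps the integral closure of `O[τ, ξ / π]` to the integers of `w`. Write
`δ ∘ q = q ∘ g` (`intOff_conj`); reduce modulo `w` and use `pureS` for `α'`: `g = 1`. -/
theorem k1_unr {ι k L E k₁ : Type} [Finite ι] [Field k] [Field L] [Field E] [Field k₁]
    [Algebra L E] [FiniteDimensional L E] [IsGalois L E] [Algebra k k₁] [FiniteDimensional k k₁]
    [IsGalois k k₁] {α : MP (Option ι) k →+* L} {Θ : MP (Option ι) k} {u : Vl k} (hu : Nrm u)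
    (hα : IsFr α) (hU : UnrOff L (tE E α) Θ) (hΘ : CfI u Θ) (h1 : u (constantCoeff Θ) = 1) {π : k}
    (h0 : π ≠ 0) (hπ : u π ≤ 1) (hG : UnG L u ((tE E α).comp (bl π)))
    (hp : PtM (tE E α) Θ k₁) : Unr k₁ u := by
  intro w hw
  refine eq_bot_iff.2 fun δ hδ => ?_
  obtain ⟨q, hq, hm⟩ := hp
  obtain ⟨e, he, he'⟩ := zk1_equiv (ι := ι) h0
  rw [← he] at hG
  have hα' := hα.comp_equiv e
  have hU' : UnrOff L (tE E (α.comp (e : MP (Option ι) k →+* MP (Option ι) k))) (ub π Θ) :=
    (unrOff_equiv (φ := tE E α) e).2 ((he' Θ).symm ▸ hU)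
  obtain ⟨Θ₀, h₀⟩ := pv_lift (u := u) (p := ub π Θ) fun m => by
    rw [gau_coeff, map_mul, Finsupp.prod, map_prod]
    refine mul_le_one' (Finset.prod_le_one' fun i _ => ?_) (hΘ m)
    rw [map_pow]
    cases i with
    | none => simp
    | some j => exact pow_le_one' hπ _
  obtain ⟨g, hg⟩ := intOff_conj hα (Θ := Θ) (fun e => by simp [e] at h1) q
    ((δ : k₁ →+* k₁).comp q) fun p => by rw [RingHom.comp_apply, hq]; exact δ.commutes _
  have := pv_dvr hu
  have hi := fun x => (mem_intOff_one (E := E) (x := x) (pv_fr hα' u)).1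
  let i : IntOff (tE E ((α.comp (e : MP (Option ι) k →+* MP (Option ι) k)).comp
      (map u.integer.subtype))) 1 →+* IntOff (tE E α) Θ :=
    Subring.inclusion fun x hx P w' _ _ hc => le_one_of_integral
      (φ := tE E ((α.comp (e : MP (Option ι) k →+* MP (Option ι) k)).comp (map u.integer.subtype)))
      (fun a => hc.1 (e (map u.integer.subtype a))) (hi x hx)
  have hcc : ∀ p, constantCoeff (e p) = constantCoeff p := fun p =>
    (congrArg constantCoeff ((RingHom.congr_fun he p).trans (RingHom.congr_fun (bl_eq π) p))).trans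
      (zk1_cc π⁻¹ p)
  have hc : ∀ p : MP (Option ι) u.integer, q (i (toInt _ 1 p)) =
      algebraMap k k₁ (constantCoeff (map u.integer.subtype p)) := fun p =>
    (hq (e (map u.integer.subtype p))).trans (congrArg _ (hcc _))
  have hb : ∀ x, w (q (i x)) ≤ 1 := fun x =>
    le_one_of_integral (φ := (q.comp i).comp (toInt _ 1)) (fun a => by
      rw [RingHom.comp_apply, RingHom.comp_apply, hc, constantCoeff_map]
      exact (hw _).2 (constantCoeff a).2) (misc1_int (RingHom.IsIntegralElem.of_map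
        (g := Subring.subtype _) Subtype.val_injective (hi _ x.2)) (q.comp i))
  obtain ⟨κ, _, ρ, hρ, -⟩ := exists_resf w
  have h2 : g = 1 := pureS hu hα' hU' hG h₀ (ρ.comp ((q.comp i).codRestrict w.integer hb))
    (fun a ha => (hρ _).2 ((congrArg w ((hc _).trans (by rw [map_C, constantCoeff_C]; rfl))).trans_lt
      ((hw.lt_one _).2 ha)))
    (fun e => ((hρ _).1 e).ne ((congrArg w ((hc _).trans (by rw [h₀, zk1_cc]))).trans
      ((hw.eq_one _).2 h1)))
    fun x => (hρ.eq_iff _ _).2 ((congrArg (fun y => w (y - q (i x))) (hg (i x)).symm).trans_lt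
      (hδ.2 _ (hb x)))
  subst h2
  exact hm δ hg

end Pool.Agent.ZFy.ZL
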