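import Pool.Agent.Lib.MP_879916_ag.SS.ZPv
import Pool.Agent.Lib.MP_879916_ag.SS.ZUn
import Pool.Agent.Lib.MP_751085_ag.ZF.Z.Lef

/-! The field of constants is an `l`-extension. -/

namespace Pool.Agent.ZFy.ZL

open Pool.Agent.ZCy Pool.Agent.ZFN
open scoped Classical WithZero Polynomial
open MvPolynomial

set_option linter.unusedSectionVars false

/-- the residue map on the rings of elements that are integral off the branch locus -/
theorem zlk_red {A B L T EH : Type} [CommRing A] [UniqueFactorizationMonoid A] [CommRing B]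
    [Field L] [Field T] [Field EH] [Algebra L T] [FiniteDimensional L T] [IsGalois L T]
    {α : A →+* L} {Θ : A} {φ : B →+* EH} {h : A →+* B} {w : Vl T} {ρ : w.integer →+* EH}
    (hα : IsFr α) (hρ : IsRed w ρ) (hr : ∀ p, ∃ hp, ρ ⟨tE T α p, hp⟩ = φ (h p))
    (h0 : φ (h Θ) ≠ 0) : ∃ R : IntOff (tE T α) Θ →+* IntOff φ (h Θ),
      ∀ x : IntOff (tE T α) Θ, ∃ hx, (R x : EH) = ρ ⟨x, hx⟩ := by
  choose h1 h2 using hr
  have h3 : w (tE T α Θ) = 1 := (hρ.ne_zero ⟨_, h1 Θ⟩).1 ((h2 Θ).trans_ne h0)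
  have h4 : IntOff (tE T α) Θ ≤ w.integer := fun x hx =>
    le_one_of_intOff (j := RingHom.id T) (w' := w) hα h1 h3 hx
  refine ⟨(ρ.comp (Subring.inclusion h4)).codRestrict _ fun x P w' _ hP hc => ?_,
    fun x => ⟨h4 x.2, rfl⟩⟩
  obtain ⟨m, hm⟩ := exists_int_of_intOff hα x.2
  have h5 : ((tE T α).codRestrict w.integer h1).IsIntegralElem
      (⟨_, h1 Θ⟩ ^ m * Subring.inclusion h4 x) :=
    RingHom.IsIntegralElem.of_map (g := w.integer.subtype) Subtype.val_injective hm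
  have h6 := h5.map ρ
  rw [show ρ.comp ((tE T α).codRestrict w.integer h1) = φ.comp h from RingHom.ext h2] at h6
  have h7 := le_one_of_int hc.1 h6.of_comp
  rwa [map_mul, map_pow, h2, map_mul, map_pow, (hc.eq_one _).2 hP, one_pow, one_mul] at h7

theorem zlk_adj {K K₁ M : Type} [Field K] [Field K₁] [Field M] [Algebra K K₁] [Algebra K M]
    {S : Set K₁} (hg : IntermediateField.adjoin K S = ⊤) (e : K₁ →ₐ[K] M) (δ : M ≃ₐ[K] M)
    (h : ∀ a ∈ S, δ (e a) = e a) (a : K₁) : δ (e a) = e a := by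
  have ha : a ∈ IntermediateField.adjoin K S := hg ▸ IntermediateField.mem_top
  induction ha using IntermediateField.adjoin_induction with
  | mem x hx => exact h x hx
  | algebraMap x => rw [e.commutes, δ.commutes]
  | add x y _ _ hx hy => rw [map_add, map_add, hx, hy]
  | inv x _ hx => rw [map_inv₀, map_inv₀, hx]
  | mul x y _ _ hx hy => rw [map_mul, map_mul, hx, hy]

/-- Let `δ` fix `e N₁`; it restricts to `δ₁` on `k₁`. With the point `q₁` of `hp` write
`δ₁ ∘ q₁ = q₁ ∘ g` (`intOff_conj`). The map `ρT` sends `IntOff _ Θ` to `IntOff _ (hyp Θ)`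
(`exists_int_of_intOff`), so `qT = eK ∘ κ ∘ q₁ ∘ ρT` is a point of `T` over the origin, conjugate to
the point `e ∘ q` of `hv`; hence `δ` fixes its values. Write `g ∘ ρT = ρT ∘ h`
(`place_conj_cen` with `lift_down`, or `red_onto`); then `qT ∘ h = qT`, `h = 1` (`pureF`), `g` fixes
the range of `ρT`, `g ^ l ^ n = 1`, `δ₁ ^ l ^ n = 1`. -/
theorem lk_of_pt {l : ℕ} {σ k L T LH EH k₁ K N₁ K₁ : Type} [Fintype σ] [Field k] [Field L] [Field T]
    [Field LH] [Field EH] [Field k₁] [Field K] [Field N₁] [Field K₁] [Algebra L T]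
    [FiniteDimensional L T] [IsGalois L T] [Algebra LH EH] [FiniteDimensional LH EH]
    [IsGalois LH EH] [Algebra k k₁] [FiniteDimensional k k₁] [IsGalois k k₁] [Algebra K N₁]
    [Algebra K K₁] {α : MP (Option (Option σ)) k →+* L} {αH : MP (Option σ) k →+* LH}
    {Θ : MP (Option (Option σ)) k} {wT : Vl T} {ρT : wT.integer →+* EH} (hα : IsFr α)
    (hH : IsFr αH) (h0 : constantCoeff Θ ≠ 0) (hu : UnrOff L (tE T α) Θ) (hr : ResH α αH wT ρT)
    (hx : LXt l LH (Set.range ρT)) (hp : PtM (tE EH αH) (hyp Θ) k₁) (c : k →+* K)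
    (hv : PtV (tE T α) Θ ((algebraMap K N₁).comp c)) (κ : k₁ →+* K₁)
    (hκ : ∀ a, κ (algebraMap k k₁ a) = algebraMap K K₁ (c a))
    (hg : IntermediateField.adjoin K (Set.range κ) = ⊤) : LK1 K N₁ l K₁ := by
  intro M _ _ _ _ e eK δ hδ
  have hΘ : Θ ≠ 0 := fun h => h0 (by rw [h, map_zero])
  have hΘ' : hyp Θ ≠ 0 := fun h => h0 (by rw [← const_hyp, h, map_zero])
  obtain ⟨J, hJ⟩ : ∃ J : k₁ →+* M, ∀ z, J z = eK (κ z) :=
    ⟨(eK : K₁ →+* M).comp κ, fun _ => rfl⟩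
  have hJk : ∀ a, J (algebraMap k k₁ a) = algebraMap K M (c a) := fun a => by
    rw [hJ, hκ, eK.commutes]
  obtain ⟨δ₁, hδ₁⟩ := exists_restrict (K := k) J (δ : M →+* M) fun a => by
    rw [hJk]
    exact δ.commutes _
  obtain ⟨q₁, hq₁, hgen⟩ := hp
  obtain ⟨g, hg₁⟩ := intOff_conj hH hΘ' q₁ ((δ₁ : k₁ →+* k₁).comp q₁) fun p => by
    rw [RingHom.comp_apply, hq₁]
    exact δ₁.commutes _
  obtain ⟨R, hR⟩ := zlk_red (Θ := Θ) hα hr.1 hr.2 fun h =>
    hΘ' (hH.1 (((map_eq_zero (algebraMap LH EH)).1 h).trans (map_zero αH).symm))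
  choose hw hR using hR
  have hRp : ∀ p, R (toInt _ Θ p) = toInt _ (hyp Θ) (hyp p) := fun p =>
    Subtype.ext ((hR _).trans (hr.2 p).2)
  obtain ⟨q, hq⟩ := hv
  obtain ⟨r, hr₁⟩ := intOff_conj hα hΘ ((e : N₁ →+* M).comp q) (J.comp (q₁.comp R)) fun p => by
    rw [RingHom.comp_apply, RingHom.comp_apply, hRp, hq₁, hJk, const_hyp, RingHom.comp_apply, hq]
    exact (e.commutes _).symm
  have hfix : ∀ x, δ (J (q₁ (R x))) = J (q₁ (R x)) := fun x =>
    (congrArg δ (hr₁ x)).trans ((hδ _).trans (hr₁ x).symm)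
  obtain ⟨-, -, hdn⟩ := lift_down hα hH hyp_surjective
    (MvPolynomial.X_prime : Prime (X (some none) : MP (Option (Option σ)) k))
    (fun a => hyp_eq_zero) hr.1 hr.2
  obtain ⟨h, hd, hh⟩ := red_onto (K := L) hr.1 (g : EH →+* EH) fun a ha => by
    obtain ⟨b, hb⟩ := hdn a ha
    rw [hb]
    exact g.commutes b
  have h1 : h = 1 := pureF hα hΘ hu (J.comp (q₁.comp R)) fun x => by
    have e1 : R (gI α Θ h x) = gI αH (hyp Θ) g (R x) :=
      Subtype.ext ((hR _).trans ((hh x (hw x) _).trans (congrArg g (hR x).symm)))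
    exact (congrArg (fun y => J (q₁ y)) e1).trans
      ((congrArg J (hg₁ (R x)).symm).trans ((hδ₁ _).trans (hfix x)))
  have h2 : g ∈ fixS LH (Set.range ρT) := by
    rintro _ ⟨x, rfl⟩
    subst h1
    exact (hh x x.2 x.2).symm
  obtain ⟨n, hn⟩ := hx ⟨g, h2⟩
  have h3 : g ^ l ^ n = 1 := congrArg Subtype.val hn
  have h4 : ∀ (j : ℕ) x, (δ₁ ^ j) (q₁ x) = q₁ (gI αH (hyp Θ) (g ^ j) x) := fun j => by
    induction j with
    | zero => exact fun x => rfl
    | succ j ih =>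
      intro x
      rw [pow_succ, pow_succ, AlgEquiv.mul_apply]
      exact (congrArg (δ₁ ^ j) (hg₁ x)).trans (ih _)
  have h5 : δ₁ ^ l ^ n = 1 := hgen _ fun x => by
    rw [h4, h3]
    rfl
  have h6 : ∀ (j : ℕ) z, (δ ^ j) (J z) = J ((δ₁ ^ j) z) := fun j => by
    induction j with
    | zero => exact fun z => rfl
    | succ j ih =>
      intro z
      rw [pow_succ, pow_succ, AlgEquiv.mul_apply, AlgEquiv.mul_apply, ← ih]
      exact congrArg (δ ^ j) (hδ₁ z).symm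
  refine ⟨n, zlk_adj hg eK _ ?_⟩
  rintro _ ⟨z, rfl⟩
  rw [← hJ, h6, h5]
  rfl

end Pool.Agent.ZFy.ZL
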