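import Pool.Agent.Lib.MP_879916_ag.SS.ZMin

/-! The split cover with a minimal field of constants. -/

namespace Pool.Agent.ZFy.ZL

open Pool.Agent.ZCy Pool.Agent.ZFN
open scoped Classical WithZero Polynomial
open MvPolynomial

set_option linter.unusedSectionVars false

theorem zms_exp {ι k L E : Type} [Fintype ι] [Field k] [Field L] [Field E]
    [Algebra (RF ι k)[X] L] [IsFractionRing (RF ι k)[X] L] [Algebra L E] [FiniteDimensional L E]
    [IsGalois L E] {α : MP (Option ι) k →+* L} {Θ : MP (Option ι) k} (h : Pol α)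
    (h0 : constantCoeff Θ ≠ 0) (hu : UnrOff L (tE E α) Θ) :
    ∃ (k₁ : Type) (_ : Field k₁) (_ : Algebra k k₁) (_ : FiniteDimensional k k₁)
      (_ : IsGalois k k₁) (_ : Algebra (RF ι k) (RF ι k₁)) (J : E →+* Ls (RF ι k₁)),
      PtM (tE E α) Θ k₁ ∧ RfA ι k k₁ ∧
      ∀ p, J (toF (RF ι k)[X] L E p) = tL _ (p.map (algebraMap (RF ι k) (RF ι k₁))) := by
  obtain ⟨k₁, _, _, _, _, β, hβ, hmin⟩ := znp_min h.fr hu h0
  have : IsDomain (MvPowerSeries (Option ι) k₁) := NoZeroDivisors.to_isDomain _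
  obtain ⟨j, hj₀⟩ := exists_embT h.fr β fun p q e => pt_inj
    (y := fun i => algebraMap k k₁ ((0 : Option ι → k) i))
    (f := (algebraMap k k₁).comp (RingHom.id k)) (RingHom.injective _) (by
      rw [← map_pt, ← map_pt, ← hβ, ← hβ]; exact e)
  have hj : ∀ p, j (tE E α p) = algebraMap _ (Fr (MvPowerSeries (Option ι) k₁))
      (MvPowerSeries.map (algebraMap k k₁) (pt (RingHom.id k) 0 p)) := fun p =>
    (hj₀ (toInt _ Θ p)).trans (congrArg _ (hβ p))
  have hP : PtM (tE E α) Θ k₁ := ⟨MvPowerSeries.constantCoeff.comp β, fun p => by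
    rw [RingHom.comp_apply, hβ, MvPowerSeries.constantCoeff_map, constantCoeff_pt, eval₂_id,
      eval_zero], hmin⟩
  obtain ⟨ω, hω, hC, hn, hs⟩ := exists_dir k₁ ι
  obtain ⟨_, hA⟩ := exists_rfA ι k k₁
  obtain ⟨l, hl⟩ := (isFr_alg (RF ι k)[X] L).exists_lift
    (β := (tL (RF ι k₁)).comp (Polynomial.mapRingHom (algebraMap (RF ι k) (RF ι k₁))))
    (tL_injective.comp (Polynomial.map_injective _ (algebraMap (RF ι k) (RF ι k₁)).injective))
  obtain ⟨lC, l0, l1⟩ := pol_exp h.pol h.fr.1 l _ hl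
  obtain ⟨m, hm⟩ := (isFr_alg (MvPowerSeries (Option ι) k₁)
    (Fr (MvPowerSeries (Option ι) k₁))).exists_lift hω
  have e : (m.comp j).comp (algebraMap L E) = l := h.fr.hom_ext fun p => by
    refine ((congrArg m (hj p)).trans (hm _)).trans (RingHom.congr_fun
      (f := ω.comp ((MvPowerSeries.map (algebraMap k k₁)).comp (pt (RingHom.id k) 0)))
      (g := l.comp α) (ringHom_ext (fun a => ?_) fun i => ?_) p)
    · rw [RingHom.comp_apply l, lC, hA.map_rc]
      simp [pt, hC]
    · cases i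
      · rw [RingHom.comp_apply l, l0]
        simp [pt, hn]
      · rw [RingHom.comp_apply l, l1, hA, map_X]
        simp [pt, hs]
  exact ⟨k₁, inferInstance, inferInstance, inferInstance, inferInstance, inferInstance, m.comp j, hP,
    hA, fun p => (RingHom.congr_fun e _).trans (hl p)⟩

/-- the split cover, with a field of constants generated by the values at a point -/
theorem exists_splitS {ι k L E : Type} [Fintype ι] [Field k] [Field L] [Field E]
    [Algebra (RF ι k)[X] L] [IsFractionRing (RF ι k)[X] L] [Algebra L E] [FiniteDimensional L E]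
    [IsGalois L E] {α : MP (Option ι) k →+* L} {Θ : MP (Option ι) k} (h : Pol α)
    (h0 : constantCoeff Θ ≠ 0) (hu : UnrOff L (tE E α) Θ) :
    ∃ s : Split α Θ E, PtM (tE E α) Θ s.k₁ := by
  obtain ⟨k₁, _, _, _, _, _, J, hM, hrf, hJ⟩ := zms_exp h h0 hu
  have := hrf.fin
  have := hrf.gal
  obtain ⟨N, _, _, _, _, j, d, hs⟩ := exists_sd J hJ
  refine ⟨{ k₁ := k₁, N := N, j := j, d := d, rf := hrf, span := hs, unr := ?_ }, hM⟩
  intro P w hP hd hc
  refine eq_bot_iff.2 fun g hg => Subgroup.mem_bot.2 (hs g (fun x => ?_) fun a => ?_)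
  · refine fix_of_ine (K := L) (j : E →+* N) (g : N ≃+* N) (fun a => ?_) w hg.1 hg.2
      (hu P _ hP hd ?_) x
    · have e : (j : E →+* N) (algebraMap L E a) = algebraMap L N a := j.commutes a
      rw [e]
      exact g.commutes a
    · have e : ∀ p, w.comap (j : E →+* N) (tE E α p) = w (tE N α p) := fun p =>
        congrArg w (splb_tE j p)
      exact ⟨fun p => (e p).trans_le (hc.1 p), fun p => e p ▸ hc.2 p⟩
  · refine ine_fix_gen hrf.gen hg d.c (fun a => ?_) (fun a => ?_) a
    · rw [splb_c]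
      exact g.commutes _
    · rw [splb_rc h]
      exact hc.1 _

end Pool.Agent.ZFy.ZL
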