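import Pool.Agent.Lib.MP_879916_ag.SS.ZPv
import Pool.Agent.Lib.MP_879916_ag.SS.ZUn
import Pool.Agent.Lib.MP_751085_ag.ZF.Z.Lef

/-! Points over the origin. -/

namespace Pool.Agent.ZFy.ZL

open Pool.Agent.ZCy Pool.Agent.ZFN
open scoped Classical WithZero Polynomial
open MvPolynomial

set_option linter.unusedSectionVars false

/-- the valuation `lval ∘ τ` is centred at the origin (`pol_exp`), so it is integral on `IntOff`
(`le_one_of_intOff`); take the constant coefficient (`exists_ls_int`) -/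
theorem pt_of_exp {ι k L T N₁ : Type} [Fintype ι] [Field k] [Field L] [Field T] [Field N₁]
    [Algebra (RF ι k)[X] L] [IsFractionRing (RF ι k)[X] L] [Algebra L T] [FiniteDimensional L T]
    [IsGalois L T] [Algebra (RF ι k) N₁] {α : MP (Option ι) k →+* L} {Θ : MP (Option ι) k}
    (h : Pol α) (h0 : constantCoeff Θ ≠ 0) {τ : T →+* Ls N₁}
    (hτ : ∀ p, τ (toF (RF ι k)[X] L T p) = tL N₁ (p.map (algebraMap (RF ι k) N₁))) :
    PtV (tE T α) Θ ((algebraMap (RF ι k) N₁).comp (rc ι k)) := by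
  obtain ⟨eC, e0, e1⟩ := pol_exp h.pol h.fr.1 (τ.comp (algebraMap L T)) (algebraMap (RF ι k) N₁) hτ
  set f := (algebraMap (RF ι k) N₁).comp (rc ι k) with hf
  let x : Option ι → N₁ := fun i =>
    i.elim 1 fun j => algebraMap (RF ι k) N₁ (algebraMap (MP ι k) _ (X j))
  have hexp : ∀ p, τ (tE T α p) = lid N₁ (rayP f x p) := fun p => by
    refine RingHom.congr_fun (f := (τ.comp (algebraMap L T)).comp α)
      (g := (lid N₁).comp (rayP f x)) (ringHom_ext (fun a => ?_) fun i => ?_) p
    · rw [RingHom.comp_apply, eC]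
      simp [lau, hf]
    · cases i
      · rw [RingHom.comp_apply, e0]
        simp [lau, x]
      · rw [RingHom.comp_apply, e1]
        simp [lau, x, HahnSeries.C_apply, HahnSeries.single_mul_single]
  have hc : ∀ p, cc N₁ (rayP f x p) = f (constantCoeff p) := fun p =>
    RingHom.congr_fun (f := (cc N₁).comp (rayP f x)) (g := f.comp constantCoeff)
      (ringHom_ext (fun a => by simp) fun i => by simp) p
  have hΘ : lval N₁ (τ (tE T α Θ)) = 1 := by
    rw [hexp]
    refine ((isVR_lval N₁).le_one _).eq_of_not_lt fun e => ?_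
    have := (cc_eq_zero _).2 e
    rw [hc] at this
    exact h0 ((map_eq_zero f).1 this)
  have h1 : IntOff (tE T α) Θ ≤ ((lval N₁).comap τ).integer := fun y hy =>
    le_one_of_intOff h.fr (j := τ) (w' := lval N₁)
      (fun a => by rw [hexp]; exact (isVR_lval N₁).le_one _) hΘ hy
  obtain ⟨δ, hδ, -⟩ := exists_ls_int τ
  refine ⟨(cc N₁).comp (δ.comp (Subring.inclusion h1)), fun p => ?_⟩
  rw [← hc, RingHom.comp_apply]
  exact congrArg (cc N₁) ((isVR_lval N₁).2.1 ((hδ _).trans (hexp p)))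

/-- the two rings `IntOff` are equal (`cen_equiv`) -/
theorem ptV_equiv {ι k N Ω : Type} [Field k] [Field N] [Field Ω] {φ : MP ι k →+* N} {Θ : MP ι k}
    {f : k →+* Ω} (e : MP ι k ≃+* MP ι k) (he : ∀ p, constantCoeff (e p) = constantCoeff p)
    (h : PtV φ (e Θ) f) : PtV (φ.comp (e : MP ι k →+* MP ι k)) Θ f := by
  obtain ⟨q, hq⟩ := h
  exact ⟨q.comp (Subring.inclusion (intOff_equiv e Θ).le), fun p => (he p) ▸ hq (e p)⟩

end Pool.Agent.ZFy.ZL
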