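import Pool.Agent.Lib.MP_879916_ag.SS.ZK2
import Pool.Agent.Lib.MP_879916_ag.SS.ZMs
import Pool.Agent.Lib.MP_879916_ag.SS.ZLk
import Pool.Agent.Lib.MP_879916_ag.SS.ZIns
import Pool.Agent.Lib.MP_879916_ag.SS.ZG3
import Pool.Agent.Lib.MP_879916_ag.SS.ZK1
import Pool.Agent.Lib.MP_879916_ag.SS.ZPt
import Pool.Agent.Lib.MP_751085_ag.ZF.Z.Main
import Pool.Agent.Lib.MP_751085_ag.ZF.G.ExpA
import Pool.Agent.Lib.MP_751085_ag.ZF.G.ExpR

/-! The Zariski-Lefschetz theorem for pencils of surfaces. -/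

namespace Pool.Agent.ZFy.ZL

open Pool.Agent.ZCy Pool.Agent.ZFN
open scoped Classical WithZero Polynomial
open MvPolynomial

set_option linter.unusedSectionVars false

theorem zlefS_smul {l : ℕ} {σ k L T : Type} [Fintype σ] [Field k] [Field L] [Field T] [Algebra L T]
    {α : MP (Option (Option σ)) k →+* L} {Θ : MP (Option (Option σ)) k} {𝒯 : Finset (Place k)}
    {c : k} (hc : c ≠ 0) (h : ZLefS T l α (C c * Θ) 𝒯) : ZLefS T l α Θ 𝒯 := by
  intro LH EH _ _ _ _ _ αH wT ρT hH hu hr hl hb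
  obtain ⟨E, _, _, _, _, ⟨Z⟩⟩ := h LH EH αH wT ρT hH
    (unrOff_mono (n := 1) (by rw [pow_one, map_mul]; exact dvd_mul_left _ _) hu) hr hl hb
  refine ⟨E, inferInstance, inferInstance, inferInstance, inferInstance, ⟨
    { Z with
      unr := unrOff_mono (n := 1) ⟨C c⁻¹, ?_⟩ Z.unr
      dl := fun P Ξ hP hd => Z.dl P Ξ hP (by rw [flp_smul hc]; exact hd.mul_left _) }⟩⟩
  rw [pow_one, mul_right_comm, ← C_mul, mul_inv_cancel₀ hc, C_1, one_mul]

section

variable {l q : ℕ} {σ k L T N₁ : Type} [Fintype σ] [Field k] [Field L] [Field T] [Field N₁]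
  [Algebra (RF (Option σ) k)[X] L] [IsFractionRing (RF (Option σ) k)[X] L] [Algebra L T]
  [FiniteDimensional L T] [IsGalois L T] [Algebra (RF (Option σ) k) N₁]
  [FiniteDimensional (RF (Option σ) k) N₁] [IsGalois (RF (Option σ) k) N₁]
  {α : MP (Option (Option σ)) k →+* L} {Θ : MP (Option (Option σ)) k} {Δ : MP (Option σ) k}
  {τ : T →+* Ls N₁} {𝒯 : Finset (Place k)}

theorem zlefS_of (h : Pol α) (h1 : constantCoeff Θ = 1) (hu : UnrOff L (tE T α) Θ)
    (c : Crt (RF (Option σ) k) L l q (C : k →+* MP (Option σ) k) (tp (flp Θ)) Δ τ)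
    {a : Option σ → k} (hy : ¬lin a ∣ Δ)
    (hG : ∀ v ∈ 𝒯, ∀ u : Vl (RF (Option σ) k), GauV (plv v) (algebraMap (MP (Option σ) k) _) u →
      GdAt (RF (Option σ) k) L l q (thK Θ) τ u) (hΘ : ∀ v ∈ 𝒯, CfI (plv v) Θ)
    (hI : INu (RF (Option σ) k) N₁ l (GS (RF (Option σ) k) Δ 𝒯) (lin a)) :
    ZHypS T l α Θ 𝒯 a := by
  intro M M' hM ha hint LH EH _ _ _ _ _ αH wT ρT hH huH hr hx hb
  subst ha
  have hM1 := mat_cl (d' := fun a b => Classical.propDecidable (a = b)) hM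
  obtain ⟨e, he, he'⟩ := exists_extE hM1
  have ee : (aff 0 (extM M') : MP (Option (Option σ)) k →+* MP (Option (Option σ)) k) = e :=
    RingHom.ext fun G => (he G).symm
  have hf : ∀ {E : Type} [Field E] [Algebra L E], flpHom (tE E (α.comp
      (aff 0 (extM M') : MP (Option (Option σ)) k →+* MP (Option (Option σ)) k))) =
      (flpHom (tE E α)).comp (e : _ →+* _) := fun {E} _ _ => ee ▸ flpHom_aff (tE E α) M'
  have hα' := h.fr.comp_equiv e
  rw [← ee] at hα'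
  obtain ⟨_, _, hp⟩ := exists_polA hH
  have h2 : constantCoeff (aff 0 (extM M) Θ) = 1 := by rw [const_aff, eval_zero, h1]
  have h3 : constantCoeff (hyp (aff 0 (extM M) Θ)) = 1 := by rw [const_hyp, h2]
  obtain ⟨s, hs⟩ := exists_splitS hp (h3 ▸ one_ne_zero) huH
  obtain ⟨_, hA⟩ := exists_rfA (Option σ) k s.k₁
  have := hA.fin
  have := hA.gal
  obtain ⟨H, hy', hh, hrel⟩ := exists_hy hA s.rf hM
  have key : ∀ p, (tp p).map H.h =
      (tp (hyp (e.symm p))).map (algebraMap (MP σ k) (RF σ k)) := fun p => by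
    rw [he', tp_hyp_aff, Polynomial.map_map]
    exact congrArg (Polynomial.map · _) (RingHom.ext hh)
  have S : Spc H L l (tp (flp Θ)) s.d wT ((s.j : EH →+* s.N).comp ρT) := by
    refine ⟨?_, hr.1.comp _, fun p => ?_, s.lxt hp (dsck_mono hx Set.subset_union_left)⟩
    · rw [key, he', ← flp_aff hM1]
      exact hp.unr_hyp s.unr
    · obtain ⟨p, rfl⟩ := (optionEquivLeft k (Option σ)).surjective p
      obtain ⟨h2, h3⟩ := res_flp' (hp.inj (E := s.N)) (hr.1.comp (s.j : EH →+* s.N))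
        (fun p => (hr.2 p).imp fun _ h => (congrArg s.j h).trans (s.j.commutes _)) (e.symm p)
      have h4 : pA (MP (Option σ) k) (RF (Option σ) k) L T (tp p) = flpHom (tE T (α.comp
          (aff 0 (extM M') : MP (Option (Option σ)) k →+* MP (Option (Option σ)) k))) (e.symm p) := by
        rw [hf, h.pA]
        exact congrArg _ (e.apply_symm_apply p).symm
      exact ⟨h4 ▸ h2, (congrArg _ (Subtype.ext h4)).trans
        (h3.trans ((hp.ext _).symm.trans (congrArg _ (key p).symm)))⟩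
  have hu' : UnrOff L (tE T (α.comp (aff 0 (extM M') : MP (Option (Option σ)) k →+*
      MP (Option (Option σ)) k))) (aff 0 (extM M) Θ) := by
    rw [ee, ← he']
    exact (unrOff_equiv (φ := tE T α) e).2 ((e.apply_symm_apply Θ).symm ▸ hu)
  have hv : PtV (tE T (α.comp (aff 0 (extM M') : MP (Option (Option σ)) k →+*
      MP (Option (Option σ)) k))) (aff 0 (extM M) Θ)
      ((algebraMap (RF (Option σ) k) N₁).comp (rc (Option σ) k)) := by
    rw [ee, ← he']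
    exact ptV_equiv (φ := tE T α) e (fun p => by rw [he, const_aff, eval_zero])
      ((e.apply_symm_apply Θ).symm ▸ pt_of_exp h (h1 ▸ one_ne_zero) c.hτ)
  have G : Glb (RF (Option σ) k) L l q (thK Θ) τ (RF (Option σ) s.k₁) (GS _ Δ 𝒯) H.y := by
    refine ⟨?_, ?_, lk_of_pt hα' hH (h2 ▸ one_ne_zero) hu' hr hx hs (rc _ k) hv (rc _ s.k₁)
      (fun a => (hA.map_rc a).symm) (cstx_gen hA), hy' ▸ hI⟩
    · rintro u (⟨P, hP, hd, hc⟩ | ⟨v, hv, hc⟩)
      exacts [c.gdAt hP hd hc, hG v hv u hc]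
    · rintro u (⟨P, hP, hd, hc⟩ | ⟨v, hv, hc⟩)
      · exact fun w hw => ine_of_gen hA.gen fun a => (hw _).2 (hc.1 a)
      · obtain ⟨π, p0, p1, p2⟩ := hb v hv
        exact rf_unr hA (k1_unr (plv_nrm v) hH huH
          (cfi_hyp_aff (fun i j => (plv_le v _).2 (hint v hv i j)) (hΘ v hv))
          (by rw [h3, map_one]) p0 p1 p2 hs) hc
  obtain ⟨E, _, _, _, _, Z, ok, dl⟩ := coreS dsc c H (hy' ▸ hy) G S
  refine zout_quot hα' hH hr s.j (E := E) ⟨Z.j, Z.w, Z.ρ, Z.r, Z.sc.alg, ok.ov, ok.resT, Z.red,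
    Z.surj, Z.dec, Z.ine, Z.act, ?_, fun y hy => ?_, fun P Ξ hP hd hc => ?_⟩
  · rw [ee, ← he']
    exact (unrOff_equiv (φ := tE E α) e).2
      ((e.apply_symm_apply Θ).symm ▸ unr_vert1 rig1 h h1 hu c.prime c.lne hA.gen Z.sc)
  · obtain ⟨b, rfl⟩ := s.cst hp hy
    obtain ⟨h2, h3⟩ := ok.cst _ _ (hrel b)
    refine ⟨⟨_, h2⟩, ?_, h3⟩
    have h4 := RingHom.IsIntegralElem.map (hA.mem b) Z.d.c
    rwa [show Z.d.c.comp ((toF (MP (Option σ) k) (RF (Option σ) k) _).comp C) = _ from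
      RingHom.ext fun a => ?_] at h4
    refine ((Z.d.φ_C _).symm.trans ((congrArg _ (Polynomial.map_C _).symm).trans
      ((Z.d.φ_map _).trans (h.cst a)))).trans (congrArg (tE E α) ?_)
    exact (algHom_C (aff 0 (extM M')) a).symm
  · rw [hf, cen_equiv] at hc
    rw [flp_aff hM1, ← he'] at hd
    let t := (optionEquivLeft k (Option σ)).toRingEquiv
    have e2 : flpHom (tE E α) = (pA _ (RF (Option σ) k) L E).comp
        (t : MP (Option (Option σ)) k →+* (MP (Option σ) k)[X]) :=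
      RingHom.ext fun p => (h.pA p).symm
    obtain ⟨Q, h2, h3, h4⟩ := dl (t (e P)) Ξ ((MulEquiv.prime_iff t).2 ((MulEquiv.prime_iff e).2 hP))
      (map_dvd t (e.apply_symm_apply (flp Θ) ▸ map_dvd e hd))
      ((cen_equiv t).1 (e2 ▸ hc))
    exact ⟨Q, h2, fun x hx => (congrArg Q (hp.cst x).symm).trans
      (h3 _ ((map_ne_zero (rc σ k)).2 hx)), h4⟩

end

theorem thmZs : ThmZs := by
  intro k F₀ L T _ _ _ _ _ _ _ _ _ _ α Θ l hα h0 hu hl hl0
  obtain ⟨_, _, hp⟩ := exists_polA hα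
  have h1 : constantCoeff (C (constantCoeff Θ)⁻¹ * Θ) = 1 := by
    rw [map_mul, constantCoeff_C, inv_mul_cancel₀ h0]
  have hu1 : UnrOff L (tE T α) (C (constantCoeff Θ)⁻¹ * Θ) :=
    unrOff_mono (n := 1) (by rw [pow_one]; exact dvd_mul_left _ _) hu
  obtain ⟨k₁, _, _, _, _, _, J, hk, hJ⟩ := exists_exp hp (h1 ▸ one_ne_zero) hu1
  have := hk.fin
  have := hk.gal
  obtain ⟨N, _, _, _, _, q, Δ, τ, c, -, hG⟩ :=
    crt_spread F₀ hl hl0 (flp_monic h1) (hp.unr hu1) hJ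
  refine (((hil_ins F₀ hl hl0 c.ne c.unr).cof hG).cof
    (cfi_cof F₀ (C (constantCoeff Θ)⁻¹ * Θ))).mono fun 𝒯 a _ h M M' hM e hi => ?_
  refine zlefS_smul (inv_ne_zero h0) ?_
  rw [← aff_C_mul]
  exact zlefS_of hp h1 hu1 c h.1.1.1 h.1.2 h.2 h.1.1.2 M M' hM e hi

end Pool.Agent.ZFy.ZL
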