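import Pool.Agent.Lib.MP_879916_ag.SS.Step3
import Pool.Agent.Lib.MP_879916_ag.SS.K9s
import Pool.Agent.Lib.MP_879916_ag.SS.ZLef
import Pool.Agent.Lib.MP_879916_ag.SS.ZLf

/-! The reduction to subvarieties of a given dimension `m ≥ 2`. -/

namespace Pool.Agent.ZCy.F

variable {k : Type} [Field k] {l : ℕ} (F₀ : Type) [Field F₀] [Finite F₀] [Algebra (RatFunc F₀) k]
  [FiniteDimensional (RatFunc F₀) k] (hl : l.Prime) (hk : (l : k) ≠ 0) (j : Invs k)

include F₀ hl hk

theorem ss_step {X : Var k} {m : ℕ} (hm : 2 ≤ m) (hX : X.Nice (m + 1))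
    (h : ∀ Y : Gen k X.N, X.I ⊆ Y.var.I → Y.var.Nice m → Y.var.Pl l j) : X.Pl l j := by
  have : Infinite k :=
    .of_injective _ ((algebraMap (RatFunc F₀) k).injective.comp (RatFunc.algebraMap_injective F₀))
  rcases hm.eq_or_lt with rfl | hm
  · exact st3_main (lefs_of Kp.k9s ZFy.ZL.thmZs) F₀ hl hk j le_rfl hX h
  · exact (pl_iff (ev_thm k X _ hX (by omega)) j).2 (pl_step q_hyp F₀ hl hk (frW_inj j)
      (by omega) hX fun Y hs hY => (pl_iff (ev_thm k _ m hY (by omega)) j).1 (h Y hs hY))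

theorem ss_main {X : Var k} {m n : ℕ} (hm : 2 ≤ m) (hn : m < n) (hX : X.Nice n)
    (h : ∀ Y : Gen k X.N, X.I ⊆ Y.var.I → Y.var.Nice m → Y.var.Pl l j) : X.Pl l j := by
  induction n, hn using Nat.le_induction generalizing X with
  | base => exact ss_step F₀ hl hk j hm hX h
  | succ n hn ih =>
    exact ss_step F₀ hl hk j (by omega) hX fun Y hs hY =>
      ih hY fun Z hs' hZ => h Z (hs.trans hs') hZ

end Pool.Agent.ZCy.F
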