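import Pool.Agent.Lib.MP_879916_ag.SS.KDefs
import Pool.Agent.Lib.MP_751085_ag.ZF.C.Main

/-! The choice of the surface and of the curves on it. -/

namespace Pool.Agent.ZCy

open scoped Classical Polynomial Topology
open MvPolynomial Filter

/-- approximation with the Hilbert property -/
theorem WApx.hil {k V : Type} [Field k] [Infinite k] {R : V → ValuationSubring k} {K : V → Type}
    [∀ v, Field (K v)] [∀ v, Algebra k (K v)] [∀ v, TopologicalSpace (K v)] (h : WApx R K)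
    (hR : ∀ v, R v ≠ ⊤) {P : Finset V → (Option Unit → k) → Prop} (hP : Hil R P)
    {ρ : MP (Option Unit) k} (hρ : ρ ≠ 0) (S₀ S : Finset V) (s : V → Option Unit → k) (r : V → k)
    (hr : ∀ v, r v ≠ 0) :
    ∃ (T : Finset V) (L L' : Matrix (Option Unit) (Option Unit) k), Disjoint S₀ T ∧
      P T (L' none) ∧ L * L' = 1 ∧ (∀ v ∈ T, ∀ i j, L i j ∈ R v ∧ L' i j ∈ R v) ∧
      eval (L' none) ρ ≠ 0 ∧ ∀ v ∈ S, ∀ i, (L' none i - s v i) / r v ∈ R v := by
  obtain ⟨T, s', r', B, hd, hr', hT, hPa⟩ := hP (S₀ ∪ S)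
  have hπ : ∀ v, ∃ π : k, π ≠ 0 ∧ (R v).valuation π < 1 := fun v => by
    obtain ⟨x, hx⟩ : ∃ x, x ∉ R v := by
      by_contra hn
      exact hR v (eq_top_iff.2 fun x _ => not_not.1 fun h => hn ⟨x, h⟩)
    have hx0 : x ≠ 0 := fun e => hx (e ▸ (R v).zero_mem)
    refine ⟨x⁻¹, inv_ne_zero hx0, ?_⟩
    rw [map_inv₀]
    exact inv_lt_one_of_one_lt₀ (not_le.1 fun h => hx (((R v).valuation_le_one_iff x).1 h))
  choose π hπ0 hπ1 using hπ
  have hq : ∀ b : k, (X (some ()) - C b * X none : MP (Option Unit) k) ≠ 0 := fun b e => by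
    simpa using congrArg (eval (Pi.single (some ()) (1 : k))) e
  have hG : Gn k fun a : Option Unit → k =>
      eval a ρ ≠ 0 ∧ a none ≠ 0 ∧ ∀ b ∈ B, a (some ()) - b * a none ≠ 0 :=
    ⟨ρ * (X none * ∏ b ∈ B, (X (some ()) - C b * X none)),
      mul_ne_zero hρ (mul_ne_zero (X_ne_zero _) (Finset.prod_ne_zero_iff.2 fun b _ => hq b)),
      fun a ha => by
        rw [map_mul, map_mul, map_prod] at ha
        refine ⟨left_ne_zero_of_mul ha, ?_, fun b hb => ?_⟩
        · simpa using left_ne_zero_of_mul (right_ne_zero_of_mul ha)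
        · simpa using Finset.prod_ne_zero_iff.1
            (right_ne_zero_of_mul (right_ne_zero_of_mul ha)) b hb⟩
  obtain ⟨a, ⟨h1, h2, h3⟩, -, h4⟩ := h.gn hG (Finset.disjoint_empty_left (S ∪ T))
    (fun _ _ => 0) (fun _ _ => Set.univ) (fun _ _ _ => univ_mem)
    (fun v => if v ∈ T then fun i => i.elim 1 fun _ => s' v else s v)
    (fun v => if v ∈ T then π v * r' v else r v) fun v => by
      split_ifs
      · exact mul_ne_zero (hπ0 v) (hr' v)
      · exact hr v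
  have key : ∀ v ∈ T, a none ∈ R v ∧ (a none)⁻¹ ∈ R v ∧ a (some ()) ∈ R v ∧
      (a (some ()) / a none - s' v) / r' v ∈ R v := fun v hv => by
    have e0 := h4 v (Finset.mem_union_right _ hv) none
    have e1 := h4 v (Finset.mem_union_right _ hv) (some ())
    simp only [if_pos hv, Option.elim] at e0 e1
    obtain ⟨hs, hr1⟩ := hT v hv
    have hπR : π v ∈ R v := ((R v).valuation_le_one_iff _).1 (hπ1 v).le
    have p0 := hπ0 v
    have r0 := hr' v
    generalize hx : (a none - 1) / (π v * r' v) = x at e0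
    generalize hy : (a (some ()) - s' v) / (π v * r' v) = y at e1
    have ex : a none = 1 + π v * (r' v * x) := by rw [← hx]; field_simp; ring
    have ey : a (some ()) = s' v + π v * (r' v * y) := by rw [← hy]; field_simp; ring
    have hv1 : (R v).valuation (a none) = 1 := by
      rw [ex]
      refine (R v).valuation.map_one_add_of_lt ?_
      rw [map_mul]
      exact mul_lt_one_of_nonneg_of_lt_one_left zero_le (hπ1 v)
        (((R v).valuation_le_one_iff _).2 (mul_mem hr1 e0))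
    have hi : (a none)⁻¹ ∈ R v := ((R v).valuation_le_one_iff _).1 (by rw [map_inv₀, hv1, inv_one])
    refine ⟨((R v).valuation_le_one_iff _).1 hv1.le, hi,
      ey ▸ add_mem hs (mul_mem hπR (mul_mem hr1 e1)), ?_⟩
    have e : (a (some ()) / a none - s' v) / r' v = π v * (y - s' v * x) * (a none)⁻¹ := by
      have e2 : a (some ()) - s' v * a none = r' v * (π v * (y - s' v * x)) := by
        rw [ey, ex]; ring
      field_simp
      linear_combination e2
    rw [e]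
    exact mul_mem (mul_mem hπR (sub_mem e1 (mul_mem hs e0))) hi
  refine ⟨T, Matrix.of fun i j => i.elim (j.elim (a none)⁻¹ fun _ => -(a (some ()) * (a none)⁻¹))
      fun _ => j.elim 0 fun _ => 1,
    Matrix.of fun i j => i.elim (a j) fun _ => j.elim 0 fun _ => 1,
    (Finset.disjoint_union_left.1 hd).1, hPa a h2 (fun hb => h3 _ hb (by field_simp; ring))
      fun v hv => (key v hv).2.2.2, ?_, fun v hv i j => ?_, h1, fun v hv i => ?_⟩
  · ext i j
    rcases i with _ | _ <;> rcases j with _ | _ <;>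
      simp [Matrix.mul_apply, Fintype.sum_option, h2, mul_comm]
  · obtain ⟨k1, k2, k3, -⟩ := key v hv
    rcases i with _ | _ <;> rcases j with _ | _
    · exact ⟨k2, k1⟩
    · exact ⟨neg_mem (mul_mem k3 k2), k3⟩
    · exact ⟨zero_mem _, zero_mem _⟩
    · exact ⟨one_mem _, one_mem _⟩
  · have hv' : v ∉ T := Finset.disjoint_left.1 hd (Finset.mem_union_right _ hv)
    have e := h4 v (Finset.mem_union_left _ hv) i
    simp only [if_neg hv'] at e
    exact e

theorem cMain3_of (hI : IRRp) : CMain3 := by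
  intro k _ _ V R K _ _ _ _ hR hW X hX J hJ
  have hσ : Fintype.card Unit + 2 = 3 := by simp
  obtain ⟨d₂, hbig⟩ := hJ.big
  refine ⟨d₂, fun Gd hGd Lf hLf c₀ Φ₀ hc₀ S hS d hd hd₀ hp fv W hfv => ?_⟩
  have hσ' : Fintype.card (Option Unit) + 1 = 3 := by simp
  obtain ⟨E, hE1, hE2⟩ := J.exists_span d
  obtain ⟨P, hP0, hP⟩ := (hX.gn_zch hσ' hJ hp hE1 (hbig d hd hp _ E (fun m => (hE1 m).1) hE2)).opt
  have ext : ∀ a : Mon X.N d → k, MvPolynomial.eval a P ≠ 0 → ∀ S' T : Finset V, S' ⊆ S →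
      Disjoint S' T → ∀ g : Unit → Fm X.N k, (∀ i, J.Van d (g i)) →
      ∃ (c : Chart k (Option Unit) X.N (X.IK k)) (Φ : MP (Option Unit) k), X.ZCh J c Φ ∧ c.d = d ∧
        c.f (some (some none)) = ∑ m, C (a m) * E m ∧ (∀ v ∈ S', ∀ i,
          cf (map (algebraMap k (K v)) (c.f (some (some (some i))))) ∈ W v (some i)) ∧
        ∀ v ∈ T, ∀ i m, (R v).valuation (coeff m (c.f (some (some (some i))) - g i)) < 1 := by
    intro a ha S' T h1 h2 g hg
    obtain ⟨b, ⟨c, Φ, h3, h4, h5⟩, h6, h7⟩ := hW.sys hR E (hP a ha) h2 (fun v i => fv v (some i))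
      (fun v i => W v (some i)) (fun v hv i =>
        ⟨(hfv v (h1 hv) _).1.mem_span hE2, (hfv v (h1 hv) _).2⟩) (fun _ => g) fun _ _ i =>
          hE2 _ (hg i)
    have e : ∀ i, c.f (some (some (some i))) = sys (fun _ => E) b i := fun i => by
      rw [h5, sys_self, sys_self]; rfl
    refine ⟨c, Φ, h3, h4, by rw [h5, sys_self]; rfl, ?_, ?_⟩
    · simpa only [e] using h6
    · simpa only [e] using h7
  have z0 : ∀ _ : Unit, J.Van d 0 := fun _ => Jets.Van.of_span (s := ∅) (by simp) (zero_mem _)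
  have hl : ∀ i, J.Van d (c₀.l0 ^ (d - c₀.d) * c₀.f (some (some i))) := fun i => by
    have h := (hc₀.van i).mul (c₀.hl.pow (d - c₀.d))
    rwa [one_mul, Nat.sub_add_cancel hd₀] at h
  obtain ⟨a₁, ha₁, hn₁, -⟩ := hW.sys hR E (ι := Unit) (Gn.compP ⟨P, hP0, fun _ h => h⟩
    (e := fun m => ((), m)) fun _ _ h => (Prod.ext_iff.1 h).2) (Finset.disjoint_empty_right S)
    (fun v _ => fv v none) (fun v _ => W v none)
    (fun v hv _ => ⟨(hfv v hv _).1.mem_span hE2, (hfv v hv _).2⟩) (fun _ _ => 0) (by simp)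
  obtain ⟨cA, ΦA, zA, dA, fA, -, -⟩ := ext _ ha₁ ∅ ∅ (by simp) (by simp) _ z0
  obtain ⟨S₁, hS₁, hA⟩ : ∃ S₁ : Finset V, S ⊆ S₁ ∧ ∀ v ∉ S₁, Gd cA ΦA v :=
    ⟨S ∪ (hGd _ _ zA).toFinset, Finset.subset_union_left, fun v hv => by_contra fun h =>
      hv (Finset.mem_union_right _ ((Set.Finite.mem_toFinset _).2 h))⟩
  obtain ⟨c, Φ, z, dc, fc, nc, cc⟩ :=
    ext _ ha₁ S (S₁ \ S) le_rfl Finset.disjoint_sdiff _ fun _ => hl none
  obtain ⟨S₂, hc⟩ : ∃ S₂ : Finset V, ∀ v ∉ S₂, Gd c Φ v :=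
    ⟨(hGd _ _ z).toFinset, fun v hv => by_contra fun h => hv ((Set.Finite.mem_toFinset _).2 h)⟩
  obtain ⟨i₂⟩ : Nonempty Unit := ⟨()⟩
  obtain ⟨α, hα, hα₀⟩ : ∃ α : Option Unit → Mon X.N d → k,
      (∀ i, c.f (some (some i)) = ∑ m, C (α i m) * E m) ∧ MvPolynomial.eval (α none) P ≠ 0 := by
    choose α hα using fun i => (Submodule.mem_span_range_iff_exists_fun k).1
      (hE2 _ (dc ▸ z.van (some i)))
    refine ⟨fun i => i.elim _ α, ?_, ha₁⟩
    rintro (_ | i)
    · exact fc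
    · simpa only [smul_eq_C_mul, Option.elim_some] using (hα i).symm
  have hρ : ∀ a : Option Unit → k, MvPolynomial.eval a (aeval (fun m => ∑ i, C (α i m) *
      MvPolynomial.X i) P) = MvPolynomial.eval (fun m => ∑ i, α i m * a i) P := fun a => by
    rw [← aeval_eq_eval, ← aeval_eq_eval, comp_aeval_apply]
    simp
  choose r hr0 hr using fun v => exists_small (hR v) fun i => c.f (some (some i))
  obtain ⟨T, L, L', hT, h1, hL, hint, h3, h4⟩ := hW.hil hR (hLf c Φ z)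
    (ρ := aeval (fun m => ∑ i, C (α i m) * MvPolynomial.X i) P) (fun e => hα₀ (by
      have e1 := hρ (Pi.single none 1)
      rw [e, map_zero] at e1
      simpa [Pi.single_apply] using e1.symm)) S₂ (S₁ ∪ S₂)
    (fun v => Pi.single (if v ∈ S₁ then some i₂ else none) 1) r hr0
  rw [hρ] at h3
  obtain ⟨c', hc'⟩ := c.exists_isLin (L := L) (L' := L')
    (hL.trans (by ext i j; by_cases h : i = j <;> simp [Matrix.one_apply, h]))
  have eY : c'.f (some (some none)) = ∑ m, C (∑ i, α i m * L' none i) * E m := by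
    simp only [hc'.f, hα, map_sum, Finset.mul_sum, Finset.sum_mul, map_mul]
    rw [Finset.sum_comm]
    exact Finset.sum_congr rfl fun _ _ => Finset.sum_congr rfl fun _ _ => by ring
  have cY : ∀ v ∈ S₁ ∪ S₂, ∀ m, (R v).valuation (coeff m (c'.f (some (some none)) -
      c.f (some (some (if v ∈ S₁ then some i₂ else none))))) < 1 := fun v hv m => by
    have h := hr v _ (h4 v hv) m
    simp only [map_sub, sub_mul, Finset.sum_sub_distrib, ← hc'.f] at h
    generalize (if v ∈ S₁ then some i₂ else none) = i at h ⊢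
    rwa [Finset.sum_eq_single i (fun j _ hj => by simp [hj]) (by simp), Pi.single_eq_same, map_one,
      one_mul] at h
  have hsm : X.Sm (c'.f (some (some none))) := by
    obtain ⟨cY, ΦY, zY, dY, fY, -, -⟩ := ext _ h3 ∅ ∅ (by simp) (by simp) _ z0
    rw [eY, ← fY]
    exact zY.all.sm (cY.hf _) zY.dp
  obtain ⟨Y, hY, hsec, c'', hc''⟩ := hX.sec_chartP chfp_thm hI hσ c' (z.sm.lin hc')
    (by rw [constantCoeff_aff]; exact z.Φ0) hsm
  have hYg := (hsec _ Y.g).1 Y.var.on_g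
  have crv : ∀ (e : Chart k (Option Unit) X.N (X.IK k)) (Ψ : MP (Option Unit) k), X.ZCh J e Ψ → e.d = d →
      (∃ u : Option Unit → k, c'.f (some (some none)) = ∑ j, C (u j) * e.f (some (some j))) →
      ∃ C : Gen k X.N, C.var.Nice 1 ∧ (X.Cut C fun i => e.f (some (some i))) ∧
        (∀ i, J.Van d (e.f (some (some i)))) ∧ ∀ (M : Type) [Field M] [Algebra k M]
          (x : Fin (X.N + 1) → M), C.var.On x → Y.var.On x := by
    rintro e Ψ ze de ⟨u, hu⟩
    obtain ⟨C, h5, h6⟩ := fib_thm hI k X 3 hX _ hσ' e Ψ ze.sm ze.Φ0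
    refine ⟨C, h5, h6, fun i => de ▸ ze.van i, fun M _ _ x hx => (hsec M x).2 ⟨((h6 M x).1 hx).1, ?_⟩⟩
    rw [hu, map_sum]
    exact Finset.sum_eq_zero fun j _ => by rw [map_mul, ((h6 M x).1 hx).2 j, mul_zero]
  refine ⟨c, c', Φ, L, L', Y, c'', T, z, h1,
    fun v hv => hc v fun h => Finset.disjoint_left.1 hT h hv, hint, hc', z.sm.lin hc', hY, hsec, hc'',
    (z.sm.lin hc').hyp hc'' ?_, fun v => ?_⟩
  · rw [Y.var.IK_self]
    rintro G (rfl | hG)
    · exact Ideal.subset_span ⟨⟨_, c'.hf _⟩, hYg.2⟩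
    · rw [X.IK_self] at hG
      exact Ideal.subset_span ⟨hG.1, hYg.1.2 G hG⟩
  by_cases hv : v ∈ S ∨ v ∉ S₁ ∪ S₂
  · obtain ⟨C, h5, h6, h7, h8⟩ := crv c Φ z dc ⟨_, hc'.f none⟩
    refine ⟨C, _, h5, h6, h7, h8, fun hv' => ?_, fun hv' => ⟨c, Φ, z, dc ▸ hd₀,
      hc v fun h => hv.resolve_left hv' (Finset.mem_union_right _ h), 0, fun i m => by simp⟩⟩
    rintro (_ | i)
    · have h9 := hn₁ v hv' ()
      rwa [sys_self, ← (show _ = ∑ m, MvPolynomial.C (a₁ ((), m)) * E m from fc)] at h9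
    · exact nc v hv' i
  rw [not_or, not_not] at hv
  have fin : ∀ (cb : Chart k (Option Unit) X.N (X.IK k)) (Φb : MP (Option Unit) k) (e : ℕ),
      X.ZCh J cb Φb → c₀.d ≤ cb.d → Gd cb Φb v →
      (∀ i, J.Van d (cb.l0 ^ e * cb.f (some (some i)))) → (∀ m, (R v).valuation
        (coeff m (c'.f (some (some none)) - cb.l0 ^ e * cb.f (some (some none)))) < 1) →
      ∃ (C : Gen k X.N) (g : Option Unit → Fm X.N k),
      C.var.Nice 1 ∧ X.Cut C g ∧ (∀ i, J.Van d (g i)) ∧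
      (∀ (M : Type) [Field M] [Algebra k M] (x : Fin (X.N + 1) → M), C.var.On x → Y.var.On x) ∧
      (v ∈ S → ∀ i, cf (map (algebraMap k (K v)) (g i)) ∈ W v i) ∧
      (v ∉ S → ∃ cb Φb, X.ZCh J cb Φb ∧ c₀.d ≤ cb.d ∧ Gd cb Φb v ∧ ∃ e : ℕ, ∀ i m,
        (R v).valuation (coeff m (g i - cb.l0 ^ e * cb.f (some (some i)))) < 1) := by
    intro cb Φb e zb db gb vb hb
    obtain ⟨ce, Φe, ze, de, fe, -, h9⟩ := ext _ h3 ∅ {v} (by simp) (by simp) _ fun i => vb (some i)
    rw [← eY] at fe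
    obtain ⟨C, h5, h6, h7, h8⟩ := crv ce Φe ze de
      ⟨Pi.single none 1, by simp [Pi.single_apply, apply_ite, fe]⟩
    refine ⟨C, _, h5, h6, h7, h8, fun h => (hv.1 h).elim, fun _ => ⟨cb, Φb, zb, db, gb, e, ?_⟩⟩
    rintro (_ | i)
    · exact fe ▸ hb
    · exact h9 v (Finset.mem_singleton_self v) i
  have h5 := cY v hv.2
  by_cases hv₁ : v ∈ S₁
  · rw [if_pos hv₁] at h5
    exact fin c₀ Φ₀ _ hc₀ le_rfl (hS v hv.1) hl
      (mainp_val _ h5 (cc v (Finset.mem_sdiff.2 ⟨hv₁, hv.1⟩) i₂))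
  · rw [if_neg hv₁, fc, ← fA] at h5
    exact fin cA ΦA 0 zA (dA ▸ hd₀) (hA v hv₁) (fun i => by simpa using dA ▸ zA.van i)
      (by simpa using h5)

end Pool.Agent.ZCy
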