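import Pool.Agent.Lib.MP_879916_ag.SS.KDefs
import Pool.Agent.Lib.MP_751085_ag.ZF.T.Two
import Pool.Agent.Lib.MP_751085_ag.ZC.K.Val

/-! An `l`-cover of the affine line over a field that is unramified is constant. -/

namespace Pool.Agent.ZCy

open scoped Classical WithZero Polynomial

/-- a proper subgroup of an `l`-group is killed by a character of order `l` -/
theorem connb_char {G M : Type} [Group G] [Finite G] [CommGroup M] {l : ℕ} (hl : l.Prime)
    (hp : IsPGroup l G) {D : Subgroup G} (hD : D ≠ ⊤) {z : M} (hz : orderOf z = l) :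
    ∃ c : G →* M, (∀ g ∈ D, c g = 1) ∧ (∀ g, c g ^ l = 1) ∧ ∃ g, c g ≠ 1 := by
  have := Fact.mk hl
  obtain ⟨n, hn⟩ := IsPGroup.iff_card.1 hp
  obtain ⟨k, hk⟩ := IsPGroup.iff_card.1 (hp.to_subgroup D)
  have h1 : k < n := by
    refine (Nat.pow_lt_pow_iff_right hl.one_lt).1 (hn ▸ hk ▸ ?_)
    exact (Subgroup.card_le_card_group D).lt_of_ne fun e => hD (Subgroup.eq_top_of_card_eq D e)
  obtain ⟨m, rfl⟩ : ∃ m, n = m + 1 := ⟨n - 1, by omega⟩
  obtain ⟨H, hH, hDH⟩ := Sylow.exists_subgroup_card_pow_prime_le l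
    (hn ▸ pow_dvd_pow l m.le_succ) D hk (Nat.lt_succ_iff.1 h1)
  have hi : H.index = l := by
    have := H.card_mul_index
    rw [hH, hn, pow_succ] at this
    exact mul_left_cancel₀ (pow_ne_zero _ hl.ne_zero) this
  have : H.Normal := Subgroup.normal_of_index_eq_minFac_card (by
    rw [hi, hn, hl.pow_minFac m.succ_ne_zero])
  obtain ⟨q, hq⟩ := (isCyclic_of_prime_card (α := G ⧸ H) hi).exists_generator
  have ho : orderOf z ∣ orderOf q := by
    rw [orderOf_eq_card_of_forall_mem_zpowers hq, hz]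
    exact hi.symm.dvd
  refine ⟨(monoidHomOfForallMemZpowers hq ho).comp (QuotientGroup.mk' H), fun g hg => ?_,
    fun g => ?_, q.out, ?_⟩
  · rw [MonoidHom.comp_apply, QuotientGroup.mk'_apply, (QuotientGroup.eq_one_iff g).2 (hDH hg),
      map_one]
  · rw [MonoidHom.comp_apply, ← map_pow, ← hi, Subgroup.index, pow_card_eq_one', map_one]
  · rw [MonoidHom.comp_apply, QuotientGroup.mk'_apply, QuotientGroup.out_eq',
      monoidHomOfForallMemZpowers_apply_gen]
    rintro rfl
    exact hl.one_lt.ne (by rw [← hz, orderOf_one])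

theorem connb_dvd {A E : Type} [CommRing A] [Field E] {φ : A →+* E} {w : Vl E} {P : A}
    (h : Cen φ w P) (h0 : φ P ≠ 0) (k : ℕ) : ∀ f, w (φ f) ≤ w (φ P) ^ k → P ^ k ∣ f := by
  induction k with
  | zero => simp
  | succ k ih =>
    intro f hf
    obtain ⟨f, rfl⟩ := (h.2 f).1 (hf.trans_lt (pow_lt_one₀ zero_le ((h.2 P).2 dvd_rfl) k.succ_ne_zero))
    rw [map_mul, map_mul, pow_succ'] at hf
    rw [pow_succ']
    exact mul_dvd_mul_left P (ih f (le_of_mul_le_mul_left hf
      (zero_lt_iff.2 ((map_ne_zero w).2 h0))))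

/-- an unramified radical is a radical of a constant -/
theorem connb_rad {F₁ F E : Type} [Field F₁] [Field F] [Field E] [Algebra F E]
    [FiniteDimensional F E] [IsGalois F E] {ψ : F₁[X] →+* F} (hψ : IsFr ψ) {l : ℕ} (hl : l ≠ 0)
    (hu : UnrOff F (tE E ψ) 1) (f : F₁[X]) : f ≠ 0 → ∀ y : E, y ^ l = tE E ψ f →
      ∃ (a : F) (u : F₁), a ≠ 0 ∧ u ≠ 0 ∧
        (y / algebraMap F E a) ^ l = tE E ψ (Polynomial.C u) := by
  induction f using (wellFounded_dvdNotUnit (α := F₁[X])).induction with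
  | _ f ih =>
  intro hf y hy
  by_cases hU : IsUnit f
  · obtain ⟨u, h1, rfl⟩ := Polynomial.isUnit_iff.1 hU
    exact ⟨1, u, one_ne_zero, h1.ne_zero, by rw [map_one, div_one, hy]⟩
  obtain ⟨P, hP, hd⟩ := WfDvdMonoid.exists_irreducible_factor hU hf
  obtain ⟨w, -, hw⟩ := exists_cen_ext (E := E) hψ hP.prime
  have h0 : ψ P ≠ 0 := hψ.vfrc_ne hP.ne_zero
  have h0' : tE E ψ P ≠ 0 := (map_ne_zero (algebraMap F E)).2 h0
  obtain ⟨a, ha⟩ := e1_of_ine_bot (hu P w hP.prime hP.prime.not_dvd_one hw) y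
  have hy1 : w y < 1 := by
    refine (pow_lt_one_iff_of_nonneg zero_le hl).1 ?_
    rw [← map_pow, hy]
    exact (hw.2 f).2 hd
  have hc : Cen ψ (w.comap (algebraMap F E)) P := hw
  have hle : w y ≤ w (tE E ψ P) := by
    obtain ⟨b, c, h1, h2⟩ := (hc.le_one_iff hψ hP.prime a).1 (ha ▸ hy1.le)
    have e : w y = w (tE E ψ b) := by
      have := congrArg (w.comap (algebraMap F E)) h2
      rwa [map_mul, (hc.eq_one c).2 h1, mul_one, Valuation.comap_apply, ← ha] at this
    obtain ⟨b, rfl⟩ := (hw.2 b).1 (e ▸ hy1)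
    rw [e, map_mul, map_mul]
    exact mul_le_of_le_one_right' (hw.1 b)
  obtain ⟨f', rfl⟩ := connb_dvd hw h0' l f (by
    rw [← hy, map_pow]
    exact pow_le_pow_left₀ zero_le hle l)
  have hf' := right_ne_zero_of_mul hf
  obtain ⟨a', u, h1, h2, h3⟩ := ih f' ⟨hf', P ^ l, fun e => hP.not_isUnit ((isUnit_pow_iff hl).1 e),
    mul_comm _ _⟩ hf' (y / tE E ψ P) (by
      rw [div_pow, hy, map_mul, map_pow, mul_div_cancel_left₀ _ (pow_ne_zero _ h0')])
  exact ⟨ψ P * a', u, mul_ne_zero h0 h1, h2, by rw [map_mul, ← div_div]; exact h3⟩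

/-- the prime `X` does not decompose -/
theorem connA {F₁ F E : Type} [Field F₁] [Field F] [Field E] [Algebra F E] [FiniteDimensional F E]
    [IsGalois F E] {ψ : F₁[X] →+* F} (hψ : IsFr ψ) {l : ℕ} (hl : l.Prime) {ζ : F₁}
    (hζ : IsPrimitiveRoot ζ l) (hp : IsPGroup l (E ≃ₐ[F] E))
    (hu : UnrOff F ((algebraMap F E).comp ψ) 1) :
    Inert F ((algebraMap F E).comp ψ) Polynomial.X := by
  intro w hw
  by_contra hD
  let ι : F₁ →+* F := ψ.comp Polynomial.C
  have hζ' := hζ.map_of_injective ι.injective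
  obtain ⟨c, c1, c2, g₀, c3⟩ := connb_char hl hp hD (z := (hζ'.isUnit hl.ne_zero).unit)
    (hζ'.isUnit_unit hl.ne_zero).eq_orderOf.symm
  obtain ⟨β, hβ⟩ := groupCohomology.isMulCoboundary₁_of_isMulCocycle₁_of_aut_to_units
    (fun g => Units.map (algebraMap F E : F →* E) (c g)) fun g h => Units.ext (by
      simp [mul_comm])
  have hβ' : ∀ g : E ≃ₐ[F] E, g β = algebraMap F E (c g) * β := fun g => by
    have := congrArg Units.val (hβ g)
    simpa [div_eq_iff β.ne_zero] using this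
  obtain ⟨x, hx⟩ := (IsGalois.mem_range_algebraMap_iff_fixed (F := F) ((β : E) ^ l)).2 fun g => by
    rw [map_pow, hβ', mul_pow, ← map_pow, ← Units.val_pow_eq_pow_val, c2, Units.val_one, map_one,
      one_mul]
  obtain ⟨a, b, hb, e⟩ := hψ.2 x
  have hx0 : x ≠ 0 := fun h => pow_ne_zero l β.ne_zero (by rw [← hx, h, map_zero])
  have ha : a ≠ 0 := fun h => mul_ne_zero hx0 (hψ.vfrc_ne hb) (by rw [e, h, map_zero])
  obtain ⟨k, rfl⟩ := Nat.exists_eq_succ_of_ne_zero hl.ne_zero
  obtain ⟨a', u, h1, h2, h3⟩ := connb_rad hψ hl.ne_zero hu (a * b ^ k)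
    (mul_ne_zero ha (pow_ne_zero _ hb)) (β * tE E ψ b) (by
      simp only [RingHom.comp_apply, map_mul, map_pow, mul_pow, ← e, hx]
      rw [mul_assoc, ← pow_succ'])
  set y := β * tE E ψ b / algebraMap F E a' with hy
  have hg : ∀ g : E ≃ₐ[F] E, g y = algebraMap F E (c g) * y := fun g => by
    simp only [hy, RingHom.comp_apply, map_div₀, map_mul, hβ', AlgEquiv.commutes]
    ring
  have hC : ∀ t : F₁, t ≠ 0 → w (tE E ψ (Polynomial.C t)) = 1 := fun t ht =>
    (hw.eq_one _).2 (by simpa [Polynomial.X_dvd_iff] using ht)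
  have hy1 : w y = 1 := (pow_eq_one_iff_of_nonneg zero_le hl.ne_zero).1 (by
    rw [← map_pow, h3, hC u h2])
  obtain ⟨s, hs⟩ := (dns_of_dec (K := F) (w := w) (x := y) fun g h => by
    rw [hg, c1 g h, Units.val_one, map_one, one_mul]).exists_lt one_ne_zero
  have hc : Cen ψ (w.comap (algebraMap F E)) Polynomial.X := hw
  have hs1 : w (algebraMap F E s) ≤ 1 := by
    rw [← sub_sub_cancel y (algebraMap F E s)]
    exact w.map_sub_le hy1.le hs.le
  obtain ⟨p, q, hq, e'⟩ := (hc.le_one_iff hψ Polynomial.prime_X s).1 hs1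
  have hq0 : q.coeff 0 ≠ 0 := fun h => hq (Polynomial.X_dvd_iff.2 h)
  set t := p.coeff 0 / q.coeff 0 with ht
  have h4 : w (algebraMap F E s - tE E ψ (Polynomial.C t)) < 1 := by
    have h5 := (hw.2 (p - Polynomial.C t * q)).2 (by
      rw [Polynomial.X_dvd_iff, Polynomial.coeff_sub, Polynomial.coeff_C_mul, ht,
        div_mul_cancel₀ _ hq0, sub_self])
    rwa [map_sub, map_mul, RingHom.comp_apply _ _ p, ← e', map_mul, ← RingHom.comp_apply _ ψ q,
      ← sub_mul, map_mul, (hw.eq_one q).2 hq, mul_one] at h5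
  have h5 : w (y - tE E ψ (Polynomial.C t)) < 1 := by
    rw [← sub_add_sub_cancel _ (algebraMap F E s)]
    exact w.map_add_lt hs h4
  have h6 : u = t ^ (k + 1) := by
    have h7 : w (y ^ (k + 1) - tE E ψ (Polynomial.C t) ^ (k + 1)) < 1 := by
      rw [← (Commute.all _ _).mul_geom_sum₂, map_mul]
      refine mul_lt_one_of_lt_of_le h5 (w.map_sum_le fun i _ => ?_)
      rw [map_mul, map_pow, map_pow, hy1, one_pow, one_mul]
      exact pow_le_one₀ zero_le (hw.1 _)
    rw [h3, ← map_pow, ← map_sub, ← map_pow, ← map_sub] at h7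
    by_contra h
    exact h7.ne (hC _ (sub_ne_zero.2 h))
  have ht0 : tE E ψ (Polynomial.C t) ≠ 0 := fun h => by
    have := hC t fun h => h2 (by rw [h6, h, zero_pow hl.ne_zero])
    rw [h, map_zero] at this
    exact zero_ne_one this
  obtain ⟨i, -, hi⟩ := (hζ'.map_of_injective (algebraMap F E).injective).eq_pow_of_pow_eq_one
    (ξ := y / tE E ψ (Polynomial.C t)) (by
      rw [div_pow, h3, h6, map_pow, map_pow, div_self (pow_ne_zero _ ht0)])
  have h8 : g₀ y = y := by
    rw [(eq_div_iff ht0).1 hi |>.symm, map_mul, map_pow, g₀.commutes, RingHom.comp_apply _ ψ,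
      g₀.commutes]
  have hy0 : y ≠ 0 := fun h => by simp [h] at hy1
  rw [hg, mul_eq_right₀ hy0, map_eq_one_iff _ (algebraMap F E).injective] at h8
  exact c3 (Units.ext h8)

/-- polynomials in `τ` and `ξ` -/
noncomputable def connb_e (κ : Type) [Field κ] : κ[X][X] ≃+* MP (Option Unit) κ :=
  RingEquiv.ofRingHom (Polynomial.eval₂RingHom (tau Unit) (MvPolynomial.X (some ())))
    (MvPolynomial.eval₂Hom (Polynomial.C.comp Polynomial.C) fun i =>
      i.elim (Polynomial.C Polynomial.X) fun _ => Polynomial.X)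
    (by
      refine MvPolynomial.ringHom_ext (fun a => by simp [tau]) ?_
      rintro (_ | _) <;> simp [tau])
    (by ext <;> simp [tau])

/-- the same for a chart whose equation depends on `τ` only -/
theorem connB {κ F E : Type} [Field κ] [IsAlgClosed κ] [Field F] [Field E]
    [Algebra (RF (Option Unit) κ) F] [Algebra F E] [Algebra (RF (Option Unit) κ) E]
    [IsScalarTower (RF (Option Unit) κ) F E] [FiniteDimensional F E] [IsGalois F E]
    {χ : κ[X][X]} (hm : χ.Monic) {θ : F}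
    (h0 : χ.eval₂ ((toE (MP (Option Unit) κ) F).comp (tau Unit)) θ = 0)
    (hθ : IntermediateField.adjoin (RF (Option Unit) κ) {θ} = ⊤) {l : ℕ} (hl : l.Prime)
    (hk : (l : κ) ≠ 0) (hp : IsPGroup l (E ≃ₐ[F] E)) {Θ : κ[X]} (hΘ : Θ ≠ 0)
    (hu : UnrOff F (toE (MP (Option Unit) κ) E) (tau Unit Θ)) :
    ∃ W : Vl E, (∀ p, W (toE (MP (Option Unit) κ) E p) ≤ 1) ∧
      (∀ p, W (toE (MP (Option Unit) κ) E p) < 1 ↔ line (RingHom.id κ) 0 (eT Unit κ) p = 0) ∧
      Dec F W = ⊤ := by
  obtain ⟨γ, hγ, eγ⟩ := (isFr_alg κ[X] (Fr κ[X])).exists_poly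
    ((isFr_alg (MP (Option Unit) κ) (RF (Option Unit) κ)).comp_equiv (connb_e κ))
  let η : (Fr κ[X])[X] →+* F := (algebraMap (RF (Option Unit) κ) F).comp γ
  let _ : Algebra (Fr κ[X]) F := (η.comp Polynomial.C).toAlgebra
  have e1 : ∀ q, η (q.map (algebraMap κ[X] (Fr κ[X]))) =
      toE (MP (Option Unit) κ) F (connb_e κ q) := fun q =>
    congrArg (algebraMap (RF (Option Unit) κ) F) (RingHom.congr_fun eγ q)
  have eC : ∀ a, connb_e κ (Polynomial.C a) = tau Unit a := fun a => Polynomial.eval₂_C _ _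
  have e2 : (algebraMap (Fr κ[X]) F).comp (algebraMap κ[X] (Fr κ[X])) =
      (toE (MP (Option Unit) κ) F).comp (tau Unit) := RingHom.ext fun a => by
    rw [RingHom.comp_apply _ (tau Unit), ← eC, ← e1, Polynomial.map_C]
    rfl
  have hi : IsIntegral (Fr κ[X]) θ := ⟨_, hm.map (algebraMap κ[X] (Fr κ[X])), by
    rw [Polynomial.eval₂_map, e2, h0]⟩
  have e3 : ∀ p, Polynomial.aeval (η Polynomial.X) p = η p := fun p =>
    (Polynomial.eval₂_C_X (p := p)).symm ▸ by
      rw [Polynomial.hom_eval₂, Polynomial.eval₂_C_X]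
      rfl
  let F₁ := IntermediateField.adjoin (Fr κ[X]) {θ}
  have := IntermediateField.adjoin.finiteDimensional hi
  have htr : Transcendental F₁ (η Polynomial.X) := Transcendental.extendScalars F₁
    (transcendental_iff.2 fun p h => hγ.1 ((algebraMap (RF (Option Unit) κ) F).injective (by
      rw [map_zero, map_zero]
      exact (e3 p).symm.trans h)))
  let ψ : F₁[X] →+* F := (Polynomial.aeval (η Polynomial.X) : F₁[X] →ₐ[F₁] F)
  have e4 : ∀ p, ψ (p.map (algebraMap (Fr κ[X]) F₁)) = η p := fun p =>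
    (Polynomial.aeval_map_algebraMap F₁ _ p).trans (e3 p)
  have hψ : IsFr ψ := by
    refine isFr_of_div (transcendental_iff_injective.1 htr) fun z => ?_
    have hz : z ∈ Subfield.closure (ψ.range : Set F) := by
      refine IntermediateField.adjoin_induction (RF (Option Unit) κ) (s := {θ})
        (p := fun z _ => z ∈ Subfield.closure (ψ.range : Set F)) ?_ (fun a => ?_)
        (fun _ _ _ _ => add_mem) (fun _ _ => inv_mem) (fun _ _ _ _ => mul_mem)
        (hθ ▸ IntermediateField.mem_top)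
      · rintro _ rfl
        exact Subfield.subset_closure ⟨Polynomial.C (IntermediateField.AdjoinSimple.gen _ _),
          Polynomial.aeval_C _ _⟩
      · obtain ⟨p, q, hq, e⟩ := hγ.2 a
        rw [(eq_div_iff (hγ.vfrc_ne hq)).2 e, map_div₀]
        exact div_mem (Subfield.subset_closure ⟨_, e4 p⟩) (Subfield.subset_closure ⟨_, e4 q⟩)
    obtain ⟨_, h1, _, h2, rfl⟩ := Subfield.mem_closure_iff.1 hz
    rw [Subring.closure_eq] at h1 h2
    obtain ⟨a, rfl⟩ := h1
    obtain ⟨b, rfl⟩ := h2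
    exact ⟨a, b, rfl⟩
  let μ : κ[X] →+* F₁ := (algebraMap (Fr κ[X]) F₁).comp (algebraMap κ[X] (Fr κ[X]))
  have hμ : Function.Injective μ :=
    (algebraMap (Fr κ[X]) F₁).injective.comp (IsFractionRing.injective _ _)
  have e5 : ∀ q : κ[X][X], (toE (MP (Option Unit) κ) E).comp (connb_e κ : κ[X][X] →+* _) q =
      tE E ψ (q.map μ) := fun q => by
    rw [← Polynomial.map_map, RingHom.comp_apply _ ψ, e4, e1]
    exact IsScalarTower.algebraMap_apply _ F E _
  have hU : UnrOff F (tE E ψ) 1 := fun P w hP _ hw => by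
    have h2 : ∀ a, a ≠ 0 →
        w ((toE (MP (Option Unit) κ) E).comp (connb_e κ : κ[X][X] →+* _) (Polynomial.C a)) = 1 :=
      fun a ha => by
        rw [e5, Polynomial.map_C, hw.eq_one]
        exact fun h => hP.not_isUnit (isUnit_of_dvd_unit h (Polynomial.isUnit_C.2
          ((map_ne_zero_iff μ hμ).2 ha).isUnit))
    rcases cen_poly (fun q => (e5 q).symm ▸ hw.1 _) h2 with h | ⟨Q, hQ, h⟩
    · refine kz_triv fun x hx => ?_
      have hx' : x ∈ algebraicClosure (RF (Option Unit) κ) F := by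
        refine (hθ.ge.trans (IntermediateField.adjoin_simple_le_iff.2 ?_)) IntermediateField.mem_top
        exact mem_algebraicClosure_iff'.2 ⟨_, hm.map ((algebraMap (MP (Option Unit) κ) _).comp
          (tau Unit)), by rw [Polynomial.eval₂_map]; exact h0⟩
      obtain ⟨p, hp0, e⟩ := mem_algebraicClosure_iff.1 hx'
      refine kz_alg (φ := algebraMap (RF (Option Unit) κ) E) (fun a ha => ?_)
        ((map_ne_zero _).2 hx) hp0 (by
          rw [← Polynomial.aeval_def, Polynomial.aeval_algebraMap_apply, e, map_zero])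
      obtain ⟨b, c, hc, e'⟩ := (isFr_alg (MP (Option Unit) κ) (RF (Option Unit) κ)).2 a
      obtain ⟨b, rfl⟩ := (connb_e κ).surjective b
      obtain ⟨c, rfl⟩ := (connb_e κ).surjective c
      have hc' : c ≠ 0 := fun h => hc (by rw [h, map_zero])
      have hb : b ≠ 0 := fun h => mul_ne_zero ha ((isFr_alg _ _).vfrc_ne hc) (by
        rw [e', h, map_zero, map_zero])
      have := congrArg (fun t => w (algebraMap _ E t)) e'
      simp only [map_mul] at this
      exact (mul_one _).symm.trans (((congrArg _ (h c hc')).symm.trans this).trans (h b hb))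
    · refine hu _ w ((MulEquiv.prime_iff (connb_e κ)).2 hQ) ?_ ((cen_equiv _).1 h)
      rw [← eC, map_dvd_iff]
      exact (h.eq_one _).1 (h2 Θ hΘ)
  have := NeZero.mk hk
  obtain ⟨ζ, hζ⟩ := HasEnoughRootsOfUnity.exists_primitiveRoot κ l
  obtain ⟨W, -, hW⟩ := exists_cen_ext (E := E) hψ Polynomial.prime_X
  refine ⟨W, fun p => ?_, fun p => ?_, connA hψ hl
    (hζ.map_of_injective (μ.comp Polynomial.C).injective) hp hU W hW⟩ <;>
    obtain ⟨q, rfl⟩ := (connb_e κ).surjective p
  · exact (congrArg W (e5 q)).trans_le (hW.1 _)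
  · have e6 : (line (RingHom.id κ) 0 (eT Unit κ)).comp (connb_e κ : κ[X][X] →+* _) =
        Polynomial.constantCoeff := by
      ext1
      · ext1 <;> [ext1; skip] <;> simp [connb_e, tau, line]
      · simp [connb_e, tau, line]
    refine (congrArg (W · < 1) (e5 q)).to_iff.trans ((hW.2 _).trans ?_)
    rw [Polynomial.X_dvd_iff, Polynomial.coeff_map, map_eq_zero_iff μ hμ]
    exact (RingHom.congr_fun e6 q).congr_left.symm

end Pool.Agent.ZCy
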