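import Pool.Agent.Lib.MP_879916_ag.SS.Cres
import Pool.Agent.Lib.MP_751085_ag.ZF.T.Geo1
import Pool.Agent.Lib.MP_751085_ag.ZF.T.Loc
import Pool.Agent.Lib.MP_751085_ag.ZF.T.Chg

/-! A geometrically trivial residue is the residue of a constant class. -/

namespace Pool.Agent.ZCy.F

open scoped Classical Polynomial

/-- the closure of `κ(ξ)` is algebraic over every subfield that contains the variables -/
theorem constB_alg {κ ι : Type} [Field κ] {s : ℕ} (hs : FinB κ s) (L : Subfield (OB ι κ))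
    (hL : ∀ i, toE (MP ι κ) (OB ι κ) (MvPolynomial.X i) ∈ L) (x : OB ι κ) : IsAlgebraic L x := by
  let M := algebraicClosure L (OB ι κ)
  have h1 : ∀ Q : MP ι κ, toE (MP ι κ) (OB ι κ) Q ∈ M := fun Q => by
    induction Q using MvPolynomial.induction_on with
    | C z =>
      obtain ⟨n, hn, hz⟩ := hs.alg z
      refine mem_algebraicClosure_iff.2 ⟨Polynomial.X ^ s ^ n - Polynomial.X, fun h0 => ?_, ?_⟩
      · have := congrArg Polynomial.natDegree (sub_eq_zero.1 h0)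
        rw [Polynomial.natDegree_X_pow, Polynomial.natDegree_X] at this
        exact (Nat.one_lt_pow hn.ne' hs.one_lt).ne' this
      · rw [map_sub, map_pow, Polynomial.aeval_X, ← map_pow, ← map_pow, hz, sub_self]
    | add p q hp hq =>
      rw [map_add]
      exact add_mem hp hq
    | mul_X p i hp =>
      rw [map_mul]
      exact mul_mem hp (M.algebraMap_mem ⟨_, hL i⟩)
  have h2 : ∀ y : RF ι κ, algebraMap _ (OB ι κ) y ∈ M := fun y => by
    obtain ⟨p, q, -, rfl⟩ := IsFractionRing.div_surjective (MP ι κ) y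
    rw [map_div₀]
    exact div_mem (h1 p) (h1 q)
  let ψ : RF ι κ →+* M := (algebraMap _ (OB ι κ)).codRestrict M h2
  obtain ⟨p, hp, hx⟩ := Algebra.IsAlgebraic.isAlgebraic (R := RF ι κ) x
  have h3 : IsAlgebraic M x := ⟨p.map ψ, (Polynomial.map_ne_zero_iff ψ.injective).2 hp, by
    rw [Polynomial.aeval_def, Polynomial.eval₂_map]
    exact hx⟩
  exact h3.restrictScalars L

theorem constB_pol {F Ω : Type} [Field F] [Field Ω] {v : Vl F} {ρ : v.integer →+* Ω}
    {L : Subfield Ω} (hL : ∀ z, z ∈ L ↔ z ∈ ρ.range) {x : Ω} (hx : IsAlgebraic L x) :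
    ∃ p : v.integer[X], p.map ρ ≠ 0 ∧ p.eval₂ ρ x = 0 := by
  obtain ⟨p, hp, h0⟩ := hx
  let ψ : v.integer →+* L := ρ.codRestrict L fun y => (hL _).2 ⟨y, rfl⟩
  have hψ : Function.Surjective ψ := fun z => by
    obtain ⟨y, hy⟩ := (hL z).1 z.2
    exact ⟨y, Subtype.ext hy⟩
  obtain ⟨P, rfl⟩ := Polynomial.map_surjective ψ hψ p
  have e : (algebraMap L Ω).comp ψ = ρ := rfl
  refine ⟨P, ?_, ?_⟩
  · rw [← e, ← Polynomial.map_map]
    exact (Polynomial.map_ne_zero_iff (algebraMap L Ω).injective).2 hp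
  · rwa [Polynomial.aeval_def, Polynomial.eval₂_map, e] at h0

theorem constB {O K κ σ F : Type} [CommRing O] [IsDomain O] [CDVR O] [Field K] [Algebra O K]
    [IsFractionRing O K] [Field κ] [IsAlgClosed κ] [Fintype σ] [Field F]
    [Algebra (RF (Option σ) K) F] {s : ℕ} {π : O} {ρ : O →+* κ} {c₀ : PChart O σ} {c : PChart K σ}
    {θ : F} {v : Vl F} {a : BR F} {θ₀ : OB (Option σ) κ} {ρ₀ : v.integer →+* OB (Option σ) κ}
    (hs : FinB κ s) (hρ : LRes ρ s) (g : GenR K π ρ θ v θ₀ ρ₀) (h : XH π ρ c₀ c θ)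
    (ha : HasRes v a) {N : ℕ} (hN : IsUnit (N : O)) (hNa : N • a = 0)
    (h0 : ∀ γ : OB (Option σ) κ ≃ₐ[RF (Option σ) κ] OB (Option σ) κ,
      γ θ₀ = θ₀ → ResAt v ρ₀ a γ.toRingEquiv 0) :
    ∃ b : BR K, N • b = 0 ∧ Unram v (a - rs (cE (Option σ) K F) b) := by
  obtain ⟨φ, γ₀, hφ, h1, h2⟩ := g.exists_frobF hs hρ h
  have hfix := g.fixF h (fun Q => (h2 _).trans (congrArg _ (tgeo1_map hρ hφ Q))) h1
  obtain ⟨q, hq⟩ := ha.resAt g.red hfix
  have hv : Nrm v := ⟨_, g.cen.2⟩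
  have hN0 : 0 < N := Nat.pos_of_ne_zero fun e => hN.ne_zero (by rw [e, Nat.cast_zero])
  obtain ⟨v₁, ρ₁, γ₁, hv₁, hr, hγ₁, hloc⟩ := exists_linv_dataF (K := K) hs hρ
  obtain ⟨b, hb, hres⟩ := hloc.exists_classF hγ₁ hN0 (resAt_tors hv g.red hfix hq hNa)
  have e0 : ∀ x : O, cE (Option σ) K F (algebraMap O K x) =
      gO O K (Option σ) F (MvPolynomial.C x) := fun x => by simp
  have hi : Idq (cE (Option σ) K F) v₁ v ((1 : ℕ) : ℚ) := by
    have h3 := (gau_idq frc_alg h.irr.prime (fac_of_wf h.irr.prime) (hv₁.cen1 h.irr)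
      (j := cE (Option σ) K F) (w := v) ⟨fun x => (congrArg v (e0 x)).trans_le (g.cen.1.1 _),
        fun x => by
          rw [RingHom.comp_apply, e0, g.cen.1.2]
          exact ⟨fun ⟨Q, hQ⟩ => ⟨MvPolynomial.constantCoeff Q, by
            simpa using congrArg MvPolynomial.constantCoeff hQ⟩, map_dvd _⟩⟩).2
    rwa [e0, ord_eq_of v g.cen.2, Int.cast_one, ← Nat.cast_one] at h3
  have e1 : ∀ (x : O) (y : v.integer), (y : F) = gO O K (Option σ) F (MvPolynomial.C x) →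
      ρ₀ y = cE (Option σ) κ (OB (Option σ) κ) (ρ x) := fun x y e =>
    (g.base _ y e).trans (by simp)
  have hc : Cmp (cE (Option σ) K F) ρ₁ ρ₀ (cE (Option σ) κ (OB (Option σ) κ)) := fun x y e => by
    obtain ⟨t, ht⟩ := (hv₁.2.2 x.1).1 x.2
    rw [hr t x ht.symm]
    exact e1 t y (e.trans ((congrArg _ ht.symm).trans (e0 t)))
  have e2 : ∀ z, γ₀ (cE (Option σ) κ (OB (Option σ) κ) z) =
      cE (Option σ) κ (OB (Option σ) κ) (z ^ s) := fun z =>
    (h2 _).trans (by rw [MvPolynomial.map_C, RingHom.coe_coe, hφ]; rfl)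
  have e5 : ∀ i, ρ₀ ⟨_, g.cen.1.1 (MvPolynomial.X i)⟩ = toE (MP (Option σ) κ) _ (MvPolynomial.X i) :=
    fun i => (g.base _ _ rfl).trans (congrArg (toE _ _) (MvPolynomial.map_X ρ i))
  obtain ⟨L, hL, -⟩ := r6_sub g.red
  refine ⟨b, hb, cres hv g.red (fun x => constB_pol hL
    (constB_alg hs L (fun i => (hL _).2 ⟨_, e5 i⟩) x)) hs (cE (Option σ) κ (OB (Option σ) κ))
    (fun z hz => ?_) e2 ?_ fun γ h3 h4 => ?_⟩
  · obtain ⟨t, rfl⟩ := (hρ.rng z).2 hz
    exact ⟨⟨_, g.cen.1.1 (MvPolynomial.C t)⟩, e1 t _ rfl⟩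
  · have h5 := hq.sub (hres.map _ one_pos hi g.red hc (fun z => by rw [e2, hγ₁]) hfix)
    rwa [one_nsmul, sub_self] at h5
  · have h5 := (hres.pow 0).map _ one_pos hi g.red hc (fun z => h4 z) h3
    have h6 : (γ : OB (Option σ) κ →+* OB (Option σ) κ).comp (algebraMap (RF (Option σ) κ) _) =
        algebraMap (RF (Option σ) κ) _ :=
      IsLocalization.ringHom_ext (nonZeroDivisors (MP (Option σ) κ))
        (MvPolynomial.ringHom_ext (fun x => h4 x) fun i =>
          (congrArg γ (e5 i).symm).trans ((h3 _).trans (e5 i)))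
    have h7 := (h0 (AlgEquiv.ofRingEquiv (f := γ) (RingHom.congr_fun h6)) (by
      rw [← g.th ⟨θ, h.le g.cen.1⟩ rfl]
      exact h3 _)).sub h5
    rwa [zero_nsmul, one_nsmul, sub_self] at h7

end Pool.Agent.ZCy.F
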