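import Pool.Agent.Lib.MP_751085_ag.ZF.T.Need

/-! A residue that vanishes geometrically and at one lift of Frobenius vanishes. -/

namespace Pool.Agent.ZCy.F

open scoped Classical WithZero Polynomial

/-- a sequence with values in a finite set is constant along an ultrafilter -/
theorem cres_lim {ι X : Type} (U : Ultrafilter ι) (f : ι → X) {T : Set X} (hT : T.Finite)
    (h : ∀ i, f i ∈ T) : ∃ y, ∀ᶠ i in U, f i = y := by
  obtain ⟨y, -, hy⟩ := Ultrafilter.eq_pure_of_finite_mem (f := U.map f) hT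
    (Ultrafilter.mem_map.2 (Filter.Eventually.of_forall h))
  refine ⟨y, ?_⟩
  have h1 : {y} ∈ U.map f := by
    rw [hy]
    exact Ultrafilter.mem_pure.2 rfl
  exact Ultrafilter.mem_map.1 h1

theorem cres_hom {ι Ω : Type} [Field Ω] (U : Ultrafilter ι) (f : ι → Ω ≃+* Ω)
    (h : ∀ x, ∃ y, ∀ᶠ i in U, f i x = y) : ∃ δ : Ω →+* Ω, ∀ x, ∀ᶠ i in U, f i x = δ x := by
  choose g hg using h
  refine ⟨⟨⟨⟨g, ?_⟩, fun x y => ?_⟩, ?_, fun x y => ?_⟩, hg⟩
  · obtain ⟨i, hi⟩ := (hg 1).exists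
    rw [← hi, map_one]
  · obtain ⟨i, h1, h2, h3⟩ := ((hg x).and ((hg y).and (hg (x * y)))).exists
    change g (x * y) = g x * g y
    rw [← h1, ← h2, ← h3, map_mul]
  · obtain ⟨i, hi⟩ := (hg 0).exists
    change g 0 = 0
    rw [← hi, map_zero]
  · obtain ⟨i, h1, h2, h3⟩ := ((hg x).and ((hg y).and (hg (x + y)))).exists
    change g (x + y) = g x + g y
    rw [← h1, ← h2, ← h3, map_add]

/-- every element lies in a finite set that is stable under the maps that fix the base -/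
theorem cres_orb {A Ω : Type} [CommRing A] [Field Ω] {ρ : A →+* Ω}
    (halg : ∀ x : Ω, ∃ p : A[X], p.map ρ ≠ 0 ∧ p.eval₂ ρ x = 0) (x : Ω) :
    ∃ T : Set Ω, T.Finite ∧ x ∈ T ∧
      ∀ δ : Ω →+* Ω, (∀ a, δ (ρ a) = ρ a) → Set.MapsTo δ T T := by
  obtain ⟨p, hp, hx⟩ := halg x
  refine ⟨{y | (p.map ρ).IsRoot y}, Polynomial.finite_setOfPred_isRoot hp, ?_, fun δ hδ y hy => ?_⟩
  · change (p.map ρ).eval x = 0
    rwa [Polynomial.eval_map]
  · change (p.map ρ).eval (δ y) = 0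
    have h1 : (p.map ρ).eval y = 0 := hy
    rw [Polynomial.eval_map] at h1 ⊢
    have h2 : δ.comp ρ = ρ := RingHom.ext hδ
    have h3 := Polynomial.hom_eval₂ p ρ δ y
    rw [h1, map_zero, h2] at h3
    exact h3.symm

theorem cres_per {κ : Type} [Field κ] {z : κ} {s n : ℕ} (h : z ^ s ^ n = z) (k : ℕ) :
    z ^ s ^ (n * k) = z := by
  induction k with
  | zero => rw [mul_zero, pow_zero, pow_one]
  | succ k ih => rw [Nat.mul_succ, pow_add, pow_mul, ih, h]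

/-- a conjugate of an element of a finite field is a Frobenius power -/
theorem cres_conj {Ω κ : Type} [Field Ω] [Field κ] {s : ℕ} (hs : FinB κ s) (β : κ →+* Ω)
    (γ : Ω →+* Ω) (hγ : ∀ z : κ, z ^ s = z → γ (β z) = β z) {g : κ} {n : ℕ} (hn : 0 < n)
    (hg : g ^ s ^ n = g) : ∃ f, γ (β g) = β (g ^ s ^ f) := by
  obtain ⟨p, r, hp, hc, -, rfl⟩ := hs.ex
  have : ExpChar κ p := ExpChar.prime hp
  let P : κ[X] := ∏ i ∈ Finset.range n, (Polynomial.X - Polynomial.C (g ^ (p ^ r) ^ i))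
  have h1 : P.map (iterateFrobenius κ p r) = P := by
    have e1 := Finset.prod_range_succ
      (fun i => (Polynomial.X - Polynomial.C (g ^ (p ^ r) ^ i) : κ[X])) n
    rw [Finset.prod_range_succ', hg, pow_zero, pow_one] at e1
    have e2 := mul_right_cancel₀ (Polynomial.X_sub_C_ne_zero g) e1
    refine Eq.trans ?_ e2
    rw [Polynomial.map_prod]
    refine Finset.prod_congr rfl fun i _ => ?_
    rw [Polynomial.map_sub, Polynomial.map_X, Polynomial.map_C, iterateFrobenius_def, pow_succ,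
      pow_mul]
  have h2 : P.map (γ.comp β) = P.map β := by
    ext j
    rw [Polynomial.coeff_map, Polynomial.coeff_map]
    refine hγ _ ?_
    have := congrArg (fun Q => Polynomial.coeff Q j) h1
    simpa only [Polynomial.coeff_map, iterateFrobenius_def] using this
  have h3 : P.eval g = 0 := by
    rw [Polynomial.eval_prod]
    exact Finset.prod_eq_zero (Finset.mem_range.2 hn) (by simp)
  have h4 : (P.map β).eval (γ (β g)) = 0 := by
    rw [← h2]
    have := Polynomial.eval_map_apply (p := P) (γ.comp β) g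
    rw [h3, map_zero] at this
    exact this
  rw [Polynomial.map_prod, Polynomial.eval_prod, Finset.prod_eq_zero_iff] at h4
  obtain ⟨i, -, hi⟩ := h4
  refine ⟨i, ?_⟩
  rw [Polynomial.map_sub, Polynomial.map_X, Polynomial.map_C, Polynomial.eval_sub,
    Polynomial.eval_X, Polynomial.eval_C, sub_eq_zero] at hi
  exact hi

theorem cres_frob {Ω κ : Type} [Field Ω] [Field κ] {s : ℕ} (hs : FinB κ s) (β : κ →+* Ω)
    (γ : Ω →+* Ω) (hγ : ∀ z : κ, z ^ s = z → γ (β z) = β z) {n : ℕ} (hn : 0 < n) :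
    ∃ f, ∀ z : κ, z ^ s ^ n = z → γ (β z) = β (z ^ s ^ f) := by
  have hs1 : 1 < s := by
    obtain ⟨p, r, hp, -, hr, rfl⟩ := hs.ex
    exact Nat.one_lt_pow hr.ne' hp.one_lt
  have hN : 1 < s ^ n := Nat.one_lt_pow hn.ne' hs1
  obtain ⟨N, hN'⟩ : ∃ N, s ^ n = N + 1 := ⟨s ^ n - 1, by omega⟩
  have : NeZero N := ⟨by omega⟩
  obtain ⟨g, hg⟩ := IsCyclic.exists_monoid_generator (α := rootsOfUnity N κ)
  have h1 : ((g : κˣ) : κ) ^ s ^ n = (g : κˣ) := by
    rw [hN', pow_succ, (mem_rootsOfUnity' _ _).1 g.2, one_mul]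
  obtain ⟨f, hf⟩ := cres_conj hs β γ hγ hn h1
  refine ⟨f, fun z hz => ?_⟩
  by_cases h0 : z = 0
  · rw [h0, zero_pow (pow_pos (by omega) f).ne', map_zero, map_zero]
  have h2 : z ^ N = 1 := by
    rw [hN', pow_succ] at hz
    exact mul_right_cancel₀ h0 (hz.trans (one_mul z).symm)
  obtain ⟨k, hk⟩ := hg ⟨Units.mk0 z h0, (mem_rootsOfUnity' _ _).2 h2⟩
  have h3 : z = ((g : κˣ) : κ) ^ k := by
    have := congrArg (fun u : rootsOfUnity N κ => ((u : κˣ) : κ)) hk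
    simpa using this.symm
  rw [h3, map_pow, map_pow, hf, ← map_pow, pow_right_comm]

theorem cres {F Ω κ : Type} [Field F] [Field Ω] [IsAlgClosed Ω] [Field κ] [IsAlgClosed κ]
    {v : Vl F} (hv : Nrm v) {ρ : v.integer →+* Ω} (hρ : IsRed v ρ)
    (halg : ∀ x : Ω, ∃ p : v.integer[X], p.map ρ ≠ 0 ∧ p.eval₂ ρ x = 0) {s : ℕ} (hs : FinB κ s)
    (β : κ →+* Ω) (hβ : ∀ z : κ, z ^ s = z → β z ∈ ρ.range) {a : BR F} {γ₀ : Ω ≃+* Ω}
    (h1 : ∀ z, γ₀ (β z) = β (z ^ s)) (h2 : ResAt v ρ a γ₀ 0)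
    (h0 : ∀ γ : Ω ≃+* Ω, (∀ x, γ (ρ x) = ρ x) → (∀ z, γ (β z) = β z) → ResAt v ρ a γ 0) :
    Unram v a := by
  obtain ⟨R, ρ', -, hρ', hc, -⟩ := id h2
  refine unram_of_resAt hv ⟨R⟩ hρ fun γ hγ => ?_
  have hw := R.idq.isOver R.e_pos
  have hpow : ∀ (f : ℕ) z, (γ₀ ^ f) (β z) = β (z ^ s ^ f) := fun f => by
    induction f with
    | zero => intro z; rw [pow_zero, pow_zero, pow_one]; rfl
    | succ f ih =>
      intro z
      rw [pow_succ, pow_succ', pow_mul, ← ih, ← h1]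
      rfl
  choose f hf using fun m : ℕ => cres_frob hs β (γ : Ω →+* Ω)
    (fun z hz => by
      obtain ⟨x, hx⟩ := hβ z hz
      rw [← hx]
      exact hγ x) (Nat.factorial_pos m)
  let D : ℕ → Ω ≃+* Ω := fun m => (γ₀ ^ f m)⁻¹ * γ
  have hD : ∀ m x, (γ₀ ^ f m) (D m x) = γ x := fun m x => (γ₀ ^ f m).apply_symm_apply (γ x)
  have hDρ : ∀ m x, D m (ρ x) = ρ x := fun m x => (γ₀ ^ f m).injective <| by
    rw [hD, hγ, (h2.pow (f m)).fix]
  have hDβ : ∀ z, ∀ᶠ m in Filter.hyperfilter ℕ, D m (β z) = β z := fun z => by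
    obtain ⟨n, hn, hz⟩ := hs.alg z
    refine Nat.hyperfilter_le_atTop (Filter.eventually_atTop.2 ⟨n, fun m hm => ?_⟩)
    obtain ⟨k, hk⟩ := Nat.dvd_factorial hn hm
    refine (γ₀ ^ f m).injective ?_
    rw [hD, hpow]
    exact hf m z (hk ▸ cres_per hz k)
  obtain ⟨δ, hδ⟩ := cres_hom (Filter.hyperfilter ℕ) D fun x => by
    obtain ⟨T, hT, hx, h⟩ := cres_orb halg x
    exact cres_lim _ _ hT fun m => h (D m : Ω →+* Ω) (hDρ m) hx
  have hδρ : ∀ x, δ (ρ x) = ρ x := fun x => by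
    obtain ⟨m, hm⟩ := (hδ (ρ x)).exists
    rw [← hm, hDρ]
  have hbij : Function.Bijective δ := ⟨δ.injective, fun x => by
    obtain ⟨T, hT, hx, h⟩ := cres_orb halg x
    obtain ⟨y, -, hy⟩ := ((hT.injOn_iff_bijOn_of_mapsTo (h δ hδρ)).1 δ.injective.injOn).surjOn hx
    exact ⟨y, hy⟩⟩
  have h3 := h0 (RingEquiv.ofBijective δ hbij) hδρ fun z => by
    obtain ⟨m, k1, k2⟩ := ((hδ (β z)).and (hDβ z)).exists
    exact k1.symm.trans k2
  choose d hd hd' using fun m => r3_dec hw hρ' hc (hDρ m)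
  obtain ⟨g, hg⟩ := cres_lim (Filter.hyperfilter ℕ) d Set.finite_univ fun _ => Set.mem_univ _
  obtain ⟨m, hm⟩ := hg.exists
  have h4 : Cmp (d m) ρ' ρ' (RingEquiv.ofBijective δ hbij) := fun x y hy => by
    obtain ⟨i, k1, k2⟩ := ((hδ (ρ' x)).and hg).exists
    exact (hd' i x y (by rw [k2, ← hm]; exact hy)).trans k1
  have h5 := (R.isRD.resAt hρ' hc (hd m) h4).uniq h3
  have h6 := (h2.pow (f m)).mul (R.isRD.resAt hρ' hc (hd m) (hd' m))
  rwa [h5, add_zero, nsmul_zero, mul_inv_cancel_left] at h6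

end Pool.Agent.ZCy.F
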