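import Pool.Agent.Lib.MP_751085_ag.ZF.K.Iface
import Pool.Agent.Lib.MP_751085_ag.ZF.L.Iface
import Pool.Agent.Lib.MP_751085_ag.ZF.N.C4
import Pool.Agent.Lib.MP_751085_ag.ZF.N.Iface

/-! Sections of dimension two: the shared definitions and the statements of the blocks. -/

namespace Pool.Agent.ZFy

open Pool.Agent.ZCy
open scoped Classical WithZero Polynomial
open MvPolynomial

section

variable {k ι N : Type} [Field k] [Field N]

/-- `w` is centred at the Gauss valuation of `u` -/
def GauV (u : Vl k) (φ : MP ι k →+* N) (w : Vl N) : Prop :=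
  ∀ p : MP ι k, (∀ m, u (coeff m p) ≤ 1) →
    w (φ p) ≤ 1 ∧ (w (φ p) < 1 ↔ ∀ m, u (coeff m p) < 1)

/-- `N / L` is unramified at the Gauss valuation of `u` -/
def UnG (L : Type) [Field L] [Algebra L N] (u : Vl k) (φ : MP ι k →+* N) : Prop :=
  ∀ w : Vl N, GauV u φ w → Ine L w = ⊥

/-- the coordinates `τ, ξ / π` -/
noncomputable def bl (π : k) : MP (Option ι) k →+* MP (Option ι) k :=
  eval₂Hom C fun i => i.elim (X none) fun j => C π⁻¹ * X (some j)

end

variable {k σ : Type} [Field k] [Fintype σ]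

variable (k σ) in
/-- `EH` is an `l`-extension of the residue field of `T` along the hyperplane -/
def LOverS (l : ℕ) (T EH : Type) [Field T] [Field EH] [Algebra (RF (Option (Option σ)) k) T]
    [Algebra (RF (Option σ) k) EH] : Prop :=
  ∃ (w : Vl T) (ρ : w.integer →+* EH), HRes (k := k) (σ := σ) w ρ (RingHom.id EH) ∧
    LXt l (RF (Option σ) k) (Set.range ρ)

end Pool.Agent.ZFy

namespace Pool.Agent.ZCy

open scoped Classical

/-- `P T a` holds as soon as the slope of `a` satisfies congruences at the places of `T`; the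
finite set `T` can be chosen away from any finite set -/
def Hil {k V : Type} [Field k] (R : V → ValuationSubring k)
    (P : Finset V → (Option Unit → k) → Prop) : Prop :=
  ∀ S : Finset V, ∃ (T : Finset V) (s r : V → k) (B : Finset k), Disjoint S T ∧ (∀ v, r v ≠ 0) ∧
    (∀ v ∈ T, s v ∈ R v ∧ r v ∈ R v) ∧ ∀ a : Option Unit → k, a none ≠ 0 →
      a (some ()) / a none ∉ B → (∀ v ∈ T, (a (some ()) / a none - s v) / r v ∈ R v) → P T a

/-- the semi-local ring -/
def OT {k V : Type} [Field k] (R : V → ValuationSubring k) (T : Finset V) : Subring k :=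
  ⨅ v ∈ T, (R v).toSubring

theorem mem_OT {k V : Type} [Field k] {R : V → ValuationSubring k} {T : Finset V} {x : k} :
    x ∈ OT R T ↔ ∀ v ∈ T, x ∈ R v := by
  simp [OT, Subring.mem_iInf]

namespace F

open Pool.Agent.ZFy Pool.Agent.ZFN MvPolynomial

attribute [local instance] Place.field Place.alg

variable {k : Type} [Field k]

/-- a section of a threefold by a member of the pencil, in coordinates that are integral at `T` -/
structure SecS (X : Var k) (T : Finset (Place k)) (c c' : Chart k (Option Unit) X.N (X.IK k))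
    (Φ : MP (Option Unit) k) (L L' : Matrix (Option Unit) (Option Unit) k) (Y : Gen k X.N)
    (c'' : Chart k Unit X.N (Y.var.IK k)) : Prop where
  int : ∀ v ∈ T, ∀ i j, L i j ∈ v.1 ∧ L' i j ∈ v.1
  lin : c.IsLin c' L L'
  sm : c'.SM (aff 0 L Φ)
  nice : Y.var.Nice 2
  sec : X.Sec Y (c'.f (some (some none)))
  hyp : c'.IsHyp c''
  sm' : c''.SM (hyp0 (aff 0 L Φ))

/-- the class `a` of the surface `Y` is unramified along the blow-up of the curve `ξ = 0` of the
fibre at `v` -/
def BUn {N : ℕ} {Y : Gen k N} (c : Chart k Unit N (Y.var.IK k)) (v : Place k) (a : BR Y.F) : Prop :=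
  ∀ (FY : Type) [Field FY] [Algebra (RF (Option Unit) k) FY] [Algebra k FY] (θ : FY)
    (γ : Y.F →+* FY), Y.var.Fld c FY θ γ → ∀ π : k, plv v π = WithZero.exp (-1) →
    ∀ W : Vl FY, GauV (plv v) ((toE (MP (Option Unit) k) FY).comp (bl π)) W → Unram W (rs γ a)

/-- the `l`-primary classes that are unramified along the blow-ups at `T` lift -/
def LfS (X : Var k) (l : ℕ) (c : Chart k (Option Unit) X.N (X.IK k)) (Φ : MP (Option Unit) k)
    (T : Finset (Place k)) (a : Option Unit → k) : Prop :=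
  ∀ (c' : Chart k (Option Unit) X.N (X.IK k)) (L L' : Matrix (Option Unit) (Option Unit) k)
    (Y : Gen k X.N) (c'' : Chart k Unit X.N (Y.var.IK k)), L' none = a →
    SecS X T c c' Φ L L' Y c'' → ∀ α ∈ Y.var.Bw, Prim l α → (∀ v ∈ T, BUn c'' v α) →
      ∃ b, X.Mt Y α b ∧ Prim l b

/-- the Lefschetz property for the surfaces of a pencil (exported by block L) -/
def LEFs : Prop := ∀ (k : Type) [Field k] (F₀ : Type) [Field F₀] [Finite F₀]
  [Algebra (RatFunc F₀) k] [FiniteDimensional (RatFunc F₀) k] (X : Var k), X.Nice 3 →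
  ∀ l : ℕ, l.Prime → (l : k) ≠ 0 → ∀ (J : Jets k X.N) (c : Chart k (Option Unit) X.N (X.IK k))
    (Φ : MP (Option Unit) k), X.ZCh J c Φ → Hil (fun v : Place k => v.1) (LfS X l c Φ)

/-- Theorem K on a surface of the pencil, without constants and unramified along the blow-ups
(exported by block K) -/
def K9s : Prop := ∀ (k : Type) [Field k] (F₀ : Type) [Field F₀] [Finite F₀]
  [Algebra (RatFunc F₀) k] [FiniteDimensional (RatFunc F₀) k] (X : Var k), X.Nice 3 →
  ∀ (𝒯 : Finset (Place k)) (c c' : Chart k (Option Unit) X.N (X.IK k)) (Φ : MP (Option Unit) k)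
    (L L' : Matrix (Option Unit) (Option Unit) k) (Y : Gen k X.N)
    (c'' : Chart k Unit X.N (Y.var.IK k)), X.GoodV c Φ (OT (fun v : Place k => v.1) 𝒯) →
    constantCoeff Φ ≠ 0 → SecS X 𝒯 c c' Φ L L' Y c'' →
  ∀ π : k, (∀ v ∈ 𝒯, plv v π = WithZero.exp (-1)) →
  ∀ (T TH FY : Type) [Field T] [Field TH] [Field FY] [Algebra (RF (Option (Option Unit)) k) T]
    [Algebra (RF (Option Unit) k) TH] [FiniteDimensional (RF (Option Unit) k) TH]
    [IsGalois (RF (Option Unit) k) TH] [Algebra (RF (Option Unit) k) FY] [Algebra k FY] (w : Vl T)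
    (ρ : w.integer →+* TH) (θ : FY) (γ : Y.F →+* FY) (l : ℕ), Y.var.Fld c'' FY θ γ → l.Prime →
    (l : k) ≠ 0 → (c'.χ.map (toE (MP (Option (Option Unit)) k) T)).Splits →
    KZ l c'.toPChart (aff 0 L Φ) T → HRes (k := k) (σ := Unit) w ρ (RingHom.id TH) →
    Function.Surjective ρ →
    UnrOff (RF (Option Unit) k) (toE (MP (Option Unit) k) TH) (hyp (c'.brs (aff 0 L Φ))) →
    (∃ ζ : TH, IsPrimitiveRoot ζ l) →
    (c.top.map ((toE (MP (Option Unit) k) TH).comp C)).Splits →
    (∀ v ∈ 𝒯, UnG (RF (Option Unit) k) (plv v) ((toE (MP (Option Unit) k) TH).comp (bl π))) →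
  ∀ α ∈ Y.var.Bw, Prim l α → (∀ v ∈ 𝒯, BUn c'' v α) →
    ∃ R : MuC (hyp (c'.brs (aff 0 L Φ))) FY, cls FY R.c = rs γ α ∧ (∃ r, R.m = l ^ r) ∧
      LOverS k Unit l T R.E ∧
      ∀ v ∈ 𝒯, UnG (RF (Option Unit) k) (plv v) ((toE (MP (Option Unit) k) R.E).comp (bl π))

end F

end Pool.Agent.ZCy
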