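import Pool.Agent.Lib.MP_879916_ag.SS.KDefs

/-! Gauss valuations and blow-ups. -/

namespace Pool.Agent.ZFy

open Pool.Agent.ZCy
open scoped Classical WithZero Polynomial
open MvPolynomial

section ring

variable {R S σ : Type} [CommRing R] [CommRing S]

theorem gau_ub_C (π a : R) : ub π (C a : MP (Option σ) R) = C a := by simp [ub, subO]

theorem gau_ub0_C (π a : R) : ub0 π (C a : MP σ R) = C a := by simp [ub0]

theorem gau_ub_none (π : R) : ub π (X none : MP (Option σ) R) = X none := by simp [ub, subO]

theorem gau_ub_some (π : R) (j : σ) : ub π (X (some j) : MP (Option σ) R) = C π * X (some j) := by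
  simp [ub, subO]

theorem gau_ub0_X (π : R) (j : σ) : ub0 π (X j : MP σ R) = C π * X j := by simp [ub0]

theorem gau_coeff (π : R) (p : MP (Option σ) R) (m : Option σ →₀ ℕ) :
    coeff m (ub π p) = (m.prod fun i n => (i.elim 1 fun _ => π) ^ n) * coeff m p := by
  have key : ∀ (s : Option σ →₀ ℕ) (c : R), ub π (monomial s c) =
      C (s.prod fun i n => (i.elim 1 fun _ => π) ^ n) * monomial s c := by
    intro s c
    have e : ∀ i : Option σ, ub π (X i : MP (Option σ) R) = C (i.elim 1 fun _ => π) * X i := by
      intro i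
      cases i with
      | none => rw [gau_ub_none]; simp
      | some j => rw [gau_ub_some]; rfl
    rw [monomial_eq, map_mul, gau_ub_C, Finsupp.prod, Finsupp.prod, map_prod, map_prod]
    simp only [map_pow, e, mul_pow, Finset.prod_mul_distrib]
    ring
  induction p using MvPolynomial.induction_on' with
  | monomial s c =>
    rw [key, coeff_C_mul, coeff_monomial]
    split_ifs with h
    · rw [h]
    · simp
  | add p q hp hq => rw [map_add, coeff_add, coeff_add, hp, hq, mul_add]

theorem ub_up (π : R) (p : MP σ R) : ub π (up p) = up (ub0 π p) := by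
  apply (optionEquivLeft R σ).injective
  change tp _ = tp _
  rw [ub, tp_subO, tp_up, tp_up, Polynomial.map_C]
  rfl

theorem tp_ub (π : R) (p : MP (Option σ) R) : tp (ub π p) = (tp p).map (ub0 π) := by
  rw [ub, tp_subO]
  rfl

theorem map_ub (φ : R →+* S) (π : R) (p : MP (Option σ) R) :
    map φ (ub π p) = ub (φ π) (map φ p) := by
  have : (map φ).comp (ub π) = (ub (φ π) : MP (Option σ) S →+* _).comp (map φ) := by
    refine MvPolynomial.ringHom_ext (fun a => ?_) fun i => ?_
    · simp [gau_ub_C]
    · cases i <;> simp [gau_ub_none, gau_ub_some]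
  exact DFunLike.congr_fun this p

theorem map_ub0 (φ : R →+* S) (π : R) (p : MP σ R) : map φ (ub0 π p) = ub0 (φ π) (map φ p) := by
  have : (map φ).comp (ub0 π) = (ub0 (φ π) : MP σ S →+* _).comp (map φ) := by
    refine MvPolynomial.ringHom_ext (fun a => ?_) fun i => ?_
    · simp [gau_ub0_C]
    · simp [gau_ub0_X]
  exact DFunLike.congr_fun this p

theorem ub_ub (a b : R) (p : MP (Option σ) R) : ub a (ub b p) = ub (a * b) p := by
  have : (ub a).comp (ub b) = (ub (a * b) : MP (Option σ) R →+* _) := by
    refine MvPolynomial.ringHom_ext (fun c => ?_) fun i => ?_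
    · simp only [RingHom.comp_apply, gau_ub_C]
    · cases i with
      | none => simp only [RingHom.comp_apply, gau_ub_none]
      | some j =>
        simp only [RingHom.comp_apply, gau_ub_some, gau_ub_C, map_mul]
        ring
  exact DFunLike.congr_fun this p

theorem ub0_ub0 (a b : R) (p : MP σ R) : ub0 a (ub0 b p) = ub0 (a * b) p := by
  have : (ub0 a).comp (ub0 b) = (ub0 (a * b) : MP σ R →+* _) := by
    refine MvPolynomial.ringHom_ext (fun c => ?_) fun i => ?_
    · simp only [RingHom.comp_apply, gau_ub0_C]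
    · simp only [RingHom.comp_apply, gau_ub0_X, gau_ub0_C, map_mul]
      ring
  exact DFunLike.congr_fun this p

theorem ub_one (p : MP (Option σ) R) : ub 1 p = p := by
  have : (ub 1 : MP (Option σ) R →+* _) = RingHom.id _ := by
    refine MvPolynomial.ringHom_ext (fun c => ?_) fun i => ?_
    · simp only [gau_ub_C, RingHom.id_apply]
    · cases i <;> simp [gau_ub_none, gau_ub_some]
  exact DFunLike.congr_fun this p

theorem ub0_one (p : MP σ R) : ub0 1 p = p := by
  have : (ub0 1 : MP σ R →+* _) = RingHom.id _ := by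
    refine MvPolynomial.ringHom_ext (fun c => ?_) fun i => ?_
    · simp only [gau_ub0_C, RingHom.id_apply]
    · simp [gau_ub0_X]
  exact DFunLike.congr_fun this p

theorem ub_C (π a : R) : ub π (C a : MP (Option σ) R) = C a := by
  exact gau_ub_C π a

theorem ub0_C (π a : R) : ub0 π (C a : MP σ R) = C a := by
  exact gau_ub0_C π a

theorem constantCoeff_ub0 (π : R) (p : MP σ R) : constantCoeff (ub0 π p) = constantCoeff p := by
  have : (constantCoeff : MP σ R →+* R).comp (ub0 π) = constantCoeff := by
    refine MvPolynomial.ringHom_ext (fun c => ?_) fun i => ?_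
    · simp [gau_ub0_C]
    · simp [gau_ub0_X]
  exact DFunLike.congr_fun this p

theorem eval₂_ub (φ : R →+* S) (π : R) (y : Option σ → S) (p : MP (Option σ) R) :
    eval₂ φ y (ub π p) = eval₂ φ (fun i => i.elim (y none) fun j => φ π * y (some j)) p := by
  have : (eval₂Hom φ y).comp (ub π) =
      eval₂Hom φ (fun i : Option σ => i.elim (y none) fun j => φ π * y (some j)) := by
    refine MvPolynomial.ringHom_ext (fun c => ?_) fun i => ?_
    · simp [gau_ub_C]
    · cases i <;> simp [gau_ub_none, gau_ub_some]
  exact DFunLike.congr_fun this p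

theorem ub_aff [Fintype σ] (π : R) (p : MP (Option σ) R) :
    aff 0 (extM (π • (1 : Matrix σ σ R))) p = ub π p := by
  have : (aff 0 (extM (π • (1 : Matrix σ σ R))) : MP (Option σ) R →+* MP (Option σ) R) =
      ub π := by
    refine MvPolynomial.ringHom_ext (fun c => ?_) fun i => ?_
    · simp [aff, gau_ub_C]
    · cases i with
      | none => simp [aff, extM, gau_ub_none, Fintype.sum_option]
      | some j =>
        simp [aff, extM, gau_ub_some, Fintype.sum_option, Matrix.one_apply, apply_ite C]
  exact DFunLike.congr_fun this p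

theorem line_ub (φ : R →+* S) (π : R) (p : MP (Option σ) R) :
    line φ 0 (eT σ S) (ub π p) = line φ 0 (eT σ S) p := by
  have : (line φ 0 (eT σ S)).comp (ub π) = line φ 0 (eT σ S) := by
    refine MvPolynomial.ringHom_ext (fun c => ?_) fun i => ?_
    · simp only [RingHom.comp_apply, gau_ub_C]
    · cases i <;> simp [gau_ub_none, gau_ub_some, line]
  exact DFunLike.congr_fun this p

/-- modulo `π` the blow-up depends on `τ` only -/
theorem map_ub_tau (φ : R →+* S) {π : R} (h : φ π = 0) (p : MP (Option σ) R) :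
    map φ (ub π p) = tau σ (line φ 0 (eT σ S) p) := by
  have : (map φ).comp (ub π) = (tau σ).comp (line φ 0 (eT σ S)) := by
    refine MvPolynomial.ringHom_ext (fun c => ?_) fun i => ?_
    · simp [gau_ub_C, tau, line]
    · cases i <;> simp [gau_ub_none, gau_ub_some, line, tau, h]
  exact DFunLike.congr_fun this p

theorem line_tau (p : R[X]) : line (RingHom.id R) 0 (eT σ R) (tau σ p) = p := by
  have : (line (RingHom.id R) 0 (eT σ R)).comp (tau σ) = RingHom.id _ := by
    refine Polynomial.ringHom_ext (fun c => ?_) ?_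
    · simp [tau, line]
    · simp [tau, line]
  exact DFunLike.congr_fun this p

theorem exists_isBl [Nontrivial R] (π : R) (c : PChart R σ) : ∃ q, IsBl π c q := by
  refine ⟨c.sub (RingHom.id R) (fun j => C π * X j) (fun j => ?_) (fun j => by simp),
    rfl, rfl, rfl, rfl⟩
  exact (totalDegree_mul _ _).trans (by
    rw [totalDegree_C, zero_add]
    exact totalDegree_X_le j)

theorem _root_.Pool.Agent.ZCy.IsBl.brs {π : R} {c q : PChart R σ} (h : IsBl π c q) (Φ : MP σ R) :
    q.brs (ub0 π Φ) = ub π (c.brs Φ) := by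
  rw [PChart.brs, PChart.brs, h.Ψ, map_mul, ub_up]

theorem _root_.Pool.Agent.ZCy.IsBl.top {π : R} {c q : PChart R σ} (h : IsBl π c q) : q.top = c.top := by
  rw [PChart.top, PChart.top, h.δ, h.χ]
  refine Finset.sum_congr rfl fun i _ => ?_
  rw [Polynomial.coeff_map, coeff_single_none, coeff_single_none, tp_ub, Polynomial.coeff_map,
    constantCoeff_ub0]

theorem _root_.Pool.Agent.ZCy.IsBl.good {π : R} {c q : PChart R σ} (h : IsBl π c q) {Φ : MP σ R} (hG : GoodM c Φ) :
    GoodM q (ub0 π Φ) := by
  intro A KK F _ _ _ _ _ _ η α ψ θ l h1 h2 h3 h4 h5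
  refine hG A KK F (η.comp (ub0 π)) α ψ θ l h1 h2 ?_ h4 h5
  have e : (cχ q).map (Polynomial.mapRingHom (α.comp η)) =
      (cχ c).map (Polynomial.mapRingHom (α.comp (η.comp (ub0 π)))) := by
    rw [cχ, cχ, h.χ, Polynomial.map_map, Polynomial.map_map, Polynomial.map_map]
    congr 1
    refine RingHom.ext fun p => ?_
    change (tp (ub π p)).map (α.comp η) = (tp p).map (α.comp (η.comp (ub0 π)))
    rw [tp_ub, Polynomial.map_map]
    rfl
  rwa [e] at h3

end ring

variable {k ι N : Type} [Field k] [Field N]

theorem bl_eq (π : k) : (bl π : MP (Option ι) k →+* MP (Option ι) k) = ub π⁻¹ := by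
  refine MvPolynomial.ringHom_ext (fun c => ?_) fun i => ?_
  · simp [bl, gau_ub_C]
  · cases i <;> simp [bl, gau_ub_none, gau_ub_some]

/-- the Gauss valuation in terms of a subring that is dense at `u` -/
theorem gauV_cen {u : Vl k} {O : Subring k} {p : O} (h1 : ∀ a : O, u a ≤ 1)
    (hp : ∀ a : O, p ∣ a ↔ u a < 1) (hd : ∀ x : k, u x ≤ 1 → ∃ t a : O, u t = 1 ∧ x * t = a)
    (ψ : MP ι k →+* N) (w : Vl N) :
    GauV u ψ w ↔ Cen (ψ.comp (map O.subtype)) w (C p) := by
  constructor
  · intro H
    have hc : ∀ (a : MP ι O) m, u (coeff m (map O.subtype a)) ≤ 1 := fun a m => by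
      rw [coeff_map]; exact h1 _
    refine ⟨fun a => (H _ (hc a)).1, fun a => ((H _ (hc a)).2).trans ?_⟩
    rw [C_dvd_iff_dvd_coeff]
    refine forall_congr' fun m => ?_
    rw [coeff_map, hp]
    rfl
  · rintro ⟨H1, H2⟩ q hq
    have hs : ∀ s : Finset (ι →₀ ℕ), ∃ t : O, u t = 1 ∧ ∀ m ∈ s, ∃ a : O, coeff m q * t = a := by
      intro s
      induction s using Finset.induction_on with
      | empty => exact ⟨1, by simp, by simp⟩
      | insert m s _ ih =>
        obtain ⟨t, ht, hs⟩ := ih
        obtain ⟨t', a', ht', ha'⟩ := hd _ (hq m)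
        refine ⟨t * t', by rw [Subring.coe_mul, map_mul, ht, ht', one_mul], fun n hn => ?_⟩
        rcases Finset.mem_insert.1 hn with rfl | hn
        · exact ⟨t * a', by rw [Subring.coe_mul, Subring.coe_mul, ← ha']; ring⟩
        · obtain ⟨a, ha⟩ := hs n hn
          exact ⟨a * t', by rw [Subring.coe_mul, Subring.coe_mul, ← ha]; ring⟩
    obtain ⟨t, ht, hA⟩ := hs q.support
    have hA' : ∀ m, ∃ a : O, coeff m q * t = a := fun m => by
      by_cases hm : m ∈ q.support
      · exact hA m hm
      · exact ⟨0, by rw [notMem_support_iff.1 hm]; simp⟩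
    choose A hA' using hA'
    set a : MP ι O := ∑ m ∈ q.support, monomial m (A m) with ha
    have hca : ∀ m, ((coeff m a : O) : k) = coeff m q * t := fun m => by
      rw [ha, coeff_sum]
      simp only [coeff_monomial]
      rw [Finset.sum_ite_eq']
      split_ifs with hm
      · exact (hA' m).symm
      · rw [notMem_support_iff.1 hm]; simp
    have e : map O.subtype a = q * map O.subtype (C t) := by
      ext m
      rw [coeff_map, map_C, mul_comm q, coeff_C_mul, mul_comm]
      exact hca m
    have e1 : w (ψ (map O.subtype (C t))) = 1 := by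
      refine le_antisymm (H1 (C t)) (not_lt.1 fun hlt => ?_)
      have h2 := (H2 (C t)).1 hlt
      rw [C_dvd_iff_dvd_coeff] at h2
      have h3 := (hp _).1 (h2 0)
      rw [coeff_zero_C, ht] at h3
      exact lt_irrefl _ h3
    have e2 : w (ψ q) = w ((ψ.comp (map O.subtype)) a) := by
      rw [RingHom.comp_apply, e, map_mul, map_mul, e1, mul_one]
    rw [e2]
    refine ⟨H1 a, (H2 a).trans ?_⟩
    rw [C_dvd_iff_dvd_coeff]
    refine forall_congr' fun m => ?_
    rw [hp, hca, map_mul, ht, mul_one]

/-- the blow-up does not depend on the uniformiser -/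
theorem gauV_scale {u : Vl k} {π π' : k} (h : u π = u π') (h0 : π ≠ 0)
    (φ : MP (Option ι) k →+* N) (w : Vl N) (hw : GauV u (φ.comp (bl π)) w) :
    GauV u (φ.comp (bl π')) w := by
  have hu0 : u π ≠ 0 := (Valuation.ne_zero_iff u).2 h0
  have h0' : π' ≠ 0 := (Valuation.ne_zero_iff u).1 (h ▸ hu0)
  have hu : u (π / π') = 1 := by rw [map_div₀, ← h, div_self hu0]
  have hc : ∀ (p : MP (Option ι) k) m, u (coeff m (ub (π / π') p)) = u (coeff m p) := by
    intro p m
    rw [gau_coeff, map_mul, Finsupp.prod, map_prod, Finset.prod_eq_one, one_mul]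
    intro i _
    cases i with
    | none => simp
    | some j => rw [map_pow]; exact (congrArg (· ^ _) hu).trans (one_pow _)
  intro p hp
  have e : (φ.comp (bl π')) p = (φ.comp (bl π)) (ub (π / π') p) := by
    rw [RingHom.comp_apply, RingHom.comp_apply, bl_eq, bl_eq, ub_ub]
    congr 3
    field_simp
  rw [e]
  have := hw (ub (π / π') p) fun m => by rw [hc]; exact hp m
  simpa only [hc] using this

end Pool.Agent.ZFy
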