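import Pool.Agent.Lib.MP_879916_ag.SS.ConnB
import Pool.Agent.Lib.MP_879916_ag.SS.Gau
import Pool.Agent.Lib.MP_751085_ag.ZF.T.Geo

/-! The residue along the blow-up is geometrically trivial, or it separates two points of the
fibre curve. -/

namespace Pool.Agent.ZCy

open scoped Classical Polynomial
open Pool.Agent.ZFy

theorem twoB {κ : Type} [Field κ] [IsAlgClosed κ] {χ : κ[X][X]} (hm : χ.Monic) {l r : ℕ}
    (hl : l.Prime) (hk : (l : κ) ≠ 0) {Θ : κ[X]} (hΘ : Θ ≠ 0) {θ₀ : OB (Option Unit) κ}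
    (hθ : χ.eval₂ ((toE (MP (Option Unit) κ) _).comp (tau Unit)) θ₀ = 0)
    (E₀ : IntermediateField (RF (Option Unit) κ) (OB (Option Unit) κ))
    [FiniteDimensional (RF (Option Unit) κ) E₀] [IsGalois (RF (Option Unit) κ) E₀]
    (hU : UnrOff (RF (Option Unit) κ) (toE (MP (Option Unit) κ) E₀) (tau Unit Θ)) (hE : θ₀ ∈ E₀)
    {A : Type} [AddCommGroup A]
    {V : (OB (Option Unit) κ ≃ₐ[RF (Option Unit) κ] OB (Option Unit) κ) → A → Prop}
    (hV : IsChar θ₀ (l ^ r) V) (h1 : ∀ γ, (∀ x ∈ E₀, γ x = x) → V γ 0)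
    {g₀ : OB (Option Unit) κ ≃ₐ[RF (Option Unit) κ] OB (Option Unit) κ} (h3 : g₀ θ₀ = θ₀)
    (h4 : ¬V g₀ 0) :
    ∃ g : OB (Option Unit) κ ≃ₐ[RF (Option Unit) κ] OB (Option Unit) κ, g θ₀ = θ₀ ∧ ¬V g 0 ∧
      LineG E₀ 0 (eT Unit κ) (g.restrictNormal E₀) := by
  obtain ⟨F, E, _, _, _, _, _, _, _, _, _, _, θ, i, hF, e, hp, hi⟩ := e1_field hV E₀ hE h1
  have hB : ∀ a, i (algebraMap (RF (Option Unit) κ) E a) = algebraMap _ E₀ a := fun a => by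
    rw [IsScalarTower.algebraMap_apply _ F E, i.commutes, ← IsScalarTower.algebraMap_apply]
  let φ : F →ₐ[RF (Option Unit) κ] OB (Option Unit) κ := E₀.val.comp (IsScalarTower.toAlgHom _ F E₀)
  have hF' : χ.eval₂ ((toE (MP (Option Unit) κ) F).comp (tau Unit)) θ = 0 := φ.injective <| by
    change (φ : F →+* OB (Option Unit) κ) _ = _
    rw [Polynomial.hom_eval₂, map_zero, show (φ : F →+* OB (Option Unit) κ) θ = θ₀ from e, ← hθ]
    exact congrArg (Polynomial.eval₂ · θ₀ χ) (RingHom.ext fun p => φ.commutes _)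
  have e' : (i (algebraMap F E θ) : OB (Option Unit) κ) = θ₀ := by rw [i.commutes, e]
  have hp' : ∀ p, toE (MP (Option Unit) κ) E₀ p = (i : E →+* E₀) (toE (MP (Option Unit) κ) E p) :=
    fun p => (hB _).symm
  obtain ⟨W, w1, w2, hW⟩ := connB hm hF' hF hl hk (fun g => ⟨r, hp g⟩) hΘ fun P u hP hd hu =>
    tf_unr_sub (L := RF (Option Unit) κ) (i : E →+* E₀)
      (fun a => ⟨algebraMap _ F a, (congrArg i (IsScalarTower.algebraMap_apply _ F E a).symm).trans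
        (hB a)⟩) fun u' ho => hU P u' hP hd
          ((RingHom.ext hp' : _ = (i : E →+* E₀).comp _) ▸ (cen_of_over ho).2 hu)
  obtain ⟨W₀, g, ho, hg, hd⟩ := tftwo_dec E₀ hF i hW (g₀ := g₀) (e.symm ▸ h3)
  have h5 : g θ₀ = θ₀ := by rw [← e', hg, e', h3]
  refine ⟨g, h5, fun h => h4 ((hi g₀ h3).2 fun x => (hg x).symm.trans ((hi g h5).1 h x)),
    zlF (W := W₀) hU (fun h => ?_) (by rwa [line_tau]) (fun p => ?_) (fun p => ?_) hd⟩
  · simpa using congrFun h none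
  · rw [hp', ho]
    exact w1 p
  · rw [hp', ho.lt_one]
    exact w2 p

namespace F

variable {O K κ F : Type} [CommRing O] [IsDomain O] [IsDiscreteValuationRing O] [Field K]
  [Algebra O K] [IsFractionRing O K] [Field κ] [IsAlgClosed κ] [Field F]
  [Algebra (RF (Option Unit) K) F] {s l : ℕ} {ρ : O →+* κ} {π : O} {c₀ q : PChart O Unit}
  {c : PChart K Unit} {θ : F} {v : Vl F} {θ₀ : OB (Option Unit) κ}
  {ρ₀ : v.integer →+* OB (Option Unit) κ} {a : BR F}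

theorem geoB (hs : FinB κ s) (hρ : LRes ρ s) (hq : IsBl π c₀ q) (h : XH π ρ q c θ)
    (g : GenR K π ρ θ v θ₀ ρ₀) {Φ₀ : MP Unit O} (hΦ : IsUnit (MvPolynomial.constantCoeff Φ₀))
    (hi : Irreducible ((q.χ.map (line (RingHom.id O) 0 (eT Unit O))).map
      (Polynomial.mapRingHom ρ))) (hl : l.Prime) (hu : IsUnit (l : O)) (h0 : Prim l a)
    (T : TRep K π (q.brs (ub0 π Φ₀)) F a) :
    (HasRes v a ∧ ∀ γ : OB (Option Unit) κ ≃ₐ[RF (Option Unit) κ] OB (Option Unit) κ,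
      γ θ₀ = θ₀ → ResAt v ρ₀ a γ.toRingEquiv 0) ∨
      TwoPt K ρ s q.χ (q.brs (ub0 π Φ₀)) 0 (eT Unit O) θ v a := by
  obtain ⟨hb, r, hD⟩ := q.bez_brs (ub0 π Φ₀)
  have hv : Nrm v := g.cen.nrm
  have hΦ₁ : IsUnit (MvPolynomial.constantCoeff (ub0 π Φ₀)) := by rwa [constantCoeff_ub0]
  have hΦ' : MvPolynomial.constantCoeff ((ub0 π Φ₀).map ρ) ≠ 0 := by
    rw [MvPolynomial.constantCoeff_map]
    exact (hΦ₁.map ρ).ne_zero
  obtain ⟨hres, E₀, _, _, hU, hθ, htriv⟩ := exists_E0 hs g h hb hD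
    (mt (mp_ker h.ker h.irr _).2 (tfge_brs ρ _ fun e => hΦ' (by rw [e, map_zero]))) T
  by_cases hc : ∀ γ : OB (Option Unit) κ ≃ₐ[RF (Option Unit) κ] OB (Option Unit) κ,
      γ θ₀ = θ₀ → ResAt v ρ₀ a γ.toRingEquiv 0
  · exact Or.inl ⟨hres, hc⟩
  obtain ⟨g₁, hc⟩ := not_forall.1 hc
  obtain ⟨hg₁, hne₁⟩ := Classical.not_imp.1 hc
  have fx : ∀ γ : OB (Option Unit) κ ≃ₐ[RF (Option Unit) κ] OB (Option Unit) κ, γ θ₀ = θ₀ →
      ∀ x, γ.toRingEquiv (ρ₀ x) = ρ₀ x := fun γ e => g.fixF h (fun _ => γ.commutes _) e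
  obtain ⟨N, ha⟩ := id h0
  have hL := tfge_line ρ q hΦ₁
  have e0 : (fun i => ρ ((0 : Option Unit → O) i)) = 0 := funext fun _ => map_zero ρ
  have e1 : (fun i => ρ (eT Unit O i)) = eT Unit κ := funext fun i => by cases i <;> simp
  have hπ : ρ π = 0 := (h.ker π).2 h.irr.not_isUnit
  have hU' := hU
  rw [hq.brs, map_ub_tau ρ hπ] at hU'
  obtain ⟨g₀, hg₀, hne, hG⟩ := twoB (χ := c₀.χ.map (line ρ 0 (eT Unit κ))) (c₀.monic.map _)
    (r := N) hl (by simpa using (hu.map ρ).ne_zero) (by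
      rw [tcf_map_line, e0, e1, hq.brs, line_ub] at hL
      exact hL) (θ₀ := θ₀) (by
      have := g.rootF h
      rw [hq.χ, Polynomial.eval₂_map] at this
      rw [Polynomial.eval₂_map, ← this]
      exact congrArg (c₀.χ.eval₂ · θ₀) (RingHom.ext fun p =>
        congrArg (toE (MP (Option Unit) κ) _) (map_ub_tau ρ hπ p).symm)) E₀ hU' hθ
    (V := fun γ q => ResAt v ρ₀ a γ.toRingEquiv q ∧ γ θ₀ = θ₀)
    ⟨fun _ _ k => k.2, fun γ e => (nr_exists hres g.red (fx γ e)).imp fun _ k => ⟨k, e⟩,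
      fun _ _ _ k k' => nr_uniq hv k.1 k'.1,
      fun _ _ _ _ k k' => ⟨nr_mul hv k.1 k'.1, by rw [AlgEquiv.mul_apply, k'.2, k.2]⟩,
      fun γ _ k => resAt_tors hv g.red (fx γ k.2) k.1 ha⟩
    (fun γ e => ⟨htriv _ e, e _ hθ⟩) hg₁ fun k => hne₁ k.1
  obtain ⟨q', hq'⟩ := nr_exists hres g.red (fx g₀ hg₀)
  have h1 : ∀ x, ρ x ^ s = ρ x := fun x => (hρ.rng _).1 ⟨x, rfl⟩
  obtain ⟨m, φ, t, z, γ, hm, hφ, hi', hx⟩ := g3bF hs h1 q.monic hb hL hi (g.rootF h) E₀ hθ g₀ hg₀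
    (by rw [e0, e1]; exact hG)
  refine Or.inr ⟨m, t, z, hm, fun i => (hi' i).1, fun φ' Γ ρ' q'' hφ' hΓ hh e => hne ⟨?_, hg₀⟩⟩
  obtain rfl : φ' = φ := RingEquiv.ext fun x => (hφ' x).trans (hφ x).symm
  have h2 : (φ' : κ →+* κ).comp ρ = ρ := RingHom.ext fun x => (hφ _).trans (by
    clear hφ hφ' hi' hm
    induction m with
    | zero => rw [pow_zero, pow_one]
    | succ m ih => rw [pow_succ, pow_mul, ih, h1])
  choose p hp using fun i => nr_exists hres g.red (g.fixF h (γ := γ i)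
    (fun Q => by rw [(hi' i).2.2.1, MvPolynomial.map_map, h2]) (hi' i).2.1)
  have h3 : ∀ i, q'' i = p i := fun i =>
    genR_link g h hb (hi' i).1.off (hi' i).2.2.2 hΓ (hh i).2.1 (hp i) (hh i).2.2
  have h4 := nr_mul hv (hp 1) (htriv ((γ 1)⁻¹ * (γ 0 * g₀.toRingEquiv)) fun x hx' =>
    (γ 1).symm_apply_eq.2 (hx x hx').symm)
  rw [mul_inv_cancel_left, ← h3, ← e, h3] at h4
  exact add_left_cancel (nr_uniq hv (nr_mul hv (hp 0) hq') h4) ▸ hq'

end F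

end Pool.Agent.ZCy
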