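import Pool.Agent.Lib.MP_751085_ag.ZF.R3b
import Pool.Agent.Lib.MP_751085_ag.ZF.K.WrA
import Pool.Agent.Lib.MP_751085_ag.ZC.R2
import Pool.Agent.Lib.MP_751085_ag.ZC.G4

/-! A class whose order is prime to the residue characteristic has a residue. -/

namespace Pool.Agent.ZCy.F

open scoped Classical WithZero
open groupCohomology Subgroup Polynomial

/-- a cocycle killed by `N` that is a coboundary on all subgroups of prime power order for the
primes of `N` is a coboundary -/
theorem hr_sylow {G A : Type} [Group G] [CommGroup A] [MulDistribMulAction G A] {D : Subgroup G}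
    [Finite D] {c : G × G → A} (hc : CocOn D c) {N : ℕ} (h0 : N ≠ 0) (hN : CobOn D (c ^ N))
    (h : ∀ l k : ℕ, l.Prime → l ∣ N → ∀ H : Subgroup G, H ≤ D → Nat.card H = l ^ k → CobOn H c) :
    CobOn D c := by
  have key : ∀ m : ℕ, m ∣ N → CobOn D (c ^ m) → CobOn D c := fun m => by
    induction m using Nat.strong_induction_on with
    | _ m ih =>
      intro hm hb
      by_cases h1 : m = 1
      · rwa [h1, pow_one] at hb
      have m0 : 0 < m := Nat.pos_of_dvd_of_pos hm (Nat.pos_of_ne_zero h0)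
      have hp := Nat.minFac_prime h1
      have := Fact.mk hp
      obtain ⟨P⟩ : Nonempty (Sylow m.minFac D) := inferInstance
      obtain ⟨k, hk⟩ := P.isPGroup'.exists_card_eq
      have hle : (P : Subgroup D).map D.subtype ≤ D := map_subtype_le _
      have h2 := (h _ k hp ((Nat.minFac_dvd m).trans hm) _ hle
        ((card_map_of_injective D.subtype_injective).trans hk)).transfer hle hc
      have h3 : ((P : Subgroup D).map D.subtype).relIndex D = (P : Subgroup D).index := by
        rw [relIndex, subgroupOf, comap_map_eq_self_of_injective D.subtype_injective]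
      rw [h3] at h2
      have h4 := P.not_dvd_index
      generalize (P : Subgroup D).index = i at h2 h4
      have g0 : 0 < m.gcd i := Nat.gcd_pos_of_pos_left _ m0
      refine ih (m.gcd i) ((Nat.gcd_le_left _ m0).lt_of_ne fun e =>
        h4 ((Nat.minFac_dvd m).trans (e ▸ Nat.gcd_dvd_right m i)))
        ((Nat.gcd_dvd_left m i).trans hm) ?_
      refine CobOn.of_coprime (m := m / m.gcd i) (n := i / m.gcd i) ?_ ?_
        (Nat.coprime_div_gcd_div_gcd g0)
      · rwa [← pow_mul, Nat.mul_div_cancel' (Nat.gcd_dvd_left m i)]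
      · rwa [← pow_mul, Nat.mul_div_cancel' (Nat.gcd_dvd_right m i)]
  exact key N dvd_rfl hN

theorem hasRes_of_unit {K : Type} [Field K] {v : Vl K} {N : ℕ} (hN : v (N : K) = 1) {a : BR K}
    (ha : N • a = 0) : HasRes v a := by
  have N0 : N ≠ 0 := by rintro rfl; simp at hN
  obtain ⟨L, _, _, c, -, hc, rfl⟩ := exists_cls a ∅
  obtain ⟨w₀, hw₀⟩ := vn_exists (E := L) v
  have n0 : ∀ s : L ≃ₐ[K] L, orderOf s ≠ 0 := fun s => (orderOf_pos s).ne'
  choose! f h1 h2 h3 using fun s (hs : s ∈ Ine K w₀ ∧ w₀ (orderOf s : L) = 1) =>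
    r2_unit hc hs.1 hs.2
  obtain ⟨E, _, _, _, _, j, hj, hs⟩ := exists_big (E := L) (RingHom.id K)
    ((Finset.univ.filter fun s : L ≃ₐ[K] L => w₀ (orderOf s : L) = 1).image
      fun s => X ^ orderOf s - C (f s : L)) (fun p hp => by
      obtain ⟨s, hs, rfl⟩ := Finset.mem_image.1 hp
      refine separable_X_pow_sub_C _ (fun h => ?_) (f s).ne_zero
      have := (Finset.mem_filter.1 hs).2
      rw [h, map_zero] at this
      exact zero_ne_one this)
  obtain ⟨r, -, hr⟩ := exists_lk_of hj
  let := j.toAlgebra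
  have : IsScalarTower K L E := .of_algebraMap_eq fun a => (hj a).symm
  have : FiniteDimensional L E := Module.Finite.of_restrictScalars_finite K L E
  obtain ⟨w, hw⟩ := vn_exists (E := E) w₀
  have hw' : Over (algebraMap K E) v w := fun x => (hj x ▸ hw _ :).trans (hw₀ x)
  have hNw : w (N : E) = 1 := by rw [← map_natCast (algebraMap K E), hw'.eq_one, hN]
  have hrs : cls K c = cls K (pull j r c) := by
    rw [← res_id (cls K c), ← rs, rs_cls _ hj hr hc]
  have hc' := pull_coc hr hc
  rw [hrs] at ha ⊢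
  rw [← cls_pow hc', cls_eq_zero (coc_pow hc' N)] at ha
  refine hasRes_of_cob hw' hc' (hr_sylow (.of_coc hc' _) N0 ((cobOn_top.2 ha).mono le_top)
    fun l k _ hl H hH hk => ?_)
  have hu : w (Nat.card H : E) = 1 := by
    rw [hk, Nat.cast_pow, map_pow, vtam_dvd hl hNw, one_pow]
  obtain ⟨t, ht⟩ := (isCyclic_of_le hH hu).exists_generator
  have hs' := (dec_up hr hw).2 _ (hH t.2)
  have ho : w (orderOf (r t) : E) = 1 := vtam_dvd
    ((orderOf_map_dvd (MonoidHom.mk' r (lk_mul hr)) t.1).trans (orderOf_dvd_natCard _ t.2)) hu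
  have ho' : w₀ (orderOf (r t) : L) = 1 := by
    rw [← hw.eq_one, map_natCast, ho]
  obtain ⟨y, hy⟩ := (hs _ (Finset.mem_image_of_mem _
    (Finset.mem_filter.2 ⟨Finset.mem_univ (r t), ho'⟩))).exists_eval_eq_zero
    (by rw [degree_map, degree_X_pow_sub_C (orderOf_pos _)]; exact Nat.cast_ne_zero.2 (n0 _))
  simp only [Polynomial.map_sub, Polynomial.map_pow, map_X, map_C, eval_sub, eval_pow, eval_X,
    eval_C, sub_eq_zero] at hy
  have y0 : y ≠ 0 := fun h => (f (r t)).ne_zero (j.injective (by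
    rw [← hy, h, zero_pow (n0 _), map_zero]))
  have y1 : t.1 y = y := ine_kum (hH t.2) ((pow_eq_one_iff_of_nonneg zero_le (n0 (r t))).1 (by
    rw [← map_pow, hy]; exact (hw.eq_one _).2 (h1 _ ⟨hs', ho'⟩))) ho (by
    rw [hy, ← hr]; exact congrArg (fun u : Lˣ => j u) (h2 _ ⟨hs', ho'⟩))
  have hz : ∀ g ∈ H, g ∈ zpowers t.1 := fun g hg =>
    (ht ⟨g, hg⟩).imp fun _ h => congrArg Subtype.val h
  have hm : ∀ g ∈ H, r g ∈ zpowers (r t) := fun g hg =>
    (hz g hg).imp fun k h => ((map_zpow (MonoidHom.mk' r (lk_mul hr)) _ k).symm.trans (congrArg r h))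
  have h4 := cyc_root (isOfFinOrder_of_finite (r t)) (fun g _ h _ => lk_mul hr g h) hm
    (r := Units.mk0 y y0) fun g hg => g3_fix (Units.ext y1) (hz g hg)
  obtain ⟨e, he⟩ := h3 _ ⟨hs', ho'⟩
  refine ((cobOn_dd _ fun g =>
    Units.map (j : L →* E) (e (r g))).mul h4).congr fun g hg g' hg' => ?_
  have h5 : _ = Units.map (j : L →* E) (dd e (r g, r g')) := (congrFun (pull_dd hr e) (g, g')).symm
  have h6 : Units.mk0 y y0 ^ orderOf (r t) = Units.map (j : L →* E) (f (r t)) := Units.ext hy
  refine .trans ?_ (congrArg (· * _) h5.symm)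
  simp only [pull, cyc, h6, ← map_pow, ← map_mul, ← he _ (hm g hg) _ (hm g' hg'), Pi.div_apply,
    div_mul_cancel]

end Pool.Agent.ZCy.F
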