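import Pool.Agent.Lib.MP_879916_ag.SS.Defs
import Pool.Agent.Lib.MP_751085_ag.ZF.T.Defs

/-! Sections of dimension two: blown-up charts. -/

namespace Pool.Agent.ZCy

open scoped Classical Polynomial Topology
open MvPolynomial

section

variable {R S σ : Type} [CommRing R] [CommRing S]

/-- the substitution `ξ ↦ π ξ` -/
noncomputable def ub0 (π : R) : MP σ R →+* MP σ R :=
  eval₂Hom (C.comp (RingHom.id R)) fun j => C π * X j

/-- the substitution `τ ↦ τ`, `ξ ↦ π ξ` -/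
noncomputable def ub (π : R) : MP (Option σ) R →+* MP (Option σ) R :=
  subO (RingHom.id R) fun j => C π * X j

/-- polynomials in `τ` -/
noncomputable def tau (σ : Type) : R[X] →+* MP (Option σ) R :=
  Polynomial.eval₂RingHom C (X none)

/-- `q` is the blow-up of the chart `c` -/
structure IsBl (π : R) (c q : PChart R σ) : Prop where
  δ : q.δ = c.δ
  χ : q.χ = c.χ.map (ub π)
  D : q.D = ub π c.D
  Ψ : q.Ψ = ub π c.Ψ

/-- `c'` is the image of `c` under `φ`, as far as it is used -/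
structure WM {N : ℕ} {GG : Set (Fm N R)} {GG' : Set (Fm N S)} (φ : R →+* S) (c : Chart R σ N GG)
    (c' : Chart S σ N GG') : Prop where
  δ : c'.δ = c.δ
  χ : c'.χ = mq φ c.χ
  D : c'.D = map φ c.D
  Ψ : c'.Ψ = map φ c.Ψ
  pp : ∀ j, c'.pp j = mq φ (c.pp j)

end

/-- a chart over `K` whose equation `q` and inverse map `pp` are defined over `O` -/
structure Var.KB {k O σ : Type} [Field k] [CommRing O] (X : Var k) (K : Type) [Field K]
    [Algebra k K] [Algebra O K] (q : PChart O σ)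
    (pp : Fin (X.N + 1) → (MP (Option σ) O)[X]) : Type 1 where
  c : Chart K σ X.N (X.IK K)
  F : Type
  [fld : Field F]
  [alg : Algebra (RF (Option σ) K) F]
  [algk : Algebra k F]
  θ : F
  γ : X.F →+* F
  map : q.IsMap (algebraMap O K) c.toPChart
  hpp : ∀ j, c.pp j = mq (algebraMap O K) (pp j)
  gi : c.GI
  ff : X.Fld c F θ γ

attribute [instance] Var.KB.fld Var.KB.alg Var.KB.algk

/-- The choice of the surface `Y` in a threefold and of the curves on it. -/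
def CMain3 : Prop := ∀ (k : Type) [Field k] [Infinite k] (V : Type) (R : V → ValuationSubring k)
  (K : V → Type) [∀ v, Field (K v)] [∀ v, Algebra k (K v)] [∀ v, TopologicalSpace (K v)]
  [∀ v, IsTopologicalRing (K v)], (∀ v, R v ≠ ⊤) → WApx R K →
  ∀ X : Var k, X.Nice 3 → ∀ J : Jets k X.N, X.JOk J → ∃ d₂ : ℕ,
  ∀ Gd : Chart k (Option Unit) X.N (X.IK k) → MP (Option Unit) k → V → Prop,
    (∀ c Φ, X.ZCh J c Φ → ∀ᶠ v in Filter.cofinite, Gd c Φ v) →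
  ∀ Lf : Chart k (Option Unit) X.N (X.IK k) → MP (Option Unit) k → Finset V →
      (Option Unit → k) → Prop,
    (∀ c Φ, X.ZCh J c Φ → Hil R (Lf c Φ)) →
  ∀ c₀ Φ₀, X.ZCh J c₀ Φ₀ → ∀ S : Finset V, (∀ v ∉ S, Gd c₀ Φ₀ v) →
  ∀ d, d₂ ≤ d → c₀.d ≤ d → (d : k) ≠ 0 → ∀ (fv : ∀ v, Option Unit → Fm X.N (K v))
    (W : ∀ v, Option Unit → Set ((Fin (X.N + 1) →₀ ℕ) → K v)),
    (∀ v ∈ S, ∀ i, J.VanK d (K v) (fv v i) ∧ W v i ∈ 𝓝 (cf (fv v i))) →
  ∃ (c c' : Chart k (Option Unit) X.N (X.IK k)) (Φ : MP (Option Unit) k)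
    (L L' : Matrix (Option Unit) (Option Unit) k) (Y : Gen k X.N)
    (c'' : Chart k Unit X.N (Y.var.IK k)) (T : Finset V),
    X.ZCh J c Φ ∧ Lf c Φ T (L' none) ∧ (∀ v ∈ T, Gd c Φ v) ∧
    (∀ v ∈ T, ∀ i j, L i j ∈ R v ∧ L' i j ∈ R v) ∧ c.IsLin c' L L' ∧ c'.SM (aff 0 L Φ) ∧
    Y.var.Nice 2 ∧ X.Sec Y (c'.f (some (some none))) ∧ c'.IsHyp c'' ∧
    c''.SM (hyp0 (aff 0 L Φ)) ∧ ∀ v, ∃ (C : Gen k X.N) (g : Option Unit → Fm X.N k),
      C.var.Nice 1 ∧ X.Cut C g ∧ (∀ i, J.Van d (g i)) ∧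
      (∀ (M : Type) [Field M] [Algebra k M] (x : Fin (X.N + 1) → M), C.var.On x → Y.var.On x) ∧
      (v ∈ S → ∀ i, cf (map (algebraMap k (K v)) (g i)) ∈ W v i) ∧
      (v ∉ S → ∃ cb Φb, X.ZCh J cb Φb ∧ c₀.d ≤ cb.d ∧ Gd cb Φb v ∧ ∃ e : ℕ, ∀ i m,
        (R v).valuation (coeff m (g i - cb.l0 ^ e * cb.f (some (some i)))) < 1)

end Pool.Agent.ZCy
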