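import Pool.Agent.Lib.MP_879916_ag.SS.Tw
import Pool.Agent.Lib.MP_751085_ag.ZF.K.Wrap

/-! Theorem K for a chart with an integral structure. -/

namespace Pool.Agent.ZCy.F.Kp

open Pool.Agent.ZFy Pool.Agent.ZFy.GM
open scoped Classical WithZero IntermediateField
open Polynomial groupCohomology

set_option linter.unusedSectionVars false

theorem ks_fix {k k₂ T N : Type} [Field k] [Field k₂] [Field T] [Field N] [Algebra k k₂]
    {f : k[X]} (hf : f ≠ 0) {a : k →+* T} (hs : (f.map a).Splits) (i : T →+* N) (j : k₂ →+* N)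
    (h : ∀ x, j (algebraMap k k₂ x) = i (a x)) {x : k₂} (hx : aeval x f = 0) : j x ∈ i.range := by
  refine hs.mem_range_of_isRoot (i := i) (Polynomial.map_ne_zero hf) ?_
  rw [Polynomial.map_map, IsRoot, eval_map, show i.comp a = j.comp (algebraMap k k₂) from
    RingHom.ext fun x => (h x).symm, ← hom_eval₂, ← aeval_def, hx, map_zero]

theorem ks_chi {O k σ : Type} [CommRing O] [Field k] {μ : MP σ O →+* MP σ k}
    {μ' : MP (Option σ) O →+* MP (Option σ) k} (htp : ∀ p, tp (μ' p) = (tp p).map μ)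
    {c₀ : PChart O σ} {c : PChart k σ} (h : c₀.χ.map μ' = c.χ) :
    (cχ c₀).map (mapRingHom ((algebraMap (MP σ k) (RF σ k)).comp μ)) =
      (cχ c).map (mapRingHom (algebraMap (MP σ k) (RF σ k))) := by
  rw [cχ, cχ, ← h, Polynomial.map_map, Polynomial.map_map, Polynomial.map_map]
  refine congrArg (c₀.χ.map ·) (RingHom.ext fun p => ?_)
  exact ((congrArg (Polynomial.map _) (htp p)).trans (Polynomial.map_map _ _ _)).symm

theorem kx_cur {k σ F k₂ : Type} [Field k] [Field F] (c : PChart k σ) [Field k₂] [Algebra k k₂]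
    [Algebra (RF σ k) (RF σ k₂)] [Algebra (RF σ k)[X] F] [Algebra F (Os (RF σ k))]
    [Algebra (RF σ k₂) (Ks (RF σ k))] [IsScalarTower (RF σ k) (RF σ k₂) (Ks (RF σ k))]
    (hi : c.GI) {θ : F} (hf : FFd (algebraMap (RF σ k)[X] F) θ
      ((cχ c).map (mapRingHom (algebraMap (MP σ k) (RF σ k))))) {l e : ℕ} (hl : l.Prime)
    (hl0 : (l : k) ≠ 0) {ζ : k₂} (hζ : IsPrimitiveRoot ζ (l ^ e)) {j : F →+* Ls (RF σ k₂)}
    (hj : ∀ p, j (algebraMap (RF σ k)[X] F p) =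
      tL (RF σ k₂) (p.map (algebraMap (RF σ k) (RF σ k₂))))
    (hO : ∀ x, algebraMap F (Os (RF σ k)) x = lm (algebraMap (RF σ k₂) (Ks (RF σ k))) (j x)) :
    ∃ c' : Cur (RF σ k) F, c'.χ = (cχ c).map (mapRingHom (algebraMap (MP σ k) (RF σ k))) ∧
      Sct (K := RF σ k) (RF σ k₂) F l (l ^ e) := by
  refine ⟨⟨_, θ, kx_gp c hi (IsFractionRing.injective _ _), hf, fun p => (hO _).trans ?_⟩, rfl,
    hl, ?_, ⟨e, rfl⟩, ⟨_, hζ.map_of_injective (algebraMap k₂ (RF σ k₂)).injective⟩, j, hO⟩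
  · rw [hj, kl_lm_tM, Polynomial.map_map, ← IsScalarTower.algebraMap_eq]
  · rw [← map_natCast (algebraMap k (RF σ k))]
    exact (_root_.map_ne_zero _).2 hl0

set_option maxHeartbeats 1600000 in
theorem ks_main (hD : DIVp) {O k σ F M k₂ O₂ T K₃ : Type} [CommRing O] [IsDomain O]
    [UniqueFactorizationMonoid O] [Field k] [Algebra O k] [IsFractionRing O k] (c : PChart k σ)
    {Φ : MP σ k} [Field F] [Algebra (RF (Option σ) k) F] {θ : F} (hi : c.GI) (hF : c.FF F θ)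
    {l : ℕ} (hl : l.Prime) (hu : IsUnit (l : O)) {a : BR F} (H : H1 k σ F a)
    [Field M] [Algebra k M] {z : M} {j : F →+* Ls (RF σ M)} {b : BR M}
    (hj : PChart.InfEmb (K := k) θ z j)
    (hb : rs j a = rs ((PChart.cst σ M).comp MvPolynomial.C) b) [Field k₂] [Algebra k k₂]
    [FiniteDimensional k k₂] [IsGalois k k₂] (e : M →ₐ[k] k₂) {n q : ℕ} (hN : l ^ n • a = 0)
    (hq : q • rs (e : M →+* k₂) b = 0) (hc : q.Coprime l) {ζ : k₂}
    (hζ : IsPrimitiveRoot ζ (l ^ (c.δ.factorization l + n))) [Field T]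
    [Algebra (RF (Option σ) k) T] [FiniteDimensional (RF (Option σ) k) T]
    [IsGalois (RF (Option σ) k) T]
    (hT : UnrOff (RF (Option σ) k) (toE (MP (Option σ) k) T) (c.brs Φ)) [Field K₃]
    [Algebra (RF σ k) K₃] [FiniteDimensional (RF σ k) K₃] [IsGalois (RF σ k) K₃]
    [CommRing O₂] [IsDomain O₂] [UniqueFactorizationMonoid O₂] [Algebra O₂ k₂]
    [IsFractionRing O₂ k₂] [Algebra O O₂] [Algebra.IsIntegral O O₂]
    {μ : MP σ O →+* MP σ k} {μ' : MP (Option σ) O →+* MP (Option σ) k}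
    {μ₂ : MP σ O₂ →+* MP σ k₂} (hμ : Tw μ) (hμ' : Tw μ') (hμ₂ : Tw μ₂)
    (htp : ∀ p, tp (μ' p) = (tp p).map μ)
    (h22 : ∀ p, μ₂ (MvPolynomial.map (algebraMap O O₂) p) = MvPolynomial.map (algebraMap k k₂) (μ p))
    (c₀ : PChart O σ) {Φ₀ : MP σ O} (hχ₀ : c₀.χ.map μ' = c.χ) (hΦ : μ Φ₀ = Φ) (hG : GoodM c₀ Φ₀)
    (hΦ₀ : IsUnit (MvPolynomial.constantCoeff Φ₀))
    (Hv : ∀ p : O, Prime p → ∀ v : Vl F,
      Cen ((toE (MP (Option σ) k) F).comp μ') v (MvPolynomial.C p) → Unram v a)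
    (h₂ : ∀ p : O, Prime p → ∀ w : Vl k₂, Cen (toF O k k₂) w p → Ine k w = ⊥)
    (hT' : ∀ p : O, Prime p → ∀ w : Vl T,
      Cen ((toE (MP (Option σ) k) T).comp μ') w (MvPolynomial.C p) → Ine (RF (Option σ) k) w = ⊥)
    (hk₂ : ∀ g : k₂ ≃ₐ[k] k₂, (∀ x, aeval x c.top = 0 → g x = x) →
      (∀ x : k₂, x ^ l = 1 → g x = x) → ∃ m : ℕ, g ^ l ^ m = 1)
    (hs₀ : (c.top.map ((toE (MP (Option σ) k) T).comp MvPolynomial.C)).Splits)
    (hζ₀ : ∃ ζ : T, IsPrimitiveRoot ζ l) (e₃ : K₃ →+* T)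
    (h₃ : ∀ p, e₃ (toF (MP σ k) (RF σ k) K₃ p) = toE (MP (Option σ) k) T (up p))
    (hs : (c.χ.map (toE (MP (Option σ) k) T)).Splits)
    (hW : WF l ((cχ c).map (mapRingHom (toF (MP σ k) (RF σ k) K₃)))) :
    ∃ (R : MuC (c.brs Φ) F) (i₀ : T →ₐ[RF (Option σ) k] R.E), cls F R.c = a ∧ (∃ r, R.m = l ^ r) ∧
      (∀ p : O, Prime p → ∀ w : Vl R.E, Cen ((toE (MP (Option σ) k) R.E).comp μ') w
        (MvPolynomial.C p) → Ine (RF (Option σ) k) w = ⊥) ∧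
      LXt l (RF (Option σ) k) (Set.range i₀) := by
  have hl0 : (l : k) ≠ 0 := map_natCast (algebraMap O k) l ▸ (hu.map _).ne_zero
  obtain ⟨ψ₀, -, ht₀⟩ := kx_alg k σ
  let _ : Algebra (RF σ k)[X] F := ((algebraMap (RF (Option σ) k) F).comp ψ₀).toAlgebra
  have ht : ∀ p, algebraMap (RF σ k)[X] F (tq k σ p) = toE (MP (Option σ) k) F p :=
    fun p => congrArg (algebraMap (RF (Option σ) k) F) (ht₀ p)
  obtain ⟨g₀, h⟩ := exists_rfMap σ (algebraMap k k₂)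
  let _ := g₀.toAlgebra
  obtain ⟨_, _⟩ := kx_gal (σ := σ) (k := k) (k₂ := k₂) h
  let _ : Algebra (RF σ k₂) (Ks (RF σ k)) :=
    (IsSepClosed.lift : RF σ k₂ →ₐ[RF σ k] Ks (RF σ k)).toRingHom.toAlgebra
  have : IsScalarTower (RF σ k) (RF σ k₂) (Ks (RF σ k)) := .of_algebraMap_eq fun x =>
    ((IsSepClosed.lift : RF σ k₂ →ₐ[RF σ k] Ks (RF σ k)).commutes x).symm
  obtain ⟨j₁, hj₁, hr⟩ := kx_j h ht hj e hb
  let _ : Algebra F (Os (RF σ k)) := ((lm (algebraMap (RF σ k₂) (Ks (RF σ k)))).comp j₁).toAlgebra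
  have hf := kx_ffd c ht hi hF
  let _ : Algebra (MP σ O) (RF σ k) := ((algebraMap (MP σ k) (RF σ k)).comp μ).toAlgebra
  have : IsFractionRing (MP σ O) (RF σ k) := hμ.fr.frac
  let _ : Algebra (MP σ O₂) (RF σ k₂) := ((algebraMap (MP σ k₂) (RF σ k₂)).comp μ₂).toAlgebra
  have : IsFractionRing (MP σ O₂) (RF σ k₂) := hμ₂.fr.frac
  let _ : Algebra (MP σ O) (RF σ k₂) :=
    ((algebraMap (RF σ k) (RF σ k₂)).comp (algebraMap (MP σ O) (RF σ k))).toAlgebra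
  have : IsScalarTower (MP σ O) (RF σ k) (RF σ k₂) := .of_algebraMap_eq fun _ => rfl
  let _ := (MvPolynomial.map (algebraMap O O₂) : MP σ O →+* MP σ O₂).toAlgebra
  have : Algebra.IsIntegral (MP σ O) (MP σ O₂) := ⟨fun _ =>
    let _ := MvPolynomial.algebraMvPolynomial (σ := σ) (R := O) (S := O₂)
    MvPolynomial.isIntegral_iff_isIntegral_coeff.2 fun _ => Algebra.IsIntegral.isIntegral _⟩
  have : IsScalarTower (MP σ O) (MP σ O₂) (RF σ k₂) := .of_algebraMap_eq fun p =>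
    (h (μ p)).trans (congrArg (algebraMap (MP σ k₂) (RF σ k₂)) (h22 p).symm)
  have hlA : IsUnit (l : MP σ O) := map_natCast (MvPolynomial.C : O →+* MP σ O) l ▸ hu.map _
  obtain ⟨c', hχ, hb₀⟩ := kx_cur c hi hf hl hl0 hζ hj₁ fun _ => rfl
  have hbas : c'.Bas (RF σ k₂) l (l ^ (c.δ.factorization l + n)) Φ₀ :=
    ⟨hb₀, fun P hP hd => ⟨hP, fun h1 => hP.not_isUnit (isUnit_of_dvd_unit h1 hlA),
      cχ c₀, Φ₀, kx_mon c₀, (ks_chi htp hχ₀).trans hχ.symm, hd, hG⟩, hμ.unr h h₂⟩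
  have hz : rs j₁ a = 0 := by
    have h1 : l ^ n • rs j₁ a = 0 := by rw [← map_nsmul, hN, map_zero]
    have h2 : q • rs j₁ a = 0 := by rw [hr, ← map_nsmul, hq, map_zero]
    exact AddMonoid.addOrderOf_eq_one_iff.1 (Nat.eq_one_of_dvd_coprimes (hc.pow_right n)
      (addOrderOf_dvd_of_nsmul_eq_zero h2) (addOrderOf_dvd_of_nsmul_eq_zero h1))
  have hup : ∀ {P : MP σ O}, Prime P → Prime (up P) := fun hP => (kx_nd c₀ hP).1
  have hC : ∀ p : O, up (MvPolynomial.C p : MP σ O) = MvPolynomial.C p := fun p =>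
    MvPolynomial.rename_C _ _
  obtain ⟨R, hR⟩ := coreK (c := c') hD (MP σ O₂) hbas hlA j₁ (fun _ => rfl) hz
    (N := l ^ n) (d := c.δ / l ^ c.δ.factorization l)
    (by rw [hχ, kx_deg, pow_add, mul_right_comm, Nat.ordProj_mul_ordCompl_eq_self])
    ((Nat.coprime_ordCompl hl c.pos.ne').symm.pow_right n) (pow_dvd_pow l le_add_self) hN
    (kx_h1 ht H (ffd_alg hf ((kx_mon c).map _))) (fun P v hP _ hv =>
      (hμ'.dich ((algebraMap (RF (Option σ) k) F).injective.comp (IsFractionRing.injective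
        (MP (Option σ) k) _)) (hup hP) ((tw_tp ht htp P v).1 hv)).elim
        (fun ⟨p, h1, h2⟩ => Hv p h1 v h2) fun ⟨Q, h1, h2⟩ => H.1 Q v h1 h2)
    (0 : MP σ O) K₃
  obtain ⟨_, _⟩ := kx_gen hF.2 (kx_sep c (IsFractionRing.injective _ (RF (Option σ) k))).2
    (by rw [aeval_def, eval₂_map]; exact hF.1)
  obtain ⟨Q⟩ := clo_ex (RF (Option σ) k) F R.E T
  obtain ⟨x, hx1, hx2, hx3⟩ := Q.coc R.coc R.pw
  have hE : ∀ p, toF (RF σ k)[X] F R.E (tq k σ p) =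
      tE R.E (toE (MP (Option σ) k) F) p := fun p => congrArg (algebraMap F R.E) (ht p)
  have hk : ∀ p, kap (RF σ k) F Q.N (algebraMap (MP σ k) _ p) =
      toE (MP (Option σ) k) Q.N (up p) := fun p =>
    (congrArg (algebraMap F Q.N) (kx_up ht p)).trans (IsScalarTower.algebraMap_apply _ F _ _).symm
  refine ⟨.mk Q.N _ x (by rw [Nat.cast_pow]; exact pow_ne_zero _ hl0) (fun P W hP hd hW => ?_) hx1
    hx2, Q.i₀, hx3.trans R.cls_eq, ⟨_, rfl⟩, fun p hp W hW => ?_, ?_⟩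
  · obtain ⟨α, β, hb⟩ := c.bez
    obtain ⟨r, hr⟩ := c.dvd
    refine Q.unr hW (fun _ => Q.fx_ine hF.2 c.monic hb hF.1 hP
      (fun e => hd ((hP.dvd_of_dvd_pow (e.trans hr)).mul_right _)) hW) (fun w => hT P w hP hd)
      fun w hw => (kx_dich hE c hP hd hw).elim (hR.hor w) fun ⟨P₀, h1, h2, h3⟩ => ?_
    obtain ⟨P₁, h4, h5⟩ := hμ.down (φ := kap (RF σ k) F R.E |>.comp (algebraMap (MP σ k) _))
      ((kap (RF σ k) F R.E).injective.comp (IsFractionRing.injective (MP σ k) _)) h1 (w := w)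
      ⟨fun a => by simpa using h3.1 (C a), fun a => by
        have := h3.2 (C a)
        rw [C_dvd_iff_dvd_coeff] at this
        simp only [RingHom.comp_apply, coe_mapRingHom, map_C] at this ⊢
        refine this.trans ⟨fun h => by simpa using h 0, fun h i => ?_⟩
        rw [coeff_C]
        split_ifs
        exacts [h, dvd_zero _]⟩
    exact hR.ver P₁ w h4 (fun e => h2 (hΦ ▸ (h5 _).2 e)) (tw_cen h5 h3)
  · obtain ⟨α, β, hb⟩ := c₀.bez
    have h1 := (MvPolynomial.prime_C_iff σ).2 hp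
    have h2 := kx_nd c₀ h1
    have h4 := hF.1
    rw [← hχ₀, eval₂_map] at h4
    rw [hC] at h2
    replace hW : Cen (tE Q.N ((algebraMap (MP (Option σ) k) (RF (Option σ) k)).comp μ')) W
      (MvPolynomial.C p) := hW
    refine Q.unr hW (fun _ => Q.fx_ine hF.2 c₀.monic hb h4 h2.1 h2.2 hW)
      (fun w => hT' p hp w) fun w hw => hR.ver _ w h1 (fun e => hp.not_isUnit
        (isUnit_of_dvd_unit ?_ hΦ₀)) ((tw_tp hE htp _ w).2 ((hC p).symm ▸ hw))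
    simpa using map_dvd MvPolynomial.constantCoeff e
  obtain ⟨j₂, hj₂⟩ := hR.cst
  have h2 : ∀ a, Q.i (j₂ (algebraMap (RF σ k) _ a)) = kap (RF σ k) F Q.N a := fun a => by
    rw [hj₂]; exact Q.i.commutes _
  refine Q.lxt (fun x => ⟨x, rfl⟩) fun g hg s => ?_
  have hg₀ : ∀ x, g (Q.i₀ x) = Q.i₀ x := fun x => hg _ ⟨x, rfl⟩
  obtain ⟨g', hg'⟩ := Q.conj (Q.fx_spl hF.2 c.monic hF.1 hs hg₀) s
  have key : ∀ y, g' (Q.i₀ y) = Q.i₀ y := fun y => s.injective (by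
    obtain ⟨y', hy⟩ := Q.nrm s y
    rw [← (by simpa only [pow_one] using hg' 1 _ : g (s (Q.i₀ y)) = s (g' (Q.i₀ y))), hy, hg₀])
  let J : k₂ →+* Q.N := ((Q.i : R.E →+* Q.N).comp j₂).comp (algebraMap k₂ (RF σ k₂))
  have hJ : ∀ a, J (algebraMap k k₂ a) =
      Q.i₀ ((toE (MP (Option σ) k) T).comp MvPolynomial.C a) := fun a => by
    change Q.i (j₂ (algebraMap k₂ _ (algebraMap k k₂ a))) = _
    rw [kx_sq h, h2, kx_C, hk, up, MvPolynomial.rename_C]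
    exact (Q.i₀.commutes _).symm
  obtain ⟨g₂, hg₂⟩ := exists_restrict (K := k) J (g' : Q.N →+* Q.N) fun a => by
    rw [hJ]; exact key _
  have h5 : ∀ {f : k[X]}, f ≠ 0 → (f.map ((toE (MP (Option σ) k) T).comp MvPolynomial.C)).Splits →
      ∀ x, aeval x f = 0 → g₂ x = x := fun hf hs x hx => J.injective (by
    obtain ⟨y, hy⟩ := ks_fix hf hs (Q.i₀ : T →+* Q.N) J hJ hx
    rw [hg₂, ← hy]
    exact key y)
  obtain ⟨m₀, hm₀⟩ := hk₂ g₂ (h5 (kx_tmon c).ne_zero hs₀) fun x hx =>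
    h5 (f := X ^ l - C 1) (X_pow_sub_C_ne_zero hl.pos _) (by
      obtain ⟨ζ₀, h0⟩ := hζ₀
      rw [Polynomial.map_sub, Polynomial.map_pow, map_X, map_C, map_one]
      exact X_pow_sub_one_splits h0) x (by simp [hx])
  have h6 : ∀ (r : ℕ) y, (g' ^ r) (J y) = J ((g₂ ^ r) y) := fun r y => by
    induction r with
    | zero => rfl
    | succ r ih => rw [pow_succ', pow_succ', AlgEquiv.mul_apply, AlgEquiv.mul_apply, ih, hg₂]; rfl
  have := Algebra.IsAlgebraic.tower_top (K := RF (Option σ) k) (A := Q.N) F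
  obtain ⟨m, hm⟩ := hR.lad (by rwa [hχ, Polynomial.map_map, mapRingHom_comp]) Q.N Q.i
    ((Q.i : R.E →+* Q.N).comp j₂) ((Q.i₀ : T →+* Q.N).comp e₃) (g' ^ l ^ m₀) h2
    (RingHom.congr_fun ((isFr_alg (MP σ k) (RF σ k)).hom_ext
      (φ := ((Q.i₀ : T →+* Q.N).comp e₃).comp (algebraMap _ K₃)) fun p =>
        ((congrArg Q.i₀ (h₃ p)).trans (Q.i₀.commutes _)).trans (hk p).symm))
    (RingHom.congr_fun (kx_ext h
      (f := ((g' ^ l ^ m₀ : Q.N ≃ₐ[F] Q.N) : Q.N →+* Q.N).comp ((Q.i : R.E →+* Q.N).comp j₂))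
      (fun a => ((congrArg (g' ^ l ^ m₀) (h2 a)).trans ((g' ^ l ^ m₀).commutes _)).trans
        (h2 a).symm) fun y => (h6 _ y).trans (by rw [hm₀]; rfl))) fun a =>
      pow_mem (show g' ∈ fixS F {Q.i₀ (e₃ a)} from fun y hy => hy ▸ key _) _ _ rfl
  exact ⟨m₀ + m, fun x => by rw [hg', pow_add l m₀ m, pow_mul, hm]⟩

end Pool.Agent.ZCy.F.Kp
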