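import Pool.Agent.Lib.MP_879916_ag.SS.GeoB
import Pool.Agent.Lib.MP_879916_ag.SS.ConstB
import Pool.Agent.Lib.MP_879916_ag.SS.T1b
import Pool.Agent.Lib.MP_751085_ag.ZF.T.Fin

/-! A class that kills the cycles of degree zero of the curve is constant along the blow-up. -/

namespace Pool.Agent.ZCy.F

open Pool.Agent.ZFN Pool.Agent.ZFy MvPolynomial
open scoped Classical Polynomial

variable {k O K κ : Type} [Field k] [CommRing O] [IsDomain O] [CDVR O] [Field K] [Algebra O K]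
  [IsFractionRing O K] [Algebra k K] [Field κ] [IsAlgClosed κ] {s l : ℕ} {ρ : O →+* κ} {π : O}
  {X : Var k} {q : PChart O Unit} {pp : Fin (X.N + 1) → (MP (Option Unit) O)[X]}

/-- Hensel lifting with fixed parameters -/
theorem rloc_lift {O R κ σ : Type} [CommRing O] [CommRing R] [Field κ] [IsLocalRing R]
    [IsAdicComplete (IsLocalRing.maximalIdeal R) R] (c : PChart O σ) (φ : O →+* R) {τ : R →+* κ}
    (hτ : KerM τ) (y : Option σ → R) (z : R)
    (h0 : ev (τ.comp φ) (fun j => τ (y j)) (τ z) c.χ = 0)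
    (hD : eval₂ (τ.comp φ) (fun j => τ (y j)) c.D ≠ 0) :
    ∃ ζ : R, ev φ y ζ c.χ = 0 ∧ τ ζ = τ z := by
  have hm : ∀ a, a ∈ IsLocalRing.maximalIdeal R ↔ τ a = 0 := fun a => (hτ a).symm
  obtain ⟨a, h1, h2⟩ := HenselianRing.is_henselian (I := IsLocalRing.maximalIdeal R)
    (c.χ.map (eval₂Hom φ y)) (c.monic.map _) z (by rw [hm, ← ev_eq_eval, map_ev, h0]) (by
      refine IsUnit.map _ (not_not.1 fun hn => hD ?_)
      have h3 := (hτ _).2 hn
      rw [Polynomial.derivative_map, ← ev_eq_eval, map_ev] at h3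
      obtain ⟨α, β, e⟩ := c.bez
      have h4 := congrArg (ev (τ.comp φ) (fun j => τ (y j)) (τ z)) e
      rwa [map_add, map_mul, map_mul, h0, h3, mul_zero, mul_zero, add_zero, ev_def,
        Polynomial.eval₂_C] at h4)
  refine ⟨a, (ev_eq_eval _ _ _ _).trans h1, ?_⟩
  rw [← sub_eq_zero, ← map_sub]
  exact (hm _).1 h2

/-- the point of a chart with `ξ = 0` -/
theorem rloc_pt {k K L : Type} [Field k] [Field K] [Algebra k K] [Field L] [Algebra K L]
    [Algebra k L] [IsScalarTower k K L] {X : Var k} (c : Chart K Unit X.N (X.IK K))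
    {y : Option Unit → L} {z : L} (h0 : ev (algebraMap K L) y z c.χ = 0)
    (hD : eval₂ (algebraMap K L) y c.D ≠ 0) (hy : y (some ()) = 0) :
    X.On (c.pv (algebraMap K L) y z) ∧
      eval₂ (algebraMap K L) (c.pv (algebraMap K L) y z) (c.f (some (some ()))) = 0 := by
  refine ⟨⟨fun h => (c.ne L _ _ _ h0 hD).2 ?_, fun G hG => ?_⟩, ?_⟩
  · rw [ev_sb, show (fun j => ev (algebraMap K L) y z (c.pp j)) = 0 from h, eval₂_zero_apply,
      constantCoeff_eq, c.hl.coeff_eq_zero (by simp), map_zero]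
  · have h := tchg_zer c h0 _ ⟨G, hG, rfl⟩
    rwa [eval₂_map, ← IsScalarTower.algebraMap_eq] at h
  · have h := map_dvd (ev (algebraMap K L) y z) (c.dv_f (some ()))
    rw [h0, zero_dvd_iff, map_sub, map_mul, ev_sb, ev_def _ _ _ (Polynomial.C _),
      Polynomial.eval₂_C, eval₂Hom_X', hy, zero_mul, sub_zero] at h
    exact h

/-- two points of the curve with different residues contradict the hypothesis -/
theorem twoPt_not (hs : FinB κ s) (hρ : LRes ρ s) (E : EvApi X) (A : X.KB K q pp)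
    (h : XH π ρ q A.c.toPChart A.θ) {Φ : MP Unit O} {cl : BR X.F} (hcl : cl ∈ X.Bw) {N : ℕ}
    (hN : IsUnit (N : O)) (h0 : N • cl = 0) (T : TRep K π (q.brs Φ) A.F (rs A.γ cl)) {v : Vl A.F}
    (hv : Cen1 (gO O K (Option Unit) A.F) v (C π))
    (hT : TwoPt K ρ s q.χ (q.brs Φ) 0 (eT Unit O) A.θ v (rs A.γ cl))
    {P : (Fin (X.N + 1) → Cb K) → Prop} (hP : ∀ x : Fin (X.N + 1) → Cb K, X.On x →
      eval₂ (algebraMap K (Cb K)) x (A.c.f (some (some ()))) = 0 → P x) : ¬Kills X K cl P := by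
  intro hk
  obtain ⟨m, t, z, hm, hp, hq⟩ := hT
  obtain ⟨L, hL, Y, e1, rfl⟩ := tfin_unxF (K := K) hs hρ hm
  have : IsScalarTower k K L := IsScalarTower.of_algebraMap_eq fun _ => rfl
  obtain ⟨hb, r, hD⟩ := q.bez_brs Φ
  obtain ⟨φ, hφ⟩ := hs.frob Y.f
  obtain ⟨Γ, hΓ⟩ := exists_coefE (ι := Option Unit) φ
  have e0 : Y.ρ.comp (algebraMap O Y.R) = ρ := RingHom.ext Y.cmp
  have e2 : (algebraMap K L).comp (algebraMap O K) = (algebraMap Y.R L).comp (algebraMap O Y.R) :=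
    RingHom.ext fun a => (Y.tow a).symm
  have key : ∀ i, ∃ (ρv : v.integer →+* FP (Option Unit) κ) (c : AddCircle (1 : ℚ))
      (x : Fin (X.N + 1) → L), (IsRed v ρv ∧ AtPt K ρ A.θ ρv (tpt ρ 0 (eT Unit O) (t i)) (z i) ∧
        ResAt v ρv (rs A.γ cl) Γ c) ∧ LInv L Y.ρ (s ^ Y.f) (X.vl cl L x) c ∧ X.On x ∧
        eval₂ (algebraMap K L) x (A.c.f (some (some ()))) = 0 := fun i => by
    obtain ⟨t', ht⟩ := (Y.res.rng _).2 (hp i).ht
    obtain ⟨z', hz⟩ := (Y.res.rng _).2 (hp i).hz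
    let y : Option Unit → Y.R := fun j => j.elim t' fun _ => 0
    have e : (fun j => Y.ρ (y j)) = tpt ρ 0 (eT Unit O) (t i) := by
      rw [tfhv_tpt]
      funext j
      cases j with
      | none => exact ht
      | some _ => exact map_zero _
    have hu : IsUnit (eval₂ (algebraMap O Y.R) y (q.brs Φ)) := by
      by_contra hu
      have h3 := (Y.res.ker _).2 hu
      rw [eval₂_comp_left, e0, show Y.ρ ∘ y = _ from e] at h3
      exact (hp i).off h3
    have hd : IsUnit (eval₂ (algebraMap O Y.R) y q.D) := by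
      have h3 := map_dvd (eval₂Hom (algebraMap O Y.R) y) hD
      rw [map_pow] at h3
      exact isUnit_of_dvd_unit h3 (hu.pow r)
    obtain ⟨ζ, g1, g2⟩ := rloc_lift q (algebraMap O Y.R) Y.res.ker y z'
      (by rw [e0, e, hz]; exact (hp i).on)
      ((eval₂_comp_left _ _ _ _).symm.trans_ne (hd.map Y.ρ).ne_zero)
    obtain ⟨v', ρv, c, c1, c2, c3, -, c4, c5⟩ :=
      kb_t1 hs hρ h.irr E hcl A hb hD T Y g1 hu hφ hΓ
    obtain rfl := h.eq hv c1
    rw [e, g2, hz] at c3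
    rw [e1, one_smul] at c5
    have e3 : (fun j => algebraMap Y.R L (ev (algebraMap O Y.R) y ζ (pp j))) =
        A.c.pv (algebraMap K L) (fun j => algebraMap Y.R L (y j)) (algebraMap Y.R L ζ) :=
      funext fun j => by rw [Chart.pv, A.hpp, ev_mq, e2, map_ev]
    exact ⟨ρv, c, _, ⟨c2, c3, c4⟩, e3 ▸ c5, rloc_pt A.c
      (by rw [A.map.χ, ev_mq, e2, ← map_ev, g1, map_zero])
      (by
        rw [A.map.D, eval₂_map, e2]
        exact (eval₂_comp_left _ _ _ _).symm.trans_ne (hd.map _).ne_zero) (map_zero _)⟩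
  choose ρv c x h3 h4 h5 h6 using key
  have hw := fun i => LInv.cor hs hρ Y hN (E.val_kill hcl h0 L (h5 i)) (h4 i)
  have h7 := hk (Fin 2) ![1, -1] (fun _ => L) (fun i j => (x i j : Cb K))
    (fun i => ⟨hL, fun j => Subtype.prop _, hP _ (tffi_on.2 (h5 i)) (by
      have h8 := congrArg (algebraMap L (Cb K)) (h6 i)
      rw [eval₂_comp_left, map_zero, ← IsScalarTower.algebraMap_eq] at h8
      exact h8)⟩) (by simp)
  rw [Fin.sum_univ_two, tffi_ptv, tffi_ptv] at h7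
  have h8 := hw 0
  rw [show corN K L _ = corN K L _ from sub_eq_zero.1 ((sub_eq_add_neg _ _).trans
    ((congrArg₂ (· + ·) (one_zsmul _).symm (neg_one_zsmul _).symm).trans h7))] at h8
  exact hq φ Γ ρv c hφ hΓ h3 (h8.uniq hs hρ (hw 1))

theorem rl_loc (H : THyp) (hs : FinB κ s) (hρ : LRes ρ s) (hπ : Irreducible π) (E : EvApi X)
    {GG : Set (Fm X.N O)} (hGG : ∀ G ∈ GG, ∃ m, G.IsHomogeneous m) {c₀ : Chart O Unit X.N GG}
    {Φ₀ : MP Unit O} (hsm : c₀.SM Φ₀) (hΦ : IsUnit (constantCoeff Φ₀))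
    (hq : IsBl π c₀.toPChart q) (A : X.KB K q pp) {cl : BR X.F} (hcl : cl ∈ X.Bw) (hl : l.Prime)
    (hu : IsUnit (l : O)) (h0 : Prim l cl) {P : (Fin (X.N + 1) → Cb K) → Prop}
    (hP : ∀ x : Fin (X.N + 1) → Cb K, X.On x →
      eval₂ (algebraMap K (Cb K)) x (A.c.f (some (some ()))) = 0 → P x) (hk : Kills X K cl P) :
    XH π ρ q A.c.toPChart A.θ ∧ ∃ (v : Vl A.F) (b : BR K), Prim l b ∧
      Cen1 (gO O K (Option Unit) A.F) v (C π) ∧
      Unram v (rs A.γ cl - rs (cE (Option Unit) K A.F) b) := by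
  obtain ⟨c₁, hc₁⟩ := c₀.toPChart.exists_map (algebraMap O K)
  have hm : (mq (algebraMap K (AlgebraicClosure K)) c₁.χ).Monic := c₁.monic.map _
  have gi : c₁.GI := hm.irreducible_of_irreducible_map
    (ub (algebraMap K (AlgebraicClosure K) (algebraMap O K π))) _ (by
      have h1 : Irreducible (mq (algebraMap K (AlgebraicClosure K)) A.c.χ) := A.gi
      rw [A.map.χ, hq.χ] at h1
      rw [hc₁.χ]
      simp only [Polynomial.coe_mapRingHom, Polynomial.map_map] at h1 ⊢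
      rwa [show (ub (algebraMap K (AlgebraicClosure K) (algebraMap O K π))).comp
        ((map (algebraMap K (AlgebraicClosure K))).comp (map (algebraMap O K))) =
        (map (algebraMap K (AlgebraicClosure K))).comp ((map (algebraMap O K)).comp (ub π)) from
        RingHom.ext fun p => by simp only [RingHom.comp_apply, map_ub]])
  have hi : Irreducible ((q.χ.map (line (RingHom.id O) 0 (eT Unit O))).map
      (Polynomial.mapRingHom ρ)) := by
    have e : (line (RingHom.id O) 0 (eT Unit O)).comp (ub π) =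
        line (RingHom.id O) 0 (eT Unit O) := RingHom.ext fun p => by
      rw [RingHom.comp_apply, line_ub]
    rw [hq.χ, Polynomial.map_map (ub π), e]
    exact (xh_irr H.irro hρ.ker hGG hc₁ gi hsm).2 hΦ
  have hr : Irreducible (mq ρ q.χ) := by
    have e : (line (RingHom.id κ) 0 (eT Unit κ)).comp (map ρ) =
        (Polynomial.mapRingHom ρ).comp (line (RingHom.id O) 0 (eT Unit O)) :=
      ringHom_ext (fun r => by simp [line]) fun i => by cases i <;> simp [line]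
    refine (q.monic.map _).irreducible_of_irreducible_map (line (RingHom.id κ) 0 (eT Unit κ)) _ ?_
    rw [Polynomial.map_map, e, ← Polynomial.map_map]
    exact hi
  have h : XH π ρ q A.c.toPChart A.θ := ⟨hπ, hρ.ker, A.map, A.gi, A.ff.ff, hr⟩
  have hΦ' : ¬C π ∣ ub0 π Φ₀ := fun e => hπ.not_isUnit (isUnit_of_dvd_unit
    (by simpa [constantCoeff_ub0] using map_dvd constantCoeff e) hΦ)
  obtain ⟨n, hn⟩ := h0
  have hn' : l ^ n • rs A.γ cl = 0 :=
    (map_nsmul (rs A.γ) _ cl).symm.trans ((congrArg _ hn).trans (map_zero _))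
  have hN : IsUnit ((l ^ n : ℕ) : O) := by rw [Nat.cast_pow]; exact hu.pow n
  have h1 := H.kt O K Unit q (ub0 π Φ₀) A.c.toPChart π A.F A.θ l A.map hπ hΦ' A.gi A.ff.ff
    (hq.good (H.gm O Unit X.N GG c₀ Φ₀ hGG hsm)) hl hu (rs A.γ cl) ⟨n, hn'⟩ (lf_hk1 E A.ff hcl)
    (lf_hk2 E A.ff A.gi hcl)
  rw [tfkx_brs A.map] at h1
  obtain ⟨R, h1, ⟨r, h2⟩, h3⟩ := h1
  obtain ⟨T⟩ := exists_tRep hπ R h1 (by rw [h2, Nat.cast_pow]; exact hu.pow r) h3
  obtain ⟨v, θ₀, ρ₀, g⟩ := h.exists_genRF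
  rcases geoB hs hρ hq h g hΦ hi hl hu ⟨n, hn'⟩ T with ⟨ha, h4⟩ | h4
  · obtain ⟨b, hb, h5⟩ := constB hs hρ g h ha hN hn' h4
    exact ⟨h, v, b, ⟨n, hb⟩, g.cen, h5⟩
  · exact absurd hk (twoPt_not hs hρ E A h hcl hN hn T g.cen h4 hP)

end Pool.Agent.ZCy.F
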