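import Pool.Agent.Lib.MP_751085_ag.ZF.K.WrD

/-! Integral structures on polynomial rings. -/

namespace Pool.Agent.ZCy.F.Kp

open Pool.Agent.ZFy Pool.Agent.ZFy.GM
open scoped Classical WithZero IntermediateField
open Polynomial

set_option linter.unusedSectionVars false

/-- `μ` is a localisation at the constants -/
structure Tw {O k ι : Type} [CommRing O] [Field k] [Algebra O k] (μ : MP ι O →+* MP ι k) :
    Prop where
  cst : ∀ a, μ (MvPolynomial.C a) = MvPolynomial.C (algebraMap O k a)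
  inj : Function.Injective μ
  den : ∀ a, ∃ (s : O) (p : MP ι O), s ≠ 0 ∧ a * MvPolynomial.C (algebraMap O k s) = μ p

variable {O k ι E : Type} [CommRing O] [IsDomain O] [Field k] [Algebra O k] [IsFractionRing O k]
  [Field E] {μ : MP ι O →+* MP ι k}

theorem Tw.fr (h : Tw μ) : IsFr ((algebraMap (MP ι k) (RF ι k)).comp μ) := by
  refine ⟨(IsFractionRing.injective (MP ι k) (RF ι k)).comp h.inj, fun x => ?_⟩
  obtain ⟨a, b, hb, e⟩ := (isFr_alg (MP ι k) (RF ι k)).2 x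
  obtain ⟨s, p, hs, e1⟩ := h.den a
  obtain ⟨t, q, ht, e2⟩ := h.den b
  have h0 : q ≠ 0 := fun h0 => by
    rw [h0, map_zero, mul_eq_zero, MvPolynomial.C_eq_zero, IsFractionRing.to_map_eq_zero_iff] at e2
    exact e2.elim hb ht
  refine ⟨p * MvPolynomial.C t, q * MvPolynomial.C s,
    mul_ne_zero h0 (MvPolynomial.C_ne_zero.2 hs), ?_⟩
  simp only [RingHom.comp_apply, map_mul, h.cst, ← e1, ← e2, ← e]
  ring

theorem tw_unit {φ : MP ι k →+* E} {w : Vl E} (h : ∀ a, w (φ a) ≤ 1) {a : k} (ha : a ≠ 0) :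
    w (φ (MvPolynomial.C a)) = 1 := by
  have e : w (φ (MvPolynomial.C a)) * w (φ (MvPolynomial.C a⁻¹)) = 1 := by
    rw [← map_mul, ← map_mul, ← map_mul, mul_inv_cancel₀ ha, map_one, map_one, map_one]
  exact (h _).antisymm (e.ge.trans (mul_le_of_le_one_right' (h _)))

variable [UniqueFactorizationMonoid O]

/-- a prime of the integral structure is vertical or horizontal -/
theorem Tw.dich (h : Tw μ) {φ : MP ι k →+* E} (hφ : Function.Injective φ) {w : Vl E} {P : MP ι O}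
    (hP : Prime P) (hc : Cen (φ.comp μ) w P) :
    (∃ p : O, Prime p ∧ Cen (φ.comp μ) w (MvPolynomial.C p)) ∨ ∃ Q, Prime Q ∧ Cen φ w Q := by
  rcases vctr_split (φ := (φ.comp μ).comp MvPolynomial.C) (w := w) (fun a => hc.1 _) with
    h1 | ⟨a, ha, h1⟩
  · have h2 : ∀ s : O, s ≠ 0 → w (φ (MvPolynomial.C (algebraMap O k s))) = 1 := fun s hs =>
      h.cst s ▸ h1 s hs
    refine .inr (cen_loc (ψ := φ.comp μ) hφ (hφ.comp h.inj) hP hc (fun a => ?_)
      (fun b => ⟨μ b, 1, by simp, by simp⟩) fun a => ?_)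
    · obtain ⟨s, p, hs, e⟩ := h.den a
      have := hc.1 p
      rwa [RingHom.comp_apply, ← e, map_mul, map_mul, h2 s hs, mul_one] at this
    · obtain ⟨s, p, hs, e⟩ := h.den a
      exact ⟨p, MvPolynomial.C s, h1 s hs, by
        rw [RingHom.comp_apply, RingHom.comp_apply, h.cst, ← map_mul, e]⟩
  · obtain ⟨p, hp, -, h2⟩ := vctr_fac (φ := (φ.comp μ).comp MvPolynomial.C) (w := w)
      (fun a => hc.1 _) a ha h1
    exact .inl ⟨p, hp, hc.assoc (hP.associated_of_dvd ((MvPolynomial.prime_C_iff ι).2 hp)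
      ((hc.2 _).1 h2))⟩

theorem Tw.down (h : Tw μ) {φ : MP ι k →+* E} (hφ : Function.Injective φ) {w : Vl E} {Q : MP ι k}
    (hQ : Prime Q) (hc : Cen φ w Q) : ∃ P : MP ι O, Prime P ∧ ∀ a, Q ∣ μ a ↔ P ∣ a := by
  obtain ⟨P, hP, h1⟩ := cen_loc (φ := φ.comp μ) (hφ.comp h.inj) hφ hQ hc (fun a => hc.1 _)
    (fun b => by
      obtain ⟨s, p, hs, e⟩ := h.den b
      exact ⟨p, MvPolynomial.C s, by
        rw [RingHom.comp_apply, h.cst]
        exact tw_unit hc.1 (IsFractionRing.to_map_eq_zero_iff.not.2 hs), by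
        rw [RingHom.comp_apply, RingHom.comp_apply, h.cst, ← map_mul, e]⟩)
    fun a => ⟨μ a, 1, by simp, by simp⟩
  exact ⟨P, hP, fun a => (hc.2 _).symm.trans (h1.2 a)⟩

omit [IsDomain O] [IsFractionRing O k] [UniqueFactorizationMonoid O] in
theorem tw_cen {A A' K : Type} [CommRing A] [CommRing A'] [Field K] {ψ : K[X] →+* E} {α : A →+* K}
    {ν : A' →+* A} {w : Vl E} {Q : A} {P : A'} (h : ∀ a, Q ∣ ν a ↔ P ∣ a)
    (hc : Cen (ψ.comp (mapRingHom α)) w (C Q)) :
    Cen (ψ.comp (mapRingHom (α.comp ν))) w (C P) := by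
  have e : ∀ p, ψ.comp (mapRingHom (α.comp ν)) p = ψ.comp (mapRingHom α) (p.map ν) := fun p =>
    congrArg ψ (Polynomial.map_map ν α p).symm
  refine ⟨fun p => e p ▸ hc.1 _, fun p => ?_⟩
  rw [e, hc.2, C_dvd_iff_dvd_coeff, C_dvd_iff_dvd_coeff]
  exact forall_congr' fun i => by rw [coeff_map, h]

omit [IsDomain O] [IsFractionRing O k] [UniqueFactorizationMonoid O] [Algebra O k] in
theorem tw_tp {σ : Type} {φ : MP (Option σ) k →+* E} {ψ : (RF σ k)[X] →+* E}
    (ht : ∀ p, ψ (tq k σ p) = φ p) {ν : MP σ O →+* MP σ k}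
    {ν' : MP (Option σ) O →+* MP (Option σ) k} (h : ∀ p, tp (ν' p) = (tp p).map ν)
    (P : MP σ O) (w : Vl E) :
    Cen (ψ.comp (mapRingHom ((algebraMap (MP σ k) (RF σ k)).comp ν))) w (C P) ↔
      Cen (φ.comp ν') w (up P) := by
  have e : ∀ p, ψ.comp (mapRingHom ((algebraMap (MP σ k) (RF σ k)).comp ν)) (tp p) =
      φ (ν' p) := fun p => by
    rw [← ht, tq_apply, h, Polynomial.map_map]
    rfl
  have hs := (MvPolynomial.optionEquivLeft O σ).surjective
  rw [← tp_up]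
  unfold Cen
  rw [hs.forall, hs.forall]
  simp only [e, map_dvd_iff, RingHom.comp_apply φ]

/-- the field of constants is unramified at all primes -/
theorem Tw.unr {k₂ : Type} [Field k₂] [Algebra k k₂]
    [FiniteDimensional k k₂] [IsGalois k k₂] [Algebra (RF ι k) (RF ι k₂)]
    (hk : ∀ p, algebraMap (RF ι k) (RF ι k₂) (algebraMap (MP ι k) _ p) =
      algebraMap (MP ι k₂) _ (MvPolynomial.map (algebraMap k k₂) p)) (h : Tw μ)
    (h₂ : ∀ p : O, Prime p → ∀ w : Vl k₂, Cen (toF O k k₂) w p → Ine k w = ⊥) :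
    UnrOff (RF ι k) ((algebraMap (RF ι k) (RF ι k₂)).comp
      ((algebraMap (MP ι k) (RF ι k)).comp μ)) 1 := fun P w hP _ hc => by
  rcases h.dich (φ := toF (MP ι k) (RF ι k) (RF ι k₂)) ((algebraMap (RF ι k) _).injective.comp
    (IsFractionRing.injective (MP ι k) (RF ι k))) hP hc with ⟨p, hp, h1⟩ | ⟨Q, hQ, h1⟩
  · have e : ∀ a, w.comap (algebraMap k₂ (RF ι k₂)) (toF O k k₂ a) =
        w ((toF (MP ι k) (RF ι k) (RF ι k₂)).comp μ (MvPolynomial.C a)) := fun a => by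
      rw [Valuation.comap_apply, RingHom.comp_apply, RingHom.comp_apply, kx_sq hk, h.cst, kx_C]
      rfl
    have := kx_card hk w
    rw [h₂ p hp _ ⟨fun a => e a ▸ h1.1 _, fun a => ?_⟩, Subgroup.card_bot, Nat.dvd_one] at this
    · exact Subgroup.card_eq_one.1 this
    rw [e, h1.2]
    exact ⟨fun hd => by simpa using map_dvd MvPolynomial.constantCoeff hd, map_dvd _⟩
  · exact kx_unr hk Q w hQ hQ.not_dvd_one h1

end Pool.Agent.ZCy.F.Kp
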