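import Pool.Agent.Lib.MP_879916_ag.SS.ZDf
import Pool.Agent.Lib.MP_751085_ag.ZC.T.Cheb

/-! Points that generate their field of definition. -/

namespace Pool.Agent.ZFy.ZL

open Pool.Agent.ZCy Pool.Agent.ZFN
open scoped Classical WithZero Polynomial

set_option linter.unusedSectionVars false

theorem zchg_sum {p : ℕ} (hp : 2 ≤ p) (N : ℕ) : ∑ d ∈ Finset.range N, p ^ (d + 1) ≤ 2 * p ^ N := by
  induction N with
  | zero => simp
  | succ N ih =>
    rw [Finset.sum_range_succ, pow_succ p N]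
    nlinarith [Nat.mul_le_mul_left (p ^ N) hp]

/-- a point of exact degree `2 N` generates the field with `p ^ (2 N)` elements -/
theorem zchg_gen (p : ℕ) [Fact p.Prime] {κ : Type} [Field κ] [CharP κ p] {N : ℕ} (hN : 0 < N)
    {t : κ} (ht : t ^ p ^ (2 * N) = t) (hd : ∀ d < N, t ^ p ^ (d + 1) ≠ t) (y : κ)
    (hy : y ^ p ^ (2 * N) = y) : ∃ P : ℤ[X], y = Polynomial.aeval t P := by
  have hp : 1 < p := (Fact.out : p.Prime).one_lt
  have h0 := FiniteField.X_pow_card_pow_sub_X_ne_zero κ (show 2 * N ≠ 0 by omega) hp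
  let W : κ[X] := Polynomial.X ^ p ^ (2 * N) - Polynomial.X
  have hW : ∀ z : κ, z ∈ W.roots.toFinset ↔ z ^ p ^ (2 * N) = z := fun z => by
    rw [Multiset.mem_toFinset, Polynomial.mem_roots h0]
    simp [sub_eq_zero]
  have hc : W.roots.toFinset.card ≤ p ^ (2 * N) :=
    (Multiset.toFinset_card_le _).trans ((Polynomial.card_roots' _).trans
      (FiniteField.X_pow_card_pow_sub_X_natDegree_eq κ (show 2 * N ≠ 0 by omega) hp).le)
  let R : Subring κ := (Polynomial.aeval (R := ℤ) t).toRingHom.range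
  have hR : (R : Set κ) ⊆ W.roots.toFinset := by
    rintro _ ⟨P, rfl⟩
    refine Finset.mem_coe.2 ((hW _).2 ?_)
    have e := Polynomial.aeval_algHom_apply (iterateFrobenius κ p (2 * N)).toIntAlgHom t P
    change Polynomial.aeval (t ^ p ^ (2 * N)) P = (Polynomial.aeval t P) ^ p ^ (2 * N) at e
    rw [ht] at e
    exact e.symm
  have hfin : (R : Set κ).Finite := (Finset.finite_toSet _).subset hR
  have : Finite R := hfin
  let _ : Fintype R := Fintype.ofFinite R
  let _ : Field R := Fintype.fieldOfDomain R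
  have : CharP R p := (R.subtype.charP_iff_charP p).2 inferInstance
  obtain ⟨d, -, hcard⟩ := FiniteField.card R p
  have h1 : t ^ p ^ (d : ℕ) = t := by
    have e := congrArg R.subtype (FiniteField.pow_card (⟨t, Polynomial.X, by simp⟩ : R))
    rw [map_pow, hcard] at e
    exact e
  have h2 : (R : Set κ).ncard = p ^ (d : ℕ) := by
    rw [← hcard, ← Nat.card_eq_fintype_card]
    rfl
  have h3 : 2 * N ≤ d := by
    by_contra h
    have hd0 : 0 < (d : ℕ) := d.pos
    by_cases h4 : (d : ℕ) ≤ N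
    · exact hd (d - 1) (by omega) (by rw [Nat.sub_add_cancel hd0, h1])
    · refine hd (2 * N - d - 1) (by omega) ?_
      rw [show 2 * N = d + (2 * N - d - 1 + 1) by omega, pow_add, pow_mul, h1] at ht
      exact ht
  have h5 : (R : Set κ) = W.roots.toFinset := Set.eq_of_subset_of_ncard_le hR
    (by rw [Set.ncard_coe_finset, h2]; exact hc.trans (Nat.pow_le_pow_right hp.le h3))
    (Finset.finite_toSet _)
  have h6 : y ∈ (R : Set κ) := h5 ▸ Finset.mem_coe.2 ((hW y).2 hy)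
  obtain ⟨P, hP⟩ := h6
  exact ⟨P, hP.symm⟩

open Pool.Agent.ZeroCyc in
theorem zchg_emb {κ : Type} [Field κ] (M : Type) [Field M] [Algebra (RatFunc κ) M] [Algebra κ M]
    [IsScalarTower κ (RatFunc κ) M] [FiniteDimensional (RatFunc κ) M] [IsGalois (RatFunc κ) M]
    (S : Finset κ) : (⋃ t ∈ S, ZeroCyc.Emb M t).ncard ≤
      S.card * Nat.card (M ≃ₐ[RatFunc κ] M) := by
  have h : ∀ t : κ, (ZeroCyc.Emb M t).ncard ≤ Nat.card (M ≃ₐ[RatFunc κ] M) := fun t => by
    rcases (ZeroCyc.Emb M t).eq_empty_or_nonempty with h | ⟨j, hj⟩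
    · simp [h]
    · refine (Set.ncard_le_ncard (t := mvE j '' Set.univ) (fun j' hj' => ?_)
        (Set.finite_univ.image _)).trans ?_
      · obtain ⟨σ, h⟩ := Emb.exists_mvE hj hj'
        exact ⟨σ, trivial, h.symm⟩
      · exact (Set.ncard_image_le Set.finite_univ).trans (Set.ncard_univ _).le
  induction S using Finset.induction_on with
  | empty => simp
  | insert a S ha ih =>
    rw [Finset.set_biUnion_insert, Finset.card_insert_of_notMem ha, Nat.succ_mul, add_comm]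
    exact (Set.ncard_union_le _ _).trans (Nat.add_le_add (h a) ih)

open Pool.Agent.ZeroCyc in
/-- Pattern of `cheb_pt` (ZC/T/Cheb). With `N = r n`, exclude also all `t` with `t ^ p ^ d = t` for
some `0 < d ≤ N`: these are at most `2 p ^ N` values, each with at most `card Gal` embeddings
(`Emb.exists_mvE`). For the remaining `t` one has `t ^ p ^ (2 N) = t` (from `FixE` at `tE`); the ring
generated by `t` is a finite field with `p ^ d` elements, `d ∣ 2 N`, so `d = 2 N`. -/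
theorem cheb_gen (p : ℕ) [Fact p.Prime] {κ : Type} [Field κ] [CharP κ p] [IsAlgClosed κ] (M : Type)
    [Field M] [Algebra (RatFunc κ) M] [Algebra κ M] [IsScalarTower κ (RatFunc κ) M]
    [FiniteDimensional (RatFunc κ) M] [IsGalois (RatFunc κ) M] {u : κ[X]} (hu : u ≠ 0) {r : ℕ}
    (hr : 0 < r) : ∃ n : ℕ, 0 < n ∧ ∀ Φ : M ≃+* M, SemiL κ Φ (p ^ (2 * (r * n))) →
      ∃ (t : κ) (j : M →ₐ[κ] LaurentSeries κ), j ∈ ZeroCyc.Emb M t ∧
        FixE Φ (p ^ (2 * (r * n))) j ∧ u.eval t ≠ 0 ∧ t ^ p ^ (2 * (r * n)) = t ∧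
        ∀ y : κ, y ^ p ^ (2 * (r * n)) = y → ∃ P : ℤ[X], y = Polynomial.aeval t P := by
  have hp : 1 < p := (Fact.out : p.Prime).one_lt
  obtain ⟨C, n₀, hC⟩ := chebotarev (p := p) κ M
  obtain ⟨G, hG⟩ : ∃ G, Nat.card (M ≃ₐ[RatFunc κ] M) = G := ⟨_, rfl⟩
  obtain ⟨K, hK⟩ : ∃ K, u.natDegree = K := ⟨_, rfl⟩
  refine ⟨n₀ + C + K * G + 2 * G + 1, by omega, fun Φ hΦ => ?_⟩
  have h1 : n₀ + C + K * G + 2 * G + 1 ≤ r * (n₀ + C + K * G + 2 * G + 1) :=
    Nat.le_mul_of_pos_left _ hr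
  generalize r * (n₀ + C + K * G + 2 * G + 1) = n at h1 hΦ ⊢
  by_contra h
  let W : κ[X] := u * ∏ d ∈ Finset.range n, (Polynomial.X ^ p ^ (d + 1) - Polynomial.X)
  have hW : W ≠ 0 := mul_ne_zero hu (Finset.prod_ne_zero_iff.2 fun d _ =>
    FiniteField.X_pow_card_pow_sub_X_ne_zero κ d.succ_ne_zero hp)
  have hd : W.natDegree ≤ K + 2 * p ^ n := by
    refine Polynomial.natDegree_mul_le.trans (Nat.add_le_add hK.le ?_)
    refine (Polynomial.natDegree_prod_le _ _).trans (le_trans (Finset.sum_le_sum fun d _ => ?_)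
      (zchg_sum hp n))
    exact (FiniteField.X_pow_card_pow_sub_X_natDegree_eq κ d.succ_ne_zero hp).le
  have hc : W.roots.toFinset.card ≤ K + 2 * p ^ n :=
    (Multiset.toFinset_card_le _).trans ((Polynomial.card_roots' _).trans hd)
  have h2 : (FixS κ Φ (p ^ (2 * n))).ncard ≤ (K + 2 * p ^ n) * G := by
    refine (Set.ncard_le_ncard (t := ⋃ t ∈ W.roots.toFinset, ZeroCyc.Emb M t) (fun j hj => ?_)
      ((Finset.finite_toSet _).biUnion fun t _ => emb_finite t)).trans
      ((zchg_emb M _).trans (hG ▸ Nat.mul_le_mul_right _ hc))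
    obtain ⟨⟨t, ht⟩, hf⟩ := hj
    refine Set.mem_biUnion (x := t) (Finset.mem_coe.2 ?_) ht
    rw [Multiset.mem_toFinset, Polynomial.mem_roots hW, Polynomial.IsRoot.def]
    by_contra e
    rw [Polynomial.eval_mul, Polynomial.eval_prod, mul_eq_zero, not_or] at e
    have hb := FixE.base hΦ ht hf
    refine h ⟨t, j, ht, hf, e.1, hb, zchg_gen p (by omega) hb fun d hd e' => e.2 ?_⟩
    exact Finset.prod_eq_zero (Finset.mem_range.2 hd) (by simp [e'])
  have h3 := (abs_le.1 (hC n (by omega) Φ hΦ)).1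
  have h4 : (C + K * G + 2 * G + 1 : ℝ) ≤ p ^ n := by
    exact_mod_cast (show C + K * G + 2 * G + 1 ≤ n by omega).trans (Nat.lt_pow_self hp).le
  have h2' : ((FixS κ Φ (p ^ (2 * n))).ncard : ℝ) ≤ K * G + 2 * G * p ^ n := by
    have e : ((FixS κ Φ (p ^ (2 * n))).ncard : ℝ) ≤ ((K + 2 * p ^ n) * G : ℕ) := Nat.cast_le.2 h2
    push_cast at e
    linarith
  rw [pow_mul' (p : ℝ), sq] at h3
  have h5 : (0 : ℝ) ≤ C := C.cast_nonneg
  have h6 : (0 : ℝ) ≤ (K : ℝ) * G := by positivity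
  have h7 : (0 : ℝ) ≤ G := G.cast_nonneg
  generalize (K : ℝ) * G = A at *
  generalize (p : ℝ) ^ n = q at *
  nlinarith [mul_le_mul_of_nonneg_right h4 (show 0 ≤ q by linarith),
    mul_le_mul_of_nonneg_left (show 1 ≤ q by linarith) h6]

end Pool.Agent.ZFy.ZL
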