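import Pool.Agent.Lib.MP_879916_ag.SS.ZCst
import Pool.Agent.Lib.MP_879916_ag.SS.ZPv
import Pool.Agent.Lib.MP_751085_ag.ZF.Z.TypW

/-! Constant radicals that are unramified at a Gauss valuation. -/

namespace Pool.Agent.ZFy.ZL

open Pool.Agent.ZCy Pool.Agent.ZFN
open scoped Classical WithZero Polynomial

set_option linter.unusedSectionVars false

/-- the values of polynomials at a Gauss valuation are values of constants -/
theorem zgau_val {k N : Type} [Field k] [Field N] {u : Vl k} {φ : k[X] →+* N} {W : Vl N}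
    (h : GauP u φ W) (p : k[X]) : ∃ a : k, W (φ p) = W (φ (Polynomial.C a)) := by
  rcases eq_or_ne p 0 with rfl | hp
  · exact ⟨0, by rw [Polynomial.C_0]⟩
  obtain ⟨j, hj, hmax⟩ := p.support.exists_max_image (fun i => u (p.coeff i))
    (Polynomial.support_nonempty.2 hp)
  have hc : p.coeff j ≠ 0 := Polynomial.mem_support_iff.1 hj
  have h1 := h (Polynomial.C (p.coeff j)⁻¹ * p) fun i => by
    rw [Polynomial.coeff_C_mul, mul_comm, ← div_eq_mul_inv, map_div₀]
    refine div_le_one_of_le₀ ?_ zero_le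
    by_cases hi : i ∈ p.support
    · exact hmax i hi
    · rw [Polynomial.notMem_support_iff.1 hi, map_zero]
      exact zero_le
  have h2 : W (φ (Polynomial.C (p.coeff j)⁻¹ * p)) = 1 := h1.1.eq_of_not_lt fun H => by
    have := h1.2.1 H j
    rw [Polynomial.coeff_C_mul, inv_mul_cancel₀ hc, map_one] at this
    exact lt_irrefl _ this
  refine ⟨p.coeff j, ?_⟩
  have e : p = Polynomial.C (p.coeff j) * (Polynomial.C (p.coeff j)⁻¹ * p) := by
    rw [← mul_assoc, ← map_mul, mul_inv_cancel₀ hc, map_one, one_mul]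
  rw [congrArg φ e, map_mul, map_mul, h2, mul_one]

/-- a Gauss valuation restricts to the valuation of the constants -/
theorem zgau_over {k N : Type} [Field k] [Field N] {u : Vl k} {φ : k[X] →+* N} {W : Vl N}
    (h : GauP u φ W) : Over (φ.comp Polynomial.C) u W := by
  have hc : ∀ a : k, u a ≤ 1 → ∀ i, u ((Polynomial.C a).coeff i) ≤ 1 := fun a ha i => by
    rw [Polynomial.coeff_C]
    split_ifs
    · exact ha
    · rw [map_zero]; exact zero_le
  refine fun x => ⟨fun H => ?_, fun H => (h _ (hc x H)).1⟩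
  by_contra hn
  have h1 : 1 < u x := not_le.1 hn
  have h0 : x ≠ 0 := fun e => by simp [e] at h1
  have h2 : u x⁻¹ < 1 := by rw [map_inv₀]; exact inv_lt_one_of_one_lt₀ h1
  have h3 := (h _ (hc _ h2.le)).2.2 fun i => by
    rw [Polynomial.coeff_C]
    split_ifs
    · exact h2
    · rw [map_zero]; exact zero_lt_one
  have h4 : W ((φ.comp Polynomial.C) x⁻¹) * W ((φ.comp Polynomial.C) x) = 1 := by
    rw [← map_mul, ← map_mul, inv_mul_cancel₀ h0, map_one, map_one]
  exact (mul_lt_one_of_lt_of_le h3 H).ne h4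

/-- existence of Gauss valuations -/
theorem zgau_ex {k F N : Type} [Field k] [Field F] [Field N] [Algebra F N] [FiniteDimensional F N]
    {α : k[X] →+* F} (hα : IsFr α) {u : Vl k} (hu : Nrm u) : ∃ W : Vl N, GauP u (tE N α) W := by
  have := pv_dvr hu
  obtain ⟨π, hπ⟩ := IsDiscreteValuationRing.exists_irreducible u.integer
  obtain ⟨W, -, H1, H2⟩ := exists_cen_ext (E := N) (pv_frP hα u)
    (Polynomial.prime_C_iff.2 hπ.prime)
  refine ⟨W, fun p hp => ?_⟩
  obtain ⟨q, rfl⟩ := (Polynomial.mem_lifts _).1 ((Polynomial.lifts_iff_coeff_lifts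
    (f := u.integer.subtype) p).2 fun i => ⟨⟨_, hp i⟩, rfl⟩)
  refine ⟨H1 q, (H2 q).trans ?_⟩
  rw [Polynomial.C_dvd_iff_dvd_coeff]
  refine forall_congr' fun i => ?_
  rw [Polynomial.coeff_map]
  exact ((hu.isVR.cen hπ).2 _).symm

variable {l : ℕ} {k K N : Type} [Field k] [Field K] [Field N] [Algebra k[X] K]
  [IsFractionRing k[X] K] [Algebra K N] [FiniteDimensional K N] [IsGalois K N]

theorem zgau_map {k₁ : Type} [Field k₁] [Algebra k k₁] {c : k₁ →+* N}
    (hc : ∀ a : k, c (algebraMap k k₁ a) = cP K N a) (p : k[X]) :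
    cX (k := k) K c (p.map (algebraMap k k₁)) = toF k[X] K N p := by
  have : (cX (k := k) K c).comp (Polynomial.mapRingHom (algebraMap k k₁)) = toF k[X] K N := by
    refine Polynomial.ringHom_ext (fun a => ?_) ?_
    · simpa using hc a
    · simp
  exact DFunLike.congr_fun this p

theorem zgau_ex1 {k₁ : Type} [Field k₁] [Algebra k k₁] [FiniteDimensional k k₁] {c : k₁ →+* N}
    (hc : ∀ a : k, c (algebraMap k k₁ a) = cP K N a) {w₁ : Vl k₁} (hw : Nrm w₁) :
    ∃ W : Vl N, GauP w₁ (cX (k := k) K c) W := by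
  have hα := isFr_alg k₁[X] (Fr k₁[X])
  obtain ⟨j, hj⟩ := hα.exists_lift (cX_inj hc)
  obtain ⟨i, hi⟩ := (isFr_alg k[X] K).exists_lift
    (β := (algebraMap k₁[X] (Fr k₁[X])).comp (Polynomial.mapRingHom (algebraMap k k₁)))
    (hα.1.comp (Polynomial.map_injective _ (algebraMap k k₁).injective))
  have e : j.comp i = algebraMap K N := (isFr_alg k[X] K).hom_ext fun p => by
    rw [RingHom.comp_apply, hi, RingHom.comp_apply, hj]
    exact zgau_map hc p
  let := j.toAlgebra
  let := i.toAlgebra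
  have : IsScalarTower K (Fr k₁[X]) N := .of_algebraMap_eq fun a => (DFunLike.congr_fun e a).symm
  have := Module.Finite.of_restrictScalars_finite K (Fr k₁[X]) N
  obtain ⟨W, hW⟩ := zgau_ex (N := N) hα hw
  refine ⟨W, fun p hp => ?_⟩
  rw [← hj]
  exact hW p hp

/-- Take the Gauss valuation of `w₁` on the fraction field of `k₁[X]` (`exists_vcen` at `C π`,
`pv_dvr`) and `W` over it; `GauP u _ W` holds, so the values of `W` are values of `K`
(`e1_of_ine_bot`), which are values of `k`. -/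
theorem gau_dvd {k₁ : Type} [Field k₁] [Algebra k k₁] [FiniteDimensional k k₁] {c : k₁ →+* N}
    (hc : ∀ a : k, c (algebraMap k k₁ a) = cP K N a) {u : Vl k} (hu : UnP K u (toF k[X] K N))
    {w₁ : Vl k₁} (hw : Nrm w₁) (ho : Over (algebraMap k k₁) u w₁) {b : N} {β : k₁}
    (h : b ^ l = c β) : (l : ℤ) ∣ ord w₁ β := by
  obtain ⟨W, hW⟩ := zgau_ex1 hc hw
  have hG : GauP u (toF k[X] K N) W := fun p hp => by
    have := hW (p.map (algebraMap k k₁)) fun i => by
      rw [Polynomial.coeff_map]; exact (ho _).2 (hp i)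
    rw [zgau_map hc] at this
    refine ⟨this.1, this.2.trans (forall_congr' fun i => ?_)⟩
    rw [Polynomial.coeff_map]
    exact ho.lt_one _
  have hO : Over c w₁ W := fun x => by simpa using zgau_over hW x
  obtain ⟨e, he, hi⟩ := hO.idx hw
  obtain ⟨x, hx⟩ := e1_of_ine_bot (hu W hG) b
  obtain ⟨p, q, hq, rfl⟩ := IsFractionRing.div_surjective (A := k[X]) x
  obtain ⟨a, ha⟩ := zgau_val hG p
  obtain ⟨a', ha'⟩ := zgau_val hG q
  have h1 : W b = W (c (algebraMap k k₁ (a / a'))) := by
    rw [hx, hc, map_div₀, map_div₀, map_div₀, map_div₀]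
    exact congrArg₂ (· / ·) ha ha'
  have h2 : ord W b = e * ord w₁ (algebraMap k k₁ (a / a')) := by
    rw [← hi.ord, ord, h1, ord]
  have h3 := hi.ord β
  rw [← h, ord_pow_v, h2, mul_left_comm] at h3
  exact ⟨_, (mul_left_cancel₀ (Int.natCast_ne_zero.2 he) h3).symm⟩

end Pool.Agent.ZFy.ZL
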