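import Pool.Agent.Lib.MP_879916_ag.SS.ZCs2
import Pool.Agent.Lib.MP_879916_ag.SS.ZGau
import Pool.Agent.Lib.MP_751085_ag.ZF.Z.Kum
import Pool.Agent.Lib.MP_751085_ag.ZF.Z.Mon

/-! Constant radicals do not split. -/

namespace Pool.Agent.ZFy.ZL

open Pool.Agent.ZCy Pool.Agent.ZFN
open scoped Classical WithZero Polynomial

set_option linter.unusedSectionVars false

variable {l : ℕ} {k K N : Type} [Field k] [Field K] [Field N] [Algebra k[X] K]
  [IsFractionRing k[X] K] [Algebra K N] [FiniteDimensional K N] [IsGalois K N]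

variable {k₁ : Type} [Field k₁] [Algebra k k₁] [FiniteDimensional k k₁] {c : k₁ →+* N}

theorem zck_int (hc : ∀ a : k, c (algebraMap k k₁ a) = cP K N a) (a : k₁) :
    (cP (k := k) K N).IsIntegralElem (c a) := by
  obtain ⟨p, hp, e⟩ := IsIntegral.of_finite k a
  refine ⟨p, hp, ?_⟩
  rw [← (RingHom.ext hc : c.comp (algebraMap k k₁) = cP K N), ← Polynomial.hom_eval₂, e, map_zero]

theorem zck_zero (hc : ∀ a : k, c (algebraMap k k₁ a) = cP K N a) {w : Vl N}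
    (hw : ∀ p, w (toF k[X] K N p) ≤ 1) {a : k₁} (h : w (c a) < 1) : a = 0 := by
  by_contra h0
  exact h.ne (triv_of_algebraic (φ := cP (k := k) K N) (fun a => hw _) (zck_int hc a)
    ((map_ne_zero c).2 h0))

theorem zck_le (hc : ∀ a : k, c (algebraMap k k₁ a) = cP K N a) {w : Vl N}
    (hw : ∀ p, w (toF k[X] K N p) ≤ 1) (u : k₁[X]) : w (cX (k := k) K c u) ≤ 1 := by
  induction u using Polynomial.induction_on' with
  | add p q hp hq => rw [map_add]; exact w.map_add_le hp hq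
  | monomial n a =>
    rw [Polynomial.coe_eval₂RingHom, Polynomial.eval₂_monomial, map_mul, map_pow]
    exact mul_le_one' (le_one_of_integral (φ := cP (k := k) K N) (fun a => hw _) (zck_int hc a))
      (pow_le_one' (hw _) _)

theorem zck_lt (hc : ∀ a : k, c (algebraMap k k₁ a) = cP K N a) {z : k} {w : Vl N}
    (hw : Cen (toF k[X] K N) w (Polynomial.X - Polynomial.C z)) (u : k₁[X]) :
    w (cX (k := k) K c u - c (u.eval (algebraMap k k₁ z))) < 1 := by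
  obtain ⟨q, hq⟩ := Polynomial.X_sub_C_dvd_sub_C_eval (a := algebraMap k k₁ z) (p := u)
  have h1 : cX (k := k) K c (Polynomial.X - Polynomial.C (algebraMap k k₁ z)) =
      toF k[X] K N (Polynomial.X - Polynomial.C z) := by
    rw [map_sub, map_sub, Polynomial.coe_eval₂RingHom, Polynomial.eval₂_X, Polynomial.eval₂_C, hc]
    rfl
  have h2 : c (u.eval (algebraMap k k₁ z)) =
      cX (k := k) K c (Polynomial.C (u.eval (algebraMap k k₁ z))) := by
    rw [Polynomial.coe_eval₂RingHom, Polynomial.eval₂_C]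
  rw [h2, ← map_sub, hq, map_mul, h1, map_mul]
  exact mul_lt_one_of_lt_of_le ((hw.2 _).2 dvd_rfl) (zck_le hc hw.1 q)

/-- the residue of a quotient of radicals -/
theorem zck_res (hl : l ≠ 0) (hc : ∀ a : k, c (algebraMap k k₁ a) = cP K N a) {z : k} {w : Vl N}
    (hw : Cen (toF k[X] K N) w (Polynomial.X - Polynomial.C z)) {b r : N} {β : k₁} {u : k₁[X]}
    (hb : b ^ l = c β) (hr : r ^ l = cX (k := k) K c u) (hu : u.eval (algebraMap k k₁ z) ≠ 0)
    (hx : ∀ g ∈ Dec K w, (∀ a, g (c a) = c a) → g (b / r) = b / r) :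
    ∃ a, β = a ^ l * u.eval (algebraMap k k₁ z) := by
  have hi : ∀ a, w (c a) ≤ 1 := fun a =>
    le_one_of_integral (φ := cP (k := k) K N) (fun a => hw.1 _) (zck_int hc a)
  have h1 := zck_lt hc hw u
  have h2 : w (c (u.eval (algebraMap k k₁ z))) = 1 :=
    (hi _).eq_of_not_lt fun h => hu (zck_zero hc hw.1 h)
  have h3 : w (cX (k := k) K c u) = 1 := by
    rw [← sub_add_cancel (cX (k := k) K c u) (c (u.eval (algebraMap k k₁ z))),
      w.map_add_eq_of_lt_right (h2 ▸ h1), h2]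
  have h4 : w r = 1 := by
    rw [← hr, map_pow] at h3
    exact (pow_eq_one_iff_of_nonneg zero_le hl).1 h3
  have h5 : w b ≤ 1 := by
    have := hi β
    rw [← hb, map_pow] at this
    exact (pow_le_one_iff_of_nonneg zero_le hl).1 this
  have h6 : w (b / r) ≤ 1 := by rw [map_div₀, h4, div_one]; exact h5
  have r0 : r ≠ 0 := fun e => by simp [e] at h4
  obtain ⟨a, ha⟩ := res_cstH hc hw h6 hx
  refine ⟨a, sub_eq_zero.1 (zck_zero hc hw.1 (w := w) ?_)⟩
  have h7 : w ((b / r) ^ l - c a ^ l) < 1 := by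
    rw [← Commute.mul_geom_sum₂ (Commute.all _ _), map_mul]
    refine mul_lt_one_of_lt_of_le ha (w.map_sum_le fun i _ => ?_)
    rw [map_mul, map_pow, map_pow]
    exact mul_le_one' (pow_le_one' h6 _) (pow_le_one' (hi a) _)
  have e : c (β - a ^ l * u.eval (algebraMap k k₁ z)) = ((b / r) ^ l - c a ^ l) * r ^ l +
      c a ^ l * (cX (k := k) K c u - c (u.eval (algebraMap k k₁ z))) := by
    rw [map_sub, map_mul, map_pow, ← hb, ← hr, div_pow, sub_mul, div_mul_cancel₀ _ (pow_ne_zero l r0)]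
    ring
  rw [e]
  refine w.map_add_lt ?_ ?_
  · rw [map_mul, map_pow w r, h4, one_pow, mul_one]
    exact h7
  · rw [map_mul, map_pow, mul_comm]
    exact mul_lt_one_of_lt_of_le h1 (pow_le_one' (hi a) _)

/-- the character defined by a radical -/
theorem zck_chr {G Ω : Type} [Group G] [Field Ω] [Algebra K Ω] [NeZero l] (D : Subgroup (Ω ≃ₐ[K] Ω))
    (ρ : (Ω ≃ₐ[K] Ω) →* G) (P : Subgroup G) {ξ b : Ω} (hξ : IsPrimitiveRoot ξ l) (b0 : b ≠ 0)
    (h1 : ∀ γ, ∃ δ ∈ D, ρ δ = γ) (h2 : ∀ δ ∈ D, ρ δ = 1 → δ b = b)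
    (h3 : ∀ δ, ρ δ ∈ P → δ ξ = ξ ∧ δ (b ^ l) = b ^ l) :
    ∃ χ : P →* Multiplicative (ZMod l), ∀ δ ∈ D, ∀ γ : P, ρ δ = γ →
      δ b = ξ ^ (χ γ).toAdd.val * b := by
  have h4 : ∀ γ : P, ∃ i : ZMod l, ∀ δ ∈ D, ρ δ = γ → δ b = ξ ^ i.val * b := fun γ => by
    obtain ⟨δ, hδ, e⟩ := h1 γ
    obtain ⟨i, hi, e'⟩ := hξ.eq_pow_of_pow_eq_one (ξ := δ b / b) (by
      rw [div_pow, ← map_pow, (h3 δ (e ▸ γ.2)).2, div_self (pow_ne_zero l b0)])
    refine ⟨i, fun δ' hδ' e'' => ?_⟩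
    have := h2 (δ⁻¹ * δ') (mul_mem (inv_mem hδ) hδ') (by rw [map_mul, map_inv, e, e'', inv_mul_cancel])
    rw [ZMod.val_cast_of_lt hi, e', div_mul_cancel₀ _ b0]
    conv_rhs => rw [← this, ← AlgEquiv.mul_apply, mul_inv_cancel_left]
  choose f hf using h4
  refine ⟨MonoidHom.mk' (fun γ => Multiplicative.ofAdd (f γ)) fun γ γ' => ?_, fun δ hδ γ e => hf γ δ hδ e⟩
  obtain ⟨δ, hδ, e⟩ := h1 γ
  obtain ⟨δ', hδ', e'⟩ := h1 γ'
  have h5 := hf (γ * γ') (δ * δ') (mul_mem hδ hδ') (by rw [map_mul, e, e']; rfl)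
  rw [AlgEquiv.mul_apply, hf γ' δ' hδ' e', map_mul, map_pow, (h3 δ (e ▸ γ.2)).1, hf γ δ hδ e,
    ← mul_assoc, mul_left_inj' b0, ← pow_add, add_comm, pow_eq_pow_mod _ hξ.pow_eq_one,
    ← ZMod.val_add] at h5
  rw [← ofAdd_add]
  exact congrArg _ (ZMod.val_injective l (hξ.pow_inj (ZMod.val_lt _) (ZMod.val_lt _) h5)).symm

/-- Let `Ω, m, w, b` be as in `CstOK`, `b ≠ 0`, `D = Dec K w`, `V = fixS K (range m)`. Then
`b ^ l = m (c β)` (`kum_fix`, `hc.rng`). Every `γ ∈ geoP` lifts to `δ ∈ D` (`Rs.dec_onto` and `hI`), and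
`δ b = m ζ ^ χ γ * b` defines a character `χ` of `geoP`, since `V ⊓ D` fixes `b`. If `χ = 1`, then
`res_cstH` for `m ∘ c` gives `b = m (c a)` (`triv_of_algebraic`). Otherwise take `r, u` from `hr`:
`res_cstH` for `b / m r` gives `β = a ^ l u(z)`, against `gau_dvd`. -/
theorem cstOK_of (hl : l.Prime) (hc : CstF (k := k) K c) {ζ : N} (hζ : IsPrimitiveRoot ζ l)
    {𝒯 : Finset (Place k)} {z : k}
    (hI : Inert K (toF k[X] K N) (Polynomial.X - Polynomial.C z))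
    (hr : ∀ χ : geoP k K N →* Multiplicative (ZMod l), χ ≠ 1 → ∃ (r : N) (u : k₁[X]),
      r ^ l = cX (k := k) K c u ∧
      (∀ g : geoP k K N, (g : N ≃ₐ[K] N) r = ζ ^ (χ g).toAdd.val * r) ∧
      u.eval (algebraMap k k₁ z) ≠ 0 ∧ ∃ v ∈ 𝒯, ∃ w₁ : Vl k₁, Nrm w₁ ∧
        Over (algebraMap k k₁) (plv v) w₁ ∧ ¬(l : ℤ) ∣ ord w₁ (u.eval (algebraMap k k₁ z))) :
    CstOK K l N 𝒯 z := by
  intro Ω _ _ _ _ m hU w hw b hb hbl hD g hg
  rcases eq_or_ne b 0 with rfl | b0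
  · exact map_zero g
  have : NeZero l := ⟨hl.ne_zero⟩
  have hm : ∀ p, m (toF k[X] K N p) = toF k[X] K Ω p := fun p => m.commutes _
  let c' : k₁ →+* Ω := (m : N →+* Ω).comp c
  have hc' : ∀ a : k, c' (algebraMap k k₁ a) = cP K Ω a := fun a =>
    (congrArg m (hc.alg a)).trans (hm _)
  obtain ⟨β', hβ'⟩ := kum_fix m fun g hg => hbl g (mem_fixS_range.2 hg)
  obtain ⟨β, rfl⟩ := hc.rng β' (by
    let := (cP (k := k) K Ω).toAlgebra
    obtain ⟨p, hp, e⟩ := IsIntegral.pow (R := k) hb l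
    refine ⟨p, hp, (m : N →+* Ω).injective ?_⟩
    rw [Polynomial.hom_eval₂, map_zero, ← e, ← hβ']
    congr 1
    exact RingHom.ext fun a => hm _)
  have hs : Sq (RingHom.id K) (m : N →+* Ω) := fun a => m.commutes a
  obtain ⟨ρ, hρ⟩ := exists_rs hs
  have hu : Dec K (w.comap (m : N →+* Ω)) = ⊤ := hI _
    ⟨fun p => (congrArg w (hm p)).trans_le (hw.1 p),
      fun p => (iff_of_eq (congrArg (w · < 1) (hm p))).trans (hw.2 p)⟩
  have hζ' : (cP (k := k) K N).IsIntegralElem ζ := ⟨Polynomial.X ^ l - Polynomial.C 1,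
    Polynomial.monic_X_pow_sub_C _ hl.ne_zero, by simp [hζ.pow_eq_one]⟩
  obtain ⟨χ, hχ⟩ := zck_chr (Dec K w) ρ (geoP k K N) (hζ.map_of_injective (m : N →+* Ω).injective)
    b0 (fun γ => hρ.dec_onto hs (u := w.comap (m : N →+* Ω)) (fun _ => Iff.rfl)
      (hu ▸ Subgroup.mem_top γ))
    (fun δ hδ e => hD δ (mem_fixS_range.2 fun x => (hρ δ x).symm.trans (by rw [e]; rfl)) hδ)
    fun δ hδ => ⟨(hρ δ ζ).symm.trans (congrArg m (hδ ζ hζ')),
      hβ' ▸ (hρ δ _).symm.trans (congrArg m (hδ _ (zck_int hc.alg β)))⟩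
  have hge : ∀ δ : Ω ≃ₐ[K] Ω, (∀ a, δ (c' a) = c' a) → ρ δ ∈ geoP k K N := fun δ h =>
    hc.geo ▸ mem_fixS_range.2 fun a => (m : N →+* Ω).injective ((hρ δ _).trans (h a))
  by_cases h1 : χ = 1
  · obtain ⟨a, ha⟩ := res_cstH hc' hw (le_one_of_integral (φ := cP (k := k) K Ω) (fun a => hw.1 _) hb)
      fun δ hδ h => by
        rw [hχ δ hδ ⟨_, hge δ h⟩ rfl, h1]
        simp
    have e : b = c' a := by
      by_contra h
      exact ha.ne (triv_of_algebraic (φ := cP (k := k) K Ω) (fun a => hw.1 _)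
        (hb.sub _ (zck_int hc' a)) (sub_ne_zero.2 h))
    rw [e]
    exact mem_fixS_range.1 hg _
  · obtain ⟨r, u, h2, h3, h4, v, hv, w₁, h5, h6, h7⟩ := hr χ h1
    have h8 : m r ^ l = cX (k := k) K c' u := by
      rw [← map_pow, h2, Polynomial.coe_eval₂RingHom, Polynomial.coe_eval₂RingHom, ← hm]
      exact Polynomial.hom_eval₂ u c (m : N →+* Ω) _
    obtain ⟨a, ha⟩ := zck_res hl.ne_zero hc' hw (β := β) hβ'.symm h8 h4 fun δ hδ h => by
      have e : δ (m r) = m ζ ^ (χ ⟨_, hge δ h⟩).toAdd.val * m r := by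
        rw [← map_pow, ← map_mul, ← h3]
        exact (hρ δ r).symm
      rw [map_div₀, hχ δ hδ ⟨_, hge δ h⟩ rfl, e]
      exact mul_div_mul_left _ _ (pow_ne_zero _ ((map_ne_zero m).2 (hζ.ne_zero hl.ne_zero)))
    have h9 := gau_dvd hc' (hU v hv) h5 h6 (β := β) hβ'.symm
    have a0 : a ^ l ≠ 0 := fun e => pow_ne_zero l b0 (by
      rw [← hβ', ha, e, zero_mul, map_zero, map_zero])
    rw [ha, ord_mul_v _ a0 h4, ord_pow_v] at h9
    exact absurd ((dvd_add_right (dvd_mul_right _ _)).1 h9) h7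

end Pool.Agent.ZFy.ZL
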