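import Pool.Agent.Lib.MP_879916_ag.SS.ZCst

/-! Residues at rational points. -/

namespace Pool.Agent.ZFy.ZL

open Pool.Agent.ZCy Pool.Agent.ZFN
open scoped Classical WithZero Polynomial

set_option linter.unusedSectionVars false

variable {l : ℕ} {k K N : Type} [Field k] [Field K] [Field N] [Algebra k[X] K]
  [IsFractionRing k[X] K] [Algebra K N] [FiniteDimensional K N] [IsGalois K N]

variable {k₁ : Type} [Field k₁] [Algebra k k₁] [FiniteDimensional k k₁] {c : k₁ →+* N}

theorem zcs2_int (hc : ∀ a : k, c (algebraMap k k₁ a) = cP K N a) (a : k₁) :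
    (cP (k := k) K N).IsIntegralElem (c a) := by
  obtain ⟨p, hp, e⟩ := IsIntegral.of_finite k a
  refine ⟨p, hp, ?_⟩
  rw [← (RingHom.ext hc : c.comp (algebraMap k k₁) = cP K N), ← Polynomial.hom_eval₂, e, map_zero]

theorem zcs2_zero (hc : ∀ a : k, c (algebraMap k k₁ a) = cP K N a) {w : Vl N}
    (hw : ∀ p, w (toF k[X] K N p) ≤ 1) {a : k₁} (h : w (c a) < 1) : a = 0 := by
  by_contra h0
  exact h.ne (triv_of_algebraic (φ := cP (k := k) K N) (fun a => hw _) (zcs2_int hc a)
    ((map_ne_zero c).2 h0))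

theorem zcs2_le (hc : ∀ a : k, c (algebraMap k k₁ a) = cP K N a) {w : Vl N}
    (hw : ∀ p, w (toF k[X] K N p) ≤ 1) (u : k₁[X]) : w (cX (k := k) K c u) ≤ 1 := by
  induction u using Polynomial.induction_on' with
  | add p q hp hq => rw [map_add]; exact w.map_add_le hp hq
  | monomial n a =>
    rw [Polynomial.coe_eval₂RingHom, Polynomial.eval₂_monomial, map_mul, map_pow]
    exact mul_le_one' (le_one_of_integral (φ := cP (k := k) K N) (fun a => hw _) (zcs2_int hc a))
      (pow_le_one' (hw _) _)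

theorem zcs2_lt (hc : ∀ a : k, c (algebraMap k k₁ a) = cP K N a) {z : k} {w : Vl N}
    (hw : Cen (toF k[X] K N) w (Polynomial.X - Polynomial.C z)) (u : k₁[X]) :
    w (cX (k := k) K c u - c (u.eval (algebraMap k k₁ z))) < 1 := by
  obtain ⟨q, hq⟩ := Polynomial.X_sub_C_dvd_sub_C_eval (a := algebraMap k k₁ z) (p := u)
  have h1 : cX (k := k) K c (Polynomial.X - Polynomial.C (algebraMap k k₁ z)) =
      toF k[X] K N (Polynomial.X - Polynomial.C z) := by
    rw [map_sub, map_sub, Polynomial.coe_eval₂RingHom, Polynomial.eval₂_X, Polynomial.eval₂_C, hc]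
    rfl
  have h2 : c (u.eval (algebraMap k k₁ z)) =
      cX (k := k) K c (Polynomial.C (u.eval (algebraMap k k₁ z))) := by
    rw [Polynomial.coe_eval₂RingHom, Polynomial.eval₂_C]
  rw [h2, ← map_sub, hq, map_mul, h1, map_mul]
  exact mul_lt_one_of_lt_of_le ((hw.2 _).2 dvd_rfl) (zcs2_le hc hw.1 q)

/-- the residue of a rational function -/
theorem zcs2_rat (hc : ∀ a : k, c (algebraMap k k₁ a) = cP K N a) {z : k} {w : Vl N}
    (hw : Cen (toF k[X] K N) w (Polynomial.X - Polynomial.C z)) {y : N} (h1 : w y ≤ 1) (n : ℕ) :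
    ∀ a b : k₁[X], b.natDegree ≤ n → b ≠ 0 → y * cX (k := k) K c b = cX (k := k) K c a →
      ∃ s, w (y - c s) < 1 := by
  have hi : ∀ a, w (c a) ≤ 1 := fun a =>
    le_one_of_integral (φ := cP (k := k) K N) (fun a => hw.1 _) (zcs2_int hc a)
  have key : ∀ a b : k₁[X], b.eval (algebraMap k k₁ z) ≠ 0 →
      y * cX (k := k) K c b = cX (k := k) K c a → ∃ s, w (y - c s) < 1 := fun a b h e => by
    refine ⟨a.eval (algebraMap k k₁ z) / b.eval (algebraMap k k₁ z), ?_⟩
    have h2 : w (c (b.eval (algebraMap k k₁ z))) = 1 :=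
      (hi _).eq_of_not_lt fun h' => h (zcs2_zero hc hw.1 h')
    have h3 : (y - c (a.eval (algebraMap k k₁ z) / b.eval (algebraMap k k₁ z))) *
        c (b.eval (algebraMap k k₁ z)) = (cX (k := k) K c a - c (a.eval (algebraMap k k₁ z))) -
          (cX (k := k) K c b - c (b.eval (algebraMap k k₁ z))) * y := by
      rw [sub_mul, ← map_mul, div_mul_cancel₀ _ h, ← e]
      ring
    rw [← mul_one (w _), ← h2, ← map_mul, h3, h2]
    refine w.map_sub_lt (zcs2_lt hc hw a) ?_
    rw [map_mul]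
    exact mul_lt_one_of_lt_of_le (zcs2_lt hc hw b) h1
  induction n with
  | zero =>
    intro a b hb b0 e
    refine key a b ?_ e
    rw [Polynomial.eq_C_of_natDegree_le_zero hb] at b0 ⊢
    rw [Polynomial.eval_C]
    exact fun h => b0 (by rw [h, map_zero])
  | succ n ih =>
    intro a b hb b0 e
    by_cases h : b.eval (algebraMap k k₁ z) = 0
    swap
    · exact key a b h e
    have h2 : a.eval (algebraMap k k₁ z) = 0 := by
      refine zcs2_zero hc hw.1 (w := w) ?_
      have h3 := zcs2_lt hc hw b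
      rw [h, map_zero, sub_zero] at h3
      rw [← sub_sub_cancel (cX (k := k) K c a) (c (a.eval (algebraMap k k₁ z)))]
      refine w.map_sub_lt ?_ (zcs2_lt hc hw a)
      rw [← e, map_mul, mul_comm]
      exact mul_lt_one_of_lt_of_le h3 h1
    obtain ⟨a', rfl⟩ := Polynomial.dvd_iff_isRoot.2 h2
    obtain ⟨b', rfl⟩ := Polynomial.dvd_iff_isRoot.2 h
    have b1 : b' ≠ 0 := right_ne_zero_of_mul b0
    rw [Polynomial.natDegree_mul (Polynomial.X_sub_C_ne_zero _) b1, Polynomial.natDegree_X_sub_C] at hb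
    refine ih a' b' (by omega) b1 (mul_left_cancel₀ ((map_ne_zero_iff _ (cX_inj hc)).2
      (Polynomial.X_sub_C_ne_zero (algebraMap k k₁ z))) ?_)
    rw [← map_mul, ← e, map_mul, mul_left_comm]

/-- `dns_of_dec` over the field generated by `K` and `c`; on `k₁[X]` the valuation is centred at
`X - z` -/
theorem res_cstH (hc : ∀ a : k, c (algebraMap k k₁ a) = cP K N a) {z : k} {w : Vl N}
    (hw : Cen (toF k[X] K N) w (Polynomial.X - Polynomial.C z)) {x : N} (h1 : w x ≤ 1)
    (hx : ∀ g ∈ Dec K w, (∀ a, g (c a) = c a) → g x = x) : ∃ a, w (x - c a) < 1 := by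
  let L := IntermediateField.fixedField (fixS K (Set.range c))
  obtain ⟨y, hy⟩ := dns_of_dec (K := L) (w := w) (x := x) (fun g hg =>
    hx (g.restrictScalars K) hg fun a => g.commutes ⟨c a,
      (IntermediateField.mem_fixedField_iff _ _).2 fun g hg => mem_fixS_range.1 hg a⟩) 1
  have h2 : w (x - algebraMap L N y) < 1 :=
    hy.trans_lt (by rw [← WithZero.exp_zero, WithZero.exp_lt_exp]; norm_num)
  have h3 : w (algebraMap L N y) ≤ 1 := by
    rw [← sub_sub_cancel x (algebraMap L N y)]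
    exact w.map_sub_le h1 h2.le
  obtain ⟨a, b, b0, e⟩ := fix_cX hc (x := algebraMap L N y)
    ((IntermediateField.mem_fixedField_iff _ _).1 y.2)
  obtain ⟨s, hs⟩ := zcs2_rat hc hw h3 _ a b le_rfl b0 e
  refine ⟨s, ?_⟩
  rw [← sub_add_sub_cancel x (algebraMap L N y)]
  exact w.map_add_lt h2 hs

theorem res_cst {z : k} {w : Vl N} (hw : Cen (toF k[X] K N) w (Polynomial.X - Polynomial.C z))
    {x : N} (h1 : w x ≤ 1) (hx : ∀ g ∈ Dec K w, g x = x) : ∃ a : k, w (x - cP K N a) < 1 :=
  res_cstH (k₁ := k) (c := cP K N) (fun _ => rfl) hw h1 fun g hg _ => hx g hg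

/-- `place_conj` for the decomposition group acting on the constants, `res_cst`,
`triv_of_algebraic` -/
theorem dec_geo {z : k} {w : Vl N} (hw : Cen (toF k[X] K N) w (Polynomial.X - Polynomial.C z))
    (g : N ≃ₐ[K] N) : ∃ δ ∈ Dec K w, ∃ γ ∈ geoP k K N, g = δ * γ := by
  let S : Subring N :=
    { carrier := {x | (cP (k := k) K N).IsIntegralElem x}
      mul_mem' := fun ha hb => ha.mul _ hb
      one_mem' := RingHom.isIntegralElem_one _
      add_mem' := fun ha hb => ha.add _ hb
      zero_mem' := RingHom.isIntegralElem_zero _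
      neg_mem' := fun ha => ha.neg _ }
  have hS : Stab (Dec K w) S := fun δ _ x ⟨p, hp, e⟩ => ⟨p, hp, by
    have := Polynomial.hom_eval₂ p (cP (k := k) K N) (δ : N →+* N) x
    rw [e, map_zero, show (δ : N →+* N).comp (cP (k := k) K N) = cP K N from
      RingHom.ext fun a => δ.commutes _] at this
    exact this.symm⟩
  obtain ⟨δ, hδ, e⟩ := hS.place_conj S.subtype ((g : N →+* N).comp S.subtype) fun a ha => by
    obtain ⟨s, hs⟩ := res_cst hw
      (le_one_of_integral (φ := cP (k := k) K N) (fun a => hw.1 _) a.2) ha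
    have e : (a : N) = cP K N s := by
      by_contra h
      exact hs.ne (triv_of_algebraic (φ := cP (k := k) K N) (fun a => hw.1 _)
        (RingHom.IsIntegralElem.sub _ a.2 (RingHom.isIntegralElem_map _)) (sub_ne_zero.2 h))
    exact (congrArg g e).trans ((g.commutes _).trans e.symm)
  refine ⟨δ, hδ, δ⁻¹ * g, fun x hx => ?_, (mul_inv_cancel_left δ g).symm⟩
  have : g x = δ x := e ⟨x, hx⟩
  rw [AlgEquiv.mul_apply, this, ← AlgEquiv.mul_apply, inv_mul_cancel, AlgEquiv.one_apply]

end Pool.Agent.ZFy.ZL
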