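import Pool.Agent.Lib.MP_879916_ag.SS.ZUn
import Pool.Agent.Lib.MP_751085_ag.ZF.Z.Inr

/-! The field of constants of a cover of the line. -/

namespace Pool.Agent.ZFy.ZL

open Pool.Agent.ZCy Pool.Agent.ZFN
open scoped Classical WithZero Polynomial

set_option linter.unusedSectionVars false

variable {l : ℕ} {k K N : Type} [Field k] [Field K] [Field N] [Algebra k[X] K]
  [IsFractionRing k[X] K] [Algebra K N] [FiniteDimensional K N] [IsGalois K N]

theorem zcst_inj : Function.Injective (toF k[X] K N) :=
  (algebraMap K N).injective.comp (IsFractionRing.injective k[X] K)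

theorem zcst_of_map {A B C : Type} [CommRing A] [CommRing B] [CommRing C] {f : A →+* B}
    {g : B →+* C} (hg : Function.Injective g) {x : B} (h : (g.comp f).IsIntegralElem (g x)) :
    f.IsIntegralElem x := by
  obtain ⟨p, hp, e⟩ := h
  exact ⟨p, hp, hg (by rw [Polynomial.hom_eval₂, e, map_zero])⟩

/-- a rational function that is integral over the constants is constant -/
theorem zcst_const {x : K} (h : (cP (k := k) K N).IsIntegralElem (algebraMap K N x)) :
    ∃ a : k, cP K N a = algebraMap K N x := by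
  have h1 : IsIntegral k[X] x := zcst_of_map (algebraMap K N).injective
    (RingHom.isIntegralElem.of_comp Polynomial.C (toF k[X] K N) h)
  obtain ⟨p, rfl⟩ := IsIntegrallyClosed.algebraMap_eq_of_integral h1
  have h2 : IsIntegral k p := zcst_of_map (f := Polynomial.C) (zcst_inj (K := K) (N := N)) h
  have h3 : p.natDegree = 0 := by
    by_contra h0
    exact p.transcendental h0 (mem_nonZeroDivisors_of_ne_zero
      (Polynomial.leadingCoeff_ne_zero.2 fun e => h0 (by rw [e]; rfl))) h2.isAlgebraic
  exact ⟨p.coeff 0, congrArg (toF k[X] K N) (Polynomial.eq_C_of_natDegree_eq_zero h3).symm⟩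

theorem zcst_stab (g : N ≃ₐ[K] N) {x : N} (h : (cP (k := k) K N).IsIntegralElem x) :
    (cP (k := k) K N).IsIntegralElem (g x) := by
  obtain ⟨p, hp, e⟩ := h
  refine ⟨p, hp, ?_⟩
  have := Polynomial.hom_eval₂ p (cP (k := k) K N) (g : N →+* N) x
  rw [e, map_zero, show (g : N →+* N).comp (cP (k := k) K N) = cP K N from
    RingHom.ext fun a => g.commutes _] at this
  exact this.symm

/-- Artin's theorem -/
theorem zcst_artin (G : Type) {k k₁ : Type} [Field k] [Field k₁] [Algebra k k₁] [Group G] [Finite G]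
    [MulSemiringAction G k₁] (h1 : ∀ (g : G) (a : k), g • algebraMap k k₁ a = algebraMap k k₁ a)
    (h2 : ∀ x : k₁, (∀ g : G, g • x = x) → ∃ a, algebraMap k k₁ a = x) :
    FiniteDimensional k k₁ ∧ IsGalois k k₁ := by
  let f : k →+* FixedPoints.subfield G k₁ := (algebraMap k k₁).codRestrict _ fun a g => h1 g a
  let e : k ≃+* FixedPoints.subfield G k₁ := RingEquiv.ofBijective f
    ⟨f.injective, fun x => (h2 x x.2).imp fun _ ha => Subtype.ext ha⟩
  have he : (algebraMap k k₁).comp (e.symm : FixedPoints.subfield G k₁ →+* k) =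
      ((RingEquiv.refl k₁ : k₁ ≃+* k₁) : k₁ →+* k₁).comp (algebraMap _ k₁) :=
    RingHom.ext fun x => congrArg Subtype.val (e.apply_symm_apply x)
  exact ⟨Module.Finite.of_equiv_equiv e.symm (RingEquiv.refl k₁) he,
    IsGalois.of_equiv_equiv (F := FixedPoints.subfield G k₁) (E := k₁) he⟩

/-- The elements that are integral over `k` form a subfield on which the Galois group acts with
fixed field `k` (an element of `k(X)` that is integral over `k` is constant); Artin's theorem
(`FixedPoints`). -/
theorem exists_cst (k K N : Type) [Field k] [Field K] [Field N] [Algebra k[X] K]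
    [IsFractionRing k[X] K] [Algebra K N] [FiniteDimensional K N] [IsGalois K N] :
    ∃ (k₁ : Type) (_ : Field k₁) (_ : Algebra k k₁) (_ : FiniteDimensional k k₁)
      (_ : IsGalois k k₁) (c : k₁ →+* N), CstF (k := k) K c := by
  let : Algebra k N := (cP (k := k) K N).toAlgebra
  let S := algebraicClosure k N
  have hS : Stab (⊤ : Subgroup (N ≃ₐ[K] N)) S.toSubfield.toSubring :=
    fun g _ x hx => zcst_stab (k := k) g hx
  let : MulSemiringAction (⊤ : Subgroup (N ≃ₐ[K] N)) S := hS.msa
  obtain ⟨h1, h2⟩ := zcst_artin (⊤ : Subgroup (N ≃ₐ[K] N)) (k := k) (k₁ := S)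
    (fun g a => Subtype.ext (g.1.commutes _)) fun x hx => by
      obtain ⟨y, hy⟩ := mem_range_of_fix (K := K) (x := (x : N)) fun g =>
        congrArg Subtype.val (hx ⟨g, Subgroup.mem_top g⟩)
      obtain ⟨a, ha⟩ := zcst_const (k := k) (N := N) (x := y) (hy ▸ x.2)
      exact ⟨a, Subtype.ext (ha.trans hy)⟩
  exact ⟨S, inferInstance, inferInstance, h1, h2, S.val.toRingHom, fun _ => rfl,
    fun x hx => ⟨⟨x, hx⟩, rfl⟩⟩

variable {k₁ : Type} [Field k₁] [Algebra k k₁] [FiniteDimensional k k₁] {c : k₁ →+* N}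

theorem cX_inj (hc : ∀ a : k, c (algebraMap k k₁ a) = cP K N a) :
    Function.Injective (cX (k := k) K c) := by
  let : Algebra k N := (cP (k := k) K N).toAlgebra
  let : Algebra k₁ N := c.toAlgebra
  have : IsScalarTower k k₁ N := .of_algebraMap_eq fun a => (hc a).symm
  have h : Transcendental k (toF k[X] K N Polynomial.X) := by
    rw [transcendental_iff_injective]
    have e : ∀ p : k[X], Polynomial.aeval (toF k[X] K N Polynomial.X) p = toF k[X] K N p :=
      fun p => by
        rw [Polynomial.aeval_def]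
        exact (Polynomial.hom_eval₂ p Polynomial.C (toF k[X] K N) Polynomial.X).symm.trans
          (congrArg _ Polynomial.eval₂_C_X)
    intro p q hpq
    rw [e, e] at hpq
    exact zcst_inj hpq
  exact transcendental_iff_injective.1 (h.extendScalars k₁)

/-- the quotients form an intermediate field, and `fixedField_fixingSubgroup` -/
theorem fix_cX (hc : ∀ a : k, c (algebraMap k k₁ a) = cP K N a) {x : N}
    (hx : ∀ g ∈ fixS K (Set.range c), g x = x) :
    ∃ a b : k₁[X], b ≠ 0 ∧ x * cX (k := k) K c b = cX (k := k) K c a := by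
  let φ : FractionRing k₁[X] →+* N := IsFractionRing.lift (cX_inj hc)
  have hφ : ∀ p, φ (algebraMap k₁[X] _ p) = cX (k := k) K c p := IsFractionRing.lift_algebraMap _
  have h1 : ∀ p : k[X], cX (k := k) K c (p.map (algebraMap k k₁)) = toF k[X] K N p := fun p => by
    rw [Polynomial.coe_eval₂RingHom, Polynomial.eval₂_map,
      (RingHom.ext hc : c.comp (algebraMap k k₁) = cP K N)]
    exact (Polynomial.hom_eval₂ p Polynomial.C (toF k[X] K N) Polynomial.X).symm.trans
      (congrArg _ Polynomial.eval₂_C_X)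
  let L : IntermediateField K N := φ.fieldRange.toIntermediateField fun a => by
    obtain ⟨p, q, -, rfl⟩ := IsFractionRing.div_surjective (A := k[X]) a
    rw [map_div₀]
    exact div_mem ⟨_, (hφ _).trans (h1 p)⟩ ⟨_, (hφ _).trans (h1 q)⟩
  have h2 : x ∈ L := by
    rw [← IsGalois.fixedField_fixingSubgroup L, IntermediateField.mem_fixedField_iff]
    refine fun g hg => hx g (mem_fixS_range.2 fun a => hg ⟨c a, _, (hφ (Polynomial.C a)).trans ?_⟩)
    rw [Polynomial.coe_eval₂RingHom, Polynomial.eval₂_C]
  obtain ⟨y, rfl⟩ := h2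
  obtain ⟨a, b, hb, rfl⟩ := IsFractionRing.div_surjective (A := k₁[X]) y
  refine ⟨a, b, nonZeroDivisors.ne_zero hb, ?_⟩
  rw [map_div₀, hφ, hφ, div_mul_cancel₀ _
    ((map_ne_zero_iff _ (cX_inj hc)).2 (nonZeroDivisors.ne_zero hb))]

theorem CstF.geo (h : CstF (k := k) K c) : fixS K (Set.range c) = geoP k K N := by
  refine congrArg (fixS K) (Set.ext fun x => ⟨?_, h.rng x⟩)
  rintro ⟨a, rfl⟩
  obtain ⟨p, hp, e⟩ := IsIntegral.of_finite k a
  refine ⟨p, hp, ?_⟩
  rw [← (RingHom.ext h.alg : c.comp (algebraMap k k₁) = cP K N), ← Polynomial.hom_eval₂, e,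
    map_zero]

end Pool.Agent.ZFy.ZL
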