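import Pool.Agent.Lib.MP_879916_ag.SS.ZUn
import Pool.Agent.Lib.MP_751085_ag.ZF.Z.CrtE
import Pool.Agent.Lib.MP_751085_ag.ZF.G.ExpA
import Pool.Agent.Lib.MP_751085_ag.ZF.G.ExpR

/-! Change of the base ring of the certificate. -/

namespace Pool.Agent.ZFy.ZL

open Pool.Agent.ZCy Pool.Agent.ZFN
open scoped Classical WithZero Polynomial

set_option linter.unusedSectionVars false

variable {l q : ℕ} {k A K F T N₁ : Type} [Field k] [CommRing A] [IsDomain A]
  [Field K] [Field F] [Field T] [Field N₁] [Algebra A K]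
  [IsFractionRing A K] [Algebra K[X] F] [IsFractionRing K[X] F] [Algebra F T]
  [FiniteDimensional F T] [IsGalois F T] [Algebra K N₁] [FiniteDimensional K N₁] [IsGalois K N₁]
  {c : k →+* A} {Th : A[X]} {Δ : A} {τ : T →+* Ls N₁}

/-- a cover over the larger ring is a cover over the smaller ring -/
def zct_cov {A' L F' N : Type} [CommRing A'] [Field L] [Field F'] [Field N] [Algebra L[X] F']
    [Algebra F' N] {φ : A[X] →+* T} {φ' : A'[X] →+* T} {i : A →+* A'}
    (h : ∀ p, φ' (p.map i) = φ p) {γ : A' →+* L} (d : Cov l φ' (Th.map i) F' N γ) :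
    Cov l φ Th F' N (γ.comp i) where
  j := d.j
  ι := d.ι
  hj p := by rw [← h, d.hj, Polynomial.map_map]
  hι := d.hι
  lext := d.lext
  unr := by
    have h1 := d.unr
    rwa [Polynomial.map_map] at h1

theorem zct_gd {A' R KK κ : Type} [CommRing A'] [CommRing R] [Field KK] [Field κ]
    {φ : A[X] →+* T} {φ' : A'[X] →+* T} {i : A →+* A'} (h : ∀ p, φ' (p.map i) = φ p)
    {η : A' →+* R} {α : R →+* KK} {v : Vl KK} {ρ : R →+* κ}
    (G : Gd l φ Th (η.comp i) α v ρ) : Gd l φ' (Th.map i) η α v ρ where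
  ta F' N _ _ _ _ _ _ _ d := G.ta F' N (zct_cov h d)
  le F' N _ _ _ _ _ _ _ d t ht := by
    rw [Polynomial.eval₂_map] at ht
    exact G.le F' N (zct_cov h d) t ht
  lift F' F₀ E₀ _ _ _ _ _ _ _ _ _ _ σ ι₀ h1 h2 h3 h4 h5 := by
    rw [Polynomial.map_map] at h3
    obtain ⟨E, _, _, _, _, d, e1, e2, e3⟩ := G.lift F' F₀ E₀ σ ι₀
      (fun p => by rw [← h, h1, Polynomial.map_map]; rfl) h2 h3 h4 h5
    refine ⟨E, _, _, ‹_›, ‹_›, ⟨d.j, d.ι, fun p => d.ι.injective ?_, d.hι, d.lext, ?_⟩,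
      e1, e2, e3⟩
    · rw [e1, h1, d.hι]
    · rw [Polynomial.map_map]
      exact d.unr

/-- Change of the base ring. For `gd` apply `C.gd` to `η.comp i`; a `Cov` over `A'` is a `Cov` over
`A`; in the field `lift` the equation `hj` over `A'` follows from `c.ι (c.j x) = τ x`. -/
theorem Crt.tr (C : Crt K F l q c Th Δ τ) (hU : UnS K (toF A K N₁) Δ) {k' A' : Type} [Field k']
    [CommRing A'] [Algebra A' K] (i : A →+* A')
    (hi : ∀ a, algebraMap A' K (i a) = algebraMap A K a) (c' : k' →+* A') (h0 : (l : k') ≠ 0) :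
    Crt K F l q c' (Th.map i) (i Δ) τ := by
  have e0 : (algebraMap A' K).comp i = algebraMap A K := RingHom.ext hi
  have e1 : (Th.map i).map (algebraMap A' K) = Th.map (algebraMap A K) := by
    rw [Polynomial.map_map, e0]
  have e2 : ∀ p : A[X], pA A' K F T (p.map i) = pA A K F T p := fun p => by
    show toF K[X] F T ((p.map i).map (algebraMap A' K)) = toF K[X] F T (p.map (algebraMap A K))
    rw [Polynomial.map_map, e0]
  have e3 : (pA A' K F T).comp (Polynomial.mapRingHom i) = pA A K F T := RingHom.ext e2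
  have e4 : (toF A' K N₁).comp i = toF A K N₁ := by
    rw [RingHom.comp_assoc, e0]
  refine ⟨C.prime, h0, C.monic.map i, e1 ▸ C.unrT, fun e => C.ne ?_, C.qne, C.cop,
    fun S _ f => C.frb S (f.comp i), C.hτ, ?_, ?_, ?_, e1 ▸ C.mon, e1 ▸ C.res⟩
  · apply IsFractionRing.injective A K
    rw [← hi, e, map_zero, map_zero]
  · rw [← e4] at hU
    exact hU.comp.unrOff
  · intro R KK κ _ _ _ _ _ _ η α v ρ ψ hv hρ hψ hΔ
    obtain ⟨g1, g2⟩ := C.gd R KK κ (η.comp i) α v ρ ψ hv hρ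
      (fun a => by rw [← e4]; exact hψ (i a)) hΔ
    refine ⟨zct_gd e2 g1, ?_⟩
    rw [Polynomial.map_map]
    exact g2
  · intro g hg
    obtain ⟨θ, z, p, n, h1, h2, h3, h4⟩ := C.sep g hg
    rw [← e3] at h1 h2
    refine ⟨θ, z, p.map i, n, h1.of_comp, h2.of_comp, h3.trans (e2 p).symm, ?_⟩
    rw [Polynomial.coeff_map]
    exact map_dvd i h4

end Pool.Agent.ZFy.ZL
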