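import Pool.Agent.Lib.MP_879916_ag.SS.Gau
import Pool.Agent.Lib.MP_879916_ag.SS.Pid
import Pool.Agent.Lib.MP_751085_ag.ZF.Z.TDefs
import Pool.Agent.Lib.MP_751085_ag.ZF.Z.Defs2
import Pool.Agent.Lib.MP_751085_ag.ZF.G.Defs

/-! The Zariski-Lefschetz theorem for pencils of surfaces: definitions. -/

namespace Pool.Agent.ZCy

/-- the slope -/
noncomputable abbrev slp {k : Type} [Field k] (a : Option Unit → k) : k := a (some ()) / a none

/-- `Q v z` is forced by one congruence at a place `v` that avoids any finite set -/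
def Loc1 {k V : Type} [Field k] (R : V → ValuationSubring k) (Q : V → k → Prop) : Prop :=
  ∀ S : Finset V, ∃ v ∉ S, ∃ s r : k, r ≠ 0 ∧ s ∈ R v ∧ r ∈ R v ∧
    ∀ z : k, (z - s) / r ∈ R v → Q v z

/-- the valuation rings of the places -/
abbrev plR (k : Type) [Field k] : Place k → ValuationSubring k := fun v => v.1

end Pool.Agent.ZCy

namespace Pool.Agent.ZFy

open Pool.Agent.ZCy Pool.Agent.ZFN
open scoped Classical WithZero Polynomial
open MvPolynomial

section

variable {A : Type} (K : Type) {N : Type} [CommRing A] [Field K] [Field N] [Algebra K N]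

/-- a certificate for unramifiedness off `Δ` -/
def SepC (φ : A →+* N) (Δ : A) : Prop :=
  ∀ g : N ≃ₐ[K] N, g ≠ 1 → ∃ θ y : N, φ.IsIntegralElem θ ∧ φ.IsIntegralElem y ∧
    (g θ - θ) * y = φ Δ

/-- unramified at all valuations that are integral on `A` and trivial on `Δ` -/
def UnS (φ : A →+* N) (Δ : A) : Prop :=
  ∀ w : Vl N, (∀ a, w (φ a) ≤ 1) → w (φ Δ) = 1 → Ine K w = ⊥

end

section

variable {k ι σ N Ω : Type} [Field k] [Field N] [Field Ω]

/-- the coefficients are integral -/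
def CfI (u : Vl k) (p : MP ι k) : Prop := ∀ m, u (coeff m p) ≤ 1

/-- unramified along blow-ups at the places of `𝒯` -/
def UB (L : Type) [Field L] [Algebra L N] (𝒯 : Finset (Place k)) (φ : MP (Option ι) k →+* N) :
    Prop := ∀ v ∈ 𝒯, ∃ π : k, π ≠ 0 ∧ plv v π ≤ 1 ∧ UnG L (plv v) (φ.comp (bl π))

/-- a point over the origin with values in `Ω` -/
def PtV (φ : MP ι k →+* N) (Θ : MP ι k) (f : k →+* Ω) : Prop :=
  ∃ q : IntOff φ Θ →+* Ω, ∀ p, q (toInt φ Θ p) = f (constantCoeff p)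

/-- `k₁` is generated by the values at a point over the origin -/
def PtM (φ : MP ι k →+* N) (Θ : MP ι k) (k₁ : Type) [Field k₁] [Algebra k k₁] : Prop :=
  ∃ q : IntOff φ Θ →+* k₁, (∀ p, q (toInt φ Θ p) = algebraMap k k₁ (constantCoeff p)) ∧
    ∀ δ : k₁ ≃ₐ[k] k₁, (∀ x, δ (q x) = q x) → δ = 1

/-- the primes off `Δ` and the Gauss valuations of the places of `𝒯` -/
def GS (K : Type) [Field K] [Algebra (MP ι k) K] (Δ : MP ι k) (𝒯 : Finset (Place k)) :
    Set (Vl K) := {u | (∃ P, Prime P ∧ ¬P ∣ Δ ∧ Cen (algebraMap (MP ι k) K) u P) ∨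
      ∃ v ∈ 𝒯, GauV (plv v) (algebraMap (MP ι k) K) u}

/-- `W` is centred at the Gauss valuation of `u` -/
def GauP (u : Vl k) (φ : k[X] →+* N) (W : Vl N) : Prop :=
  ∀ p : k[X], (∀ i, u (p.coeff i) ≤ 1) → W (φ p) ≤ 1 ∧ (W (φ p) < 1 ↔ ∀ i, u (p.coeff i) < 1)

/-- unramified at the Gauss valuation of `u` -/
def UnP (L : Type) [Field L] [Algebra L N] (u : Vl k) (φ : k[X] →+* N) : Prop :=
  ∀ W : Vl N, GauP u φ W → Ine L W = ⊥

/-- unramified at infinity -/
def UnI (L : Type) [Field L] [Algebra L N] (φ : k[X] →+* N) : Prop :=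
  ∀ W : Vl N, Triv (φ.comp Polynomial.C) W → 1 < W (φ Polynomial.X) → Ine L W = ⊥

end

section

variable {k σ L : Type} (T : Type) [Field k] [Fintype σ] [Field L] [Field T] [Algebra L T]

/-- Covers of the hyperplane `ξ_1 = 0` that are `l`-extensions of the residue field of `T` and
unramified along blow-ups at `𝒯` lift. -/
def ZLefS (l : ℕ) (α : MP (Option (Option σ)) k →+* L) (Θ : MP (Option (Option σ)) k)
    (𝒯 : Finset (Place k)) : Prop :=
  ∀ (LH EH : Type) [Field LH] [Field EH] [Algebra LH EH] [FiniteDimensional LH EH] [IsGalois LH EH]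
    (αH : MP (Option σ) k →+* LH) (wT : Vl T) (ρT : wT.integer →+* EH), IsFr αH →
    UnrOff LH (tE EH αH) (hyp Θ) → ResH α αH wT ρT → LXt l LH (Set.range ρT) →
    UB LH 𝒯 (tE EH αH) →
    ∃ (E : Type) (_ : Field E) (_ : Algebra L E) (_ : FiniteDimensional L E) (_ : IsGalois L E),
      Nonempty (ZOut α Θ αH wT ρT E)

/-- the same for the hyperplane `a ⬝ ξ = 0`, in all coordinates that are integral at `𝒯` -/
def ZHypS (l : ℕ) (α : MP (Option (Option σ)) k →+* L) (Θ : MP (Option (Option σ)) k)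
    (𝒯 : Finset (Place k)) (a : Option σ → k) : Prop :=
  ∀ M M' : Matrix (Option σ) (Option σ) k, M * M' = 1 → M' none = a →
    (∀ v ∈ 𝒯, ∀ i j, M i j ∈ v.1) →
    ZLefS T l (α.comp (aff 0 (extM M') : MP _ k →+* MP _ k)) (aff 0 (extM M) Θ) 𝒯

end

/-- the Zariski-Lefschetz theorem for pencils of surfaces over a global function field -/
def ThmZs : Prop := ∀ (k F₀ L T : Type) [Field k] [Field F₀] [Finite F₀] [Algebra (RatFunc F₀) k]
  [FiniteDimensional (RatFunc F₀) k] [Field L] [Field T] [Algebra L T] [FiniteDimensional L T]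
  [IsGalois L T] (α : MP (Option (Option Unit)) k →+* L) (Θ : MP (Option (Option Unit)) k) (l : ℕ),
  IsFr α → constantCoeff Θ ≠ 0 → UnrOff L (tE T α) Θ → l.Prime → (l : k) ≠ 0 →
    Hil (plR k) (ZHypS T l α Θ)

namespace ZL

section

variable (K F : Type) {T N₁ : Type} [Field K] [Field F] [Field T] [Field N₁] [Algebra K[X] F]
  [Algebra F T] [Algebra K N₁]

/-- a certificate over a ring in which `u` is centred at a good prime -/
def GdAt (l q : ℕ) (ThK : K[X]) (τ : T →+* Ls N₁) (u : Vl K) : Prop :=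
  ∃ (k A : Type) (_ : Field k) (_ : CommRing A) (_ : IsDomain A) (_ : UniqueFactorizationMonoid A)
    (_ : Algebra A K) (_ : IsFractionRing A K) (c : k →+* A) (Th : A[X]) (Δ P : A),
    Crt K F l q c Th Δ τ ∧ Th.map (algebraMap A K) = ThK ∧ Prime P ∧ ¬P ∣ Δ ∧
      Cen (algebraMap A K) u P

variable (N₁) in
/-- `K₁ N₁` is an `l`-extension of `N₁` -/
def LK1 (l : ℕ) (K₁ : Type) [Field K₁] [Algebra K K₁] : Prop :=
  ∀ (L : Type) [Field L] [Algebra K L] [FiniteDimensional K L] [IsGalois K L] (e : N₁ →ₐ[K] L)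
    (eK : K₁ →ₐ[K] L) (δ : L ≃ₐ[K] L), (∀ a, δ (e a) = e a) →
    ∃ n : ℕ, ∀ a, (δ ^ l ^ n) (eK a) = eK a

variable (N₁) in
/-- `y` is inert in all `l`-extensions of `N₁` that are unramified at `𝒰` -/
def INu (l : ℕ) (𝒰 : Set (Vl K)) {A : Type} [CommRing A] [Algebra A K] (y : A) : Prop :=
  ∀ (N : Type) [Field N] [Algebra K N] [FiniteDimensional K N] [IsGalois K N] (e : N₁ →ₐ[K] N),
    (∀ u ∈ 𝒰, Unr N u) → LXt l K (Set.range e) → Inert K (toF A K N) y

/-- the global data for the descent -/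
structure Glb (l q : ℕ) (ThK : K[X]) (τ : T →+* Ls N₁) (K₁ : Type) [Field K₁] [Algebra K K₁]
    (𝒰 : Set (Vl K)) {A : Type} [CommRing A] [Algebra A K] (y : A) : Prop where
  gd : ∀ u ∈ 𝒰, GdAt K F l q ThK τ u
  unr : ∀ u ∈ 𝒰, Unr K₁ u
  lk : LK1 K N₁ l K₁
  ine : INu K N₁ l 𝒰 y

end

section

variable {k : Type} (K : Type) [Field k] [Field K] [Algebra (MP (Option Unit) k) K]
  [Algebra (RF Unit k)[X] K]

/-- The plane as a pencil of lines: `s = -x₁ / x₂`, `t = Δ₀(s) / (x₂ - ρ)`. -/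
structure L3c (Δ : MP (Option Unit) k) (ρ : k) (Δ₀ : MP Unit k) : Prop where
  ne : Δ₀ ≠ 0
  d0 : Δ₀ = eval₂Hom C (fun i : Option Unit => i.elim (-(C ρ * X ())) fun _ => C ρ) Δ
  hC : ∀ a : k, algebraMap (RF Unit k)[X] K (Polynomial.C (rc Unit k a)) =
    algebraMap (MP (Option Unit) k) K (C a)
  hs : algebraMap (RF Unit k)[X] K (Polynomial.C (algebraMap (MP Unit k) (RF Unit k) (X ()))) *
    algebraMap (MP (Option Unit) k) K (X (some ())) = -algebraMap (MP (Option Unit) k) K (X none)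
  ht : algebraMap (RF Unit k)[X] K Polynomial.X *
    algebraMap (MP (Option Unit) k) K (X (some ()) - C ρ) =
      algebraMap (RF Unit k)[X] K (Polynomial.C (algebraMap (MP Unit k) (RF Unit k) Δ₀))

/-- the branch polynomial of the pencil -/
structure L3t (Δ : MP (Option Unit) k) (Δ₀ : MP Unit k) (Th : (MP Unit k)[X]) : Prop where
  monic : Th.Monic
  ex : ∃ (Th' : (MP Unit k)[X]) (d : ℕ), Th = Polynomial.X * Th' ∧
    algebraMap (RF Unit k)[X] K ((Polynomial.C Δ₀ * Th').map (algebraMap (MP Unit k) (RF Unit k))) =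
      algebraMap (MP (Option Unit) k) K Δ * algebraMap (RF Unit k)[X] K Polynomial.X ^ d

end

section

variable {k : Type} (K : Type) [Field k] [Field K] [Algebra k[X] K]

/-- the constants -/
noncomputable abbrev cP (N : Type) [Field N] [Algebra K N] : k →+* N := (toF k[X] K N).comp Polynomial.C

variable (k) in
/-- the geometric Galois group -/
abbrev geoP (N : Type) [Field N] [Algebra K N] : Subgroup (N ≃ₐ[K] N) :=
  fixS K {x : N | (cP (k := k) K N).IsIntegralElem x}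

/-- `z` is inert in all `l`-extensions of `L₁` that are unramified off `Δ` and at `𝒯` -/
def HLs (l : ℕ) (L₁ : Type) [Field L₁] [Algebra K L₁] (Δ : k[X]) (𝒯 : Finset (Place k)) (z : k) :
    Prop :=
  ∀ (M : Type) [Field M] [Algebra K M] [FiniteDimensional K M] [IsGalois K M] (e : L₁ →ₐ[K] M),
    UnrOff K (toF k[X] K M) Δ → (∀ v ∈ 𝒯, UnP K (plv v) (toF k[X] K M)) →
    LXt l K (Set.range e) → Inert K (toF k[X] K M) (Polynomial.X - Polynomial.C z)

/-- `N₂` and the constants contain the radicals over `L₁` that are unramified off `Δ` -/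
def KumN (l : ℕ) {L₁ N₂ : Type} [Field L₁] [Field N₂] [Algebra K L₁] [Algebra K N₂] (Δ : k[X])
    (e : L₁ →ₐ[K] N₂) : Prop :=
  ∀ (Ω : Type) [Field Ω] [Algebra K Ω] [FiniteDimensional K Ω] [IsGalois K Ω] (m : N₂ →ₐ[K] Ω)
    (r : Ω) (u : L₁), r ^ l = m (e u) → GM.TW l (toF k[X] K L₁) Δ u →
    ∀ g ∈ geoP k K Ω, (∀ x, g (m x) = m x) → g r = r

/-- constant radicals over `N₂` that are unramified at `𝒯` do not split at `z` -/
def CstOK (l : ℕ) (N₂ : Type) [Field N₂] [Algebra K N₂] (𝒯 : Finset (Place k)) (z : k) : Prop :=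
  ∀ (Ω : Type) [Field Ω] [Algebra K Ω] [FiniteDimensional K Ω] [IsGalois K Ω] (m : N₂ →ₐ[K] Ω),
    (∀ v ∈ 𝒯, UnP K (plv v) (toF k[X] K Ω)) →
    ∀ w : Vl Ω, Cen (toF k[X] K Ω) w (Polynomial.X - Polynomial.C z) →
    ∀ b : Ω, (cP (k := k) K Ω).IsIntegralElem b →
    (∀ g ∈ fixS K (Set.range m), g (b ^ l) = b ^ l) →
    (∀ g ∈ fixS K (Set.range m), g ∈ Dec K w → g b = b) → ∀ g ∈ fixS K (Set.range m), g b = b

/-- `k₁` is the field of constants of `N` -/
structure CstF {k₁ N : Type} [Field k₁] [Field N] [Algebra k k₁] [Algebra K N] (c : k₁ →+* N) :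
    Prop where
  alg : ∀ a : k, c (algebraMap k k₁ a) = cP K N a
  rng : ∀ x, (cP (k := k) K N).IsIntegralElem x → x ∈ c.range

/-- polynomials over the constants -/
noncomputable abbrev cX {k₁ N : Type} [Field k₁] [Field N] [Algebra K N] (c : k₁ →+* N) :
    k₁[X] →+* N := Polynomial.eval₂RingHom c (toF k[X] K N Polynomial.X)

/-- polynomials over the valuation ring -/
noncomputable abbrev aV (u : Vl k) : u.integer[X] →+* K :=
  (algebraMap k[X] K).comp (Polynomial.mapRingHom u.integer.subtype)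

/-- `g` lies in the decomposition group of an unramified point over `(u, s)` -/
def FPt {N : Type} [Field N] [Algebra K N] (u : Vl k) (s : u.integer) (g : N ≃ₐ[K] N) : Prop :=
  ∃ (Ω : Type) (_ : Field Ω) (_ : IsAlgClosed Ω) (Q : IntOff (tE N (aV K u)) 1 →+* Ω)
    (Φ : Ω →+* Ω), (∀ x, Q (gI (aV K u) 1 g x) = Φ (Q x)) ∧
    (∀ a : u.integer, Q (toInt _ 1 (Polynomial.C a)) = 0 ↔ u a < 1) ∧
    Q (toInt _ 1 (Polynomial.X - Polynomial.C s)) = 0 ∧
    ∀ h : N ≃ₐ[K] N, (∀ x, Q (gI (aV K u) 1 h x) = Q x) → h = 1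

end

end ZL

end Pool.Agent.ZFy
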