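import Pool.Agent.Lib.MP_879916_ag.SS.ZUn
import Pool.Agent.Lib.MP_751085_ag.ZF.Z.Pen2
import Pool.Agent.Lib.MP_751085_ag.ZF.G.ExpA
import Pool.Agent.Lib.MP_751085_ag.ZF.G.ExpR

/-! A Frobenius that fixes the cover. -/

namespace Pool.Agent.ZFy.ZL

open Pool.Agent.ZCy Pool.Agent.ZFN
open scoped Classical WithZero Polynomial
open MvPolynomial

set_option linter.unusedSectionVars false

theorem zfb_top {L N N' : Type} [Field L] [Field N] [Field N'] [Algebra L N'] {j : N →+* N'}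
    (hg : IntermediateField.adjoin L (Set.range j) = ⊤) (T : Subfield N')
    (h1 : ∀ a, algebraMap L N' a ∈ T) (h2 : ∀ x, j x ∈ T) (z : N') : z ∈ T :=
  (IntermediateField.adjoin_le_iff (T := Subfield.toIntermediateField T h1)).2
    (by rintro _ ⟨x, rfl⟩; exact h2 x) (hg ▸ IntermediateField.mem_top)

theorem zfb_fin {F₀ κ : Type} [Field F₀] [Finite F₀] [Field κ] (p : ℕ) [Fact p.Prime] [CharP κ p]
    [Algebra F₀ κ] [Algebra.IsAlgebraic F₀ κ] (S : Finset κ) :
    ∃ d : ℕ, 0 < d ∧ ∀ t : ℕ, ∀ a ∈ S, a ^ p ^ (d * t) = a := by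
  let E := IntermediateField.adjoin F₀ (S : Set κ)
  have : FiniteDimensional F₀ E := IntermediateField.finiteDimensional_adjoin fun a _ =>
    Algebra.IsIntegral.isIntegral a
  have : Finite E := Module.finite_of_finite F₀
  have := Fintype.ofFinite E
  have : CharP E p := (algebraMap E κ).charP (algebraMap E κ).injective p
  obtain ⟨d, -, hd⟩ := FiniteField.card E p
  refine ⟨d, d.2, fun t a ha => ?_⟩
  have h := FiniteField.pow_card_pow t (⟨a, IntermediateField.subset_adjoin _ _ ha⟩ : E)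
  rw [hd, ← pow_mul] at h
  exact congrArg Subtype.val h

/-- Extend the Frobenius `a ↦ a ^ card F₀` of the coefficients to `L` and to an algebraic closure
of `N'`; it maps `j N` to itself (`exists_twist`), hence `N'` to itself. A suitable power fixes
`j N` and `S`. -/
theorem exists_frobN {ι F₀ κ K₀ L N N' : Type} [Field F₀] [Finite F₀] [Field κ] [IsAlgClosed κ]
    [Field K₀] [Field L] [Field N] [Field N'] (p : ℕ) [Fact p.Prime] [CharP κ p] [Algebra F₀ κ]
    [Algebra.IsAlgebraic F₀ κ] [Algebra K₀ N] [FiniteDimensional K₀ N] [IsGalois K₀ N]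
    [Algebra L N'] [FiniteDimensional L N'] {α₀ : MP ι F₀ →+* K₀} {α : MP ι κ →+* L} (h₀ : IsFr α₀)
    (h : IsFr α) {φ : K₀ →+* L} (hφ : ∀ q, φ (α₀ q) = α (map (algebraMap F₀ κ) q)) {j : N →+* N'}
    (hj : Sq φ j) (hg : IntermediateField.adjoin L (Set.range j) = ⊤) (S : Finset κ) :
    ∃ (r : ℕ) (Φ : N' ≃+* N'), 0 < r ∧ (∀ x, Φ (j x) = j x) ∧
      (∀ a, Φ (tE N' α (C a)) = tE N' α (C (a ^ p ^ r))) ∧ ∀ a ∈ S, a ^ p ^ r = a := by
  have := Fintype.ofFinite F₀
  have : CharP F₀ p := (algebraMap F₀ κ).charP (algebraMap F₀ κ).injective p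
  obtain ⟨n, -, hn⟩ := FiniteField.card F₀ p
  let σ : κ →+* κ := iterateFrobenius κ p n
  have hσ : ∀ a, σ a = a ^ p ^ (n : ℕ) := fun _ => rfl
  have h1 : σ.comp (algebraMap F₀ κ) = algebraMap F₀ κ := RingHom.ext fun a => by
    rw [RingHom.comp_apply, hσ, ← map_pow, ← hn, FiniteField.pow_card]
  have h2 : Function.Surjective σ := (bijective_iterateFrobenius κ p n).2
  obtain ⟨τ, hτ⟩ := h.exists_lift (β := α.comp (map σ))
    (h.1.comp (map_injective σ σ.injective))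
  have hτ' : ∀ q, τ (α q) = α (map σ q) := hτ
  have h3 : ∀ a, τ (φ a) = φ a := RingHom.congr_fun (h₀.hom_ext (φ := τ.comp φ) (φ' := φ)
    fun q => by rw [RingHom.comp_apply, hφ, hτ', map_map, h1])
  have h4 : ∀ a, a ∈ τ.fieldRange := fun a => by
    obtain ⟨x, y, hy, e⟩ := h.2 a
    obtain ⟨x, rfl⟩ := map_surjective σ h2 x
    obtain ⟨y, rfl⟩ := map_surjective σ h2 y
    rw [eq_div_of_mul_eq (h.vfrc_ne hy) e]
    exact div_mem ⟨_, hτ' x⟩ ⟨_, hτ' y⟩
  let Ω := AlgebraicClosure N'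
  have : Algebra.IsIntegral L Ω := Algebra.IsIntegral.trans N'
  obtain ⟨s, hs⟩ := exists_ext (algebraMap L Ω) (fun x => Algebra.IsIntegral.isIntegral (R := L) x)
    ((algebraMap L Ω).comp τ)
  have hs' : ∀ a, s (algebraMap N' Ω (algebraMap L N' a)) =
      algebraMap N' Ω (algebraMap L N' (τ a)) := fun a => by
    rw [← IsScalarTower.algebraMap_apply, ← IsScalarTower.algebraMap_apply]
    exact hs a
  obtain ⟨g, hg'⟩ := exists_twist (K := K₀) ((algebraMap N' Ω).comp j)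
    (s.comp ((algebraMap N' Ω).comp j)) fun a => by
      simp only [RingHom.comp_apply]
      rw [hj, hs', h3]
  have h5 : ∀ x, s (algebraMap N' Ω (j x)) = algebraMap N' Ω (j (g x)) := hg'
  obtain ⟨s₀, h6⟩ := ring_factor (s.comp (algebraMap N' Ω)) (algebraMap N' Ω)
    (algebraMap N' Ω).injective (zfb_top hg
      ((algebraMap N' Ω).fieldRange.comap (s.comp (algebraMap N' Ω)))
      (fun a => ⟨_, (hs' a).symm⟩) fun x => ⟨_, (h5 x).symm⟩)
  have h7 : ∀ a, s₀ (algebraMap L N' a) = algebraMap L N' (τ a) := fun a =>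
    (algebraMap N' Ω).injective ((h6 _).trans (hs' a))
  have h8 : ∀ x, s₀ (j x) = j (g x) := fun x => (algebraMap N' Ω).injective ((h6 _).trans (h5 x))
  let Φ : N' ≃+* N' := RingEquiv.ofBijective s₀ ⟨s₀.injective, zfb_top hg s₀.fieldRange
    (fun a => by
      obtain ⟨b, rfl⟩ := h4 a
      exact ⟨_, h7 b⟩)
    fun x => by
      obtain ⟨y, rfl⟩ := g.surjective x
      exact ⟨_, h8 y⟩⟩
  have hΦ : ∀ x, Φ x = s₀ x := fun _ => rfl
  have h9 : ∀ m : ℕ, (∀ x, (Φ ^ m : RingAut N') (j x) = j ((g ^ m) x)) ∧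
      ∀ a, (Φ ^ m : RingAut N') (tE N' α (C a)) = tE N' α (C (a ^ p ^ (n * m))) := fun m => by
    induction m with
    | zero => exact ⟨fun _ => rfl, fun a => by rw [mul_zero, pow_zero p, pow_one]; rfl⟩
    | succ m ih =>
      refine ⟨fun x => ?_, fun a => ?_⟩
      · rw [pow_succ', pow_succ', RingAut.mul_apply, ih.1, hΦ, h8, AlgEquiv.mul_apply]
      · rw [pow_succ', RingAut.mul_apply, ih.2, hΦ, RingHom.comp_apply, h7, hτ', map_C, hσ,
          ← pow_mul, ← pow_add, mul_add, mul_one]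
        rfl
  obtain ⟨d, hd, hS⟩ := zfb_fin (F₀ := F₀) p S
  refine ⟨n * (orderOf g * d), (Φ ^ (orderOf g * d) : RingAut N'),
    Nat.mul_pos n.2 (Nat.mul_pos (orderOf_pos g) hd), fun x => ?_, (h9 _).2, fun a ha => ?_⟩
  · rw [(h9 _).1, pow_mul, pow_orderOf_eq_one, one_pow, AlgEquiv.one_apply]
  · rw [← mul_assoc, mul_comm _ d]
    exact hS _ a ha

end Pool.Agent.ZFy.ZL
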