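import Pool.Agent.Lib.MP_879916_ag.SS.ZUn
import Pool.Agent.Lib.MP_751085_ag.ZF.Z.Pen2
import Pool.Agent.Lib.MP_751085_ag.ZF.G.ExpA
import Pool.Agent.Lib.MP_751085_ag.ZF.G.ExpR

/-! An inert line, and a Frobenius that fixes the cover. -/

namespace Pool.Agent.ZFy.ZL

open Pool.Agent.ZCy Pool.Agent.ZFN
open scoped Classical WithZero Polynomial
open MvPolynomial

set_option linter.unusedSectionVars false

/-- the line `s = c₀ + c₁ t` -/
noncomputable def lnP {κ : Type} [Field κ] (c₀ c₁ : κ) : MP (Option Unit) κ :=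
  X (some ()) - (C c₀ + C c₁ * X none)

theorem zln_shift {ι k : Type} [Fintype ι] [Field k] (p : ι → k) :
    ∃ e : MP ι k ≃+* MP ι k, (∀ a, e (C a) = C a) ∧
      (∀ G, constantCoeff (e.symm G) = eval p G) ∧ ∀ i, e (X i) = X i - C (p i) := by
  obtain ⟨e, he, he'⟩ := exists_affE (M := 1) (M' := 1) (-p) (mul_one _)
  refine ⟨e, fun a => by rw [he, algHom_C, algebraMap_eq], fun G => ?_, fun i => ?_⟩
  · rw [he', const_aff, Matrix.one_mulVec, neg_neg]
  · rw [he]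
    simp [aff, Matrix.one_apply, apply_ite, sub_eq_neg_add]

/-- Pattern of `pen_ine` (ZF/Z/Pen2): shift a point with `Θ ≠ 0` to the origin (`exists_shift` or
`exists_affE`), normalise `Θ`, take `crt_of_unr spr fnt` for any prime `l` with `(l : κ) ≠ 0`,
`fin_lin`, and `inert_lin` with `T = N`, `e = id`. -/
theorem exists_line {κ L N : Type} [Field κ] [Infinite κ] [Field L] [Field N] [Algebra L N]
    [FiniteDimensional L N] [IsGalois L N] {α : MP (Option Unit) κ →+* L} (hα : IsFr α)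
    {Θ : MP (Option Unit) κ} (h0 : Θ ≠ 0) (hu : UnrOff L (tE N α) Θ) :
    ∃ c₀ c₁ : κ, Prime (lnP c₀ c₁) ∧ ¬lnP c₀ c₁ ∣ Θ ∧ Inert L (tE N α) (lnP c₀ c₁) := by
  obtain ⟨p, hp0⟩ : ∃ p, eval p Θ ≠ 0 := by
    by_contra h
    push Not at h
    exact h0 (MvPolynomial.funext fun x => by rw [h, map_zero])
  obtain ⟨l, hl, hl0⟩ : ∃ l : ℕ, l.Prime ∧ (l : κ) ≠ 0 := by
    by_cases h2 : ((2 : ℕ) : κ) = 0
    · refine ⟨3, Nat.prime_three, ?_⟩
      rw [show (3 : ℕ) = 2 + 1 from rfl, Nat.cast_succ, h2, zero_add]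
      exact one_ne_zero
    · exact ⟨2, Nat.prime_two, h2⟩
  obtain ⟨e, eC, e0, eX⟩ := zln_shift p
  obtain ⟨_, _, hp⟩ := exists_polA (hα.comp_equiv e)
  obtain ⟨Θ', hΘ⟩ : ∃ Θ', Θ' = C (eval p Θ)⁻¹ * e.symm Θ := ⟨_, rfl⟩
  have hc : constantCoeff Θ' = 1 := by
    rw [hΘ, map_mul, constantCoeff_C, e0, inv_mul_cancel₀ hp0]
  have hU : UnrOff L (tE N (α.comp (e : _ →+* _))) Θ' :=
    (unrOff_equiv (φ := tE N α) e).2 (unrOff_mono (n := 1) (by
      rw [hΘ, map_mul, e.apply_symm_apply, pow_one]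
      exact dvd_mul_left _ _) hu)
  obtain ⟨N₃, _, _, _, _, q, Δ, τ, c⟩ := crt_of_unr spr fnt hp hc hU hl hl0
  have hi : LinearIndependent κ ![(fun i : Option Unit => i.elim (0 : κ) fun _ => 1),
      fun i : Option Unit => i.elim (1 : κ) fun _ => 0] :=
    LinearIndependent.pair_iff.2 fun s t h =>
      ⟨by simpa using congrFun h (some ()), by simpa using congrFun h none⟩
  obtain ⟨ε, h1, h2⟩ := (fin_lin c.ne hi).exists
  have h3 := inert_lin hp (hc ▸ one_ne_zero) c h1 h2 (AlgHom.id L N) hU (by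
    refine fun g => ⟨0, Subtype.ext (AlgEquiv.ext fun x => ?_)⟩
    rw [pow_zero, pow_one]
    exact g.2 x (Or.inl ⟨x, rfl⟩))
  have h4 : Prime (lin ((fun i : Option Unit => i.elim (0 : κ) fun _ => 1) +
      ε • fun i : Option Unit => i.elim (1 : κ) fun _ => 0)) :=
    prime_lin fun h => h1 (funext fun j => congrFun h (some j))
  have h5 : e (lin ((fun i : Option Unit => i.elim (0 : κ) fun _ => 1) +
      ε • fun i : Option Unit => i.elim (1 : κ) fun _ => 0)) =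
      lnP (p (some ()) + ε * p none) (-ε) := by
    simp [lin, lnP, eC, eX]
    ring
  refine ⟨p (some ()) + ε * p none, -ε, h5 ▸ (MulEquiv.prime_iff e).2 h4, ?_,
    h5 ▸ (inert_equiv (φ := tE N α) e).1 h3⟩
  rintro ⟨G, hG⟩
  refine hp0 ?_
  rw [hG, map_mul]
  simp [lnP]

end Pool.Agent.ZFy.ZL
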