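import Pool.Agent.Lib.MP_879916_ag.SS.ZGe2
import Pool.Agent.Lib.MP_879916_ag.SS.ZFb
import Pool.Agent.Lib.MP_879916_ag.SS.ZLn
import Pool.Agent.Lib.MP_879916_ag.SS.ZChg

/-! A geometric automorphism is a Frobenius element. -/

namespace Pool.Agent.ZFy.ZL

open Pool.Agent.ZCy Pool.Agent.ZFN
open scoped Classical WithZero Polynomial
open MvPolynomial

set_option linter.unusedSectionVars false

/-- restriction to the line -/
noncomputable def zlcbL {κ : Type} [Field κ] (c₀ c₁ : κ) : MP (Option Unit) κ →+* κ[X] :=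
  eval₂Hom Polynomial.C fun i => i.elim Polynomial.X fun _ =>
    Polynomial.C c₀ + Polynomial.C c₁ * Polynomial.X

theorem zlcb_sec {κ : Type} [Field κ] (c₀ c₁ : κ) (q : κ[X]) :
    zlcbL c₀ c₁ (Polynomial.eval₂RingHom C (X none) q) = q :=
  RingHom.congr_fun (f := (zlcbL c₀ c₁).comp (Polynomial.eval₂RingHom C (X none)))
    (g := RingHom.id _) (Polynomial.ringHom_ext (fun a => by simp [zlcbL]) (by simp [zlcbL])) q

theorem zlcb_ker {κ : Type} [Field κ] (c₀ c₁ : κ) (a : MP (Option Unit) κ) :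
    zlcbL c₀ c₁ a = 0 ↔ lnP c₀ c₁ ∣ a := by
  refine ⟨fun h => ?_, fun ⟨b, h⟩ => by rw [h, map_mul]; simp [zlcbL, lnP]⟩
  have e : (Ideal.Quotient.mk (Ideal.span {lnP c₀ c₁})).comp
      ((Polynomial.eval₂RingHom C (X none)).comp (zlcbL c₀ c₁)) = Ideal.Quotient.mk _ :=
    ringHom_ext (fun a => by simp [zlcbL]) fun i => by
      rcases i with _ | i
      · simp [zlcbL]
      · refine (Ideal.Quotient.eq.2 (Ideal.mem_span_singleton.2 ?_)).symm
        simp [zlcbL, lnP]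
  have := RingHom.congr_fun e a
  rw [RingHom.comp_apply, RingHom.comp_apply, h, map_zero, map_zero] at this
  exact Ideal.mem_span_singleton.1 (Ideal.Quotient.eq_zero_iff_mem.1 this.symm)

theorem zlcb_map {κ : Type} [Field κ] {c₀ c₁ : κ} (f : κ →+* κ) (h0 : f c₀ = c₀) (h1 : f c₁ = c₁)
    (a : MP (Option Unit) κ) : zlcbL c₀ c₁ (map f a) = (zlcbL c₀ c₁ a).map f :=
  RingHom.congr_fun (f := (zlcbL c₀ c₁).comp (map f))
    (g := (Polynomial.mapRingHom f).comp (zlcbL c₀ c₁)) (ringHom_ext (fun a => by simp [zlcbL])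
      fun i => by rcases i with _ | i <;> simp [zlcbL, h0, h1]) a

theorem zlcb_ind {E M : Type} [Field E] [Field M] {w : Vl E} {ρ : w.integer →+* M} (h : IsRed w ρ)
    (hs : Function.Surjective ρ) (Ψ : E ≃+* E) (hw : ∀ x, w (Ψ x) ≤ 1 ↔ w x ≤ 1) :
    ∃ Φ : M ≃+* M, ∀ x y : w.integer, (y : E) = Ψ x → Φ (ρ x) = ρ y := by
  have ho : Over (Ψ : E →+* E) w w := hw
  obtain ⟨i, hi⟩ := h.factor hs (h.comp_int ho)
  refine ⟨RingEquiv.ofBijective i ⟨i.injective, fun z => ?_⟩, fun x y e =>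
    (hi x).trans (congrArg ρ (Subtype.ext e.symm))⟩
  obtain ⟨y, rfl⟩ := hs z
  exact ⟨ρ ⟨Ψ.symm y, (hw _).1 (by rw [Ψ.apply_symm_apply]; exact y.2)⟩,
    (hi _).trans (congrArg ρ (Subtype.ext (Ψ.apply_symm_apply _)))⟩

open Pool.Agent.ZeroCyc in
theorem zlcb_pt {κ M B : Type} [Field κ] [Field M] [Algebra (RatFunc κ) M] [Algebra κ M]
    [IsScalarTower κ (RatFunc κ) M] [CommRing B] {t : κ} {J : M →ₐ[κ] LaurentSeries κ}
    (hJ : J ∈ ZeroCyc.Emb M t) (β : B →+* M) {u : κ[X]} (hu : u.eval t ≠ 0)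
    (h : ∀ x, ∃ m : ℕ, (toF κ[X] (RatFunc κ) M).IsIntegralElem
      (toF κ[X] (RatFunc κ) M u ^ m * β x)) :
    ∃ Q : B →+* κ, (∀ x, Q x = (J (β x)).coeff 0) ∧
      ∀ x q, β x = toF κ[X] (RatFunc κ) M q → Q x = q.eval t := by
  have e : ∀ q, J (toF κ[X] (RatFunc κ) M q) = lid κ (sh t q) := fun q => by
    have e1 : toF κ[X] (RatFunc κ) M q = Polynomial.aeval (ZeroCyc.tE κ M) q :=
      RingHom.congr_fun (f := toF κ[X] (RatFunc κ) M)
        (g := (Polynomial.aeval (ZeroCyc.tE κ M)).toRingHom) (Polynomial.ringHom_ext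
          (fun a => by simp [IsScalarTower.algebraMap_apply κ (RatFunc κ) M])
          (by simp [ZeroCyc.tE])) q
    rw [e1, ZeroCyc.Emb.aeval hJ]
    simp [lau]
  have e0 : ∀ q, cc κ (sh t q) = q.eval t := fun q =>
    RingHom.congr_fun (f := (cc κ).comp (sh t)) (g := Polynomial.evalRingHom t)
      (Polynomial.ringHom_ext (fun a => by simp [sh]) (by simp [sh])) q
  have hv := isVR_lval κ
  obtain ⟨δ, hδ⟩ := ring_factor ((J : M →+* LaurentSeries κ).comp β) (lid κ) hv.2.1 fun x => by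
    obtain ⟨m, hm⟩ := h x
    have h1 := le_one_of_int (v := (lval κ).comap (J : M →+* LaurentSeries κ))
      (fun q => (congrArg (lval κ) (e q)).trans_le (hv.le_one _)) hm
    have h2 : (lval κ).comap (J : M →+* LaurentSeries κ) (toF κ[X] (RatFunc κ) M u) = 1 :=
      (congrArg (lval κ) (e u)).trans ((hv.le_one _).eq_of_not_lt fun h3 =>
        hu ((e0 u).symm.trans ((red_cc _).2 h3)))
    rw [map_mul, map_pow, h2, one_pow, one_mul] at h1
    exact (hv.2.2 _).1 h1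
  refine ⟨(cc κ).comp δ, fun x => ?_, fun x q hq => ?_⟩
  · have := coeff_lau (ι := RingHom.id κ) (δ x) 0
    rw [hδ] at this
    exact (by simp : _ = _).trans this.symm
  · rw [← e0]
    exact congrArg (cc κ) (hv.2.1 ((hδ x).trans ((congrArg J hq).trans (e q))))

/-- Let `κ` be the algebraic closure of `F₀`, `L = RF (Option Unit) κ`, `N'` from `exists_bc`, `g'`
from `geo_ext`; `N'` is unramified off `Θ` (`unrOff_bc`). Take `exists_line`, `w` centred at the
line, with `Dec = ⊤`, `Ine = ⊥`, its residue field `M` over `RatFunc κ` (`res_gal`), and `Φ'` from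
`exists_frobN` with `S = {c₀, c₁}`. `Φ'` keeps the line, hence `w` (`iff_of_dec_top`), and induces
`Φ_M` with `SemiL κ Φ_M (p ^ r)` that fixes the residues of `j N`. Apply `cheb_gen` to
`twi (Φ_M ^ (2 n)) (e g')` and `u = Θ` on the line; `Q x` is the constant coefficient of the
expansion of the residue of `j x` (it is integral by `exists_int_of_intOff`), and `Φ` is the
Frobenius of `κ`. -/
theorem line_cheb {F₀ K₀ N : Type} [Field F₀] [Finite F₀] [Field K₀] [Field N] [Algebra K₀ N]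
    [FiniteDimensional K₀ N] [IsGalois K₀ N] {α : MP (Option Unit) F₀ →+* K₀} (hα : IsFr α)
    {Θ : MP (Option Unit) F₀} (h0 : Θ ≠ 0) (hu : UnrOff K₀ (tE N α) Θ) {g : N ≃ₐ[K₀] N}
    (hg : g ∈ fixS K₀ (cstS (tE N α))) :
    ∃ (Ω : Type) (_ : Field Ω) (_ : IsAlgClosed Ω) (Q : IntOff (tE N α) Θ →+* Ω) (Φ : Ω →+* Ω)
      (P : ℤ[X]) (n : ℕ), (∀ x, Q (gI α Θ g x) = Φ (Q x)) ∧
      Q (toInt _ Θ (X (some ()))) = Polynomial.aeval (Q (toInt _ Θ (X none))) P ∧
      1 < n ∧ Q (toInt _ Θ (X none)) ^ n = Q (toInt _ Θ (X none)) := by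
  obtain ⟨p, hp⟩ := CharP.exists F₀
  have : Fact p.Prime := ⟨CharP.char_is_prime F₀ p⟩
  let κ := AlgebraicClosure F₀
  have : CharP κ p := charP_of_injective_algebraMap (algebraMap F₀ κ).injective p
  have hψ := map_injective (σ := Option Unit) _ (algebraMap F₀ κ).injective
  have hα' := isFr_alg (MP (Option Unit) κ) (RF (Option Unit) κ)
  generalize algebraMap (MP (Option Unit) κ) (RF (Option Unit) κ) = α' at hα'
  obtain ⟨φ, hφ⟩ := hα.exists_lift (β := α'.comp (map (algebraMap F₀ κ))) (hα'.1.comp hψ)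
  obtain ⟨N', _, _, _, _, j, r₀, hj, hr, hi, hg'⟩ := exists_bc N φ
  have hc : ∀ a, j (tE N α a) = tE N' α' (map (algebraMap F₀ κ) a) := fun a =>
    (hj _).trans (congrArg _ (hφ a))
  have hu' := unrOff_bc hα (flat_mv (flat_field _)) hψ hc hr hi hu
  obtain ⟨g', e'⟩ := geo_ext (α.comp C) (algebraMap F₀ κ)
    (fun a => Algebra.IsIntegral.isIntegral (R := F₀) a) (α'.comp C) φ
    (fun a => (hφ _).trans (congrArg α' (map_C _ a))) (eq_top_iff.2 fun x _ => by
      have h1 : ∀ a, α' a ∈ Subfield.closure (Set.range φ ∪ Set.range (α'.comp C)) := fun a => by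
        induction a using MvPolynomial.induction_on with
        | C a => exact Subfield.subset_closure (.inr ⟨a, rfl⟩)
        | add a b ha hb => rw [map_add]; exact add_mem ha hb
        | mul_X a i ha =>
          rw [map_mul]
          exact mul_mem ha (Subfield.subset_closure (.inl ⟨_, (hφ _).trans
            (congrArg α' (map_X _ i))⟩))
      obtain ⟨a, b, hb, e⟩ := hα'.2 x
      rw [eq_div_of_mul_eq (hα'.vfrc_ne hb) e]
      exact div_mem (h1 a) (h1 b)) hj hg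
  obtain ⟨c₀, c₁, hP, hd, hI⟩ := exists_line hα' ((map_ne_zero_iff _ hψ).2 h0) hu'
  obtain ⟨v, hv, -⟩ := exists_vcen hα' hP
  obtain ⟨ρ₀, r1, r2, r3⟩ := hv.exists_red hα' hP
    (l := (algebraMap κ[X] (RatFunc κ)).comp (zlcbL c₀ c₁)) fun a =>
      (map_eq_zero_iff _ (IsFractionRing.injective _ _)).trans (zlcb_ker c₀ c₁ a)
  obtain ⟨w, ho⟩ := exists_over (E := N') v
  have hw := (hv.over hα' hP).2 ho
  obtain ⟨M, _, _, _, _, ρ, -, s1, s2, s3, -⟩ := res_gal ho (hu' _ w hP hd hw) r1 (r3 fun y => by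
    obtain ⟨a, b, hb, rfl⟩ := IsFractionRing.div_surjective (A := κ[X]) y
    have hb' := (map_ne_zero_iff _ (IsFractionRing.injective κ[X] (RatFunc κ))).2
      (nonZeroDivisors.ne_zero hb)
    refine ⟨Polynomial.eval₂RingHom C (X none) a, Polynomial.eval₂RingHom C (X none) b, ?_⟩
    rw [RingHom.comp_apply, RingHom.comp_apply, zlcb_sec, zlcb_sec]
    exact ⟨hb', div_mul_cancel₀ _ hb'⟩)
  have s4 : ∀ a (y : w.integer), (y : N') = tE N' α' a →
      ρ y = toF κ[X] (RatFunc κ) M (zlcbL c₀ c₁ a) := fun a y e =>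
    (congrArg ρ (Subtype.ext e)).trans ((s3 ⟨_, hv.1 a⟩).trans (congrArg _ (r2 a)))
  let := ((algebraMap (RatFunc κ) M).comp (algebraMap κ (RatFunc κ))).toAlgebra
  have : IsScalarTower κ (RatFunc κ) M := .of_algebraMap_eq' rfl
  obtain ⟨r, Φ', hr0, f1, f2, f3⟩ := exists_frobN p hα hα' hφ hj hg' {c₀, c₁}
  obtain ⟨n, hn, H⟩ := cheb_gen p M (mt (zlcb_ker c₀ c₁ _).1 hd) hr0
  have f4 : ∀ m : ℕ, (∀ x, (Φ' ^ m) (j x) = j x) ∧
      (∀ a, (Φ' ^ m) (tE N' α' (C a)) = tE N' α' (C (a ^ p ^ (r * m)))) ∧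
      ∀ a ∈ ({c₀, c₁} : Finset κ), a ^ p ^ (r * m) = a := fun m => by
    induction m with
    | zero => exact ⟨fun _ => rfl, fun a => by simp, fun a _ => by simp⟩
    | succ m ih =>
      refine ⟨fun x => ?_, fun a => ?_, fun a ha => ?_⟩
      · rw [pow_succ, RingAut.mul_apply, f1, ih.1]
      · rw [pow_succ, RingAut.mul_apply, f2, ih.2.1, ← pow_mul, ← pow_add, Nat.mul_succ, add_comm]
      · rw [Nat.mul_succ, pow_add, pow_mul, ih.2.2 a ha, f3 a ha]
  obtain ⟨f5, f6, f7⟩ := f4 (2 * n)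
  rw [mul_left_comm] at f6 f7
  generalize Φ' ^ (2 * n) = Φ'' at f5 f6
  have hN : 2 * (r * n) ≠ 0 := by positivity
  generalize 2 * (r * n) = m at H f6 f7 hN
  let Ψ := g'.toRingEquiv.trans Φ''
  have g1 : ∀ x, Ψ (j x) = j (g x) := fun x => (congrArg Φ'' (e' x)).trans (f5 _)
  have g2 : ∀ a, Ψ (tE N' α' a) = tE N' α' (map (iterateFrobenius κ p m) a) := fun a =>
    RingHom.congr_fun (f := (Ψ : N' →+* N').comp (tE N' α'))
      (g := (tE N' α').comp (map (iterateFrobenius κ p m))) (ringHom_ext (fun a =>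
        (congrArg Φ'' (g'.commutes _)).trans ((f6 a).trans
          (congrArg _ (map_C (iterateFrobenius κ p m) a).symm))) fun i => by
          have e := hc (X i)
          rw [map_X] at e
          rw [RingHom.comp_apply _ (map _), map_X, RingHom.comp_apply _ (tE N' α'), ← e]
          exact (g1 _).trans (congrArg j (g.commutes _))) a
  have g3 := zlcb_map (iterateFrobenius κ p m) (f7 c₀ (by simp)) (f7 c₁ (by simp))
  obtain ⟨Φ, hΦ⟩ := zlcb_ind s1 s2 Ψ (iff_of_dec_top ho (w' := w.comap (Ψ : N' →+* N'))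
    ((hv.over hα' hP).1 ⟨fun a => (congrArg w (g2 a)).trans_le (hw.1 _), fun a => by
      rw [← zlcb_ker, ← Polynomial.map_eq_zero (iterateFrobenius κ p m), ← g3, zlcb_ker, ← hw.2,
        ← g2]
      rfl⟩) (hI w hw))
  have g4 : ∀ q, Φ (toF κ[X] (RatFunc κ) M q) =
      toF κ[X] (RatFunc κ) M (q.map (iterateFrobenius κ p m)) := fun q => by
    rw [← zlcb_sec c₀ c₁ q, ← g3, ← s4 _ ⟨_, hw.1 _⟩ rfl, ← s4 _ ⟨_, hw.1 _⟩ rfl]
    exact hΦ _ _ (g2 _).symm
  obtain ⟨t, J, k1, k2, k3, k4, k5⟩ := H Φ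
    ⟨by simpa [ZeroCyc.tE] using g4 Polynomial.X, fun c => by
      have := g4 (Polynomial.C c)
      rwa [Polynomial.map_C] at this⟩
  have hΘ : w (j (tE N α Θ)) = 1 := hc Θ ▸ (hw.eq_one _).2 hd
  let β : IntOff (tE N α) Θ →+* w.integer := (j.comp (Subring.subtype _)).codRestrict _ fun x =>
    le_one_of_intOff hα (fun a => hc a ▸ hw.1 _) hΘ x.2
  have b1 : ∀ a, ρ (β (toInt _ Θ a)) =
      toF κ[X] (RatFunc κ) M (zlcbL c₀ c₁ (map (algebraMap F₀ κ) a)) := fun a => s4 _ _ (hc a)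
  obtain ⟨Q, q1, q2⟩ := zlcb_pt k1 (ρ.comp β) k3 fun x => by
    obtain ⟨a, P, hm, e⟩ := exists_int_of_intOff hα x.2
    refine ⟨a, P.map ((zlcbL c₀ c₁).comp (map (algebraMap F₀ κ))), hm.map _, ?_⟩
    have e1 : P.eval₂ (toInt _ Θ) (toInt _ Θ Θ ^ a * x) = 0 := Subtype.val_injective
      ((Polynomial.hom_eval₂ P (toInt _ Θ) (Subring.subtype _) _).trans e)
    have e2 := congrArg (ρ.comp β) e1
    rwa [Polynomial.hom_eval₂, map_zero, map_mul, map_pow, RingHom.comp_apply ρ β (toInt _ Θ Θ), b1,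
      show (ρ.comp β).comp (toInt _ Θ) = (toF κ[X] (RatFunc κ) M).comp
        ((zlcbL c₀ c₁).comp (map (algebraMap F₀ κ))) from RingHom.ext b1,
      ← Polynomial.eval₂_map] at e2
  have q3 : Q (toInt _ Θ (X none)) = t := by simpa [zlcbL] using q2 _ _ (b1 (X none))
  have q4 : Q (toInt _ Θ (X (some ()))) = c₀ + c₁ * t := by
    simpa [zlcbL] using q2 _ _ (b1 (X (some ())))
  obtain ⟨P, hP'⟩ := k5 (c₀ + c₁ * t) (by
    rw [add_pow_char_pow, mul_pow, f7 c₀ (by simp), f7 c₁ (by simp), k4])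
  refine ⟨κ, inferInstance, inferInstance, Q, iterateFrobenius κ p m, P, p ^ m, fun x => ?_,
    by rw [q3, q4, hP'], Nat.one_lt_pow hN (Fact.out : p.Prime).one_lt, by rw [q3, k4]⟩
  rw [q1, q1, iterateFrobenius_def, ← k2]
  exact congrArg (fun y => (J y).coeff 0) (hΦ _ _ (g1 x).symm).symm

end Pool.Agent.ZFy.ZL
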