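import Pool.Agent.Lib.MP_879916_ag.SS.ZFr
import Pool.Agent.Lib.MP_879916_ag.SS.ZLc

/-! A geometric automorphism lies in the decomposition group of a rational point. -/

namespace Pool.Agent.ZFy.ZL

open Pool.Agent.ZCy Pool.Agent.ZFN
open scoped Classical WithZero Polynomial
open MvPolynomial

set_option linter.unusedSectionVars false

theorem zfp_int {A A' E E' : Type} [CommRing A] [CommRing A'] [CommRing E] [CommRing E']
    {φ : A →+* E} {φ' : A' →+* E'} (ψ : A →+* A') (j : E →+* E') (h : ∀ a, j (φ a) = φ' (ψ a))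
    {x : E} (hx : φ.IsIntegralElem x) : φ'.IsIntegralElem (j x) := by
  obtain ⟨p, hp, h0⟩ := hx
  refine ⟨p.map ψ, hp.map ψ, ?_⟩
  rw [Polynomial.eval₂_map, show φ'.comp ψ = j.comp φ from RingHom.ext fun a => (h a).symm,
    ← Polynomial.hom_eval₂, h0, map_zero]

theorem zfp_int_rev {A E E' : Type} [CommRing A] [Field E] [Field E'] {φ : A →+* E}
    {φ' : A →+* E'} (j : E →+* E') (h : ∀ a, j (φ a) = φ' a) {x : E}
    (hx : φ'.IsIntegralElem (j x)) : φ.IsIntegralElem x := by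
  obtain ⟨p, hp, h0⟩ := hx
  refine ⟨p, hp, j.injective ?_⟩
  rw [Polynomial.hom_eval₂, map_zero, show j.comp φ = φ' from RingHom.ext h, h0]

/-- polynomials in the first variable -/
noncomputable def zfpEv (F₀ : Type) [Field F₀] : F₀[X] →+* MP (Option Unit) F₀ :=
  Polynomial.eval₂RingHom C (X none)

section

variable {k : Type} [Field k] {F₀ : Type} [Field F₀] [Finite F₀] [Algebra (RatFunc F₀) k]
  [FiniteDimensional (RatFunc F₀) k]

theorem zfp_ev (p : F₀[X]) : pl2 F₀ (zfpEv F₀ p) = Polynomial.C (pol k F₀ p) :=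
  RingHom.congr_fun (f := (pl2 F₀).comp (zfpEv F₀)) (g := Polynomial.C.comp (pol k F₀))
    (Polynomial.ringHom_ext (fun a => by simp [pl2, zfpEv]) (by simp [pl2, zfpEv])) p

theorem zfp_pol_ne {p : F₀[X]} (hp : p ≠ 0) : pol k F₀ p ≠ 0 :=
  (map_ne_zero (algebraMap (RatFunc F₀) k)).2 (RatFunc.algebraMap_ne_zero hp)

theorem zfp_fac {u : Vl k} (hu : ∀ p, u (pol k F₀ p) ≤ 1) :
    ∃ ψ : MP (Option Unit) F₀ →+* u.integer[X],
      ∀ p, Polynomial.mapRingHom u.integer.subtype (ψ p) = pl2 F₀ p := by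
  let c : F₀[X] →+* u.integer := (pol k F₀).codRestrict _ hu
  refine ⟨eval₂Hom (Polynomial.C.comp (c.comp Polynomial.C)) fun i =>
    i.elim (Polynomial.C (c Polynomial.X)) fun _ => Polynomial.X, fun p => ?_⟩
  refine RingHom.congr_fun (f := (Polynomial.mapRingHom u.integer.subtype).comp _)
    (g := pl2 F₀) (MvPolynomial.ringHom_ext (fun a => ?_) fun i => ?_) p
  · simp [pl2, c]
  · cases i <;> simp [pl2, c]

variable [Algebra.IsSeparable (RatFunc F₀) k] {K N K₀ N' Ω : Type} [Field K] [Field N] [Field K₀]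
  [Field N'] [Field Ω] [Algebra k[X] K] [IsFractionRing k[X] K] [Algebra K N]
  [FiniteDimensional K N] [IsGalois K N] [Algebra K₀ N'] [FiniteDimensional K₀ N']
  [IsGalois K₀ N'] {α : MP (Option Unit) F₀ →+* K₀} {Θ : MP (Option Unit) F₀} {m : N →+* N'}

theorem zfp_mem (hm : ∀ p, m (toF k[X] K N (pl2 F₀ p)) = tE N' α p) {y : N}
    (hy : ((toF k[X] K N).comp (pl2 F₀)).IsIntegralElem y) : m y ∈ IntOff (tE N' α) Θ :=
  mem_intOff_of_int (zfp_int (RingHom.id _) m hm hy)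

theorem zfp_cst (hm : ∀ p, m (toF k[X] K N (pl2 F₀ p)) = tE N' α p) {b : k}
    (hb : (pol k F₀).IsIntegralElem b) : m (cP K N b) ∈ IntOff (tE N' α) Θ :=
  zfp_mem hm (zfp_int (zfpEv F₀) (cP K N) (fun p => by
    rw [RingHom.comp_apply (toF k[X] K N) (pl2 F₀), zfp_ev]
    rfl) hb)

/-- the extension of the point to the integral closure of the polynomials over `u.integer` -/
theorem zfp_ext (hm : ∀ p, m (toF k[X] K N (pl2 F₀ p)) = tE N' α p) {B : Subring k}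
    (hB : ∀ x, x ∈ B ↔ (pol k F₀).IsIntegralElem x) (Q : IntOff (tE N' α) Θ →+* Ω)
    (q : B →+* Ω) (hq : ∀ b : B, q b = Q ⟨_, zfp_cst hm ((hB _).1 b.2)⟩) {u : Vl k} (hn : Nrm u)
    (hu : ∀ y : k, u y ≤ 1 → ∃ s a : B, q s ≠ 0 ∧ y * s = a) :
    ∃ Q₁ : IntOff (tE N (aV K u)) 1 →+* Ω,
      (∀ x : IntOff (tE N (aV K u)) 1, ∃ s : B, q s ≠ 0 ∧
        m (cP K N (s : k) * x) ∈ IntOff (tE N' α) Θ) ∧
      ∀ (x : IntOff (tE N (aV K u)) 1) (s : B) (y : IntOff (tE N' α) Θ),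
        (y : N') = m (cP K N (s : k) * x) → Q y = q s * Q₁ x := by
  have := pv_dvr hn
  have h1 : ∀ x : IntOff (tE N (aV K u)) 1, ∃ s : B, q s ≠ 0 ∧
      m (cP K N (s : k) * x) ∈ IntOff (tE N' α) Θ := fun x => by
    obtain ⟨s, hs, hi⟩ := int_loc F₀ hB q hu (toF k[X] K N)
      ((mem_intOff_one (pv_frP (isFr_alg k[X] K) u)).1 x.2)
    exact ⟨s, hs, zfp_mem hm hi⟩
  let q₀ : (IntOff (tE N' α) Θ).comap m →+* Ω :=
    Q.comp ((m.comp (Subring.subtype _)).codRestrict _ fun x => x.2)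
  obtain ⟨Q₁, hQ⟩ := exists_loc_ext (S' := IntOff (tE N (aV K u)) 1) q₀ fun x hx => by
    obtain ⟨s, hs, hi⟩ := h1 ⟨x, hx⟩
    exact ⟨⟨cP K N (s : k), zfp_cst hm ((hB _).1 s.2)⟩, hq s ▸ hs, hi⟩
  refine ⟨Q₁, h1, fun x s y hy => ?_⟩
  have h2 := hQ x ⟨cP K N (s : k), zfp_cst hm ((hB _).1 s.2)⟩
    ⟨cP K N (s : k) * x, show m _ ∈ _ from hy ▸ y.2⟩ rfl
  rw [hq s]
  exact (congrArg Q (Subtype.ext hy)).trans h2

/-- the inertia group of the extended point is trivial -/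
theorem zfp_ine (hα : IsFr α) (h0 : Θ ≠ 0) (hu : UnrOff K₀ (tE N' α) Θ)
    (hm : ∀ p, m (toF k[X] K N (pl2 F₀ p)) = tE N' α p)
    (hfix : ∀ a : N', (∀ r : N' ≃ₐ[K₀] N', (∀ x, r (m x) = m x) → r a = a) → ∃ y, m y = a)
    (Q : IntOff (tE N' α) Θ →+* Ω) {u : Vl k} (hu1 : ∀ p, u (pol k F₀ p) ≤ 1)
    (Q₁ : IntOff (tE N (aV K u)) 1 →+* Ω)
    (hQ : ∀ (x : IntOff (tE N (aV K u)) 1) (y : IntOff (tE N' α) Θ), (y : N') = m x → Q y = Q₁ x)
    {h : N ≃ₐ[K] N} {h' : N' ≃ₐ[K₀] N'} (hh : ∀ x, h' (m x) = m (h x))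
    (h1 : ∀ x, Q₁ (gI (aV K u) 1 h x) = Q₁ x) : h = 1 := by
  have hS : Stab (fixS K₀ (Set.range m)) (IntOff (tE N' α) Θ) := fun r _ =>
    stab_intOff α Θ r trivial
  obtain ⟨ψ, hψ⟩ := zfp_fac hu1
  obtain ⟨r, hr, h2⟩ := hS.place_conj Q (Q.comp (gI α Θ h')) fun a ha => by
    obtain ⟨y, hy⟩ := hfix a fun r hr => ha r (by rintro _ ⟨x, rfl⟩; exact hr x)
    obtain ⟨j, hj⟩ := exists_int_of_intOff hα a.2
    have e : m (toF k[X] K N (pl2 F₀ Θ) ^ j * y) = tE N' α Θ ^ j * a := by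
      rw [map_mul, map_pow, hm, hy]
    have h3 : ((toF k[X] K N).comp (pl2 F₀)).IsIntegralElem (toF k[X] K N (pl2 F₀ Θ) ^ j * y) :=
      zfp_int_rev m hm (e ▸ hj)
    have h4 : toF k[X] K N (pl2 F₀ Θ) ^ j * y ∈ IntOff (tE N (aV K u)) 1 :=
      mem_intOff_of_int (zfp_int ψ (RingHom.id N) (fun p =>
        (congrArg (toF k[X] K N) (hψ p)).symm) h3)
    have h5 := hQ ⟨_, h4⟩ (toInt _ Θ Θ ^ j * a) e.symm
    have h6 := hQ (gI (aV K u) 1 h ⟨_, h4⟩) (toInt _ Θ Θ ^ j * gI α Θ h' a) (by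
      change tE N' α Θ ^ j * h' a = m (h (toF k[X] K N (pl2 F₀ Θ) ^ j * y))
      rw [← hh, e, map_mul, map_pow, RingHom.comp_apply, AlgEquiv.commutes])
    rw [h1, ← h5, map_mul, map_mul, map_pow] at h6
    exact mul_left_cancel₀ (pow_ne_zero j ((tfpu_unit hα h0).map Q).ne_zero) h6
  have h3 : h' * r⁻¹ = 1 := pureF hα h0 hu Q fun x =>
    (h2 (gI α Θ r⁻¹ x)).trans (congrArg Q (Subtype.ext (r.apply_symm_apply x)))
  rw [mul_inv_eq_one] at h3
  ext x
  exact m.injective ((hh x).symm.trans (h3 ▸ hr _ ⟨x, rfl⟩))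

theorem zfp_core [IsAlgClosed Ω] (hα : IsFr α) (h0 : Θ ≠ 0) (hu : UnrOff K₀ (tE N' α) Θ)
    (hm : ∀ p, m (toF k[X] K N (pl2 F₀ p)) = tE N' α p)
    (hfix : ∀ a : N', (∀ r : N' ≃ₐ[K₀] N', (∀ x, r (m x) = m x) → r a = a) → ∃ y, m y = a)
    (hl : ∀ h : N ≃ₐ[K] N, ∃ h' : N' ≃ₐ[K₀] N', ∀ x, h' (m x) = m (h x))
    {g : N ≃ₐ[K] N} {g' : N' ≃ₐ[K₀] N'} (hg : ∀ x, g' (m x) = m (g x))
    (Q : IntOff (tE N' α) Θ →+* Ω) (Φ : Ω →+* Ω) (P : ℤ[X]) {n : ℕ}
    (hΦ : ∀ x, Q (gI α Θ g' x) = Φ (Q x))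
    (hP : Q (toInt _ Θ (X (some ()))) = Polynomial.aeval (Q (toInt _ Θ (X none))) P)
    (hn : 1 < n) (hn' : Q (toInt _ Θ (X none)) ^ n = Q (toInt _ Θ (X none))) :
    ∃ v : Place k, plv v (pol k F₀ Polynomial.X) ≤ 1 ∧
      (∀ ν, plv v (pol k F₀ ν) < 1 → Q (toInt _ Θ (zfpEv F₀ ν)) = 0) ∧
      ∃ s : (plv v).integer, FPt K (plv v) s g := by
  obtain ⟨B, -, -, hB⟩ := nc3b_ded (k := k) F₀
  replace hB : ∀ x, x ∈ B ↔ (pol k F₀).IsIntegralElem x := hB
  obtain ⟨q, hq⟩ : ∃ q : B →+* Ω, ∀ b : B, q b = Q ⟨_, zfp_cst hm ((hB _).1 b.2)⟩ :=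
    ⟨Q.comp ((m.comp ((cP K N).comp B.subtype)).codRestrict _
      fun b => zfp_cst hm ((hB _).1 b.2)), fun _ => rfl⟩
  let c : F₀[X] →+* B := (pol k F₀).codRestrict _ fun p => (hB _).2 (pol k F₀).isIntegralElem_map
  have hc : ∀ p, q (c p) = Q (toInt _ Θ (zfpEv F₀ p)) := fun p => by
    rw [hq]
    refine congrArg Q (Subtype.ext ?_)
    change m (toF k[X] K N (Polynomial.C (pol k F₀ p))) = tE N' α _
    rw [← hm, zfp_ev]
  have hX : q (c Polynomial.X) = Q (toInt _ Θ (X none)) := by rw [hc]; simp [zfpEv]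
  obtain ⟨v, hv, hv'⟩ := exists_plc_of_hom F₀ hB q ⟨c (Polynomial.X ^ n - Polynomial.X), fun e =>
    zfp_pol_ne (k := k) (FiniteField.X_pow_card_sub_X_ne_zero F₀ hn) (congrArg Subtype.val e),
    by rw [map_sub, map_pow, map_sub, map_pow, hX, hn', sub_self]⟩
  have hu1 : ∀ p, plv v (pol k F₀ p) ≤ 1 := fun p => (hv (c p)).1
  obtain ⟨Q₁, h1, h2⟩ := zfp_ext hm hB Q q hq (plv_nrm v) hv'
  have h3 : ∀ (x : IntOff (tE N (aV K (plv v))) 1) (y : IntOff (tE N' α) Θ), (y : N') = m x →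
      Q y = Q₁ x := fun x y hy => by
    have := h2 x 1 y (by rw [hy]; simp)
    rwa [map_one, one_mul] at this
  let s : B := Polynomial.aeval (c Polynomial.X) P
  refine ⟨v, hu1 _, fun ν hν => (hc ν).symm.trans ((hv (c ν)).2.1 hν), ⟨s, (hv s).1⟩, Ω,
    inferInstance, inferInstance, Q₁, Φ, fun x => ?_, fun a => ?_, ?_, fun h hh => ?_⟩
  · obtain ⟨b, hb, hi⟩ := h1 x
    have e1 := h2 x b ⟨_, hi⟩ rfl
    have e0 : g (cP K N (b : k)) = cP K N (b : k) := g.commutes _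
    have e2 := h2 (gI _ 1 g x) b (gI α Θ g' ⟨_, hi⟩) (by
      change g' (m _) = m (_ * g x)
      rw [hg, map_mul, e0])
    have e3 : Φ (q b) = q b := by
      rw [hq, ← hΦ]
      exact congrArg Q (Subtype.ext ((hg _).trans (congrArg m e0)))
    rw [hΦ, e1, map_mul, e3] at e2
    exact (mul_left_cancel₀ hb e2).symm
  · obtain ⟨b, d, hb, e⟩ := hv' a a.2
    have e1 := h2 (toInt _ 1 (Polynomial.C a)) b ⟨_, zfp_cst hm ((hB _).1 d.2)⟩ (by
      change m (cP K N (d : k)) = m (_ * toF k[X] K N (Polynomial.map _ (Polynomial.C a)))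
      rw [← e, map_mul, mul_comm, Polynomial.map_C]
      rfl)
    have e2 : plv v (b : k) = 1 := (hv b).1.antisymm (not_lt.1 fun h => hb ((hv b).2.1 h))
    have e3 : plv v (d : k) = plv v (a : k) := by rw [← e, map_mul, e2, mul_one]
    rw [← e3, (hv d).2, hq d, e1, mul_eq_zero, or_iff_right hb]
  · have e1 := h3 (toInt _ 1 (Polynomial.X - Polynomial.C (⟨s, (hv s).1⟩ : (plv v).integer)))
      (toInt _ Θ (X (some ())) - ⟨_, zfp_cst hm ((hB _).1 s.2)⟩) (by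
        change tE N' α _ - m (cP K N (s : k)) = m (toF k[X] K N (Polynomial.map _ _))
        rw [Polynomial.map_sub, Polynomial.map_X, Polynomial.map_C, map_sub, map_sub, ← hm]
        simp [pl2])
    rw [← e1, map_sub, ← hq, hP, ← hX, sub_eq_zero]
    exact Polynomial.aeval_algHom_apply q.toIntAlgHom _ P
  · obtain ⟨h', hh'⟩ := hl h
    exact zfp_ine hα h0 hu hm hfix Q hu1 Q₁ h3 hh' hh

end

variable {l : ℕ} {k K N : Type} [Field k] [Field K] [Field N] [Algebra k[X] K]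
  [IsFractionRing k[X] K] [Algebra K N] [FiniteDimensional K N] [IsGalois K N]

theorem zfp_sep (F₀ : Type) [Field F₀] [Finite F₀] [Algebra (RatFunc F₀) k]
    [FiniteDimensional (RatFunc F₀) k] [Algebra.IsSeparable (RatFunc F₀) k] {g : N ≃ₐ[K] N}
    (hg : g ∈ geoP k K N) (S : Finset (Place k)) :
    ∃ v ∉ S, ∃ s : (plv v).integer, FPt K (plv v) s g := by
  obtain ⟨_, _, _, hc⟩ := exists_alg2 (k := k) F₀ K
  let _ : Algebra (RF (Option Unit) F₀) N :=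
    ((algebraMap K N).comp (algebraMap (RF (Option Unit) F₀) K)).toAlgebra
  have : IsScalarTower (RF (Option Unit) F₀) K N := .of_algebraMap_eq' rfl
  have : FiniteDimensional (RF (Option Unit) F₀) N := FiniteDimensional.trans _ K N
  have : Algebra.IsSeparable (RF (Option Unit) F₀) N := Algebra.IsSeparable.trans _ K N
  obtain ⟨N', _, _, _, _, _, _, -⟩ := exists_gc (RF (Option Unit) F₀) N
  let _ : Algebra K N' := ((algebraMap N N').comp (algebraMap K N)).toAlgebra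
  have : IsScalarTower K N N' := .of_algebraMap_eq' rfl
  have : IsScalarTower (RF (Option Unit) F₀) K N' := .of_algebraMap_eq fun a =>
    IsScalarTower.algebraMap_apply (RF (Option Unit) F₀) N N' a
  have : FiniteDimensional K N' := FiniteDimensional.right (RF (Option Unit) F₀) K N'
  have : IsGalois K N' := IsGalois.tower_top_of_isGalois (RF (Option Unit) F₀) K N'
  have : FiniteDimensional N N' := FiniteDimensional.right K N N'
  have : IsGalois N N' := IsGalois.tower_top_of_isGalois K N N'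
  have hα := isFr_alg (MP (Option Unit) F₀) (RF (Option Unit) F₀)
  have hm : ∀ p, algebraMap N N' (toF k[X] K N (pl2 F₀ p)) =
      tE N' (algebraMap (MP (Option Unit) F₀) (RF (Option Unit) F₀)) p := fun p => by
    rw [RingHom.comp_apply, RingHom.comp_apply, ← hc,
      IsScalarTower.algebraMap_apply (RF (Option Unit) F₀) N N']
    rfl
  obtain ⟨g', hg1, hg2⟩ := geo_lift ((algebraMap k[X] K).comp Polynomial.C)
    (IsScalarTower.toAlgHom K N N') hg
  obtain ⟨Θ₀, hΘ₀, hu₀⟩ := exists_unrOff (E := N') hα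
  obtain ⟨ν, hν0, hν⟩ := exists_pol_small (k := k) F₀
    (S := plv '' {v | v ∈ S ∧ plv v (pol k F₀ Polynomial.X) ≤ 1})
    ((S.finite_toSet.subset fun _ h => h.1).image _)
    (by rintro _ ⟨v, hv, rfl⟩; exact ⟨plv_nrm v, hv.2⟩) 1
  have h0 : Θ₀ * zfpEv F₀ ν ≠ 0 := mul_ne_zero hΘ₀ fun e => by
    have h1 := zfp_ev (k := k) ν
    rw [e, map_zero] at h1
    exact zfp_pol_ne hν0 (Polynomial.C_eq_zero.1 h1.symm)
  have hu : UnrOff (RF (Option Unit) F₀) (tE N' (algebraMap (MP (Option Unit) F₀) _))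
      (Θ₀ * zfpEv F₀ ν) := fun P w h1 h2 => hu₀ P w h1 fun h => h2 (h.mul_right _)
  obtain ⟨Ω, _, _, Q, Φ, P, n, hΦ, hP, hn, hn'⟩ := line_cheb hα h0 hu
    (g := g'.restrictScalars (RF (Option Unit) F₀)) fun x hx => hg1 x
      (zfp_int ((pol k F₀).comp Polynomial.C) (RingHom.id N') (fun a => by
        have h1 := hm (C a)
        rw [show pl2 F₀ (C a) = Polynomial.C (pol k F₀ (Polynomial.C a)) by simp [pl2]] at h1
        exact h1.symm) hx)
  obtain ⟨v, hv1, hv2, hv3⟩ := zfp_core hα h0 hu hm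
    (fun a ha => mem_range_of_fix fun r => ha (r.restrictScalars _) r.commutes)
    (fun h => ⟨(h.liftNormal N').restrictScalars _, h.liftNormal_commutes N'⟩)
    (g := g) (g' := g'.restrictScalars _) hg2 Q Φ P hΦ hP hn hn'
  refine ⟨v, fun hv => ((tfpu_unit hα h0).map Q).ne_zero ?_, hv3⟩
  rw [map_mul, map_mul, hv2 ν ((hν _ ⟨v, ⟨hv, hv1⟩, rfl⟩).trans_lt ?_), mul_zero]
  rw [← WithZero.exp_zero, WithZero.exp_lt_exp]
  norm_num

/-- Replace the structure over `RatFunc F₀` by a separable one (`exists_sep_alg`). Let `N'` be the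
Galois closure of `N` over `K₀ = RF (Option Unit) F₀` (`exists_alg2`, `exists_gc`), `g'` a geometric
lift of `g` (`geo_lift`), `Θ = Θ₀ ν(t)` with `Θ₀` from `exists_unrOff` and `ν` small at the places of
`S` at which `t` is integral (`exists_pol_small`). Take `line_cheb`; restrict `Q` to the integral
closure `B` of `F₀[t]` in `k` to get `v` (`exists_plc_of_hom`, `t ^ n - t` is in the kernel);
`Q ν(t) ≠ 0` since `Θ` is a unit (`tfpu_unit`), so `v ∉ S`; `s = P(t)`. Extend `Q` to the integral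
closure of `O_v[X]` in `N` (`int_loc`, `exists_loc_ext`). If `Q ∘ h = Q`, lift `h` to `h'`; by
`Stab.place_conj` for the group that fixes `N`, `Q ∘ h' = Q ∘ v'`, so `h' = v'` by `pureF`. -/
theorem exists_fpt (F₀ : Type) [Field F₀] [Finite F₀] [Algebra (RatFunc F₀) k]
  [FiniteDimensional (RatFunc F₀) k] {g : N ≃ₐ[K] N} (hg : g ∈ geoP k K N)
    (S : Finset (Place k)) : ∃ v ∉ S, ∃ s : (plv v).integer, FPt K (plv v) s g := by
  obtain ⟨i, h1, h2⟩ := exists_sep_alg k F₀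
  exact @zfp_sep k K N _ _ _ _ _ _ _ _ F₀ _ _ i h1 h2 g hg S

end Pool.Agent.ZFy.ZL
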