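import Pool.Agent.Lib.MP_879916_ag.SS.ZUn
import Pool.Agent.Lib.MP_879916_ag.SS.ZPv
import Pool.Agent.Lib.MP_751085_ag.ZF.N.C3

/-! The line over a global field as a plane over a finite field. -/

namespace Pool.Agent.ZFy.ZL

open Pool.Agent.ZCy Pool.Agent.ZFN
open scoped Classical WithZero Polynomial
open MvPolynomial

set_option linter.unusedSectionVars false

variable {k : Type} [Field k] (F₀ : Type) [Field F₀] [Finite F₀] [Algebra (RatFunc F₀) k]
  [FiniteDimensional (RatFunc F₀) k]

/-- `X none ↦ t`, `X (some ()) ↦ X` -/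
noncomputable def pl2 : MP (Option Unit) F₀ →+* k[X] :=
  eval₂Hom (Polynomial.C.comp ((pol k F₀).comp Polynomial.C)) fun i =>
    i.elim (Polynomial.C (pol k F₀ Polynomial.X)) fun _ => Polynomial.X

omit [Finite F₀] [FiniteDimensional (RatFunc F₀) k] in
theorem zfq_pol : Function.Injective (pol k F₀) :=
  (algebraMap (RatFunc F₀) k).injective.comp (IsFractionRing.injective F₀[X] (RatFunc F₀))

omit [Finite F₀] [FiniteDimensional (RatFunc F₀) k] in
theorem zfq_inj : Function.Injective (pl2 (k := k) F₀) := by
  let φ : MP (Option Unit) F₀ →+* F₀[X][X] :=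
    eval₂Hom (Polynomial.C.comp Polynomial.C) fun i =>
      i.elim (Polynomial.C Polynomial.X) fun _ => Polynomial.X
  let ψ : F₀[X][X] →+* MP (Option Unit) F₀ :=
    Polynomial.eval₂RingHom (Polynomial.eval₂RingHom C (X none)) (X (some ()))
  have h1 : ψ.comp φ = RingHom.id _ := by
    refine MvPolynomial.ringHom_ext (fun r => ?_) fun i => ?_
    · simp [φ, ψ]
    · rcases i with _ | _ <;> simp [φ, ψ]
  have h2 : pl2 (k := k) F₀ = (Polynomial.mapRingHom (pol k F₀)).comp φ := by
    refine MvPolynomial.ringHom_ext (fun r => ?_) fun i => ?_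
    · simp [φ, pl2]
    · rcases i with _ | _ <;> simp [φ, pl2]
  rw [h2]
  exact (Polynomial.map_injective _ (zfq_pol F₀)).comp
    (Function.LeftInverse.injective (g := ψ) fun p => RingHom.congr_fun h1 p)

omit [Finite F₀] [FiniteDimensional (RatFunc F₀) k] in
theorem zfq_t (p : F₀[X]) : pl2 (k := k) F₀ (Polynomial.eval₂RingHom C (X none) p) =
    Polynomial.C (pol k F₀ p) := by
  have h : (pl2 (k := k) F₀).comp (Polynomial.eval₂RingHom C (X none)) =
      Polynomial.C.comp (pol k F₀) := by
    refine Polynomial.ringHom_ext (fun r => ?_) ?_ <;> simp [pl2]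
  exact RingHom.congr_fun h p

/-- a field generated by the image of a finite separable extension -/
theorem zfq_gen {R k K₀ K : Type} [Field R] [Field k] [Field K₀] [Field K] [Algebra R k]
    [FiniteDimensional R k] [Algebra.IsSeparable R k] [Algebra K₀ K] [Algebra k[X] K]
    [IsFractionRing k[X] K] (j : R →+* K₀)
    (hj : ∀ r, algebraMap K₀ K (j r) = algebraMap k[X] K (Polynomial.C (algebraMap R k r)))
    (x : K₀) (hx : algebraMap K₀ K x = algebraMap k[X] K Polynomial.X) :
    FiniteDimensional K₀ K ∧ Algebra.IsSeparable K₀ K := by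
  let c : k →+* K := (algebraMap k[X] K).comp Polynomial.C
  have hc : (algebraMap K₀ K).comp j = c.comp (algebraMap R k) := RingHom.ext hj
  have hs : ∀ a : k, IsSeparable K₀ (c a) := fun a => by
    refine Polynomial.Separable.of_dvd
      (Polynomial.Separable.map (f := j) (Algebra.IsSeparable.isSeparable R a)) (minpoly.dvd _ _ ?_)
    rw [Polynomial.aeval_def, Polynomial.eval₂_map, hc, ← Polynomial.hom_eval₂,
      ← Polynomial.aeval_def, minpoly.aeval, map_zero]
  obtain ⟨s, hsp⟩ := Module.Finite.fg_top (R := R) (M := k)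
  let E := IntermediateField.adjoin K₀ (c '' (s : Set k))
  have h1 : ∀ a : k, c a ∈ E := fun a => by
    have ha : a ∈ Submodule.span R (s : Set k) := hsp ▸ Submodule.mem_top
    induction ha using Submodule.span_induction with
    | mem a ha => exact IntermediateField.subset_adjoin _ _ ⟨a, ha, rfl⟩
    | zero => rw [map_zero]; exact zero_mem _
    | add a b _ _ ha hb => rw [map_add]; exact add_mem ha hb
    | smul r a _ ha =>
      rw [Algebra.smul_def, map_mul]
      exact mul_mem ((RingHom.congr_fun hc r) ▸ E.algebraMap_mem (j r)) ha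
  have h2 : ∀ p : k[X], algebraMap k[X] K p ∈ E := fun p => by
    induction p using Polynomial.induction_on' with
    | add p q hp hq => rw [map_add]; exact add_mem hp hq
    | monomial n a =>
      rw [← Polynomial.C_mul_X_pow_eq_monomial, map_mul, map_pow]
      exact mul_mem (h1 a) (pow_mem (hx ▸ E.algebraMap_mem x) n)
  have h3 : E = ⊤ := eq_top_iff.2 fun y _ => by
    obtain ⟨p, q, -, rfl⟩ := IsFractionRing.div_surjective (A := k[X]) y
    exact div_mem (h2 p) (h2 q)
  have : Finite (c '' (s : Set k)) := (s.finite_toSet.image c).to_subtype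
  have h4 : FiniteDimensional K₀ E := IntermediateField.finiteDimensional_adjoin (by
    rintro _ ⟨a, -, rfl⟩
    exact (hs a).isIntegral)
  have h5 : Algebra.IsSeparable K₀ E :=
    (IntermediateField.isSeparable_adjoin_iff_isSeparable K₀ K).2 (by
      rintro _ ⟨a, -, rfl⟩
      exact hs a)
  rw [h3] at h4 h5
  exact ⟨IntermediateField.topEquiv.toLinearEquiv.finiteDimensional,
    AlgEquiv.Algebra.isSeparable IntermediateField.topEquiv⟩

variable [Algebra.IsSeparable (RatFunc F₀) k]

/-- `pl2` is injective; `K` is generated over `K₀` by a primitive element of `k` -/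
theorem exists_alg2 (K : Type) [Field K] [Algebra k[X] K] [IsFractionRing k[X] K] :
    ∃ _ : Algebra (RF (Option Unit) F₀) K, FiniteDimensional (RF (Option Unit) F₀) K ∧
      Algebra.IsSeparable (RF (Option Unit) F₀) K ∧ ∀ p, algebraMap (RF (Option Unit) F₀) K
        (algebraMap (MP (Option Unit) F₀) _ p) = algebraMap k[X] K (pl2 F₀ p) := by
  have h1 : Function.Injective ((algebraMap k[X] K).comp (pl2 F₀)) :=
    (IsFractionRing.injective k[X] K).comp (zfq_inj F₀)
  let i : Algebra (RF (Option Unit) F₀) K := (IsFractionRing.lift h1).toAlgebra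
  have h2 : ∀ p, algebraMap (RF (Option Unit) F₀) K (algebraMap (MP (Option Unit) F₀) _ p) =
      algebraMap k[X] K (pl2 F₀ p) := fun p => IsFractionRing.lift_algebraMap h1 p
  have h3 : Function.Injective ((algebraMap (MP (Option Unit) F₀) (RF (Option Unit) F₀)).comp
      (Polynomial.eval₂RingHom C (X none))) := fun p q h => by
    have h4 := congrArg (algebraMap (RF (Option Unit) F₀) K) h
    rw [RingHom.comp_apply, RingHom.comp_apply, h2, h2, zfq_t, zfq_t] at h4
    exact zfq_pol F₀ (Polynomial.C_injective (IsFractionRing.injective k[X] K h4))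
  have h5 : (algebraMap (RF (Option Unit) F₀) K).comp (IsFractionRing.lift (K := RatFunc F₀) h3) =
      ((algebraMap k[X] K).comp Polynomial.C).comp (algebraMap (RatFunc F₀) k) := by
    refine IsFractionRing.ringHom_ext (A := F₀[X]) fun p => ?_
    rw [RingHom.comp_apply, IsFractionRing.lift_algebraMap, RingHom.comp_apply, h2, zfq_t]
    rfl
  obtain ⟨h6, h7⟩ := zfq_gen (k := k) (K := K) (IsFractionRing.lift (K := RatFunc F₀) h3)
    (fun r => RingHom.congr_fun h5 r) (algebraMap (MP (Option Unit) F₀) _ (X (some ())))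
    (by rw [h2]; simp [pl2])
  exact ⟨i, h6, h7, h2⟩

end Pool.Agent.ZFy.ZL
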