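import Pool.Agent.Lib.MP_879916_ag.SS.ZFq

/-! The place of a point. -/

namespace Pool.Agent.ZFy.ZL

open Pool.Agent.ZCy Pool.Agent.ZFN
open scoped Classical WithZero Polynomial
open MvPolynomial

set_option linter.unusedSectionVars false

variable {k : Type} [Field k] (F₀ : Type) [Field F₀] [Finite F₀] [Algebra (RatFunc F₀) k]
  [FiniteDimensional (RatFunc F₀) k]

variable [Algebra.IsSeparable (RatFunc F₀) k]

/-- The integral closure `B` of `F₀[t]` is a Dedekind domain (see `nc3b_frac`, `IntP` in ZF/N/C3);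
take the valuation of the kernel (`plv_surj`). -/
theorem exists_plc_of_hom {Ω : Type} [Field Ω] {B : Subring k}
    (hB : ∀ x, x ∈ B ↔ (pol k F₀).IsIntegralElem x) (q : B →+* Ω) (h0 : ∃ x, x ≠ 0 ∧ q x = 0) :
    ∃ v : Place k, (∀ x : B, plv v x ≤ 1 ∧ (plv v x < 1 ↔ q x = 0)) ∧
      ∀ y : k, plv v y ≤ 1 → ∃ s a : B, q s ≠ 0 ∧ y * s = a := by
  obtain ⟨A, _, _, hA⟩ := nc3b_ded (k := k) F₀
  obtain rfl : A = B := Subring.ext fun x => (hA x).trans (hB x).symm
  let P : IsDedekindDomain.HeightOneSpectrum A := ⟨RingHom.ker q, RingHom.ker_isPrime q, fun e => by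
    obtain ⟨x, hx, h⟩ := h0
    exact hx (Ideal.mem_bot.1 (e ▸ (RingHom.mem_ker.2 h)))⟩
  obtain ⟨v, hv⟩ := plv_surj (w := P.valuation k) (P.valuation_exists_uniformizer k)
  refine ⟨v, fun x => ?_, fun y hy => ?_⟩
  · rw [hv]
    exact ⟨P.valuation_le_one x, P.valuation_lt_one_iff_mem x⟩
  · obtain ⟨a, s, h⟩ := P.exists_primeCompl_mul_eq_of_integer y (hv ▸ hy)
    exact ⟨s, a, s.2, h⟩

theorem zfr_den {Ω : Type} [Field Ω] {B : Subring k} (q : B →+* Ω) {u : Vl k}
    (hu : ∀ y : k, u y ≤ 1 → ∃ s a : B, q s ≠ 0 ∧ y * s = a) (c : u.integer[X]) :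
    ∃ s : B, q s ≠ 0 ∧
      c.map u.integer.subtype * Polynomial.C (s : k) ∈ Polynomial.lifts B.subtype := by
  induction c using Polynomial.induction_on' with
  | add c d hc hd =>
    obtain ⟨s, hs, h1⟩ := hc
    obtain ⟨t, ht, h2⟩ := hd
    refine ⟨s * t, by rw [map_mul]; exact mul_ne_zero hs ht, ?_⟩
    have e : (c + d).map u.integer.subtype * Polynomial.C ((s * t : B) : k) =
        c.map u.integer.subtype * Polynomial.C (s : k) * Polynomial.C (t : k) +
          d.map u.integer.subtype * Polynomial.C (t : k) * Polynomial.C (s : k) := by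
      rw [Polynomial.map_add, Subring.coe_mul, map_mul]
      ring
    rw [e]
    exact add_mem (mul_mem h1 (Polynomial.C_mem_lifts B.subtype t))
      (mul_mem h2 (Polynomial.C_mem_lifts B.subtype s))
  | monomial n a =>
    obtain ⟨s, b, hs, h⟩ := hu a a.2
    refine ⟨s, hs, ?_⟩
    rw [Polynomial.map_monomial, Polynomial.monomial_mul_C]
    exact Polynomial.monomial_mem_lifts n ⟨b, h.symm⟩

theorem zfr_den_fin {Ω : Type} [Field Ω] {B : Subring k} (q : B →+* Ω) {u : Vl k}
    (hu : ∀ y : k, u y ≤ 1 → ∃ s a : B, q s ≠ 0 ∧ y * s = a) (c : ℕ → u.integer[X]) (n : ℕ) :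
    ∃ s : B, q s ≠ 0 ∧ ∀ i < n,
      (c i).map u.integer.subtype * Polynomial.C (s : k) ∈ Polynomial.lifts B.subtype := by
  induction n with
  | zero => exact ⟨1, by simp, fun i hi => absurd hi (Nat.not_lt_zero i)⟩
  | succ n ih =>
    obtain ⟨s, hs, h1⟩ := ih
    obtain ⟨t, ht, h2⟩ := zfr_den q hu (c n)
    refine ⟨s * t, by rw [map_mul]; exact mul_ne_zero hs ht, fun i hi => ?_⟩
    rw [Subring.coe_mul, map_mul]
    rcases Nat.lt_succ_iff_lt_or_eq.1 hi with h | rfl
    · rw [← mul_assoc]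
      exact mul_mem (h1 i h) (Polynomial.C_mem_lifts B.subtype t)
    · rw [mul_left_comm]
      exact mul_mem (Polynomial.C_mem_lifts B.subtype s) h2

theorem zfr_cst {N : Type} [Field N] (φ : k[X] →+* N) {b : k}
    (hb : (pol k F₀).IsIntegralElem b) : (φ.comp (pl2 F₀)).IsIntegralElem (φ (Polynomial.C b)) := by
  obtain ⟨p, hp, h0⟩ := hb
  refine ⟨p.map (Polynomial.eval₂RingHom C (X none)), hp.map _, ?_⟩
  have e : (φ.comp (pl2 F₀)).comp (Polynomial.eval₂RingHom C (X none)) =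
      (φ.comp Polynomial.C).comp (pol k F₀) :=
    Polynomial.ringHom_ext (fun a => by simp [pl2]) (by simp [pl2])
  rw [Polynomial.eval₂_map, e]
  exact (Polynomial.hom_eval₂ p (pol k F₀) (φ.comp Polynomial.C) b).symm.trans
    (by rw [h0, map_zero])

theorem zfr_pol {N : Type} [Field N] {B : Subring k}
    (hB : ∀ x, x ∈ B ↔ (pol k F₀).IsIntegralElem x) (φ : k[X] →+* N) (c : B[X]) :
    (φ.comp (pl2 F₀)).IsIntegralElem (φ (c.map B.subtype)) := by
  induction c using Polynomial.induction_on with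
  | C a =>
    rw [Polynomial.map_C]
    exact zfr_cst F₀ φ ((hB _).1 a.2)
  | add c d hc hd =>
    rw [Polynomial.map_add, map_add]
    exact hc.add _ hd
  | monomial n a h =>
    rw [pow_succ, ← mul_assoc, Polynomial.map_mul, map_mul, Polynomial.map_X]
    refine h.mul _ ?_
    have e : φ Polynomial.X = (φ.comp (pl2 F₀)) (X (some ())) := by simp [pl2]
    rw [e]
    exact (φ.comp (pl2 F₀)).isIntegralElem_map

/-- Clear the denominators of a monic equation (`vint_scale`); elements of `B[X]` are integral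
over `F₀[t, X]`. -/
theorem int_loc {Ω N : Type} [Field Ω] [Field N] {B : Subring k}
    (hB : ∀ x, x ∈ B ↔ (pol k F₀).IsIntegralElem x) (q : B →+* Ω) {u : Vl k}
    (hu : ∀ y : k, u y ≤ 1 → ∃ s a : B, q s ≠ 0 ∧ y * s = a) (φ : k[X] →+* N) {x : N}
    (hx : (φ.comp (Polynomial.mapRingHom u.integer.subtype)).IsIntegralElem x) :
    ∃ s : B, q s ≠ 0 ∧ (φ.comp (pl2 F₀)).IsIntegralElem (φ (Polynomial.C (s : k)) * x) := by
  obtain ⟨p, hp, h0⟩ := hx
  obtain ⟨s, hs, h⟩ := zfr_den_fin q hu p.coeff p.natDegree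
  refine ⟨s, hs, ?_⟩
  have h1 : (φ.comp (Polynomial.mapRingHom B.subtype)).IsIntegralElem
      ((φ.comp (Polynomial.mapRingHom B.subtype)) (Polynomial.C s) * x) :=
    vint_scale (hp.map (φ.comp (Polynomial.mapRingHom u.integer.subtype)))
      (by rw [Polynomial.eval_map]; exact h0) fun i hi => by
        rw [hp.natDegree_map] at hi
        obtain ⟨c, hc⟩ := h i hi
        refine ⟨c, ?_⟩
        rw [Polynomial.coeff_map, RingHom.comp_apply, hc, map_mul]
        simp
  have e : (φ.comp (Polynomial.mapRingHom B.subtype)) (Polynomial.C s) =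
      φ (Polynomial.C (s : k)) := by simp
  rw [e] at h1
  obtain ⟨r, hr, h2⟩ := h1
  let _ := (φ.comp (pl2 F₀)).toAlgebra
  let ψ : B[X] →+* integralClosure (MP (Option Unit) F₀) N :=
    (φ.comp (Polynomial.mapRingHom B.subtype)).codRestrict _ fun c => zfr_pol F₀ hB φ c
  refine isIntegral_trans (A := integralClosure (MP (Option Unit) F₀) N) _
    ⟨r.map ψ, hr.map ψ, ?_⟩
  rw [Polynomial.eval₂_map]
  exact h2

end Pool.Agent.ZFy.ZL
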