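import Pool.Agent.Lib.MP_879916_ag.SS.ZUn
import Pool.Agent.Lib.MP_751085_ag.ZF.Z.Dsc2
import Pool.Agent.Lib.MP_751085_ag.ZF.Z.CrtE

/-! The monodromy action is trivial over `K₁`. -/

namespace Pool.Agent.ZFy.ZL

open Pool.Agent.ZCy Pool.Agent.ZFN
open scoped Classical WithZero Polynomial

set_option linter.unusedSectionVars false

variable {l q : ℕ} {k A K F T N₁ : Type} [Field k] [CommRing A] [IsDomain A]
  [UniqueFactorizationMonoid A] [Field K] [Field F] [Field T] [Field N₁] [Algebra A K]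
  [IsFractionRing A K] [Algebra K[X] F] [IsFractionRing K[X] F] [Algebra F T]
  [FiniteDimensional F T] [IsGalois F T] [Algebra K N₁] [FiniteDimensional K N₁] [IsGalois K N₁]
  {c : k →+* A} {Th : A[X]} {Δ : A} {τ : T →+* Ls N₁}

theorem Crt.gdAt (C : Crt K F l q c Th Δ τ) {P : A} (hP : Prime P) (hΔ : ¬P ∣ Δ) {u : Vl K}
    (hu : Cen (algebraMap A K) u P) : GdAt K F l q (Th.map (algebraMap A K)) τ u :=
  ⟨k, A, _, _, ‹_›, ‹_›, _, ‹_›, c, Th, Δ, P, C, rfl, hP, hΔ, hu⟩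

theorem GdAt.twist {ThK : K[X]} {u : Vl K} (h : GdAt K F l q ThK τ u) (g : T ≃ₐ[F] T) :
    GdAt K F l q ThK (τ.comp (g : T →+* T)) u := by
  obtain ⟨k, A, _, _, _, _, _, _, c, Th, Δ, P, C, h⟩ := h
  exact ⟨k, A, _, _, ‹_›, ‹_›, _, ‹_›, c, Th, Δ, P, C.twist g, h⟩

/-- `Crt.unr` -/
theorem GdAt.unr {ThK : K[X]} {u : Vl K} (h : GdAt K F l q ThK τ u) : Unr N₁ u := by
  obtain ⟨k, A, _, _, _, _, _, _, c, Th, Δ, P, C, -, hP, hΔ, hu⟩ := h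
  exact fun w hw => C.unr P w hP hΔ ((cen_of_over hw).2 hu)

/-- `Crt.gr1` -/
theorem GdAt.gr1 {ThK : K[X]} {u : Vl K} (h : GdAt K F l q ThK τ u) {L N : Type} [Field L]
    [Field N] [Algebra K L] [Algebra F N] [FiniteDimensional F N] [IsGalois F N]
    {d : SecD 1 K L F N} {j : T →+* N} (hs : SC l F ThK d (algebraMap K L) j) {w : Vl L}
    (hw : Over (algebraMap K L) u w) :
    ∃ W : Vl N, SupN d.ι w W ∧ geo d ≤ Dec F W ∧ Ine F W ⊓ geo d = ⊥ := by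
  obtain ⟨k, A, _, _, _, _, _, _, c, Th, Δ, P, C, rfl, hP, hΔ, hu⟩ := h
  exact C.gr1 hs hP hΔ ((cen_of_over hw).2 hu)

variable {K₁ κ₀ κ₁ : Type} [Field K₁] [Field κ₀] [Field κ₁] [Algebra K K₁] [FiniteDimensional K K₁]
  [IsGalois K K₁] [Algebra κ₀ κ₁] [FiniteDimensional κ₀ κ₁] [IsGalois κ₀ κ₁]
  {H : Hy K c K₁ κ₀ κ₁} {𝒰 : Set (Vl K)}

theorem Glb.twist {ThK : K[X]} {y : A} (G : Glb K F l q ThK τ K₁ 𝒰 y) (g : T ≃ₐ[F] T) :
    Glb K F l q ThK (τ.comp (g : T →+* T)) K₁ 𝒰 y :=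
  ⟨fun u hu => (G.gd u hu).twist g, G.unr, G.lk, G.ine⟩

section

variable {L : Type} [Field L] [Algebra K L] [FiniteDimensional K L] [IsGalois K L]

theorem zg1_normal (e : N₁ →ₐ[K] L) (eK : K₁ →ₐ[K] L) :
    (fixS K (Set.range e ∪ Set.range eK)).Normal := by
  refine ⟨fun δ hδ g x hx => ?_⟩
  rw [AlgEquiv.mul_apply, AlgEquiv.mul_apply, hδ, ← AlgEquiv.mul_apply, mul_inv_cancel,
    AlgEquiv.one_apply]
  rcases hx with ⟨a, rfl⟩ | ⟨a, rfl⟩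
  · obtain ⟨g₀, h⟩ := exists_restrict (K := K) (e : N₁ →+* L) (g⁻¹ : L ≃ₐ[K] L) fun a => by
      simp
    exact .inl ⟨g₀ a, h a⟩
  · obtain ⟨g₀, h⟩ := exists_restrict (K := K) (eK : K₁ →+* L) (g⁻¹ : L ≃ₐ[K] L) fun a => by
      simp
    exact .inr ⟨g₀ a, h a⟩

theorem zg1_fix (e : N₁ →ₐ[K] L) {u : Vl K} (hu : Unr N₁ u) {w : Vl L}
    (hw : Over (algebraMap K L) u w) {δ : L ≃ₐ[K] L} (hδ : δ ∈ Ine K w) (a : N₁) :
    δ (e a) = e a :=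
  fix_of_ine (K := K) (e : N₁ →+* L) δ.toRingEquiv (fun a => by simp) w hδ.1 hδ.2
    (hu _ fun x => (iff_of_eq (congrArg (fun z => w z ≤ 1) (e.commutes x))).trans (hw x)) a

theorem zg1_dec {y : A} (hI : INu K N₁ l 𝒰 y) (e : N₁ →ₐ[K] L)
    (U : Subgroup (L ≃ₐ[K] L)) [U.Normal] (h1 : U ≤ fixS K (Set.range e))
    (h2 : ∀ u ∈ 𝒰, ∀ w : Vl L, Over (algebraMap K L) u w → Ine K w ≤ U)
    (h3 : ∀ δ ∈ fixS K (Set.range e), ∃ n : ℕ, δ ^ l ^ n ∈ U) {w : Vl L}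
    (hw : Cen (toF A K L) w y) (γ : L ≃ₐ[K] L) : ∃ δ ∈ Dec K w, ∃ u ∈ U, γ = δ * u := by
  obtain ⟨r, hr, hk⟩ := grp1_rs U
  have hm : ∀ x ∈ Set.range e, x ∈ IntermediateField.fixedField U :=
    fun x hx u => h1 u.2 x hx
  let e' : N₁ →ₐ[K] IntermediateField.fixedField U :=
    e.codRestrict (IntermediateField.fixedField U).toSubalgebra fun a => hm _ ⟨a, rfl⟩
  have hL : LXt l K (Set.range e') := by
    rintro ⟨g, hg⟩
    obtain ⟨δ, rfl⟩ := hr.surj (fun x hx g => by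
      obtain ⟨a, ha⟩ := mem_range_of_fix hx
      rw [show x = algebraMap K _ a from Subtype.ext ha.symm, g.commutes]) g
    obtain ⟨n, hn⟩ := h3 δ fun x hx => (hr δ ⟨x, hm x hx⟩).symm.trans
      (congrArg Subtype.val (hg ⟨x, hm x hx⟩ (hx.imp fun a ha => Subtype.ext ha)))
    exact ⟨n, Subtype.ext ((map_pow r δ _).symm.trans ((hk _).2 hn))⟩
  have hU : ∀ u ∈ 𝒰, Unr (IntermediateField.fixedField U) u := fun u hu w' hc => by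
    obtain ⟨w, hw⟩ := exists_over (E := L) w'
    refine eq_bot_iff.2 fun g hg => ?_
    obtain ⟨g', h1, rfl⟩ := hr.ine_onto (fun _ => rfl) hw hg
    exact (hk g').2 (h2 u hu w (hc.trans hw) h1)
  have ho := Over.comap (algebraMap (IntermediateField.fixedField U) L) w
  have hd := hI _ e' hU hL _ ((cen_of_over ho).1 hw)
  obtain ⟨δ, h4, h5⟩ := hr.dec_onto (fun _ => rfl) ho (hd ▸ Subgroup.mem_top (r γ))
  exact ⟨δ, h4, δ⁻¹ * γ, (hk _).1 (by rw [map_mul, map_inv, h5, inv_mul_cancel]),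
    (mul_inv_cancel_left δ γ).symm⟩

end

/-- Copy of `dec_mul_of_in` and `clo_glob` (ZF/Z/Grp1) with
`U = C₀ ⊓ fixS K (range e ∪ range eK)`; the fixed field of `U` is an `l`-extension of `N₁` by
`G.lk` and `C.mon`, and is unramified at `𝒰` by `GdAt.gr1`, `GdAt.unr` and `G.unr`. -/
theorem clo_globS {L N : Type} [Field L] [Field N] [Algebra K L] [FiniteDimensional K L]
    [IsGalois K L] [Algebra F N] [FiniteDimensional F N] [IsGalois F N] {d : SecD 1 K L F N}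
    {π : (N ≃ₐ[F] N) →* (L ≃ₐ[K] L)} {σ : (L ≃ₐ[K] L) →* (N ≃ₐ[F] N)}
    (C : Crt K F l q c Th Δ τ) {y : A} (G : Glb K F l q (Th.map (algebraMap A K)) τ K₁ 𝒰 y)
    (hs : d.Spl π σ) (e : N₁ →ₐ[K] L) (eK : K₁ →ₐ[K] L) {j : T →+* N}
    (hj : ∀ x, d.ι (j x) = lm (e : N₁ →+* L) (τ x))
    (h : SC l F (Th.map (algebraMap A K)) d (algebraMap K L) j) {w : Vl L}
    (hw : Cen (toF A K L) w y) : ∃ U : Subgroup (L ≃ₐ[K] L),
      U ≤ fixS K (Set.range e ∪ Set.range eK) ∧ (∀ γ ∈ U, ∀ g ∈ geo d, σ γ * g = g * σ γ) ∧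
      ∀ γ, ∃ δ ∈ Dec K w, ∃ u ∈ U, γ = δ * u := by
  obtain ⟨C₀, _, hC⟩ := grp_cent π σ
  have := zg1_normal e eK
  have : (geo d).Normal := ker_eq_geo d hs ▸ π.normal_ker
  rw [ker_eq_geo d hs] at hC
  refine ⟨C₀ ⊓ fixS K (Set.range e ∪ Set.range eK), inf_le_right, fun γ hγ => (hC γ).1 hγ.1,
    zg1_dec G.ine e (C₀ ⊓ fixS K (Set.range e ∪ Set.range eK))
      (fun γ hγ x hx => hγ.2 x (.inl hx)) (fun u hu w' hc δ hδ => ?_) (fun δ hδ => ?_) hw⟩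
  · obtain ⟨W, h1, h2, h3⟩ := (G.gd u hu).gr1 h hc
    exact ⟨(hC δ).2 fun g hg =>
      comm_of_ine W (geo d) h2 h3 ((h1.dec_ine d.hc (hs.hσ δ)).2 hδ) hg,
      mem_fixS_union.2 ⟨zg1_fix e (G.gd u hu).unr hc hδ, zg1_fix eK (G.unr u hu) hc hδ⟩⟩
  · obtain ⟨n, hn⟩ := C.mon L N d e j (σ δ) δ hj h (hs.hσ δ) fun a => hδ _ ⟨a, rfl⟩
    obtain ⟨n', hn'⟩ := G.lk L e eK δ fun a => hδ _ ⟨a, rfl⟩
    have h1 : δ ^ l ^ n ∈ C₀ := (hC _).2 (by rwa [map_pow])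
    have h2 : δ ^ l ^ n' ∈ fixS K (Set.range e ∪ Set.range eK) :=
      mem_fixS_union.2 ⟨mem_fixS_range.1 (pow_mem hδ _), hn'⟩
    refine ⟨n + n', ?_, ?_⟩
    · rw [pow_add, pow_mul]
      exact pow_mem h1 _
    · rw [add_comm, pow_add, pow_mul]
      exact pow_mem h2 _

variable {F₀ E₀ : Type} [Field F₀] [Field E₀] [Algebra κ₀[X] F₀] [IsFractionRing κ₀[X] F₀]
  [Algebra F₀ E₀] [FiniteDimensional F₀ E₀] [IsGalois F₀ E₀] {d₀ : SecD 1 κ₀ κ₁ F₀ E₀} {wT : Vl T}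
  {ρT : wT.integer →+* E₀}

variable {κ FK ER : Type} [Field κ] [IsAlgClosed κ] [Field FK] [Field ER] [Algebra (Ls κ)[X] FK]
  [IsFractionRing (Ls κ)[X] FK] [Algebra FK ER] [FiniteDimensional FK ER] [IsGalois FK ER]
  {Λ : Loc H T N₁ F l q Th κ}
variable {𝓛 : Lft H Λ τ d₀ wT ρT FK ER}
variable {L₀ F' E' : Type} [Field L₀] [Field F'] [Field E'] [Algebra K L₀] [FiniteDimensional K L₀]
  [Algebra.IsSeparable K L₀] [Algebra L₀[X] F'] [IsFractionRing L₀[X] F'] [Algebra F' E']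
  [FiniteDimensional F' E'] [IsGalois F' E'] {ι' : E' →+* Ls L₀}
variable {L N : Type} [Field L] [Field N] [Algebra K L] [FiniteDimensional K L] [IsGalois K L]
  [Algebra F N] [FiniteDimensional F N] [IsGalois F N] {d : SecD 1 K L F N} {e : L₀ →ₐ[K] L}
  {m : E' →+* N}
variable {hι : ∀ p, ι' (toF L₀[X] F' E' p) = tL L₀ p} {γ₀ : L₀ →+* Ls κ}
  {π : (N ≃ₐ[F] N) →* (L ≃ₐ[K] L)} {σ : (L ≃ₐ[K] L) →* (N ≃ₐ[F] N)}

/-- copy of `dsc2` (ZF/Z/Dsc2) with `clo_globS` -/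
theorem dsc2S (C : Crt K F l q c Th Δ τ) (hy : ¬H.y ∣ Δ)
    (G : Glb K F l q (Th.map (algebraMap A K)) τ K₁ 𝒰 H.y)
    (S : Spc H F l Th d₀ wT ρT) (M : Mo 𝓛 (dg F' ι' hι) γ₀) {e₁ : N₁ →ₐ[K] L₀}
    {eK : K₁ →ₐ[K] L₀} (h₁ : ∀ a, γ₀ (e₁ a) = Λ.γN a) (hK : ∀ a, γ₀ (eK a) = Λ.γ₁ a)
    (h : Cl ι' d e m) (hs : d.Spl π σ) :
    (∀ g ∈ geo d, (∀ z, g (m z) = m z) → g = 1) ∧
      ∀ γ : L ≃ₐ[K] L, (∀ a, γ (e (eK a)) = e (eK a)) →
        (∀ g ∈ geo d, σ γ * g = g * σ γ) ∧ ∀ x, σ γ (m (M.j x)) = m (M.j x) := by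
  have sc := h.sc (M.sc C (γK := algebraMap K L₀) fun a => by
    rw [← eK.commutes, hK]; exact Λ.h₁ a)
  have hj : ∀ x, d.ι ((m.comp M.j) x) = lm (e.comp e₁ : N₁ →+* L) (τ x) := fun x =>
    (h.hm _).trans ((congrArg _ (M.ι_j (e := (e₁ : N₁ →+* L₀)) h₁ x)).trans (clo_lm_lm _ _ _))
  obtain ⟨w, W, r, hc, hD, h1, h5, h6, h8⟩ := clo_loc C hy S M hK h hs
  obtain ⟨U, hU, h2, h3⟩ := clo_globS C G hs (e.comp e₁) (e.comp eK) hj sc hc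
  have hk := ker_eq_geo d hs
  obtain ⟨a1, a2, a3⟩ := grp_core π σ hs.sec (Dec F W) (hk ▸ hD) r (Dec K w) U
    (fixS K (Set.range fun a => e (eK a))) h1 (hk ▸ h2) h3
    (fun γ hγ => mem_fixS_range.2 fun a => hU hγ _ (Or.inr ⟨a, rfl⟩))
    (fun δ hδ h' => h5 δ hδ (mem_fixS_range.1 h') _) (fixS F (Set.range m))
    (fun g hg => (h6 g (hk ▸ hg) _).trans mem_fixS_range.symm)
    fun g hg h' => h.gen g (hk ▸ hg) fun u z => by
      have := congrArg u (mem_fixS_range.1 (h' u) z)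
      rwa [← AlgEquiv.mul_apply, ← mul_assoc, mul_inv_cancel_left, AlgEquiv.mul_apply] at this
  refine ⟨fun g hg h' => a1 g (hk ▸ hg) (mem_fixS_range.2 h'), fun γ hγ =>
    ⟨fun g hg => a2 γ (mem_fixS_range.2 hγ) g (hk ▸ hg), mem_fixS_range.1
      (a3 (fixS F (Set.range fun x => m (M.j x))) (fun δ hδ => mem_fixS_range.2 fun x => ?_)
        (fun g hg => mem_fixS_range.2 (h8 g hg)) γ (mem_fixS_range.2 hγ))⟩⟩
  refine d.ι.injective ((hs.hσ δ _).trans ((congrArg _ (hj x)).trans (Eq.trans ?_ (hj x).symm)))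
  ext i
  exact hU hδ _ (Or.inl ⟨_, rfl⟩)

end Pool.Agent.ZFy.ZL
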