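import Pool.Agent.Lib.MP_879916_ag.SS.ZGeo

/-! Geometric automorphisms extend to the base change. -/

namespace Pool.Agent.ZFy.ZL

open Pool.Agent.ZCy Pool.Agent.ZFN
open scoped Classical WithZero Polynomial

set_option linter.unusedSectionVars false

variable {k K N : Type} [Field k] [Field K] [Field N] [Algebra K N] [FiniteDimensional K N]
  [IsGalois K N] (c : k →+* K)

theorem zge2_fin {M K' Ω : Type} [Field M] [Field K'] [Field Ω] (φ : K →+* K') (c' : M →+* K')
    (ι : K' →+* Ω) {y : K'} (h : y ∈ Subfield.closure (Set.range φ ∪ Set.range c')) :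
    ∃ S : Finset M, ∀ s : Ω →+* Ω, (∀ a, s (ι (φ a)) = ι (φ a)) →
      (∀ a ∈ S, s (ι (c' a)) = ι (c' a)) → s (ι y) = ι y := by
  induction h using Subfield.closure_induction with
  | mem x hx =>
    rcases hx with ⟨z, rfl⟩ | ⟨a, rfl⟩
    · exact ⟨∅, fun s h _ => h z⟩
    · exact ⟨{a}, fun s _ h => h a (Finset.mem_singleton_self a)⟩
  | one => exact ⟨∅, fun s _ _ => by rw [map_one, map_one]⟩
  | add x y _ _ hx hy =>
    obtain ⟨S, hS⟩ := hx
    obtain ⟨S', hS'⟩ := hy
    exact ⟨S ∪ S', fun s h h' => by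
      rw [map_add, map_add, hS s h fun a ha => h' a (Finset.mem_union_left _ ha),
        hS' s h fun a ha => h' a (Finset.mem_union_right _ ha)]⟩
  | neg x _ hx => exact hx.imp fun S hS s h h' => by rw [map_neg, map_neg, hS s h h']
  | inv x _ hx => exact hx.imp fun S hS s h h' => by rw [map_inv₀, map_inv₀, hS s h h']
  | mul x y _ _ hx hy =>
    obtain ⟨S, hS⟩ := hx
    obtain ⟨S', hS'⟩ := hy
    exact ⟨S ∪ S', fun s h h' => by
      rw [map_mul, map_mul, hS s h fun a ha => h' a (Finset.mem_union_left _ ha),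
        hS' s h fun a ha => h' a (Finset.mem_union_right _ ha)]⟩

theorem zge2_int {M K' : Type} [Field M] [Field K'] (γ : k →+* M) (hγ : ∀ a, γ.IsIntegralElem a)
    (c' : M →+* K') (φ : K →+* K') (hc : ∀ a, φ (c a) = c' (γ a))
    (hK : Subfield.closure (Set.range φ ∪ Set.range c') = ⊤) (y : K') : φ.IsIntegralElem y := by
  let := φ.toAlgebra
  have h : Subfield.closure (Set.range φ ∪ Set.range c') ≤ (algebraicClosure K K').toSubfield := by
    refine Subfield.closure_le.2 ?_
    rintro _ (⟨a, rfl⟩ | ⟨a, rfl⟩)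
    · exact (algebraicClosure K K').algebraMap_mem a
    · refine mem_algebraicClosure_iff'.2 (RingHom.IsIntegralElem.of_comp (f := c) ?_)
      rw [show (algebraMap K K').comp c = c'.comp γ from RingHom.ext hc]
      exact (hγ a).map c'
  exact mem_algebraicClosure_iff'.1 (h (hK ▸ Subfield.mem_top y))

/-- It suffices that `g` fixes every `x` with `j x ∈ K'` (`fixingSubgroup_fixedField` for the range
of `r`). Such a `j x` lies in the field generated by `φ K` and finitely many `c' m`; a power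
`(j x) ^ p ^ e` lies in the field generated by `φ K` and a finite Galois extension `k₀` of `k` inside
`M`. Apply `geo_lift` to the compositum of `N` and `k₀` inside `N'` (`spla_sup`). -/
theorem geo_ext {M K' N' : Type} [Field M] [IsAlgClosed M] [Field K'] [Field N'] [Algebra K' N']
    [FiniteDimensional K' N'] [IsGalois K' N'] (γ : k →+* M) (hγ : ∀ a, γ.IsIntegralElem a)
    (c' : M →+* K') (φ : K →+* K') (hc : ∀ a, φ (c a) = c' (γ a))
    (hK : Subfield.closure (Set.range φ ∪ Set.range c') = ⊤) {j : N →+* N'} (hj : Sq φ j)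
    {g : N ≃ₐ[K] N} (hg : g ∈ fixS K {x : N | ((algebraMap K N).comp c).IsIntegralElem x}) :
    ∃ g' : N' ≃ₐ[K'] N', ∀ x, g' (j x) = j (g x) := by
  obtain ⟨r, hr⟩ := exists_rs hj
  suffices h : g ∈ (IntermediateField.fixedField r.range).fixingSubgroup by
    rw [IntermediateField.fixingSubgroup_fixedField] at h
    obtain ⟨g', rfl⟩ := h
    exact ⟨g', fun x => (hr g' x).symm⟩
  refine (IntermediateField.mem_fixingSubgroup_iff _ _).2 fun x hx => ?_
  obtain ⟨y, hy⟩ := mem_range_of_fix (K := K') (x := j x) fun g' => by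
    rw [← hr, (IntermediateField.mem_fixedField_iff _ _).1 hx _ ⟨g', rfl⟩]
  let Ω := AlgebraicClosure N'
  let ι : K' →+* Ω := algebraMap K' Ω
  let J : N →+* Ω := (algebraMap N' Ω).comp j
  have hJ : ∀ a, J (algebraMap K N a) = ι (φ a) := fun a =>
    (congrArg (algebraMap N' Ω) (hj a)).trans (IsScalarTower.algebraMap_apply K' N' Ω _).symm
  obtain ⟨S, hS⟩ := zge2_fin φ c' ι (y := y) (hK ▸ Subfield.mem_top y)
  let := γ.toAlgebra
  obtain ⟨L, _, _, _, _, hL⟩ := exists_gal_root (K := k) (μ := ∏ a ∈ S, minpoly k a)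
    (Finset.prod_ne_zero_iff.2 fun a _ => minpoly.ne_zero (hγ a))
  obtain ⟨e, he⟩ := exists_emb (K := k) (E := L) ((ι.comp c').comp γ)
  obtain ⟨N₁, _, _, _, _, j₁, c₁, i, h1, h2, -⟩ := spla_sup c e J fun a => by
    rw [he, hJ, hc]
    rfl
  have h3 : ∀ a, i (algebraMap K N₁ a) = ι (φ a) := fun a => by
    rw [← j₁.commutes, h1, hJ]
  obtain ⟨g₁, hg₁, h4⟩ := geo_lift c j₁ hg
  have h5 : ∀ a, g₁ (c₁ a) = c₁ a := fun a => hg₁ _ (by
    change RingHom.IsIntegralElem _ _
    rw [show (algebraMap K N₁).comp c = c₁.comp (algebraMap k L) from RingHom.ext fun b =>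
      i.injective (by
        rw [RingHom.comp_apply, RingHom.comp_apply, h3, h2, he, hc]
        rfl)]
    exact RingHom.IsIntegralElem.map (IsIntegral.of_finite k a) c₁)
  obtain ⟨s, hs⟩ := exists_ext i (fun z => RingHom.IsIntegralElem.of_comp (f := algebraMap K N₁) (by
    rw [show i.comp (algebraMap K N₁) = ι.comp φ from RingHom.ext h3]
    have : Algebra.IsIntegral K' Ω := Algebra.IsIntegral.trans N'
    exact RingHom.IsIntegral.trans φ ι (zge2_int c γ hγ c' φ hc hK)
      (fun w => Algebra.IsIntegral.isIntegral (R := K') w) z)) (i.comp (g₁ : N₁ →+* N₁))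
  have hs' : ∀ z, s (i z) = i (g₁ z) := hs
  have h6 := hS s (fun a => by rw [← h3, hs', g₁.commutes]) fun a ha =>
    hL Ω e s _ (fun b => by rw [← h2, hs', h5]) (by
      rw [show e.comp (algebraMap k L) = (ι.comp c').comp (algebraMap k M) from RingHom.ext he,
        ← RingHom.comp_apply ι c', ← Polynomial.hom_eval₂, ← Polynomial.aeval_def, map_prod,
        Finset.prod_eq_zero ha (minpoly.aeval k a), map_zero])
  have h7 : ι y = J x :=
    (IsScalarTower.algebraMap_apply K' N' Ω _).trans (congrArg (algebraMap N' Ω) hy)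
  rw [h7, ← h1, hs', h4, h1, h1] at h6
  exact J.injective h6

end Pool.Agent.ZFy.ZL
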