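import Pool.Agent.Lib.MP_879916_ag.SS.ZUn

/-! Geometric automorphisms lift. -/

namespace Pool.Agent.ZFy.ZL

open Pool.Agent.ZCy Pool.Agent.ZFN
open scoped Classical WithZero Polynomial

set_option linter.unusedSectionVars false

variable {k K N : Type} [Field k] [Field K] [Field N] [Algebra K N] [FiniteDimensional K N]
  [IsGalois K N] (c : k →+* K)

/-- Take any lift `g₁`. The group `V` that fixes `m` acts on the ring `B` of all elements that are
integral over `k`; the invariants come from constants of `N`, so `g₁` fixes them, and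
`place_conj` (`Stab.place_conj`) gives `v ∈ V` that agrees with `g₁` on `B`. -/
theorem geo_lift {Ω : Type} [Field Ω] [Algebra K Ω] [FiniteDimensional K Ω] [IsGalois K Ω]
    (m : N →ₐ[K] Ω) {g : N ≃ₐ[K] N}
    (hg : g ∈ fixS K {x : N | ((algebraMap K N).comp c).IsIntegralElem x}) :
    ∃ g' ∈ fixS K {x : Ω | ((algebraMap K Ω).comp c).IsIntegralElem x},
      ∀ x, g' (m x) = m (g x) := by
  obtain ⟨g₁, hg₁⟩ := exists_twist_sub (K := K) (E := Ω) (Ω := Ω) (m : N →+* Ω) m.commutes
    (RingHom.id Ω) ((m : N →+* Ω).comp (g : N →+* N)) fun a =>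
      (congrArg m (g.commutes a)).trans (m.commutes a)
  have h1 : ∀ x, g₁ (m x) = m (g x) := fun x => (hg₁ x).symm
  let B : Subring Ω :=
    { carrier := {x : Ω | ((algebraMap K Ω).comp c).IsIntegralElem x}
      mul_mem' := fun ha hb => RingHom.IsIntegralElem.mul _ ha hb
      one_mem' := RingHom.isIntegralElem_one _
      add_mem' := fun ha hb => RingHom.IsIntegralElem.add _ ha hb
      zero_mem' := RingHom.isIntegralElem_zero _
      neg_mem' := fun ha => RingHom.IsIntegralElem.neg _ ha }
  have hB : ∀ (u : Ω ≃ₐ[K] Ω), ∀ x ∈ B, u x ∈ B := fun u x hx => by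
    have h2 := RingHom.IsIntegralElem.map (f := (algebraMap K Ω).comp c) hx (u : Ω →+* Ω)
    rwa [show (u : Ω →+* Ω).comp ((algebraMap K Ω).comp c) = (algebraMap K Ω).comp c from
      RingHom.ext fun a => u.commutes _] at h2
  have hS : Stab (fixS K (Set.range m)) B := fun u _ => hB u
  obtain ⟨v, hv, e⟩ := hS.place_conj B.subtype ((g₁ : Ω →+* Ω).comp B.subtype) fun a ha => by
    let _ : Algebra N Ω := (m : N →+* Ω).toAlgebra
    have : IsScalarTower K N Ω := .of_algebraMap_eq fun a => (m.commutes a).symm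
    have : FiniteDimensional N Ω := Module.Finite.of_restrictScalars_finite K N Ω
    have : IsGalois N Ω := IsGalois.tower_top_of_isGalois K N Ω
    obtain ⟨x, hx⟩ := mem_range_of_fix (K := N) (x := (a : Ω)) fun u =>
      ha (u.restrictScalars K) (mem_fixS_range.2 fun y => u.commutes y)
    have hx' : m x = a := hx
    have h2 : ((algebraMap K N).comp c).IsIntegralElem x := by
      refine RingHom.IsIntegralElem.of_map (g := (m : N →+* Ω)) (RingHom.injective _) ?_
      rw [show (m : N →+* Ω).comp ((algebraMap K N).comp c) = (algebraMap K Ω).comp c from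
        RingHom.ext fun a => m.commutes _]
      exact (show (m : N →+* Ω) x = a from hx') ▸ a.2
    show g₁ (a : Ω) = a
    rw [← hx', h1, hg x h2]
  refine ⟨v⁻¹ * g₁, fun x hx => ?_, fun x => ?_⟩
  · have h2 : g₁ x = v x := e ⟨x, hx⟩
    rw [AlgEquiv.mul_apply, h2]
    exact v.symm_apply_apply x
  · rw [AlgEquiv.mul_apply, h1]
    exact mem_fixS_range.1 (inv_mem hv) _

end Pool.Agent.ZFy.ZL
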