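import Pool.Agent.Lib.MP_879916_ag.SS.ZPv
import Pool.Agent.Lib.MP_879916_ag.SS.ZUn
import Pool.Agent.Lib.MP_751085_ag.ZF.Z.CstX
import Pool.Agent.Lib.MP_751085_ag.ZC.Z.Cen2

/-! Constant extensions at Gauss valuations. -/

namespace Pool.Agent.ZFy.ZL

open Pool.Agent.ZCy Pool.Agent.ZFN
open scoped Classical WithZero Polynomial
open MvPolynomial

set_option linter.unusedSectionVars false

/-- an element of the inertia group restricts to the constants (`exists_restrict`, `GauV.over`),
so it fixes them (`fix_of_ine`), and they generate (`cstx_gen`) -/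
theorem rf_unr {ι k k₁ : Type} [Fintype ι] [Field k] [Field k₁] [Algebra k k₁]
    [FiniteDimensional k k₁] [IsGalois k k₁] [Algebra (RF ι k) (RF ι k₁)] (h : RfA ι k k₁)
    {u : Vl k} (hu : Unr k₁ u) {U : Vl (RF ι k)}
    (hU : GauV u (algebraMap (MP ι k) (RF ι k)) U) : Unr (RF ι k₁) U := by
  intro w hw
  refine eq_bot_iff.2 fun g hg => ?_
  have h1 : ∀ z, g (rc ι k₁ z) = rc ι k₁ z :=
    fix_of_ine (K := k) (rc ι k₁) (g : RF ι k₁ ≃+* RF ι k₁)
      (fun a => by rw [← h.map_rc]; exact g.commutes _) w hg.1 hg.2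
      (hu _ fun a => by
        rw [Valuation.comap_apply, ← h.map_rc]
        exact (hw _).trans (hU.over a))
  have h2 : IntermediateField.adjoin (RF ι k) (Set.range (rc ι k₁)) ≤
      IntermediateField.fixedField (Subgroup.zpowers g) := by
    refine IntermediateField.adjoin_le_iff.2 ?_
    rintro _ ⟨z, rfl⟩ ⟨_, n, rfl⟩
    exact (MulAction.mem_stabilizer_iff.1
      (Subgroup.zpow_mem (MulAction.stabilizer (RF ι k₁ ≃ₐ[RF ι k] RF ι k₁) (rc ι k₁ z))
        (x := g) (h1 z) n) :)
  rw [cstx_gen h] at h2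
  exact AlgEquiv.ext fun x => h2 IntermediateField.mem_top ⟨g, Subgroup.mem_zpowers g⟩

/-- integral linear substitutions and restriction to the hyperplane keep integral coefficients
(`pv_lift`, `pv_cfi`, or induction) -/
theorem cfi_hyp_aff {σ k : Type} [Fintype σ] [Field k] {u : Vl k}
    {M : Matrix (Option σ) (Option σ) k} (hM : ∀ i j, u (M i j) ≤ 1)
    {Θ : MP (Option (Option σ)) k} (h : CfI u Θ) : CfI u (hyp (aff 0 (extM M) Θ)) := by
  obtain ⟨p, rfl⟩ := pv_lift h
  have e : (hyp.comp (aff 0 (extM M) : MP (Option (Option σ)) k →+* MP (Option (Option σ)) k)).comp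
      (map u.integer.subtype) = (map u.integer.subtype).comp (hyp.comp
        (aff 0 (extM (Matrix.of fun i j => (⟨M i j, hM i j⟩ : u.integer))) :
          MP (Option (Option σ)) u.integer →+* MP (Option (Option σ)) u.integer)) := by
    refine ringHom_ext (fun a => by simp [aff, hyp]) fun i => ?_
    cases i with
    | none => simp [aff, hyp, extM, Fintype.sum_option]
    | some i => simp [aff, hyp, extM, Fintype.sum_option]
  exact (RingHom.congr_fun e p).symm ▸ pv_cfi _

end Pool.Agent.ZFy.ZL
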