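import Pool.Agent.Lib.MP_879916_ag.SS.ZUn
import Pool.Agent.Lib.MP_879916_ag.SS.ZPv
import Pool.Agent.Lib.MP_751085_ag.ZF.Z.Lin

/-! The pencil of lines: ramification. -/

namespace Pool.Agent.ZFy.ZL

open Pool.Agent.ZCy Pool.Agent.ZFN
open scoped Classical WithZero Polynomial
open MvPolynomial

set_option linter.unusedSectionVars false

variable {k K : Type} [Field k] [Field K] [Algebra (MP (Option Unit) k) K]
  [IsFractionRing (MP (Option Unit) k) K]
variable [Algebra (RF Unit k)[X] K] [IsFractionRing (RF Unit k)[X] K] {Δ : MP (Option Unit) k}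
  {ρ : k} {Δ₀ : MP Unit k} {Th : (MP Unit k)[X]} {N : Type} [Field N] [Algebra K N]

theorem zl3d_C (h : L3c K Δ ρ Δ₀) (a : k) : toF (MP (Option Unit) k) K N (C a) =
    toF (RF Unit k)[X] K N (Polynomial.C (algebraMap (MP Unit k) (RF Unit k) (C a))) :=
  congrArg (algebraMap K N) (h.hC a).symm

theorem zl3d_s (h : L3c K Δ ρ Δ₀) : toF (MP (Option Unit) k) K N (X none) =
    -(toF (RF Unit k)[X] K N (Polynomial.C (algebraMap (MP Unit k) (RF Unit k) (X ()))) *
      toF (MP (Option Unit) k) K N (X (some ()))) := by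
  have e := congrArg (algebraMap K N) h.hs
  rw [map_mul, map_neg] at e
  exact neg_eq_iff_eq_neg.1 e.symm

theorem zl3d_t (h : L3c K Δ ρ Δ₀) (W : Vl N) :
    W (toF (RF Unit k)[X] K N Polynomial.X) * W (toF (MP (Option Unit) k) K N (X (some ()) - C ρ)) =
      W (toF (RF Unit k)[X] K N (Polynomial.C (algebraMap (MP Unit k) (RF Unit k) Δ₀))) := by
  have e := congrArg (algebraMap K N) h.ht
  rw [map_mul] at e
  rw [← map_mul]
  exact congrArg W e

theorem zl3d_int (h : L3c K Δ ρ Δ₀) {W : Vl N}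
    (h1 : ∀ p, W (toF (RF Unit k)[X] K N (Polynomial.C (algebraMap (MP Unit k) (RF Unit k) p))) ≤ 1)
    (h2 : W (toF (MP (Option Unit) k) K N (X (some ()) - C ρ)) ≤ 1) (p : MP (Option Unit) k) :
    W (toF (MP (Option Unit) k) K N p) ≤ 1 := by
  have hC : ∀ a, W (toF (MP (Option Unit) k) K N (C a)) ≤ 1 := fun a => zl3d_C (N := N) h a ▸ h1 _
  have h3 : W (toF (MP (Option Unit) k) K N (X (some ()))) ≤ 1 := by
    rw [← sub_add_cancel (X (some ())) (C ρ), map_add]
    exact W.map_add_le h2 (hC ρ)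
  induction p using MvPolynomial.induction_on with
  | C a => exact hC a
  | add p q hp hq => rw [map_add]; exact W.map_add_le hp hq
  | mul_X p i hp =>
    rw [map_mul, map_mul]
    refine mul_le_one' hp ?_
    rcases i with _ | ⟨⟨⟩⟩
    · rw [zl3d_s h, W.map_neg, map_mul]
      exact mul_le_one' (h1 _) h3
    · exact h3

variable [FiniteDimensional K N] [IsGalois K N]

theorem zl3d_bot (h : L3c K Δ ρ Δ₀) (hu : UnrOff K (toF (MP (Option Unit) k) K N) Δ) {W : Vl N}
    {Th' : (MP Unit k)[X]} {d : ℕ}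
    (e : algebraMap (RF Unit k)[X] K
      ((Polynomial.C Δ₀ * Th').map (algebraMap (MP Unit k) (RF Unit k))) =
      algebraMap (MP (Option Unit) k) K Δ * algebraMap (RF Unit k)[X] K Polynomial.X ^ d)
    (h1 : ∀ p, W (toF (RF Unit k)[X] K N (Polynomial.C (algebraMap (MP Unit k) (RF Unit k) p))) ≤ 1)
    (h2 : W (toF (RF Unit k)[X] K N Polynomial.X) = 1)
    (h3 : W (toF (RF Unit k)[X] K N (Polynomial.C (algebraMap (MP Unit k) (RF Unit k) Δ₀))) = 1)
    (h4 : W (toF (RF Unit k)[X] K N (Th'.map (algebraMap (MP Unit k) (RF Unit k)))) = 1) :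
    Ine K W = ⊥ := by
  have h5 := zl3d_t h W
  rw [h2, h3, one_mul] at h5
  refine ine_bot_off (isFr_alg _ _) hu (zl3d_int h h1 h5.le) ?_
  have h6 : toF (RF Unit k)[X] K N (Polynomial.C (algebraMap (MP Unit k) (RF Unit k) Δ₀)) *
      toF (RF Unit k)[X] K N (Th'.map (algebraMap (MP Unit k) (RF Unit k))) =
      toF (MP (Option Unit) k) K N Δ * toF (RF Unit k)[X] K N Polynomial.X ^ d := by
    have e' := congrArg (algebraMap K N) e
    rw [Polynomial.map_mul, Polynomial.map_C, map_mul, map_mul, map_mul, map_pow] at e'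
    exact e'
  have h7 := congrArg W h6
  rw [map_mul, map_mul, map_pow, h2, h3, h4, one_pow, mul_one, mul_one] at h7
  exact h7.symm

/-- `W` is trivial on `k(s)` and `W t = 1`, so `W` is integral on the plane and `W Δ = 1`
(`ine_bot_off`) -/
theorem l3_unr (h : L3c K Δ ρ Δ₀) (ht : L3t K Δ Δ₀ Th)
    (hu : UnrOff K (toF (MP (Option Unit) k) K N) Δ) :
    UnrOff K (toF (RF Unit k)[X] K N) (Th.map (algebraMap (MP Unit k) (RF Unit k))) := by
  intro P W hP hd hW
  obtain ⟨Th', d, rfl, e⟩ := ht.ex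
  rw [Polynomial.map_mul, Polynomial.map_X] at hd
  refine zl3d_bot h hu e (fun p => hW.1 _) ((hW.eq_one _).2 fun k => hd (k.mul_right _))
    ((hW.eq_one _).2 fun k => hP.not_isUnit (isUnit_of_dvd_unit k ?_))
    ((hW.eq_one _).2 fun k => hd (k.mul_left _))
  exact Polynomial.isUnit_C.2 ((map_ne_zero_iff _ (IsFractionRing.injective _ _)).2 h.ne).isUnit

/-- `W (x₁ - ρ) < 1`, so `W (Δ - Δ₀) < 1` and `W Δ = 1` (`ine_bot_off`) -/
theorem l3_inf (h : L3c K Δ ρ Δ₀) (hu : UnrOff K (toF (MP (Option Unit) k) K N) Δ) :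
    UnI K (toF (RF Unit k)[X] K N) := by
  intro W hW hX
  have h0 : ∀ p : MP Unit k, p ≠ 0 →
      W (toF (RF Unit k)[X] K N (Polynomial.C (algebraMap (MP Unit k) (RF Unit k) p))) = 1 :=
    fun p hp => hW _ ((map_ne_zero_iff _ (IsFractionRing.injective _ _)).2 hp)
  have h1 : ∀ p : MP Unit k,
      W (toF (RF Unit k)[X] K N (Polynomial.C (algebraMap (MP Unit k) (RF Unit k) p))) ≤ 1 := by
    intro p
    by_cases hp : p = 0
    · simp [hp]
    · exact (h0 p hp).le
  have h2 : W (toF (MP (Option Unit) k) K N (X (some ()) - C ρ)) < 1 := by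
    have h3 := zl3d_t h W
    rw [h0 _ h.ne] at h3
    exact not_le.1 fun k => (one_lt_mul_of_lt_of_le' hX k).ne' h3
  have h3 := zl3d_int h h1 h2.le
  have h4 : ∀ p : MP (Option Unit) k, W (toF (MP (Option Unit) k) K N p -
      toF (RF Unit k)[X] K N (Polynomial.C (algebraMap (MP Unit k) (RF Unit k)
        (eval₂Hom C (fun i : Option Unit => i.elim (-(C ρ * X ())) fun _ => C ρ) p)))) < 1 := by
    intro p
    induction p using MvPolynomial.induction_on with
    | C a => rw [eval₂Hom_C, zl3d_C h, sub_self, map_zero]; exact zero_lt_one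
    | add p q hp hq =>
      simp only [map_add]
      rw [add_sub_add_comm]
      exact W.map_add_lt hp hq
    | mul_X p i hp =>
      have key : ∀ a b c e : N, a * b - c * e = (a - c) * b + c * (b - e) := fun _ _ _ _ => by ring
      simp only [map_mul]
      rw [key]
      refine W.map_add_lt ?_ ?_
      · rw [map_mul]
        exact mul_lt_one_of_lt_of_le hp (h3 _)
      · rw [map_mul, mul_comm]
        refine mul_lt_one_of_lt_of_le ?_ (h1 _)
        rw [eval₂Hom_X']
        rw [map_sub, zl3d_C h] at h2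
        rcases i with _ | ⟨⟨⟩⟩
        · have k2 : ∀ a b c : N, -(a * b) - -(c * a) = -((b - c) * a) := fun _ _ _ => by ring
          simp only [Option.elim, map_neg, map_mul]
          rw [zl3d_s h, k2, W.map_neg, map_mul]
          exact mul_lt_one_of_lt_of_le h2 (h1 _)
        · exact h2
  refine ine_bot_off (isFr_alg _ _) hu h3 ?_
  have h5 := h4 Δ
  rw [← h.d0, ← h0 _ h.ne] at h5
  exact (W.map_eq_of_sub_lt h5).trans (h0 _ h.ne)

/-- `W t = 1`, `W Δ₀ = 1`, `W Th' = 1` since `Th'` is monic (`ine_bot_off`) -/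
theorem l3_prm (h : L3c K Δ ρ Δ₀) (ht : L3t K Δ Δ₀ Th)
    (hu : UnrOff K (toF (MP (Option Unit) k) K N) Δ) {u : Vl (RF Unit k)}
    (h1 : ∀ p, u (algebraMap (MP Unit k) (RF Unit k) p) ≤ 1)
    (h2 : u (algebraMap (MP Unit k) (RF Unit k) Δ₀) = 1) {W : Vl N}
    (hW : GauP u (toF (RF Unit k)[X] K N) W) : Ine K W = ⊥ := by
  have k1 : ∀ q : (MP Unit k)[X],
      W (toF (RF Unit k)[X] K N (q.map (algebraMap (MP Unit k) (RF Unit k)))) ≤ 1 ∧
      ∀ i, u (algebraMap (MP Unit k) (RF Unit k) (q.coeff i)) = 1 →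
        W (toF (RF Unit k)[X] K N (q.map (algebraMap (MP Unit k) (RF Unit k)))) = 1 := fun q => by
    have k2 := hW (q.map (algebraMap (MP Unit k) (RF Unit k))) fun i => by
      rw [Polynomial.coeff_map]; exact h1 _
    refine ⟨k2.1, fun i hi => k2.1.eq_or_lt.resolve_right fun k3 => ?_⟩
    have k4 := k2.2.1 k3 i
    rw [Polynomial.coeff_map, hi] at k4
    exact lt_irrefl _ k4
  obtain ⟨Th', d, e0, e⟩ := ht.ex
  have hm : Th'.Monic := Polynomial.monic_X.of_mul_monic_left (e0 ▸ ht.monic)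
  refine zl3d_bot h hu e (fun p => ?_) ?_ ?_ ((k1 Th').2 Th'.natDegree ?_)
  · simpa only [Polynomial.map_C] using (k1 (Polynomial.C p)).1
  · simpa only [Polynomial.map_X] using (k1 Polynomial.X).2 1 (by simp)
  · simpa only [Polynomial.map_C] using (k1 (Polynomial.C Δ₀)).2 0 (by simpa using h2)
  · rw [hm.coeff_natDegree, map_one, map_one]

end Pool.Agent.ZFy.ZL
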