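import Pool.Agent.Lib.MP_879916_ag.SS.ZDf
import Pool.Agent.Lib.MP_751085_ag.ZF.T.Pure
import Pool.Agent.Lib.MP_751085_ag.ZF.L.Tw

/-! Certificates for unramifiedness that are integral at a place. -/

namespace Pool.Agent.ZFy

open Pool.Agent.ZCy Pool.Agent.ZFN
open scoped Classical WithZero Polynomial
open MvPolynomial

variable {k ι ι' N N' : Type} [Field k] [Field N] [Field N'] {u : Vl k}

theorem zlc_iff {p : MP ι k} : CfI u p ↔ p ∈ (map u.integer.subtype : MP ι _ →+* MP ι k).range := by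
  refine ⟨fun h => mem_range_map_iff_coeffs_subset.2 fun a ha => ?_, ?_⟩
  · obtain ⟨m, -, rfl⟩ := Finset.mem_image.1 ha
    exact ⟨⟨_, h m⟩, rfl⟩
  · rintro ⟨q, rfl⟩ m
    rw [coeff_map]
    exact (coeff m q).2

theorem zlc_C {a : k} (h : u a ≤ 1) : CfI u (C a : MP ι k) :=
  zlc_iff.2 ⟨C ⟨a, h⟩, map_C _ _⟩

theorem zlc_hom (f : MP ι k →+* MP ι' k) (h1 : ∀ a, f (C a) = C a) (h2 : ∀ i, CfI u (f (X i)))
    {p : MP ι k} (h : CfI u p) : CfI u (f p) := by
  obtain ⟨q, rfl⟩ := zlc_iff.1 h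
  clear h
  induction q using MvPolynomial.induction_on with
  | C a => rw [map_C, h1]; exact zlc_C a.2
  | add p q hp hq => rw [map_add, map_add]; exact zlc_iff.2 (add_mem (zlc_iff.1 hp) (zlc_iff.1 hq))
  | mul_X p i hp =>
    rw [map_mul, map_mul, map_X]
    exact zlc_iff.2 (mul_mem (zlc_iff.1 hp) (zlc_iff.1 (h2 i)))

theorem zlc_X (i : ι) : CfI u (X i : MP ι k) := zlc_iff.2 ⟨X i, map_X _ _⟩

theorem zlc_aff [Fintype ι] {L : Matrix ι ι k} (hL : ∀ i j, u (L i j) ≤ 1) {p : MP ι k}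
    (h : CfI u p) : CfI u (aff 0 L p) :=
  zlc_hom (aff 0 L : MP ι k →+* MP ι k) (fun a => (aff 0 L).commutes a) (fun i => by
    have : (aff 0 L : MP ι k →+* MP ι k) (X i) = ∑ j, C (L i j) * X j := by simp [aff]
    rw [this]
    exact zlc_iff.2 (sum_mem fun j _ => mul_mem (zlc_iff.1 (zlc_C (hL i j))) (zlc_iff.1 (zlc_X j)))) h

theorem zlc_hyp {p : MP (Option (Option ι)) k} (h : CfI u p) : CfI u (hyp p) :=
  zlc_hom hyp (fun a => eval₂Hom_C _ _ a) (fun i => by
    rcases i with _ | _ | i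
    · simpa [hyp] using zlc_X (u := u) (none : Option ι)
    · simpa [hyp] using zlc_C (u := u) (ι := Option ι) (a := 0) (by simp)
    · simpa [hyp] using zlc_X (u := u) (some i)) h

theorem zlc_ub {π : k} (hπ : u π ≤ 1) {p : MP (Option ι) k} (h : CfI u p) : CfI u (ub π p) :=
  zlc_hom (ub π) (ub_C π) (fun i => by
    rcases i with _ | i
    · rw [gau_ub_none]; exact zlc_X _
    · rw [gau_ub_some]
      exact zlc_iff.2 (mul_mem (zlc_iff.1 (zlc_C hπ)) (zlc_iff.1 (zlc_X _)))) h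

/-- `x` is integral off `Θ`, with an equation that is integral at `u` -/
def IntV (u : Vl k) (φ : MP ι k →+* N) (Θ : MP ι k) (x : N) : Prop :=
  ∃ (m : ℕ) (P : (MP ι k)[X]), P.Monic ∧ (∀ i, CfI u (P.coeff i)) ∧ P.eval₂ φ (φ Θ ^ m * x) = 0

/-- a certificate for unramifiedness off `Θ` that is integral at `u` -/
def CertV (u : Vl k) (φ : MP ι k →+* N) (Θ : MP ι k) : Prop :=
  ∀ g : N →+* N, (∀ p, g (φ p) = φ p) → g ≠ RingHom.id N → ∃ (n : ℕ) (θ y : Fin n → N),
    (∀ i, IntV u φ Θ (θ i) ∧ IntV u φ Θ (y i)) ∧ ∑ i, y i * (g (θ i) - θ i) = 1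

theorem IntV.le {φ : MP ι k →+* N} {Θ : MP ι k} {x : N} (h : IntV u φ Θ x) {W : Vl N}
    (h1 : ∀ p, CfI u p → W (φ p) ≤ 1) (h2 : W (φ Θ) = 1) : W x ≤ 1 := by
  obtain ⟨m, P, hm, hc, h0⟩ := h
  obtain ⟨Q, rfl, -, hQ⟩ := Polynomial.lifts_and_natDegree_eq_and_monic
    (f := (map u.integer.subtype : MP ι _ →+* MP ι k))
    ((Polynomial.lifts_iff_coeff_lifts P).2 fun i => zlc_iff.1 (hc i)) hm
  have := le_one_of_int (v := W) (f := φ.comp (map u.integer.subtype))
    (fun p => h1 _ (zlc_iff.2 ⟨p, rfl⟩)) ⟨Q, hQ, by rwa [Polynomial.eval₂_map] at h0⟩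
  rwa [map_mul, map_pow, h2, one_pow, one_mul] at this

theorem cert_ine {L : Type} [Field L] [Algebra L N] {α : MP ι k →+* L} {Θ : MP ι k}
    (h : CertV u (tE N α) Θ) {W : Vl N} (h1 : ∀ p, CfI u p → W (tE N α p) ≤ 1)
    (h2 : W (tE N α Θ) = 1) : Ine L W = ⊥ := by
  refine eq_bot_iff.2 fun g hg => Subgroup.mem_bot.2 (by_contra fun h0 => ?_)
  obtain ⟨n, θ, y, h3, h4⟩ := h (g : N →+* N) (fun p => g.commutes _) fun e =>
    h0 (AlgEquiv.ext fun x => RingHom.congr_fun e x)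
  have h5 : W (∑ i, y i * ((g : N →+* N) (θ i) - θ i)) < 1 := W.map_sum_lt one_ne_zero fun i _ => by
    rw [map_mul]
    exact (mul_le_of_le_one_left' ((h3 i).2.le h1 h2)).trans_lt (hg.2 _ ((h3 i).1.le h1 h2))
  rw [h4, map_one] at h5
  exact h5.ne rfl

theorem cert_ung {L : Type} [Field L] [Algebra L N] {α : MP (Option ι) k →+* L}
    {Θ : MP (Option ι) k} (h : CertV u (tE N α) Θ) (hΘ : CfI u Θ) (h0 : u (constantCoeff Θ) = 1)
    {π : k} (hπ : π ≠ 0) (hπ' : u π ≤ 1) : UnG L u ((tE N α).comp (bl π)) := fun W hW => by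
  have e : ∀ p, tE N α p = (tE N α).comp (bl π) (ub π p) := fun p => by
    rw [RingHom.comp_apply _ (bl π), bl_eq, ub_ub, inv_mul_cancel₀ hπ, ub_one]
  refine cert_ine h (fun p hp => e p ▸ (hW _ (zlc_ub hπ' hp)).1) ?_
  rw [e]
  refine (hW _ (zlc_ub hπ' hΘ)).1.eq_of_not_lt fun h1 => ?_
  have := (hW _ (zlc_ub hπ' hΘ)).2.1 h1 0
  rw [gau_coeff, Finsupp.prod_zero_index, one_mul] at this
  exact this.ne h0

theorem cert_red {φ : MP ι k →+* N} {φ' : MP ι' k →+* N'} {Θ : MP ι k} {f : MP ι k →+* MP ι' k}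
    {w : Vl N} (ρ : w.integer →+* N') (h1 : ∀ p, w (φ p) ≤ 1) (hΘ : w (φ Θ) = 1)
    (hb : ∀ p (y : w.integer), (y : N) = φ p → ρ y = φ' (f p)) (hf : ∀ p, CfI u p → CfI u (f p))
    (hs : Function.Surjective ρ)
    (hl : ∀ g' : N' →+* N', (∀ p, g' (φ' p) = φ' p) → ∃ g : N →+* N, (∀ p, g (φ p) = φ p) ∧
      ∀ x : w.integer, ∃ y : w.integer, (y : N) = g x ∧ ρ y = g' (ρ x))
    (h : CertV u φ Θ) : CertV u φ' (f Θ) := fun g' hg' h0 => by
  obtain ⟨g, hg, hc⟩ := hl g' hg'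
  obtain ⟨n, θ, y, h3, h4⟩ := h g hg fun e => h0 (RingHom.ext fun z => by
    obtain ⟨x, rfl⟩ := hs z
    obtain ⟨y, e1, e2⟩ := hc x
    rw [← e2, show y = x from Subtype.ext (e1.trans (by rw [e]; rfl))]
    rfl)
  let ψ : MP ι k →+* w.integer := φ.codRestrict w.integer h1
  have key : ∀ x : w.integer, IntV u φ Θ x → IntV u φ' (f Θ) (ρ x) := by
    rintro x ⟨m, P, hm, hP, e⟩
    refine ⟨m, P.map f, hm.map f, fun i => by rw [Polynomial.coeff_map]; exact hf _ (hP i), ?_⟩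
    have e1 : P.eval₂ ψ (ψ Θ ^ m * x) = 0 := Subtype.val_injective
      ((Polynomial.hom_eval₂ P ψ w.integer.subtype _).trans e)
    have e2 := congrArg ρ e1
    rwa [Polynomial.hom_eval₂, map_zero, map_mul, map_pow, hb Θ _ rfl, show ρ.comp ψ = φ'.comp f
      from RingHom.ext fun p => hb p _ rfl, ← Polynomial.eval₂_map] at e2
  have h5 := fun i => (h3 i).1.le (fun p _ => h1 p) hΘ
  have h6 := fun i => (h3 i).2.le (fun p _ => h1 p) hΘ
  choose z z1 z2 using fun i => hc ⟨θ i, h5 i⟩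
  refine ⟨n, fun i => ρ ⟨θ i, h5 i⟩, fun i => ρ ⟨y i, h6 i⟩,
    fun i => ⟨key _ (h3 i).1, key _ (h3 i).2⟩, ?_⟩
  have e : ∑ i, (⟨y i, h6 i⟩ : w.integer) * (z i - ⟨θ i, h5 i⟩) = 1 := Subtype.val_injective (by
    have := map_sum w.integer.subtype (fun i => (⟨y i, h6 i⟩ : w.integer) * (z i - ⟨θ i, h5 i⟩))
      Finset.univ
    refine this.trans ((Finset.sum_congr rfl fun i _ => ?_).trans h4)
    exact congrArg (fun t => y i * (t - θ i)) (z1 i))
  have e' := congrArg ρ e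
  simpa only [map_sum, map_mul, map_sub, map_one, z2] using e'

theorem cert_tw {σ T T' : Type} [Fintype σ] [Field T] [Field T'] [Algebra (RF (Option σ) k) T]
    [Algebra (RF (Option σ) k) T'] {L : Matrix σ σ k} (hT : Tw L T T') (hL : ∀ i j, u (L i j) ≤ 1)
    {Θ : MP (Option σ) k} (h0 : Θ ≠ 0) (h : CertV u (toE (MP (Option σ) k) T) Θ) :
    CertV u (toE (MP (Option σ) k) T') (aff 0 (extM L) Θ) := by
  obtain ⟨e, he⟩ := hT
  refine cert_red (w := 1) (f := (aff 0 (extM L) : MP (Option σ) k →+* MP (Option σ) k))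
    ((e : T →+* T').comp (Subring.subtype _)) (fun p => Valuation.one_apply_le_one _)
    (Valuation.one_apply_of_ne_zero ((map_ne_zero_iff _ (toE_inj T)).2 h0))
    (fun p y hy => (congrArg e hy).trans (he p)) (fun p => zlc_aff fun i j => ?_)
    (fun z => ⟨⟨e.symm z, (Valuation.mem_integer_iff _ _).2 (Valuation.one_apply_le_one _)⟩,
      e.apply_symm_apply z⟩)
    (fun g' hg' => ⟨(e.symm : T' →+* T).comp (g'.comp e), fun p => ?_, fun x =>
      ⟨⟨e.symm (g' (e x)), (Valuation.mem_integer_iff _ _).2 (Valuation.one_apply_le_one _)⟩, rfl,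
        e.apply_symm_apply _⟩⟩) h
  · rcases i with _ | i <;> rcases j with _ | j <;> simp [extM, hL]
  · change e.symm (g' (e _)) = _
    rw [he, hg', ← he, e.symm_apply_apply]

theorem cert_res {σ T TH : Type} [Fintype σ] [Field T] [Field TH]
    [Algebra (RF (Option (Option σ)) k) T] [FiniteDimensional (RF (Option (Option σ)) k) T]
    [IsGalois (RF (Option (Option σ)) k) T] [Algebra (RF (Option σ) k) TH] {w : Vl T}
    {ρ : w.integer →+* TH} (hρ : HRes (k := k) (σ := σ) w ρ (RingHom.id TH))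
    (hs : Function.Surjective ρ) {Θ : MP (Option (Option σ)) k} (h0 : hyp Θ ≠ 0)
    (h : CertV u (toE (MP (Option (Option σ)) k) T) Θ) :
    CertV u (toE (MP (Option σ) k) TH) (hyp Θ) := by
  refine cert_red ρ hρ.cen.1 ((hρ.cen.eq_one _).2 fun e => h0 (hyp_eq_zero.2 e)) hρ.base
    (fun p => zlc_hyp) hs (fun g' hg' => ?_) h
  obtain ⟨d, hd, hc⟩ := vn_red (K := RF (Option (Option σ)) k) hρ.red (hρ.red.comp g')
    fun x y hy => by
      have hc' : Cen (algebraMap (MP (Option (Option σ)) k) (RF (Option (Option σ)) k))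
        (w.comap (algebraMap _ T)) (X (some none)) := hρ.cen
      obtain ⟨a, b, hb, e⟩ := (hc'.le_one_iff (isFr_alg _ _) X_prime x).1 (hy ▸ y.2 :)
      have h2 : ρ ⟨_, hρ.cen.1 b⟩ ≠ 0 := fun e => hb ((hρ.cen.2 b).1 ((hρ.red _).1 e))
      have h3 : ρ y * ρ ⟨_, hρ.cen.1 b⟩ = ρ ⟨_, hρ.cen.1 a⟩ := by
        rw [← map_mul]
        refine congrArg ρ (Subtype.ext ?_)
        change (y : T) * _ = _
        rw [hy]
        exact (map_mul (algebraMap _ T) _ _).symm.trans (congrArg _ e)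
      rw [RingHom.comp_apply, eq_div_of_mul_eq h2 h3, map_div₀, hρ.base a _ rfl, hρ.base b _ rfl]
      exact congrArg₂ (· / ·) (hg' _).symm (hg' _).symm
  exact ⟨(d : T →+* T), fun p => d.commutes _, fun x =>
    ⟨⟨d x, (hd x).trans_le x.2⟩, rfl, hc x _ rfl⟩⟩

variable (F₀ : Type) [Field F₀] [Finite F₀] [Algebra (RatFunc F₀) k]
  [FiniteDimensional (RatFunc F₀) k]

include F₀

theorem zlc_cof (p : MP ι k) : ∀ᶠ v : Place k in Filter.cofinite, CfI (plv v) p :=
  ((Filter.eventually_all_finset p.support).2 fun m _ => place_fs F₀ (coeff m p)).mono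
    fun v h m => by
      by_cases hm : m ∈ p.support
      · exact (plv_le v _).2 (h m hm)
      · rw [notMem_support_iff.1 hm, map_zero]
        exact zero_le_one

theorem zlc_unit {a : k} (ha : a ≠ 0) : ∀ᶠ v : Place k in Filter.cofinite, plv v a = 1 :=
  ((place_fs F₀ a).and (place_fs F₀ a⁻¹)).mono fun v h => by
    have h1 := (plv_le v _).2 h.2
    rw [map_inv₀, inv_le_one₀ (zero_lt_iff.2 ((map_ne_zero _).2 ha))] at h1
    exact ((plv_le v _).2 h.1).antisymm h1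

theorem cert_cof [Finite ι] {L : Type} [Field L] [Algebra L N]
    [FiniteDimensional L N] [IsGalois L N] {α : MP ι k →+* L} (hα : IsFr α) {Θ : MP ι k}
    (h0 : Θ ≠ 0) (hu : UnrOff L (tE N α) Θ) :
    ∀ᶠ v : Place k in Filter.cofinite, CertV (plv v) (tE N α) Θ := by
  have h1 : ∀ x : IntOff (tE N α) Θ, ∀ᶠ v : Place k in Filter.cofinite,
      IntV (plv v) (tE N α) Θ x := fun x => by
    obtain ⟨m, P, hm, hP⟩ := exists_int_of_intOff hα x.2
    refine ((Filter.eventually_all_finset P.support).2 fun i _ => zlc_cof F₀ (P.coeff i)).mono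
      fun v h => ⟨m, P, hm, fun i => ?_, hP⟩
    by_cases hi : i ∈ P.support
    · exact h i hi
    · rw [Polynomial.notMem_support_iff.1 hi]
      exact fun m => by simp
  have h2 : ∀ g : N ≃ₐ[L] N, ∀ᶠ v : Place k in Filter.cofinite, g ≠ 1 → ∃ (n : ℕ) (θ y : Fin n → N),
      (∀ i, IntV (plv v) (tE N α) Θ (θ i) ∧ IntV (plv v) (tE N α) Θ (y i)) ∧
        ∑ i, y i * (g (θ i) - θ i) = 1 := fun g => by
    by_cases hg : g = 1
    · exact .of_forall fun _ h => absurd hg h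
    have h3 : Ideal.span (Set.range fun x => gI α Θ g x - x) = ⊤ := by_contra fun h => by
      obtain ⟨M, hM, h4⟩ := Ideal.exists_le_maximal _ h
      let := Ideal.Quotient.field M
      exact hg (pureF hα h0 hu (Ideal.Quotient.mk M) fun x =>
        Ideal.Quotient.eq.2 (h4 (Ideal.subset_span ⟨x, rfl⟩)))
    obtain ⟨n, y, z, h4⟩ := Submodule.mem_span_set'.1 ((Ideal.eq_top_iff_one _).1 h3)
    choose θ hθ using fun i => (z i).2
    refine (Filter.eventually_all.2 fun i => (h1 (θ i)).and (h1 (y i))).mono fun v h _ =>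
      ⟨n, fun i => θ i, fun i => y i, h, ?_⟩
    have := congrArg (IntOff (tE N α) Θ).subtype h4
    rw [map_sum, map_one] at this
    exact (Finset.sum_congr rfl fun i _ => by rw [← hθ i]; rfl).trans this
  refine (Filter.eventually_all.2 h2).mono fun v h g hg h0 => ?_
  let g₁ : N →ₐ[L] N := { g with
    commutes' := RingHom.congr_fun (hα.hom_ext (φ := g.comp (algebraMap L N)) hg) }
  exact h (AlgEquiv.ofBijective g₁ g₁.bijective) fun e =>
    h0 (RingHom.ext fun x => AlgEquiv.congr_fun e x)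

end Pool.Agent.ZFy
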