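import Pool.Agent.Lib.MP_879916_ag.SS.ZPv

/-! Purity over the valuation ring of a place. -/

namespace Pool.Agent.ZFy

open Pool.Agent.ZCy Pool.Agent.ZFN
open scoped Classical WithZero Polynomial
open MvPolynomial

variable {k ι L E Ω : Type} [Field k] [Field L] [Field E] [Field Ω] {u : Vl k}

variable [Finite ι] [Algebra L E] [FiniteDimensional L E] [IsGalois L E] {α : MP ι k →+* L}
  {Θ : MP ι k} {Θ' : MP ι u.integer}

/-- a prime is either associated to the uniformiser (`gauV_cen`), or the valuation is trivial on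
`k` (`ine_bot_off`) -/
theorem pv_unr (hu : Nrm u) (hα : IsFr α) (hU : UnrOff L (tE E α) Θ) (hG : UnG L u (tE E α))
    (hΘ : map u.integer.subtype Θ' = Θ) :
    UnrOff L (tE E (α.comp (map u.integer.subtype))) Θ' := by
  intro P w hP hd hc
  have := pv_dvr hu
  obtain ⟨π, hπ⟩ := hu
  have h1 : u π < 1 := hπ ▸ WithZero.exp_lt_exp.2 (show (-1 : ℤ) < 0 by decide)
  let p : u.integer := ⟨π, h1.le⟩
  have hp : ∀ a : u.integer, p ∣ a ↔ u a < 1 := fun a => by
    refine (Valuation.integer.integers u).dvd_iff_le.trans ?_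
    change u a ≤ u π ↔ _
    rw [hπ, ← WithZero.lt_mul_exp_iff_le WithZero.exp_ne_zero, ← WithZero.exp_add]
    rfl
  have h2 : Prime p := by
    refine ⟨fun h => WithZero.exp_ne_zero (hπ.symm.trans ?_), fun h => ?_, fun a b h => ?_⟩
    · rw [show π = 0 from congrArg Subtype.val h, map_zero]
    · exact ((hp 1).1 h.dvd).ne u.map_one
    · rw [hp, hp]
      by_contra h3
      rw [not_or, not_lt, not_lt] at h3
      have h4 := (hp _).1 h
      rw [Subring.coe_mul, map_mul, le_antisymm a.2 h3.1, le_antisymm b.2 h3.2, mul_one] at h4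
      exact h4.ne rfl
  by_cases h3 : P ∣ C p
  · have h4 := hP.associated_of_dvd ((prime_C_iff ι).2 h2) h3
    exact hG w ((gauV_cen (fun a => a.2) hp (fun x hx => ⟨1, ⟨x, hx⟩, u.map_one, mul_one x⟩)
      (tE E α) w).2 ⟨hc.1, fun a => (hc.2 a).trans h4.dvd_iff_dvd_left⟩)
  have h4 : ∀ a : u.integer, w (tE E α (C (a : k))) ≤ 1 := fun a =>
    (congrArg (fun y => w (tE E α y)) (map_C u.integer.subtype a)).symm.trans_le (hc.1 (C a))
  refine ine_bot_off hα hU (fun q => ?_) (hΘ ▸ cen1_one hc hd)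
  induction q using MvPolynomial.induction_on with
  | C a =>
    by_cases ha : u a ≤ 1
    · exact h4 ⟨a, ha⟩
    have h0 : a ≠ 0 := fun h => ha (by simp [h])
    have h5 : u a⁻¹ ≤ 1 := by
      rw [map_inv₀]
      exact inv_le_one_of_one_le₀ (not_le.1 ha).le
    obtain ⟨n, hn⟩ := IsDiscreteValuationRing.associated_pow_irreducible
      (x := (⟨a⁻¹, h5⟩ : u.integer)) (fun h => inv_ne_zero h0 (congrArg Subtype.val h))
      h2.irreducible
    have h6 := cen1_one hc (b := C ⟨a⁻¹, h5⟩) fun h => h3 (hP.dvd_of_dvd_pow (n := n)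
      (h.trans (by rw [← map_pow]; exact map_dvd _ hn.dvd)))
    have h7 : w (tE E α (C a⁻¹)) = 1 :=
      (congrArg (fun y => w (tE E α y)) (map_C u.integer.subtype ⟨a⁻¹, h5⟩)).symm.trans h6
    rw [← mul_one (w _), ← h7, ← map_mul, ← map_mul, ← map_mul, mul_inv_cancel₀ h0, h7]
    simp
  | add p q hp hq => rw [map_add]; exact w.map_add_le hp hq
  | mul_X q i hq =>
    rw [map_mul, map_mul]
    exact mul_le_one' hq ((congrArg (fun y => w (tE E α y))
      (map_X u.integer.subtype i)).symm.trans_le (hc.1 (X i)))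

/-- extend `q` to `IntOff _ Θ'` (`exists_loc_ext`, `exists_pow_mul_mem`) and use `pureD` -/
theorem pureS (hu : Nrm u) (hα : IsFr α) (hU : UnrOff L (tE E α) Θ) (hG : UnG L u (tE E α))
    (hΘ : map u.integer.subtype Θ' = Θ)
    (q : IntOff (tE E (α.comp (map u.integer.subtype))) 1 →+* Ω)
    (hq : ∀ a : u.integer, u a < 1 → q (toInt _ 1 (C a)) = 0) (h0 : q (toInt _ 1 Θ') ≠ 0)
    {g : E ≃ₐ[L] E} (hg : ∀ x, q (gI _ 1 g x) = q x) : g = 1 := by
  have := pv_dvr hu
  have hβ := pv_fr hα u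
  have h1 : ∀ x ∈ IntOff (tE E (α.comp (map u.integer.subtype))) Θ', ∃ m : ℕ,
      q (toInt _ 1 (Θ' ^ m)) ≠ 0 ∧ (toInt (tE E (α.comp (map u.integer.subtype))) 1 (Θ' ^ m) : E) *
        x ∈ IntOff (tE E (α.comp (map u.integer.subtype))) 1 := fun x hx => by
    obtain ⟨m, hm⟩ := exists_pow_mul_mem hβ hx
    exact ⟨m, by rw [map_pow, map_pow]; exact pow_ne_zero _ h0, by rwa [coe_toInt, map_pow]⟩
  obtain ⟨q', h2⟩ := exists_loc_ext q fun x hx => (h1 x hx).elim fun m h => ⟨_, h⟩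
  refine pureD hβ (fun h => h0 (by rw [h, map_zero, map_zero])) (pv_unr hu hα hU hG hΘ) q'
    (fun a => ⟨fun h ha => (ha.map _).ne_zero h, fun h => ?_⟩) fun x => ?_
  · have e := h2 (toInt _ Θ' (C a)) 1 (toInt _ 1 (C a)) (one_mul _).symm
    rw [map_one, one_mul, hq a (lt_of_le_of_ne a.2 fun h' =>
      h ((Valuation.integer.integers u).isUnit_of_one' h'))] at e
    exact e.symm
  · obtain ⟨m, h3, h4⟩ := h1 x x.2
    refine mul_left_cancel₀ h3 ((h2 _ _ (gI _ 1 g ⟨_, h4⟩) ?_).symm.trans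
      ((hg _).trans (h2 x _ _ rfl)))
    rw [coe_gI, coe_gI, map_mul]
    exact congrArg (· * _) (g.commutes _)

/-- the same for a valuation; `q` is the residue map of `W` (`exists_resf`) -/
theorem ine_bot_S (hu : Nrm u) (hα : IsFr α) (hU : UnrOff L (tE E α) Θ) (hG : UnG L u (tE E α))
    (hΘ : CfI u Θ) {W : Vl E} (h1 : ∀ p, CfI u p → W (tE E α p) ≤ 1)
    (h2 : ∀ a, u a < 1 → W (tE E α (C a)) < 1) (h3 : W (tE E α Θ) = 1) : Ine L W = ⊥ := by
  have := pv_dvr hu
  obtain ⟨Θ', h4⟩ := pv_lift hΘ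
  obtain ⟨κ, _, ρ, hρ, -⟩ := exists_resf W
  refine (Subgroup.eq_bot_iff_forall _).2 fun g hg => ?_
  have hx : ∀ x : IntOff (tE E (α.comp (map u.integer.subtype))) 1, W x ≤ 1 := fun x =>
    le_one_of_intOff (pv_fr hα u) (j := RingHom.id E) (fun p => h1 _ (pv_cfi p)) (by simp) x.2
  refine pureS hu hα hU hG h4 (ρ.comp ((IntOff _ 1).subtype.codRestrict W.integer hx))
    (fun a ha => (hρ _).2 ((congrArg (fun y => W (tE E α y))
      (map_C u.integer.subtype a)).trans_lt (h2 a ha)))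
    ((hρ.ne_zero _).2 ((congrArg (fun y => W (tE E α y)) h4).trans h3)) fun x => ?_
  rw [← sub_eq_zero, ← map_sub]
  exact (hρ _).2 (hg.2 x (hx x))

end Pool.Agent.ZFy
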