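import Pool.Agent.Lib.MP_879916_ag.SS.ZCst
import Pool.Agent.Lib.MP_879916_ag.SS.ZPv
import Pool.Agent.Lib.MP_751085_ag.ZF.Z.TypW

/-! Radicals. -/

namespace Pool.Agent.ZFy.ZL

open Pool.Agent.ZCy Pool.Agent.ZFN
open scoped Classical WithZero Polynomial

set_option linter.unusedSectionVars false

variable {l : ℕ} {k K N : Type} [Field k] [Field K] [Field N] [Algebra k[X] K]
  [IsFractionRing k[X] K] [Algebra K N] [FiniteDimensional K N] [IsGalois K N]

theorem zrad_int (g : N ≃ₐ[K] N) {x : N} (h : (cP (k := k) K N).IsIntegralElem x) :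
    (cP (k := k) K N).IsIntegralElem (g x) := by
  have h1 := h.map (g : N →+* N)
  rwa [show (g : N →+* N).comp (cP (k := k) K N) = cP K N from
    RingHom.ext fun _ => g.commutes _] at h1

/-- Hilbert 90 for the image of `V` in the automorphisms of the constants: `a g = g r / r` is a
root of unity; `b = ∑ (a σ)⁻¹ σ y` over the image is non-zero for some constant `y`
(`linearIndependent_monoidHom`). -/
theorem radical_cst (hl : l ≠ 0) (V : Subgroup (N ≃ₐ[K] N)) {r : N} (hr : r ≠ 0)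
    (h1 : ∀ g ∈ V, g (r ^ l) = r ^ l) (h2 : ∀ g ∈ V, g ∈ geoP k K N → g r = r) :
    ∃ b : N, b ≠ 0 ∧ (cP (k := k) K N).IsIntegralElem b ∧ ∀ g ∈ V, g (r / b) = r / b := by
  let := (cP (k := k) K N).toAlgebra
  let B := integralClosure k N
  let H := (geoP k K N).subgroupOf V
  have := Fintype.ofFinite (V ⧸ H)
  let f : V ⧸ H → (B →* N) := fun q =>
    (((q.out : V) : N ≃ₐ[K] N) : N →* N).comp (B.val : B →* N)
  have hf : Function.Injective f := fun q q' e => by
    rw [← QuotientGroup.out_eq' q, ← QuotientGroup.out_eq' q']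
    refine QuotientGroup.eq.2 (Subgroup.mem_subgroupOf.2 fun x hx => ?_)
    have h3 : ((q.out : V) : N ≃ₐ[K] N) x = ((q'.out : V) : N ≃ₐ[K] N) x :=
      DFunLike.congr_fun e ⟨x, hx⟩
    rw [Subgroup.coe_mul, AlgEquiv.mul_apply, ← h3, ← AlgEquiv.mul_apply, ← Subgroup.coe_mul,
      inv_mul_cancel]
    rfl
  have h0 : ∀ g : N ≃ₐ[K] N, g r ≠ 0 := fun g => (map_ne_zero g).2 hr
  have h4 := Fintype.linearIndependent_iff.1 ((linearIndependent_monoidHom B N).comp f hf)
    fun q => r / ((q.out : V) : N ≃ₐ[K] N) r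
  obtain ⟨y, hy⟩ : ∃ y : B, ∑ q : V ⧸ H, r / ((q.out : V) : N ≃ₐ[K] N) r *
      ((q.out : V) : N ≃ₐ[K] N) y ≠ 0 := by
    by_contra! e
    exact div_ne_zero hr (h0 _) (h4 (funext fun x => by
      rw [Finset.sum_apply]
      exact e x) ((1 : V) : V ⧸ H))
  refine ⟨_, hy, ?_, fun g hg => ?_⟩
  · refine IsIntegral.sum (R := k) _ fun q _ => IsIntegral.mul ?_ (zrad_int _ y.2)
    refine IsIntegral.of_pow (Nat.pos_of_ne_zero hl) ?_
    rw [div_pow, ← map_pow, h1 _ q.out.2, div_self (pow_ne_zero _ hr)]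
    exact isIntegral_one
  · have h5 : ∑ q : V ⧸ H, r / ((q.out : V) : N ≃ₐ[K] N) r * ((q.out : V) : N ≃ₐ[K] N) y =
        r * ∑ q : V ⧸ H, ((q.out : V) : N ≃ₐ[K] N) (y / r) := by
      rw [Finset.mul_sum]
      refine Finset.sum_congr rfl fun q _ => ?_
      rw [map_div₀, div_mul_eq_mul_div, mul_div_assoc]
    rw [h5, div_mul_cancel_left₀ hr, map_inv₀, map_sum]
    refine congrArg _ (Fintype.sum_equiv (MulAction.toPerm (⟨g, hg⟩ : V)) _ _ fun q => ?_)
    obtain ⟨h, hh⟩ := QuotientGroup.mk_out_eq_mul H (⟨g, hg⟩ * q.out)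
    have h6 : MulAction.toPerm (⟨g, hg⟩ : V) q = ((⟨g, hg⟩ * q.out : V) : V ⧸ H) := by
      rw [MulAction.toPerm_apply]
      conv_lhs => rw [← QuotientGroup.out_eq' q]
      rfl
    have h7 : ((h : V) : N ≃ₐ[K] N) ∈ geoP k K N := Subgroup.mem_subgroupOf.1 h.2
    rw [h6, hh, Subgroup.coe_mul, Subgroup.coe_mul, AlgEquiv.mul_apply, AlgEquiv.mul_apply,
      map_div₀ ((h : V) : N ≃ₐ[K] N), h7 _ y.2, h2 _ (h : V).2 h7]

/-- pattern of `typW`: `unr_of_le`, `e1_of_ine_bot` -/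
theorem tw_of_unr {L₁ : Type} [Field L₁] [Algebra K L₁] (e : L₁ →ₐ[K] N) {Δ : k[X]}
    (hu : UnrOff K (toF k[X] K N) Δ) {u : L₁} {r : N} (h : r ^ l = e u) :
    GM.TW l (toF k[X] K L₁) Δ u := by
  rintro P hP ⟨ht, hX, hΘ⟩
  let := (e : L₁ →+* N).toAlgebra
  have : IsScalarTower K L₁ N := .of_algebraMap_eq fun a => (e.commutes a).symm
  have := Module.Finite.of_restrictScalars_finite K L₁ N
  obtain ⟨w, hw, ho⟩ := exists_over_nrm (E := N) hP
  have e0 : ∀ p, toF k[X] K N p = algebraMap L₁ N (toF k[X] K L₁ p) := fun p => (e.commutes _).symm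
  have h2 : ∀ f, w (toF k[X] K N f) ≤ 1 := fun f => by
    rw [e0, ho]
    induction f using Polynomial.induction_on' with
    | add p q hp hq => rw [map_add]; exact P.map_add_le hp hq
    | monomial n c =>
      rcases eq_or_ne c 0 with rfl | hc
      · simp
      rw [← Polynomial.C_mul_X_pow_eq_monomial, map_mul, map_pow, map_mul, map_pow]
      exact mul_le_one' (ht c hc).le (pow_le_one' hX n)
  obtain ⟨π, hπ⟩ := hw
  obtain ⟨a, ha⟩ := e1_of_ine_bot (unr_of_le hu h2 (by rw [e0]; exact (ho.eq_one _).2 hΘ)) π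
  obtain ⟨n, -, hn⟩ := ho.idx hP
  have h3 := hn.ord (algebraMap K L₁ a)
  rw [← IsScalarTower.algebraMap_apply, ord_eq_of w (ha.symm.trans hπ)] at h3
  have h4 := hn.ord u
  rw [Int.eq_one_of_mul_eq_one_right (Int.natCast_nonneg n) h3.symm, one_mul,
    show algebraMap L₁ N u = r ^ l from h.symm, ord_pow_v] at h4
  exact ⟨_, h4.symm⟩

end Pool.Agent.ZFy.ZL
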