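import Pool.Agent.Lib.MP_879916_ag.SS.ZSch

/-! Places at which an element has a zero of order a power of `p`. -/

namespace Pool.Agent.ZFy.ZL

open Pool.Agent.ZCy Pool.Agent.ZFN
open scoped Classical WithZero Polynomial

set_option linter.unusedSectionVars false

/-- a place off `S`, finite in `t`, at which some value of `H` is congruent to `θ` -/
theorem zrt_core {k : Type} [Field k] (F₀ : Type) [Field F₀] [Finite F₀] [Algebra (RatFunc F₀) k]
    [FiniteDimensional (RatFunc F₀) k] [IsGalois (RatFunc F₀) k] (θ : k) {S : Set (Vl k)}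
    (hS : S.Finite) {H : F₀[X][X]} (hH : 0 < H.natDegree) :
    ∃ (w : Vl k) (y : F₀[X]), Nrm w ∧ w ∉ S ∧ w (pol k F₀ Polynomial.X) ≤ 1 ∧
      w (pol k F₀ (H.eval y) - θ) < 1 := by
  have hi := Algebra.IsIntegral.isIntegral (R := RatFunc F₀) θ
  obtain ⟨m, d, hd, hm⟩ : ∃ (m : F₀[X][X]) (d : F₀[X]), d ≠ 0 ∧
      m.map (algebraMap F₀[X] (RatFunc F₀)) =
        Polynomial.C (algebraMap F₀[X] (RatFunc F₀) d) * minpoly (RatFunc F₀) θ := by
    obtain ⟨d, hd, hm⟩ := IsLocalization.integerNormalization_spec (nonZeroDivisors F₀[X])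
      (minpoly (RatFunc F₀) θ)
    refine ⟨_, d, nonZeroDivisors.ne_zero hd, hm.trans ?_⟩
    rw [← Polynomial.smul_eq_C_mul, algebraMap_smul]
  have hd' : algebraMap F₀[X] (RatFunc F₀) d ≠ 0 :=
    (map_ne_zero_iff _ (IsFractionRing.injective F₀[X] (RatFunc F₀))).2 hd
  have hm0 : 0 < m.natDegree := by
    refine lt_of_lt_of_le ?_ (Polynomial.natDegree_map_le (f := algebraMap F₀[X] (RatFunc F₀)))
    rw [hm, Polynomial.natDegree_C_mul hd']
    exact minpoly.natDegree_pos hi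
  have hG : 0 < (m.comp H).natDegree := by
    rw [Polynomial.natDegree_comp]
    exact Nat.mul_pos hm0 hH
  obtain ⟨N, hN, hNS⟩ := exists_pol_small F₀
    (S := {w | w ∈ S ∧ Nrm w ∧ w (pol k F₀ Polynomial.X) ≤ 1}) (hS.subset fun _ h => h.1)
    (fun _ h => h.2) 1
  obtain ⟨π, y, hπ, hnd, hdv⟩ := schur hG (mul_ne_zero hd hN)
  obtain ⟨u, hu, hc⟩ := exists_cen_ext (E := k) (isFr_alg F₀[X] (RatFunc F₀)) hπ
  replace hc : Cen (pol k F₀) u π := hc
  have h1 : pol k F₀ ((m.comp H).eval y) =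
      pol k F₀ d * Polynomial.aeval (pol k F₀ (H.eval y)) (minpoly (RatFunc F₀) θ) := by
    rw [Polynomial.eval_comp, ← Polynomial.eval₂_hom, ← Polynomial.eval₂_map, hm,
      Polynomial.eval₂_mul, Polynomial.eval₂_C, Polynomial.aeval_def]
    rfl
  have h2 := (hc.2 _).2 hdv
  rw [h1, map_mul, (hc.eq_one d).2 fun h => hnd (h.mul_right N), one_mul,
    (Normal.splits inferInstance θ).aeval_eq_prod_aroots_of_monic (minpoly.monic hi),
    map_multiset_prod] at h2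
  obtain ⟨r, hr, h3⟩ : ∃ r ∈ (minpoly (RatFunc F₀) θ).aroots k,
      u (pol k F₀ (H.eval y) - r) < 1 := by
    by_contra hn
    refine h2.not_ge (Multiset.one_le_prod_of_one_le fun x hx => ?_)
    rw [Multiset.map_map] at hx
    obtain ⟨r, hr, rfl⟩ := Multiset.mem_map.1 hx
    exact not_lt.1 fun h => hn ⟨r, hr, h⟩
  obtain ⟨σ, hσ⟩ := minpoly.exists_algEquiv_of_root' hi.isAlgebraic
    (Polynomial.mem_aroots.1 hr).2
  have h4 : ∀ a, u.comap (σ : k →+* k) (pol k F₀ a) = u (pol k F₀ a) := fun a =>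
    congrArg u (σ.commutes _)
  have h5 : Nrm (u.comap (σ : k →+* k)) :=
    hu.elim fun a ha => ⟨σ.symm a, (congrArg u (σ.apply_symm_apply a)).trans ha⟩
  have h6 : u.comap (σ : k →+* k) (pol k F₀ Polynomial.X) ≤ 1 := (h4 _).trans_le (hc.1 _)
  refine ⟨u.comap (σ : k →+* k), y, h5, fun h => hnd (Dvd.dvd.mul_left ((hc.2 N).1 ?_) d), h6, ?_⟩
  · rw [← h4, lt_one_iff_le_exp]
    exact hNS _ ⟨h, h5, h6⟩
  · refine lt_of_eq_of_lt (congrArg u ?_) h3
    exact (map_sub σ _ _).trans (congrArg₂ _ (σ.commutes _) hσ)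

/-- the order is `1` where the derivative is a unit -/
theorem zrt_ord {k : Type} [Field k] (D : Derivation ℤ k k) {w : Vl k} (hw : Nrm w)
    (hD : ∀ a, w a ≤ 1 → w (D a) ≤ 1) {a : k} (ha : w a < 1) (h : 1 ≤ w (D a)) :
    w a = WithZero.exp (-1) := by
  obtain ⟨π, hπ⟩ := hw
  have h0 : w π ≠ 0 := hπ ▸ WithZero.exp_ne_zero
  have h1 : w π < 1 := (lt_one_iff_le_exp _).2 hπ.le
  refine (((lt_one_iff_le_exp _).1 ha).eq_or_lt).resolve_right fun h2 => h.not_gt ?_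
  have h3 : w (a / π) < 1 := by
    rw [map_div₀, div_lt_one₀ (zero_lt_iff.2 h0), hπ]
    exact h2
  rw [← mul_div_cancel₀ a (w.ne_zero_iff.1 h0), Derivation.leibniz, smul_eq_mul, smul_eq_mul]
  refine w.map_add_lt ?_ ?_ <;> rw [map_mul]
  · exact mul_lt_one_of_lt_of_le h1 (hD _ h3.le)
  · exact mul_lt_one_of_lt_of_le h3 (hD _ h1.le)

/-- the case of a simple zero -/
theorem zrt_one {k : Type} [Field k] (F₀ : Type) [Field F₀] [Finite F₀] [Algebra (RatFunc F₀) k]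
    [FiniteDimensional (RatFunc F₀) k] [IsGalois (RatFunc F₀) k] (p : ℕ) [Fact p.Prime]
    [CharP F₀ p] [CharP k p] (θ : k) (e : ℕ) (he : e = 0 ∨ ∀ y, θ ≠ y ^ p) {S : Set (Vl k)}
    (hS : S.Finite) : ∃ (w : Vl k) (s : F₀[X]), Nrm w ∧ w ∉ S ∧
      w (pol k F₀ Polynomial.X) ≤ 1 ∧ w (pol k F₀ s ^ p ^ e - θ) = WithZero.exp (-1) := by
  have hp : 0 < p := (Fact.out : p.Prime).pos
  have h1 : P1 p (pol k F₀ Polynomial.X) := p1_pol F₀
  obtain ⟨c, hc⟩ : ∃ c : F₀[X],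
      dT (pol k F₀ Polynomial.X) (pol k F₀ c ^ p ^ e - θ) ≠ 0 := by
    by_cases h : dT (pol k F₀ Polynomial.X) θ = 0
    · obtain rfl := he.resolve_right fun h' => (h1.ker h).elim h'
      refine ⟨Polynomial.X, ?_⟩
      rw [pow_zero, pow_one, map_sub, h, h1.self, sub_zero]
      exact one_ne_zero
    · refine ⟨0, ?_⟩
      rw [map_zero, zero_pow (pow_pos hp e).ne', zero_sub, map_neg]
      exact neg_ne_zero.2 h
  obtain ⟨w, y, hw, hn, ht, h2⟩ := zrt_core F₀ θ ((hS.union (finite_der F₀ h1)).union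
    (finite_pole F₀ (dT (pol k F₀ Polynomial.X) (pol k F₀ c ^ p ^ e - θ))⁻¹))
    (H := (Polynomial.X ^ p + Polynomial.C c) ^ p ^ e) (by
      rw [Polynomial.natDegree_pow, Polynomial.natDegree_X_pow_add_C]
      exact Nat.mul_pos (pow_pos hp e) hp)
  rw [Polynomial.eval_pow, Polynomial.eval_add, Polynomial.eval_pow, Polynomial.eval_X,
    Polynomial.eval_C, map_pow] at h2
  refine ⟨w, y ^ p + c, hw, fun h => hn (Or.inl (Or.inl h)), ht,
    zrt_ord (dT (pol k F₀ Polynomial.X)) hw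
      (fun a ha => not_lt.1 fun h => hn (Or.inl (Or.inr ⟨hw, a, ha, h⟩))) h2 ?_⟩
  have h3 : w (dT (pol k F₀ Polynomial.X) (pol k F₀ c ^ p ^ e - θ))⁻¹ ≤ 1 :=
    not_lt.1 fun h => hn (Or.inr ⟨hw, h⟩)
  rw [map_inv₀, inv_le_one₀ (zero_lt_iff.2 (w.ne_zero_iff.2 hc))] at h3
  rwa [map_add, add_pow_char_pow, map_pow, ← pow_mul, mul_comm p, pow_mul, add_sub_assoc, map_add,
    nc3a_pow, zero_add]

/-- Induction on `e`: if `0 < e` and `θ = y ^ p`, use the statement for `y` and `e - 1`. Otherwise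
let `D = dT t` be the derivation (`p1_pol`), with kernel the `p`-th powers. Take `s = ε t + y ^ p`
with `ε ∈ {0, 1}` such that `δ = D (s ^ p ^ e - θ) ≠ 0`; `δ` does not depend on `y`. Apply `schur` to
`G(Y) = d μ ((ε t + Y ^ p) ^ p ^ e)`, `μ` the minimal polynomial of `θ`, where `d` clears the
denominators, and avoid the primes under `S`, under the exceptional set of `finite_der`, and
under the zeros and poles of `δ` (`exists_pol_small`, `finite_pole`). Some conjugate `w` over `π`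
has `w (s ^ p ^ e - θ) < 1`; the order is `1` since `D` of an element of order `≥ 2` has positive
order. -/
theorem ex_root {k : Type} [Field k] (F₀ : Type) [Field F₀] [Finite F₀] [Algebra (RatFunc F₀) k]
    [FiniteDimensional (RatFunc F₀) k] [IsGalois (RatFunc F₀) k] (p : ℕ) [Fact p.Prime]
    [CharP F₀ p] (θ : k) (e : ℕ) {S : Set (Vl k)} (hS : S.Finite) :
    ∃ (w : Vl k) (s : F₀[X]) (j : ℕ), Nrm w ∧ w ∉ S ∧ w (pol k F₀ Polynomial.X) ≤ 1 ∧
      w (pol k F₀ s ^ p ^ e - θ) = WithZero.exp (-((p ^ j : ℕ) : ℤ)) := by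
  have hk : CharP k p :=
    charP_of_injective_ringHom ((pol k F₀).comp Polynomial.C).injective p
  have H : ∀ (θ : k) (e : ℕ), (e = 0 ∨ ∀ y, θ ≠ y ^ p) →
      ∃ (w : Vl k) (s : F₀[X]) (j : ℕ), Nrm w ∧ w ∉ S ∧ w (pol k F₀ Polynomial.X) ≤ 1 ∧
        w (pol k F₀ s ^ p ^ e - θ) = WithZero.exp (-((p ^ j : ℕ) : ℤ)) := fun θ e he => by
    obtain ⟨w, s, h1, h2, h3, h4⟩ := zrt_one F₀ p θ e he hS
    exact ⟨w, s, 0, h1, h2, h3, by rw [h4, pow_zero, Nat.cast_one]⟩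
  induction e generalizing θ with
  | zero => exact H θ 0 (Or.inl rfl)
  | succ e ih =>
    by_cases h : ∀ y, θ ≠ y ^ p
    · exact H θ _ (Or.inr h)
    · obtain ⟨y, hy⟩ := not_forall.1 h
      obtain rfl := not_not.1 hy
      obtain ⟨w, s, j, h1, h2, h3, h4⟩ := ih y
      refine ⟨w, s, j + 1, h1, h2, h3, ?_⟩
      rw [pow_succ p e, pow_mul, ← sub_pow_char, map_pow, h4, ← WithZero.exp_nsmul, pow_succ p j,
        nsmul_eq_mul, Nat.cast_mul, mul_neg, mul_comm]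

end Pool.Agent.ZFy.ZL
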