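import Pool.Agent.Lib.MP_879916_ag.SS.ZSd
import Pool.Agent.Lib.MP_879916_ag.SS.ZG1
import Pool.Agent.Lib.MP_751085_ag.ZF.Z.Inr
import Pool.Agent.Lib.MP_751085_ag.ZF.Z.Quot2

/-! The field of constants of an `l`-extension. -/

namespace Pool.Agent.ZFy.ZL

open Pool.Agent.ZCy Pool.Agent.ZFN
open scoped Classical WithZero Polynomial

set_option linter.unusedSectionVars false

variable {l q : ℕ} {K F : Type} [Field K] [Field F] [Algebra K[X] F] [IsFractionRing K[X] F]

variable {T N₃ N M : Type} [Field T] [Field N₃] [Field N] [Field M] [Algebra F T]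
  [FiniteDimensional F T] [IsGalois F T] [Algebra K N₃] [FiniteDimensional K N₃] [IsGalois K N₃]
  [Algebra F N] [FiniteDimensional F N] [IsGalois F N] [Algebra K M] [FiniteDimensional K M]
  [IsGalois K M] {ThK : K[X]} {τ : T →+* Ls N₃} {J : N →+* Ls M}

theorem zs3_ext {Ω : Type} [Field Ω] {f g : F →+* Ω}
    (h : ∀ p : K[X], f (algebraMap K[X] F p) = g (algebraMap K[X] F p)) (a : F) : f a = g a :=
  RingHom.congr_fun (IsLocalization.ringHom_ext (nonZeroDivisors K[X]) (RingHom.ext h)) a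

theorem zs3_pow {K E E' : Type} [Field K] [Field E] [Field E'] [Algebra K E] [Algebra K E']
    {j : E → E'} {g₀ : E ≃ₐ[K] E} {g : E' ≃ₐ[K] E'} (h : ∀ z, j (g₀ z) = g (j z)) (m : ℕ) :
    ∀ z, j ((g₀ ^ m) z) = (g ^ m) (j z) := by
  induction m with
  | zero => exact fun _ => rfl
  | succ m ih =>
    exact fun z => by rw [pow_succ', pow_succ', AlgEquiv.mul_apply, h, ih, AlgEquiv.mul_apply]

/-- `lm δ_M ∘ J = J ∘ g` and `lm eK ∘ J ∘ e = lm e₃ ∘ τ ∘ h` (`exists_twist`), so `g` fixes `e` -/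
theorem s3_lk (hτ : ∀ p, τ (toF K[X] F T p) = tL N₃ (p.map (algebraMap K N₃))) (e : T →ₐ[F] N)
    (hx : LXt l F (Set.range e)) (hJ : ∀ p, J (toF K[X] F N p) = tL M (p.map (algebraMap K M)))
    (hm : ∀ δ : M ≃ₐ[K] M, (∀ x, lm (δ : M →+* M) (J x) = J x) → δ = 1) : LK1 K N₃ l M := by
  intro L _ _ _ _ e₃ eK δ hδ
  obtain ⟨δM, hM⟩ := exists_restrict (K := K) (eK : M →+* L) (δ : L →+* L) fun a => by
    have e : (eK : M →+* L) (algebraMap K M a) = algebraMap K L a := eK.commutes a
    rw [e]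
    exact δ.commutes a
  replace hM : ∀ z, eK (δM z) = δ (eK z) := hM
  obtain ⟨g, hg⟩ := exists_restrict (K := F) J (lm (δM : M →+* M)) fun a =>
    zs3_ext (K := K) (f := ((lm (δM : M →+* M)).comp J).comp (algebraMap F N))
      (g := J.comp (algebraMap F N)) (fun p => by
        refine (congrArg (lm (δM : M →+* M)) (hJ p)).trans (Eq.trans ?_ (hJ p).symm)
        rw [lm_tM, Polynomial.map_map]
        exact congrArg (fun f => tL M (p.map f)) (RingHom.ext δM.commutes)) a
  obtain ⟨h, hh⟩ := exists_twist (K := F) ((lm (e₃ : N₃ →+* L)).comp τ)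
    (((lm (eK : M →+* L)).comp J).comp (e : T →+* N)) fun a =>
    zs3_ext (K := K) (f := (((lm (eK : M →+* L)).comp J).comp (e : T →+* N)).comp (algebraMap F T))
      (g := ((lm (e₃ : N₃ →+* L)).comp τ).comp (algebraMap F T)) (fun p => by
        have e1 : e (algebraMap F T (algebraMap K[X] F p)) = toF K[X] F N p := e.commutes _
        refine (congrArg (fun z => lm (eK : M →+* L) (J z)) e1).trans
          (Eq.trans ?_ (congrArg (lm (e₃ : N₃ →+* L)) (hτ p)).symm)
        rw [hJ, lm_tM, lm_tM, Polynomial.map_map, Polynomial.map_map]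
        exact congrArg (fun f => tL L (p.map f))
          (RingHom.ext fun a => (eK.commutes a).trans (e₃.commutes a).symm)) a
  replace hh : ∀ x, lm (eK : M →+* L) (J (e x)) = lm (e₃ : N₃ →+* L) (τ (h x)) := hh
  have hf : g ∈ fixS F (Set.range e) := by
    rintro _ ⟨x, rfl⟩
    refine J.injective ((lm (eK : M →+* L)).injective ?_)
    have e1 : ∀ y, lm (eK : M →+* L) (lm (δM : M →+* M) y) =
        lm (δ : L →+* L) (lm (eK : M →+* L) y) := fun y => by
      ext j
      exact hM _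
    rw [hg, e1, hh]
    ext j
    exact hδ _
  obtain ⟨n, hn⟩ := lxt_iff.1 hx g hf
  have hp : ∀ (m : ℕ) z, J ((g ^ m) z) = lm ((δM ^ m : M ≃ₐ[K] M) : M →+* M) (J z) := fun m => by
    induction m with
    | zero =>
      intro z
      ext j
      rfl
    | succ m ih =>
      intro z
      rw [pow_succ', pow_succ', AlgEquiv.mul_apply, hg, ih]
      ext j
      rfl
  refine ⟨n, fun a => ?_⟩
  rw [← zs3_pow hM, hm (δM ^ l ^ n) fun x => by rw [← hp, hn, AlgEquiv.one_apply],
    AlgEquiv.one_apply]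

/-- the cover of `exists_sdS` satisfies `SC` -/
theorem s3_sc (e : T →ₐ[F] N) (hx : LXt l F (Set.range e)) (hu : UnrOff F (toF K[X] F N) ThK)
    {N' : Type} [Field N'] [Algebra F N'] [FiniteDimensional F N'] [IsGalois F N'] (j : N →ₐ[F] N')
    (d : SecD 1 K M F N')
    (hs : ∀ g : N' ≃ₐ[F] N', (∀ x, g (j x) = j x) → (∀ a, g (d.c a) = d.c a) → g = 1) :
    SC l F ThK d (algebraMap K M) ((j : N →+* N').comp (e : T →+* N)) := by
  have r : ∀ (g : N' ≃ₐ[F] N') a, g ((j : N →+* N') (algebraMap F N a)) =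
      (j : N →+* N') (algebraMap F N a) := fun g a => by
    have e : (j : N →+* N') (algebraMap F N a) = algebraMap F N' a := j.commutes a
    rw [e]
    exact g.commutes a
  refine ⟨fun p => ?_, lxt_iff.2 fun g hg => ?_, gu_of_unrOff d fun P w hP hd hc => ?_⟩
  · rw [d.φ_map]
    exact (j.comp e).commutes _
  · obtain ⟨h1, h2⟩ := mem_fixS_union.1 hg
    obtain ⟨g₀, h₀⟩ := exists_restrict (K := F) (j : N →+* N') (g : N' →+* N') (r g)
    replace h₀ : ∀ z, j (g₀ z) = g (j z) := h₀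
    obtain ⟨n, hn⟩ := lxt_iff.1 hx g₀ (by
      rintro _ ⟨b, rfl⟩
      exact j.injective ((h₀ _).trans (h1 b)))
    refine ⟨n, hs _ (fun x => ?_) (mem_fixS_union.1 (pow_mem hg _)).2⟩
    rw [← zs3_pow h₀, hn, AlgEquiv.one_apply]
  · refine eq_bot_iff.2 fun g hg => Subgroup.mem_bot.2 (hs g (fun x => ?_) fun a => ?_)
    · refine fix_of_ine (K := F) (j : N →+* N') (g : N' ≃+* N') (r g) w hg.1 hg.2
        (hu P _ hP hd ?_) x
      have e : ∀ p, w.comap (j : N →+* N') (toF K[X] F N p) = w (toF K[X] F N' p) := fun p =>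
        congrArg w (j.commutes _)
      exact ⟨fun p => (e p).trans_le (hc.1 p), fun p => e p ▸ hc.2 p⟩
    · refine ine_fix_int hg (d.c.comp (algebraMap K M)) (fun b => ?_) (fun b => ?_)
        (misc1_int (Algebra.IsIntegral.isIntegral (R := K) a) d.c)
      · rw [RingHom.comp_apply, ← d.φ_C, ← Polynomial.map_C, d.φ_map]
        exact g.commutes _
      · rw [RingHom.comp_apply, ← d.φ_C, ← Polynomial.map_C, d.φ_map]
        exact hc.1 _

end Pool.Agent.ZFy.ZL
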