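import Pool.Agent.Lib.MP_879916_ag.SS.ZUn
import Pool.Agent.Lib.MP_751085_ag.ZF.N.C3
import Pool.Agent.Lib.MP_751085_ag.ZF.Z.Misc2

/-! Places at which a given element has a simple zero. -/

namespace Pool.Agent.ZFy.ZL

open Pool.Agent.ZCy Pool.Agent.ZFN
open scoped Classical WithZero Polynomial

set_option linter.unusedSectionVars false

theorem zsch_prime {F₀ : Type} [Field F₀] {d e : F₀[X]} (h : ∀ a : F₀, 1 + d * e ≠ Polynomial.C a) :
    ∃ π : F₀[X], Prime π ∧ ¬π ∣ d ∧ π ∣ 1 + d * e := by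
  have h0 : 1 + d * e ≠ 0 := by simpa using h 0
  have h1 : ¬IsUnit (1 + d * e) := by
    intro hu
    obtain ⟨r, -, hr⟩ := Polynomial.isUnit_iff.1 hu
    exact h r hr.symm
  obtain ⟨π, hπ, hdv⟩ := WfDvdMonoid.exists_irreducible_factor h1 h0
  refine ⟨π, hπ.prime, fun hd => hπ.not_isUnit (isUnit_of_dvd_one ?_), hdv⟩
  exact (dvd_add_left (hd.mul_right e)).1 hdv

theorem zsch_val {F₀ : Type} [Field F₀] [Finite F₀] {R : F₀[X][X]} (hR : ∀ a, R ≠ Polynomial.C a) :
    ∃ u : F₀[X], ∀ a : F₀, R.eval u ≠ Polynomial.C a := by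
  have hf : (⋃ a : F₀, {u : F₀[X] | (R - Polynomial.C (Polynomial.C a)).IsRoot u}).Finite :=
    Set.finite_iUnion fun a => Polynomial.finite_setOfPred_isRoot (sub_ne_zero.2 (hR _))
  obtain ⟨u, hu⟩ := hf.exists_notMem
  refine ⟨u, fun a ha => hu (Set.mem_iUnion.2 ⟨a, ?_⟩)⟩
  simp [Polynomial.IsRoot, ha]

/-- Euclid's argument. If `G(0) = 0` take `y = 0` and a prime off `d`. Otherwise
`G (G(0) d u) = G(0) (1 + d u H(u))`, and `1 + d u H(u)` is a unit or zero for finitely many `u`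
only (or: it has positive degree if `u` has large degree). -/
theorem schur {F₀ : Type} [Field F₀] [Finite F₀] {G : F₀[X][X]} (hG : 0 < G.natDegree) {d : F₀[X]}
    (hd : d ≠ 0) : ∃ π y : F₀[X], Prime π ∧ ¬π ∣ d ∧ π ∣ G.eval y := by
  have hG1 : G.divX ≠ 0 := by
    intro h
    rw [Polynomial.divX_eq_zero_iff.1 h] at hG
    simp at hG
  have key : ∀ c : F₀[X], c ≠ 0 → ∀ H : F₀[X][X], H ≠ 0 → ∃ π u : F₀[X], Prime π ∧ ¬π ∣ d ∧
      π ∣ 1 + d * (u * H.eval (c * u)) := by
    intro c hc H hH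
    have hc' : H.comp (Polynomial.C c * Polynomial.X) ≠ 0 := by
      intro h
      rcases Polynomial.comp_eq_zero_iff.1 h with h | ⟨-, h⟩
      · exact hH h
      · have := congrArg (fun p => p.coeff 1) h
        simp [hc] at this
    obtain ⟨u, hu⟩ := zsch_val
      (R := 1 + Polynomial.C d * (Polynomial.X * H.comp (Polynomial.C c * Polynomial.X))) (by
        intro a ha
        have h0 := congrArg (Polynomial.eval 0) ha
        simp at h0
        rw [← h0] at ha
        simp [hd, hc'] at ha)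
    obtain ⟨π, h1, h2, h3⟩ := zsch_prime (d := d) (e := u * H.eval (c * u)) (by
      simpa [Polynomial.eval_comp] using hu)
    exact ⟨π, u, h1, h2, h3⟩
  by_cases hc : G.coeff 0 = 0
  · obtain ⟨π, u, h1, h2, -⟩ := key 1 one_ne_zero 1 one_ne_zero
    exact ⟨π, 0, h1, h2, by rw [← Polynomial.coeff_zero_eq_eval_zero, hc]; exact dvd_zero _⟩
  obtain ⟨π, u, h1, h2, h3⟩ := key (G.coeff 0 * d) (mul_ne_zero hc hd) G.divX hG1
  refine ⟨π, G.coeff 0 * d * u, h1, h2, ?_⟩
  have e : G.eval (G.coeff 0 * d * u) =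
      G.coeff 0 * (1 + d * (u * G.divX.eval (G.coeff 0 * d * u))) := by
    have := congrArg (Polynomial.eval (G.coeff 0 * d * u)) (Polynomial.divX_mul_X_add G)
    simp only [Polynomial.eval_add, Polynomial.eval_mul, Polynomial.eval_X,
      Polynomial.eval_C] at this
    rw [← this]
    ring
  rw [e]
  exact h3.mul_left _

end Pool.Agent.ZFy.ZL
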