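import Pool.Agent.Lib.MP_879916_ag.SS.ZUn
import Pool.Agent.Lib.MP_751085_ag.ZF.Z.Red

/-! The split cover. -/

namespace Pool.Agent.ZFy.ZL

open Pool.Agent.ZCy Pool.Agent.ZFN
open scoped Classical WithZero Polynomial
open MvPolynomial

set_option linter.unusedSectionVars false

variable {l q : ℕ} {K F : Type} [Field K] [Field F] [Algebra K[X] F] [IsFractionRing K[X] F]

/-- copy of `exists_sd` (ZF/Z/SplA) -/
theorem exists_sdS {M N : Type} [Field M] [Field N] [Algebra K M] [FiniteDimensional K M]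
    [IsGalois K M] [Algebra F N] [FiniteDimensional F N] [IsGalois F N] (J : N →+* Ls M)
    (hJ : ∀ p, J (toF K[X] F N p) = tL M (p.map (algebraMap K M))) :
    ∃ (N' : Type) (_ : Field N') (_ : Algebra F N') (_ : FiniteDimensional F N')
      (_ : IsGalois F N') (j : N →ₐ[F] N') (d : SecD 1 K M F N'), (∀ x, d.ι (j x) = J x) ∧
      ∀ g : N' ≃ₐ[F] N', (∀ x, g (j x) = j x) → (∀ a, g (d.c a) = d.c a) → g = 1 := by
  obtain ⟨N', _, _, _, _, j, c, i, h1, h2, h3⟩ := spla_sup ((algebraMap K[X] F).comp Polynomial.C)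
    (HahnSeries.C : M →+* Ls M) J fun a =>
      ((hJ _).trans ((congrArg _ (Polynomial.map_C _)).trans (sec_tM_C _))).symm
  exact ⟨N', inferInstance, inferInstance, inferInstance, inferInstance, j, ⟨c, i, h2, fun p =>
    (congrArg i (j.commutes _).symm).trans ((h1 _).trans (hJ p))⟩, h1, h3⟩

/-- `SupN.le`, `d.ht` -/
theorem SupN.gauP {M N : Type} [Field M] [Field N] [Algebra K M] [Algebra F N]
    {d : SecD 1 K M F N} {u : Vl K} {w : Vl M} {W : Vl N} (h : SupN d.ι w W)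
    (hw : Over (algebraMap K M) u w) : GauP u (toF K[X] F N) W := by
  intro p hp
  have e : ∀ i : ℤ, (d.ι (toF K[X] F N p)).coeff i = 0 ∨
      ∃ n, (d.ι (toF K[X] F N p)).coeff i = algebraMap K M (p.coeff n) := fun i => by
    rw [d.ht]
    exact (tM_coeff_cases one_pos _ i).imp id fun ⟨n, hn⟩ => ⟨n, by rw [hn, Polynomial.coeff_map]⟩
  have h1 : ∀ i : ℤ, w ((d.ι (toF K[X] F N p)).coeff i) ≤ 1 := fun i => by
    rcases e i with h0 | ⟨n, hn⟩
    · rw [h0, map_zero]; exact zero_le_one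
    · exact hn ▸ (hw _).2 (hp n)
  refine ⟨(h.le _ h1).1, ?_⟩
  rw [(h.le _ h1).2]
  refine ⟨fun hl n => (hw.lt_one _).1 ?_, fun hl i => ?_⟩
  · have := hl (-((1 * n : ℕ) : ℤ))
    rwa [d.ht, tM_coeff one_pos, Polynomial.coeff_map] at this
  · rcases e i with h0 | ⟨n, hn⟩
    · rw [h0, map_zero]; exact zero_lt_one
    · exact hn ▸ (hw.lt_one _).2 (hl n)

end Pool.Agent.ZFy.ZL
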